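import Pool.Agent.R280.PosTensor

/-!
Continuous functions all of whose fibres are null sets.
-/

set_option autoImplicit false
set_option linter.unusedSectionVars false

open Set Topology Filter MeasureTheory

universe u v w

namespace Pool.Agent.R280.BLat

section

variable {K : Type u} [TopologicalSpace K] [CompactSpace K] [T2Space K] [MeasurableSpace K]
  [BorelSpace K] (μ : Measure K) [IsFiniteMeasure μ] [μ.Regular]

/-- the functions with fibres of small measure -/
def smallFib (ε : ℝ) : Set C(K, ℝ) := {g | ∀ c : ℝ, μ.real {k | g k = c} < ε}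

lemma smallFib_isOpen {ε : ℝ} (hε : 0 < ε) : IsOpen (smallFib μ ε) := by
  rw [Metric.isOpen_iff]
  intro g hg
  by_contra hcon
  push Not at hcon
  have h1 : ∀ n : ℕ, ∃ (f : C(K, ℝ)) (c : ℝ), ‖f - g‖ < 1 / ((n : ℝ) + 1) ∧
      ε ≤ μ.real {k | f k = c} := by
    intro n
    have h2 := hcon (1 / ((n : ℝ) + 1)) (by positivity)
    obtain ⟨f, hf, hf2⟩ := not_subset.1 h2
    rw [Metric.mem_ball, dist_eq_norm] at hf
    have h3 : ∃ c : ℝ, ε ≤ μ.real {k | f k = c} := by
      by_contra h4
      push Not at h4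
      exact hf2 h4
    obtain ⟨c, hc⟩ := h3
    exact ⟨f, c, hf, hc⟩
  choose f c hf hc using h1
  have hcb : ∀ n, c n ∈ Icc (-(‖g‖ + 1)) (‖g‖ + 1) := by
    intro n
    have hne : {k | f n k = c n}.Nonempty := by
      by_contra h
      rw [not_nonempty_iff_eq_empty] at h
      have := hc n
      rw [h, measureReal_empty] at this
      linarith
    obtain ⟨k, hk⟩ := hne
    have hk' : f n k = c n := hk
    have h2 : |c n| ≤ ‖f n‖ := by
      rw [← hk']
      exact (f n).norm_coe_le_norm k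
    have h3 : ‖f n‖ ≤ ‖g‖ + 1 := by
      have h4 : f n = (f n - g) + g := by abel
      have h5 : ‖f n‖ ≤ ‖f n - g‖ + ‖g‖ := by
        conv_lhs => rw [h4]
        exact norm_add_le _ _
      have h6 := hf n
      have h7 : 1 / ((n : ℝ) + 1) ≤ 1 := by
        rw [div_le_one (by positivity)]
        have : (0 : ℝ) ≤ n := Nat.cast_nonneg n
        linarith
      linarith
    exact abs_le.1 (h2.trans h3)
  obtain ⟨c0, -, φ, hφ, hlim⟩ := isCompact_Icc.tendsto_subseq hcb
  have h2 : ∀ m : ℕ, ε ≤ μ.real {k | |g k - c0| ≤ 1 / ((m : ℝ) + 1)} := by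
    intro m
    have h3 : ∀ᶠ n in atTop, dist (c (φ n)) c0 < 1 / ((m : ℝ) + 1) / 2 :=
      (Metric.tendsto_nhds.1 hlim) _ (by positivity)
    have h4 : ∀ᶠ n in atTop, (1 : ℝ) / ((φ n : ℝ) + 1) < 1 / ((m : ℝ) + 1) / 2 := by
      have h5 : Tendsto (fun n : ℕ => (1 : ℝ) / ((φ n : ℝ) + 1)) atTop (𝓝 0) :=
        tendsto_one_div_add_atTop_nhds_zero_nat.comp hφ.tendsto_atTop
      exact h5.eventually_lt_const (by positivity)
    obtain ⟨n, hn1, hn2⟩ := (h3.and h4).exists
    refine (hc (φ n)).trans (measureReal_mono ?_)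
    intro k hk
    have hk' : f (φ n) k = c (φ n) := hk
    show |g k - c0| ≤ _
    have h5 : |f (φ n) k - g k| ≤ ‖f (φ n) - g‖ := (f (φ n) - g).norm_coe_le_norm k
    have h6 := hf (φ n)
    rw [Real.dist_eq] at hn1
    have h7 : g k - c0 = -(f (φ n) k - g k) + (c (φ n) - c0) := by rw [hk']; ring
    rw [h7]
    refine (abs_add_le _ _).trans ?_
    rw [abs_neg]
    linarith
  have h3 : (⋂ m : ℕ, {k | |g k - c0| ≤ 1 / ((m : ℝ) + 1)}) = {k | g k = c0} := by
    ext k
    simp only [mem_iInter, mem_ofPred_eq]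
    constructor
    · intro h
      have h4 : |g k - c0| ≤ 0 := ge_of_tendsto' tendsto_one_div_add_atTop_nhds_zero_nat h
      exact sub_eq_zero.1 (abs_eq_zero.1 (le_antisymm h4 (abs_nonneg _)))
    · intro h m
      rw [h, sub_self, abs_zero]
      positivity
  have h4 := tendsto_measure_iInter_atTop (μ := μ)
    (s := fun m : ℕ => {k | |g k - c0| ≤ 1 / ((m : ℝ) + 1)})
    (fun m => (isClosed_le (by fun_prop) continuous_const).measurableSet.nullMeasurableSet)
    (fun m n hmn k hk => by
      have hk' : |g k - c0| ≤ 1 / ((n : ℝ) + 1) := hk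
      show |g k - c0| ≤ 1 / ((m : ℝ) + 1)
      refine hk'.trans ?_
      exact one_div_le_one_div_of_le (by positivity) (by
        have : (m : ℝ) ≤ n := Nat.cast_le.2 hmn
        linarith)) ⟨0, measure_ne_top _ _⟩
  rw [h3] at h4
  have h5 : ENNReal.ofReal ε ≤ μ {k | g k = c0} := by
    refine ge_of_tendsto' h4 fun m => ?_
    exact (ENNReal.ofReal_le_iff_le_toReal (measure_ne_top _ _)).2 (h2 m)
  rw [ENNReal.ofReal_le_iff_le_toReal (measure_ne_top _ _)] at h5
  exact absurd (hg c0) (not_lt.2 h5)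

lemma smallFib_dense (h0 : ∀ k, μ {k} = 0) {ε : ℝ} (hε : 0 < ε) : Dense (smallFib μ ε) := by
  classical
  rw [Metric.dense_iff]
  intro g η' hη'
  set η := η' / 2 with hη
  have hη0 : 0 < η := by positivity
  -- small neighbourhoods
  have h1 : ∀ k, ∃ V : Set K, k ∈ V ∧ IsOpen V ∧ μ.real V < ε / 4 := by
    intro k
    obtain ⟨V, hV, hVo, hV2⟩ := Set.exists_isOpen_lt_of_lt (μ := μ) {k} (ENNReal.ofReal (ε / 4)) (by
      rw [h0]
      exact ENNReal.ofReal_pos.2 (by positivity))
    exact ⟨V, hV rfl, hVo, ENNReal.toReal_lt_of_lt_ofReal hV2⟩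
  choose V hkV hVo hVm using h1
  let W : K → Set K := fun k => V k ∩ {k' | |g k' - g k| < η / 2}
  have hWo : ∀ k, IsOpen (W k) := fun k =>
    (hVo k).inter (isOpen_lt (by fun_prop) continuous_const)
  obtain ⟨t, ht⟩ := isCompact_univ.elim_finite_subcover W hWo (fun k _ => by
    refine mem_iUnion.2 ⟨k, hkV k, ?_⟩
    show |g k - g k| < η / 2
    rw [sub_self, abs_zero]
    positivity)
  set m := t.card with hm
  let κ : Fin m → K := fun j => (t.equivFin.symm j : K)
  have hcov : ∀ k, ∃ j, k ∈ W (κ j) := by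
    intro k
    obtain ⟨k', hk', hk2⟩ := mem_iUnion₂.1 (ht (mem_univ k))
    refine ⟨t.equivFin ⟨k', hk'⟩, ?_⟩
    show k ∈ W (t.equivFin.symm (t.equivFin ⟨k', hk'⟩) : K)
    rw [Equiv.symm_apply_apply]
    exact hk2
  -- Borel partition
  let D : Fin m → Set K := fun j => W (κ j) \ ⋃ i ∈ {i : Fin m | i < j}, W (κ i)
  have hDm : ∀ j, MeasurableSet (D j) := fun j =>
    (hWo _).measurableSet.diff (MeasurableSet.biUnion (to_countable _)
      fun i _ => (hWo _).measurableSet)
  have hDcov : ∀ k, ∃ j, k ∈ D j := by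
    intro k
    obtain ⟨j, hj, hmin⟩ := WellFounded.has_min (wellFounded_lt (α := Fin m)) {j | k ∈ W (κ j)} (hcov k)
    refine ⟨j, hj, ?_⟩
    simp only [mem_iUnion, not_exists]
    intro i hi hki
    exact hmin i hki hi
  have hDdisj : ∀ i j, i ≠ j → ∀ k, k ∈ D i → k ∉ D j := by
    have h2 : ∀ i j, i < j → ∀ k, k ∈ D i → k ∉ D j := by
      intro i j hij k hki hkj
      exact hkj.2 (mem_biUnion (show i ∈ {i : Fin m | i < j} from hij) hki.1)
    intro i j hij k hki hkj
    rcases lt_or_gt_of_ne hij with h | h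
    · exact h2 i j h k hki hkj
    · exact h2 j i h k hkj hki
  have h3 : ∀ j, ∃ C : Set K, C ⊆ D j ∧ IsCompact C ∧ μ.real (D j \ C) < ε / (4 * (m + 1)) := by
    intro j
    obtain ⟨C, hC1, hC2, hC3⟩ := (hDm j).exists_isCompact_sdiff_lt (μ := μ) (measure_ne_top _ _)
      (ε := ENNReal.ofReal (ε / (4 * (m + 1)))) (by
        have : 0 < ε / (4 * ((m : ℝ) + 1)) := by positivity
        exact (ENNReal.ofReal_pos.2 this).ne')
    exact ⟨C, hC1, hC2, ENNReal.toReal_lt_of_lt_ofReal hC3⟩
  choose C hCD hCc hCm using h3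
  -- distinct values
  obtain ⟨a, ha1, ha2⟩ : ∃ a : Fin m → ℝ, Function.Injective a ∧ ∀ j, |a j - g (κ j)| < η / 2 := by
    let bad : Set ℝ := Set.range fun q : Fin m × Fin m =>
      (g (κ q.1) - g (κ q.2)) / (((q.2 : ℕ) : ℝ) - ((q.1 : ℕ) : ℝ))
    have hbad : bad.Finite := Set.finite_range _
    obtain ⟨s, hs, hsb⟩ := ((Set.Ioo_infinite (show (0 : ℝ) < η / (2 * (m + 1)) by positivity)).sdiff
      hbad).nonempty
    refine ⟨fun j => g (κ j) + s * ((j : ℕ) : ℝ), ?_, ?_⟩
    · intro i j hij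
      by_contra hne
      apply hsb
      refine ⟨(i, j), ?_⟩
      show (g (κ i) - g (κ j)) / (((j : ℕ) : ℝ) - ((i : ℕ) : ℝ)) = s
      have hne2 : ((j : ℕ) : ℝ) - ((i : ℕ) : ℝ) ≠ 0 := by
        rw [sub_ne_zero]
        intro h
        exact hne (Fin.ext (Nat.cast_injective h)).symm
      rw [div_eq_iff hne2]
      have h4 : g (κ i) + s * ((i : ℕ) : ℝ) = g (κ j) + s * ((j : ℕ) : ℝ) := hij
      linarith
    · intro j
      have h4 : g (κ j) + s * ((j : ℕ) : ℝ) - g (κ j) = s * ((j : ℕ) : ℝ) := by ring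
      rw [h4, abs_of_nonneg (mul_nonneg hs.1.le (Nat.cast_nonneg _))]
      have h5 : ((j : ℕ) : ℝ) ≤ m := Nat.cast_le.2 j.2.le
      have h6 : s * ((j : ℕ) : ℝ) ≤ s * (m + 1) := mul_le_mul_of_nonneg_left (by linarith) hs.1.le
      have h7 : s * ((m : ℝ) + 1) < η / (2 * (m + 1)) * (m + 1) :=
        mul_lt_mul_of_pos_right hs.2 (by positivity)
      have h8 : η / (2 * ((m : ℝ) + 1)) * (m + 1) = η / 2 := by field_simp
      linarith
  -- partition of unity
  let V' : Fin m → Set K := fun j => W (κ j) \ ⋃ i ∈ {i : Fin m | i ≠ j}, C i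
  have hV'o : ∀ j, IsOpen (V' j) := fun j =>
    (hWo _).sdiff (Set.Finite.isClosed_biUnion (Set.toFinite _) fun i _ => (hCc i).isClosed)
  have hV'cov : (univ : Set K) ⊆ ⋃ j, V' j := by
    intro k _
    by_cases hk : ∃ i, k ∈ C i
    · obtain ⟨i, hi⟩ := hk
      refine mem_iUnion.2 ⟨i, (hCD i hi).1, ?_⟩
      simp only [mem_iUnion, not_exists]
      intro j hj hkj
      exact hDdisj i j (Ne.symm hj) k (hCD i hi) (hCD j hkj)
    · push Not at hk
      obtain ⟨j, hj⟩ := hcov k
      refine mem_iUnion.2 ⟨j, hj, ?_⟩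
      simp only [mem_iUnion, not_exists]
      intro i _ hki
      exact hk i hki
  obtain ⟨p, hp1, hp2, hp3, -⟩ := exists_continuous_sum_one_of_isOpen_isCompact hV'o
    isCompact_univ hV'cov
  have hpsum : ∀ k, ∑ j, p j k = 1 := fun k => by
    have := hp2 (mem_univ k)
    simpa using this
  have hpsupp : ∀ j k, p j k ≠ 0 → k ∈ V' j := fun j k hjk => hp1 j (subset_tsupport _ hjk)
  let g' : C(K, ℝ) := ∑ j, a j • p j
  have hg' : ∀ k, g' k = ∑ j, a j * p j k := fun k => by
    simp [g', ContinuousMap.sum_apply]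
  have hgC : ∀ i, ∀ k ∈ C i, g' k = a i := by
    intro i k hk
    have h4 : ∀ j, j ≠ i → p j k = 0 := by
      intro j hj
      by_contra hne
      have h5 := (hpsupp j k hne).2
      exact h5 (mem_biUnion (show i ∈ {i : Fin m | i ≠ j} from Ne.symm hj) hk)
    have h5 : ∑ j, p j k = p i k := Finset.sum_eq_single i (fun j _ hj => h4 j hj)
      (fun h => absurd (Finset.mem_univ i) h)
    rw [hpsum] at h5
    rw [hg', Finset.sum_eq_single i (fun j _ hj => by rw [h4 j hj, mul_zero])
      (fun h => absurd (Finset.mem_univ i) h), ← h5, mul_one]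
  refine ⟨g', ?_, ?_⟩
  · rw [Metric.mem_ball, dist_eq_norm]
    refine lt_of_le_of_lt ?_ (show η < η' by linarith)
    rw [ContinuousMap.norm_le _ hη0.le]
    intro k
    rw [ContinuousMap.sub_apply, hg', Real.norm_eq_abs]
    have h4 : ∑ j, a j * p j k - g k = ∑ j, (a j - g k) * p j k := by
      simp only [sub_mul]
      rw [Finset.sum_sub_distrib, ← Finset.mul_sum, hpsum, mul_one]
    rw [h4]
    refine (Finset.abs_sum_le_sum_abs _ _).trans ?_
    have h5 : ∀ j ∈ Finset.univ, |(a j - g k) * p j k| ≤ η * p j k := by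
      intro j _
      rw [abs_mul, abs_of_nonneg (hp3 j k).1]
      by_cases hz : p j k = 0
      · rw [hz, mul_zero, mul_zero]
      · refine mul_le_mul_of_nonneg_right ?_ (hp3 j k).1
        have h6 : |g k - g (κ j)| < η / 2 := (hpsupp j k hz).1.2
        have h7 := ha2 j
        have h8 : a j - g k = (a j - g (κ j)) - (g k - g (κ j)) := by ring
        rw [h8]
        refine (abs_sub _ _).trans ?_
        linarith
    refine (Finset.sum_le_sum h5).trans ?_
    rw [← Finset.mul_sum, hpsum, mul_one]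
  · intro c
    have hrest : μ.real (⋃ j, D j \ C j) ≤ ε / 4 := by
      refine (measureReal_iUnion_fintype_le _).trans ?_
      refine (Finset.sum_le_sum fun j _ => (hCm j).le).trans ?_
      rw [Finset.sum_const, Finset.card_univ, Fintype.card_fin, nsmul_eq_mul]
      rw [mul_div_assoc', div_le_div_iff₀ (by positivity) (by positivity)]
      nlinarith
    by_cases hc : ∃ i, a i = c
    · obtain ⟨i, hi⟩ := hc
      have hsub : {k | g' k = c} ⊆ (⋃ j, D j \ C j) ∪ V (κ i) := by
        intro k hk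
        have hk' : g' k = c := hk
        obtain ⟨j, hj⟩ := hDcov k
        by_cases hkj : k ∈ C j
        · right
          have h4 := hgC j k hkj
          rw [hk', ← hi] at h4
          have h5 : i = j := ha1 h4
          subst h5
          exact hj.1.1
        · left
          exact mem_iUnion.2 ⟨j, hj, hkj⟩
      have h4 := (measureReal_mono (μ := μ) hsub).trans (measureReal_union_le _ _)
      have h5 := hVm (κ i)
      linarith
    · push Not at hc
      have hsub : {k | g' k = c} ⊆ (⋃ j, D j \ C j) := by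
        intro k hk
        have hk' : g' k = c := hk
        obtain ⟨j, hj⟩ := hDcov k
        by_cases hkj : k ∈ C j
        · have h4 := hgC j k hkj
          rw [hk'] at h4
          exact absurd h4.symm (hc j)
        · exact mem_iUnion.2 ⟨j, hj, hkj⟩
      have h4 := measureReal_mono (μ := μ) hsub
      linarith

/-- A regular measure without point masses has a continuous function with null fibres. -/
theorem exists_null_fibres (h0 : ∀ k, μ {k} = 0) : ∃ g : C(K, ℝ), ∀ c : ℝ, μ {k | g k = c} = 0 := by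
  have h1 : Dense (⋂ n : ℕ, smallFib μ (1 / ((n : ℝ) + 1))) :=
    dense_iInter_of_isOpen_nat (fun n => smallFib_isOpen μ (by positivity))
      (fun n => smallFib_dense μ h0 (by positivity))
  obtain ⟨g, hg⟩ := h1.nonempty
  rw [mem_iInter] at hg
  refine ⟨g, fun c => ?_⟩
  have h2 : μ.real {k | g k = c} ≤ 0 :=
    ge_of_tendsto' tendsto_one_div_add_atTop_nhds_zero_nat fun n => (hg n c).le
  have h3 : μ.real {k | g k = c} = 0 := le_antisymm h2 measureReal_nonneg
  rwa [measureReal_eq_zero_iff] at h3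

end

end Pool.Agent.R280.BLat
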