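import Pool.Agent.R280.BLat

/-!
Order continuous functionals.
-/

set_option autoImplicit false
set_option linter.unusedSectionVars false

open Set Topology Filter

universe u v w

namespace Pool.Agent.R280.BLat

variable {X : Type u} [NormedAddCommGroup X] [NormedSpace ℝ X] [Lattice X]

/-- `f` is order continuous: `f (x_i) → 0` for every net `(x_i)` which decreases to `0`. -/
def IsOrderCont (f : X →L[ℝ] ℝ) : Prop :=
  ∀ (ι : Type u) [Preorder ι] [IsDirectedOrder ι] [Nonempty ι] (x : ι → X), Antitone x →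
    IsGLB (Set.range x) 0 → Tendsto (fun i => f (x i)) atTop (𝓝 0)

/-- `a` is an atom: `a > 0` and every `x` with `0 ≤ x ≤ a` is a multiple of `a`. -/
def IsAtomEl (a : X) : Prop := 0 < a ∧ ∀ x, 0 ≤ x → x ≤ a → ∃ l : ℝ, 0 ≤ l ∧ x = l • a

variable [BanachLattice X]

lemma IsOrderCont.exists_small {f : X →L[ℝ] ℝ} (hf : IsOrderCont f) {D : Set X} (hne : D.Nonempty)
    (hdir : ∀ a ∈ D, ∀ b ∈ D, ∃ c ∈ D, c ≤ a ∧ c ≤ b) (hglb : IsGLB D 0) {m : ℝ} (hm : 0 < m) :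
    ∃ d ∈ D, f d < m := by
  have : Nonempty (↥D)ᵒᵈ := ⟨OrderDual.toDual ⟨hne.choose, hne.choose_spec⟩⟩
  have : IsDirectedOrder (↥D)ᵒᵈ := ⟨fun a b => by
    obtain ⟨c, hc, h1, h2⟩ := hdir (OrderDual.ofDual a).1 (OrderDual.ofDual a).2
      (OrderDual.ofDual b).1 (OrderDual.ofDual b).2
    exact ⟨OrderDual.toDual ⟨c, hc⟩, h1, h2⟩⟩
  have h1 := hf (↥D)ᵒᵈ (fun d => ((OrderDual.ofDual d : ↥D) : X)) (fun a b hab => hab) (by
    have h2 : Set.range (fun d : (↥D)ᵒᵈ => ((OrderDual.ofDual d : ↥D) : X)) = D := by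
      ext x
      constructor
      · rintro ⟨d, rfl⟩
        exact (OrderDual.ofDual d).2
      · intro hx
        exact ⟨OrderDual.toDual ⟨x, hx⟩, rfl⟩
    rw [h2]
    exact hglb)
  have h2 := (h1.eventually_lt_const hm).exists
  obtain ⟨d, hd⟩ := h2
  exact ⟨_, (OrderDual.ofDual d).2, hd⟩

lemma arch {w d : X} (hw : 0 ≤ w) (h : ∀ n : ℕ, (n : ℝ) • w ≤ d) : w = 0 := by
  by_contra hne
  have h0 : 0 < ‖w‖ := norm_pos_iff.2 hne
  obtain ⟨n, hn⟩ := exists_nat_gt (‖d‖ / ‖w‖)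
  have h1 := norm_le_of_nonneg (smul_nonneg (Nat.cast_nonneg n) hw) (h n)
  rw [norm_smul, Real.norm_of_nonneg (Nat.cast_nonneg n)] at h1
  rw [div_lt_iff₀ h0] at hn
  linarith

/-- a lower bound which is not negligible -/
theorem IsOrderCont.exists_lower {f : X →L[ℝ] ℝ} (hf : IsOrderCont f) {D : Set X}
    (hne : D.Nonempty) (hdir : ∀ a ∈ D, ∀ b ∈ D, ∃ c ∈ D, c ≤ a ∧ c ≤ b) {m : ℝ} (hm : 0 < m)
    (hfD : ∀ d ∈ D, m ≤ f d) (hD0 : ∀ d ∈ D, 0 ≤ d) :
    ∃ y, 0 ≤ y ∧ (∀ d ∈ D, y ≤ d) ∧ 0 < f y := by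
  by_contra hcon
  push Not at hcon
  obtain ⟨d0, hd0⟩ := hne
  obtain ⟨x, ⟨d, hd, l, hl0, hl, rfl⟩, hx⟩ := hf.exists_small
    (D := {x | ∃ d ∈ D, ∃ l, 0 ≤ l ∧ (∀ d' ∈ D, l ≤ d') ∧ x = d - l})
    ⟨d0 - 0, d0, hd0, 0, le_rfl, hD0, rfl⟩
    (by
      rintro _ ⟨d1, hd1, l1, hl10, hl1, rfl⟩ _ ⟨d2, hd2, l2, hl20, hl2, rfl⟩
      obtain ⟨d3, hd3, h1, h2⟩ := hdir d1 hd1 d2 hd2
      exact ⟨d3 - (l1 ⊔ l2), ⟨d3, hd3, l1 ⊔ l2, hl10.trans le_sup_left,
        fun d' hd' => sup_le (hl1 d' hd') (hl2 d' hd'), rfl⟩,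
        sub_le_sub h1 le_sup_left, sub_le_sub h2 le_sup_right⟩)
    (by
      constructor
      · rintro _ ⟨d, hd, l, -, hl, rfl⟩
        exact sub_nonneg.2 (hl d hd)
      · intro w hw
        have h1 : ∀ d ∈ D, ∀ l, 0 ≤ l → (∀ d' ∈ D, l ≤ d') → w ⊔ 0 ≤ d - l := fun d hd l hl0 hl =>
          sup_le (hw ⟨d, hd, l, hl0, hl, rfl⟩) (sub_nonneg.2 (hl d hd))
        have h2 : ∀ n : ℕ, 0 ≤ (n : ℝ) • (w ⊔ 0) ∧ ∀ d' ∈ D, (n : ℝ) • (w ⊔ 0) ≤ d' := by
          intro n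
          induction n with
          | zero =>
            rw [Nat.cast_zero, zero_smul]
            exact ⟨le_rfl, hD0⟩
          | succ n ih =>
            refine ⟨smul_nonneg (Nat.cast_nonneg _) le_sup_right, fun d' hd' => ?_⟩
            have h3 := h1 d' hd' _ ih.1 ih.2
            push_cast
            rw [add_smul, one_smul]
            rwa [le_sub_iff_add_le, add_comm] at h3
        have h3 := arch (w := w ⊔ 0) (d := d0) le_sup_right fun n => (h2 n).2 d0 hd0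
        rw [← h3]
        exact le_sup_left) hm
  rw [map_sub] at hx
  have h1 := hcon l hl0 hl
  have h2 := hfD d hd
  linarith

/-- the exhaustion argument -/
theorem IsOrderCont.exists_part {f : X →L[ℝ] ℝ} (hf : IsOrderCont f) (hpos : ∀ x, 0 ≤ x → 0 ≤ f x)
    {y : X} (hy : 0 ≤ y) (hfy : 0 < f y) {Q : X → Prop}
    (hQ : ∀ y', 0 ≤ y' → y' ≠ 0 → y' ≤ y → ∃ z, 0 ≤ z ∧ z ≠ 0 ∧ z ≤ y' ∧ Q z) :
    ∃ z, 0 ≤ z ∧ z ≤ y ∧ Q z ∧ 0 < f z := by
  by_contra hcon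
  push Not at hcon
  have hQ0 : ∀ z, 0 ≤ z → z ≤ y → Q z → f z = 0 := fun z h1 h2 h3 =>
    le_antisymm (hcon z h1 h2 h3) (hpos z h1)
  obtain ⟨x, ⟨d, hd0, hdy, hfd, rfl⟩, hx⟩ := hf.exists_small
    (D := {x | ∃ d, 0 ≤ d ∧ d ≤ y ∧ f d = 0 ∧ x = y - d})
    ⟨y - 0, 0, le_rfl, hy, map_zero f, rfl⟩
    (by
      rintro _ ⟨d1, h10, h1y, hf1, rfl⟩ _ ⟨d2, h20, h2y, hf2, rfl⟩
      refine ⟨y - (d1 ⊔ d2), ⟨d1 ⊔ d2, h10.trans le_sup_left, sup_le h1y h2y, ?_, rfl⟩,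
        sub_le_sub_left le_sup_left _, sub_le_sub_left le_sup_right _⟩
      refine le_antisymm ?_ (hpos _ (h10.trans le_sup_left))
      have h1 : d1 ⊔ d2 ≤ d1 + d2 :=
        sup_le (le_add_of_nonneg_right h20) (le_add_of_nonneg_left h10)
      have h2 := hpos _ (sub_nonneg.2 h1)
      rw [map_sub, map_add, hf1, hf2] at h2
      linarith)
    (by
      constructor
      · rintro _ ⟨d, -, hdy, -, rfl⟩
        exact sub_nonneg.2 hdy
      · intro w hw
        have h1 : ∀ d, 0 ≤ d → d ≤ y → f d = 0 → w ⊔ 0 ≤ y - d := fun d h0 h1 h2 =>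
          sup_le (hw ⟨d, h0, h1, h2, rfl⟩) (sub_nonneg.2 h1)
        by_contra hwn
        have hw0 : w ⊔ 0 ≠ 0 := fun h => hwn (by rw [← h]; exact le_sup_left)
        have hwy : w ⊔ 0 ≤ y := by
          have := h1 0 le_rfl hy (map_zero f)
          rwa [sub_zero] at this
        obtain ⟨z, hz0, hzn, hzw, hzQ⟩ := hQ _ le_sup_right hw0 hwy
        have hfz : f z = 0 := hQ0 z hz0 (hzw.trans hwy) hzQ
        apply hzn
        refine arch (d := y) hz0 fun n => ?_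
        induction n with
        | zero =>
          rw [Nat.cast_zero, zero_smul]
          exact hy
        | succ n ih =>
          have h3 := h1 _ (smul_nonneg (Nat.cast_nonneg n) hz0) ih (by
            rw [map_smul, hfz, smul_zero])
          have h4 := hzw.trans h3
          push_cast
          rw [add_smul, one_smul]
          rwa [le_sub_iff_add_le, add_comm] at h4) hfy
  rw [map_sub, hfd, sub_zero] at hx
  exact lt_irrefl _ hx

/-- reduction to positive functionals -/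
theorem IsOrderCont.exists_pos {f : X →L[ℝ] ℝ} (hf : IsOrderCont f)
    (hfa : ∀ a, IsAtomEl a → f a = 0) {x0 : X} (hx0 : 0 ≤ x0) (hfx0 : 0 < f x0) :
    ∃ g : X →L[ℝ] ℝ, IsOrderCont g ∧ (∀ x, 0 ≤ x → 0 ≤ g x) ∧ (∀ a, IsAtomEl a → g a = 0) ∧
      0 < g x0 := by
  let A : X → Set ℝ := fun y => {r | ∃ z, 0 ≤ z ∧ z ≤ y ⊔ 0 ∧ r = f z}
  let p : X → ℝ := fun y => sSup (A y)
  have hAne : ∀ y, (A y).Nonempty := fun y => ⟨f 0, 0, le_rfl, le_sup_right, rfl⟩
  have hAle : ∀ y, ∀ r ∈ A y, r ≤ ‖f‖ * ‖y‖ := by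
    rintro y r ⟨z, hz0, hz, rfl⟩
    refine (le_abs_self _).trans ((f.le_opNorm z).trans ?_)
    exact mul_le_mul_of_nonneg_left ((norm_le_of_nonneg hz0 hz).trans (norm_posPart_le y))
      (norm_nonneg _)
  have hAbdd : ∀ y, BddAbove (A y) := fun y => ⟨_, fun r hr => hAle y r hr⟩
  have hple : ∀ y, p y ≤ ‖f‖ * ‖y‖ := fun y => csSup_le (hAne y) (hAle y)
  have hlep : ∀ y z, 0 ≤ z → z ≤ y ⊔ 0 → f z ≤ p y := fun y z h1 h2 =>
    le_csSup (hAbdd y) ⟨z, h1, h2, rfl⟩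
  have hp0 : ∀ y, 0 ≤ p y := fun y => by
    have := hlep y 0 le_rfl le_sup_right
    rwa [map_zero] at this
  have hpadd : ∀ y z, p (y + z) ≤ p y + p z := by
    intro y z
    refine csSup_le (hAne _) ?_
    rintro r ⟨w, hw0, hw, rfl⟩
    have h1 : w ≤ (y ⊔ 0) + (z ⊔ 0) := by
      refine hw.trans (sup_le (add_le_add le_sup_left le_sup_left) ?_)
      exact add_nonneg le_sup_right le_sup_right
    have h2 : w = w ⊓ (y ⊔ 0) + (w - w ⊓ (y ⊔ 0)) := by abel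
    rw [h2, map_add]
    refine add_le_add (hlep y _ (le_inf hw0 le_sup_right) inf_le_right)
      (hlep z _ (sub_nonneg.2 inf_le_left) ?_)
    rw [sub_le_iff_le_add, add_inf]
    refine le_inf (le_add_of_nonneg_left le_sup_right) ?_
    rwa [add_comm]
  have hphom1 : ∀ c : ℝ, 0 < c → ∀ y, p (c • y) ≤ c * p y := by
    intro c hc y
    refine csSup_le (hAne _) ?_
    rintro r ⟨w, hw0, hw, rfl⟩
    have h1 : f (c⁻¹ • w) ≤ p y := by
      refine hlep y _ (smul_nonneg (inv_nonneg.2 hc.le) hw0) ?_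
      have h2 := smul_le_smul_of_nonneg_left hw (inv_nonneg.2 hc.le)
      refine h2.trans ?_
      have h3 : (c • y) ⊔ 0 ≤ c • (y ⊔ 0) :=
        sup_le (smul_le_smul_of_nonneg_left le_sup_left hc.le) (smul_nonneg hc.le le_sup_right)
      have h4 := smul_le_smul_of_nonneg_left h3 (inv_nonneg.2 hc.le)
      rwa [smul_smul, inv_mul_cancel₀ hc.ne', one_smul] at h4
    rw [map_smul, smul_eq_mul, inv_mul_le_iff₀ hc] at h1
    exact h1
  have hphom : ∀ c : ℝ, 0 < c → ∀ y, p (c • y) = c * p y := by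
    intro c hc y
    refine le_antisymm (hphom1 c hc y) ?_
    have h1 := hphom1 c⁻¹ (inv_pos.2 hc) (c • y)
    rw [smul_smul, inv_mul_cancel₀ hc.ne', one_smul] at h1
    have h2 := mul_le_mul_of_nonneg_left h1 hc.le
    rwa [← mul_assoc, mul_inv_cancel₀ hc.ne', one_mul] at h2
  have hx0ne : x0 ≠ 0 := fun h => by
    rw [h, map_zero] at hfx0
    exact lt_irrefl _ hfx0
  obtain ⟨g, hg1, hg2⟩ := exists_extension_of_le_sublinear
    (LinearPMap.mkSpanSingleton x0 (p x0) hx0ne) p hphom hpadd (by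
      rintro ⟨y, hy⟩
      obtain ⟨c, rfl⟩ := Submodule.mem_span_singleton.1 hy
      rw [LinearPMap.mkSpanSingleton'_apply, RingHom.id_apply, smul_eq_mul]
      show c * p x0 ≤ p (c • x0)
      rcases lt_or_ge 0 c with hc | hc
      · rw [hphom c hc]
      · exact (mul_nonpos_of_nonpos_of_nonneg hc (hp0 x0)).trans (hp0 _))
  have hgx0 : g x0 = p x0 := by
    have h3 := hg1 ⟨x0, Submodule.mem_span_singleton_self x0⟩
    rw [h3]
    exact LinearPMap.mkSpanSingleton_apply ℝ ℝ hx0ne _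
  have hgpos : ∀ x, 0 ≤ x → 0 ≤ g x := by
    intro x hx
    have h3 := hg2 (-x)
    have h4 : p (-x) ≤ 0 := by
      refine csSup_le (hAne _) ?_
      rintro r ⟨w, hw0, hw, rfl⟩
      rw [sup_eq_right.2 (neg_nonpos.2 hx)] at hw
      rw [le_antisymm hw hw0, map_zero]
    rw [map_neg] at h3
    linarith
  have hgb : ∀ x, ‖g x‖ ≤ ‖f‖ * ‖x‖ := by
    intro x
    rw [Real.norm_eq_abs, abs_le]
    constructor
    · have h3 := (hg2 (-x)).trans (hple (-x))
      rw [map_neg, norm_neg] at h3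
      linarith
    · exact (hg2 x).trans (hple x)
  refine ⟨g.mkContinuous ‖f‖ hgb, ?_, hgpos, ?_, ?_⟩
  · intro ι _ _ _ x hx hglb
    have hx0' : ∀ i, 0 ≤ x i := fun i => hglb.1 ⟨i, rfl⟩
    refine Metric.tendsto_nhds.2 fun ε hε => ?_
    obtain ⟨i0⟩ : Nonempty ι := inferInstance
    obtain ⟨r, ⟨y, hy0, hy, rfl⟩, hr⟩ := exists_lt_of_lt_csSup (hAne (x i0))
      (show p (x i0) - ε / 2 < p (x i0) by linarith)
    rw [sup_eq_left.2 (hx0' i0)] at hy
    have h1 := hf ι (fun i => y ⊓ x i) (fun i j hij => inf_le_inf_left y (hx hij)) (by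
      constructor
      · rintro _ ⟨i, rfl⟩
        exact le_inf hy0 (hx0' i)
      · intro w hw
        refine hglb.2 ?_
        rintro _ ⟨i, rfl⟩
        exact (hw ⟨i, rfl⟩).trans inf_le_right)
    filter_upwards [h1.eventually_lt_const (half_pos hε), eventually_ge_atTop i0] with i h3 h4
    have h5 : p (x i) ≤ p (x i0) - f (y - y ⊓ x i) := by
      refine csSup_le (hAne _) ?_
      rintro r ⟨w, hw0, hw, rfl⟩
      rw [sup_eq_left.2 (hx0' i)] at hw
      have h6 := hlep (x i0) ((y - y ⊓ x i) + w) (add_nonneg (sub_nonneg.2 inf_le_left) hw0) (by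
        refine le_trans ?_ le_sup_left
        have h7 : y - y ⊓ x i ≤ x i0 - x i := by
          rw [sub_inf, sub_self]
          exact sup_le (sub_nonneg.2 (hx h4)) (sub_le_sub_right hy _)
        have h8 := add_le_add h7 hw
        rwa [sub_add_cancel] at h8)
      rw [map_add] at h6
      linarith
    rw [map_sub] at h5
    rw [Real.dist_eq, sub_zero]
    show |g (x i)| < ε
    rw [abs_of_nonneg (hgpos _ (hx0' i))]
    have h6 := hg2 (x i)
    linarith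
  · intro a ha
    refine le_antisymm ((hg2 a).trans ?_) (hgpos a ha.1.le)
    refine csSup_le (hAne _) ?_
    rintro r ⟨w, hw0, hw, rfl⟩
    rw [sup_eq_left.2 ha.1.le] at hw
    obtain ⟨l, -, rfl⟩ := ha.2 w hw0 hw
    rw [map_smul, hfa a ha, smul_zero]
  · show 0 < g x0
    rw [hgx0]
    exact hfx0.trans_le (hlep x0 x0 hx0 le_sup_left)

end Pool.Agent.R280.BLat
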