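import Pool.Agent.R280.SickStone

/-!
Measures on compact spaces which are `G_δ` points of the space of probability measures, and the
analyticity of such measures on sick compact spaces.
-/

set_option autoImplicit false
set_option linter.unusedSectionVars false

open Set Topology Filter TopologicalSpace MeasureTheory Pool.Agent.R280.BLat

universe u u' v

namespace Pool.Agent.R280.Sick

/-- `P(K)`: the regular Borel probability measures on `K`. -/
def RegProb (K : Type u) [TopologicalSpace K] [MeasurableSpace K] : Type u :=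
  {μ : Measure K // IsProbabilityMeasure μ ∧ μ.Regular}

/-- The weak* topology of `P(K)`: the coarsest topology making all the maps `μ ↦ ∫ f dμ`,
`f ∈ C(K)`, continuous. -/
noncomputable instance (K : Type u) [TopologicalSpace K] [MeasurableSpace K] :
    TopologicalSpace (RegProb K) :=
  induced (fun (μ : RegProb K) (f : C(K, ℝ)) => ∫ k, f k ∂μ.1) Pi.topologicalSpace

section riesz

variable {K : Type u} [TopologicalSpace K] [CompactSpace K] [T2Space K] [MeasurableSpace K]
  [BorelSpace K]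

lemma integrable_cont (μ : Measure K) [IsFiniteMeasure μ] (f : C(K, ℝ)) :
    Integrable (fun k => f k) μ :=
  f.continuous.integrable_of_hasCompactSupport (HasCompactSupport.of_compactSpace _)

/-- the Riesz representation theorem for positive normalised functionals on `C(K)` -/
lemma exists_regProb (ψ : C(K, ℝ) →ₗ[ℝ] ℝ) (hpos : ∀ f, 0 ≤ f → 0 ≤ ψ f) (h1 : ψ 1 = 1) :
    ∃ ν : RegProb K, ∀ f : C(K, ℝ), ∫ k, f k ∂ν.1 = ψ f := by
  let L : CompactlySupportedContinuousMap K ℝ →ₗ[ℝ] C(K, ℝ) :=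
    { toFun := fun f => f.toContinuousMap
      map_add' := fun _ _ => rfl
      map_smul' := fun _ _ => rfl }
  let Λ : CompactlySupportedContinuousMap K ℝ →ₚ[ℝ] ℝ :=
    PositiveLinearMap.mk₀ (ψ ∘ₗ L) (fun f hf => hpos _ (fun k => hf k))
  have hint : ∀ f : C(K, ℝ), ∫ k, f k ∂(RealRMK.rieszMeasure Λ) = ψ f := by
    intro f
    let f' : CompactlySupportedContinuousMap K ℝ :=
      { toFun := f, hasCompactSupport' := HasCompactSupport.of_compactSpace _ }
    have h2 := RealRMK.integral_rieszMeasure Λ f'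
    exact h2
  refine ⟨⟨RealRMK.rieszMeasure Λ, ⟨?_⟩, inferInstance⟩, hint⟩
  have h3 := hint 1
  rw [h1] at h3
  simp only [ContinuousMap.one_apply, integral_const, smul_eq_mul, mul_one] at h3
  have h4 : (RealRMK.rieszMeasure Λ).real univ = 1 := h3
  have h5 : (RealRMK.rieszMeasure Λ univ).toReal = 1 := h4
  rw [← ENNReal.toReal_one] at h5
  exact (ENNReal.toReal_eq_toReal_iff' (measure_ne_top _ _) ENNReal.one_ne_top).1 h5

/-- a `G_δ` point of `P(K)` is determined by countably many continuous functions -/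
lemma exists_countable_determining (μ : RegProb K) (hμ : IsGδ ({μ} : Set (RegProb K))) :
    ∃ G : Set C(K, ℝ), G.Countable ∧
      ∀ ν : RegProb K, (∀ g ∈ G, ∫ k, g k ∂ν.1 = ∫ k, g k ∂μ.1) → ν = μ := by
  classical
  obtain ⟨U, hUo, hUi⟩ := isGδ_iff_eq_iInter_nat.1 hμ
  have hμU : ∀ n, μ ∈ U n := by
    intro n
    have : μ ∈ ⋂ n, U n := hUi ▸ mem_singleton μ
    exact mem_iInter.1 this n
  have hF : ∀ n, ∃ F : Finset C(K, ℝ), ∀ ν : RegProb K,
      (∀ g ∈ F, ∫ k, g k ∂ν.1 = ∫ k, g k ∂μ.1) → ν ∈ U n := by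
    intro n
    obtain ⟨V, hVo, hVU⟩ := isOpen_induced_iff.1 (hUo n)
    have hμV : (fun (f : C(K, ℝ)) => ∫ k, f k ∂μ.1) ∈ V := by
      have := hμU n
      rw [← hVU] at this
      exact this
    obtain ⟨F, W, hW, hFV⟩ := isOpen_pi_iff.1 hVo _ hμV
    refine ⟨F, fun ν hν => ?_⟩
    rw [← hVU]
    refine hFV ?_
    intro g hg
    show ∫ k, g k ∂ν.1 ∈ W g
    rw [hν g hg]
    exact (hW g hg).2
  choose F hF using hF
  refine ⟨⋃ n, (F n : Set C(K, ℝ)), countable_iUnion fun n => (F n).countable_toSet,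
    fun ν hν => ?_⟩
  have : ν ∈ ⋂ n, U n := by
    rw [mem_iInter]
    exact fun n => hF n ν fun g hg => hν g (mem_iUnion.2 ⟨n, hg⟩)
  rw [← hUi] at this
  exact this

/-- If `μ` is determined by the subspace `V ∋ 1`, integrals are approximated from below by
elements of `V`. -/
lemma exists_below (μ : RegProb K) (V : Submodule ℝ C(K, ℝ)) (h1 : (1 : C(K, ℝ)) ∈ V)
    (hV : ∀ ν : RegProb K, (∀ g ∈ V, ∫ k, g k ∂ν.1 = ∫ k, g k ∂μ.1) → ν = μ)
    (f : C(K, ℝ)) {ε : ℝ} (hε : 0 < ε) :
    ∃ g ∈ V, g ≤ f ∧ ∫ k, f k ∂μ.1 - ε < ∫ k, g k ∂μ.1 := by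
  have := μ.2.1
  have hint := fun f : C(K, ℝ) => integrable_cont μ.1 f
  set I : C(K, ℝ) → ℝ := fun f => ∫ k, f k ∂μ.1 with hI
  have hImono : ∀ f g : C(K, ℝ), f ≤ g → I f ≤ I g := fun f g hfg =>
    integral_mono (hint f) (hint g) fun k => hfg k
  have hIadd : ∀ f g : C(K, ℝ), I (f + g) = I f + I g := fun f g =>
    integral_add (hint f) (hint g)
  have hIsmul : ∀ (c : ℝ) (f : C(K, ℝ)), I (c • f) = c * I f := fun c f =>
    integral_const_mul c _
  have hIneg : ∀ f : C(K, ℝ), I (-f) = -I f := fun f => integral_neg _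
  have hI1 : I 1 = 1 := by
    show ∫ k, (1 : C(K, ℝ)) k ∂μ.1 = 1
    simp
  let A : C(K, ℝ) → Set ℝ := fun h => {r | ∃ g ∈ V, h ≤ g ∧ r = I g}
  let p : C(K, ℝ) → ℝ := fun h => sInf (A h)
  have hAne : ∀ h, (A h).Nonempty := fun h => by
    refine ⟨_, ‖h‖ • (1 : C(K, ℝ)), V.smul_mem _ h1, ?_, rfl⟩
    exact (le_abs_self h).trans (abs_le_norm_smul_one h)
  have hAbdd : ∀ h, BddBelow (A h) := fun h => by
    refine ⟨I h, ?_⟩
    rintro r ⟨g, -, hg, rfl⟩
    exact hImono _ _ hg
  have hple : ∀ h, ∀ g ∈ V, h ≤ g → p h ≤ I g := fun h g hg hhg =>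
    csInf_le (hAbdd h) ⟨g, hg, hhg, rfl⟩
  have hIp : ∀ h, I h ≤ p h := fun h => le_csInf (hAne h) (by
    rintro r ⟨g, -, hg, rfl⟩
    exact hImono _ _ hg)
  have hpex : ∀ h δ, 0 < δ → ∃ g ∈ V, h ≤ g ∧ I g < p h + δ := by
    intro h δ hδ
    obtain ⟨r, ⟨g, hg, hhg, rfl⟩, hr⟩ := exists_lt_of_csInf_lt (hAne h) (lt_add_of_pos_right (p h) hδ)
    exact ⟨g, hg, hhg, hr⟩
  have hpadd : ∀ h h', p (h + h') ≤ p h + p h' := by
    intro h h'
    refine le_of_forall_pos_le_add fun δ hδ => ?_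
    obtain ⟨g, hg, hhg, hlt⟩ := hpex h (δ / 2) (by linarith)
    obtain ⟨g', hg', hhg', hlt'⟩ := hpex h' (δ / 2) (by linarith)
    have := hple (h + h') (g + g') (V.add_mem hg hg') (add_le_add hhg hhg')
    rw [hIadd] at this
    linarith
  have hphom_le : ∀ c : ℝ, 0 < c → ∀ h, p (c • h) ≤ c * p h := by
    intro c hc h
    refine le_of_forall_pos_le_add fun δ hδ => ?_
    obtain ⟨g, hg, hhg, hlt⟩ := hpex h (δ / c) (by positivity)
    have := hple (c • h) (c • g) (V.smul_mem c hg) (smul_le_smul_of_nonneg_left hhg hc.le)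
    rw [hIsmul] at this
    have h2 : c * I g < c * (p h + δ / c) := mul_lt_mul_of_pos_left hlt hc
    have h3 : c * (p h + δ / c) = c * p h + δ := by field_simp
    linarith
  have hphom : ∀ c : ℝ, 0 < c → ∀ h, p (c • h) = c * p h := by
    intro c hc h
    refine le_antisymm (hphom_le c hc h) ?_
    have h2 := hphom_le c⁻¹ (inv_pos.2 hc) (c • h)
    rw [smul_smul, inv_mul_cancel₀ hc.ne', one_smul] at h2
    calc c * p h ≤ c * (c⁻¹ * p (c • h)) := mul_le_mul_of_nonneg_left h2 hc.le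
      _ = p (c • h) := by rw [← mul_assoc, mul_inv_cancel₀ hc.ne', one_mul]
  have hp0 : p 0 = 0 := by
    have h2 := hphom 2 (by norm_num) 0
    rw [smul_zero] at h2
    linarith
  -- it is enough to know `p (-f) = - I f`
  suffices hkey : p (-f) = -I f by
    obtain ⟨g, hg, hhg, hlt⟩ := hpex (-f) ε hε
    refine ⟨-g, V.neg_mem hg, neg_le.1 hhg, ?_⟩
    show I f - ε < I (-g)
    rw [hIneg]
    rw [hkey] at hlt
    linarith
  by_cases hf0 : f = 0
  · rw [hf0, neg_zero, hp0]
    show 0 = -(∫ k, (0 : C(K, ℝ)) k ∂μ.1)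
    simp
  -- extend
  obtain ⟨ψ, hψ1, hψ2⟩ := exists_extension_of_le_sublinear
    (LinearPMap.mkSpanSingleton f (-p (-f)) hf0) p hphom hpadd (by
      rintro ⟨y, hy⟩
      obtain ⟨c, rfl⟩ := Submodule.mem_span_singleton.1 hy
      rw [LinearPMap.mkSpanSingleton'_apply, RingHom.id_apply, smul_eq_mul]
      rcases lt_trichotomy c 0 with hc | hc | hc
      · have h2 := hphom (-c) (by linarith) (-f)
        rw [smul_neg, neg_smul, neg_neg] at h2
        show c * -p (-f) ≤ p (c • f)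
        rw [h2]
        linarith
      · subst hc
        show (0 : ℝ) * -p (-f) ≤ p ((0 : ℝ) • f)
        rw [zero_mul, zero_smul, hp0]
      · show c * -p (-f) ≤ p (c • f)
        rw [hphom c hc]
        refine mul_le_mul_of_nonneg_left ?_ hc.le
        have h3 := hpadd f (-f)
        rw [add_neg_cancel, hp0] at h3
        linarith)
  have hψf : ψ f = -p (-f) := by
    have h2 := hψ1 ⟨f, Submodule.mem_span_singleton_self f⟩
    rw [h2]
    exact LinearPMap.mkSpanSingleton_apply ℝ ℝ hf0 _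
  have hψV : ∀ g ∈ V, ψ g = I g := by
    intro g hg
    refine le_antisymm ((hψ2 g).trans (hple g g hg le_rfl)) ?_
    have h2 := (hψ2 (-g)).trans (hple (-g) (-g) (V.neg_mem hg) le_rfl)
    rw [map_neg, hIneg] at h2
    linarith
  have hψpos : ∀ h, 0 ≤ h → 0 ≤ ψ h := by
    intro h hh
    have h2 := (hψ2 (-h)).trans (hple (-h) 0 V.zero_mem (neg_nonpos.2 hh))
    have h3 : I 0 = 0 := by
      show ∫ k, (0 : C(K, ℝ)) k ∂μ.1 = 0
      simp
    rw [map_neg, h3] at h2
    linarith
  obtain ⟨ν, hν⟩ := exists_regProb ψ hψpos (by rw [hψV 1 h1, hI1])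
  have hνμ : ν = μ := hV ν fun g hg => by rw [hν, hψV g hg]
  have h4 := hν f
  rw [hνμ, hψf] at h4
  show p (-f) = -I f
  have h5 : I f = -p (-f) := h4
  linarith

/-- for a `G_δ` point of `P(K)`, countably many continuous functions approximate all integrals
from below -/
theorem exists_countable_below (μ : RegProb K) (hμ : IsGδ ({μ} : Set (RegProb K))) :
    ∃ G : Set C(K, ℝ), G.Countable ∧ ∀ (f : C(K, ℝ)) (ε : ℝ), 0 < ε →
      ∃ g ∈ G, g ≤ f ∧ ∫ k, f k ∂μ.1 - ε < ∫ k, g k ∂μ.1 := by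
  have := μ.2.1
  obtain ⟨G0, hG0, hG0'⟩ := exists_countable_determining μ hμ
  set V : Submodule ℝ C(K, ℝ) := Submodule.span ℝ (insert 1 G0) with hV
  have hsep : IsSeparable (V : Set C(K, ℝ)) := ((hG0.insert 1).isSeparable).span
  obtain ⟨D, hD, hVD⟩ := hsep
  refine ⟨(fun p : C(K, ℝ) × ℚ => p.1 - (p.2 : ℝ) • (1 : C(K, ℝ))) '' (D ×ˢ univ),
    (hD.prod countable_univ).image _, fun f ε hε => ?_⟩
  obtain ⟨g, hg, hgf, hgI⟩ := exists_below μ V (Submodule.subset_span (mem_insert _ _))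
    (fun ν hν => hG0' ν fun g hg => hν g (Submodule.subset_span (mem_insert_of_mem _ hg))) f
    (ε := ε / 4) (by linarith)
  obtain ⟨d, hd, hdg⟩ := Metric.mem_closure_iff.1 (hVD hg) (ε / 8) (by linarith)
  obtain ⟨q, hq1, hq2⟩ := exists_rat_btwn (show ε / 8 < ε / 4 by linarith)
  refine ⟨_, ⟨(d, q), ⟨hd, mem_univ _⟩, rfl⟩, ?_, ?_⟩
  · intro k
    show d k - (q : ℝ) * 1 ≤ f k
    have h1 : dist (g k) (d k) < ε / 8 := lt_of_le_of_lt (ContinuousMap.dist_apply_le_dist k) hdg
    rw [Real.dist_eq, abs_lt] at h1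
    have h2 : g k ≤ f k := hgf k
    linarith [h1.1]
  · have h3 : ∫ k, g k ∂μ.1 - ε / 8 ≤ ∫ k, d k ∂μ.1 := by
      have h4 : ∫ k, (g k - ε / 8) ∂μ.1 ≤ ∫ k, d k ∂μ.1 := by
        refine integral_mono ((integrable_cont μ.1 g).sub (integrable_const _))
          (integrable_cont μ.1 d) fun k => ?_
        have h1 : dist (g k) (d k) < ε / 8 :=
          lt_of_le_of_lt (ContinuousMap.dist_apply_le_dist k) hdg
        rw [Real.dist_eq, abs_lt] at h1
        show g k - ε / 8 ≤ d k
        linarith [h1.2]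
      rw [integral_sub (integrable_cont μ.1 g) (integrable_const _)] at h4
      simpa using h4
    have h5 : ∫ k, (d - (q : ℝ) • (1 : C(K, ℝ))) k ∂μ.1 = ∫ k, d k ∂μ.1 - q := by
      have : ∀ k, (d - (q : ℝ) • (1 : C(K, ℝ))) k = d k - (q : ℝ) := fun k => by
        show d k - (q : ℝ) * 1 = _
        rw [mul_one]
      simp only [this]
      rw [integral_sub (integrable_cont μ.1 d) (integrable_const _)]
      simp
    show _ < ∫ k, (d - (q : ℝ) • (1 : C(K, ℝ))) k ∂μ.1
    rw [h5]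
    linarith

/-- the natural map `C(K) → L₁(μ)` -/
noncomputable def toL1 (μ : RegProb K) : C(K, ℝ) → (K →₁[μ.1] ℝ) := by
  have := μ.2.1
  exact fun f => ContinuousMap.toLp 1 μ.1 ℝ f

lemma toL1_ae (μ : RegProb K) (f : C(K, ℝ)) : toL1 μ f =ᵐ[μ.1] f := by
  have := μ.2.1
  exact ContinuousMap.coeFn_toLp μ.1 f

lemma dist_toL1 (μ : RegProb K) (f g : C(K, ℝ)) :
    dist (toL1 μ f) (toL1 μ g) = ∫ k, |f - g| k ∂μ.1 := by
  rw [dist_eq_norm, L1.norm_eq_integral_norm]
  refine integral_congr_ae ?_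
  filter_upwards [toL1_ae μ f, toL1_ae μ g, Lp.coeFn_sub (toL1 μ f) (toL1 μ g)] with k h1 h2 h3
  rw [h3]
  show ‖(toL1 μ f : K → ℝ) k - (toL1 μ g : K → ℝ) k‖ = _
  rw [h1, h2, abs_apply', Real.norm_eq_abs]
  rfl

lemma denseRange_toL1 (μ : RegProb K) : DenseRange (toL1 μ) := by
  have := μ.2.1
  have := μ.2.2
  exact ContinuousMap.toLp_denseRange ℝ μ.1 ℝ ENNReal.one_ne_top

/-- a countable dense family in `L₁` -/
lemma dense_of_below (μ : RegProb K) {G : Set C(K, ℝ)}
    (hG : ∀ (f : C(K, ℝ)) (ε : ℝ), 0 < ε →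
      ∃ g ∈ G, g ≤ f ∧ ∫ k, f k ∂μ.1 - ε < ∫ k, g k ∂μ.1) : Dense (toL1 μ '' G) := by
  have := μ.2.1
  intro y
  refine (closure_minimal ?_ isClosed_closure) ((denseRange_toL1 μ) y)
  rintro _ ⟨f, rfl⟩
  refine Metric.mem_closure_iff.2 fun ε hε => ?_
  obtain ⟨g, hg, hgf, hlt⟩ := hG f ε hε
  refine ⟨_, ⟨g, hg, rfl⟩, ?_⟩
  rw [dist_toL1, abs_of_nonneg (sub_nonneg.2 hgf)]
  show ∫ k, (f k - g k) ∂μ.1 < ε
  rw [integral_sub (integrable_cont μ.1 f) (integrable_cont μ.1 g)]
  linarith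

end riesz

/-- `μ ∈ P(K)` is analytic: `L₁(μ)` is separable and the image of `C(K)` in `L₁(μ)` is an
analytic set. -/
def IsAnalyticMeasure {K : Type u} [TopologicalSpace K] [CompactSpace K] [T2Space K]
    [MeasurableSpace K] [BorelSpace K] (μ : RegProb K) : Prop :=
  SeparableSpace (K →₁[μ.1] ℝ) ∧ AnalyticSet (range (toL1 μ))

section sick

variable {K : Type u} [TopologicalSpace K] [CompactSpace K] [T2Space K] [MeasurableSpace K]
  [BorelSpace K]
variable {E : Type v} [NormedAddCommGroup E] [NormedSpace ℝ E] [Lattice E] [BanachLattice E]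
variable {T : C(K, ℝ) →ₗ[ℝ] E} {x : E}

/-- maps into a separable metric space are measurable as soon as the distances to a dense
sequence are -/
lemma measurable_of_dist {X : Type u} {Y : Type v} [MeasurableSpace X] [MetricSpace Y]
    [MeasurableSpace Y] [BorelSpace Y] {D : Set Y} (hD : D.Countable) (hDd : Dense D) {F : X → Y}
    (hF : ∀ d ∈ D, Measurable fun a => dist (F a) d) : Measurable F := by
  refine measurable_of_isOpen fun s hs => ?_
  have hDc : Countable D := hD.to_subtype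
  have heq : F ⁻¹' s = ⋃ (d : D) (q : ℚ) (_ : Metric.ball d.1 (q : ℝ) ⊆ s),
      {a | dist (F a) d.1 < q} := by
    ext a
    simp only [mem_preimage, mem_iUnion, mem_ofPred_eq, exists_prop]
    constructor
    · intro ha
      obtain ⟨ε, hε, hb⟩ := Metric.isOpen_iff.1 hs _ ha
      obtain ⟨d, hd, hdist⟩ := hDd.exists_dist_lt (F a) (ε := ε / 4) (by linarith)
      obtain ⟨q, hq1, hq2⟩ := exists_rat_btwn (show ε / 4 < ε / 2 by linarith)
      refine ⟨⟨d, hd⟩, q, ?_, hdist.trans hq1⟩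
      intro y hy
      refine hb ?_
      rw [Metric.mem_ball] at hy ⊢
      have h1 := dist_triangle y d (F a)
      rw [dist_comm d (F a)] at h1
      linarith
    · rintro ⟨d, q, hsub, hlt⟩
      exact hsub (Metric.mem_ball.2 hlt)
  rw [heq]
  refine MeasurableSet.iUnion fun d => MeasurableSet.iUnion fun q => MeasurableSet.iUnion fun _ => ?_
  exact measurableSet_lt (hF d.1 d.2) measurable_const

/-- `G_δ` points of `P(K)` are analytic when `K` is sick -/
theorem IsIdealRep.analytic [SeparableSpace E] (hT : IsIdealRep T x) (μ : RegProb K)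
    (hμ : IsGδ ({μ} : Set (RegProb K))) : IsAnalyticMeasure μ := by
  classical
  have hprob := μ.2.1
  obtain ⟨G, hGc, hG⟩ := exists_countable_below μ hμ
  have hdense := dense_of_below μ hG
  have hsep : SeparableSpace (K →₁[μ.1] ℝ) := ⟨⟨_, hGc.image _, hdense⟩⟩
  refine ⟨hsep, ?_⟩
  have hcs : CompleteSpace E := BanachLattice.toCompleteSpace
  let _ : MeasurableSpace (K →₁[μ.1] ℝ) := borel _
  have : BorelSpace (K →₁[μ.1] ℝ) := ⟨rfl⟩
  have hsc : SecondCountableTopology (K →₁[μ.1] ℝ) := UniformSpace.secondCountable_of_separable _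
  let _ : MeasurableSpace E := borel _
  have : BorelSpace E := ⟨rfl⟩
  have hscE : SecondCountableTopology E := UniformSpace.secondCountable_of_separable _
  have hpolE : PolishSpace E := inferInstance
  -- the closed sets `B n`
  let B : ℕ → Set E := fun n => {y | |y| ≤ (n : ℝ) • T 1}
  have habsc : Continuous fun y : E => |y| := continuous_id.sup continuous_neg
  have hBcl : ∀ n, IsClosed (B n) := fun n => isClosed_le habsc continuous_const
  have hBT : ∀ n y, y ∈ B n → ∃ f, T f = y := fun n y hy => hT.mem_range hy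
  -- the inverse of `T`
  let S : E → C(K, ℝ) := fun y => if h : ∃ f, T f = y then h.choose else 0
  have hS : ∀ f, S (T f) = f := by
    intro f
    have h : ∃ g, T g = T f := ⟨f, rfl⟩
    show (if h : ∃ g, T g = T f then h.choose else 0) = f
    rw [dif_pos h]
    exact hT.inj h.choose_spec
  have hTS : ∀ n y, y ∈ B n → T (S y) = y := by
    intro n y hy
    obtain ⟨f, rfl⟩ := hBT n y hy
    rw [hS]
  -- measurability
  have hmeas : ∀ n, Measurable fun y : B n => toL1 μ (S y.1) := by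
    intro n
    refine measurable_of_dist (hGc.image _) hdense ?_
    rintro _ ⟨g, hg, rfl⟩
    simp only [dist_toL1]
    refine measurable_of_Ioi fun c => ?_
    have heq : (fun y : B n => ∫ k, |S y.1 - g| k ∂μ.1) ⁻¹' Ioi c =
        ⋃ g' ∈ {g' ∈ G | c < ∫ k, g' k ∂μ.1}, {y : B n | T g' ≤ |y.1 - T g|} := by
      ext y
      simp only [mem_preimage, mem_Ioi, mem_iUnion, mem_ofPred_eq, exists_prop]
      have hy := hTS n y.1 y.2
      have hTabs : T |S y.1 - g| = |y.1 - T g| := by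
        rw [hT.map_abs, map_sub, hy]
      constructor
      · intro hlt
        obtain ⟨g', hg', hle, hI⟩ := hG |S y.1 - g| (∫ k, |S y.1 - g| k ∂μ.1 - c) (by linarith)
        refine ⟨g', ⟨hg', by linarith⟩, ?_⟩
        rw [← hTabs]
        exact hT.mono hle
      · rintro ⟨g', ⟨hg', hI⟩, hle⟩
        rw [← hTabs] at hle
        refine lt_of_lt_of_le hI ?_
        exact integral_mono (integrable_cont μ.1 g') (integrable_cont μ.1 _) fun k => hT.le_of hle k
    rw [heq]
    refine MeasurableSet.biUnion (hGc.mono fun _ h => h.1) fun g' _ => ?_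
    refine IsClosed.measurableSet (isClosed_le continuous_const ?_)
    exact habsc.comp (continuous_subtype_val.sub continuous_const)
  have hrange : range (toL1 μ) = ⋃ n : ℕ, (fun y : B n => toL1 μ (S y.1)) '' univ := by
    ext z
    simp only [mem_iUnion, image_univ]
    constructor
    · rintro ⟨f, rfl⟩
      obtain ⟨n, hn⟩ := exists_nat_ge ‖f‖
      have hmem : T f ∈ B n := by
        show |T f| ≤ (n : ℝ) • T 1
        rw [← hT.map_abs, ← map_smul]
        refine hT.mono ((abs_le_norm_smul_one f).trans ?_)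
        refine smul_le_smul_of_nonneg_right hn ?_
        intro k
        exact zero_le_one
      exact ⟨n, ⟨T f, hmem⟩, congrArg (toL1 μ) (hS f)⟩
    · rintro ⟨n, y, rfl⟩
      exact ⟨_, rfl⟩
  rw [hrange]
  refine AnalyticSet.iUnion fun n => ?_
  have : PolishSpace (B n) := (hBcl n).polishSpace
  exact MeasurableSet.univ.analyticSet_image (hmeas n)

end sick

end Pool.Agent.R280.Sick
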