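import Pool.Agent.R280.ProjPath
import Pool.Agent.R280.OrdCont
import Pool.Agent.R280.NullFib
import Pool.Agent.R280.SickMeas

/-!
Order continuous functionals on projective Banach lattices are determined by the atoms.
-/

set_option autoImplicit false
set_option linter.unusedSectionVars false

open Set Topology Filter MeasureTheory

universe u v w

namespace Pool.Agent.R280.BLat

section

variable {X : Type u} [NormedAddCommGroup X] [NormedSpace ℝ X] [Lattice X] [BanachLattice X]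
variable {K : Type v} [TopologicalSpace K] [CompactSpace K] [T2Space K]

/-- `y` lies below all `T h`, `h ≥ 1` on `C` -/
def Below (T : C(K, ℝ) →L[ℝ] X) (C : Set K) (y : X) : Prop :=
  ∀ h : C(K, ℝ), 0 ≤ h → (∀ k ∈ C, 1 ≤ h k) → y ≤ T h

lemma Below.le_one {T : C(K, ℝ) →L[ℝ] X} {C : Set K} {y : X} (hy : Below T C y) : y ≤ T 1 :=
  hy 1 (fun _ => zero_le_one) (fun _ _ => le_rfl)

lemma Below.mono {T : C(K, ℝ) →L[ℝ] X} {C : Set K} {y y' : X} (hy : Below T C y) (h : y' ≤ y) :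
    Below T C y' := fun u h0 h1 => h.trans (hy u h0 h1)

lemma Below.spt {T : C(K, ℝ) →L[ℝ] X} (hT : IsLatHom T) {C : Set K} {y : X} (hy : Below T C y)
    {φ : X →L[ℝ] ℝ} (hφ : IsLatHom φ) (hφy : 0 < φ y) (g : C(K, ℝ)) :
    φ (T g) / φ (T 1) ∈ closure (g '' C) := by
  by_contra hcon
  rw [Metric.mem_closure_iff] at hcon
  push Not at hcon
  obtain ⟨η, hη, hr⟩ := hcon
  set r := φ (T g) / φ (T 1) with hrdef
  have h1 : 0 < φ (T 1) := hφy.trans_le (hφ.mono hy.le_one)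
  have h2 := hy (η⁻¹ • |g - r • 1|) (smul_nonneg (inv_nonneg.2 hη.le) (abs_nonneg _)) (fun k hk => by
    rw [ContinuousMap.smul_apply, cabs_apply, smul_eq_mul]
    have h3 := hr (g k) ⟨k, hk, rfl⟩
    rw [Real.dist_eq, abs_sub_comm] at h3
    have h4 : (g - r • (1 : C(K, ℝ))) k = g k - r := by simp
    rw [h4, ← inv_mul_cancel₀ hη.ne']
    exact mul_le_mul_of_nonneg_left h3 (inv_nonneg.2 hη.le))
  have h3 := hφ.mono h2
  have h4 : φ (T |g - r • 1|) = 0 := by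
    rw [hT.map_abs, hφ.map_abs, map_sub, map_sub, map_smul, map_smul, smul_eq_mul, hrdef,
      div_mul_cancel₀ _ h1.ne', sub_self, abs_zero]
  rw [map_smul, map_smul, h4, smul_zero] at h3
  linarith

variable [MeasurableSpace K] [BorelSpace K]

lemma exists_below_closed {f : X →L[ℝ] ℝ} (hf : IsOrderCont f) {T : C(K, ℝ) →L[ℝ] X}
    (hT : IsLatHom T) {μ : Measure K} [IsFiniteMeasure μ]
    (hμ : ∀ h : C(K, ℝ), ∫ k, h k ∂μ = f (T h)) {C : Set K} (hC : IsClosed C) (hCm : 0 < μ.real C) :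
    ∃ y, 0 ≤ y ∧ Below T C y ∧ 0 < f y := by
  obtain ⟨y, hy0, hy, hfy⟩ := hf.exists_lower
    (D := {x | ∃ h : C(K, ℝ), 0 ≤ h ∧ (∀ k ∈ C, 1 ≤ h k) ∧ x = T h})
    ⟨T 1, 1, fun k => zero_le_one, fun k _ => le_rfl, rfl⟩
    (by
      rintro _ ⟨h1, h10, h11, rfl⟩ _ ⟨h2, h20, h21, rfl⟩
      exact ⟨T (h1 ⊓ h2), ⟨h1 ⊓ h2, le_inf h10 h20, fun k hk => le_inf (h11 k hk) (h21 k hk), rfl⟩,
        hT.mono inf_le_left, hT.mono inf_le_right⟩) hCm
    (by
      rintro _ ⟨h, h0, h1, rfl⟩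
      rw [← hμ, ← integral_indicator_one hC.measurableSet]
      refine integral_mono ?_ (Sick.integrable_cont μ h) fun k => ?_
      · exact (integrable_const (1 : ℝ)).indicator hC.measurableSet
      · by_cases hk : k ∈ C
        · rw [indicator_of_mem hk]
          exact h1 k hk
        · rw [indicator_of_notMem hk]
          exact h0 k)
    (by
      rintro _ ⟨h, h0, -, rfl⟩
      exact hT.map_pos h0)
  exact ⟨y, hy0, fun h h0 h1 => hy _ ⟨h, h0, h1, rfl⟩, hfy⟩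

variable {q : (FBLpos (PB X)).Space →L[ℝ] X} {i : X →L[ℝ] (FBLpos (PB X)).Space}

/-- a point mass gives an atom -/
lemma IsRep.isAtomEl_of_below (h : IsRep q i) {T : C(K, ℝ) →L[ℝ] X} (hT : IsLatHom T)
    (hsurj : ∀ x, |x| ≤ T 1 → ∃ u, T u = x) {k0 : K} {y : X} (hy0 : 0 ≤ y) (hyne : y ≠ 0)
    (hy : Below T {k0} y) : IsAtomEl y := by
  refine ⟨lt_of_le_of_ne hy0 (Ne.symm hyne), fun x hx0 hxy => ?_⟩
  obtain ⟨uy, huy⟩ := hsurj y (by rw [abs_of_nonneg hy0]; exact hy.le_one)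
  obtain ⟨ux, hux⟩ := hsurj x (by rw [abs_of_nonneg hx0]; exact hxy.trans hy.le_one)
  have key : ∀ φ : X →L[ℝ] ℝ, IsLatHom φ → 0 < φ y → ∀ u : C(K, ℝ), φ (T u) = u k0 * φ (T 1) := by
    intro φ hφ hφy u
    have h1 := hy.spt hT hφ hφy u
    rw [image_singleton, closure_singleton, mem_singleton_iff] at h1
    have h2 : 0 < φ (T 1) := hφy.trans_le (hφ.mono hy.le_one)
    rw [← h1, div_mul_cancel₀ _ h2.ne']
  obtain ⟨φ0, hφ0, hφ0y⟩ := h.exists_pos hy0 hyne
  have h3 : 0 < φ0 (T 1) := hφ0y.trans_le (hφ0.mono hy.le_one)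
  have hyk : 0 < uy k0 := by
    have h4 := key φ0 hφ0 hφ0y uy
    rw [huy] at h4
    rw [h4] at hφ0y
    exact pos_of_mul_pos_left hφ0y h3.le
  have hxk : 0 ≤ ux k0 := by
    have h4 := key φ0 hφ0 hφ0y ux
    rw [hux] at h4
    have h5 := hφ0.map_pos hx0
    rw [h4] at h5
    exact nonneg_of_mul_nonneg_left h5 h3
  have hval : ∀ φ : X →L[ℝ] ℝ, IsLatHom φ → φ x = φ ((ux k0 / uy k0) • y) := by
    intro φ hφ
    rw [map_smul, smul_eq_mul]
    rcases eq_or_lt_of_le (hφ.map_pos hy0) with h4 | h4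
    · rw [← h4, mul_zero]
      refine le_antisymm ?_ (hφ.map_pos hx0)
      rw [h4]
      exact hφ.mono hxy
    · have h5 := key φ hφ h4 ux
      have h6 := key φ hφ h4 uy
      rw [hux] at h5
      rw [huy] at h6
      rw [h5, h6]
      field_simp
  exact ⟨ux k0 / uy k0, div_nonneg hxk hyk.le,
    le_antisymm (h.sep fun φ hφ => (hval φ hφ).le) (h.sep fun φ hφ => (hval φ hφ).ge)⟩

/-- the main argument -/
theorem IsRep.main (h : IsRep q i) {T : C(K, ℝ) →L[ℝ] X} (hT : IsLatHom T)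
    (hsurj : ∀ x, |x| ≤ T 1 → ∃ u, T u = x) {f : X →L[ℝ] ℝ} (hf : IsOrderCont f)
    (hpos : ∀ x, 0 ≤ x → 0 ≤ f x) (hfa : ∀ a, IsAtomEl a → f a = 0) (hf1 : f (T 1) = 1) : False := by
  obtain ⟨⟨μ, hμp, hμr⟩, hμ⟩ := Sick.exists_regProb (f.comp T).toLinearMap
    (fun u hu => hpos _ (hT.map_pos hu)) hf1
  have hμ' : ∀ u : C(K, ℝ), ∫ k, u k ∂μ = f (T u) := hμ
  -- no point masses
  have h0 : ∀ k, μ {k} = 0 := by
    intro k0
    by_contra hne
    have hm : 0 < μ.real {k0} := by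
      rw [measureReal_def]
      exact ENNReal.toReal_pos hne (measure_ne_top _ _)
    obtain ⟨y, hy0, hy, hfy⟩ := exists_below_closed hf hT hμ' isClosed_singleton hm
    have hyne : y ≠ 0 := fun h => by
      rw [h, map_zero] at hfy
      exact lt_irrefl _ hfy
    have := hfa y (h.isAtomEl_of_below hT hsurj hy0 hyne hy)
    linarith
  obtain ⟨g, hg⟩ := exists_null_fibres μ h0
  -- a compact set where `g` is irrational
  obtain ⟨C, hCc, hCm, hCq⟩ : ∃ C : Set K, IsCompact C ∧ 0 < μ.real C ∧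
      ∀ r : ℚ, (r : ℝ) ∉ g '' C := by
    let A : Set K := ⋂ r : ℚ, {k | g k = r}ᶜ
    have hcl : ∀ r : ℚ, IsClosed {k | g k = r} := fun r =>
      isClosed_eq g.continuous continuous_const
    have hAm : MeasurableSet A := MeasurableSet.iInter fun r => (hcl r).measurableSet.compl
    have hAc : μ Aᶜ = 0 := by
      rw [compl_iInter]
      refine measure_iUnion_null fun r => ?_
      rw [compl_compl]
      exact hg r
    have hA1 : 0 < μ A := by
      rw [(prob_compl_eq_zero_iff hAm).1 hAc]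
      exact one_pos
    obtain ⟨C, hCA, hCc, hCm⟩ := hAm.exists_lt_isCompact_of_ne_top (measure_ne_top _ _) hA1
    refine ⟨C, hCc, ?_, ?_⟩
    · rw [measureReal_def]
      exact ENNReal.toReal_pos hCm.ne' (measure_ne_top _ _)
    · rintro r ⟨k, hk, hkr⟩
      exact (mem_iInter.1 (hCA hk) r) hkr
  obtain ⟨y, hy0, hy, hfy⟩ := exists_below_closed hf hT hμ' hCc.isClosed hCm
  have hcl : closure (g '' C) = g '' C := (hCc.image g.continuous).isClosed.closure_eq
  obtain ⟨z, hz0, hzy, ⟨c, hc⟩, hfz⟩ := hf.exists_part hpos hy0 hfy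
    (Q := fun z => ∃ c : ℝ, |T g - c • T 1| ⊓ z = 0) (by
      intro y' hy'0 hy'n hy'y
      obtain ⟨z, c, h1, h2, h3, h4⟩ := h.exists_const_part (e := T 1) (G := T g) hy'0 hy'n
        (hy'y.trans hy.le_one) hCq (fun φ hφ hφy => by
          have := (hy.mono hy'y).spt hT hφ hφy g
          rwa [hcl] at this)
      exact ⟨z, h1, h2, h3, c, h4⟩)
  obtain ⟨u, hu⟩ := hsurj z (by rw [abs_of_nonneg hz0]; exact hzy.trans hy.le_one)
  have hu' : T (u ⊔ 0) = z := by rw [(hT _ _).1, hu, map_zero, sup_eq_left.2 hz0]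
  have h1 : T (|g - c • 1| ⊓ (u ⊔ 0)) = 0 := by
    rw [(hT _ _).2, hT.map_abs, map_sub, map_smul, hu', hc]
  have h2 : ∫ k, (|g - c • 1| ⊓ (u ⊔ 0)) k ∂μ = 0 := by
    rw [hμ', h1, map_zero]
  have h3 : ∀ k, 0 ≤ (|g - c • 1| ⊓ (u ⊔ 0)) k := fun k =>
    (le_inf (abs_nonneg _) le_sup_right : (0 : C(K, ℝ)) ≤ |g - c • 1| ⊓ (u ⊔ 0)) k
  rw [integral_eq_zero_iff_of_nonneg h3 (Sick.integrable_cont μ _)] at h2
  have h4 : ∀ᵐ k ∂μ, g k ≠ c := by
    rw [ae_iff]
    simpa using hg c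
  have h5 : ∀ᵐ k ∂μ, (u ⊔ 0) k = 0 := by
    filter_upwards [h2, h4] with k hk1 hk2
    have hk3 : (|g - c • 1| k) ⊓ ((u ⊔ 0) k) = 0 := hk1
    rw [cabs_apply] at hk3
    have hk4 : 0 < |(g - c • (1 : C(K, ℝ))) k| := by
      have : (g - c • (1 : C(K, ℝ))) k = g k - c := by simp
      rw [this]
      exact abs_pos.2 (sub_ne_zero.2 hk2)
    have hk5 : 0 ≤ (u ⊔ 0) k := (le_sup_right : (0 : C(K, ℝ)) ≤ u ⊔ 0) k
    rcases min_choice |(g - c • (1 : C(K, ℝ))) k| ((u ⊔ 0) k) with h6 | h6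
    · exact absurd (h6.symm.trans hk3) hk4.ne'
    · exact h6.symm.trans hk3
  have h6 : ∫ k, (u ⊔ 0) k ∂μ = 0 := by
    rw [integral_congr_ae h5, integral_zero]
  rw [hμ', hu'] at h6
  linarith

end

/-- the theorem -/
theorem orderCont_eq_zero {X : Type u} [NormedAddCommGroup X] [NormedSpace ℝ X] [Lattice X]
    [BanachLattice X] (hX : IsProjective.{u, u} X) {f : X →L[ℝ] ℝ} (hf : IsOrderCont f)
    (hfa : ∀ a, IsAtomEl a → f a = 0) : f = 0 := by
  obtain ⟨q, i, h⟩ := exists_rep hX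
  -- positive functionals
  have key : ∀ g : X →L[ℝ] ℝ, IsOrderCont g → (∀ x, 0 ≤ x → 0 ≤ g x) →
      (∀ a, IsAtomEl a → g a = 0) → ∀ x0, 0 ≤ x0 → ¬ 0 < g x0 := by
    intro g hg hpos hga x0 hx0 hgx0
    let e : X := (g x0)⁻¹ • x0
    have he0 : 0 ≤ e := smul_nonneg (inv_nonneg.2 hgx0.le) hx0
    have hge : g e = 1 := by
      show g ((g x0)⁻¹ • x0) = 1
      rw [map_smul, smul_eq_mul, inv_mul_cancel₀ hgx0.ne']
    obtain ⟨T, hT, -, hT1, hTg⟩ := cube_univ (A := {x : X // |x| ≤ e}) he0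
      (y := fun x => (x : X)) (fun x => x.2)
    letI : MeasurableSpace (Cube {x : X // |x| ≤ e}) := borel _
    haveI : BorelSpace (Cube {x : X // |x| ≤ e}) := ⟨rfl⟩
    refine h.main hT ?_ hg hpos hga ?_
    · intro x hx
      rw [hT1] at hx
      exact ⟨cubeGen (some ⟨x, hx⟩), hTg ⟨x, hx⟩⟩
    · rw [hT1, hge]
  have hneg : IsOrderCont (-f) := by
    intro ι _ _ _ x hx hglb
    have := (hf ι x hx hglb).neg
    rwa [neg_zero] at this
  have hpos0 : ∀ x0 : X, 0 ≤ x0 → f x0 = 0 := by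
    intro x0 hx0
    rcases lt_trichotomy (f x0) 0 with hlt | heq | hlt
    · obtain ⟨g, hg, hpos, hga, hgx⟩ := hneg.exists_pos (fun a ha => by
        show -f a = 0
        rw [hfa a ha, neg_zero]) hx0 (show 0 < -f x0 by linarith)
      exact absurd hgx (key g hg hpos hga x0 hx0)
    · exact heq
    · obtain ⟨g, hg, hpos, hga, hgx⟩ := hf.exists_pos hfa hx0 hlt
      exact absurd hgx (key g hg hpos hga x0 hx0)
  ext x
  have h1 : x = (x ⊔ 0) - (-x ⊔ 0) := by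
    have := posPart_sub_negPart x
    rw [posPart_def, negPart_def] at this
    exact this.symm
  rw [h1, map_sub, hpos0 _ le_sup_right, hpos0 _ le_sup_right]
  simp

end Pool.Agent.R280.BLat
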