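import Mathlib

/-!
Banach lattices, lattice homomorphisms, quotient maps, projective Banach lattices.
-/

set_option autoImplicit false
set_option linter.unusedSectionVars false

open Set Topology Filter

universe u v

namespace Pool.Agent.R280.BLat

/-- `X` is a real Banach lattice: a complete normed space with a lattice order such that
`a ≤ b → a + c ≤ b + c`, `0 ≤ a → 0 ≤ r • a` for `r ≥ 0`, and `|a| ≤ |b| → ‖a‖ ≤ ‖b‖`. -/
class BanachLattice (X : Type u) [NormedAddCommGroup X] [NormedSpace ℝ X] [Lattice X] : Prop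
    extends IsOrderedAddMonoid X, HasSolidNorm X, PosSMulMono ℝ X, CompleteSpace X

/-- The bounded linear map `T` between vector lattices is a lattice homomorphism: it preserves
finite suprema and infima. -/
def IsLatHom {X : Type u} {Y : Type v} [NormedAddCommGroup X] [NormedSpace ℝ X] [Lattice X]
    [NormedAddCommGroup Y] [NormedSpace ℝ Y] [Lattice Y] (T : X →L[ℝ] Y) : Prop :=
  ∀ a b : X, T (a ⊔ b) = T a ⊔ T b ∧ T (a ⊓ b) = T a ⊓ T b

/-- `Q` is a quotient map of Banach lattices: a surjective lattice homomorphism `X → Y` such that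
`‖y‖` is the infimum of the norms of the preimages of `y`. Up to an isometric lattice isomorphism
these are the quotient maps `X → X / J`, `J` a closed ideal of `X` (namely `J = ker Q`). -/
def IsQuotient {X : Type u} {Y : Type v} [NormedAddCommGroup X] [NormedSpace ℝ X] [Lattice X]
    [NormedAddCommGroup Y] [NormedSpace ℝ Y] [Lattice Y] (Q : X →L[ℝ] Y) : Prop :=
  IsLatHom Q ∧ ∀ y : Y, IsGLB {r : ℝ | ∃ x : X, Q x = y ∧ r = ‖x‖} ‖y‖

/-- `P` is a projective Banach lattice: for all Banach lattices `X` and `Y` and every quotient map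
`Q : X → Y` (so `Y = X / J` for a closed ideal `J`), every lattice homomorphism `T : P → Y` and every
`ε > 0` there is a lattice homomorphism `T' : P → X` with `Q ∘ T' = T` and `‖T'‖ ≤ (1 + ε) ‖T‖`. -/
def IsProjective (P : Type u) [NormedAddCommGroup P] [NormedSpace ℝ P] [Lattice P] : Prop :=
  ∀ (X Y : Type v) [NormedAddCommGroup X] [NormedSpace ℝ X] [Lattice X] [BanachLattice X]
    [NormedAddCommGroup Y] [NormedSpace ℝ Y] [Lattice Y] [BanachLattice Y] (Q : X →L[ℝ] Y),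
    IsQuotient Q → ∀ T : P →L[ℝ] Y, IsLatHom T → ∀ ε : ℝ, 0 < ε →
      ∃ T' : P →L[ℝ] X, IsLatHom T' ∧ (∀ p, Q (T' p) = T p) ∧ ‖T'‖ ≤ (1 + ε) * ‖T‖

section lemmas

variable {X : Type u} [NormedAddCommGroup X] [NormedSpace ℝ X] [Lattice X] [BanachLattice X]
variable {Y : Type v} [NormedAddCommGroup Y] [NormedSpace ℝ Y] [Lattice Y] [BanachLattice Y]

lemma inf_add_le {a b c : X} (ha : 0 ≤ a) (hb : 0 ≤ b) (hc : 0 ≤ c) :
    a ⊓ (b + c) ≤ a ⊓ b + a ⊓ c := by
  rw [inf_add, add_inf, add_inf]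
  refine le_inf (le_inf ?_ ?_) (le_inf ?_ ?_)
  · exact inf_le_left.trans (le_add_of_nonneg_left ha)
  · exact inf_le_left.trans (le_add_of_nonneg_right hc)
  · exact inf_le_left.trans (le_add_of_nonneg_left hb)
  · exact inf_le_right

lemma disj_add {a b c : X} (ha : 0 ≤ a) (hb : 0 ≤ b) (hc : 0 ≤ c) (h1 : a ⊓ b = 0)
    (h2 : a ⊓ c = 0) : a ⊓ (b + c) = 0 := by
  refine le_antisymm ?_ (le_inf ha (add_nonneg hb hc))
  have := inf_add_le ha hb hc
  rwa [h1, h2, add_zero] at this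

lemma disj_mono {a b a' b' : X} (ha : 0 ≤ a) (hb : 0 ≤ b) (haa : a ≤ a') (hbb : b ≤ b')
    (h : a' ⊓ b' = 0) : a ⊓ b = 0 :=
  le_antisymm ((inf_le_inf haa hbb).trans h.le) (le_inf ha hb)

lemma disj_smul {a b : X} (ha : 0 ≤ a) (hb : 0 ≤ b) (h : a ⊓ b = 0) {t : ℝ} (ht : 0 ≤ t) :
    a ⊓ (t • b) = 0 := by
  obtain ⟨n, hn⟩ := exists_nat_ge t
  have h1 : ∀ n : ℕ, a ⊓ ((n : ℝ) • b) = 0 := by
    intro n
    induction n with
    | zero => simp [ha]
    | succ n ih =>
      push_cast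
      rw [add_smul, one_smul]
      exact disj_add ha (smul_nonneg (Nat.cast_nonneg n) hb) hb ih h
  refine disj_mono ha (smul_nonneg ht hb) le_rfl ?_ (h1 n)
  exact smul_le_smul_of_nonneg_right hn hb

lemma disj_sum {ι : Type*} (F : Finset ι) {a : X} {x : ι → X} (ha : 0 ≤ a) (hx : ∀ i, 0 ≤ x i)
    (h : ∀ i ∈ F, a ⊓ x i = 0) : a ⊓ (∑ i ∈ F, x i) = 0 := by
  classical
  induction F using Finset.induction_on with
  | empty => simp [ha]
  | insert i F hi ih =>
    rw [Finset.sum_insert hi]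
    exact disj_add ha (hx i) (Finset.sum_nonneg fun j _ => hx j)
      (h i (Finset.mem_insert_self i F)) (ih fun j hj => h j (Finset.mem_insert_of_mem hj))

lemma posPart_sub_of_disj {a b : X} (h : a ⊓ b = 0) : (a - b) ⊔ 0 = a := by
  have h1 : (a - b) ⊔ 0 = (a ⊔ b) - b := by
    rw [sup_sub, sub_self]
  have h2 := inf_add_sup a b
  rw [h, zero_add] at h2
  rw [h1, h2, add_sub_cancel_right]

lemma abs_sub_of_disj {a b : X} (h : a ⊓ b = 0) : |a - b| = a + b := by
  have h1 := sup_sub_inf_eq_abs_sub a b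
  have h2 := inf_add_sup a b
  rw [h, zero_add] at h2
  rw [h, sub_zero, h2] at h1
  rw [abs_sub_comm]
  exact h1.symm

lemma pos_disj_neg (c : X) : (c ⊔ 0) ⊓ ((-c) ⊔ 0) = 0 := by
  have := posPart_inf_negPart_eq_zero c
  rwa [posPart_def, negPart_def] at this

lemma abs_smul_pos {t : ℝ} {x : X} (hx : 0 ≤ x) : |t • x| = |t| • x := by
  rcases le_total 0 t with h | h
  · rw [abs_of_nonneg h, abs_of_nonneg (smul_nonneg h hx)]
  · have h1 : t • x = -((-t) • x) := by rw [neg_smul, neg_neg]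
    rw [h1, abs_neg, abs_of_nonneg (smul_nonneg (neg_nonneg.2 h) hx), abs_of_nonpos h]

/-- the modulus of a combination of disjoint elements -/
lemma abs_sum_disj {ι : Type*} (F : Finset ι) {x : ι → X} (hx : ∀ i, 0 ≤ x i)
    (h : ∀ i j, i ≠ j → x i ⊓ x j = 0) (t : ι → ℝ) :
    |∑ i ∈ F, t i • x i| = ∑ i ∈ F, |t i| • x i := by
  classical
  have hpos : ∀ c : ℝ, 0 ≤ c ⊔ 0 := fun c => le_sup_right
  have h1 : ∑ i ∈ F, t i • x i = ∑ i ∈ F, (t i ⊔ 0) • x i - ∑ i ∈ F, ((-t i) ⊔ 0) • x i := by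
    rw [← Finset.sum_sub_distrib]
    refine Finset.sum_congr rfl fun i _ => ?_
    rw [← sub_smul]
    congr 1
    rcases le_total 0 (t i) with h | h
    · rw [sup_eq_left.2 h, sup_eq_right.2 (neg_nonpos.2 h), sub_zero]
    · rw [sup_eq_right.2 h, sup_eq_left.2 (neg_nonneg.2 h), zero_sub, neg_neg]
  have h2 : (∑ i ∈ F, (t i ⊔ 0) • x i) ⊓ (∑ i ∈ F, ((-t i) ⊔ 0) • x i) = 0 := by
    refine disj_sum F (Finset.sum_nonneg fun i _ => smul_nonneg (hpos _) (hx i))
      (fun i => smul_nonneg (hpos _) (hx i)) fun i _ => ?_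
    rw [inf_comm]
    refine disj_sum F (smul_nonneg (hpos _) (hx i)) (fun i => smul_nonneg (hpos _) (hx i))
      fun j _ => ?_
    by_cases hij : i = j
    · subst hij
      rcases le_total 0 (t i) with h | h
      · rw [sup_eq_right.2 (neg_nonpos.2 h), zero_smul]
        exact inf_eq_left.2 (smul_nonneg (hpos _) (hx i))
      · rw [sup_eq_right.2 h, zero_smul]
        exact inf_eq_right.2 (smul_nonneg (hpos _) (hx i))
    · refine disj_smul (smul_nonneg (hpos _) (hx i)) (hx j) ?_ (hpos _)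
      rw [inf_comm]
      exact disj_smul (hx j) (hx i) (h j i (Ne.symm hij)) (hpos _)
  rw [h1, abs_sub_of_disj h2, ← Finset.sum_add_distrib]
  refine Finset.sum_congr rfl fun i _ => ?_
  rw [← add_smul]
  congr 1
  rcases le_total 0 (t i) with h | h
  · rw [sup_eq_left.2 h, sup_eq_right.2 (neg_nonpos.2 h), add_zero, abs_of_nonneg h]
  · rw [sup_eq_right.2 h, sup_eq_left.2 (neg_nonneg.2 h), zero_add, abs_of_nonpos h]

lemma sup_eq_half (a b : X) : a ⊔ b = (1 / 2 : ℝ) • (a + b + |b - a|) := by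
  have h := two_nsmul_sup_eq_add_add_abs_sub a b
  rw [← h, two_nsmul, ← two_smul ℝ, smul_smul]
  norm_num

lemma inf_eq_half (a b : X) : a ⊓ b = (1 / 2 : ℝ) • (a + b - |b - a|) := by
  have h := two_nsmul_inf_eq_add_sub_abs_sub a b
  rw [← h, two_nsmul, ← two_smul ℝ, smul_smul]
  norm_num

/-- a linear map with `T |x| = |T x|` is a lattice homomorphism -/
lemma isLatHom_of_abs {T : X →L[ℝ] Y} (h : ∀ x, T |x| = |T x|) : IsLatHom T := by
  intro a b
  constructor
  · rw [sup_eq_half, sup_eq_half, map_smul, map_add, map_add, h, map_sub]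
  · rw [inf_eq_half, inf_eq_half, map_smul, map_sub, map_add, h, map_sub]

lemma IsLatHom.map_abs {T : X →L[ℝ] Y} (hT : IsLatHom T) (x : X) : T |x| = |T x| := by
  show T (x ⊔ -x) = T x ⊔ -T x
  rw [(hT x (-x)).1, map_neg]

lemma IsLatHom.map_pos {T : X →L[ℝ] Y} (hT : IsLatHom T) {x : X} (hx : 0 ≤ x) : 0 ≤ T x := by
  have := hT.map_abs x
  rw [abs_of_nonneg hx] at this
  rw [this]
  exact abs_nonneg _

lemma IsLatHom.mono {T : X →L[ℝ] Y} (hT : IsLatHom T) {x y : X} (hx : x ≤ y) : T x ≤ T y := by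
  have := hT.map_pos (sub_nonneg.2 hx)
  rwa [map_sub, sub_nonneg] at this

/-- lifting of elements with control of the norm -/
lemma IsQuotient.exists_lift {Q : X →L[ℝ] Y} (hQ : IsQuotient Q) (y : Y) {c : ℝ} (hc : ‖y‖ < c) :
    ∃ x : X, Q x = y ∧ ‖x‖ < c := by
  have h := (hQ.2 y).2
  by_contra hcon
  push Not at hcon
  have h1 : c ∈ lowerBounds {r : ℝ | ∃ x : X, Q x = y ∧ r = ‖x‖} := by
    rintro r ⟨x, hx, rfl⟩
    exact hcon x hx
  exact absurd (h h1) (not_le.2 hc)

lemma IsQuotient.norm_le {Q : X →L[ℝ] Y} (hQ : IsQuotient Q) (x : X) : ‖Q x‖ ≤ ‖x‖ :=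
  (hQ.2 (Q x)).1 ⟨x, rfl, rfl⟩

lemma norm_posPart_le (x : X) : ‖x ⊔ 0‖ ≤ ‖x‖ := by
  refine HasSolidNorm.solid ?_
  rw [abs_of_nonneg (le_sup_right : (0 : X) ≤ x ⊔ 0)]
  exact sup_le (le_abs_self x) (abs_nonneg x)

lemma norm_le_of_nonneg {a b : X} (ha : 0 ≤ a) (h : a ≤ b) : ‖a‖ ≤ ‖b‖ := by
  refine HasSolidNorm.solid ?_
  rw [abs_of_nonneg ha, abs_of_nonneg (ha.trans h)]
  exact h

/-- positive lifting -/
lemma IsQuotient.exists_pos_lift {Q : X →L[ℝ] Y} (hQ : IsQuotient Q) {y : Y} (hy : 0 ≤ y) {c : ℝ}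
    (hc : ‖y‖ < c) : ∃ x : X, 0 ≤ x ∧ Q x = y ∧ ‖x‖ < c := by
  obtain ⟨x, hx, hxc⟩ := hQ.exists_lift y hc
  refine ⟨x ⊔ 0, le_sup_right, ?_, (norm_posPart_le x).trans_lt hxc⟩
  rw [(hQ.1 x 0).1, hx, map_zero, sup_eq_left.2 hy]

/-- positive lifting, for elements of norm at most `c`, with a factor `1 + ε` -/
lemma IsQuotient.exists_pos_lift' {Q : X →L[ℝ] Y} (hQ : IsQuotient Q) {y : Y} (hy : 0 ≤ y)
    {c ε : ℝ} (hc : ‖y‖ ≤ c) (hε : 0 < ε) : ∃ x : X, 0 ≤ x ∧ Q x = y ∧ ‖x‖ ≤ (1 + ε) * c := by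
  rcases eq_or_ne y 0 with rfl | hy0
  · refine ⟨0, le_rfl, map_zero Q, ?_⟩
    rw [norm_zero] at hc ⊢
    positivity
  · have h1 : 0 < ‖y‖ := norm_pos_iff.2 hy0
    have h2 : ‖y‖ < (1 + ε) * c := by nlinarith
    obtain ⟨x, hx, hx2, hx3⟩ := hQ.exists_pos_lift hy h2
    exact ⟨x, hx, hx2, hx3.le⟩

/-- countably many disjoint positive elements can be lifted to disjoint positive elements -/
lemma IsQuotient.exists_disjoint_lift {Q : X →L[ℝ] Y} (hQ : IsQuotient Q) {y : ℕ → Y}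
    (hy : ∀ n, 0 ≤ y n) (hd : ∀ m n, m ≠ n → y m ⊓ y n = 0) {c ε : ℝ} (hc : ∀ n, ‖y n‖ ≤ c)
    (hε : 0 < ε) : ∃ x : ℕ → X, (∀ n, 0 ≤ x n) ∧ (∀ m n, m ≠ n → x m ⊓ x n = 0) ∧
      (∀ n, Q (x n) = y n) ∧ ∀ n, ‖x n‖ ≤ (1 + ε) * c := by
  choose w hw0 hwQ hwn using fun n => hQ.exists_pos_lift' (hy n) (hc n) hε
  have hc0 : 0 ≤ c := (norm_nonneg _).trans (hc 0)
  -- the subtracted series
  have hsum : ∀ n : ℕ, Summable fun m : ℕ => (if n < m then (1 / 2 : ℝ) ^ m else 0) • w m := by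
    intro n
    refine Summable.of_norm_bounded (g := fun m : ℕ => (1 / 2 : ℝ) ^ m * ((1 + ε) * c)) ?_ ?_
    · exact (summable_geometric_of_lt_one (by norm_num) (by norm_num)).mul_right _
    · intro m
      rw [norm_smul]
      refine mul_le_mul ?_ (hwn m) (norm_nonneg _) (by positivity)
      split_ifs
      · rw [Real.norm_of_nonneg (by positivity)]
      · rw [norm_zero]; positivity
  set a : ℕ → X := fun n => ∑ m ∈ Finset.range n, (2 : ℝ) ^ n • w m with ha
  set b : ℕ → X := fun n => ∑' m : ℕ, (if n < m then (1 / 2 : ℝ) ^ m else 0) • w m with hb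
  have ha0 : ∀ n, 0 ≤ a n := fun n => Finset.sum_nonneg fun m _ => smul_nonneg (by positivity) (hw0 m)
  have hterm : ∀ n m : ℕ, 0 ≤ (if n < m then (1 / 2 : ℝ) ^ m else 0) • w m := by
    intro n m
    split_ifs
    · exact smul_nonneg (by positivity) (hw0 m)
    · rw [zero_smul]
  have hb0 : ∀ n, 0 ≤ b n := fun n => tsum_nonneg (hterm n)
  refine ⟨fun n => (w n - (a n + b n)) ⊔ 0, fun n => le_sup_right, ?_, ?_, ?_⟩
  · -- disjointness
    have key : ∀ m n : ℕ, m < n →
        ((w m - (a m + b m)) ⊔ 0) ⊓ ((w n - (a n + b n)) ⊔ 0) = 0 := by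
      intro m n hmn
      have h1 : (1 / 2 : ℝ) ^ n • w n ≤ b m := by
        have := (hsum m).le_tsum n (fun j _ => hterm m j)
        rwa [if_pos hmn] at this
      have h2 : (2 : ℝ) ^ n • w m ≤ a n :=
        Finset.single_le_sum (f := fun m => (2 : ℝ) ^ n • w m)
          (fun j _ => smul_nonneg (by positivity) (hw0 j)) (Finset.mem_range.2 hmn)
      set z := w m - (1 / 2 : ℝ) ^ n • w n with hz
      have h3 : (w m - (a m + b m)) ⊔ 0 ≤ z ⊔ 0 := by
        refine sup_le_sup_right ?_ 0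
        rw [hz]
        refine sub_le_sub_left ?_ _
        exact h1.trans (le_add_of_nonneg_left (ha0 m))
      have h4 : (w n - (a n + b n)) ⊔ 0 ≤ (2 : ℝ) ^ n • ((-z) ⊔ 0) := by
        refine sup_le ?_ (smul_nonneg (by positivity) le_sup_right)
        have h5 : w n - (a n + b n) ≤ w n - (2 : ℝ) ^ n • w m :=
          sub_le_sub_left (h2.trans (le_add_of_nonneg_right (hb0 n))) _
        refine h5.trans ?_
        have h6 : w n - (2 : ℝ) ^ n • w m = (2 : ℝ) ^ n • (-z) := by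
          rw [hz, neg_sub, smul_sub, smul_smul, ← mul_pow]
          norm_num
        rw [h6]
        exact smul_le_smul_of_nonneg_left le_sup_left (by positivity)
      refine disj_mono le_sup_right le_sup_right h3 h4 ?_
      exact disj_smul le_sup_right le_sup_right (pos_disj_neg z) (by positivity)
    intro m n hmn
    rcases lt_or_gt_of_ne hmn with h | h
    · exact key m n h
    · rw [inf_comm]; exact key n m h
  · -- the images
    intro n
    rw [(hQ.1 _ 0).1, map_zero, map_sub, map_add, hwQ]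
    have h1 : Q (a n) = ∑ m ∈ Finset.range n, (2 : ℝ) ^ n • y m := by
      rw [ha]
      simp only [map_sum, map_smul, hwQ]
    have h2 : Q (b n) = ∑' m : ℕ, (if n < m then (1 / 2 : ℝ) ^ m else 0) • y m := by
      rw [hb]
      simp only
      rw [Q.map_tsum (hsum n)]
      simp only [map_smul, hwQ]
    have h3 : y n ⊓ (Q (a n)) = 0 := by
      rw [h1]
      refine disj_sum _ (hy n) (fun m => smul_nonneg (by positivity) (hy m)) fun m hm => ?_
      exact disj_smul (hy n) (hy m) (hd n m (by have := Finset.mem_range.1 hm; omega))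
        (by positivity)
    have hsumY : Summable fun m : ℕ => (if n < m then (1 / 2 : ℝ) ^ m else 0) • y m := by
      have := (hsum n).mapL Q
      simpa only [map_smul, hwQ] using this
    have h4 : y n ⊓ (Q (b n)) = 0 := by
      rw [h2]
      have h5 : ∀ N : ℕ, y n ⊓ (∑ m ∈ Finset.range N,
          (if n < m then (1 / 2 : ℝ) ^ m else 0) • y m) = 0 := by
        intro N
        refine disj_sum _ (hy n) (fun m => ?_) fun m _ => ?_
        · split_ifs
          · exact smul_nonneg (by positivity) (hy m)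
          · rw [zero_smul]
        · split_ifs with h
          · exact disj_smul (hy n) (hy m) (hd n m (by omega)) (by positivity)
          · rw [zero_smul, inf_eq_right.2 (hy n)]
      have h6 : Tendsto (fun N : ℕ => y n ⊓ (∑ m ∈ Finset.range N,
          (if n < m then (1 / 2 : ℝ) ^ m else 0) • y m)) atTop
          (𝓝 (y n ⊓ ∑' m : ℕ, (if n < m then (1 / 2 : ℝ) ^ m else 0) • y m)) :=
        tendsto_const_nhds.inf_nhds hsumY.hasSum.tendsto_sum_nat
      simp only [h5] at h6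
      exact (tendsto_nhds_unique h6 tendsto_const_nhds)
    rw [← map_add]
    refine posPart_sub_of_disj ?_
    rw [map_add]
    exact disj_add (hy n) (hQ.1.map_pos (ha0 n)) (hQ.1.map_pos (hb0 n)) h3 h4
  · intro n
    refine (norm_le_of_nonneg le_sup_right ?_).trans (hwn n)
    refine sup_le ?_ (hw0 n)
    exact sub_le_self _ (add_nonneg (ha0 n) (hb0 n))

end lemmas

end Pool.Agent.R280.BLat
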