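import Mathlib

/-!
Embeddings of `c_0` into a Banach space.
-/

set_option autoImplicit false

open Set Topology Filter
open scoped ZeroAtInfty

universe v

namespace Pool.Agent.R280.C0Emb

/-- The normed space `X` contains a subspace isomorphic to `c_0`: there is a bounded linear map
`T : c_0 → X` with `c * ‖a‖ ≤ ‖T a‖` for some `c > 0`. Here `c_0` is the space of the functions
`ℕ → ℝ` which vanish at infinity, with the supremum norm. -/
def ContainsC0 (X : Type v) [NormedAddCommGroup X] [NormedSpace ℝ X] : Prop :=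
  ∃ (T : C₀(ℕ, ℝ) →L[ℝ] X) (c : ℝ), 0 < c ∧ ∀ a, c * ‖a‖ ≤ ‖T a‖

lemma abs_le_norm (a : C₀(ℕ, ℝ)) (n : ℕ) : |a n| ≤ ‖a‖ := by
  rw [← ZeroAtInftyContinuousMap.norm_toBCF_eq_norm]
  exact a.toBCF.norm_coe_le_norm n

lemma tendsto_zero (a : C₀(ℕ, ℝ)) : Tendsto (fun n => a n) atTop (𝓝 0) := by
  have := a.zero_at_infty'
  rwa [cocompact_eq_atTop] at this

lemma norm_le_of {a : C₀(ℕ, ℝ)} {t : ℝ} (ht : 0 ≤ t) (h : ∀ n, |a n| ≤ t) : ‖a‖ ≤ t := by
  rw [← ZeroAtInftyContinuousMap.norm_toBCF_eq_norm]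
  exact (BoundedContinuousFunction.norm_le ht).2 h

/-- a criterion -/
theorem containsC0_of {X : Type v} [NormedAddCommGroup X] [NormedSpace ℝ X] [CompleteSpace X]
    (x : ℕ → X) (C c : ℝ) (hC : 0 ≤ C) (hc : 0 < c)
    (h1 : ∀ (A : Finset ℕ) (a : ℕ → ℝ) (t : ℝ), 0 ≤ t → (∀ k ∈ A, |a k| ≤ t) →
      ‖∑ k ∈ A, a k • x k‖ ≤ C * t)
    (h2 : ∀ (A : Finset ℕ) (a : ℕ → ℝ), ∀ j ∈ A, c * |a j| ≤ ‖∑ k ∈ A, a k • x k‖) :
    ContainsC0 X := by
  classical
  have hsum : ∀ a : C₀(ℕ, ℝ), Summable fun k => a k • x k := by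
    intro a
    rw [summable_iff_vanishing_norm]
    intro ε hε
    have h3 : ∀ᶠ n in atTop, |a n| < ε / (C + 1) := by
      have := (tendsto_zero a).abs
      rw [abs_zero] at this
      exact this.eventually_lt_const (by positivity)
    obtain ⟨N, hN⟩ := eventually_atTop.1 h3
    refine ⟨Finset.range N, fun A hA => ?_⟩
    have h4 := h1 A a (ε / (C + 1)) (by positivity) (fun k hk => by
      refine (hN k ?_).le
      by_contra hcon
      exact Finset.disjoint_left.1 hA hk (Finset.mem_range.2 (not_le.1 hcon)))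
    refine lt_of_le_of_lt h4 ?_
    rw [mul_div_assoc', div_lt_iff₀ (by positivity)]
    nlinarith
  have hbd : ∀ a : C₀(ℕ, ℝ), ‖∑' k, a k • x k‖ ≤ C * ‖a‖ := fun a =>
    le_of_tendsto' (hsum a).hasSum.norm fun A =>
      h1 A a ‖a‖ (norm_nonneg _) fun k _ => abs_le_norm a k
  let T : C₀(ℕ, ℝ) →ₗ[ℝ] X :=
    { toFun := fun a => ∑' k, a k • x k
      map_add' := by
        intro a b
        rw [← (hsum a).tsum_add (hsum b)]
        refine tsum_congr fun k => ?_
        rw [ZeroAtInftyContinuousMap.add_apply, add_smul]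
      map_smul' := by
        intro r a
        rw [RingHom.id_apply, ← (hsum a).tsum_const_smul]
        refine tsum_congr fun k => ?_
        rw [ZeroAtInftyContinuousMap.smul_apply, smul_eq_mul, mul_smul] }
  refine ⟨T.mkContinuous C hbd, c, hc, fun a => ?_⟩
  show c * ‖a‖ ≤ ‖∑' k, a k • x k‖
  have h3 : ‖a‖ ≤ ‖∑' k, a k • x k‖ / c := by
    refine norm_le_of (by positivity) fun j => ?_
    rw [le_div_iff₀ hc, mul_comm]
    refine ge_of_tendsto (hsum a).hasSum.norm ?_
    filter_upwards [eventually_ge_atTop {j}] with A hA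
    exact h2 A a j (hA (Finset.mem_singleton_self j))
  rw [le_div_iff₀ hc] at h3
  linarith

/-- The unit vectors of `c_0`. -/
noncomputable def unit (k : ℕ) : C₀(ℕ, ℝ) where
  toFun := fun n => if n = k then 1 else 0
  continuous_toFun := continuous_of_discreteTopology
  zero_at_infty' := by
    rw [cocompact_eq_atTop]
    refine tendsto_const_nhds.congr' ?_
    filter_upwards [eventually_gt_atTop k] with n hn
    rw [if_neg hn.ne']

lemma unit_apply (k n : ℕ) : unit k n = if n = k then 1 else 0 := rfl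

lemma sum_unit_apply (A : Finset ℕ) (n : ℕ) :
    (∑ k ∈ A, unit k) n = if n ∈ A then 1 else 0 := by
  classical
  induction A using Finset.induction_on with
  | empty => simp
  | insert k A hk ih =>
    rw [Finset.sum_insert hk, ZeroAtInftyContinuousMap.add_apply, ih, unit_apply]
    by_cases hn : n = k
    · subst hn
      rw [if_pos rfl, if_neg hk, if_pos (Finset.mem_insert_self n A), add_zero]
    · rw [if_neg hn, zero_add]
      by_cases hA : n ∈ A
      · rw [if_pos hA, if_pos (Finset.mem_insert_of_mem hA)]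
      · rw [if_neg hA, if_neg (by rw [Finset.mem_insert]; push Not; exact ⟨hn, hA⟩)]

lemma norm_sum_unit_le (A : Finset ℕ) : ‖∑ k ∈ A, unit k‖ ≤ 1 := by
  refine norm_le_of zero_le_one fun n => ?_
  rw [sum_unit_apply]
  split_ifs <;> simp

lemma norm_unit (k : ℕ) : ‖unit k‖ = 1 := by
  apply le_antisymm
  · have := norm_sum_unit_le {k}
    rwa [Finset.sum_singleton] at this
  · have := abs_le_norm (unit k) k
    rwa [unit_apply, if_pos rfl, abs_one] at this

end Pool.Agent.R280.C0Emb
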