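import Pool.Agent.R280.BLat

/-!
Quotients of Banach lattices by closed ideals.
-/

set_option autoImplicit false
set_option linter.unusedSectionVars false

open Set Topology Filter

universe u v w

namespace Pool.Agent.R280.BLat

variable {X : Type u} [NormedAddCommGroup X] [NormedSpace ℝ X] [Lattice X] [BanachLattice X]

/-- a closed ideal of a Banach lattice -/
structure ClosedIdeal (X : Type u) [NormedAddCommGroup X] [NormedSpace ℝ X] [Lattice X] where
  J : Submodule ℝ X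
  closed : IsClosed (J : Set X)
  solid : ∀ a ∈ J, ∀ b, |b| ≤ |a| → b ∈ J

/-- the quotient Banach lattice -/
def IQ (I : ClosedIdeal X) : Type u := X ⧸ I.J

variable (I : ClosedIdeal X)

noncomputable instance : NormedAddCommGroup (IQ I) := by
  have := I.closed
  exact inferInstanceAs (NormedAddCommGroup (X ⧸ I.J))

noncomputable instance : NormedSpace ℝ (IQ I) := by
  have := I.closed
  exact inferInstanceAs (NormedSpace ℝ (X ⧸ I.J))

instance : CompleteSpace (IQ I) := by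
  have := I.closed
  have : CompleteSpace X := BanachLattice.toCompleteSpace
  exact inferInstanceAs (CompleteSpace (X ⧸ I.J))

variable {I}

/-- the quotient map, as a linear map -/
noncomputable def iqMk (I : ClosedIdeal X) : X →ₗ[ℝ] IQ I := I.J.mkQ

lemma iqMk_surj : Function.Surjective (iqMk I) := I.J.mkQ_surjective

lemma iqMk_eq {a b : X} : iqMk I a = iqMk I b ↔ a - b ∈ I.J := Submodule.Quotient.eq I.J

lemma iqMk_eq_zero {a : X} : iqMk I a = 0 ↔ a ∈ I.J := Submodule.Quotient.mk_eq_zero I.J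

lemma iqMk_norm_le (a : X) : ‖iqMk I a‖ ≤ ‖a‖ := by
  have := I.closed
  exact Submodule.Quotient.norm_mk_le I.J a

lemma iqMk_lift (z : IQ I) {ε : ℝ} (hε : 0 < ε) : ∃ a, iqMk I a = z ∧ ‖a‖ < ‖z‖ + ε := by
  have := I.closed
  exact Submodule.Quotient.norm_mk_lt z hε

lemma abs_sup_sub_sup_le (a b c d : X) : |a ⊔ b - c ⊔ d| ≤ |a - c| + |b - d| := by
  have h1 : ∀ a b c d : X, a ⊔ b - c ⊔ d ≤ |a - c| + |b - d| := by
    intro a b c d
    rw [sub_le_iff_le_add]
    refine sup_le ?_ ?_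
    · have h2 : a = (a - c) + c := by abel
      calc a = (a - c) + c := h2
        _ ≤ (|a - c| + |b - d|) + (c ⊔ d) :=
          add_le_add ((le_abs_self _).trans (le_add_of_nonneg_right (abs_nonneg _))) le_sup_left
    · have h2 : b = (b - d) + d := by abel
      calc b = (b - d) + d := h2
        _ ≤ (|a - c| + |b - d|) + (c ⊔ d) :=
          add_le_add ((le_abs_self _).trans (le_add_of_nonneg_left (abs_nonneg _))) le_sup_right
  rw [abs_le']
  refine ⟨h1 a b c d, ?_⟩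
  rw [neg_sub]
  have := h1 c d a b
  rwa [abs_sub_comm c a, abs_sub_comm d b] at this

lemma ideal_abs_add {a b : X} (ha : a ∈ I.J) (hb : b ∈ I.J) : |a| + |b| ∈ I.J := by
  have h1 : |a| ∈ I.J := I.solid a ha _ (by rw [abs_abs])
  have h2 : |b| ∈ I.J := I.solid b hb _ (by rw [abs_abs])
  exact I.J.add_mem h1 h2

lemma iqMk_sup_congr {a b c d : X} (h1 : iqMk I a = iqMk I c) (h2 : iqMk I b = iqMk I d) :
    iqMk I (a ⊔ b) = iqMk I (c ⊔ d) := by
  rw [iqMk_eq] at h1 h2 ⊢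
  refine I.solid _ (ideal_abs_add h1 h2) _ ?_
  rw [abs_of_nonneg (a := |a - c| + |b - d|) (add_nonneg (abs_nonneg _) (abs_nonneg _))]
  exact abs_sup_sub_sup_le a b c d

noncomputable instance : Max (IQ I) :=
  ⟨fun a b => iqMk I ((iqMk_surj a).choose ⊔ (iqMk_surj b).choose)⟩

noncomputable instance : Min (IQ I) := ⟨fun a b => -(-a ⊔ -b)⟩

lemma iqMk_sup (a b : X) : iqMk I (a ⊔ b) = iqMk I a ⊔ iqMk I b :=
  (iqMk_sup_congr (iqMk_surj (iqMk I a)).choose_spec (iqMk_surj (iqMk I b)).choose_spec).symm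

lemma iqMk_inf (a b : X) : iqMk I (a ⊓ b) = iqMk I a ⊓ iqMk I b := by
  show _ = -(-iqMk I a ⊔ -iqMk I b)
  rw [← map_neg, ← map_neg, ← iqMk_sup, ← map_neg]
  congr 1
  rw [← neg_inf, neg_neg]

noncomputable instance : Lattice (IQ I) :=
  Lattice.mk'
    (fun x y => by
      obtain ⟨a, rfl⟩ := iqMk_surj x
      obtain ⟨b, rfl⟩ := iqMk_surj y
      rw [← iqMk_sup, ← iqMk_sup, sup_comm])
    (fun x y z => by
      obtain ⟨a, rfl⟩ := iqMk_surj x
      obtain ⟨b, rfl⟩ := iqMk_surj y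
      obtain ⟨c, rfl⟩ := iqMk_surj z
      rw [← iqMk_sup, ← iqMk_sup, ← iqMk_sup, ← iqMk_sup, sup_assoc])
    (fun x y => by
      obtain ⟨a, rfl⟩ := iqMk_surj x
      obtain ⟨b, rfl⟩ := iqMk_surj y
      rw [← iqMk_inf, ← iqMk_inf, inf_comm])
    (fun x y z => by
      obtain ⟨a, rfl⟩ := iqMk_surj x
      obtain ⟨b, rfl⟩ := iqMk_surj y
      obtain ⟨c, rfl⟩ := iqMk_surj z
      rw [← iqMk_inf, ← iqMk_inf, ← iqMk_inf, ← iqMk_inf, inf_assoc])
    (fun x y => by
      obtain ⟨a, rfl⟩ := iqMk_surj x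
      obtain ⟨b, rfl⟩ := iqMk_surj y
      rw [← iqMk_inf, ← iqMk_sup, sup_inf_self])
    (fun x y => by
      obtain ⟨a, rfl⟩ := iqMk_surj x
      obtain ⟨b, rfl⟩ := iqMk_surj y
      rw [← iqMk_sup, ← iqMk_inf, inf_sup_self])

lemma iq_le_iff {x y : IQ I} : x ≤ y ↔ x ⊔ y = y := sup_eq_right.symm

lemma iqMk_sup' (a b : X) : iqMk I (a ⊔ b) = iqMk I a ⊔ iqMk I b := iqMk_sup a b

lemma iqMk_inf' (a b : X) : iqMk I (a ⊓ b) = iqMk I a ⊓ iqMk I b := iqMk_inf a b

lemma iqMk_mono {a b : X} (h : a ≤ b) : iqMk I a ≤ iqMk I b := by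
  rw [iq_le_iff, ← iqMk_sup', sup_eq_right.2 h]

lemma iqMk_abs (a : X) : iqMk I |a| = |iqMk I a| := by
  show iqMk I (a ⊔ -a) = iqMk I a ⊔ -iqMk I a
  rw [iqMk_sup', map_neg]

instance : IsOrderedAddMonoid (IQ I) where
  add_le_add_left := fun x y h z => by
    obtain ⟨a, rfl⟩ := iqMk_surj x
    obtain ⟨b, rfl⟩ := iqMk_surj y
    obtain ⟨c, rfl⟩ := iqMk_surj z
    rw [iq_le_iff, ← iqMk_sup'] at h
    rw [iq_le_iff, ← map_add, ← map_add, ← iqMk_sup', ← sup_add, map_add, h, ← map_add]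

instance : HasSolidNorm (IQ I) where
  solid := fun x y h => by
    refine le_of_forall_pos_le_add fun ε hε => ?_
    obtain ⟨a, rfl⟩ := iqMk_surj x
    obtain ⟨b, rfl, hb⟩ := iqMk_lift y hε
    refine le_trans ?_ hb.le
    -- truncate `a`
    have h1 : iqMk I ((a ⊓ |b|) ⊔ (-|b|)) = iqMk I a := by
      rw [iqMk_sup', iqMk_inf', map_neg, iqMk_abs]
      rw [inf_eq_left.2 ((le_abs_self _).trans h), sup_eq_left]
      exact neg_le.1 ((neg_le_abs _).trans h)
    rw [← h1]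
    refine (iqMk_norm_le _).trans (HasSolidNorm.solid ?_)
    rw [abs_le']
    constructor
    · exact sup_le inf_le_right (neg_le.1 (by
        have : -|b| ≤ |b| := (neg_nonpos.2 (abs_nonneg b)).trans (abs_nonneg b)
        exact this))
    · rw [neg_le]
      exact le_sup_right

instance : PosSMulMono ℝ (IQ I) where
  smul_le_smul_of_nonneg_left := fun c hc x y h => by
    obtain ⟨a, rfl⟩ := iqMk_surj x
    obtain ⟨b, rfl⟩ := iqMk_surj y
    rw [iq_le_iff, ← iqMk_sup'] at h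
    rcases eq_or_lt_of_le hc with rfl | hc
    · simp
    · rw [← h, ← map_smul, ← map_smul]
      refine iqMk_mono ?_
      exact smul_le_smul_of_nonneg_left le_sup_left hc.le

instance : BanachLattice (IQ I) where

/-- the quotient map -/
noncomputable def iqMap (I : ClosedIdeal X) : X →L[ℝ] IQ I :=
  (iqMk I).mkContinuous 1 fun a => by rw [one_mul]; exact iqMk_norm_le a

lemma iqMap_apply (a : X) : iqMap I a = iqMk I a := rfl

lemma iqMap_eq_zero {a : X} : iqMap I a = 0 ↔ a ∈ I.J := iqMk_eq_zero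

lemma iqMap_latHom (I : ClosedIdeal X) : IsLatHom (iqMap I) := fun a b => ⟨iqMk_sup' a b, iqMk_inf' a b⟩

lemma iqMap_quotient (I : ClosedIdeal X) : IsQuotient (iqMap I) := by
  refine ⟨iqMap_latHom I, fun y => ⟨?_, fun c hc => ?_⟩⟩
  · rintro r ⟨a, rfl, rfl⟩
    exact iqMk_norm_le a
  · refine le_of_forall_pos_le_add fun ε hε => ?_
    obtain ⟨a, ha, hlt⟩ := iqMk_lift y hε
    exact (hc ⟨a, ha, rfl⟩).trans hlt.le

end Pool.Agent.R280.BLat
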