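import Pool.Agent.R280.Cube
import Pool.Agent.R280.QuotLat

/-!
Central cut-off operators on Banach lattices.
-/

set_option autoImplicit false
set_option linter.unusedSectionVars false

open Set Topology Filter

universe u v w

namespace Pool.Agent.R280.BLat

section factor

variable {X : Type u} [NormedAddCommGroup X] [NormedSpace ℝ X] [Lattice X] [BanachLattice X]
variable {C : Type v} [NormedAddCommGroup C] [NormedSpace ℝ C] [Lattice C] [BanachLattice C]
variable {Z : Type w} [NormedAddCommGroup Z] [NormedSpace ℝ Z] [Lattice Z] [BanachLattice Z]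

lemma IsQuotient.surj {Q : X →L[ℝ] C} (hQ : IsQuotient Q) (c : C) : ∃ x, Q x = c := by
  obtain ⟨x, hx, -⟩ := hQ.exists_lift c (lt_add_one _)
  exact ⟨x, hx⟩

/-- factorisation of lattice homomorphisms through quotient maps -/
theorem IsQuotient.factor {Q : X →L[ℝ] C} (hQ : IsQuotient Q) (θ : X →L[ℝ] Z) (hθ : IsLatHom θ)
    (h : ∀ x, Q x = 0 → θ x = 0) :
    ∃ θ' : C →L[ℝ] Z, IsLatHom θ' ∧ ‖θ'‖ ≤ ‖θ‖ ∧ ∀ x, θ' (Q x) = θ x := by
  have hcongr : ∀ x y, Q x = Q y → θ x = θ y := by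
    intro x y hxy
    have := h (x - y) (by rw [map_sub, hxy, sub_self])
    rw [map_sub] at this
    exact sub_eq_zero.1 this
  choose s hs using hQ.surj
  let T0 : C →ₗ[ℝ] Z :=
    { toFun := fun c => θ (s c)
      map_add' := fun a b => by
        rw [← map_add]
        exact hcongr _ _ (by rw [map_add, hs, hs, hs])
      map_smul' := fun r a => by
        rw [RingHom.id_apply, ← map_smul]
        exact hcongr _ _ (by rw [map_smul, hs, hs]) }
  have hbd : ∀ c, ‖T0 c‖ ≤ ‖θ‖ * ‖c‖ := by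
    intro c
    refine le_of_forall_pos_le_add fun ε hε => ?_
    obtain ⟨x, hx, hlt⟩ := hQ.exists_lift c (c := ‖c‖ + ε / (‖θ‖ + 1))
      (lt_add_of_pos_right _ (by positivity))
    have h1 : T0 c = θ x := hcongr _ _ (by rw [hs, hx])
    rw [h1]
    refine (θ.le_opNorm x).trans ?_
    have h2 : ‖θ‖ * ‖x‖ ≤ ‖θ‖ * (‖c‖ + ε / (‖θ‖ + 1)) :=
      mul_le_mul_of_nonneg_left hlt.le (norm_nonneg _)
    have h3 : ‖θ‖ * (ε / (‖θ‖ + 1)) ≤ ε := by
      have h4 : ‖θ‖ * (ε / (‖θ‖ + 1)) ≤ (‖θ‖ + 1) * (ε / (‖θ‖ + 1)) :=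
        mul_le_mul_of_nonneg_right (by linarith) (by positivity)
      have h5 : (‖θ‖ + 1) * (ε / (‖θ‖ + 1)) = ε := by
        have := norm_nonneg θ
        field_simp
      linarith
    rw [mul_add] at h2
    linarith
  refine ⟨T0.mkContinuous ‖θ‖ hbd, fun a b => ?_, T0.mkContinuous_norm_le (norm_nonneg _) _,
    fun x => ?_⟩
  · constructor
    · show θ (s (a ⊔ b)) = θ (s a) ⊔ θ (s b)
      rw [← (hθ _ _).1]
      exact hcongr _ _ (by rw [(hQ.1 _ _).1, hs, hs, hs])
    · show θ (s (a ⊓ b)) = θ (s a) ⊓ θ (s b)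
      rw [← (hθ _ _).2]
      exact hcongr _ _ (by rw [(hQ.1 _ _).2, hs, hs, hs])
  · exact hcongr _ _ (by rw [hs])

end factor

section center

variable {B : Type u} [NormedAddCommGroup B] [NormedSpace ℝ B] [Lattice B] [BanachLattice B]

/-- the ideal generated by a positive element -/
def gIdeal (d : B) : Set B := {b | ∃ m : ℝ, 0 ≤ m ∧ |b| ≤ m • d}

/-- The central cut-off operator: if the ideal generated by `e` is dense, for `j ≥ 0` and `c > 0`
there is a contractive lattice homomorphism `θ : B → B` which kills the closed ideal generated by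
`(j - c e)⁺` and such that `θ b - b` lies in the closed ideal generated by `j`. -/
theorem exists_cutoff {e j : B} (he : 0 ≤ e) (hj : 0 ≤ j) (hdense : Dense (gIdeal e)) {c : ℝ}
    (hc : 0 < c) : ∃ θ : B →L[ℝ] B, IsLatHom θ ∧ ‖θ‖ ≤ 1 ∧
      (∀ b, b ∈ closure (gIdeal ((j - c • e) ⊔ 0)) → θ b = 0) ∧
      ∀ b, θ b - b ∈ closure (gIdeal j) := by
  set e' : B := e + j with he'
  have he'0 : 0 ≤ e' := add_nonneg he hj
  have hje : j ≤ e' := le_add_of_nonneg_left he
  let A : Type u := {b : B // |b| ≤ e'}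
  obtain ⟨Φ, hΦ, -, hΦ1, hΦg⟩ := cube_univ (A := A) he'0 (y := fun a => a.1) (fun a => a.2)
  let ja : A := ⟨j, by rw [abs_of_nonneg hj]; exact hje⟩
  let πj : C(Cube A, ℝ) := cubeGen (some ja)
  have hπj : Φ πj = j := hΦg ja
  -- representation of the elements of the ideal
  have hrep : ∀ b : B, ∀ m : ℝ, |b| ≤ m • e' → ∃ f, Φ f = b := by
    intro b m hb
    have hm : |b| ≤ (|m| + 1) • e' :=
      hb.trans (smul_le_smul_of_nonneg_right (by linarith [le_abs_self m]) he'0)
    have hpos : (0 : ℝ) < |m| + 1 := by positivity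
    have h1 : |(|m| + 1)⁻¹ • b| ≤ e' := by
      have h2 : |(|m| + 1)⁻¹ • b| = (|m| + 1)⁻¹ • |b| := by
        show ((|m| + 1)⁻¹ • b) ⊔ -((|m| + 1)⁻¹ • b) = (|m| + 1)⁻¹ • (b ⊔ -b)
        rw [smul_sup' (inv_pos.2 hpos), smul_neg]
      rw [h2]
      have h3 := smul_le_smul_of_nonneg_left hm (inv_nonneg.2 hpos.le)
      rwa [smul_smul, inv_mul_cancel₀ hpos.ne', one_smul] at h3
    refine ⟨(|m| + 1) • cubeGen (some ⟨_, h1⟩), ?_⟩
    rw [map_smul, hΦg, smul_smul, mul_inv_cancel₀ hpos.ne', one_smul]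
  have hrange : ∀ f, |Φ f| ≤ ‖f‖ • e' := by
    intro f
    have := latHom_abs_le hΦ f
    rwa [hΦ1] at this
  -- the multiplier
  let κ : ℝ := (1 + c) / c
  have hκ : 0 < κ := by positivity
  let g : C(Cube A, ℝ) := (1 - κ • (πj ⊔ 0)) ⊔ 0
  have hgval : ∀ k, g k = (1 - κ * (πj k ⊔ 0)) ⊔ 0 := fun k => rfl
  have hg0 : ∀ k, 0 ≤ g k := fun k => by rw [hgval]; exact le_sup_right
  have hg1 : ∀ k, g k ≤ 1 := fun k => by
    rw [hgval]
    refine sup_le ?_ zero_le_one
    have : 0 ≤ κ * (πj k ⊔ 0) := mul_nonneg hκ.le le_sup_right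
    linarith
  have hgabs : ∀ f : C(Cube A, ℝ), |g * f| ≤ |f| := by
    intro f k
    show |g * f| k ≤ |f| k
    rw [cabs_apply, cabs_apply]
    show |g k * f k| ≤ |f k|
    rw [abs_mul, abs_of_nonneg (hg0 k)]
    exact mul_le_of_le_one_left (abs_nonneg _) (hg1 k)
  have hΦle : ∀ f, |Φ (g * f)| ≤ |Φ f| := by
    intro f
    rw [← hΦ.map_abs, ← hΦ.map_abs]
    exact hΦ.mono (hgabs f)
  obtain ⟨θ, hθ, hθn, hθR⟩ := exists_latHom_of_rel (P := B) (Y := B)
    (fun b b' => ∃ f, Φ f = b ∧ Φ (g * f) = b') ⟨0, map_zero _, by rw [mul_zero, map_zero]⟩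
    (by
      rintro _ _ _ _ ⟨f, rfl, rfl⟩ ⟨f', rfl, rfl⟩
      exact ⟨f + f', map_add _ _ _, by rw [mul_add, map_add]⟩)
    (by
      rintro r _ _ ⟨f, rfl, rfl⟩
      exact ⟨r • f, map_smul _ _ _, by rw [mul_smul_comm, map_smul]⟩)
    (by
      rintro _ _ _ _ ⟨f, rfl, rfl⟩ ⟨f', rfl, rfl⟩
      refine ⟨f ⊔ f', (hΦ _ _).1, ?_⟩
      rw [← (hΦ _ _).1]
      congr 1
      ext k
      show g k * (f k ⊔ f' k) = (g k * f k) ⊔ (g k * f' k)
      exact mul_max_of_nonneg _ _ (hg0 k)) zero_le_one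
    (by
      rintro _ _ ⟨f, rfl, rfl⟩
      rw [one_mul]
      exact HasSolidNorm.solid (hΦle f))
    (by
      intro b ε hε
      obtain ⟨b', ⟨m, hm, hb'⟩, hlt⟩ := hdense.exists_dist_lt b hε
      obtain ⟨f, hf⟩ := hrep b' m (hb'.trans (smul_le_smul_of_nonneg_left
        (le_add_of_nonneg_right hj) hm))
      exact ⟨b', _, ⟨f, hf, rfl⟩, by rwa [dist_eq_norm] at hlt⟩)
  have hθΦ : ∀ f, θ (Φ f) = Φ (g * f) := fun f => hθR _ _ ⟨f, rfl, rfl⟩
  refine ⟨θ, hθ, hθn, ?_, ?_⟩
  · -- kills the ideal generated by `(j - c e)⁺`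
    have hd : (j - c • e) ⊔ 0 = Φ (((1 + c) • πj - c • 1) ⊔ 0) := by
      rw [(hΦ _ _).1, map_sub, map_smul, map_smul, hπj, hΦ1, map_zero]
      congr 1
      rw [he', smul_add, add_smul, one_smul]
      abel
    have hgd : g * (((1 + c) • πj - c • 1) ⊔ 0) = 0 := by
      ext k
      show g k * (((1 + c) * πj k - c * 1) ⊔ 0) = 0
      rw [mul_one]
      rcases le_or_gt ((1 + c) * πj k) c with h | h
      · rw [sup_eq_right.2 (by linarith), mul_zero]
      · have hpos : 0 < πj k := by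
          by_contra hcon
          push Not at hcon
          have : (1 + c) * πj k ≤ 0 := mul_nonpos_of_nonneg_of_nonpos (by linarith) hcon
          linarith
        have h2 : g k = 0 := by
          rw [hgval, sup_eq_left.2 hpos.le]
          refine sup_eq_right.2 ?_
          have h3 : 1 ≤ κ * πj k := by
            show 1 ≤ (1 + c) / c * πj k
            rw [div_mul_eq_mul_div, le_div_iff₀ hc, one_mul]
            exact h.le
          linarith
        rw [h2, zero_mul]
    have hkill : ∀ b ∈ gIdeal ((j - c • e) ⊔ 0), θ b = 0 := by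
      rintro b ⟨m, hm, hb⟩
      have h1 : |θ b| ≤ 0 := by
        rw [← hθ.map_abs]
        refine (hθ.mono hb).trans (le_of_eq ?_)
        rw [map_smul, hd, hθΦ, hgd, map_zero, smul_zero]
      have h2 : |θ b| = 0 := le_antisymm h1 (abs_nonneg _)
      have h3 := norm_abs_eq_norm (θ b)
      rw [h2, norm_zero] at h3
      exact norm_eq_zero.1 h3.symm
    intro b hb
    have hcl : IsClosed {b | θ b = 0} := isClosed_eq θ.continuous continuous_const
    exact closure_minimal hkill hcl hb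
  · -- `θ b - b` lies in the closed ideal generated by `j`
    have hkey : ∀ f, θ (Φ f) - Φ f ∈ gIdeal j := by
      intro f
      refine ⟨κ * ‖f‖, by positivity, ?_⟩
      rw [hθΦ, ← map_sub, ← hΦ.map_abs]
      have h1 : |g * f - f| ≤ (κ * ‖f‖) • (πj ⊔ 0) := by
        intro k
        show |g * f - f| k ≤ (κ * ‖f‖) * (πj k ⊔ 0)
        rw [cabs_apply]
        show |g k * f k - f k| ≤ _
        have h2 : g k * f k - f k = -((1 - g k) * f k) := by ring
        rw [h2, abs_neg, abs_mul, abs_of_nonneg (by linarith [hg1 k])]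
        have h3 : 1 - g k ≤ κ * (πj k ⊔ 0) := by
          have : 1 - κ * (πj k ⊔ 0) ≤ g k := by rw [hgval]; exact le_sup_left
          linarith
        have h4 : |f k| ≤ ‖f‖ := f.norm_coe_le_norm k
        calc (1 - g k) * |f k| ≤ (κ * (πj k ⊔ 0)) * ‖f‖ :=
              mul_le_mul h3 h4 (abs_nonneg _) (mul_nonneg hκ.le le_sup_right)
          _ = _ := by ring
      refine (hΦ.mono h1).trans (le_of_eq ?_)
      rw [map_smul, (hΦ _ _).1, hπj, map_zero, sup_eq_left.2 hj]
    intro b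
    have hcont : Continuous fun b => θ b - b := θ.continuous.sub continuous_id
    have hb : b ∈ closure (range Φ) := by
      refine closure_mono ?_ (hdense b)
      rintro b' ⟨m, hm, hb'⟩
      obtain ⟨f, hf⟩ := hrep b' m (hb'.trans (smul_le_smul_of_nonneg_left
        (le_add_of_nonneg_right hj) hm))
      exact ⟨f, hf⟩
    refine map_mem_closure (f := fun b => θ b - b) hcont hb ?_
    rintro _ ⟨f, rfl⟩
    exact hkey f

end center

end Pool.Agent.R280.BLat
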