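import Pool.Agent.R280.RK

/-!
The universal property of `C([-1,1]^A)` among Banach lattices.
-/

set_option autoImplicit false
set_option linter.unusedSectionVars false

open Set Topology Filter

universe u v w

namespace Pool.Agent.R280.BLat

section CK

variable {K : Type u} [TopologicalSpace K] [CompactSpace K]

lemma cabs_apply (f : C(K, ℝ)) (k : K) : |f| k = |f k| := by
  show (f ⊔ -f) k = _
  rw [ContinuousMap.sup_apply]
  rfl

lemma cabs_le (f : C(K, ℝ)) : |f| ≤ ‖f‖ • (1 : C(K, ℝ)) := by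
  intro k
  show |f| k ≤ (‖f‖ • (1 : C(K, ℝ))) k
  rw [cabs_apply]
  have := f.norm_coe_le_norm k
  simpa using this

instance : BanachLattice C(K, ℝ) where
  add_le_add_left := fun a b hab c k => by
    show a k + c k ≤ b k + c k
    have h : a k ≤ b k := hab k
    linarith
  solid := fun f g h => by
    rw [ContinuousMap.norm_le _ (norm_nonneg _)]
    intro k
    have h1 : |f| k ≤ |g| k := h k
    rw [cabs_apply, cabs_apply] at h1
    exact h1.trans (g.norm_coe_le_norm k)
  smul_le_smul_of_nonneg_left := fun c hc f g h k => by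
    show c * f k ≤ c * g k
    exact mul_le_mul_of_nonneg_left (h k) hc
  complete := CompleteSpace.complete

end CK

section cube

variable (A : Type u)

/-- the cube `[-1,1]^A` -/
abbrev Cube : Type u := A → Set.Icc (-1 : ℝ) 1

variable {A}

/-- the coordinate functions on the cube, together with the constant function one -/
def cubeGen : Option A → C(Cube A, ℝ)
  | none => 1
  | some a => ⟨fun k => (k a : ℝ), by fun_prop⟩

lemma cubeGen_none : (cubeGen (none : Option A)) = 1 := rfl

lemma cubeGen_some (a : A) (k : Cube A) : cubeGen (some a) k = (k a : ℝ) := rfl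

variable {Y : Type v} [NormedAddCommGroup Y] [NormedSpace ℝ Y] [Lattice Y] [BanachLattice Y]

/-- the values of the generators in `Y` -/
def cubeVal (e : Y) (y : A → Y) : Option A → Y
  | none => e
  | some a => y a

/-- the point of the cube given by a positive functional -/
noncomputable def cubePt (e : Y) (y : A → Y) (ψ : Y →ₗ[ℝ] ℝ) : Cube A :=
  fun a => Set.projIcc (-1) 1 (by norm_num) (ψ (y a) / ψ e)

/-- the multiple of an evaluation given by a positive functional -/
noncomputable def cubeRho (e : Y) (y : A → Y) (ψ : Y →ₗ[ℝ] ℝ) : C(Cube A, ℝ) →ₗ[ℝ] ℝ where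
  toFun f := ψ e * f (cubePt e y ψ)
  map_add' f g := by simp [mul_add]
  map_smul' c f := by simp; ring

lemma cubeRho_apply (e : Y) (y : A → Y) (ψ : Y →ₗ[ℝ] ℝ) (f : C(Cube A, ℝ)) :
    cubeRho e y ψ f = ψ e * f (cubePt e y ψ) := rfl

lemma cube_isPts {e : Y} (he : 0 ≤ e) {y : A → Y} (hy : ∀ a, |y a| ≤ e) :
    IsPts cubeGen (cubeVal e y) (cubeRho e y) where
  sup := by
    intro ψ hψ f g
    rw [cubeRho_apply, cubeRho_apply, cubeRho_apply, ContinuousMap.sup_apply]
    exact mul_max_of_nonneg _ _ (hψ e he)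
  gen := by
    intro ψ hψ i
    have he' := hψ e he
    cases i with
    | none =>
      rw [cubeRho_apply, cubeGen_none]
      show ψ e * 1 = ψ e
      rw [mul_one]
    | some a =>
      rw [cubeRho_apply, cubeGen_some]
      show ψ e * (cubePt e y ψ a : ℝ) = ψ (y a)
      have h1 : |ψ (y a)| ≤ ψ e := by
        rw [abs_le]
        constructor
        · have := hψ.mono (neg_le.1 (neg_le_abs (y a)))
          rw [map_neg] at this
          have h2 := hψ.mono (hy a)
          linarith
        · exact hψ.mono ((le_abs_self _).trans (hy a))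
      rcases eq_or_lt_of_le he' with h0 | h0
      · rw [← h0, zero_mul]
        rw [← h0] at h1
        exact (abs_eq_zero.1 (le_antisymm h1 (abs_nonneg _))).symm
      · have h2 : ψ (y a) / ψ e ∈ Set.Icc (-1 : ℝ) 1 := by
          rw [abs_le] at h1
          constructor
          · rw [le_div_iff₀ h0]; linarith
          · rw [div_le_one h0]; linarith
        have h3 : (cubePt e y ψ a : ℝ) = ψ (y a) / ψ e := by
          show ((Set.projIcc (-1) 1 _ (ψ (y a) / ψ e) : Set.Icc (-1 : ℝ) 1) : ℝ) = _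
          rw [Set.projIcc_of_mem _ h2]
        rw [h3]
        field_simp

/-- norm estimate on the generated sublattice -/
lemma cube_rel_le {e : Y} (he : 0 ≤ e) {y : A → Y} (hy : ∀ a, |y a| ≤ e) {f : C(Cube A, ℝ)} {z : Y}
    (h : Rel cubeGen (cubeVal e y) f z) : |z| ≤ ‖f‖ • e := by
  refine le_of_posF fun ψ hψ => ?_
  obtain ⟨l, hl, hs, hi⟩ := h.main (cube_isPts he hy) hψ
  refine hi.trans ?_
  rw [map_smul, smul_eq_mul, ← hs]
  clear hi hs
  induction l with
  | nil => simp
  | cons φ l ih =>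
    rw [List.map_cons, List.sum_cons, List.sum_cons]
    have h1 := ih fun φ' hφ' => hl φ' (List.mem_cons_of_mem _ hφ')
    have h2 : cubeRho e y φ |f| ≤ ‖f‖ * φ e := by
      rw [cubeRho_apply, mul_comm, cabs_apply]
      exact mul_le_mul_of_nonneg_right (f.norm_coe_le_norm _) (hl φ List.mem_cons_self e he)
    show _ ≤ ‖f‖ * (φ e + l.sum e)
    rw [mul_add]
    exact add_le_add h2 h1

lemma cube_dense (e : Y) (y : A → Y) (f : C(Cube A, ℝ)) {ε : ℝ} (hε : 0 < ε) :
    ∃ g z, Rel cubeGen (cubeVal e y) g z ∧ ‖f - g‖ < ε := by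
  have hcl := ContinuousMap.sublattice_closure_eq_top
    {g : C(Cube A, ℝ) | ∃ z, Rel cubeGen (cubeVal e y) g z} ⟨0, 0, Rel.zero⟩
    (by
      rintro f ⟨z, hz⟩ g ⟨t, ht⟩
      refine ⟨-(-z ⊔ -t), ?_⟩
      have := (hz.neg.sup ht.neg).neg
      rwa [← neg_inf, neg_neg] at this)
    (by
      rintro f ⟨z, hz⟩ g ⟨t, ht⟩
      exact ⟨_, hz.sup ht⟩)
    (by
      intro v k k'
      by_cases hkk : k = k'
      · subst hkk
        refine ⟨v k • 1, ⟨v k • e, (Rel.gen (p := cubeGen) (x := cubeVal e y) none).smul (v k)⟩, ?_, ?_⟩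
          <;> simp
      · obtain ⟨a, ha⟩ := Function.ne_iff.1 hkk
        have hne : (k a : ℝ) - (k' a : ℝ) ≠ 0 := sub_ne_zero.2 fun h => ha (Subtype.ext h)
        let c : ℝ := (v k - v k') / ((k a : ℝ) - (k' a : ℝ))
        refine ⟨c • cubeGen (some a) + (v k - c * (k a : ℝ)) • cubeGen none,
          ⟨_, ((Rel.gen (some a)).smul c).add ((Rel.gen none).smul _)⟩, ?_, ?_⟩
        · show c * (k a : ℝ) + (v k - c * (k a : ℝ)) * 1 = v k
          ring
        · show c * (k' a : ℝ) + (v k - c * (k a : ℝ)) * 1 = v k'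
          have : c * ((k a : ℝ) - (k' a : ℝ)) = v k - v k' := div_mul_cancel₀ _ hne
          linarith)
  have hf : f ∈ closure {g : C(Cube A, ℝ) | ∃ z, Rel cubeGen (cubeVal e y) g z} := by
    rw [hcl]; trivial
  obtain ⟨g, ⟨z, hz⟩, hg⟩ := Metric.mem_closure_iff.1 hf ε hε
  exact ⟨g, z, hz, by rwa [dist_eq_norm] at hg⟩

/-- The universal property of `C([-1,1]^A)`. -/
theorem cube_univ {e : Y} (he : 0 ≤ e) {y : A → Y} (hy : ∀ a, |y a| ≤ e) :
    ∃ T : C(Cube A, ℝ) →L[ℝ] Y, IsLatHom T ∧ ‖T‖ ≤ ‖e‖ ∧ T 1 = e ∧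
      ∀ a, T (cubeGen (some a)) = y a := by
  obtain ⟨T, hT, hTn, hTR⟩ := exists_latHom_of_rel (P := C(Cube A, ℝ)) (Y := Y)
    (Rel cubeGen (cubeVal e y)) Rel.zero (fun f g a b ha hb => ha.add hb)
    (fun c f a ha => ha.smul c) (fun f g a b ha hb => ha.sup hb) (norm_nonneg e)
    (fun f z h => by
      have h1 := cube_rel_le he hy h
      have h2 : |z| ≤ |‖f‖ • e| := h1.trans (le_abs_self _)
      have h3 := norm_le_norm_of_abs_le_abs h2
      rwa [norm_smul, norm_norm, mul_comm] at h3)
    (fun f ε hε => cube_dense e y f hε)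
  exact ⟨T, hT, hTn, hTR _ _ (Rel.gen none), fun a => hTR _ _ (Rel.gen (some a))⟩

/-- a lattice homomorphism on `C(K)` maps `f` into `[-‖f‖ T1, ‖f‖ T1]` -/
lemma latHom_abs_le {K : Type u} [TopologicalSpace K] [CompactSpace K] {T : C(K, ℝ) →L[ℝ] Y}
    (hT : IsLatHom T) (f : C(K, ℝ)) : |T f| ≤ ‖f‖ • T 1 := by
  rw [← hT.map_abs, ← map_smul]
  exact hT.mono (cabs_le f)

/-- lattice homomorphisms on the cube are determined by their values at the generators -/
lemma cube_ext {S T : C(Cube A, ℝ) →L[ℝ] Y} (hS : IsLatHom S) (hT : IsLatHom T)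
    (h1 : S 1 = T 1) (h : ∀ a, S (cubeGen (some a)) = T (cubeGen (some a))) : S = T := by
  have hcl := ContinuousMap.sublattice_closure_eq_top
    {g : C(Cube A, ℝ) | S g = T g} ⟨1, h1⟩
    (by
      intro f hf g hg
      show S (f ⊓ g) = T (f ⊓ g)
      rw [(hS f g).2, (hT f g).2, hf, hg])
    (by
      intro f hf g hg
      show S (f ⊔ g) = T (f ⊔ g)
      rw [(hS f g).1, (hT f g).1, hf, hg])
    (by
      intro v k k'
      by_cases hkk : k = k'
      · subst hkk
        refine ⟨v k • 1, ?_, ?_, ?_⟩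
        · show S (v k • 1) = T (v k • 1)
          rw [map_smul, map_smul, h1]
        · simp
        · simp
      · obtain ⟨a, ha⟩ := Function.ne_iff.1 hkk
        have hne : (k a : ℝ) - (k' a : ℝ) ≠ 0 := sub_ne_zero.2 fun h => ha (Subtype.ext h)
        let c : ℝ := (v k - v k') / ((k a : ℝ) - (k' a : ℝ))
        refine ⟨c • cubeGen (some a) + (v k - c * (k a : ℝ)) • 1, ?_, ?_, ?_⟩
        · show S (c • cubeGen (some a) + (v k - c * (k a : ℝ)) • 1) =
            T (c • cubeGen (some a) + (v k - c * (k a : ℝ)) • 1)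
          rw [map_add, map_add, map_smul, map_smul, map_smul, map_smul, h1, h]
        · show c * (k a : ℝ) + (v k - c * (k a : ℝ)) * 1 = v k
          ring
        · show c * (k' a : ℝ) + (v k - c * (k a : ℝ)) * 1 = v k'
          have : c * ((k a : ℝ) - (k' a : ℝ)) = v k - v k' := div_mul_cancel₀ _ hne
          linarith)
  have hclosed : IsClosed {g : C(Cube A, ℝ) | S g = T g} := isClosed_eq S.continuous T.continuous
  rw [hclosed.closure_eq] at hcl
  ext g
  have : g ∈ {g : C(Cube A, ℝ) | S g = T g} := by rw [hcl]; trivial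
  exact this

end cube

end Pool.Agent.R280.BLat
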