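import Pool.Agent.R280.Center

/-!
`C([-1,1]^A)` is a projective Banach lattice.
-/

set_option autoImplicit false
set_option linter.unusedSectionVars false

open Set Topology Filter TopologicalSpace

universe u v w

namespace Pool.Agent.R280.BLat

/-- the constant function one generates `C(K)` as a closed ideal -/
lemma one_dense_gIdeal {K : Type u} [TopologicalSpace K] [CompactSpace K] :
    Dense (gIdeal (1 : C(K, ℝ))) := fun f => subset_closure ⟨‖f‖, norm_nonneg _, cabs_le f⟩

theorem cube_isProjective (A : Type u) : IsProjective.{u, v} C(Cube A, ℝ) := by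
  intro X Y _ _ _ _ _ _ _ _ Q hQ T hT ε hε
  have hT1 : 0 ≤ T 1 := hT.map_pos (by intro k; exact zero_le_one)
  have hn : ‖T 1‖ ≤ ‖T‖ := by
    have h1 := T.le_opNorm 1
    have h2 : ‖(1 : C(Cube A, ℝ))‖ ≤ 1 := by
      rw [ContinuousMap.norm_le _ zero_le_one]
      intro k
      simp
    exact h1.trans (mul_le_of_le_one_right (norm_nonneg _) h2)
  obtain ⟨e, he0, heQ, hen⟩ := hQ.exists_pos_lift' hT1 hn hε
  choose s hs using hQ.surj
  let x : A → X := fun a => (s (T (cubeGen (some a))) ⊓ e) ⊔ (-e)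
  have hx : ∀ a, |x a| ≤ e := fun a => by
    rw [abs_le']
    constructor
    · exact sup_le inf_le_right ((neg_nonpos.2 he0).trans he0)
    · rw [neg_le]
      exact le_sup_right
  have hgen : ∀ a : A, |cubeGen (some a)| ≤ (1 : C(Cube A, ℝ)) := by
    intro a k
    show |cubeGen (some a)| k ≤ (1 : C(Cube A, ℝ)) k
    rw [cabs_apply, cubeGen_some]
    show |(k a : ℝ)| ≤ 1
    exact abs_le.2 (k a).2
  have hxQ : ∀ a, Q (x a) = T (cubeGen (some a)) := by
    intro a
    show Q ((s (T (cubeGen (some a))) ⊓ e) ⊔ (-e)) = _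
    rw [(hQ.1 _ _).1, (hQ.1 _ _).2, hs, map_neg, heQ]
    have h1 : |T (cubeGen (some a))| ≤ T 1 := by
      rw [← hT.map_abs]
      exact hT.mono (hgen a)
    rw [inf_eq_left.2 ((le_abs_self _).trans h1), sup_eq_left]
    exact neg_le.1 ((neg_le_abs _).trans h1)
  obtain ⟨S, hS, hSn, hS1, hSg⟩ := cube_univ he0 hx
  have hQS : IsLatHom (Q.comp S) := by
    intro a b
    constructor
    · show Q (S (a ⊔ b)) = Q (S a) ⊔ Q (S b)
      rw [(hS a b).1, (hQ.1 _ _).1]
    · show Q (S (a ⊓ b)) = Q (S a) ⊓ Q (S b)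
      rw [(hS a b).2, (hQ.1 _ _).2]
  have heq : Q.comp S = T := cube_ext hQS hT (by
    show Q (S 1) = T 1
    rw [hS1, heQ]) (fun a => by
    show Q (S (cubeGen (some a))) = T (cubeGen (some a))
    rw [hSg, hxQ])
  exact ⟨S, hS, fun p => congrArg (fun R : C(Cube A, ℝ) →L[ℝ] Y => R p) heq, hSn.trans hen⟩

theorem cube_not_separable (A : Type u) (hA : ¬ Countable A) : ¬ SeparableSpace C(Cube A, ℝ) := by
  classical
  intro hsep
  obtain ⟨d, hd⟩ := exists_dense_seq C(Cube A, ℝ)
  have h1 : ∀ a : A, ∃ n, dist (cubeGen (some a)) (d n) < 1 := by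
    intro a
    obtain ⟨n, hn⟩ := hd.exists_dist_lt (cubeGen (some a)) one_pos
    exact ⟨n, hn⟩
  choose n hn using h1
  apply hA
  refine Function.Injective.countable (f := n) ?_
  intro a b hab
  by_contra hne
  have h2 : dist (cubeGen (some a) : C(Cube A, ℝ)) (cubeGen (some b)) < 2 := by
    have h3 := dist_triangle_right (cubeGen (some a)) (cubeGen (some b)) (d (n a))
    have h4 := hn a
    have h5 := hn b
    rw [← hab] at h5
    linarith
  let k : Cube A := fun c => if c = a then ⟨1, by norm_num⟩ else ⟨-1, by norm_num⟩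
  have h6 := lt_of_le_of_lt (ContinuousMap.dist_apply_le_dist
    (f := (cubeGen (some a) : C(Cube A, ℝ))) (g := cubeGen (some b)) k) h2
  rw [cubeGen_some, cubeGen_some] at h6
  have h7 : (k a : ℝ) = 1 := by simp [k]
  have h8 : (k b : ℝ) = -1 := by simp [k, Ne.symm hne]
  rw [h7, h8, Real.dist_eq] at h6
  norm_num at h6

end Pool.Agent.R280.BLat
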