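import Mathlib

/-!
# Analytic core of the counterexample to the Day–Nordlander bound for `γ⁺`

A perturbation argument at `η → 0` by sequences.
-/

namespace Pool.Agent.R280.DN

noncomputable section

open Real Filter Topology

/-- the constant `-721/32` -/
def gc : ℝ := -721 / 32

/-- `h = 1 + η c + η² g c²` -/
def hh (η c : ℝ) : ℝ := 1 + η * c + η ^ 2 * gc * c ^ 2

/-- `(h - 1)/η` -/
def ee (η c : ℝ) : ℝ := c + η * gc * c ^ 2

/-- `h'/η`, with `c = cos 8θ`, `z = sin 8θ` -/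
def dd (η c z : ℝ) : ℝ := -8 * z * (1 + 2 * η * gc * c)

abbrev V := ℝ × ℝ × ℝ × ℝ

def F1 (ε : ℝ) (x : V) : ℝ :=
  hh x.1 (cos (x.2.2.2 - 8 * x.2.1)) * sin x.2.1
  - x.1 * dd x.1 (cos (x.2.2.2 - 8 * x.2.1)) (sin (x.2.2.2 - 8 * x.2.1)) * cos x.2.1
  + hh x.1 (cos (x.2.2.2 + 8 * x.2.2.1)) * sin x.2.2.1
  + x.1 * dd x.1 (cos (x.2.2.2 + 8 * x.2.2.1)) (sin (x.2.2.2 + 8 * x.2.2.1)) * cos x.2.2.1
  - ε * hh x.1 (cos x.2.2.2)

def F2 (ε : ℝ) (x : V) : ℝ :=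
  hh x.1 (cos (x.2.2.2 - 8 * x.2.1)) * cos x.2.1
  + x.1 * dd x.1 (cos (x.2.2.2 - 8 * x.2.1)) (sin (x.2.2.2 - 8 * x.2.1)) * sin x.2.1
  - hh x.1 (cos (x.2.2.2 + 8 * x.2.2.1)) * cos x.2.2.1
  + x.1 * dd x.1 (cos (x.2.2.2 + 8 * x.2.2.1)) (sin (x.2.2.2 + 8 * x.2.2.1)) * sin x.2.2.1
  - ε * (x.1 * dd x.1 (cos x.2.2.2) (sin x.2.2.2))

def Gm (η s1 c1 s2 c2 u1 v1 u2 v2 u3 v3 : ℝ) : ℝ :=
  s1 * hh η u2 * (ee η u3 - ee η u1) * (hh η u3 + hh η u1)
  + s2 * hh η u1 * (ee η u3 - ee η u2) * (hh η u3 + hh η u2)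
  + c1 * hh η u2 * (hh η u3 * dd η u3 v3 + hh η u1 * dd η u1 v1)
  - c2 * hh η u1 * (hh η u3 * dd η u3 v3 + hh η u2 * dd η u2 v2)

def F3 (x : V) : ℝ :=
  Gm x.1 (sin x.2.1) (cos x.2.1) (sin x.2.2.1) (cos x.2.2.1)
    (cos (x.2.2.2 - 8 * x.2.1)) (sin (x.2.2.2 - 8 * x.2.1))
    (cos (x.2.2.2 + 8 * x.2.2.1)) (sin (x.2.2.2 + 8 * x.2.2.1))
    (cos x.2.2.2) (sin x.2.2.2)

theorem contDiff_F1 (ε : ℝ) : ContDiff ℝ 1 (F1 ε) := by
  unfold F1 hh dd
  fun_prop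

theorem contDiff_F2 (ε : ℝ) : ContDiff ℝ 1 (F2 ε) := by
  unfold F2 hh dd
  fun_prop

theorem contDiff_F3 : ContDiff ℝ 1 F3 := by
  unfold F3 Gm hh dd ee
  fun_prop

/-- strict differentiability along two sequences -/
theorem strict_lim {F : V → ℝ} (hF : ContDiff ℝ 1 F) {z : V} (p q : ℕ → V) (ρ : ℕ → ℝ) (w : V)
    (hp : Tendsto p atTop (𝓝 z)) (hq : Tendsto q atTop (𝓝 z)) (hρ : ∀ k, 0 < ρ k)
    (hw : Tendsto (fun k => (ρ k)⁻¹ • (p k - q k)) atTop (𝓝 w)) :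
    Tendsto (fun k => (ρ k)⁻¹ * (F (p k) - F (q k))) atTop (𝓝 (fderiv ℝ F z w)) := by
  have hs : HasStrictFDerivAt F (fderiv ℝ F z) z :=
    (hF.contDiffAt (x := z)).hasStrictFDerivAt (by norm_num)
  have h1 := hs.isLittleO
  have hpq : Tendsto (fun k => (p k, q k)) atTop (𝓝 (z, z)) := by
    rw [nhds_prod_eq]
    exact hp.prodMk hq
  have h2 := h1.comp_tendsto hpq
  have h3 : (fun k => p k - q k) =O[atTop] (fun k => ρ k) := by
    have h4 : (fun k => (ρ k)⁻¹ • (p k - q k)) =O[atTop] (fun _ => (1:ℝ)) := hw.isBigO_one ℝ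
    have h5 := (Asymptotics.isBigO_refl ρ atTop).smul h4
    refine (h5.congr_left ?_).congr_right ?_
    · intro k
      rw [smul_smul, mul_inv_cancel₀ (hρ k).ne', one_smul]
    · intro k
      simp
  have h6 : (fun k => F (p k) - F (q k) - fderiv ℝ F z (p k - q k)) =o[atTop] (fun k => ρ k) := by
    refine Asymptotics.IsLittleO.trans_isBigO ?_ h3
    exact h2
  have h7 : Tendsto (fun k => (F (p k) - F (q k) - fderiv ℝ F z (p k - q k)) / ρ k) atTop (𝓝 0) :=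
    h6.tendsto_div_nhds_zero
  have h8 : Tendsto (fun k => fderiv ℝ F z ((ρ k)⁻¹ • (p k - q k))) atTop (𝓝 (fderiv ℝ F z w)) :=
    ((fderiv ℝ F z).continuous.tendsto w).comp hw
  have h9 := h7.add h8
  rw [zero_add] at h9
  refine h9.congr ?_
  intro k
  rw [map_smul, smul_eq_mul]
  field_simp
  ring

theorem line_deriv {F : V → ℝ} (hF : ContDiff ℝ 1 F) (z w : V) {D : ℝ}
    (h : HasDerivAt (fun t : ℝ => F (z + t • w)) D 0) : fderiv ℝ F z w = D := by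
  have h1 : HasFDerivAt F (fderiv ℝ F z) (z + (0:ℝ) • w) := by
    have := (hF.differentiable (by norm_num)) (z)
    simpa using this.hasFDerivAt
  have h2 : HasDerivAt (fun t : ℝ => z + t • w) w 0 := by
    have := ((hasDerivAt_id (0:ℝ)).smul_const w).const_add z
    simpa using this
  have h3 := h1.comp_hasDerivAt (0:ℝ) h2
  exact h3.unique h

/-- value and derivative at `0` -/
def J (f : ℝ → ℝ) (x x' : ℝ) : Prop := f 0 = x ∧ HasDerivAt f x' 0

theorem J.mul {f k : ℝ → ℝ} {x x' y y' : ℝ} (hf : J f x x') (hk : J k y y') :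
    J (fun t => f t * k t) (x * y) (x' * y + x * y') := by
  refine ⟨by simp only [hf.1, hk.1], ?_⟩
  have := hf.2.mul hk.2
  rw [hf.1, hk.1] at this
  exact this

theorem J.add {f k : ℝ → ℝ} {x x' y y' : ℝ} (hf : J f x x') (hk : J k y y') :
    J (fun t => f t + k t) (x + y) (x' + y') :=
  ⟨by simp only [hf.1, hk.1], hf.2.add hk.2⟩

theorem J.sub {f k : ℝ → ℝ} {x x' y y' : ℝ} (hf : J f x x') (hk : J k y y') :
    J (fun t => f t - k t) (x - y) (x' - y') :=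
  ⟨by simp only [hf.1, hk.1], hf.2.sub hk.2⟩

theorem J.const (x : ℝ) : J (fun _ => x) x 0 := ⟨rfl, hasDerivAt_const _ _⟩

theorem J.sq {f : ℝ → ℝ} {x x' : ℝ} (hf : J f x x') :
    J (fun t => f t ^ 2) (x ^ 2) (2 * x * x') := by
  refine ⟨by simp only [hf.1], ?_⟩
  have := (hf.mul hf).2
  have h2 : (fun t => f t ^ 2) = fun t => f t * f t := by
    funext t; ring
  rw [h2]
  exact this.congr_deriv (by ring)

theorem J.sin {f : ℝ → ℝ} {x x' : ℝ} (hf : J f x x') :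
    J (fun t => Real.sin (f t)) (Real.sin x) (Real.cos x * x') := by
  refine ⟨by simp only [hf.1], ?_⟩
  have := hf.2.sin
  rw [hf.1] at this
  exact this

theorem J.cos {f : ℝ → ℝ} {x x' : ℝ} (hf : J f x x') :
    J (fun t => Real.cos (f t)) (Real.cos x) (-Real.sin x * x') := by
  refine ⟨by simp only [hf.1], ?_⟩
  have := hf.2.cos
  rw [hf.1] at this
  exact this

theorem J.lin (x a : ℝ) : J (fun t => x + t * a) x a := by
  refine ⟨by simp, ?_⟩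
  simpa using ((hasDerivAt_id (0:ℝ)).mul_const a).const_add x

theorem J.cast {f : ℝ → ℝ} {x x' y y' : ℝ} (hf : J f x x') (h1 : x = y) (h2 : x' = y') :
    J f y y' := by
  subst h1; subst h2; exact hf

theorem J.hh {f k : ℝ → ℝ} {e y y' : ℝ} (hf : J f 0 e) (hk : J k y y') :
    J (fun t => DN.hh (f t) (k t)) 1 (e * y) := by
  have := ((J.const 1).add (hf.mul hk)).add ((hf.sq.mul (J.const gc)).mul hk.sq)
  exact this.cast (by ring) (by ring)

theorem J.ee {f k : ℝ → ℝ} {e y y' : ℝ} (hf : J f 0 e) (hk : J k y y') :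
    J (fun t => DN.ee (f t) (k t)) y (y' + e * gc * y ^ 2) := by
  have := hk.add ((hf.mul (J.const gc)).mul hk.sq)
  exact this.cast (by ring) (by ring)

theorem J.dd {f k l : ℝ → ℝ} {e y y' v v' : ℝ} (hf : J f 0 e) (hk : J k y y') (hl : J l v v') :
    J (fun t => DN.dd (f t) (k t) (l t)) (-8 * v) (-8 * v' - 16 * e * gc * y * v) := by
  have := ((J.const (-8)).mul hl).mul ((J.const 1).add ((((J.const 2).mul hf).mul
    (J.const gc)).mul hk))
  exact this.cast (by ring) (by ring)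

section lines

variable (ε α β Θ e a b : ℝ)

theorem J_u1 : J (fun t => Real.cos ((Θ + t * 0) - 8 * (α + t * a))) (Real.cos (Θ - 8 * α))
    (8 * a * Real.sin (Θ - 8 * α)) :=
  (((J.lin Θ 0).sub ((J.const 8).mul (J.lin α a))).cos).cast rfl (by ring)

theorem J_v1 : J (fun t => Real.sin ((Θ + t * 0) - 8 * (α + t * a))) (Real.sin (Θ - 8 * α))
    (-8 * a * Real.cos (Θ - 8 * α)) :=
  (((J.lin Θ 0).sub ((J.const 8).mul (J.lin α a))).sin).cast rfl (by ring)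

theorem J_u2 : J (fun t => Real.cos ((Θ + t * 0) + 8 * (β + t * b))) (Real.cos (Θ + 8 * β))
    (-8 * b * Real.sin (Θ + 8 * β)) :=
  (((J.lin Θ 0).add ((J.const 8).mul (J.lin β b))).cos).cast rfl (by ring)

theorem J_v2 : J (fun t => Real.sin ((Θ + t * 0) + 8 * (β + t * b))) (Real.sin (Θ + 8 * β))
    (8 * b * Real.cos (Θ + 8 * β)) :=
  (((J.lin Θ 0).add ((J.const 8).mul (J.lin β b))).sin).cast rfl (by ring)

theorem J_u3 : J (fun t => Real.cos (Θ + t * 0)) (Real.cos Θ) 0 :=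
  ((J.lin Θ 0).cos).cast rfl (by ring)

theorem J_v3 : J (fun t => Real.sin (Θ + t * 0)) (Real.sin Θ) 0 :=
  ((J.lin Θ 0).sin).cast rfl (by ring)

theorem fderiv_F1 : fderiv ℝ (F1 ε) (0, α, β, Θ) (e, a, b, 0) =
    Real.cos α * a + Real.cos β * b + e * (Real.sin α * Real.cos (Θ - 8 * α)
      + Real.sin β * Real.cos (Θ + 8 * β) + 8 * Real.cos α * Real.sin (Θ - 8 * α)
      - 8 * Real.cos β * Real.sin (Θ + 8 * β) - ε * Real.cos Θ) := by
  apply line_deriv (contDiff_F1 ε)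
  have hη := J.lin 0 e
  have h := (((((hη.hh (J_u1 α Θ a)).mul (J.lin α a).sin).sub
    ((hη.mul (hη.dd (J_u1 α Θ a) (J_v1 α Θ a))).mul (J.lin α a).cos)).add
    ((hη.hh (J_u2 β Θ b)).mul (J.lin β b).sin)).add
    ((hη.mul (hη.dd (J_u2 β Θ b) (J_v2 β Θ b))).mul (J.lin β b).cos)).sub
    ((J.const ε).mul (hη.hh (J_u3 Θ)))
  exact h.2.congr_deriv (by ring)

theorem fderiv_F2 : fderiv ℝ (F2 ε) (0, α, β, Θ) (e, a, b, 0) =
    - Real.sin α * a + Real.sin β * b + e * (Real.cos α * Real.cos (Θ - 8 * α)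
      - Real.cos β * Real.cos (Θ + 8 * β) - 8 * Real.sin α * Real.sin (Θ - 8 * α)
      - 8 * Real.sin β * Real.sin (Θ + 8 * β) + 8 * ε * Real.sin Θ) := by
  apply line_deriv (contDiff_F2 ε)
  have hη := J.lin 0 e
  have h := (((((hη.hh (J_u1 α Θ a)).mul (J.lin α a).cos).add
    ((hη.mul (hη.dd (J_u1 α Θ a) (J_v1 α Θ a))).mul (J.lin α a).sin)).sub
    ((hη.hh (J_u2 β Θ b)).mul (J.lin β b).cos)).add
    ((hη.mul (hη.dd (J_u2 β Θ b) (J_v2 β Θ b))).mul (J.lin β b).sin)).sub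
    ((J.const ε).mul (hη.mul (hη.dd (J_u3 Θ) (J_v3 Θ))))
  exact h.2.congr_deriv (by ring)

/-- the linear form in `(a, b, e)` of the third function -/
def T3 (e a b s1 c1 s2 c2 u1 v1 u2 v2 u3 v3 : ℝ) : ℝ :=
  2 * c1 * a * (u3 - u1) + s1 * (e * u2) * (u3 - u1) * 2
    + s1 * ((e * gc * u3 ^ 2) - (8 * a * v1 + e * gc * u1 ^ 2)) * 2
    + s1 * (u3 - u1) * (e * u3 + e * u1)
  + 2 * c2 * b * (u3 - u2) + s2 * (e * u1) * (u3 - u2) * 2
    + s2 * ((e * gc * u3 ^ 2) - (-8 * b * v2 + e * gc * u2 ^ 2)) * 2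
    + s2 * (u3 - u2) * (e * u3 + e * u2)
  + 8 * s1 * a * (v3 + v1) - 8 * c1 * (e * u2) * (v3 + v1)
    + c1 * ((e * u3) * (-8 * v3) + (-16 * e * gc * u3 * v3) + (e * u1) * (-8 * v1)
      + (64 * a * u1 - 16 * e * gc * u1 * v1))
  - 8 * s2 * b * (v3 + v2) + 8 * c2 * (e * u1) * (v3 + v2)
    - c2 * ((e * u3) * (-8 * v3) + (-16 * e * gc * u3 * v3) + (e * u2) * (-8 * v2)
      + (-64 * b * u2 - 16 * e * gc * u2 * v2))

theorem fderiv_F3 : fderiv ℝ F3 (0, α, β, Θ) (e, a, b, 0) =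
    T3 e a b (Real.sin α) (Real.cos α) (Real.sin β) (Real.cos β)
      (Real.cos (Θ - 8 * α)) (Real.sin (Θ - 8 * α)) (Real.cos (Θ + 8 * β)) (Real.sin (Θ + 8 * β))
      (Real.cos Θ) (Real.sin Θ) := by
  apply line_deriv contDiff_F3
  have hη := J.lin 0 e
  have h1 := J_u1 α Θ a
  have h2 := J_v1 α Θ a
  have h3 := J_u2 β Θ b
  have h4 := J_v2 β Θ b
  have h5 := J_u3 Θ
  have h6 := J_v3 Θ
  have hs1 := (J.lin α a).sin
  have hc1 := (J.lin α a).cos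
  have hs2 := (J.lin β b).sin
  have hc2 := (J.lin β b).cos
  have k1 := ((hs1.mul (hη.hh h3)).mul ((hη.ee h5).sub (hη.ee h1))).mul ((hη.hh h5).add (hη.hh h1))
  have k2 := ((hs2.mul (hη.hh h1)).mul ((hη.ee h5).sub (hη.ee h3))).mul ((hη.hh h5).add (hη.hh h3))
  have k3 := (hc1.mul (hη.hh h3)).mul (((hη.hh h5).mul (hη.dd h5 h6)).add
    ((hη.hh h1).mul (hη.dd h1 h2)))
  have k4 := (hc2.mul (hη.hh h1)).mul (((hη.hh h5).mul (hη.dd h5 h6)).add
    ((hη.hh h3).mul (hη.dd h3 h4)))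
  have h := ((k1.add k2).add k3).sub k4
  refine h.2.congr_deriv ?_
  unfold T3
  ring

end lines

theorem T3_val (e s r C Z a b : ℝ) (hr : r ^ 2 = 5) (hCZ : C ^ 2 + Z ^ 2 = 1)
    (ha : a = e * (8 * (-8 * r / 81) * C + 31 / 2 * (160 / 81) * Z) / 2)
    (hb : b = e * (8 * (-8 * r / 81) * C - 31 / 2 * (160 / 81) * Z) / 2) :
    T3 e a b s (r * s) s (r * s)
      (C * (-79 / 81) + Z * (-8 * r / 81)) (Z * (-79 / 81) - C * (-8 * r / 81))
      (C * (-79 / 81) - Z * (-8 * r / 81)) (Z * (-79 / 81) + C * (-8 * r / 81)) C Z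
      = -(80000 / 729) * e * s := by
  subst ha hb
  unfold T3 gc
  linear_combination (-(778880 / 6561) * e * s * Z ^ 2 - (128248 / 6561) * e * s * C ^ 2) * hr
    + (-(80000 / 729) * e * s) * hCZ

theorem ab_val (e s r C Z a b : ℝ) (hs : 0 < s) (hr : r ^ 2 = 5)
    (h1 : r * s * a + r * s * b + e * (s * (C * (-79 / 81) + Z * (-8 * r / 81))
      + s * (C * (-79 / 81) - Z * (-8 * r / 81)) + 8 * (r * s) * (Z * (-79 / 81) - C * (-8 * r / 81))
      - 8 * (r * s) * (Z * (-79 / 81) + C * (-8 * r / 81)) - 2 * s * C) = 0)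
    (h2 : - s * a + s * b + e * (r * s * (C * (-79 / 81) + Z * (-8 * r / 81))
      - r * s * (C * (-79 / 81) - Z * (-8 * r / 81)) - 8 * s * (Z * (-79 / 81) - C * (-8 * r / 81))
      - 8 * s * (Z * (-79 / 81) + C * (-8 * r / 81)) + 8 * (2 * s) * Z) = 0) :
    a = e * (8 * (-8 * r / 81) * C + 31 / 2 * (160 / 81) * Z) / 2 ∧
    b = e * (8 * (-8 * r / 81) * C - 31 / 2 * (160 / 81) * Z) / 2 := by
  have h3 : s * (r * (a + b) + e * (-(320 / 81) * C + 8 * r * (16 * r / 81) * C)) = 0 := by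
    linear_combination h1
  have h4 : s * (b - a + e * (-(16 * r ^ 2 / 81) * Z + 16 * (160 / 81) * Z)) = 0 := by
    linear_combination h2
  have h5 := (mul_eq_zero.1 h3).resolve_left hs.ne'
  have h6 := (mul_eq_zero.1 h4).resolve_left hs.ne'
  have h7 : a + b = e * (8 * (-8 * r / 81) * C) := by
    linear_combination (r / 5) * h5 + (-(a + b) / 5 - (128 / 405) * r * e * C) * hr
  have h8 : a - b = e * (31 / 2 * (160 / 81) * Z) := by
    linear_combination (-1) * h6 + (-(16 / 81) * e * Z) * hr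
  constructor
  · linear_combination (1 / 2) * h7 + (1 / 2) * h8
  · linear_combination (1 / 2) * h7 - (1 / 2) * h8

theorem trig8 {x s r : ℝ} (hs : Real.sin x = s) (hc : Real.cos x = r * s) (hs2 : s ^ 2 = 1 / 6)
    (hr : r ^ 2 = 5) : Real.cos (8 * x) = -79 / 81 ∧ Real.sin (8 * x) = -8 * r / 81 := by
  have h1 : Real.cos (2 * x) = 2 / 3 := by
    rw [Real.cos_two_mul, hc]
    have : (r * s) ^ 2 = 5 / 6 := by rw [mul_pow, hr, hs2]; norm_num
    rw [this]; norm_num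
  have h2 : Real.sin (2 * x) = r / 3 := by
    rw [Real.sin_two_mul, hc, hs]
    linear_combination 2 * r * hs2
  have h3 : Real.cos (4 * x) = -1 / 9 := by
    rw [show 4 * x = 2 * (2 * x) by ring, Real.cos_two_mul, h1]; norm_num
  have h4 : Real.sin (4 * x) = 4 * r / 9 := by
    rw [show 4 * x = 2 * (2 * x) by ring, Real.sin_two_mul, h1, h2]; ring
  constructor
  · rw [show 8 * x = 2 * (4 * x) by ring, Real.cos_two_mul, h3]; norm_num
  · rw [show 8 * x = 2 * (4 * x) by ring, Real.sin_two_mul, h3, h4]; ring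

theorem limit_angles {a b s : ℝ} (hs : 0 < s) (hs2 : s ^ 2 = 1 / 6)
    (h1 : Real.sin a + Real.sin b = 2 * s) (h2 : Real.cos a = Real.cos b) :
    ∃ r : ℝ, r ^ 2 = 5 ∧ Real.sin a = s ∧ Real.sin b = s ∧ Real.cos a = r * s ∧
      Real.cos b = r * s := by
  have h3 := Real.sin_sq_add_cos_sq a
  have h4 := Real.sin_sq_add_cos_sq b
  have h5 : (Real.sin a - Real.sin b) * (Real.sin a + Real.sin b) = 0 := by
    rw [← h2] at h4
    linear_combination h3 - h4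
  rw [h1] at h5
  have h6 : Real.sin a - Real.sin b = 0 := (mul_eq_zero.1 h5).resolve_right (by positivity)
  have ha : Real.sin a = s := by linarith
  have hb : Real.sin b = s := by linarith
  have hc : Real.cos a = Real.cos a / s * s := by field_simp
  refine ⟨Real.cos a / s, ?_, ha, hb, hc, h2 ▸ hc⟩
  have h7 : Real.cos a ^ 2 = 5 / 6 := by
    rw [ha, hs2] at h3; linarith
  rw [div_pow, h7, hs2]; norm_num

theorem key_seq (s : ℝ) (hs : 0 < s) (hs2 : s ^ 2 = 1 / 6) (η α β Θ : ℕ → ℝ)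
    (hη : Tendsto η atTop (𝓝 0)) (hpos : ∀ k, 0 < η k)
    (hα : ∀ k, α k ∈ Set.Icc 0 (2 * π)) (hβ : ∀ k, β k ∈ Set.Icc 0 (2 * π))
    (hΘ : ∀ k, Θ k ∈ Set.Icc 0 (2 * π))
    (h1 : ∀ k, F1 (2 * s) (η k, α k, β k, Θ k) = 0)
    (h2 : ∀ k, F2 (2 * s) (η k, α k, β k, Θ k) = 0)
    (h3 : ∀ k, -8 * (η k) ^ 2 ≤ F3 (η k, α k, β k, Θ k)) : False := by
  have hK : IsCompact ((Set.Icc (0:ℝ) (2 * π)) ×ˢ (Set.Icc (0:ℝ) (2 * π)) ×ˢ
      (Set.Icc (0:ℝ) (2 * π))) := isCompact_Icc.prod (isCompact_Icc.prod isCompact_Icc)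
  obtain ⟨⟨a0, b0, T0⟩, -, φ, hφ, hlim⟩ := hK.tendsto_subseq
    (x := fun k => (α k, β k, Θ k)) (fun k => ⟨hα k, hβ k, hΘ k⟩)
  have hφt := hφ.tendsto_atTop
  have hp : Tendsto (fun k => (η (φ k), α (φ k), β (φ k), Θ (φ k))) atTop
      (𝓝 ((0 : ℝ), a0, b0, T0)) := (hη.comp hφt).prodMk_nhds hlim
  have hTlim : Tendsto (fun k => Θ (φ k)) atTop (𝓝 T0) :=
    (continuous_snd.tendsto _).comp ((continuous_snd.tendsto _).comp hlim)
  have hq : Tendsto (fun k => ((0:ℝ), a0, b0, Θ (φ k))) atTop (𝓝 ((0 : ℝ), a0, b0, T0)) :=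
    tendsto_const_nhds.prodMk_nhds (tendsto_const_nhds.prodMk_nhds
      (tendsto_const_nhds.prodMk_nhds hTlim))
  have hz1 : F1 (2 * s) ((0 : ℝ), a0, b0, T0) = 0 := by
    have h4 := ((contDiff_F1 (2 * s)).continuous.tendsto _).comp hp
    refine tendsto_nhds_unique h4 ?_
    simp only [Function.comp_def, h1]
    exact tendsto_const_nhds
  have hz2 : F2 (2 * s) ((0 : ℝ), a0, b0, T0) = 0 := by
    have h4 := ((contDiff_F2 (2 * s)).continuous.tendsto _).comp hp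
    refine tendsto_nhds_unique h4 ?_
    simp only [Function.comp_def, h2]
    exact tendsto_const_nhds
  have e1 : Real.sin a0 + Real.sin b0 = 2 * s := by
    simp only [F1, hh, dd] at hz1
    linear_combination hz1
  have e2 : Real.cos a0 = Real.cos b0 := by
    simp only [F2, hh, dd] at hz2
    linear_combination hz2
  obtain ⟨r, hr, sa, sb, ca, cb⟩ := limit_angles hs hs2 e1 e2
  obtain ⟨c8a, s8a⟩ := trig8 sa ca hs2 hr
  obtain ⟨c8b, s8b⟩ := trig8 sb cb hs2 hr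
  have q1 : ∀ T, F1 (2 * s) ((0:ℝ), a0, b0, T) = 0 := by
    intro T
    simp only [F1, hh, dd, sa, sb]
    ring
  have q2 : ∀ T, F2 (2 * s) ((0:ℝ), a0, b0, T) = 0 := by
    intro T
    simp only [F2, hh, dd, ca, cb]
    ring
  have q3 : ∀ T, F3 ((0:ℝ), a0, b0, T) = 0 := by
    intro T
    simp only [F3, Gm, hh, dd, ee, sa, sb, ca, cb, Real.cos_sub, Real.sin_sub, Real.cos_add,
      Real.sin_add, c8a, s8a, c8b, s8b]
    linear_combination (-(128 / 81) * s * Real.cos T) * hr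
  -- second extraction
  set p : ℕ → V := fun k => (η (φ k), α (φ k), β (φ k), Θ (φ k)) with hpdef
  set q : ℕ → V := fun k => ((0:ℝ), a0, b0, Θ (φ k)) with hqdef
  have hpq1 : ∀ k, (p k - q k).1 = η (φ k) := fun k => by simp [hpdef, hqdef]
  have hpq4 : ∀ k, (p k - q k).2.2.2 = 0 := fun k => by simp [hpdef, hqdef]
  have hρge : ∀ k, η (φ k) ≤ ‖p k - q k‖ := fun k => by
    have h4 : ‖(p k - q k).1‖ ≤ ‖p k - q k‖ := norm_fst_le _
    rw [hpq1, Real.norm_of_nonneg (hpos _).le] at h4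
    exact h4
  have hρ : ∀ k, 0 < ‖p k - q k‖ := fun k => (hpos _).trans_le (hρge k)
  have hsph : IsCompact (Metric.sphere (0:V) 1) := isCompact_sphere _ _
  obtain ⟨w, hw, ψ, hψ, hwlim⟩ := hsph.tendsto_subseq
    (x := fun k => (‖p k - q k‖)⁻¹ • (p k - q k)) (fun k => by
      rw [mem_sphere_zero_iff_norm, norm_smul, norm_inv, norm_norm,
        inv_mul_cancel₀ (hρ k).ne'])
  have hψt := hψ.tendsto_atTop
  have hwn : ‖w‖ = 1 := by simpa using hw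
  have hw1 : 0 ≤ w.1 := by
    have h4 : Tendsto (fun k => ((‖p (ψ k) - q (ψ k)‖)⁻¹ • (p (ψ k) - q (ψ k))).1) atTop
      (𝓝 w.1) := (continuous_fst.tendsto _).comp hwlim
    refine ge_of_tendsto' h4 (fun k => ?_)
    rw [Prod.smul_fst, hpq1, smul_eq_mul]
    exact mul_nonneg (inv_nonneg.2 (norm_nonneg _)) (hpos _).le
  have hw4 : w.2.2.2 = 0 := by
    have h4 : Tendsto (fun k => ((‖p (ψ k) - q (ψ k)‖)⁻¹ • (p (ψ k) - q (ψ k))).2.2.2) atTop
      (𝓝 w.2.2.2) := (continuous_snd.tendsto _).comp ((continuous_snd.tendsto _).comp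
        ((continuous_snd.tendsto _).comp hwlim))
    refine tendsto_nhds_unique h4 ?_
    have h5 : (fun k => ((‖p (ψ k) - q (ψ k)‖)⁻¹ • (p (ψ k) - q (ψ k))).2.2.2) = fun _ => 0 := by
      funext k
      rw [Prod.smul_snd, Prod.smul_snd, Prod.smul_snd, hpq4, smul_zero]
    rw [h5]
    exact tendsto_const_nhds
  have hpψ := hp.comp hψt
  have hqψ := hq.comp hψt
  have L1 := strict_lim (contDiff_F1 (2 * s)) (fun k => p (ψ k)) (fun k => q (ψ k))
    (fun k => ‖p (ψ k) - q (ψ k)‖) w hpψ hqψ (fun k => hρ _) hwlim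
  have L2 := strict_lim (contDiff_F2 (2 * s)) (fun k => p (ψ k)) (fun k => q (ψ k))
    (fun k => ‖p (ψ k) - q (ψ k)‖) w hpψ hqψ (fun k => hρ _) hwlim
  have L3 := strict_lim contDiff_F3 (fun k => p (ψ k)) (fun k => q (ψ k))
    (fun k => ‖p (ψ k) - q (ψ k)‖) w hpψ hqψ (fun k => hρ _) hwlim
  have M1 : fderiv ℝ (F1 (2 * s)) ((0 : ℝ), a0, b0, T0) w = 0 := by
    refine tendsto_nhds_unique L1 ?_
    simp only [hpdef, hqdef, h1, q1, sub_zero, mul_zero]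
    exact tendsto_const_nhds
  have M2 : fderiv ℝ (F2 (2 * s)) ((0 : ℝ), a0, b0, T0) w = 0 := by
    refine tendsto_nhds_unique L2 ?_
    simp only [hpdef, hqdef, h2, q2, sub_zero, mul_zero]
    exact tendsto_const_nhds
  have M3 : 0 ≤ fderiv ℝ F3 ((0 : ℝ), a0, b0, T0) w := by
    have h4 : Tendsto (fun k => -8 * η (φ (ψ k))) atTop (𝓝 0) := by
      have := ((hη.comp hφt).comp hψt).const_mul (-8)
      simpa using this
    refine le_of_tendsto_of_tendsto' h4 L3 (fun k => ?_)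
    have h5 : F3 (q (ψ k)) = 0 := q3 _
    rw [h5, sub_zero, inv_mul_eq_div, le_div_iff₀ (hρ _)]
    have h6 := h3 (φ (ψ k))
    have h7 := hρge (ψ k)
    have h8 := hpos (φ (ψ k))
    have h9 : F3 (p (ψ k)) = F3 (η (φ (ψ k)), α (φ (ψ k)), β (φ (ψ k)), Θ (φ (ψ k))) := rfl
    rw [h9]
    nlinarith
  obtain ⟨e, a, b, c⟩ := w
  simp only at hw1 hw4
  subst hw4
  rw [fderiv_F1, sa, sb, ca, cb] at M1
  rw [fderiv_F2, sa, sb, ca, cb] at M2
  rw [fderiv_F3, sa, sb, ca, cb] at M3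
  have x1 : Real.cos (T0 - 8 * a0) = Real.cos T0 * (-79 / 81) + Real.sin T0 * (-8 * r / 81) := by
    rw [Real.cos_sub, c8a, s8a]
  have x2 : Real.sin (T0 - 8 * a0) = Real.sin T0 * (-79 / 81) - Real.cos T0 * (-8 * r / 81) := by
    rw [Real.sin_sub, c8a, s8a]
  have x3 : Real.cos (T0 + 8 * b0) = Real.cos T0 * (-79 / 81) - Real.sin T0 * (-8 * r / 81) := by
    rw [Real.cos_add, c8b, s8b]
  have x4 : Real.sin (T0 + 8 * b0) = Real.sin T0 * (-79 / 81) + Real.cos T0 * (-8 * r / 81) := by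
    rw [Real.sin_add, c8b, s8b]
  rw [x1, x2, x3, x4] at M1 M2 M3
  obtain ⟨hae, hbe⟩ := ab_val e s r (Real.cos T0) (Real.sin T0) a b hs hr M1 M2
  rw [T3_val e s r (Real.cos T0) (Real.sin T0) a b hr (by
    have := Real.sin_sq_add_cos_sq T0; linarith) hae hbe] at M3
  have he : e = 0 := by
    by_contra hne
    have : 0 < e := lt_of_le_of_ne hw1 (Ne.symm hne)
    have : 0 < e * s := mul_pos this hs
    nlinarith
  subst he
  rw [zero_mul, zero_div] at hae hbe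
  subst hae hbe
  simp at hwn

theorem per_F1 (ε η α β Θ : ℝ) (i j l : ℤ) :
    F1 ε (η, α - i * (2 * π), β - j * (2 * π), Θ - l * (2 * π)) = F1 ε (η, α, β, Θ) := by
  have h1 : (Θ - l * (2 * π)) - 8 * (α - i * (2 * π)) = (Θ - 8 * α) + ((8 * i - l : ℤ) : ℝ) * (2 * π) := by
    push_cast; ring
  have h2 : (Θ - l * (2 * π)) + 8 * (β - j * (2 * π)) = (Θ + 8 * β) + ((-8 * j - l : ℤ) : ℝ) * (2 * π) := by
    push_cast; ring
  simp only [F1]
  rw [h1, h2]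
  simp only [Real.cos_add_int_mul_two_pi, Real.sin_add_int_mul_two_pi,
    Real.cos_sub_int_mul_two_pi, Real.sin_sub_int_mul_two_pi]

theorem per_F2 (ε η α β Θ : ℝ) (i j l : ℤ) :
    F2 ε (η, α - i * (2 * π), β - j * (2 * π), Θ - l * (2 * π)) = F2 ε (η, α, β, Θ) := by
  have h1 : (Θ - l * (2 * π)) - 8 * (α - i * (2 * π)) = (Θ - 8 * α) + ((8 * i - l : ℤ) : ℝ) * (2 * π) := by
    push_cast; ring
  have h2 : (Θ - l * (2 * π)) + 8 * (β - j * (2 * π)) = (Θ + 8 * β) + ((-8 * j - l : ℤ) : ℝ) * (2 * π) := by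
    push_cast; ring
  simp only [F2]
  rw [h1, h2]
  simp only [Real.cos_add_int_mul_two_pi, Real.sin_add_int_mul_two_pi,
    Real.cos_sub_int_mul_two_pi, Real.sin_sub_int_mul_two_pi]

theorem per_F3 (η α β Θ : ℝ) (i j l : ℤ) :
    F3 (η, α - i * (2 * π), β - j * (2 * π), Θ - l * (2 * π)) = F3 (η, α, β, Θ) := by
  have h1 : (Θ - l * (2 * π)) - 8 * (α - i * (2 * π)) = (Θ - 8 * α) + ((8 * i - l : ℤ) : ℝ) * (2 * π) := by
    push_cast; ring
  have h2 : (Θ - l * (2 * π)) + 8 * (β - j * (2 * π)) = (Θ + 8 * β) + ((-8 * j - l : ℤ) : ℝ) * (2 * π) := by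
    push_cast; ring
  simp only [F3]
  rw [h1, h2]
  simp only [Real.cos_add_int_mul_two_pi, Real.sin_add_int_mul_two_pi,
    Real.cos_sub_int_mul_two_pi, Real.sin_sub_int_mul_two_pi]

theorem exists_shift (x : ℝ) : ∃ i : ℤ, x - i * (2 * π) ∈ Set.Icc 0 (2 * π) := by
  refine ⟨⌊x / (2 * π)⌋, ?_, ?_⟩
  · have h1 := Int.floor_le (x / (2 * π))
    have h2 : (0:ℝ) < 2 * π := by positivity
    rw [le_div_iff₀ h2] at h1
    linarith
  · have h1 := (Int.lt_floor_add_one (x / (2 * π))).le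
    have h2 : (0:ℝ) < 2 * π := by positivity
    rw [div_le_iff₀ h2] at h1
    linarith

/-- The analytic core. -/
theorem key (s : ℝ) (hs : 0 < s) (hs2 : s ^ 2 = 1 / 6) :
    ∃ η : ℝ, 0 < η ∧ η ≤ 1 / 1000 ∧ ∀ α β Θ : ℝ, F1 (2 * s) (η, α, β, Θ) = 0 →
      F2 (2 * s) (η, α, β, Θ) = 0 → F3 (η, α, β, Θ) < -8 * η ^ 2 := by
  by_contra hcon
  push Not at hcon
  have h0 : ∀ k : ℕ, (0:ℝ) < 1 / ((k:ℝ) + 1000) := fun k => by positivity
  have h1 : ∀ k : ℕ, 1 / ((k:ℝ) + 1000) ≤ (1:ℝ) / 1000 := fun k => by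
    apply one_div_le_one_div_of_le (by norm_num)
    have : (0:ℝ) ≤ k := Nat.cast_nonneg k
    linarith
  have h2 : ∀ k : ℕ, ∃ α β Θ : ℝ, (α ∈ Set.Icc 0 (2 * π) ∧ β ∈ Set.Icc 0 (2 * π) ∧
      Θ ∈ Set.Icc 0 (2 * π)) ∧ F1 (2 * s) (1 / ((k:ℝ) + 1000), α, β, Θ) = 0 ∧
      F2 (2 * s) (1 / ((k:ℝ) + 1000), α, β, Θ) = 0 ∧
      -8 * (1 / ((k:ℝ) + 1000)) ^ 2 ≤ F3 (1 / ((k:ℝ) + 1000), α, β, Θ) := by
    intro k
    obtain ⟨α, β, Θ, g1, g2, g3⟩ := hcon _ (h0 k) (h1 k)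
    obtain ⟨i, hi⟩ := exists_shift α
    obtain ⟨j, hj⟩ := exists_shift β
    obtain ⟨l, hl⟩ := exists_shift Θ
    refine ⟨_, _, _, ⟨hi, hj, hl⟩, ?_, ?_, ?_⟩
    · rw [per_F1]; exact g1
    · rw [per_F2]; exact g2
    · rw [per_F3]; exact g3
  choose α β Θ hr g1 g2 g3 using h2
  refine key_seq s hs hs2 (fun k => 1 / ((k:ℝ) + 1000)) α β Θ ?_ h0 (fun k => (hr k).1)
    (fun k => (hr k).2.1) (fun k => (hr k).2.2) g1 g2 g3
  have h3 : Tendsto (fun k : ℕ => ((k:ℝ) + 1000)) atTop atTop :=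
    tendsto_atTop_add_const_right _ _ tendsto_natCast_atTop_atTop
  refine h3.inv_tendsto_atTop.congr (fun k => ?_)
  simp

end

end Pool.Agent.R280.DN
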