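import Mathlib
import Pool.Agent.R280.DNKey

/-!
# The plane with norm `N(v) = sup_θ ⟨v, n(θ)⟩ / h(θ)`
-/

namespace Pool.Agent.R280.DN

noncomputable section

open Real Filter Topology BoundedContinuousFunction

def s0 : ℝ := Real.sqrt (1 / 6)

theorem s0_pos : 0 < s0 := Real.sqrt_pos.2 (by norm_num)

theorem s0_sq : s0 ^ 2 = 1 / 6 := Real.sq_sqrt (by norm_num)

def η0 : ℝ := Classical.choose (key s0 s0_pos s0_sq)

theorem η0_spec : 0 < η0 ∧ η0 ≤ 1 / 1000 ∧ ∀ α β Θ : ℝ, F1 (2 * s0) (η0, α, β, Θ) = 0 →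
      F2 (2 * s0) (η0, α, β, Θ) = 0 → F3 (η0, α, β, Θ) < -8 * η0 ^ 2 :=
  Classical.choose_spec (key s0 s0_pos s0_sq)

theorem η0_pos : 0 < η0 := η0_spec.1
theorem η0_le : η0 ≤ 1 / 1000 := η0_spec.2.1

/-- the support-like function `h` -/
def hf (θ : ℝ) : ℝ := hh η0 (cos (8 * θ))

/-- its derivative -/
def hd (θ : ℝ) : ℝ := η0 * dd η0 (cos (8 * θ)) (sin (8 * θ))

/-- its second derivative -/
def hdd (θ : ℝ) : ℝ := η0 * (-64 * cos (8 * θ) * (1 + 2 * η0 * gc * cos (8 * θ))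
  + 128 * η0 * gc * sin (8 * θ) ^ 2)

theorem der_c8 (θ : ℝ) : HasDerivAt (fun t => cos (8 * t)) (-8 * sin (8 * θ)) θ := by
  have h1 : HasDerivAt (fun t : ℝ => 8 * t) 8 θ := by
    simpa using (hasDerivAt_id θ).const_mul 8
  have := h1.cos
  exact this.congr_deriv (by ring)

theorem der_s8 (θ : ℝ) : HasDerivAt (fun t => sin (8 * t)) (8 * cos (8 * θ)) θ := by
  have h1 : HasDerivAt (fun t : ℝ => 8 * t) 8 θ := by
    simpa using (hasDerivAt_id θ).const_mul 8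
  have := h1.sin
  exact this.congr_deriv (by ring)

theorem hf_deriv (θ : ℝ) : HasDerivAt hf (hd θ) θ := by
  have h1 := ((der_c8 θ).const_mul η0).const_add 1
  have h2 := ((der_c8 θ).mul (der_c8 θ)).const_mul (η0 ^ 2 * gc)
  have h3 := h1.add h2
  refine (h3.congr_deriv ?_).congr_of_eventuallyEq ?_
  · unfold hd dd; ring
  · refine Filter.Eventually.of_forall (fun t => ?_)
    simp only [hf, hh, Pi.add_apply, Pi.mul_apply]
    ring

theorem hd_deriv (θ : ℝ) : HasDerivAt hd (hdd θ) θ := by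
  have h1 := (((der_c8 θ).const_mul (2 * η0 * gc)).const_add 1)
  have h2 := ((der_s8 θ).mul h1).const_mul (-8 * η0)
  refine (h2.congr_deriv ?_).congr_of_eventuallyEq ?_
  · unfold hdd; ring
  · refine Filter.Eventually.of_forall (fun t => ?_)
    simp only [hd, dd, Pi.mul_apply]
    ring

theorem sq_bd : η0 ^ 2 ≤ η0 * (1 / 1000) := by
  have := η0_le; have := η0_pos; nlinarith

theorem hf_bounds (θ : ℝ) : 1 / 2 ≤ hf θ ∧ hf θ ≤ 2 := by
  have h1 := Real.neg_one_le_cos (8 * θ)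
  have h2 := Real.cos_le_one (8 * θ)
  have h3 : cos (8 * θ) ^ 2 ≤ 1 := by nlinarith
  have h4 := η0_le
  have h5 := η0_pos
  have h6 := sq_bd
  have h7 : 0 ≤ η0 ^ 2 * cos (8 * θ) ^ 2 := by positivity
  have h8 : η0 ^ 2 * cos (8 * θ) ^ 2 ≤ η0 ^ 2 := by nlinarith [sq_nonneg η0]
  unfold hf hh gc
  constructor <;> nlinarith

theorem hf_pos (θ : ℝ) : 0 < hf θ := by have := (hf_bounds θ).1; linarith

theorem hf_hdd (θ : ℝ) : 0 < hf θ + hdd θ := by
  have h1 := Real.neg_one_le_cos (8 * θ)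
  have h2 := Real.cos_le_one (8 * θ)
  have h3 : cos (8 * θ) ^ 2 ≤ 1 := by nlinarith
  have h3' : sin (8 * θ) ^ 2 ≤ 1 := by nlinarith [Real.sin_sq_add_cos_sq (8 * θ), sq_nonneg (cos (8 * θ))]
  have h4 := η0_le
  have h5 := η0_pos
  have h6 := sq_bd
  have h7 : 0 ≤ η0 ^ 2 * cos (8 * θ) ^ 2 := by positivity
  have h8 : η0 ^ 2 * cos (8 * θ) ^ 2 ≤ η0 ^ 2 := by nlinarith [sq_nonneg η0]
  have h7' : 0 ≤ η0 ^ 2 * sin (8 * θ) ^ 2 := by positivity
  have h8' : η0 ^ 2 * sin (8 * θ) ^ 2 ≤ η0 ^ 2 := by nlinarith [sq_nonneg η0]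
  unfold hf hdd hh gc
  nlinarith

theorem per_hf (θ : ℝ) : hf (θ + π) = hf θ := by
  unfold hf
  rw [show 8 * (θ + π) = 8 * θ + ((4 : ℤ) : ℝ) * (2 * π) by push_cast; ring,
    Real.cos_add_int_mul_two_pi]

theorem per_hd (θ : ℝ) : hd (θ + π) = hd θ := by
  unfold hd
  rw [show 8 * (θ + π) = 8 * θ + ((4 : ℤ) : ℝ) * (2 * π) by push_cast; ring,
    Real.cos_add_int_mul_two_pi, Real.sin_add_int_mul_two_pi]

theorem hf_cont : Continuous hf := by
  unfold hf hh; fun_prop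

theorem hd_cont : Continuous hd := by
  unfold hd dd; fun_prop

/-! ### doubling estimates -/

theorem w_double (x : ℝ) : 1 - cos (2 * x) ≤ 4 * (1 - cos x) := by
  rw [Real.cos_two_mul]
  nlinarith [Real.neg_one_le_cos x, Real.cos_le_one x, sq_nonneg (1 - cos x)]

theorem s_double (x : ℝ) : |sin (2 * x) - 2 * sin x| ≤ 2 * (1 - cos x) := by
  rw [Real.sin_two_mul, show 2 * sin x * cos x - 2 * sin x = -(2 * sin x * (1 - cos x)) by ring,
    abs_neg, abs_mul, abs_of_nonneg (by linarith [Real.cos_le_one x] : (0:ℝ) ≤ 1 - cos x), abs_mul,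
    abs_two]
  have := Real.abs_sin_le_one x
  nlinarith [Real.cos_le_one x]

theorem est (t : ℝ) : |cos (8 * t) - cos t| ≤ 64 * (1 - cos t) ∧
    |cos (16 * t) - cos t| ≤ 256 * (1 - cos t) ∧
    |sin (8 * t) - 8 * sin t| ≤ 56 * (1 - cos t) ∧
    |sin (16 * t) - 16 * sin t| ≤ 240 * (1 - cos t) := by
  have a1 := w_double t
  have a2 := w_double (2 * t)
  have a3 := w_double (4 * t)
  have a4 := w_double (8 * t)
  have b1 := s_double t
  have b2 := s_double (2 * t)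
  have b3 := s_double (4 * t)
  have b4 := s_double (8 * t)
  rw [show 2 * (2 * t) = 4 * t by ring] at a2 b2
  rw [show 2 * (4 * t) = 8 * t by ring] at a3 b3
  rw [show 2 * (8 * t) = 16 * t by ring] at a4 b4
  have c0 := Real.cos_le_one t
  have c3 := Real.cos_le_one (8 * t)
  have c4 := Real.cos_le_one (16 * t)
  rw [abs_le] at b1 b2 b3 b4
  refine ⟨?_, ?_, ?_, ?_⟩ <;> rw [abs_le] <;> constructor <;> linarith

theorem main_ineq (θ t : ℝ) : hf θ * cos t + hd θ * sin t ≤ hf (θ + t) := by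
  obtain ⟨e1, e2, e3, e4⟩ := est t
  have h4 := η0_le
  have h5 := η0_pos
  have h6 := sq_bd
  have w0 : 0 ≤ 1 - cos t := by linarith [Real.cos_le_one t]
  have p8 : |cos (8 * θ) * (cos (8 * t) - cos t) - sin (8 * θ) * (sin (8 * t) - 8 * sin t)|
      ≤ 120 * (1 - cos t) := by
    refine (abs_sub _ _).trans ?_
    rw [abs_mul, abs_mul]
    have := mul_le_mul (Real.abs_cos_le_one (8 * θ)) e1 (abs_nonneg _) zero_le_one
    have := mul_le_mul (Real.abs_sin_le_one (8 * θ)) e3 (abs_nonneg _) zero_le_one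
    linarith
  have p16 : |cos (16 * θ) * (cos (16 * t) - cos t) - sin (16 * θ) * (sin (16 * t) - 16 * sin t)|
      ≤ 496 * (1 - cos t) := by
    refine (abs_sub _ _).trans ?_
    rw [abs_mul, abs_mul]
    have := mul_le_mul (Real.abs_cos_le_one (16 * θ)) e2 (abs_nonneg _) zero_le_one
    have := mul_le_mul (Real.abs_sin_le_one (16 * θ)) e4 (abs_nonneg _) zero_le_one
    linarith
  have key2 : hf (θ + t) - (hf θ * cos t + hd θ * sin t) =
      (1 + η0 ^ 2 * gc / 2) * (1 - cos t)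
      + η0 * (cos (8 * θ) * (cos (8 * t) - cos t) - sin (8 * θ) * (sin (8 * t) - 8 * sin t))
      + η0 ^ 2 * gc / 2 * (cos (16 * θ) * (cos (16 * t) - cos t)
        - sin (16 * θ) * (sin (16 * t) - 16 * sin t)) := by
    have k1 : cos (16 * θ) = 2 * cos (8 * θ) ^ 2 - 1 := by
      rw [show 16 * θ = 2 * (8 * θ) by ring, Real.cos_two_mul]
    have k2 : sin (16 * θ) = 2 * sin (8 * θ) * cos (8 * θ) := by
      rw [show 16 * θ = 2 * (8 * θ) by ring, Real.sin_two_mul]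
    have k3 : cos (16 * t) = 2 * cos (8 * t) ^ 2 - 1 := by
      rw [show 16 * t = 2 * (8 * t) by ring, Real.cos_two_mul]
    have k4 : sin (16 * t) = 2 * sin (8 * t) * cos (8 * t) := by
      rw [show 16 * t = 2 * (8 * t) by ring, Real.sin_two_mul]
    have k5 := Real.sin_sq_add_cos_sq (8 * θ)
    have k6 := Real.sin_sq_add_cos_sq (8 * t)
    unfold hf hd hh dd
    rw [show 8 * (θ + t) = 8 * θ + 8 * t by ring, Real.cos_add, k1, k2, k3, k4]
    have k7 : sin (8 * θ) ^ 2 = 1 - cos (8 * θ) ^ 2 := by linarith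
    have k8 : sin (8 * t) ^ 2 = 1 - cos (8 * t) ^ 2 := by linarith
    linear_combination (η0 ^ 2 * gc * sin (8 * t) ^ 2) * k7
      + (η0 ^ 2 * gc * (1 - cos (8 * θ) ^ 2)) * k8
  have q8 := (abs_le.1 p8).1
  have q16 := abs_le.1 p16
  set W := 1 - cos t with hW
  set P := cos (8 * θ) * (cos (8 * t) - cos t) - sin (8 * θ) * (sin (8 * t) - 8 * sin t)
  set Q := cos (16 * θ) * (cos (16 * t) - cos t) - sin (16 * θ) * (sin (16 * t) - 16 * sin t)
  have r1 : η0 * P ≥ -(120 * η0 * W) := by nlinarith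
  have r2 : η0 ^ 2 * Q ≤ 496 * η0 ^ 2 * W := by nlinarith [sq_nonneg η0, q16.2]
  have r3 : 120 * η0 * W ≤ (12 / 100) * W := by nlinarith
  have r4 : η0 ^ 2 * W ≤ (1 / 1000000) * W := by
    have : η0 ^ 2 ≤ 1 / 1000000 := by nlinarith
    exact mul_le_mul_of_nonneg_right this w0
  unfold gc at key2
  nlinarith

/-! ### the space -/

def fn (v : ℝ × ℝ) (θ : ℝ) : ℝ := (v.1 * cos θ + v.2 * sin θ) / hf θ

theorem fn_cont (v : ℝ × ℝ) : Continuous (fn v) := by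
  unfold fn
  exact Continuous.div (by fun_prop) hf_cont (fun θ => (hf_pos θ).ne')

theorem fn_bound (v : ℝ × ℝ) (θ : ℝ) : ‖fn v θ‖ ≤ 2 * (|v.1| + |v.2|) := by
  unfold fn
  rw [Real.norm_eq_abs, abs_div, abs_of_pos (hf_pos θ), div_le_iff₀ (hf_pos θ)]
  have h1 : |v.1 * cos θ + v.2 * sin θ| ≤ |v.1| + |v.2| := by
    refine (abs_add_le _ _).trans ?_
    rw [abs_mul, abs_mul]
    have := mul_le_mul_of_nonneg_left (Real.abs_cos_le_one θ) (abs_nonneg v.1)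
    have := mul_le_mul_of_nonneg_left (Real.abs_sin_le_one θ) (abs_nonneg v.2)
    linarith
  have h2 := (hf_bounds θ).1
  have h3 : 0 ≤ |v.1| + |v.2| := by positivity
  nlinarith

def L : (ℝ × ℝ) →ₗ[ℝ] (ℝ →ᵇ ℝ) where
  toFun v := BoundedContinuousFunction.ofNormedAddCommGroup (fn v) (fn_cont v) _ (fn_bound v)
  map_add' v w := by
    ext θ
    change fn (v + w) θ = fn v θ + fn w θ
    unfold fn
    simp only [Prod.fst_add, Prod.snd_add]
    ring
  map_smul' c v := by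
    ext θ
    change fn (c • v) θ = c * fn v θ
    unfold fn
    simp only [Prod.smul_fst, Prod.smul_snd, smul_eq_mul]
    ring

theorem L_apply (v : ℝ × ℝ) (θ : ℝ) : L v θ = fn v θ := rfl

theorem L_inj : Function.Injective L := by
  rw [injective_iff_map_eq_zero]
  intro v hv
  have h1 : fn v 0 = 0 := by rw [← L_apply, hv]; rfl
  have h2 : fn v (π / 2) = 0 := by rw [← L_apply, hv]; rfl
  unfold fn at h1 h2
  rw [div_eq_zero_iff] at h1 h2
  have h3 := h1.resolve_right (hf_pos _).ne'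
  have h4 := h2.resolve_right (hf_pos _).ne'
  simp at h3 h4
  exact Prod.ext h3 h4

/-- The two-dimensional space. -/
def X : Type := (LinearMap.range L : Submodule ℝ (ℝ →ᵇ ℝ))

instance : NormedAddCommGroup X :=
  inferInstanceAs (NormedAddCommGroup (LinearMap.range L : Submodule ℝ (ℝ →ᵇ ℝ)))

instance : NormedSpace ℝ X :=
  inferInstanceAs (NormedSpace ℝ (LinearMap.range L : Submodule ℝ (ℝ →ᵇ ℝ)))

def mk : (ℝ × ℝ) ≃ₗ[ℝ] X := LinearEquiv.ofInjective L L_inj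

theorem norm_mk (v : ℝ × ℝ) : ‖mk v‖ = ‖L v‖ := rfl

instance : FiniteDimensional ℝ X := mk.finiteDimensional

theorem finrank_X : Module.finrank ℝ X = 2 := by
  rw [← mk.finrank_eq]
  simp

theorem N1 (v : ℝ × ℝ) (θ : ℝ) : v.1 * cos θ + v.2 * sin θ ≤ ‖mk v‖ * hf θ := by
  have h1 := (L v).norm_coe_le_norm θ
  rw [L_apply, Real.norm_eq_abs] at h1
  have h2 := (le_abs_self _).trans h1
  unfold fn at h2
  rw [div_le_iff₀ (hf_pos θ)] at h2
  exact h2

theorem N2 (v : ℝ × ℝ) (C : ℝ) (hC : 0 ≤ C) (h : ∀ θ, v.1 * cos θ + v.2 * sin θ ≤ C * hf θ) :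
    ‖mk v‖ ≤ C := by
  rw [norm_mk, BoundedContinuousFunction.norm_le hC]
  intro θ
  rw [L_apply, Real.norm_eq_abs, abs_le]
  unfold fn
  rw [div_le_iff₀ (hf_pos θ), le_div_iff₀ (hf_pos θ)]
  refine ⟨?_, h θ⟩
  have h1 := h (θ + π)
  rw [per_hf, Real.cos_add_pi, Real.sin_add_pi] at h1
  linarith

theorem per_fn (v : ℝ × ℝ) : Function.Periodic (fn v) (2 * π) := by
  intro θ
  unfold fn
  rw [show θ + 2 * π = (θ + π) + π by ring, per_hf, per_hf, Real.cos_add_pi, Real.sin_add_pi,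
    Real.cos_add_pi, Real.sin_add_pi]
  ring

theorem N3 (v : ℝ × ℝ) : ∃ θ, v.1 * cos θ + v.2 * sin θ = ‖mk v‖ * hf θ := by
  obtain ⟨θ, -, hθ⟩ := (isCompact_Icc (a := (0:ℝ)) (b := 2 * π)).exists_isMaxOn
    (Set.nonempty_Icc.2 (by positivity)) (fn_cont v).continuousOn
  have hmax : ∀ t, fn v t ≤ fn v θ := by
    intro t
    obtain ⟨i, hi⟩ := exists_shift t
    have h1 := (per_fn v).sub_int_mul_eq (x := t) i
    rw [← h1]
    exact hθ hi
  have hle : ∀ t, v.1 * cos t + v.2 * sin t ≤ fn v θ * hf t := by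
    intro t
    have := hmax t
    unfold fn at this ⊢
    rw [div_le_iff₀ (hf_pos t)] at this
    exact this
  have hM : 0 ≤ fn v θ := by
    have h1 := hle θ
    have h2 := hle (θ + π)
    rw [per_hf, Real.cos_add_pi, Real.sin_add_pi] at h2
    have h3 := hf_pos θ
    by_contra hneg
    push Not at hneg
    nlinarith
  refine ⟨θ, le_antisymm (N1 v θ) ?_⟩
  have h1 := N2 v _ hM hle
  have h2 := mul_le_mul_of_nonneg_right h1 (hf_pos θ).le
  refine h2.trans ?_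
  unfold fn
  rw [div_mul_cancel₀ _ (hf_pos θ).ne']

/-- the boundary point with parameter `θ` -/
def xp (θ : ℝ) : ℝ × ℝ := (hf θ * cos θ - hd θ * sin θ, hf θ * sin θ + hd θ * cos θ)

theorem norm_xp_le (θ : ℝ) : ‖mk (xp θ)‖ ≤ 1 := by
  apply N2 _ _ zero_le_one
  intro t
  have h1 := main_ineq θ (t - θ)
  rw [show θ + (t - θ) = t by ring, Real.cos_sub, Real.sin_sub] at h1
  simp only [xp]
  linarith

theorem norm_xp (θ : ℝ) : ‖mk (xp θ)‖ = 1 := by
  refine le_antisymm (norm_xp_le θ) ?_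
  have h1 := N1 (xp θ) θ
  simp only [xp] at h1
  have h2 := Real.sin_sq_add_cos_sq θ
  have h3 : hf θ = (hf θ * cos θ - hd θ * sin θ) * cos θ + (hf θ * sin θ + hd θ * cos θ) * sin θ := by
    linear_combination -(hf θ) * h2
  rw [← h3] at h1
  have h4 := hf_pos θ
  have h5 : 1 * hf θ ≤ ‖mk (hf θ * cos θ - hd θ * sin θ, hf θ * sin θ + hd θ * cos θ)‖ * hf θ := by
    rw [one_mul]; exact h1
  exact le_of_mul_le_mul_right h5 h4

theorem unit_eq {v : ℝ × ℝ} (hv : ‖mk v‖ = 1) : ∃ θ, v = xp θ := by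
  obtain ⟨θ, hθ⟩ := N3 v
  rw [hv, one_mul] at hθ
  refine ⟨θ, ?_⟩
  have hmax : IsLocalMax (fun t => v.1 * cos t + v.2 * sin t - hf t) θ := by
    refine Filter.Eventually.of_forall (fun t => ?_)
    have h1 := N1 v t
    rw [hv, one_mul] at h1
    simp only
    rw [hθ]
    linarith
  have hder : HasDerivAt (fun t => v.1 * cos t + v.2 * sin t - hf t)
      (v.1 * (-sin θ) + v.2 * cos θ - hd θ) θ :=
    (((Real.hasDerivAt_cos θ).const_mul v.1).add ((Real.hasDerivAt_sin θ).const_mul v.2)).sub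
      (hf_deriv θ)
  have h0 := hmax.hasDerivAt_eq_zero hder
  have h2 := Real.sin_sq_add_cos_sq θ
  unfold xp
  apply Prod.ext
  · simp only
    linear_combination (-(v.1)) * h2 + cos θ * hθ - sin θ * h0
  · simp only
    linear_combination (-(v.2)) * h2 + sin θ * hθ + cos θ * h0

theorem functional_eq (p : X →L[ℝ] ℝ) (hp : ‖p‖ = 1) (θ : ℝ) (h1 : p (mk (xp θ)) = 1)
    (v : ℝ × ℝ) : p (mk v) = (v.1 * cos θ + v.2 * sin θ) / hf θ := by
  have hlin : ∀ v : ℝ × ℝ, p (mk v) = v.1 * p (mk (1, 0)) + v.2 * p (mk (0, 1)) := by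
    intro v
    have : v = v.1 • ((1:ℝ), (0:ℝ)) + v.2 • ((0:ℝ), (1:ℝ)) := by
      ext <;> simp
    conv_lhs => rw [this]
    rw [map_add mk, map_smul mk, map_smul mk, map_add p, map_smul p, map_smul p, smul_eq_mul,
      smul_eq_mul]
  set P := p (mk (1, 0))
  set Q := p (mk (0, 1))
  have hψ : ∀ t, (hf t * cos t - hd t * sin t) * P + (hf t * sin t + hd t * cos t) * Q ≤ 1 := by
    intro t
    have h2 := hlin (xp t)
    have h3 := p.le_opNorm (mk (xp t))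
    rw [hp, norm_xp, one_mul, Real.norm_eq_abs] at h3
    have h4 := (le_abs_self _).trans h3
    rw [h2] at h4
    exact h4
  rw [hlin (xp θ)] at h1
  simp only [xp] at h1
  have hmax : IsLocalMax (fun t => (hf t * cos t - hd t * sin t) * P +
      (hf t * sin t + hd t * cos t) * Q) θ := by
    refine Filter.Eventually.of_forall (fun t => ?_)
    simp only
    rw [h1]
    exact hψ t
  have hder : HasDerivAt (fun t => (hf t * cos t - hd t * sin t) * P +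
      (hf t * sin t + hd t * cos t) * Q) ((hf θ + hdd θ) * (-sin θ * P + cos θ * Q)) θ := by
    have k1 := ((hf_deriv θ).mul (Real.hasDerivAt_cos θ)).sub
      ((hd_deriv θ).mul (Real.hasDerivAt_sin θ))
    have k2 := ((hf_deriv θ).mul (Real.hasDerivAt_sin θ)).add
      ((hd_deriv θ).mul (Real.hasDerivAt_cos θ))
    refine ((k1.mul_const P).add (k2.mul_const Q)).congr_deriv ?_
    ring
  have h0 := hmax.hasDerivAt_eq_zero hder
  have h3 := (mul_eq_zero.1 h0).resolve_left (hf_hdd θ).ne'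
  have h4 : hf θ * (cos θ * P + sin θ * Q) = 1 := by
    linear_combination h1 - hd θ * h3
  have h5 := Real.sin_sq_add_cos_sq θ
  rw [hlin v, eq_div_iff (hf_pos θ).ne']
  linear_combination (v.1 * cos θ + v.2 * sin θ) * h4 - hf θ * (v.1 * sin θ - v.2 * cos θ) * h3
    - hf θ * (v.1 * P + v.2 * Q) * h5

/-! ### the bound -/

/-- `J₁(x)` -/
def J1 {Y : Type*} [NormedAddCommGroup Y] [NormedSpace ℝ Y] (x : Y) : Set (Y →L[ℝ] ℝ) :=
  {p | ‖p‖ = 1 ∧ p x = ‖x‖}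

/-- the set of values `⟨p₁ - p₂, x₁ - x₂⟩` -/
def pairs (Y : Type*) [NormedAddCommGroup Y] [NormedSpace ℝ Y] (ε : ℝ) : Set ℝ :=
  {r | ∃ x₁ x₂ : Y, ‖x₁‖ = 1 ∧ ‖x₂‖ = 1 ∧ ‖x₁ - x₂‖ = ε ∧
    ∃ p₁ ∈ J1 x₁, ∃ p₂ ∈ J1 x₂, r = (p₁ - p₂) (x₁ - x₂)}

theorem pairs_le (r : ℝ) (hr : r ∈ pairs X (2 * s0)) :
    r ≤ (2 * s0) ^ 2 - 2 * s0 * η0 ^ 3 := by
  obtain ⟨x₁, x₂, hx1, hx2, hx, p₁, ⟨hp1, hpx1⟩, p₂, ⟨hp2, hpx2⟩, rfl⟩ := hr
  obtain ⟨v1, rfl⟩ := mk.surjective x₁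
  obtain ⟨v2, rfl⟩ := mk.surjective x₂
  obtain ⟨θ1, rfl⟩ := unit_eq hx1
  obtain ⟨θ2, rfl⟩ := unit_eq hx2
  have hs := s0_pos
  have hε : (0:ℝ) < 2 * s0 := by positivity
  rw [hx1] at hpx1
  rw [hx2] at hpx2
  have hx3 : ‖mk ((2 * s0)⁻¹ • (xp θ1 - xp θ2))‖ = 1 := by
    rw [map_smul mk, map_sub mk, norm_smul, hx, norm_inv, Real.norm_of_nonneg hε.le,
      inv_mul_cancel₀ hε.ne']
  obtain ⟨θ3, h3⟩ := unit_eq hx3
  have h4 : xp θ1 - xp θ2 = (2 * s0) • xp θ3 := by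
    rw [← h3, smul_smul, mul_inv_cancel₀ hε.ne', one_smul]
  have h5 := congrArg Prod.fst h4
  have h6 := congrArg Prod.snd h4
  simp only [xp, Prod.fst_sub, Prod.snd_sub, Prod.smul_fst, Prod.smul_snd, smul_eq_mul] at h5 h6
  have c1 := Real.sin_sq_add_cos_sq θ1
  have c2 := Real.sin_sq_add_cos_sq θ2
  have c3 := Real.sin_sq_add_cos_sq θ3
  set α := θ3 + π / 2 - θ1 with hα
  set β := θ2 - θ3 - π / 2 with hβ
  have sα : Real.sin α = cos θ3 * cos θ1 + sin θ3 * sin θ1 := by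
    rw [hα, show θ3 + π / 2 - θ1 = (θ3 - θ1) + π / 2 by ring, Real.sin_add_pi_div_two, Real.cos_sub]
  have cα : Real.cos α = cos θ3 * sin θ1 - sin θ3 * cos θ1 := by
    rw [hα, show θ3 + π / 2 - θ1 = (θ3 - θ1) + π / 2 by ring, Real.cos_add_pi_div_two, Real.sin_sub]
    ring
  have sβ : Real.sin β = - (cos θ2 * cos θ3 + sin θ2 * sin θ3) := by
    rw [hβ, Real.sin_sub_pi_div_two, Real.cos_sub]
  have cβ : Real.cos β = sin θ2 * cos θ3 - cos θ2 * sin θ3 := by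
    rw [hβ, Real.cos_sub_pi_div_two, Real.sin_sub]
  have k1 : 8 * θ1 = (8 * θ3 - 8 * α) + ((2:ℤ):ℝ) * (2 * π) := by
    rw [hα]; push_cast; ring
  have k2 : 8 * θ2 = (8 * θ3 + 8 * β) + ((2:ℤ):ℝ) * (2 * π) := by
    rw [hβ]; push_cast; ring
  have u1 : Real.cos (8 * θ1) = Real.cos (8 * θ3 - 8 * α) := by
    rw [k1, Real.cos_add_int_mul_two_pi]
  have v1 : Real.sin (8 * θ1) = Real.sin (8 * θ3 - 8 * α) := by
    rw [k1, Real.sin_add_int_mul_two_pi]
  have u2 : Real.cos (8 * θ2) = Real.cos (8 * θ3 + 8 * β) := by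
    rw [k2, Real.cos_add_int_mul_two_pi]
  have v2 : Real.sin (8 * θ2) = Real.sin (8 * θ3 + 8 * β) := by
    rw [k2, Real.sin_add_int_mul_two_pi]
  -- the three function values
  have g1 : F1 (2 * s0) (η0, α, β, 8 * θ3) = hf θ1 * sin α - hd θ1 * cos α + hf θ2 * sin β
      + hd θ2 * cos β - 2 * s0 * hf θ3 := by
    simp only [F1, hf, hd, u1, v1, u2, v2]
  have g2 : F2 (2 * s0) (η0, α, β, 8 * θ3) = hf θ1 * cos α + hd θ1 * sin α - hf θ2 * cos β
      + hd θ2 * sin β - 2 * s0 * hd θ3 := by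
    simp only [F2, hf, hd, u1, v1, u2, v2]
  have g3 : η0 * F3 (η0, α, β, 8 * θ3) = sin α * hf θ2 * (hf θ3 ^ 2 - hf θ1 ^ 2)
      + sin β * hf θ1 * (hf θ3 ^ 2 - hf θ2 ^ 2)
      + cos α * hf θ2 * (hf θ3 * hd θ3 + hf θ1 * hd θ1)
      - cos β * hf θ1 * (hf θ3 * hd θ3 + hf θ2 * hd θ2) := by
    have e1 : η0 * ee η0 (cos (8 * θ1)) = hf θ1 - 1 := by unfold ee hf hh; ring
    have e2 : η0 * ee η0 (cos (8 * θ2)) = hf θ2 - 1 := by unfold ee hf hh; ring
    have e3 : η0 * ee η0 (cos (8 * θ3)) = hf θ3 - 1 := by unfold ee hf hh; ring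
    simp only [F3, Gm, ← u1, ← v1, ← u2, ← v2]
    have f1 : hh η0 (cos (8 * θ1)) = hf θ1 := rfl
    have f2 : hh η0 (cos (8 * θ2)) = hf θ2 := rfl
    have f3 : hh η0 (cos (8 * θ3)) = hf θ3 := rfl
    have d1 : η0 * dd η0 (cos (8 * θ1)) (sin (8 * θ1)) = hd θ1 := rfl
    have d2 : η0 * dd η0 (cos (8 * θ2)) (sin (8 * θ2)) = hd θ2 := rfl
    have d3 : η0 * dd η0 (cos (8 * θ3)) (sin (8 * θ3)) = hd θ3 := rfl
    rw [f1, f2, f3, ← d1, ← d2, ← d3]
    linear_combination (sin α * hf θ2 * (hf θ3 + hf θ1)) * (e3 - e1)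
      + (sin β * hf θ1 * (hf θ3 + hf θ2)) * (e3 - e2)
  have z1 : F1 (2 * s0) (η0, α, β, 8 * θ3) = 0 := by
    rw [g1, sα, cα, sβ, cβ]
    linear_combination (cos θ3) * h5 + (sin θ3) * h6 + (2 * s0 * hf θ3) * c3
  have z2 : F2 (2 * s0) (η0, α, β, 8 * θ3) = 0 := by
    rw [g2, sα, cα, sβ, cβ]
    linear_combination (-sin θ3) * h5 + (cos θ3) * h6 + (2 * s0 * hd θ3) * c3
  have z3 := η0_spec.2.2 α β (8 * θ3) z1 z2
  rw [g1] at z1
  -- evaluate
  have hval : (p₁ - p₂) (mk (xp θ1) - mk (xp θ2)) = 2 * s0 *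
      ((hf θ3 * sin α + hd θ3 * cos α) / hf θ1 + (hf θ3 * sin β - hd θ3 * cos β) / hf θ2) := by
    rw [← map_sub mk, h4, map_smul mk, map_smul, smul_eq_mul]
    congr 1
    change p₁ (mk (xp θ3)) - p₂ (mk (xp θ3)) = _
    rw [functional_eq p₁ hp1 θ1 hpx1, functional_eq p₂ hp2 θ2 hpx2, sα, cα, sβ, cβ]
    simp only [xp]
    ring
  rw [hval]
  set G := (hf θ3 * sin α + hd θ3 * cos α) / hf θ1 + (hf θ3 * sin β - hd θ3 * cos β) / hf θ2
    with hG
  have b1 := hf_pos θ1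
  have b2 := hf_pos θ2
  have b3 := hf_pos θ3
  have hGH : (G - 2 * s0) * (hf θ1 * hf θ2 * hf θ3) = η0 * F3 (η0, α, β, 8 * θ3) := by
    have q1 : G * (hf θ1 * hf θ2) = (hf θ3 * sin α + hd θ3 * cos α) * hf θ2 +
        (hf θ3 * sin β - hd θ3 * cos β) * hf θ1 := by
      rw [hG]; field_simp
    rw [g3]
    linear_combination (hf θ3) * q1 + (hf θ1 * hf θ2) * z1
  have hη := η0_pos
  have hH : 0 < hf θ1 * hf θ2 * hf θ3 := by positivity
  have hH8 : hf θ1 * hf θ2 * hf θ3 ≤ 8 := by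
    have a1 := (hf_bounds θ1).2
    have a2 := (hf_bounds θ2).2
    have a3 := (hf_bounds θ3).2
    have a4 : hf θ1 * hf θ2 ≤ 2 * 2 := mul_le_mul a1 a2 b2.le (by norm_num)
    have a5 : hf θ1 * hf θ2 * hf θ3 ≤ (2 * 2) * 2 := mul_le_mul a4 a3 b3.le (by norm_num)
    linarith
  have h7 : (G - 2 * s0) * (hf θ1 * hf θ2 * hf θ3) ≤ (-η0 ^ 3) * (hf θ1 * hf θ2 * hf θ3) := by
    rw [hGH]
    have h8 : η0 * F3 (η0, α, β, 8 * θ3) ≤ η0 * (-8 * η0 ^ 2) :=
      mul_le_mul_of_nonneg_left z3.le hη.le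
    have h9 : η0 ^ 3 * (hf θ1 * hf θ2 * hf θ3) ≤ η0 ^ 3 * 8 :=
      mul_le_mul_of_nonneg_left hH8 (by positivity)
    have e4 : η0 * (-8 * η0 ^ 2) = -(η0 ^ 3 * 8) := by ring
    rw [e4] at h8
    rw [neg_mul]
    linarith
  have h8 := le_of_mul_le_mul_right h7 hH
  have h9 := mul_le_mul_of_nonneg_left h8 hε.le
  have e5 : 2 * s0 * (G - 2 * s0) = 2 * s0 * G - (2 * s0) ^ 2 := by ring
  have e6 : 2 * s0 * -η0 ^ 3 = -(2 * s0 * η0 ^ 3) := by ring
  rw [e5, e6] at h9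
  linarith

theorem pairs_nonempty (Y : Type*) [NormedAddCommGroup Y] [NormedSpace ℝ Y] {ε : ℝ}
    {x₁ x₂ : Y} (h1 : ‖x₁‖ = 1) (h2 : ‖x₂‖ = 1) (h : ‖x₁ - x₂‖ = ε) : (pairs Y ε).Nonempty := by
  obtain ⟨p1, hp1, hpx1⟩ := exists_dual_vector ℝ x₁ (norm_ne_zero_iff.2 (by
    intro h0; rw [h0, norm_zero] at h1; norm_num at h1))
  obtain ⟨p2, hp2, hpx2⟩ := exists_dual_vector ℝ x₂ (norm_ne_zero_iff.2 (by
    intro h0; rw [h0, norm_zero] at h2; norm_num at h2))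
  exact ⟨_, x₁, x₂, h1, h2, h, p1, ⟨hp1, by simpa using hpx1⟩, p2, ⟨hp2, by simpa using hpx2⟩, rfl⟩

theorem exists_dist {ε : ℝ} (h0 : 0 ≤ ε) (h2 : ε ≤ 2) : ∃ θ, ‖mk (xp 0) - mk (xp θ)‖ = ε := by
  have hc : Continuous (fun θ => ‖mk (xp 0) - mk (xp θ)‖) := by
    have hx : Continuous xp := by
      unfold xp
      have := hf_cont
      have := hd_cont
      fun_prop
    have hm : Continuous mk := LinearMap.continuous_of_finiteDimensional mk.toLinearMap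
    exact (continuous_const.sub (hm.comp hx)).norm
  have hπ : xp π = - xp 0 := by
    unfold xp
    have a1 : hf π = hf 0 := by have := per_hf 0; rwa [zero_add] at this
    have a2 : hd π = hd 0 := by have := per_hd 0; rwa [zero_add] at this
    ext <;> simp [a1, a2]
  have e0 : ‖mk (xp 0) - mk (xp 0)‖ = 0 := by simp
  have e1 : ‖mk (xp 0) - mk (xp π)‖ = 2 := by
    rw [hπ, map_neg mk, sub_neg_eq_add, ← two_smul ℝ, norm_smul, norm_xp]
    simp
  have := intermediate_value_Icc (a := (0:ℝ)) (b := π) Real.pi_pos.le hc.continuousOn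
  have hmem : ε ∈ Set.Icc (‖mk (xp 0) - mk (xp 0)‖) (‖mk (xp 0) - mk (xp π)‖) := by
    rw [e0, e1]; exact ⟨h0, h2⟩
  obtain ⟨θ, -, hθ⟩ := this hmem
  exact ⟨θ, hθ⟩

end

end Pool.Agent.R280.DN
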