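import Pool.Agent.R280.FreePos2

/-!
Domination of elements of the free Banach lattice on positive generators.
-/

set_option autoImplicit false
set_option linter.unusedSectionVars false

open Set Topology Filter

universe u v w

namespace Pool.Agent.R280.BLat

section lip

variable {A : Type u}

/-- lattice polynomials are Lipschitz and depend on finitely many coordinates -/
lemma gen_lipschitz {g : (A → unitInterval) → ℝ} (hg : IsGenBy (posGen A) g) :
    ∃ (K : ℝ) (S : Finset A), 0 ≤ K ∧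
      ∀ ξ ξ', |g ξ - g ξ'| ≤ K * ∑ a ∈ S, |(ξ a : ℝ) - ξ' a| := by
  classical
  have hmono : ∀ (S T : Finset A) (ξ ξ' : A → unitInterval), S ⊆ T →
      ∑ a ∈ S, |(ξ a : ℝ) - ξ' a| ≤ ∑ a ∈ T, |(ξ a : ℝ) - ξ' a| := fun S T ξ ξ' h =>
    Finset.sum_le_sum_of_subset_of_nonneg h fun _ _ _ => abs_nonneg _
  have hcomb : ∀ (K1 K2 : ℝ) (S1 S2 : Finset A) (ξ ξ' : A → unitInterval), 0 ≤ K1 → 0 ≤ K2 →
      K1 * ∑ a ∈ S1, |(ξ a : ℝ) - ξ' a| + K2 * ∑ a ∈ S2, |(ξ a : ℝ) - ξ' a| ≤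
        (K1 + K2) * ∑ a ∈ S1 ∪ S2, |(ξ a : ℝ) - ξ' a| := by
    intro K1 K2 S1 S2 ξ ξ' h1 h2
    rw [add_mul]
    exact add_le_add (mul_le_mul_of_nonneg_left (hmono _ _ _ _ Finset.subset_union_left) h1)
      (mul_le_mul_of_nonneg_left (hmono _ _ _ _ Finset.subset_union_right) h2)
  induction hg with
  | gen b => exact ⟨1, {b}, zero_le_one, fun ξ ξ' => by simp [posGen]⟩
  | zero => exact ⟨0, ∅, le_rfl, fun ξ ξ' => by simp⟩
  | add f g _ _ h1 h2 =>
    obtain ⟨K1, S1, hK1, h1⟩ := h1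
    obtain ⟨K2, S2, hK2, h2⟩ := h2
    refine ⟨K1 + K2, S1 ∪ S2, add_nonneg hK1 hK2, fun ξ ξ' => ?_⟩
    rw [Pi.add_apply, Pi.add_apply, add_sub_add_comm]
    exact (abs_add_le _ _).trans ((add_le_add (h1 ξ ξ') (h2 ξ ξ')).trans
      (hcomb _ _ _ _ _ _ hK1 hK2))
  | smul c f _ h1 =>
    obtain ⟨K1, S1, hK1, h1⟩ := h1
    refine ⟨|c| * K1, S1, mul_nonneg (abs_nonneg _) hK1, fun ξ ξ' => ?_⟩
    rw [Pi.smul_apply, Pi.smul_apply, ← smul_sub, smul_eq_mul, abs_mul, mul_assoc]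
    exact mul_le_mul_of_nonneg_left (h1 ξ ξ') (abs_nonneg c)
  | sup f g _ _ h1 h2 =>
    obtain ⟨K1, S1, hK1, h1⟩ := h1
    obtain ⟨K2, S2, hK2, h2⟩ := h2
    refine ⟨K1 + K2, S1 ∪ S2, add_nonneg hK1 hK2, fun ξ ξ' => ?_⟩
    rw [Pi.sup_apply, Pi.sup_apply]
    refine (abs_max_sub_max_le_max _ _ _ _).trans (le_trans ?_ (hcomb _ _ _ _ _ _ hK1 hK2))
    refine (max_le_add_of_nonneg (abs_nonneg _) (abs_nonneg _)).trans (add_le_add (h1 ξ ξ') (h2 ξ ξ'))

lemma gen_continuous {g : (A → unitInterval) → ℝ} (hg : IsGenBy (posGen A) g) : Continuous g := by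
  induction hg with
  | gen b =>
    show Continuous fun ξ : A → unitInterval => (ξ b : ℝ)
    fun_prop
  | zero => exact continuous_const
  | add f g _ _ h1 h2 => exact h1.add h2
  | smul c f _ h1 => exact h1.const_smul c
  | sup f g _ _ h1 h2 => exact h1.sup h2

lemma single_mem_W (ξ : A → unitInterval) : Finsupp.single ξ 1 ∈ (FBLpos A).W := by
  classical
  refine ⟨fun φ => ?_, fun b => ?_⟩
  · rw [Finsupp.single_apply]
    split_ifs <;> norm_num
  · rw [pr_single, one_mul]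
    show |(ξ b : ℝ)| ≤ 1
    rw [abs_of_nonneg (ξ b).2.1]
    exact (ξ b).2.2

lemma fn_le_norm (F : (FBLpos A).Space) (ξ : A → unitInterval) : |F.fn ξ| ≤ ‖F‖ := by
  have h := FLat.pr_le F (single_mem_W ξ)
  rwa [pr_single, one_mul] at h

lemma fn_continuous (F : (FBLpos A).Space) : Continuous F.fn := by
  refine continuous_of_uniform_approx_of_continuous fun U hU => ?_
  obtain ⟨ε, hε, hεU⟩ := Metric.mem_uniformity_dist.1 hU
  obtain ⟨g, hg, hg', hlt⟩ := pos_approx F hε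
  refine ⟨g, gen_continuous hg, fun ξ => hεU ?_⟩
  rw [Real.dist_eq]
  exact lt_of_le_of_lt (fn_le_norm (F - FLat.of g hg') ξ) hlt

/-- evaluation at a point -/
noncomputable def ptEv (ξ : A → unitInterval) : (FBLpos A).Space →L[ℝ] ℝ :=
  LinearMap.mkContinuous
    { toFun := fun F => F.fn ξ
      map_add' := fun _ _ => rfl
      map_smul' := fun _ _ => rfl } 1 (fun F => by
      rw [one_mul]
      exact fn_le_norm F ξ)

lemma ptEv_apply (ξ : A → unitInterval) (F : (FBLpos A).Space) : ptEv ξ F = F.fn ξ := rfl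

lemma ptEv_latHom (ξ : A → unitInterval) : IsLatHom (ptEv ξ) := fun _ _ => ⟨rfl, rfl⟩

end lip

section dom

variable {A : Type u}

open Classical in
/-- put the coordinates outside `S` equal to zero -/
noncomputable def cutS (S : Finset A) (ξ : A → unitInterval) : A → unitInterval :=
  fun a => if a ∈ S then ξ a else 0

lemma pr_mapDomain {I J : Type u} (r : I → J) (w : I →₀ ℝ) (f : J → ℝ) :
    pr (Finsupp.mapDomain r w) f = pr w (fun i => f (r i)) := by
  rw [pr, pr, Finsupp.sum_mapDomain_index (fun _ => by simp) (fun _ _ _ => by ring)]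

lemma mapDomain_nonneg {I J : Type u} (r : I → J) {w : I →₀ ℝ} (hw : ∀ i, 0 ≤ w i) (j : J) :
    0 ≤ Finsupp.mapDomain r w j := by
  classical
  rw [Finsupp.mapDomain, Finsupp.sum_apply]
  refine Finset.sum_nonneg fun i _ => ?_
  show 0 ≤ Finsupp.single (r i) (w i) j
  rw [Finsupp.single_apply]
  split_ifs
  · exact hw i
  · exact le_rfl

/-- estimate for weights which are controlled on `S` only -/
lemma pr_le_of_dep {g : (A → unitInterval) → ℝ} {S : Finset A}
    (hdep : ∀ ξ ξ', (∀ a ∈ S, ξ a = ξ' a) → g ξ = g ξ') {M : ℝ} (hM : 0 ≤ M)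
    (hgM : ∀ w ∈ posW A, pr w g ≤ M) {w : (A → unitInterval) →₀ ℝ} (hw : ∀ φ, 0 ≤ w φ) {σ : ℝ}
    (hσ : 0 ≤ σ) (h : ∀ a ∈ S, pr w (posGen A a) ≤ σ) : pr w g ≤ M * σ := by
  have key : ∀ τ : ℝ, 0 < τ → σ ≤ τ → pr w g ≤ M * τ := by
    intro τ hτ hστ
    have h1 : τ⁻¹ • Finsupp.mapDomain (cutS S) w ∈ posW A := by
      refine ⟨fun φ => mul_nonneg (inv_nonneg.2 hτ.le) (mapDomain_nonneg _ hw φ), fun a => ?_⟩
      rw [pr_smul_weight, pr_mapDomain, inv_mul_le_iff₀ hτ, mul_one]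
      by_cases ha : a ∈ S
      · refine le_trans (le_of_eq ?_) ((h a ha).trans hστ)
        congr 1
        funext φ
        show ((cutS S φ a : unitInterval) : ℝ) = φ a
        simp [cutS, ha]
      · have h2 : (fun φ : A → unitInterval => posGen A a (cutS S φ)) = 0 := by
          funext φ
          show ((cutS S φ a : unitInterval) : ℝ) = 0
          simp [cutS, ha]
        rw [h2, pr_eq]
        simp [hτ.le]
    have h3 := hgM _ h1
    rw [pr_smul_weight, pr_mapDomain, inv_mul_le_iff₀ hτ] at h3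
    have h4 : (fun φ : A → unitInterval => g (cutS S φ)) = g := by
      funext φ
      exact hdep _ _ fun a ha => by simp [cutS, ha]
    rw [h4] at h3
    linarith
  refine le_of_forall_pos_le_add fun ε hε => ?_
  have h1 := key (σ + ε / (M + 1)) (by positivity) (by
    have : 0 ≤ ε / (M + 1) := by positivity
    linarith)
  have h2 : M * (ε / (M + 1)) ≤ (M + 1) * (ε / (M + 1)) :=
    mul_le_mul_of_nonneg_right (by linarith) (by positivity)
  have h3 : (M + 1) * (ε / (M + 1)) = ε := by field_simp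
  rw [mul_add] at h1
  linarith

/-- Domination: a lattice polynomial of norm at most `M` is dominated by a positive combination of
the generators with sum of coefficients at most `M`. -/
theorem exists_dominate {g : (A → unitInterval) → ℝ} (hg : IsGenBy (posGen A) g) {M : ℝ}
    (hM : 0 ≤ M) (hgM : ∀ w ∈ posW A, pr w g ≤ M) :
    ∃ (S : Finset A) (c : A → ℝ), (∀ a, 0 ≤ c a) ∧ ∑ a ∈ S, c a ≤ M ∧
      ∀ ξ : A → unitInterval, |g ξ| ≤ ∑ a ∈ S, c a * ξ a := by
  classical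
  obtain ⟨K, S, hK, hlip⟩ := gen_lipschitz hg
  have hdep : ∀ ξ ξ', (∀ a ∈ S, ξ a = ξ' a) → g ξ = g ξ' := by
    intro ξ ξ' h
    have h1 := hlip ξ ξ'
    have h2 : ∑ a ∈ S, |(ξ a : ℝ) - ξ' a| = 0 :=
      Finset.sum_eq_zero fun a ha => by rw [h a ha, sub_self, abs_zero]
    rw [h2, mul_zero] at h1
    exact sub_eq_zero.1 (abs_eq_zero.1 (le_antisymm h1 (abs_nonneg _)))
  let P : (S → ℝ) → ℝ → Prop := fun ψ r => ∃ (w : (A → unitInterval) →₀ ℝ) (s : ℝ),
    (∀ φ, 0 ≤ w φ) ∧ 0 ≤ s ∧ (∀ a : S, ψ a + pr w (posGen A a) ≤ s) ∧ r = M * s - pr w g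
  let p : (S → ℝ) → ℝ := fun ψ => sInf {r | P ψ r}
  have hlow : ∀ ψ r, P ψ r → -(M * ‖ψ‖) ≤ r := by
    rintro ψ r ⟨w, s, hw, hs, hle, rfl⟩
    have h1 := pr_le_of_dep hdep hM hgM hw (σ := s + ‖ψ‖) (by positivity) (fun a ha => by
      have h2 := hle ⟨a, ha⟩
      have h3 := norm_le_pi_norm ψ ⟨a, ha⟩
      have h4 := neg_abs_le (ψ ⟨a, ha⟩)
      rw [Real.norm_eq_abs] at h3
      simp only at h2
      linarith)
    rw [mul_add] at h1
    linarith
  have hne : ∀ ψ, ∃ r, P ψ r := by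
    intro ψ
    refine ⟨_, 0, ‖ψ‖, fun _ => le_rfl, norm_nonneg _, fun a => ?_, rfl⟩
    rw [pr_zero_weight, add_zero]
    exact (le_abs_self _).trans (norm_le_pi_norm ψ a)
  have hbdd : ∀ ψ, BddBelow {r | P ψ r} := fun ψ => ⟨_, fun r hr => hlow ψ r hr⟩
  have hple : ∀ ψ r, P ψ r → p ψ ≤ r := fun ψ r hr => csInf_le (hbdd ψ) hr
  have hpadd : ∀ ψ ψ', p (ψ + ψ') ≤ p ψ + p ψ' := by
    intro ψ ψ'
    refine le_of_forall_pos_le_add fun ε hε => ?_
    obtain ⟨r, ⟨w, s, hw, hs, hle, rfl⟩, hlt⟩ :=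
      exists_lt_of_csInf_lt (hne ψ) (lt_add_of_pos_right (p ψ) (half_pos hε))
    obtain ⟨r', ⟨w', s', hw', hs', hle', rfl⟩, hlt'⟩ :=
      exists_lt_of_csInf_lt (hne ψ') (lt_add_of_pos_right (p ψ') (half_pos hε))
    have h1 : P (ψ + ψ') (M * (s + s') - pr (w + w') g) :=
      ⟨w + w', s + s', fun φ => add_nonneg (hw φ) (hw' φ), add_nonneg hs hs', fun a => by
        rw [pr_add_weight, Pi.add_apply]
        have := hle a
        have := hle' a
        linarith, rfl⟩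
    have h2 := hple _ _ h1
    rw [pr_add_weight] at h2
    linarith
  have hphom1 : ∀ c : ℝ, 0 < c → ∀ ψ, p (c • ψ) ≤ c * p ψ := by
    intro c hc ψ
    refine le_of_forall_pos_le_add fun ε hε => ?_
    obtain ⟨r, ⟨w, s, hw, hs, hle, rfl⟩, hlt⟩ :=
      exists_lt_of_csInf_lt (hne ψ) (lt_add_of_pos_right (p ψ) (div_pos hε hc))
    have h1 : P (c • ψ) (M * (c * s) - pr (c • w) g) :=
      ⟨c • w, c * s, fun φ => mul_nonneg hc.le (hw φ), mul_nonneg hc.le hs, fun a => by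
        rw [pr_smul_weight, Pi.smul_apply, smul_eq_mul, ← mul_add]
        exact mul_le_mul_of_nonneg_left (hle a) hc.le, rfl⟩
    have h2 := hple _ _ h1
    rw [pr_smul_weight] at h2
    have h3 := mul_lt_mul_of_pos_left hlt hc
    have h4 : c * (p ψ + ε / c) = c * p ψ + ε := by field_simp
    have h5 : c * (M * s - pr w g) = M * (c * s) - c * pr w g := by ring
    linarith
  have hphom : ∀ c : ℝ, 0 < c → ∀ ψ, p (c • ψ) = c * p ψ := by
    intro c hc ψ
    refine le_antisymm (hphom1 c hc ψ) ?_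
    have h1 := hphom1 c⁻¹ (inv_pos.2 hc) (c • ψ)
    rw [smul_smul, inv_mul_cancel₀ hc.ne', one_smul] at h1
    have h2 := mul_le_mul_of_nonneg_left h1 hc.le
    rwa [← mul_assoc, mul_inv_cancel₀ hc.ne', one_mul] at h2
  have hp0 : 0 ≤ p 0 := by
    refine le_csInf (hne 0) fun r hr => ?_
    have := hlow 0 r hr
    rwa [norm_zero, mul_zero, neg_zero] at this
  obtain ⟨L, -, hL⟩ := exists_extension_of_le_sublinear
    (⊥ : (S → ℝ) →ₗ.[ℝ] ℝ) p hphom hpadd (by
      rintro ⟨x, hx⟩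
      have hx0 : x = 0 := (Submodule.mem_bot ℝ).1 hx
      subst hx0
      have h1 : (⊥ : (S → ℝ) →ₗ.[ℝ] ℝ) ⟨0, hx⟩ = 0 := LinearPMap.map_zero _
      rw [h1]
      exact hp0)
  let c : A → ℝ := fun a => if h : a ∈ S then L (fun j => if (⟨a, h⟩ : S) = j then 1 else 0) else 0
  have hc0 : ∀ a, 0 ≤ c a := by
    intro a
    show 0 ≤ dite _ _ _
    split_ifs with h
    · have h1 := (hL (-(fun j => if (⟨a, h⟩ : S) = j then 1 else 0))).trans
        (hple _ 0 ⟨0, 0, fun _ => le_rfl, le_rfl, fun b => by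
          rw [pr_zero_weight, add_zero]
          show -(if (⟨a, h⟩ : S) = b then (1 : ℝ) else 0) ≤ 0
          split_ifs <;> norm_num, by rw [pr_zero_weight]; ring⟩)
      rw [map_neg] at h1
      linarith
    · exact le_rfl
  have hsum : ∀ ψ : A → ℝ, L (fun a : S => ψ a) = ∑ a ∈ S, c a * ψ a := by
    intro ψ
    rw [LinearMap.pi_apply_eq_sum_univ L, ← Finset.sum_coe_sort S (fun a => c a * ψ a)]
    refine Finset.sum_congr rfl fun a _ => ?_
    have h1 : c (a : A) = L (fun j => if a = j then 1 else 0) := by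
      show dite _ _ _ = _
      rw [dif_pos a.2]
    rw [h1, smul_eq_mul, mul_comm]
  refine ⟨S, c, hc0, ?_, fun ξ => ?_⟩
  · have h1 := hsum (fun _ => 1)
    simp only [mul_one] at h1
    rw [← h1]
    refine (hL _).trans (hple _ M ⟨0, 1, fun _ => le_rfl, zero_le_one, fun b => ?_, ?_⟩)
    · rw [pr_zero_weight, add_zero]
    · rw [pr_zero_weight]; ring
  · have h1 := hsum (fun a => (ξ a : ℝ))
    rw [← h1]
    have h2 := (hL (-(fun a : S => (ξ a : ℝ)))).trans (hple _ (-|g ξ|)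
      ⟨Finsupp.single ξ 1, 0, fun φ => (single_mem_W (A := A) ξ).1 φ, le_rfl, fun b => by
        rw [pr_single, one_mul]
        show -(ξ b : ℝ) + |(ξ b : ℝ)| ≤ 0
        rw [abs_of_nonneg (ξ b).2.1]
        linarith, by rw [pr_single]; ring⟩)
    rw [map_neg] at h2
    linarith

end dom

end Pool.Agent.R280.BLat
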