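import Pool.Agent.R280.FLat

/-!
Sequence lattices of `ℓ_1` type: the space `ℓ_1`, homomorphisms given by disjoint sequences, and
projectivity of `ℓ_1` and `ℝ`.
-/

set_option autoImplicit false
set_option linter.unusedSectionVars false

open Set Topology Filter

universe u v

namespace Pool.Agent.R280.BLat

/-- The lattice of all functions with finite norm, for a given set of weights. -/
def fullLat {I : Type u} (W : Set (I →₀ ℝ)) (h0 : ∀ w ∈ W, ∀ i, 0 ≤ w i)
    (hsep : ∀ i, ∃ w ∈ W, 0 < w i) : FLat I where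
  S :=
    { carrier := {x | ∃ C : ℝ, ∀ w ∈ W, pr w x ≤ C}
      add_mem' := by
        rintro x y ⟨C, hC⟩ ⟨D, hD⟩
        exact ⟨C + D, fun w hw => (pr_add_le (h0 w hw) x y).trans (add_le_add (hC w hw) (hD w hw))⟩
      zero_mem' := by
        refine ⟨0, fun w _ => ?_⟩
        rw [pr_eq]
        refine (Finset.sum_eq_zero fun i _ => ?_).le
        rw [Pi.zero_apply, abs_zero, mul_zero]
      smul_mem' := by
        rintro c x ⟨C, hC⟩
        refine ⟨|c| * C, fun w hw => ?_⟩
        rw [pr_smul]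
        exact mul_le_mul_of_nonneg_left (hC w hw) (abs_nonneg c) }
  W := W
  abs_mem := by
    rintro x ⟨C, hC⟩
    refine ⟨C, fun w hw => ?_⟩
    refine (pr_mono (h0 w hw) fun i => ?_).trans (hC w hw)
    rw [Pi.abs_apply, abs_abs]
  W_nonneg := h0
  W_sep := hsep
  bdd := fun _ hx => hx
  closed := by
    intro x hx
    obtain ⟨y, ⟨C, hC⟩, hy⟩ := hx 1 one_pos
    refine ⟨1 + C, fun w hw => ?_⟩
    have h1 : x = (x - y) + y := by rw [sub_add_cancel]
    rw [h1]
    exact (pr_add_le (h0 w hw) _ _).trans (add_le_add (hy w hw) (hC w hw))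

/-- the weights of `ℓ_1` -/
def W1 : Set (ℕ →₀ ℝ) := {w | ∀ i, w i = 0 ∨ w i = 1}

/-- The Banach lattice `ℓ_1`, with the norm `∑ |x_n|` written as the supremum of the sums over
finite sets. -/
def ell1 : FLat ℕ := fullLat W1
  (fun w hw i => by rcases hw i with h | h <;> rw [h]; exact zero_le_one)
  (fun i => ⟨Finsupp.single i 1, fun j => by
    by_cases h : i = j
    · subst h; right; simp
    · left; rw [Finsupp.single_apply, if_neg h], by simp⟩)

/-- The conditions on a sequence lattice under which it is treated like `ℓ_1`: the unit vectors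
belong to the space and have norm at most `1`, and `∑ |x_n| ≤ C ‖x‖`. -/
structure IsL1Type (L : FLat ℕ) : Prop where
  unit_mem : ∀ n : ℕ, (Pi.single n 1 : ℕ → ℝ) ∈ L.S
  le_one : ∀ w ∈ L.W, ∀ n, w n ≤ 1
  exists_bound : ∃ C : ℝ, ∀ (x : L.Space) (F : Finset ℕ), ∑ i ∈ F, |x.fn i| ≤ C * ‖x‖

section
variable {L : FLat ℕ}

/-- unit vectors -/
def IsL1Type.e (hL : IsL1Type L) (n : ℕ) : L.Space := FLat.of (Pi.single n 1) (hL.unit_mem n)

lemma IsL1Type.e_fn (hL : IsL1Type L) (n i : ℕ) : (hL.e n).fn i = if i = n then 1 else 0 := by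
  show (Pi.single n 1 : ℕ → ℝ) i = _
  rw [Pi.single_apply]

lemma IsL1Type.e_nonneg (hL : IsL1Type L) (n : ℕ) : 0 ≤ hL.e n := by
  intro i
  rw [hL.e_fn, FLat.zero_fn]
  split_ifs <;> norm_num

lemma IsL1Type.e_disj (hL : IsL1Type L) {m n : ℕ} (h : m ≠ n) : hL.e m ⊓ hL.e n = 0 := by
  rw [FLat.inf_eq_zero_iff]
  intro i
  rw [hL.e_fn, hL.e_fn]
  by_cases h1 : i = m
  · have h2 : ¬ i = n := fun h3 => h (h1 ▸ h3)
    rw [if_pos h1, if_neg h2]
    exact inf_eq_right.2 zero_le_one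
  · rw [if_neg h1]
    refine inf_eq_left.2 ?_
    split_ifs <;> norm_num

lemma pr_single_le {w : ℕ →₀ ℝ} (n : ℕ) (c : ℝ) {x : ℕ → ℝ} (hx : ∀ i, i ≠ n → x i = 0)
    (hc : |x n| ≤ c) (h0 : 0 ≤ w n) (h1 : w n ≤ 1) : pr w x ≤ c := by
  rw [pr_eq]
  by_cases hn : n ∈ w.support
  · rw [Finset.sum_eq_single n]
    · exact (mul_le_of_le_one_left (abs_nonneg _) h1).trans hc
    · intro i _ hi
      rw [hx i hi, abs_zero, mul_zero]
    · intro h; exact absurd hn h
  · rw [Finset.sum_eq_zero]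
    · exact (abs_nonneg _).trans hc
    · intro i hi
      have : i ≠ n := by rintro rfl; exact hn hi
      rw [hx i this, abs_zero, mul_zero]

lemma IsL1Type.norm_e_le (hL : IsL1Type L) (n : ℕ) : ‖hL.e n‖ ≤ 1 := by
  refine FLat.norm_le_of _ zero_le_one fun w hw => ?_
  refine pr_single_le n 1 (fun i hi => ?_) ?_ (L.W_nonneg w hw n) (hL.le_one w hw n)
  · rw [hL.e_fn, if_neg hi]
  · rw [hL.e_fn, if_pos rfl, abs_one]

lemma IsL1Type.summable (hL : IsL1Type L) (x : L.Space) : Summable fun n => |x.fn n| := by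
  obtain ⟨C, hC⟩ := hL.exists_bound
  exact summable_of_sum_le (fun n => abs_nonneg _) (hC x)

lemma IsL1Type.hasSum_unit (hL : IsL1Type L) (x : L.Space) : HasSum (fun n => x.fn n • hL.e n) x := by
  have h1 : Summable fun n => x.fn n • hL.e n := by
    refine Summable.of_norm_bounded (hL.summable x) fun n => ?_
    rw [norm_smul]
    exact mul_le_of_le_one_right (abs_nonneg _) (hL.norm_e_le n)
  have h2 : ∑' n, x.fn n • hL.e n = x := by
    refine FLat.Space.ext fun i => ?_
    rw [← FLat.eval_apply i, (FLat.eval i).map_tsum h1]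
    rw [tsum_eq_single i]
    · rw [map_smul, FLat.eval_apply, hL.e_fn, if_pos rfl, smul_eq_mul, mul_one]
    · intro n hn
      rw [map_smul, FLat.eval_apply, hL.e_fn, if_neg (Ne.symm hn), smul_zero]
  rw [← h2]
  convert h1.hasSum using 1
  rw [h2]

variable {X : Type u} [NormedAddCommGroup X] [NormedSpace ℝ X] [Lattice X] [BanachLattice X]

/-- the homomorphism given by a bounded disjoint positive sequence -/
lemma IsL1Type.exists_hom (hL : IsL1Type L) {x : ℕ → X} (hx0 : ∀ n, 0 ≤ x n)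
    (hxd : ∀ m n, m ≠ n → x m ⊓ x n = 0) {c : ℝ} (hc : ∀ n, ‖x n‖ ≤ c) :
    ∃ T : L.Space →L[ℝ] X, IsLatHom T ∧ ∀ β : L.Space, HasSum (fun n => β.fn n • x n) (T β) := by
  have hsm : ∀ β : L.Space, Summable fun n => β.fn n • x n := by
    intro β
    refine Summable.of_norm_bounded ((hL.summable β).mul_right c) fun n => ?_
    rw [norm_smul]
    exact mul_le_mul_of_nonneg_left (hc n) (norm_nonneg _)
  have hc0 : 0 ≤ c := (norm_nonneg _).trans (hc 0)
  obtain ⟨C, hC⟩ := hL.exists_bound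
  let T₀ : L.Space →ₗ[ℝ] X :=
    { toFun := fun β => ∑' n, β.fn n • x n
      map_add' := by
        intro β γ
        rw [← (hsm β).tsum_add (hsm γ)]
        refine tsum_congr fun n => ?_
        rw [FLat.add_fn, add_smul]
      map_smul' := by
        intro a β
        rw [RingHom.id_apply, ← tsum_const_smul'' a]
        refine tsum_congr fun n => ?_
        rw [FLat.smul_fn, mul_smul] }
  have hbound : ∀ β : L.Space, ‖T₀ β‖ ≤ (C * c) * ‖β‖ := by
    intro β
    have h1 : ‖T₀ β‖ ≤ ∑' n, |β.fn n| * c := by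
      refine tsum_of_norm_bounded ((hL.summable β).mul_right c).hasSum fun n => ?_
      rw [norm_smul]
      exact mul_le_mul_of_nonneg_left (hc n) (norm_nonneg _)
    rw [tsum_mul_right] at h1
    have h2 : ∑' n, |β.fn n| ≤ C * ‖β‖ :=
      (hL.summable β).tsum_le_of_sum_le (hC β)
    calc ‖T₀ β‖ ≤ (∑' n, |β.fn n|) * c := h1
      _ ≤ (C * ‖β‖) * c := mul_le_mul_of_nonneg_right h2 hc0
      _ = (C * c) * ‖β‖ := by ring
  refine ⟨T₀.mkContinuous (C * c) hbound, ?_, fun β => (hsm β).hasSum⟩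
  refine isLatHom_of_abs fun β => ?_
  have h1 : Tendsto (fun N => ∑ n ∈ Finset.range N, β.fn n • x n) atTop
      (𝓝 (T₀.mkContinuous (C * c) hbound β)) := (hsm β).hasSum.tendsto_sum_nat
  have h2 : Tendsto (fun N => ∑ n ∈ Finset.range N, |β|.fn n • x n) atTop
      (𝓝 (T₀.mkContinuous (C * c) hbound |β|)) := (hsm |β|).hasSum.tendsto_sum_nat
  have h3 : Tendsto (fun N => |∑ n ∈ Finset.range N, β.fn n • x n|) atTop
      (𝓝 |T₀.mkContinuous (C * c) hbound β|) := by
    show Tendsto (fun N => (∑ n ∈ Finset.range N, β.fn n • x n) ⊔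
      -(∑ n ∈ Finset.range N, β.fn n • x n)) atTop _
    exact h1.sup_nhds h1.neg
  have h4 : (fun N => |∑ n ∈ Finset.range N, β.fn n • x n|) =
      fun N => ∑ n ∈ Finset.range N, |β|.fn n • x n := by
    funext N
    rw [abs_sum_disj _ hx0 hxd]
    rfl
  rw [h4] at h3
  exact tendsto_nhds_unique h2 h3

/-- the lift of a homomorphism defined on a lattice of `ℓ_1` type -/
lemma IsL1Type.comp_eq {Y : Type v} [NormedAddCommGroup Y] [NormedSpace ℝ Y] [Lattice Y]
    (hL : IsL1Type L) {x : ℕ → X} {Q : X →L[ℝ] Y} {T : L.Space →L[ℝ] Y}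
    (hQ : ∀ n, Q (x n) = T (hL.e n)) {T' : L.Space →L[ℝ] X}
    (hT' : ∀ β : L.Space, HasSum (fun n => β.fn n • x n) (T' β)) (β : L.Space) :
    Q (T' β) = T β := by
  have h1 := (hT' β).mapL Q
  have h2 := (hL.hasSum_unit β).mapL T
  simp only [map_smul, hQ] at h1 h2
  exact h1.unique h2

end

lemma sum_le_norm_ell1 (x : ell1.Space) (F : Finset ℕ) : ∑ i ∈ F, |x.fn i| ≤ ‖x‖ := by
  classical
  have hval : ∀ j ∈ F, (∑ i ∈ F, Finsupp.single i (1 : ℝ)) j = 1 := by
    intro j hj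
    rw [Finsupp.finsetSum_apply, Finset.sum_eq_single j]
    · simp
    · intro i _ hi; rw [Finsupp.single_apply, if_neg hi]
    · intro h; exact absurd hj h
  have hval0 : ∀ j, j ∉ F → (∑ i ∈ F, Finsupp.single i (1 : ℝ)) j = 0 := by
    intro j hj
    rw [Finsupp.finsetSum_apply]
    refine Finset.sum_eq_zero fun i hi => ?_
    rw [Finsupp.single_apply, if_neg]
    rintro rfl; exact hj hi
  have hw : (∑ i ∈ F, Finsupp.single i (1 : ℝ)) ∈ ell1.W := by
    intro j
    by_cases hj : j ∈ F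
    · exact Or.inr (hval j hj)
    · exact Or.inl (hval0 j hj)
  refine le_trans (le_of_eq ?_) (FLat.pr_le x hw)
  have hsupp : (∑ i ∈ F, Finsupp.single i (1 : ℝ)).support = F := by
    ext j
    rw [Finsupp.mem_support_iff]
    constructor
    · intro h
      by_contra hj
      exact h (hval0 j hj)
    · intro hj
      rw [hval j hj]
      exact one_ne_zero
  rw [pr_eq, hsupp]
  refine Finset.sum_congr rfl fun i hi => ?_
  rw [hval i hi, one_mul]

lemma isL1Type_ell1 : IsL1Type ell1 where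
  unit_mem n := by
    refine ⟨1, fun w hw => ?_⟩
    refine pr_single_le n 1 (fun i hi => by rw [Pi.single_apply, if_neg hi]) (by simp) ?_ ?_
    · rcases hw n with h | h <;> rw [h]; exact zero_le_one
    · rcases hw n with h | h <;> rw [h]; exact zero_le_one
  le_one w hw n := by rcases hw n with h | h <;> rw [h]; exact zero_le_one
  exists_bound := ⟨1, fun x F => by rw [one_mul]; exact sum_le_norm_ell1 x F⟩

/-- `ℓ_1` is projective -/
theorem isProjective_ell1 : IsProjective.{0, v} ell1.Space := by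
  intro X Y _ _ _ _ _ _ _ _ Q hQ T hT ε hε
  have hL := isL1Type_ell1
  have hyd : ∀ m n, m ≠ n → T (hL.e m) ⊓ T (hL.e n) = 0 := by
    intro m n h
    rw [← (hT _ _).2, hL.e_disj h, map_zero]
  have hyn : ∀ n, ‖T (hL.e n)‖ ≤ ‖T‖ := fun n => by
    have h1 := T.le_opNorm (hL.e n)
    exact h1.trans (mul_le_of_le_one_right (norm_nonneg _) (hL.norm_e_le n))
  obtain ⟨x, hx0, hxd, hxQ, hxn⟩ := hQ.exists_disjoint_lift (fun n => hT.map_pos (hL.e_nonneg n))
    hyd hyn hε
  obtain ⟨T', hT', hsum⟩ := hL.exists_hom hx0 hxd hxn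
  refine ⟨T', hT', fun β => hL.comp_eq hxQ hsum β, ?_⟩
  refine ContinuousLinearMap.opNorm_le_bound _ (by positivity) fun β => ?_
  have h1 : ‖T' β‖ ≤ ∑' n, |β.fn n| * ((1 + ε) * ‖T‖) := by
    rw [← (hsum β).tsum_eq]
    refine tsum_of_norm_bounded ((hL.summable β).mul_right _).hasSum fun n => ?_
    rw [norm_smul]
    exact mul_le_mul_of_nonneg_left (hxn n) (norm_nonneg _)
  rw [tsum_mul_right] at h1
  have h2 : ∑' n, |β.fn n| ≤ ‖β‖ := (hL.summable β).tsum_le_of_sum_le (sum_le_norm_ell1 β)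
  calc ‖T' β‖ ≤ (∑' n, |β.fn n|) * ((1 + ε) * ‖T‖) := h1
    _ ≤ ‖β‖ * ((1 + ε) * ‖T‖) := mul_le_mul_of_nonneg_right h2 (by positivity)
    _ = (1 + ε) * ‖T‖ * ‖β‖ := by ring

instance : BanachLattice ℝ where
  smul_le_smul_of_nonneg_left _ hc _ _ h := mul_le_mul_of_nonneg_left h hc

/-- `ℝ` is projective -/
theorem isProjective_real : IsProjective.{0, v} ℝ := by
  intro X Y _ _ _ _ _ _ _ _ Q hQ T hT ε hε
  have h1 : 0 ≤ T 1 := hT.map_pos zero_le_one
  have h2 : ‖T 1‖ ≤ ‖T‖ := by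
    have := T.le_opNorm 1
    rwa [norm_one, mul_one] at this
  obtain ⟨x, hx0, hxQ, hxn⟩ := hQ.exists_pos_lift' h1 h2 hε
  refine ⟨ContinuousLinearMap.smulRight (1 : ℝ →L[ℝ] ℝ) x, ?_, ?_, ?_⟩
  · refine isLatHom_of_abs fun t => ?_
    simp only [ContinuousLinearMap.smulRight_apply, one_apply_eq_self]
    exact (abs_smul_pos hx0).symm
  · intro t
    simp only [ContinuousLinearMap.smulRight_apply, one_apply_eq_self, map_smul, hxQ]
    rw [← map_smul, smul_eq_mul, mul_one]
  · rw [ContinuousLinearMap.norm_smulRight_apply]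
    simpa using hxn

end Pool.Agent.R280.BLat
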