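import Pool.Agent.R280.FLat

/-!
The free Banach lattice `FBL[E]` generated by a Banach space `E`.
-/

set_option autoImplicit false
set_option linter.unusedSectionVars false

open Set Topology Filter

universe u

namespace Pool.Agent.R280.BLat

section FBL

variable (E : Type u) [NormedAddCommGroup E] [NormedSpace ℝ E]

/-- The vector sublattice of the functions `E* → ℝ` generated by the evaluations
`δ_x : x* ↦ x*(x)`, `x ∈ E`. -/
inductive IsGen : ((E →L[ℝ] ℝ) → ℝ) → Prop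
  | delta (x : E) : IsGen fun u => u x
  | add (f g : (E →L[ℝ] ℝ) → ℝ) : IsGen f → IsGen g → IsGen (f + g)
  | smul (c : ℝ) (f : (E →L[ℝ] ℝ) → ℝ) : IsGen f → IsGen (c • f)
  | sup (f g : (E →L[ℝ] ℝ) → ℝ) : IsGen f → IsGen g → IsGen (f ⊔ g)

/-- The finitely supported weights `w ≥ 0` on `E*` with `∑ w(x*) |x*(x)| ≤ 1` for `‖x‖ ≤ 1`. -/
def fblW : Set ((E →L[ℝ] ℝ) →₀ ℝ) :=
  {w | (∀ u, 0 ≤ w u) ∧ ∀ x : E, ‖x‖ ≤ 1 → pr w (fun u => u x) ≤ 1}

variable {E}

lemma IsGen.neg {f : (E →L[ℝ] ℝ) → ℝ} (hf : IsGen E f) : IsGen E (-f) := by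
  have := IsGen.smul (-1) f hf
  rwa [neg_one_smul] at this

lemma IsGen.sub {f g : (E →L[ℝ] ℝ) → ℝ} (hf : IsGen E f) (hg : IsGen E g) : IsGen E (f - g) := by
  rw [sub_eq_add_neg]
  exact IsGen.add f (-g) hf hg.neg

lemma IsGen.abs {f : (E →L[ℝ] ℝ) → ℝ} (hf : IsGen E f) : IsGen E |f| :=
  IsGen.sup f (-f) hf hf.neg

lemma IsGen.zero : IsGen E 0 := by
  have := IsGen.smul 0 _ (IsGen.delta (0 : E))
  rwa [zero_smul] at this

lemma pr_delta_le {w : (E →L[ℝ] ℝ) →₀ ℝ} (hw : w ∈ fblW E) (x : E) :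
    pr w (fun u => u x) ≤ ‖x‖ := by
  rcases eq_or_ne x 0 with rfl | hx
  · have : (fun u : E →L[ℝ] ℝ => u 0) = 0 := by
      funext u; simp
    rw [this, pr_eq, norm_zero]
    simp
  · have hx0 : 0 < ‖x‖ := norm_pos_iff.2 hx
    have h1 : (fun u : E →L[ℝ] ℝ => u x) = ‖x‖ • fun u : E →L[ℝ] ℝ => u (‖x‖⁻¹ • x) := by
      funext u
      rw [Pi.smul_apply, map_smul, smul_smul, mul_inv_cancel₀ hx0.ne', one_smul]
    rw [h1, pr_smul, abs_of_pos hx0]
    refine mul_le_of_le_one_right hx0.le (hw.2 _ ?_)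
    rw [norm_smul, norm_inv, norm_norm, inv_mul_cancel₀ hx0.ne']

lemma IsGen.bdd {f : (E →L[ℝ] ℝ) → ℝ} (hf : IsGen E f) :
    ∃ C : ℝ, ∀ w ∈ fblW E, pr w f ≤ C := by
  induction hf with
  | delta x => exact ⟨‖x‖, fun w hw => pr_delta_le hw x⟩
  | add f g _ _ h1 h2 =>
    obtain ⟨C1, h1⟩ := h1
    obtain ⟨C2, h2⟩ := h2
    exact ⟨C1 + C2, fun w hw => (pr_add_le hw.1 f g).trans (add_le_add (h1 w hw) (h2 w hw))⟩
  | smul c f _ h1 =>
    obtain ⟨C1, h1⟩ := h1
    refine ⟨|c| * C1, fun w hw => ?_⟩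
    rw [pr_smul]
    exact mul_le_mul_of_nonneg_left (h1 w hw) (abs_nonneg c)
  | sup f g _ _ h1 h2 =>
    obtain ⟨C1, h1⟩ := h1
    obtain ⟨C2, h2⟩ := h2
    refine ⟨C1 + C2, fun w hw => ?_⟩
    have h3 : pr w (f ⊔ g) ≤ pr w (|f| + |g|) := by
      refine pr_mono hw.1 fun i => ?_
      rw [Pi.sup_apply, Pi.add_apply, Pi.abs_apply, Pi.abs_apply,
        abs_of_nonneg (a := |f i| + |g i|) (by positivity)]
      rw [abs_le]
      constructor
      · have := neg_abs_le (f i)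
        have h4 := abs_nonneg (g i)
        have h5 : f i ≤ f i ⊔ g i := le_sup_left
        linarith
      · refine sup_le ?_ ?_
        · have := le_abs_self (f i)
          have h4 := abs_nonneg (g i)
          linarith
        · have := le_abs_self (g i)
          have h4 := abs_nonneg (f i)
          linarith
    have h4 : ∀ f : (E →L[ℝ] ℝ) → ℝ, pr w |f| = pr w f := by
      intro f
      rw [pr_eq, pr_eq]
      simp only [Pi.abs_apply, abs_abs]
    refine h3.trans ((pr_add_le hw.1 _ _).trans ?_)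
    rw [h4, h4]
    exact add_le_add (h1 w hw) (h2 w hw)

/-- weights with one point -/
lemma single_mem {u : E →L[ℝ] ℝ} {c : ℝ} (hc : 0 ≤ c) (h : ∀ x : E, ‖x‖ ≤ 1 → c * |u x| ≤ 1) :
    Finsupp.single u c ∈ fblW E := by
  classical
  refine ⟨fun v => ?_, fun x hx => ?_⟩
  · rw [Finsupp.single_apply]
    split_ifs
    · exact hc
    · exact le_rfl
  · rw [pr, Finsupp.sum_single_index (by rw [zero_mul])]
    exact h x hx

variable (E)

/-- `FBL[E]`: the functions `f : E* → ℝ` which are limits of elements of the vector sublattice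
generated by the `δ_x` for the norm `‖f‖ = sup ∑ w(x*) |f(x*)|`, the supremum taken over the weights
`w` with `∑ w(x*) |x*(x)| ≤ 1` for `‖x‖ ≤ 1`. Such `f` are positively homogeneous, so that
`w |f(x*)| = |f(w x*)|` for `w ≥ 0` and the norm is
`sup {∑_i |f(x_i*)| : ∑_i |x_i*(x)| ≤ 1 for ‖x‖ ≤ 1}`. -/
noncomputable def FBL : FLat.{u} (E →L[ℝ] ℝ) where
  S :=
    { carrier := {f | ∀ ε : ℝ, 0 < ε → ∃ g, IsGen E g ∧ ∀ w ∈ fblW E, pr w (f - g) ≤ ε}
      zero_mem' := by
        intro ε hε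
        refine ⟨0, IsGen.zero, fun w _ => ?_⟩
        rw [sub_self, pr_eq]
        simp [hε.le]
      add_mem' := by
        intro f f' hf hf' ε hε
        obtain ⟨g, hg, h⟩ := hf (ε / 2) (half_pos hε)
        obtain ⟨g', hg', h'⟩ := hf' (ε / 2) (half_pos hε)
        refine ⟨g + g', IsGen.add g g' hg hg', fun w hw => ?_⟩
        rw [add_sub_add_comm]
        have := (pr_add_le hw.1 (f - g) (f' - g')).trans (add_le_add (h w hw) (h' w hw))
        linarith
      smul_mem' := by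
        intro c f hf ε hε
        have hc : 0 < |c| + 1 := by positivity
        obtain ⟨g, hg, h⟩ := hf (ε / (|c| + 1)) (div_pos hε hc)
        refine ⟨c • g, IsGen.smul c g hg, fun w hw => ?_⟩
        rw [← smul_sub, pr_smul]
        calc |c| * pr w (f - g) ≤ |c| * (ε / (|c| + 1)) :=
              mul_le_mul_of_nonneg_left (h w hw) (abs_nonneg c)
          _ ≤ (|c| + 1) * (ε / (|c| + 1)) :=
              mul_le_mul_of_nonneg_right (by linarith) (by positivity)
          _ = ε := by field_simp }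
  W := fblW E
  abs_mem := by
    intro f hf ε hε
    obtain ⟨g, hg, h⟩ := hf ε hε
    refine ⟨|g|, hg.abs, fun w hw => (pr_mono hw.1 fun i => ?_).trans (h w hw)⟩
    exact abs_abs_sub_abs_le (f i) (g i)
  W_nonneg := fun w hw => hw.1
  W_sep := by
    intro u
    refine ⟨Finsupp.single u (1 / (‖u‖ + 1)), single_mem (by positivity) (fun x hx => ?_), ?_⟩
    · rw [one_div, inv_mul_le_iff₀ (by positivity), mul_one]
      have h1 := u.le_opNorm x
      rw [Real.norm_eq_abs] at h1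
      have h2 : ‖u‖ * ‖x‖ ≤ ‖u‖ * 1 := mul_le_mul_of_nonneg_left hx (norm_nonneg _)
      linarith
    · rw [Finsupp.single_eq_same]
      positivity
  bdd := by
    intro f hf
    obtain ⟨g, hg, h⟩ := hf 1 one_pos
    obtain ⟨C, hC⟩ := hg.bdd
    refine ⟨1 + C, fun w hw => ?_⟩
    have h1 := pr_add_le hw.1 (f - g) g
    rw [sub_add_cancel] at h1
    exact h1.trans (add_le_add (h w hw) (hC w hw))
  closed := by
    intro f hf ε hε
    obtain ⟨y, hy, h⟩ := hf (ε / 2) (half_pos hε)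
    obtain ⟨g, hg, h'⟩ := hy (ε / 2) (half_pos hε)
    refine ⟨g, hg, fun w hw => ?_⟩
    have h1 := pr_add_le hw.1 (f - y) (y - g)
    rw [sub_add_sub_cancel] at h1
    have := h1.trans (add_le_add (h w hw) (h' w hw))
    linarith

variable {E}

lemma mem_of_isGen {f : (E →L[ℝ] ℝ) → ℝ} (hf : IsGen E f) : f ∈ (FBL E).S := by
  intro ε hε
  refine ⟨f, hf, fun w _ => ?_⟩
  rw [sub_self, pr_eq]
  simp [hε.le]

end FBL

end Pool.Agent.R280.BLat
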