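import Pool.Agent.R280.GenLat

/-!
The free Banach lattice on a set of positive generators.
-/

set_option autoImplicit false
set_option linter.unusedSectionVars false

open Set Topology Filter

universe u v w

namespace Pool.Agent.R280.BLat

section pr

variable {I : Type u}

lemma pr_add_weight (w w' : I →₀ ℝ) (f : I → ℝ) : pr (w + w') f = pr w f + pr w' f := by
  classical
  rw [pr, pr, pr]
  exact Finsupp.sum_add_index' (fun i => by simp) (fun i a b => by ring)

lemma pr_single (i : I) (c : ℝ) (f : I → ℝ) : pr (Finsupp.single i c) f = c * |f i| := by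
  rw [pr]
  exact Finsupp.sum_single_index (by simp)

lemma pr_smul_weight (c : ℝ) (w : I →₀ ℝ) (f : I → ℝ) : pr (c • w) f = c * pr w f := by
  classical
  rw [pr, pr, Finsupp.sum_smul_index (fun i => by simp), Finsupp.mul_sum]
  refine Finsupp.sum_congr fun i _ => by ring

lemma pr_zero_weight (f : I → ℝ) : pr (0 : I →₀ ℝ) f = 0 := by rw [pr, Finsupp.sum_zero_index]

lemma pr_list {α : Type v} (l : List α) (k : α → I) (c : α → ℝ) (f : I → ℝ) :
    pr (l.map fun a => Finsupp.single (k a) (c a)).sum f = (l.map fun a => c a * |f (k a)|).sum := by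
  induction l with
  | nil => simp [pr_zero_weight]
  | cons a l ih =>
    rw [List.map_cons, List.sum_cons, List.map_cons, List.sum_cons, pr_add_weight, pr_single, ih]

end pr

section free

variable (A : Type u)

/-- the coordinate functions on `[0,1]^A` -/
def posGen (a : A) (φ : A → unitInterval) : ℝ := φ a

/-- the weights `w ≥ 0` on `[0,1]^A` with `∑ w(φ) φ(a) ≤ 1` for all `a` -/
def posW : Set ((A → unitInterval) →₀ ℝ) := {w | (∀ φ, 0 ≤ w φ) ∧ ∀ a, pr w (posGen A a) ≤ 1}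

/-- The free Banach lattice on the set `A` of positive generators. -/
noncomputable def FBLpos : FLat.{u} (A → unitInterval) :=
  genLat (posGen A) (posW A) (fun _ hw => hw.1)
    (fun φ => ⟨Finsupp.single φ 1, ⟨fun ψ => by
      classical
      rw [Finsupp.single_apply]
      split_ifs <;> norm_num, fun a => by
      rw [pr_single, one_mul]
      show |(φ a : ℝ)| ≤ 1
      rw [abs_of_nonneg (φ a).2.1]
      exact (φ a).2.2⟩, by simp⟩)
    (fun a => ⟨1, fun _ hw => hw.2 a⟩)

variable {A}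

/-- the generators -/
noncomputable def posEl (a : A) : (FBLpos A).Space := genEl _ _ _ _ _ a

lemma posEl_fn (a : A) (φ : A → unitInterval) : (posEl a).fn φ = φ a := rfl

lemma posEl_nonneg (a : A) : 0 ≤ posEl a := fun φ => (φ a).2.1

lemma posEl_norm (a : A) : ‖posEl a‖ ≤ 1 :=
  FLat.norm_le_of _ zero_le_one fun _ hw => hw.2 a

variable {Y : Type v} [NormedAddCommGroup Y] [NormedSpace ℝ Y] [Lattice Y] [BanachLattice Y]

open Classical in
/-- a bound for the values of a positive functional on the unit ball of radius `c` -/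
noncomputable def posM (c : ℝ) (ψ : Y →ₗ[ℝ] ℝ) : ℝ :=
  if h : IsPosF ψ then h.bounded.choose * c + 1 else 1

lemma posM_pos {c : ℝ} (hc : 0 ≤ c) (ψ : Y →ₗ[ℝ] ℝ) : 0 < posM c ψ := by
  rw [posM]
  split_ifs with h
  · have := h.bounded.choose_spec.1
    positivity
  · exact one_pos

lemma le_posM {c : ℝ} (hc : 0 ≤ c) {ψ : Y →ₗ[ℝ] ℝ} (h : IsPosF ψ) {y : Y} (hy : ‖y‖ ≤ c) :
    ψ y ≤ posM c ψ := by
  rw [posM, dif_pos h]
  have h1 := h.bounded.choose_spec.2 y
  have h2 := h.bounded.choose_spec.1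
  have h3 := le_abs_self (ψ y)
  have h4 := mul_le_mul_of_nonneg_left hy h2
  linarith

/-- the point of `[0,1]^A` given by a positive functional -/
noncomputable def posPt (c : ℝ) (x : A → Y) (ψ : Y →ₗ[ℝ] ℝ) : A → unitInterval :=
  fun a => Set.projIcc 0 1 zero_le_one (ψ (x a) / posM c ψ)

/-- the multiple of an evaluation given by a positive functional -/
noncomputable def posRho (c : ℝ) (x : A → Y) (ψ : Y →ₗ[ℝ] ℝ) : (FBLpos A).Space →ₗ[ℝ] ℝ where
  toFun f := posM c ψ * f.fn (posPt c x ψ)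
  map_add' f g := by rw [FLat.add_fn, mul_add]
  map_smul' r f := by rw [FLat.smul_fn, RingHom.id_apply, smul_eq_mul]; ring

lemma posRho_apply (c : ℝ) (x : A → Y) (ψ : Y →ₗ[ℝ] ℝ) (f : (FBLpos A).Space) :
    posRho c x ψ f = posM c ψ * f.fn (posPt c x ψ) := rfl

lemma posRho_gen {c : ℝ} (hc : 0 ≤ c) {x : A → Y} (hx : ∀ a, 0 ≤ x a) (hxc : ∀ a, ‖x a‖ ≤ c)
    {ψ : Y →ₗ[ℝ] ℝ} (hψ : IsPosF ψ) (a : A) : posM c ψ * (posPt c x ψ a : ℝ) = ψ (x a) := by
  have hM := posM_pos hc ψ
  have h1 : ψ (x a) / posM c ψ ∈ Set.Icc (0 : ℝ) 1 :=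
    ⟨div_nonneg (hψ _ (hx a)) hM.le, (div_le_one hM).2 (le_posM hc hψ (hxc a))⟩
  have h2 : (posPt c x ψ a : ℝ) = ψ (x a) / posM c ψ := by
    show ((Set.projIcc 0 1 _ (ψ (x a) / posM c ψ) : Set.Icc (0 : ℝ) 1) : ℝ) = _
    rw [Set.projIcc_of_mem _ h1]
  rw [h2]
  field_simp

lemma pos_isPts {c : ℝ} (hc : 0 ≤ c) {x : A → Y} (hx : ∀ a, 0 ≤ x a) (hxc : ∀ a, ‖x a‖ ≤ c) :
    IsPts posEl x (posRho c x) where
  sup := by
    intro ψ _ f g
    rw [posRho_apply, posRho_apply, posRho_apply, FLat.sup_fn]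
    exact mul_max_of_nonneg _ _ (posM_pos hc ψ).le
  gen := by
    intro ψ hψ a
    rw [posRho_apply, posEl_fn]
    exact posRho_gen hc hx hxc hψ a

lemma pos_rel_norm_le {c : ℝ} (hc : 0 < c) {x : A → Y} (hx : ∀ a, 0 ≤ x a)
    (hxc : ∀ a, ‖x a‖ ≤ c) {f : (FBLpos A).Space} {y : Y} (h : Rel posEl x f y) :
    ‖y‖ ≤ c * ‖f‖ := by
  obtain ⟨g, hg1, hg2, hg3⟩ := PosFun.exists_functional |y| (abs_nonneg y)
  obtain ⟨l, hl, hs, hi⟩ := h.main (pos_isPts hc.le hx hxc) (ψ := g.toLinearMap) hg1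
  have h1 : g.toLinearMap |y| = ‖y‖ := by
    show g |y| = ‖y‖
    rw [hg2, norm_abs_eq_norm]
  rw [h1] at hi
  refine hi.trans ?_
  set w : (A → unitInterval) →₀ ℝ :=
    (l.map fun φ => Finsupp.single (posPt c x φ) (posM c φ)).sum with hw
  have h2 : (l.map fun φ => posRho c x φ |f|).sum = pr w f.fn := by
    rw [hw, pr_list]
    rfl
  have hw0 : ∀ φ, 0 ≤ w φ := by
    intro φ
    rw [hw]
    clear hi h2 hs hw hl
    clear_value w
    clear w
    induction l with
    | nil => simp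
    | cons a l ih =>
      rw [List.map_cons, List.sum_cons, Finsupp.add_apply]
      refine add_nonneg ?_ ih
      classical
      rw [Finsupp.single_apply]
      split_ifs
      · exact (posM_pos hc.le a).le
      · exact le_rfl
  have hwW : c⁻¹ • w ∈ posW A := by
    refine ⟨fun φ => mul_nonneg (inv_nonneg.2 hc.le) (hw0 φ), fun a => ?_⟩
    rw [pr_smul_weight, inv_mul_le_iff₀ hc, mul_one, hw, pr_list]
    have h3 : (l.map fun φ => posM c φ * |posGen A a (posPt c x φ)|).sum = l.sum (x a) := by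
      clear hi h2 hs
      clear_value w
      clear hw0 hw
      clear w
      induction l with
      | nil => simp
      | cons φ l ih =>
        rw [List.map_cons, List.sum_cons, List.sum_cons,
          ih fun φ' hφ' => hl φ' (List.mem_cons_of_mem _ hφ')]
        show posM c φ * |(posPt c x φ a : ℝ)| + _ = φ (x a) + _
        rw [abs_of_nonneg (posPt c x φ a).2.1,
          posRho_gen hc.le hx hxc (hl φ List.mem_cons_self) a]
    rw [h3, hs]
    exact ((le_abs_self _).trans (hg3 _)).trans (hxc a)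
  rw [h2]
  have h4 := FLat.pr_le f hwW
  rw [pr_smul_weight, inv_mul_le_iff₀ hc] at h4
  exact h4

/-- The universal property of the free Banach lattice on positive generators. -/
theorem pos_univ {c : ℝ} (hc : 0 < c) {x : A → Y} (hx : ∀ a, 0 ≤ x a) (hxc : ∀ a, ‖x a‖ ≤ c) :
    ∃ T : (FBLpos A).Space →L[ℝ] Y, IsLatHom T ∧ ‖T‖ ≤ c ∧ ∀ a, T (posEl a) = x a := by
  obtain ⟨T, hT, hTn, hTR⟩ := exists_latHom_of_rel (P := (FBLpos A).Space) (Y := Y)
    (Rel posEl x) Rel.zero (fun f g a b ha hb => ha.add hb)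
    (fun r f a ha => ha.smul r) (fun f g a b ha hb => ha.sup hb) hc.le
    (fun f z h => pos_rel_norm_le hc hx hxc h)
    (fun f ε hε => by
      obtain ⟨g, hg, hlt⟩ := genLat_approx f hε
      obtain ⟨y, hy⟩ := exists_rel x hg
      exact ⟨_, y, hy, hlt⟩)
  exact ⟨T, hT, hTn, fun a => hTR _ _ (Rel.gen a)⟩

lemma pos_ext {S T : (FBLpos A).Space →L[ℝ] Y} (hS : IsLatHom S) (hT : IsLatHom T)
    (h : ∀ a, S (posEl a) = T (posEl a)) : S = T := genLat_ext hS hT h

/-- projectivity -/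
theorem pos_isProjective (A : Type u) : IsProjective.{u, v} (FBLpos A).Space := by
  intro X Y _ _ _ _ _ _ _ _ Q hQ T hT ε hε
  rcases eq_or_ne ‖T‖ 0 with h0 | h0
  · have hT0 : T = 0 := norm_eq_zero.1 h0
    refine ⟨0, fun a b => by simp, fun p => by rw [hT0]; simp, ?_⟩
    rw [norm_zero]; positivity
  · have hpos : 0 < ‖T‖ := lt_of_le_of_ne (norm_nonneg _) (Ne.symm h0)
    have h1 : ∀ a : A, ‖T (posEl a)‖ ≤ ‖T‖ := fun a =>
      (T.le_opNorm _).trans (mul_le_of_le_one_right hpos.le (posEl_norm a))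
    choose x hx0 hxQ hxn using fun a : A =>
      hQ.exists_pos_lift' (hT.map_pos (posEl_nonneg a)) (h1 a) hε
    obtain ⟨S, hS, hSn, hSg⟩ := pos_univ (c := (1 + ε) * ‖T‖) (by positivity) hx0 hxn
    have hQS : IsLatHom (Q.comp S) := by
      intro a b
      constructor
      · show Q (S (a ⊔ b)) = Q (S a) ⊔ Q (S b)
        rw [(hS a b).1, (hQ.1 _ _).1]
      · show Q (S (a ⊓ b)) = Q (S a) ⊓ Q (S b)
        rw [(hS a b).2, (hQ.1 _ _).2]
    have heq : Q.comp S = T := pos_ext hQS hT (fun a => by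
      show Q (S (posEl a)) = T (posEl a)
      rw [hSg, hxQ])
    exact ⟨S, hS, fun p => congrArg (fun R : (FBLpos A).Space →L[ℝ] Y => R p) heq, hSn⟩

end free

end Pool.Agent.R280.BLat
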