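import Pool.Agent.R280.FBL
import Pool.Agent.R280.FreePos

/-!
The elements of `FBL[E]` are positively homogeneous, and the norm of `FBL[E]` is given by finite
families of functionals.
-/

set_option autoImplicit false
set_option linter.unusedSectionVars false

open Set Topology Filter

universe u v w

namespace Pool.Agent.R280.BLat

variable {E : Type u} [NormedAddCommGroup E] [NormedSpace ℝ E]

/-- lattice polynomials are positively homogeneous -/
lemma gen_posHom {g : (E →L[ℝ] ℝ) → ℝ} (hg : IsGen E g) {c : ℝ} (hc : 0 ≤ c) (u : E →L[ℝ] ℝ) :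
    g (c • u) = c * g u := by
  induction hg with
  | delta x => rfl
  | add f g _ _ h1 h2 => rw [Pi.add_apply, Pi.add_apply, h1, h2, mul_add]
  | smul a f _ h1 =>
    rw [Pi.smul_apply, Pi.smul_apply, h1, smul_eq_mul, smul_eq_mul]; ring
  | sup f g _ _ h1 h2 =>
    rw [Pi.sup_apply, Pi.sup_apply, h1, h2]
    exact (mul_max_of_nonneg _ _ hc).symm

/-- the elements of `FBL[E]` are positively homogeneous -/
lemma fn_posHom (f : (FBL E).Space) {c : ℝ} (hc : 0 ≤ c) (u : E →L[ℝ] ℝ) :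
    f.fn (c • u) = c * f.fn u := by
  have key : ∀ v : E →L[ℝ] ℝ, ∃ C : ℝ, 0 < C ∧ ∀ ε : ℝ, ∀ g : (E →L[ℝ] ℝ) → ℝ,
      (∀ w ∈ fblW E, pr w (f.fn - g) ≤ ε) → |f.fn v - g v| ≤ C * ε := by
    intro v
    obtain ⟨w, hw, hwv⟩ := (FBL E).W_sep v
    refine ⟨(w v)⁻¹, inv_pos.2 hwv, fun ε g h => ?_⟩
    have h1 := (le_pr (hw : w ∈ fblW E).1 (f.fn - g) v).trans (h w hw)
    rw [inv_mul_eq_div, le_div_iff₀ hwv, mul_comm]
    exact h1
  obtain ⟨C1, hC1, h1⟩ := key (c • u)
  obtain ⟨C2, hC2, h2⟩ := key u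
  have h3 : ∀ ε : ℝ, 0 < ε → |f.fn (c • u) - c * f.fn u| ≤ ε := by
    intro ε hε
    have hpos : 0 < C1 + c * C2 := by positivity
    obtain ⟨g, hg, hgf⟩ := f.2 (ε / (C1 + c * C2)) (div_pos hε hpos)
    have h4 := h1 _ g hgf
    have h5 := h2 _ g hgf
    have h6 : f.fn (c • u) - c * f.fn u =
        (f.fn (c • u) - g (c • u)) - c * (f.fn u - g u) := by
      rw [gen_posHom hg hc]; ring
    rw [h6]
    refine (abs_sub _ _).trans ?_
    rw [abs_mul, abs_of_nonneg hc]
    calc |f.fn (c • u) - g (c • u)| + c * |f.fn u - g u|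
        ≤ C1 * (ε / (C1 + c * C2)) + c * (C2 * (ε / (C1 + c * C2))) :=
          add_le_add h4 (mul_le_mul_of_nonneg_left h5 hc)
      _ = (C1 + c * C2) * (ε / (C1 + c * C2)) := by ring
      _ = ε := by field_simp
  have h4 : |f.fn (c • u) - c * f.fn u| ≤ 0 := le_of_forall_pos_le_add fun ε hε => by
    rw [zero_add]; exact h3 ε hε
  exact sub_eq_zero.1 (abs_eq_zero.1 (le_antisymm h4 (abs_nonneg _)))

/-- The norm of `FBL[E]`: the supremum of `∑ |f(x_i*)|` over the finite families `x_1*, …, x_n*` in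
`E*` with `∑ |x_i*(x)| ≤ 1` for all `x` in the unit ball of `E`. -/
theorem fbl_norm_isLUB (f : (FBL E).Space) :
    IsLUB {r : ℝ | ∃ (n : ℕ) (x : Fin n → (E →L[ℝ] ℝ)),
      (∀ z : E, ‖z‖ ≤ 1 → ∑ i, |x i z| ≤ 1) ∧ r = ∑ i, |f.fn (x i)|} ‖f‖ := by
  classical
  constructor
  · rintro r ⟨n, x, hx, rfl⟩
    have hpr : ∀ h : (E →L[ℝ] ℝ) → ℝ, pr (∑ i, Finsupp.single (x i) (1 : ℝ)) h =
        ∑ i, |h (x i)| := by
      intro h
      rw [pr, ← Finsupp.sum_finsetSum_index (fun _ => by simp) (fun _ _ _ => by ring)]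
      refine Finset.sum_congr rfl fun i _ => ?_
      rw [Finsupp.sum_single_index (by simp), one_mul]
    have hw : (∑ i, Finsupp.single (x i) (1 : ℝ)) ∈ fblW E := by
      refine ⟨fun v => ?_, fun z hz => ?_⟩
      · rw [Finsupp.finsetSum_apply]
        refine Finset.sum_nonneg fun i _ => ?_
        rw [Finsupp.single_apply]
        split_ifs <;> norm_num
      · rw [hpr]
        exact hx z hz
    have h1 := FLat.pr_le f (w := ∑ i, Finsupp.single (x i) (1 : ℝ)) hw
    rwa [hpr] at h1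
  · intro b hb
    have hb0 : 0 ≤ b := hb ⟨0, fun i => 0, by simp, by simp⟩
    refine FLat.norm_le_of f hb0 fun w hw => ?_
    have hw' : w ∈ fblW E := hw
    let en := w.support.equivFin
    refine le_trans (le_of_eq ?_) (hb ⟨w.support.card,
      fun i => w (en.symm i) • ((en.symm i : w.support) : E →L[ℝ] ℝ), fun z hz => ?_, rfl⟩)
    · rw [pr_eq, ← Finset.sum_coe_sort,
        ← en.symm.sum_comp (fun i : w.support => w i * |f.fn i|)]
      refine Finset.sum_congr rfl fun i _ => ?_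
      rw [fn_posHom f (hw'.1 _), abs_mul, abs_of_nonneg (hw'.1 _)]
    · refine le_trans (le_of_eq ?_) (hw'.2 z hz)
      rw [pr_eq, ← Finset.sum_coe_sort w.support (fun i => w i * |i z|),
        ← en.symm.sum_comp (fun i : w.support => w i * |(i : E →L[ℝ] ℝ) z|)]
      refine Finset.sum_congr rfl fun i _ => ?_
      simp only [_root_.smul_apply, smul_eq_mul, abs_mul]
      rw [abs_of_nonneg (hw'.1 _)]

end Pool.Agent.R280.BLat
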