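import Mathlib

/-!
Extension of operators with values in the dual of an `L_1`-space.
-/

set_option autoImplicit false
set_option linter.unusedSectionVars false

open Set Topology Filter MeasureTheory

universe u v w

namespace Pool.Agent.R280.Oct

variable {E : Type u} [NormedAddCommGroup E] [NormedSpace ℝ E]
variable {Ω : Type v} [MeasurableSpace Ω] {μ : Measure Ω}

open scoped Classical in
/-- the set function -/
noncomputable def setT {G : Submodule ℝ E} (B0 : G →ₗ[ℝ] StrongDual ℝ (Lp ℝ 1 μ)) {C : ℝ}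
    (hB0 : ∀ u, ‖B0 u‖ ≤ C * ‖u‖) (s : Set Ω) : G →L[ℝ] ℝ :=
  if h : MeasurableSet s ∧ μ s ≠ ⊤ then
    LinearMap.mkContinuous
      { toFun := fun u => B0 u (indicatorConstLp 1 h.1 h.2 1)
        map_add' := fun u v => by rw [map_add]; rfl
        map_smul' := fun c u => by rw [map_smul]; rfl }
      (C * ‖(indicatorConstLp 1 h.1 h.2 1 : Lp ℝ 1 μ)‖) (fun u => by
        refine ((B0 u).le_opNorm _).trans ?_
        have := mul_le_mul_of_nonneg_right (hB0 u)
          (norm_nonneg (indicatorConstLp 1 h.1 h.2 1 : Lp ℝ 1 μ))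
        linarith)
  else 0

lemma setT_apply {G : Submodule ℝ E} (B0 : G →ₗ[ℝ] StrongDual ℝ (Lp ℝ 1 μ)) {C : ℝ}
    (hB0 : ∀ u, ‖B0 u‖ ≤ C * ‖u‖) {s : Set Ω} (hs : MeasurableSet s) (hμs : μ s ≠ ⊤) (u : G) :
    setT B0 hB0 s u = B0 u (indicatorConstLp 1 hs hμs 1) := by
  unfold setT
  rw [dif_pos ⟨hs, hμs⟩]
  rfl

lemma setT_dom {G : Submodule ℝ E} (B0 : G →ₗ[ℝ] StrongDual ℝ (Lp ℝ 1 μ)) {C : ℝ} (hC : 0 ≤ C)
    (hB0 : ∀ u, ‖B0 u‖ ≤ C * ‖u‖) : DominatedFinMeasAdditive μ (setT B0 hB0) C := by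
  refine ⟨fun s t hs ht hμs hμt hst => ?_, fun s hs hμs => ?_⟩
  · ext u
    rw [add_apply, setT_apply B0 hB0 hs hμs, setT_apply B0 hB0 ht hμt,
      setT_apply B0 hB0 (hs.union ht) (measure_union_ne_top hμs hμt), ← map_add,
      ← indicatorConstLp_disjoint_union hs ht hμs hμt hst]
  · refine ContinuousLinearMap.opNorm_le_bound _ (by positivity) fun u => ?_
    rw [setT_apply B0 hB0 hs hμs.ne]
    refine ((B0 u).le_opNorm _).trans ?_
    have h1 : ‖(indicatorConstLp 1 hs hμs.ne 1 : Lp ℝ 1 μ)‖ ≤ μ.real s := by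
      refine norm_indicatorConstLp_le.trans ?_
      simp
    have h2 := mul_le_mul (hB0 u) h1 (norm_nonneg _) (by positivity)
    linarith

/-- the dual of an `L_1`-space is injective -/
theorem l1_injective (G : Submodule ℝ E) (B0 : G →ₗ[ℝ] StrongDual ℝ (Lp ℝ 1 μ)) {C : ℝ}
    (hC : 0 ≤ C) (hB0 : ∀ u, ‖B0 u‖ ≤ C * ‖u‖) :
    ∃ B : E →ₗ[ℝ] StrongDual ℝ (Lp ℝ 1 μ), (∀ u : G, B u = B0 u) ∧ ∀ x, ‖B x‖ ≤ C * ‖x‖ := by
  have hT := setT_dom B0 hC hB0
  let L : Lp G 1 μ →L[ℝ] ℝ := L1.setToL1 hT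
  have hL : ∀ f, ‖L f‖ ≤ C * ‖f‖ := fun f => L1.norm_setToL1_le_mul_norm hT hC f
  let J : Lp G 1 μ →L[ℝ] Lp E 1 μ := G.subtypeL.compLpL 1 μ
  have hJ : ∀ f, ‖f‖ ≤ ‖J f‖ := by
    intro f
    refine Lp.norm_le_norm_of_ae_le ?_
    filter_upwards [ContinuousLinearMap.coeFn_compLpL G.subtypeL f] with ω hω
    have h1 : (J f) ω = G.subtypeL (f ω) := hω
    rw [h1]
    rfl
  have hinj : Function.Injective J.toLinearMap := by
    rw [← LinearMap.ker_eq_bot, LinearMap.ker_eq_bot']
    intro f hf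
    have h1 := hJ f
    have h2 : J f = 0 := hf
    rw [h2, norm_zero] at h1
    exact norm_le_zero_iff.1 h1
  let e := LinearEquiv.ofInjective J.toLinearMap hinj
  have he : ∀ f, (e f : Lp E 1 μ) = J f := fun f => rfl
  let ℓ0 : StrongDual ℝ (LinearMap.range J.toLinearMap) :=
    LinearMap.mkContinuous (L.toLinearMap ∘ₗ e.symm.toLinearMap) C (fun y => by
      show ‖L (e.symm y)‖ ≤ _
      refine (hL _).trans (mul_le_mul_of_nonneg_left ?_ hC)
      refine (hJ _).trans ?_
      rw [← he, LinearEquiv.apply_symm_apply]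
      rfl)
  have hℓ0 : ‖ℓ0‖ ≤ C := LinearMap.mkContinuous_norm_le _ hC _
  obtain ⟨ℓ, hℓ1, hℓ2⟩ := _root_.exists_extension_norm_eq (LinearMap.range J.toLinearMap) ℓ0
  have hℓJ : ∀ f, ℓ (J f) = L f := by
    intro f
    have h1 := hℓ1 (e f)
    rw [he] at h1
    rw [h1]
    show L (e.symm (e f)) = L f
    rw [LinearEquiv.symm_apply_apply]
  let S : E → Lp ℝ 1 μ →L[ℝ] Lp E 1 μ := fun x =>
    (ContinuousLinearMap.toSpanSingleton ℝ x).compLpL 1 μ
  have hSa : ∀ x h, S x h =ᵐ[μ] fun ω => h ω • x := by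
    intro x h
    filter_upwards [ContinuousLinearMap.coeFn_compLpL (ContinuousLinearMap.toSpanSingleton ℝ x) h]
      with ω hω
    have h1 : (S x h) ω = ContinuousLinearMap.toSpanSingleton ℝ x (h ω) := hω
    rw [h1, ContinuousLinearMap.toSpanSingleton_apply]
  have hSn : ∀ x, ‖S x‖ ≤ ‖x‖ := fun x => by
    refine (ContinuousLinearMap.norm_compLpL_le _).trans ?_
    rw [ContinuousLinearMap.norm_toSpanSingleton]
  have hSadd : ∀ x y h, S (x + y) h = S x h + S y h := by
    intro x y h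
    refine Lp.ext ?_
    filter_upwards [hSa (x + y) h, hSa x h, hSa y h, Lp.coeFn_add (S x h) (S y h)] with ω h1 h2 h3 h4
    rw [h1, h4, Pi.add_apply, h2, h3, smul_add]
  have hSsmul : ∀ (c : ℝ) x h, S (c • x) h = c • S x h := by
    intro c x h
    refine Lp.ext ?_
    filter_upwards [hSa (c • x) h, hSa x h, Lp.coeFn_smul c (S x h)] with ω h1 h2 h4
    rw [h1, h4, Pi.smul_apply, h2, smul_comm]
  let B : E →ₗ[ℝ] StrongDual ℝ (Lp ℝ 1 μ) :=
    { toFun := fun x => ℓ.comp (S x)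
      map_add' := fun x y => by
        ext h
        show ℓ (S (x + y) h) = ℓ (S x h) + ℓ (S y h)
        rw [hSadd, map_add]
      map_smul' := fun c x => by
        ext h
        show ℓ (S (c • x) h) = c * ℓ (S x h)
        rw [hSsmul, map_smul, smul_eq_mul] }
  refine ⟨B, fun u => ?_, fun x => ?_⟩
  · let Su : Lp ℝ 1 μ →L[ℝ] Lp G 1 μ := (ContinuousLinearMap.toSpanSingleton ℝ u).compLpL 1 μ
    have hSua : ∀ h, Su h =ᵐ[μ] fun ω => h ω • u := by
      intro h
      filter_upwards [ContinuousLinearMap.coeFn_compLpL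
        (ContinuousLinearMap.toSpanSingleton ℝ u) h] with ω hω
      have h1 : (Su h) ω = ContinuousLinearMap.toSpanSingleton ℝ u (h ω) := hω
      rw [h1, ContinuousLinearMap.toSpanSingleton_apply]
    have hSJ : ∀ h, S u h = J (Su h) := by
      intro h
      refine Lp.ext ?_
      filter_upwards [hSa u h, hSua h, ContinuousLinearMap.coeFn_compLpL G.subtypeL (Su h)]
        with ω h1 h2 h3
      have h4 : (J (Su h)) ω = G.subtypeL ((Su h) ω) := h3
      rw [h1, h4, h2]
      rfl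
    have hLS : ∀ h, L (Su h) = B0 u h := by
      intro h
      refine Lp.induction (p := 1) ENNReal.one_ne_top (motive := fun h : Lp ℝ 1 μ => L (Su h) = B0 u h)
        ?_ ?_ ?_ h
      · intro c s hs hμs
        rw [Lp.simpleFunc.coe_indicatorConst]
        have h1 : Su (indicatorConstLp 1 hs hμs.ne c) = indicatorConstLp 1 hs hμs.ne (c • u) := by
          refine Lp.ext ?_
          filter_upwards [hSua (indicatorConstLp 1 hs hμs.ne c),
            indicatorConstLp_coeFn (p := 1) (hs := hs) (hμs := hμs.ne) (c := c),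
            indicatorConstLp_coeFn (p := 1) (hs := hs) (hμs := hμs.ne) (c := c • u)] with ω h1 h2 h3
          rw [h1, h2, h3]
          by_cases hω : ω ∈ s
          · rw [indicator_of_mem hω, indicator_of_mem hω]
          · rw [indicator_of_notMem hω, indicator_of_notMem hω, zero_smul]
        rw [h1]
        have h2 : L (indicatorConstLp 1 hs hμs.ne (c • u)) = setT B0 hB0 s (c • u) :=
          L1.setToL1_indicatorConstLp hT hs hμs.ne (c • u)
        rw [h2, setT_apply B0 hB0 hs hμs.ne]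
        have h3 : (indicatorConstLp 1 hs hμs.ne c : Lp ℝ 1 μ) =
            c • indicatorConstLp 1 hs hμs.ne (1 : ℝ) := by
          refine Lp.ext ?_
          filter_upwards [indicatorConstLp_coeFn (p := 1) (hs := hs) (hμs := hμs.ne) (c := c),
            indicatorConstLp_coeFn (p := 1) (hs := hs) (hμs := hμs.ne) (c := (1 : ℝ)),
            Lp.coeFn_smul c (indicatorConstLp 1 hs hμs.ne (1 : ℝ) : Lp ℝ 1 μ)] with ω h1 h2 h3
          rw [h1, h3, Pi.smul_apply, h2]
          by_cases hω : ω ∈ s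
          · rw [indicator_of_mem hω, indicator_of_mem hω, smul_eq_mul, mul_one]
          · rw [indicator_of_notMem hω, indicator_of_notMem hω, smul_zero]
        rw [h3, map_smul, map_smul]
        rfl
      · intro f g hf hg _ h1 h2
        rw [map_add, map_add, map_add, h1, h2]
      · exact isClosed_eq (L.continuous.comp Su.continuous) (B0 u).continuous
    ext h
    show ℓ (S u h) = B0 u h
    rw [hSJ, hℓJ, hLS]
  · refine (ContinuousLinearMap.opNorm_comp_le _ _).trans ?_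
    rw [hℓ2]
    exact mul_le_mul hℓ0 (hSn x) (norm_nonneg _) hC

/-- version for a space isometric to an `L_1`-space -/
theorem exists_extension {V : Type w} [NormedAddCommGroup V] [NormedSpace ℝ V]
    (e : V ≃ₗᵢ[ℝ] Lp ℝ 1 μ) (G : Submodule ℝ E) (B0 : G →ₗ[ℝ] StrongDual ℝ V) {C : ℝ} (hC : 0 ≤ C)
    (hB0 : ∀ u, ‖B0 u‖ ≤ C * ‖u‖) :
    ∃ B : E →ₗ[ℝ] StrongDual ℝ V, (∀ u : G, B u = B0 u) ∧ ∀ x, ‖B x‖ ≤ C * ‖x‖ := by
  let es : Lp ℝ 1 μ →L[ℝ] V := (e.symm.toContinuousLinearEquiv : Lp ℝ 1 μ →L[ℝ] V)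
  let ee : V →L[ℝ] Lp ℝ 1 μ := (e.toContinuousLinearEquiv : V →L[ℝ] Lp ℝ 1 μ)
  have hes : ‖es‖ ≤ 1 := ContinuousLinearMap.opNorm_le_bound _ zero_le_one fun h => by
    rw [one_mul]; exact (e.symm.norm_map h).le
  have hee : ‖ee‖ ≤ 1 := ContinuousLinearMap.opNorm_le_bound _ zero_le_one fun h => by
    rw [one_mul]; exact (e.norm_map h).le
  obtain ⟨B, hB, hBn⟩ := l1_injective (μ := μ) G
    { toFun := fun u => (B0 u).comp es
      map_add' := fun u v => by rw [map_add]; rfl
      map_smul' := fun c u => by rw [map_smul]; rfl } hC (fun u => by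
      refine (ContinuousLinearMap.opNorm_comp_le _ _).trans ?_
      exact (mul_le_of_le_one_right (norm_nonneg _) hes).trans (hB0 u))
  refine ⟨{ toFun := fun x => (B x).comp ee
            map_add' := fun x y => by rw [map_add]; rfl
            map_smul' := fun c x => by rw [map_smul]; rfl }, fun u => ?_, fun x => ?_⟩
  · ext v
    show B u (e v) = B0 u v
    rw [hB u]
    show B0 u (e.symm (e v)) = B0 u v
    rw [e.symm_apply_apply]
  · refine (ContinuousLinearMap.opNorm_comp_le _ _).trans ?_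
    exact (mul_le_of_le_one_right (norm_nonneg _) hee).trans (hBn x)

end Pool.Agent.R280.Oct
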