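import Pool.Agent.R280.LipZ

/-!
Octahedral norms.
-/

set_option autoImplicit false
set_option linter.unusedSectionVars false

open Set Topology Filter

universe u v w

namespace Pool.Agent.R280.Oct

open Pool.Agent.R280.Lip

/-- The norm of `Y` is octahedral: for every finite-dimensional subspace `F` and every `δ > 0` there
is a unit vector `y` with `‖u + t y‖ ≥ (1 - δ) (‖u‖ + |t|)` for all `u ∈ F`, `t ∈ ℝ`. -/
def Octahedral (Y : Type w) [NormedAddCommGroup Y] [NormedSpace ℝ Y] : Prop :=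
  ∀ (F : Submodule ℝ Y) [FiniteDimensional ℝ F] (δ : ℝ), 0 < δ →
    ∃ y : Y, ‖y‖ = 1 ∧ ∀ u ∈ F, ∀ t : ℝ, (1 - δ) * (‖u‖ + |t|) ≤ ‖u + t • y‖

/-- the version with finitely many vectors -/
def OctTuple (Y : Type w) [NormedAddCommGroup Y] [NormedSpace ℝ Y] : Prop :=
  ∀ (S : Finset Y), (∀ x ∈ S, ‖x‖ = 1) → ∀ ε : ℝ, 0 < ε →
    ∃ y : Y, ‖y‖ ≤ 1 ∧ ∀ x ∈ S, 2 - ε ≤ ‖x + y‖

variable {Y : Type w} [NormedAddCommGroup Y] [NormedSpace ℝ Y]

/-- scaling -/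
lemma oct_scale {u y : Y} (hu : ‖u‖ = 1) (hy : ‖y‖ = 1) {ε : ℝ} (hε : 0 ≤ ε)
    (h : 2 - ε ≤ ‖u + y‖) {a b : ℝ} (ha : 0 ≤ a) (hb : 0 ≤ b) :
    (1 - ε) * (a + b) ≤ ‖a • u + b • y‖ := by
  rcases le_total b a with hab | hab
  · have h1 : a • (u + y) = (a • u + b • y) + (a - b) • y := by
      rw [smul_add, sub_smul]; abel
    have h2 := norm_add_le (a • u + b • y) ((a - b) • y)
    rw [← h1, norm_smul, norm_smul, hy, Real.norm_of_nonneg ha, Real.norm_of_nonneg (by linarith),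
      mul_one] at h2
    have h3 := mul_le_mul_of_nonneg_left h ha
    have h4 : 0 ≤ ε * b := mul_nonneg hε hb
    nlinarith
  · have h1 : b • (u + y) = (a • u + b • y) + (b - a) • u := by
      rw [smul_add, sub_smul]; abel
    have h2 := norm_add_le (a • u + b • y) ((b - a) • u)
    rw [← h1, norm_smul, norm_smul, hu, Real.norm_of_nonneg hb, Real.norm_of_nonneg (by linarith),
      mul_one] at h2
    have h3 := mul_le_mul_of_nonneg_left h hb
    have h4 : 0 ≤ ε * a := mul_nonneg hε ha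
    nlinarith

theorem OctTuple.octahedral [Nontrivial Y] (h : OctTuple Y) : Octahedral Y := by
  classical
  intro F _ δ hδ
  set ε := min (δ / 3) (1 / 4) with hε
  have hε0 : 0 < ε := lt_min (by positivity) (by norm_num)
  have hε1 : ε ≤ 1 / 4 := min_le_right _ _
  have hεδ : 3 * ε ≤ δ := by
    have : ε ≤ δ / 3 := min_le_left _ _
    linarith
  obtain ⟨x1, hx1⟩ := exists_ne (0 : Y)
  have hx1n : 0 < ‖x1‖ := norm_pos_iff.2 hx1
  set x0 := ‖x1‖⁻¹ • x1 with hx0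
  have hx0n : ‖x0‖ = 1 := by rw [hx0, norm_smul, norm_inv, norm_norm, inv_mul_cancel₀ hx1n.ne']
  have hprop : ProperSpace F := FiniteDimensional.proper ℝ F
  obtain ⟨t, ht1, ht2, ht3⟩ := (isCompact_sphere (0 : F) 1).finite_cover_balls hε0
  obtain ⟨y', hy'1, hy'2⟩ := h (insert x0 (ht2.toFinset.image fun u : F => (u : Y))) (by
    intro x hx
    rcases Finset.mem_insert.1 hx with rfl | hx
    · exact hx0n
    · obtain ⟨u, hu, rfl⟩ := Finset.mem_image.1 hx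
      have := ht1 (ht2.mem_toFinset.1 hu)
      rw [mem_sphere_zero_iff_norm] at this
      exact this) ε hε0
  have hy'n : 1 - ε ≤ ‖y'‖ := by
    have h1 := hy'2 x0 (Finset.mem_insert_self _ _)
    have h2 := norm_add_le x0 y'
    linarith
  have hy'0 : 0 < ‖y'‖ := by linarith
  set y := ‖y'‖⁻¹ • y' with hy
  have hyn : ‖y‖ = 1 := by rw [hy, norm_smul, norm_inv, norm_norm, inv_mul_cancel₀ hy'0.ne']
  have hyy : ‖y' - y‖ ≤ ε := by
    have h1 : y' - y = (‖y'‖ - 1) • y := by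
      rw [sub_smul, one_smul]
      congr 1
      rw [hy, smul_smul, mul_inv_cancel₀ hy'0.ne', one_smul]
    rw [h1, norm_smul, hyn, mul_one, Real.norm_eq_abs, abs_le]
    constructor <;> linarith
  have hunit : ∀ u ∈ F, ‖u‖ = 1 → 2 - δ ≤ ‖u + y‖ := by
    intro u hu hun
    have h1 : (⟨u, hu⟩ : F) ∈ Metric.sphere (0 : F) 1 := by
      rw [mem_sphere_zero_iff_norm]
      exact hun
    obtain ⟨s, hs, hsu⟩ := mem_iUnion₂.1 (ht3 h1)
    rw [Metric.mem_ball, dist_eq_norm] at hsu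
    have h2 : ‖u - (s : Y)‖ < ε := hsu
    have h3 := hy'2 (s : Y) (Finset.mem_insert_of_mem (Finset.mem_image.2
      ⟨s, ht2.mem_toFinset.2 hs, rfl⟩))
    have h4 : (s : Y) + y' = (u + y) - (u - s) + (y' - y) := by abel
    have h5 : ‖(s : Y) + y'‖ ≤ ‖u + y‖ + ‖u - (s : Y)‖ + ‖y' - y‖ := by
      rw [h4]
      exact (norm_add_le _ _).trans (add_le_add (norm_sub_le _ _) le_rfl)
    linarith
  have hpos : ∀ u ∈ F, ∀ b : ℝ, 0 ≤ b → (1 - δ) * (‖u‖ + b) ≤ ‖u + b • y‖ := by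
    intro u hu b hb
    rcases eq_or_ne u 0 with rfl | hu0
    · rw [norm_zero, zero_add, zero_add, norm_smul, hyn, mul_one, Real.norm_of_nonneg hb]
      nlinarith
    · have hun : 0 < ‖u‖ := norm_pos_iff.2 hu0
      have h1 := hunit (‖u‖⁻¹ • u) (F.smul_mem _ hu)
        (by rw [norm_smul, norm_inv, norm_norm, inv_mul_cancel₀ hun.ne'])
      have h2 := oct_scale (by rw [norm_smul, norm_inv, norm_norm, inv_mul_cancel₀ hun.ne'] :
        ‖‖u‖⁻¹ • u‖ = 1) hyn hδ.le h1 hun.le hb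
      rwa [smul_smul, mul_inv_cancel₀ hun.ne', one_smul] at h2
  refine ⟨y, hyn, fun u hu b => ?_⟩
  rcases le_total 0 b with hb | hb
  · rw [abs_of_nonneg hb]
    exact hpos u hu b hb
  · rw [abs_of_nonpos hb]
    have h1 := hpos (-u) (F.neg_mem hu) (-b) (by linarith)
    rw [norm_neg, neg_smul, ← neg_add, norm_neg] at h1
    exact h1

lemma Octahedral.not_finiteDimensional (h : Octahedral Y) : ¬ FiniteDimensional ℝ Y := by
  intro hf
  have : FiniteDimensional ℝ (⊤ : Submodule ℝ Y) := inferInstance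
  obtain ⟨y, hy, h1⟩ := h ⊤ (1 / 2) (by norm_num)
  have h2 := h1 (-y) trivial 1
  rw [one_smul, neg_add_cancel, norm_zero, norm_neg, hy, abs_one] at h2
  norm_num at h2

/-- finitely many functionals have a common zero of norm one -/
lemma exists_common_zero (h : ¬ FiniteDimensional ℝ Y) (T : Finset (Y →L[ℝ] ℝ)) :
    ∃ x : Y, ‖x‖ = 1 ∧ ∀ φ ∈ T, φ x = 0 := by
  by_contra hcon
  push Not at hcon
  apply h
  let L : Y →ₗ[ℝ] (T → ℝ) := LinearMap.pi fun φ => (φ : Y →L[ℝ] ℝ).toLinearMap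
  have hinj : Function.Injective L := by
    rw [← LinearMap.ker_eq_bot, LinearMap.ker_eq_bot']
    intro x hx
    by_contra hx0
    have hxn : 0 < ‖x‖ := norm_pos_iff.2 hx0
    obtain ⟨φ, hφ, hφx⟩ := hcon (‖x‖⁻¹ • x)
      (by rw [norm_smul, norm_inv, norm_norm, inv_mul_cancel₀ hxn.ne'])
    apply hφx
    have h1 : L x ⟨φ, hφ⟩ = 0 := by rw [hx]; rfl
    have h2 : φ x = 0 := h1
    rw [map_smul, h2, smul_zero]
  exact FiniteDimensional.of_injective L hinj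

/-- slices -/
lemma slice_step (hD : Daugavet Y) {x : Y} (hx : ‖x‖ = 1) {φ : Y →L[ℝ] ℝ} (hφ : ‖φ‖ = 1)
    {α ε : ℝ} (hα : 0 < α) (hε : 0 < ε) :
    ∃ (ψ : Y →L[ℝ] ℝ) (β : ℝ), ‖ψ‖ = 1 ∧ 0 < β ∧
      ∀ z : Y, ‖z‖ ≤ 1 → 1 - β < ψ z → 1 - α < φ z ∧ 2 - ε ≤ ‖x + z‖ := by
  set κ := min (min (α / 8) (ε / 8)) (1 / 4) with hκ
  have hκ0 : 0 < κ := lt_min (lt_min (by positivity) (by positivity)) (by norm_num)
  have hκα : κ ≤ α / 8 := (min_le_left _ _).trans (min_le_left _ _)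
  have hκε : κ ≤ ε / 8 := (min_le_left _ _).trans (min_le_right _ _)
  have hκ1 : κ ≤ 1 / 4 := min_le_right _ _
  obtain ⟨v, hv1, hv2, hv3⟩ := hD.exists_vec hφ hx hκ0
  obtain ⟨f, hf1, hf2⟩ := exists_dual_vector'' ℝ (v + x)
  have hf2' : f (v + x) = ‖v + x‖ := by rw [hf2]; rfl
  have hle : ∀ (g : Y →L[ℝ] ℝ), ‖g‖ ≤ 1 → ∀ z : Y, ‖z‖ ≤ 1 → g z ≤ 1 := by
    intro g hg z hz
    refine (le_abs_self _).trans ((g.le_opNorm z).trans ?_)
    exact mul_le_one₀ hg (norm_nonneg _) hz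
  have hfx := hle f hf1 x hx.le
  have hfv := hle f hf1 v hv1
  rw [map_add] at hf2'
  set ψ0 := f + φ with hψ0
  have hψ0v : 2 - 2 * κ ≤ ψ0 v := by
    show 2 - 2 * κ ≤ f v + φ v
    linarith
  have hψ0n : 2 - 2 * κ ≤ ‖ψ0‖ := by
    have h1 := (le_abs_self _).trans (ψ0.le_opNorm v)
    have h2 := mul_le_of_le_one_right (norm_nonneg ψ0) hv1
    linarith
  have hψ00 : 0 < ‖ψ0‖ := by linarith
  refine ⟨‖ψ0‖⁻¹ • ψ0, κ, by rw [norm_smul, norm_inv, norm_norm, inv_mul_cancel₀ hψ00.ne'], hκ0,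
    fun z hz hzψ => ?_⟩
  have h1 : (1 - κ) * ‖ψ0‖ < ψ0 z := by
    have h2 : 1 - κ < ‖ψ0‖⁻¹ * ψ0 z := hzψ
    rw [inv_mul_eq_div, lt_div_iff₀ hψ00] at h2
    exact h2
  have h2 : 2 - 4 * κ ≤ (1 - κ) * ‖ψ0‖ := by nlinarith
  have h3 : 2 - 4 * κ < f z + φ z := lt_of_le_of_lt h2 h1
  have h4 := hle f hf1 z hz
  have h5 := hle φ hφ.le z hz
  refine ⟨by linarith, ?_⟩
  have h6 : f (x + z) ≤ ‖x + z‖ := by
    refine (le_abs_self _).trans ((f.le_opNorm _).trans ?_)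
    exact mul_le_of_le_one_left (norm_nonneg _) hf1
  rw [map_add] at h6
  linarith

/-- the Daugavet property implies octahedrality -/
theorem octTuple_of_daugavet [Nontrivial Y] (hD : Daugavet Y) : OctTuple Y := by
  intro S hS ε hε
  have key : ∀ (l : List Y), (∀ x ∈ l, ‖x‖ = 1) → ∃ (ψ : Y →L[ℝ] ℝ) (β : ℝ), ‖ψ‖ = 1 ∧ 0 < β ∧
      ∀ z : Y, ‖z‖ ≤ 1 → 1 - β < ψ z → ∀ x ∈ l, 2 - ε ≤ ‖x + z‖ := by
    intro l
    induction l with
    | nil =>
      intro _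
      obtain ⟨x, hx⟩ := exists_ne (0 : Y)
      obtain ⟨φ, hφ, -⟩ := exists_dual_vector ℝ x (norm_ne_zero_iff.2 hx)
      exact ⟨φ, 1, hφ, one_pos, fun z _ _ x hx => by simp at hx⟩
    | cons x l ih =>
      intro hl
      obtain ⟨φ, α, hφ, hα, h1⟩ := ih fun x' hx' => hl x' (List.mem_cons_of_mem _ hx')
      obtain ⟨ψ, β, hψ, hβ, h2⟩ := slice_step hD (hl x List.mem_cons_self) hφ hα hε
      refine ⟨ψ, β, hψ, hβ, fun z hz hzψ x' hx' => ?_⟩
      obtain ⟨h3, h4⟩ := h2 z hz hzψ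
      rcases List.mem_cons.1 hx' with rfl | hx'
      · exact h4
      · exact h1 z hz h3 x' hx'
  obtain ⟨ψ, β, hψ, hβ, h⟩ := key S.toList fun x hx => hS x (Finset.mem_toList.1 hx)
  obtain ⟨z, hz1, hz2⟩ := ψ.exists_lt_apply_of_lt_opNorm (show 1 - β < ‖ψ‖ by rw [hψ]; linarith)
  rw [Real.norm_eq_abs] at hz2
  rcases lt_abs.1 hz2 with h1 | h1
  · exact ⟨z, hz1.le, fun x hx => h z hz1.le h1 x (Finset.mem_toList.2 hx)⟩
  · refine ⟨-z, by rw [norm_neg]; exact hz1.le, fun x hx => h (-z) (by rw [norm_neg]; exact hz1.le)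
      (by rwa [map_neg]) x (Finset.mem_toList.2 hx)⟩

end Pool.Agent.R280.Oct
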