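import Pool.Agent.R280.FBL
import Pool.Agent.R280.Octa
import Pool.Agent.R280.L1Inj
import Pool.Agent.R280.Dominate

/-!
Octahedrality of free Banach lattices over Daugavet `L_1`-preduals.
-/

set_option autoImplicit false
set_option linter.unusedSectionVars false

open Set Topology Filter MeasureTheory

universe u v w

namespace Pool.Agent.R280.Oct

open Pool.Agent.R280.BLat Pool.Agent.R280.Lip

variable {E : Type u} [NormedAddCommGroup E] [NormedSpace ℝ E]

/-- lattice polynomials are Lipschitz -/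
lemma gen_lip {g : (E →L[ℝ] ℝ) → ℝ} (hg : IsGen E g) :
    ∃ (K : ℝ) (S : Finset E), 0 ≤ K ∧
      ∀ u u' : E →L[ℝ] ℝ, |g u - g u'| ≤ K * ∑ x ∈ S, |u x - u' x| := by
  classical
  have hmono : ∀ (S T : Finset E) (ξ ξ' : E →L[ℝ] ℝ), S ⊆ T →
      ∑ a ∈ S, |ξ a - ξ' a| ≤ ∑ a ∈ T, |ξ a - ξ' a| := fun S T ξ ξ' h =>
    Finset.sum_le_sum_of_subset_of_nonneg h fun _ _ _ => abs_nonneg _
  have hcomb : ∀ (K1 K2 : ℝ) (S1 S2 : Finset E) (ξ ξ' : E →L[ℝ] ℝ), 0 ≤ K1 → 0 ≤ K2 →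
      K1 * ∑ a ∈ S1, |ξ a - ξ' a| + K2 * ∑ a ∈ S2, |ξ a - ξ' a| ≤
        (K1 + K2) * ∑ a ∈ S1 ∪ S2, |ξ a - ξ' a| := by
    intro K1 K2 S1 S2 ξ ξ' h1 h2
    rw [add_mul]
    exact add_le_add (mul_le_mul_of_nonneg_left (hmono _ _ _ _ Finset.subset_union_left) h1)
      (mul_le_mul_of_nonneg_left (hmono _ _ _ _ Finset.subset_union_right) h2)
  induction hg with
  | delta b => exact ⟨1, {b}, zero_le_one, fun ξ ξ' => by simp⟩
  | add f g _ _ h1 h2 =>
    obtain ⟨K1, S1, hK1, h1⟩ := h1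
    obtain ⟨K2, S2, hK2, h2⟩ := h2
    refine ⟨K1 + K2, S1 ∪ S2, add_nonneg hK1 hK2, fun ξ ξ' => ?_⟩
    rw [Pi.add_apply, Pi.add_apply, add_sub_add_comm]
    exact (abs_add_le _ _).trans ((add_le_add (h1 ξ ξ') (h2 ξ ξ')).trans
      (hcomb _ _ _ _ _ _ hK1 hK2))
  | smul c f _ h1 =>
    obtain ⟨K1, S1, hK1, h1⟩ := h1
    refine ⟨|c| * K1, S1, mul_nonneg (abs_nonneg _) hK1, fun ξ ξ' => ?_⟩
    rw [Pi.smul_apply, Pi.smul_apply, ← smul_sub, smul_eq_mul, abs_mul, mul_assoc]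
    exact mul_le_mul_of_nonneg_left (h1 ξ ξ') (abs_nonneg c)
  | sup f g _ _ h1 h2 =>
    obtain ⟨K1, S1, hK1, h1⟩ := h1
    obtain ⟨K2, S2, hK2, h2⟩ := h2
    refine ⟨K1 + K2, S1 ∪ S2, add_nonneg hK1 hK2, fun ξ ξ' => ?_⟩
    rw [Pi.sup_apply, Pi.sup_apply]
    refine (abs_max_sub_max_le_max _ _ _ _).trans (le_trans ?_ (hcomb _ _ _ _ _ _ hK1 hK2))
    refine (max_le_add_of_nonneg (abs_nonneg _) (abs_nonneg _)).trans
      (add_le_add (h1 ξ ξ') (h2 ξ ξ'))

/-- extension operators -/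
lemma exists_B {Ω : Type v} [MeasurableSpace Ω] {μ : Measure Ω}
    (e : StrongDual ℝ E ≃ₗᵢ[ℝ] Lp ℝ 1 μ) (F : Submodule ℝ E) (x0 x1 p q : E) (hp : ‖p‖ ≤ 1)
    (hq : ‖q‖ ≤ 1) {κ : ℝ} (hκ : 0 < κ)
    (h : ∀ u ∈ F, ∀ s t : ℝ, κ * (‖u‖ + |s| + |t|) ≤ ‖u + s • x0 + t • x1‖) :
    ∃ B : E →ₗ[ℝ] StrongDual ℝ (StrongDual ℝ E), (∀ u ∈ F, ∀ v : StrongDual ℝ E, B u v = v u) ∧
      (∀ v : StrongDual ℝ E, B x0 v = v p) ∧ (∀ v : StrongDual ℝ E, B x1 v = v q) ∧
      ∀ x, ‖B x‖ ≤ κ⁻¹ * ‖x‖ := by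
  let ι : (F × ℝ × ℝ) →ₗ[ℝ] E :=
    { toFun := fun z => (z.1 : E) + z.2.1 • x0 + z.2.2 • x1
      map_add' := fun z z' => by
        show ((z.1 + z'.1 : F) : E) + (z.2.1 + z'.2.1) • x0 + (z.2.2 + z'.2.2) • x1 = _
        rw [Submodule.coe_add, add_smul, add_smul]; abel
      map_smul' := fun c z => by
        show ((c • z.1 : F) : E) + (c * z.2.1) • x0 + (c * z.2.2) • x1 = c • _
        rw [Submodule.coe_smul, smul_add, smul_add, mul_smul, mul_smul] }
  let T0 : (F × ℝ × ℝ) →ₗ[ℝ] E :=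
    { toFun := fun z => (z.1 : E) + z.2.1 • p + z.2.2 • q
      map_add' := fun z z' => by
        show ((z.1 + z'.1 : F) : E) + (z.2.1 + z'.2.1) • p + (z.2.2 + z'.2.2) • q = _
        rw [Submodule.coe_add, add_smul, add_smul]; abel
      map_smul' := fun c z => by
        show ((c • z.1 : F) : E) + (c * z.2.1) • p + (c * z.2.2) • q = c • _
        rw [Submodule.coe_smul, smul_add, smul_add, mul_smul, mul_smul] }
  have hinj : Function.Injective ι := by
    rw [← LinearMap.ker_eq_bot, LinearMap.ker_eq_bot']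
    rintro ⟨u, s, t⟩ hz
    have h1 := h u u.2 s t
    have h2 : (u : E) + s • x0 + t • x1 = 0 := hz
    rw [h2, norm_zero] at h1
    have h3 : ‖(u : E)‖ + |s| + |t| ≤ 0 := by
      by_contra hc
      push Not at hc
      exact absurd h1 (not_le.2 (mul_pos hκ hc))
    have h4 := norm_nonneg (u : E)
    have h5 := abs_nonneg s
    have h6 := abs_nonneg t
    have h7 : ‖(u : E)‖ = 0 := by linarith
    have h8 : |s| = 0 := by linarith
    have h9 : |t| = 0 := by linarith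
    rw [Prod.mk_eq_zero, Prod.mk_eq_zero]
    exact ⟨Subtype.ext (norm_eq_zero.1 h7), abs_eq_zero.1 h8, abs_eq_zero.1 h9⟩
  let eq : (F × ℝ × ℝ) ≃ₗ[ℝ] LinearMap.range ι := LinearEquiv.ofInjective ι hinj
  let J : E →ₗ[ℝ] StrongDual ℝ (StrongDual ℝ E) :=
    (NormedSpace.inclusionInDoubleDual ℝ E).toLinearMap
  have hJ : ∀ (x : E) (v : StrongDual ℝ E), J x v = v x := fun x v =>
    NormedSpace.dual_def ℝ E x v
  have hJn : ∀ x : E, ‖J x‖ ≤ ‖x‖ := fun x => NormedSpace.double_dual_bound ℝ E x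
  have heq : ∀ z : F × ℝ × ℝ, ((eq z : LinearMap.range ι) : E) = ι z := fun z => rfl
  obtain ⟨B, hB, hBn⟩ := exists_extension e (LinearMap.range ι)
    ((J ∘ₗ T0) ∘ₗ eq.symm.toLinearMap) (inv_nonneg.2 hκ.le) (fun g => by
      obtain ⟨z, rfl⟩ := eq.surjective g
      obtain ⟨u, s, t⟩ := z
      show ‖J (T0 (eq.symm (eq (u, s, t))))‖ ≤ κ⁻¹ * ‖ι (u, s, t)‖
      rw [LinearEquiv.symm_apply_apply]
      refine (hJn _).trans ?_
      rw [le_inv_mul_iff₀ hκ]
      refine le_trans (mul_le_mul_of_nonneg_left ?_ hκ.le) (h u u.2 s t)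
      show ‖(u : E) + s • p + t • q‖ ≤ _
      refine (norm_add₃_le).trans (add_le_add (add_le_add le_rfl ?_) ?_)
      · rw [norm_smul, Real.norm_eq_abs]
        exact mul_le_of_le_one_right (abs_nonneg _) hp
      · rw [norm_smul, Real.norm_eq_abs]
        exact mul_le_of_le_one_right (abs_nonneg _) hq)
  have hB' : ∀ z : F × ℝ × ℝ, B (ι z) = J (T0 z) := by
    intro z
    have h1 := hB (eq z)
    rw [heq] at h1
    rw [h1]
    show J (T0 (eq.symm (eq z))) = _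
    rw [LinearEquiv.symm_apply_apply]
  refine ⟨B, fun u hu v => ?_, fun v => ?_, fun v => ?_, hBn⟩
  · have h1 := hB' (⟨u, hu⟩, 0, 0)
    have h2 : ι (⟨u, hu⟩, 0, 0) = u := by
      show u + (0 : ℝ) • x0 + (0 : ℝ) • x1 = u
      rw [zero_smul, zero_smul, add_zero, add_zero]
    have h3 : T0 (⟨u, hu⟩, 0, 0) = u := by
      show u + (0 : ℝ) • p + (0 : ℝ) • q = u
      rw [zero_smul, zero_smul, add_zero, add_zero]
    rw [h2, h3] at h1
    rw [h1, hJ]
  · have h1 := hB' (0, 1, 0)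
    have h2 : ι (0, 1, 0) = x0 := by
      show ((0 : F) : E) + (1 : ℝ) • x0 + (0 : ℝ) • x1 = x0
      rw [zero_smul, one_smul, add_zero, Submodule.coe_zero, zero_add]
    have h3 : T0 (0, 1, 0) = p := by
      show ((0 : F) : E) + (1 : ℝ) • p + (0 : ℝ) • q = p
      rw [zero_smul, one_smul, add_zero, Submodule.coe_zero, zero_add]
    rw [h2, h3] at h1
    rw [h1, hJ]
  · have h1 := hB' (0, 0, 1)
    have h2 : ι (0, 0, 1) = x1 := by
      show ((0 : F) : E) + (0 : ℝ) • x0 + (1 : ℝ) • x1 = x1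
      rw [zero_smul, one_smul, add_zero, Submodule.coe_zero, zero_add]
    have h3 : T0 (0, 0, 1) = q := by
      show ((0 : F) : E) + (0 : ℝ) • p + (1 : ℝ) • q = q
      rw [zero_smul, one_smul, add_zero, Submodule.coe_zero, zero_add]
    rw [h2, h3] at h1
    rw [h1, hJ]

/-- the weights are bounded by one on the bidual ball -/
lemma pr_bidual {w : (E →L[ℝ] ℝ) →₀ ℝ} (hw : w ∈ fblW E) (φ : StrongDual ℝ (StrongDual ℝ E)) :
    pr w (fun v => φ v) ≤ ‖φ‖ := by
  classical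
  let s : (E →L[ℝ] ℝ) → ℝ := fun v => if 0 ≤ φ v then 1 else -1
  have hs : ∀ v, s v * φ v = |φ v| := by
    intro v
    show (if 0 ≤ φ v then (1 : ℝ) else -1) * φ v = |φ v|
    split_ifs with h
    · rw [one_mul, abs_of_nonneg h]
    · rw [abs_of_neg (not_le.1 h)]; ring
  have hs1 : ∀ v, |s v| = 1 := by
    intro v
    show |if 0 ≤ φ v then (1 : ℝ) else -1| = 1
    split_ifs <;> simp
  let ψ : E →L[ℝ] ℝ := ∑ v ∈ w.support, (w v * s v) • v
  have hψ : ‖ψ‖ ≤ 1 := by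
    refine ContinuousLinearMap.opNorm_le_bound _ zero_le_one fun x => ?_
    rw [one_mul]
    refine le_trans ?_ (pr_delta_le hw x)
    have h1 : ψ x = ∑ v ∈ w.support, (w v * s v) * v x := by
      show (∑ v ∈ w.support, (w v * s v) • v) x = _
      rw [_root_.sum_apply]
      rfl
    rw [h1, Real.norm_eq_abs, pr_eq]
    refine (Finset.abs_sum_le_sum_abs _ _).trans (Finset.sum_le_sum fun v _ => ?_)
    rw [abs_mul, abs_mul, hs1, mul_one, abs_of_nonneg (hw.1 v)]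
  have h1 : pr w (fun v => φ v) = φ ψ := by
    show _ = φ (∑ v ∈ w.support, (w v * s v) • v)
    rw [map_sum, pr_eq]
    refine Finset.sum_congr rfl fun v _ => ?_
    rw [map_smul, smul_eq_mul, mul_assoc, hs]
  rw [h1]
  refine (le_abs_self _).trans ((φ.le_opNorm ψ).trans ?_)
  exact mul_le_of_le_one_right (norm_nonneg _) hψ

/-- `δ_x` -/
noncomputable def dl (x : E) : (FBL E).Space := FLat.of (fun u => u x) (mem_of_isGen (IsGen.delta x))

/-- the test element -/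
noncomputable def yy (K : ℝ) (x0 x1 : E) : (FBL E).Space := (K • dl x1 ⊓ |dl x0|) ⊔ (-|dl x0|)

lemma yy_fn (K : ℝ) (x0 x1 : E) (u : E →L[ℝ] ℝ) :
    (yy K x0 x1).fn u = max (min (K * u x1) |u x0|) (-|u x0|) := rfl

lemma norm_yy (K : ℝ) (x0 x1 : E) : ‖yy K x0 x1‖ ≤ ‖x0‖ := by
  refine FLat.norm_le_of _ (norm_nonneg _) fun w hw => ?_
  refine le_trans (pr_mono hw.1 fun u => ?_) (pr_delta_le hw x0)
  rw [yy_fn, abs_le]
  exact ⟨le_max_right _ _, max_le (min_le_right _ _) (by linarith [abs_nonneg (u x0)])⟩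

lemma clamp_eq {a K : ℝ} (h : |a| ≤ K) : max (min K |a|) (-|a|) = |a| := by
  rw [min_eq_right h, max_eq_left]
  linarith [abs_nonneg a]

lemma clamp_eq_neg {a K : ℝ} (h : |a| ≤ K) : max (min (-K) |a|) (-|a|) = -|a| := by
  have h1 := abs_nonneg a
  rw [min_eq_left (by linarith), max_eq_right (by linarith)]

/-- the local step: a single element of the unit sphere of `FBL[E]` -/
theorem local_step {Ω : Type v} [MeasurableSpace Ω] {μ : Measure Ω}
    (hfin : ¬ FiniteDimensional ℝ E) (e : StrongDual ℝ E ≃ₗᵢ[ℝ] Lp ℝ 1 μ) (f : (FBL E).Space)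
    (hf : ‖f‖ = 1) {ε : ℝ} (hε : 0 < ε) (hε1 : ε ≤ 1 / 10) :
    ∃ (S : Finset E) (R : ℝ), 0 ≤ R ∧ ∀ K : ℝ, R ≤ K → ∀ (F : Submodule ℝ E) (x0 x1 : E),
      (∀ x ∈ S, x ∈ F) →
      (∀ u ∈ F, ∀ s t : ℝ, (1 - ε) * (‖u‖ + |s| + |t|) ≤ ‖u + s • x0 + t • x1‖) →
      2 - 11 * ε ≤ ‖f + yy K x0 x1‖ := by
  classical
  obtain ⟨g, hg, hgf⟩ := f.2 ε hε
  have hgf' : ∀ w ∈ fblW E, pr w (f.fn - g) ≤ ε := hgf
  have habs : ∀ (w : (E →L[ℝ] ℝ) →₀ ℝ), pr w (g - f.fn) = pr w (f.fn - g) := by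
    intro w
    rw [pr_eq, pr_eq]
    refine Finset.sum_congr rfl fun v _ => ?_
    rw [Pi.sub_apply, Pi.sub_apply, abs_sub_comm]
  have hg1 : ∀ w ∈ fblW E, pr w g ≤ 1 + ε := by
    intro w hw
    have h1 := pr_add_le hw.1 f.fn (g - f.fn)
    rw [add_sub_cancel, habs] at h1
    have h2 := FLat.pr_le f (w := w) hw
    rw [hf] at h2
    linarith [hgf' w hw]
  obtain ⟨w, hw, hwg⟩ : ∃ w ∈ fblW E, 1 - 2 * ε < pr w g := by
    by_contra hcon
    push Not at hcon
    have h1 : ‖f‖ ≤ 1 - ε := by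
      refine FLat.norm_le_of f (by linarith) fun w hw => ?_
      have h2 := pr_add_le (x := f.fn - g) (y := g) (hw : w ∈ fblW E).1
      rw [sub_add_cancel] at h2
      linarith [hgf' w hw, hcon w hw]
    rw [hf] at h1
    linarith
  obtain ⟨p, hp, hwp⟩ : ∃ p : E, ‖p‖ ≤ 1 ∧ 1 - 3 * ε < pr w (fun v => v p) := by
    by_contra hcon
    push Not at hcon
    have hc : 0 < 1 - 3 * ε := by linarith
    have h1 : (1 - 3 * ε)⁻¹ • w ∈ fblW E := by
      refine ⟨fun v => mul_nonneg (inv_nonneg.2 hc.le) (hw.1 v), fun x hx => ?_⟩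
      rw [pr_smul_weight, inv_mul_le_iff₀ hc, mul_one]
      exact hcon x hx
    have h2 := hg1 _ h1
    rw [pr_smul_weight, inv_mul_le_iff₀ hc] at h2
    nlinarith [mul_pos hε hε]
  obtain ⟨q, hq, hq0⟩ := exists_common_zero hfin w.support
  have hq0' : ‖q‖ ≠ 0 := by rw [hq]; exact one_ne_zero
  obtain ⟨e', he', heq⟩ := exists_dual_vector ℝ q hq0'
  have heq' : e' q = 1 := by
    rw [heq, hq]; simp
  obtain ⟨Kg, S, hKg, hlip⟩ := gen_lip hg
  set W : ℝ := ∑ v ∈ w.support, w v with hWdef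
  have hW : 0 ≤ W := Finset.sum_nonneg fun v _ => hw.1 v
  set K' : ℝ := Kg * ∑ x ∈ S, ‖x‖ with hK'def
  have hK' : 0 ≤ K' := mul_nonneg hKg (Finset.sum_nonneg fun _ _ => norm_nonneg _)
  set η : ℝ := ε / ((1 + K') * (1 + W)) with hηdef
  have hη : 0 < η := div_pos hε (by positivity)
  have hηeq : η * ((1 + K') * (1 + W)) = ε := by
    rw [hηdef, div_mul_cancel₀]
    positivity
  have hη1 : η * (1 + K') * W ≤ ε := by
    rw [← hηeq, mul_assoc]
    refine mul_le_mul_of_nonneg_left (mul_le_mul_of_nonneg_left ?_ (by linarith)) hη.le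
    linarith
  have hη2 : η * W ≤ ε := by
    refine le_trans (mul_le_mul_of_nonneg_right ?_ hW) hη1
    have : 0 ≤ η * K' := mul_nonneg hη.le hK'
    linarith
  refine ⟨S, (∑ v ∈ w.support, ‖v‖ + η) / η, div_nonneg (add_nonneg
    (Finset.sum_nonneg fun _ _ => norm_nonneg _) hη.le) hη.le, fun K hK F x0 x1 hSF hκ => ?_⟩
  have hKη : ∀ v ∈ w.support, ‖v‖ + η ≤ K * η := by
    intro v hv
    rw [div_le_iff₀ hη] at hK
    refine le_trans (add_le_add ?_ le_rfl) hK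
    exact Finset.single_le_sum (f := fun v : E →L[ℝ] ℝ => ‖v‖) (fun _ _ => norm_nonneg _) hv
  have hκ0 : 0 < 1 - ε := by linarith
  obtain ⟨B, hBF, hB0, hB1, hBn⟩ := exists_B e F x0 x1 p q hp hq.le hκ0 hκ
  let s : (E →L[ℝ] ℝ) → ℝ := fun v => if 0 ≤ g v then 1 else -1
  have hs1 : ∀ v, |s v| = 1 := by
    intro v
    show |if 0 ≤ g v then (1 : ℝ) else -1| = 1
    split_ifs <;> simp
  have hsum : ∀ v (a : ℝ), 0 ≤ a → |g v + s v * a| = |g v| + a := by
    intro v a ha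
    show |g v + (if 0 ≤ g v then (1 : ℝ) else -1) * a| = |g v| + a
    split_ifs with h
    · rw [one_mul, abs_of_nonneg h, abs_of_nonneg (by linarith)]
    · push Not at h
      rw [abs_of_neg h, abs_of_nonpos (by linarith)]; ring
  let Z : (E →L[ℝ] ℝ) → (E →L[ℝ] ℝ) := fun v =>
    LinearMap.mkContinuous
      { toFun := fun x => B x (v + (η * s v) • e')
        map_add' := fun x y => by rw [map_add B]; rfl
        map_smul' := fun c x => by rw [map_smul B]; rfl }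
      ((1 - ε)⁻¹ * ‖v + (η * s v) • e'‖) (fun x => by
        refine ((B x).le_opNorm _).trans ?_
        rw [mul_right_comm]
        exact mul_le_mul_of_nonneg_right (hBn x) (norm_nonneg _))
  have hZ : ∀ v x, Z v x = B x v + η * s v * B x e' := by
    intro v x
    show B x (v + (η * s v) • e') = _
    rw [map_add, map_smul, smul_eq_mul]
  have hηW : 0 < 1 + η * W := by
    have := mul_nonneg hη.le hW
    linarith
  set D : ℝ := (1 - ε)⁻¹ * (1 + η * W) with hDdef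
  have hD : 0 < D := mul_pos (inv_pos.2 hκ0) hηW
  have hw' : D⁻¹ • Finsupp.mapDomain Z w ∈ fblW E := by
    refine ⟨fun v => mul_nonneg (inv_nonneg.2 hD.le) (mapDomain_nonneg _ hw.1 v), fun x hx => ?_⟩
    rw [pr_smul_weight, pr_mapDomain, inv_mul_le_iff₀ hD, mul_one]
    have h1 : (fun v : E →L[ℝ] ℝ => Z v x) =
        (fun v => B x v) + fun v => η * s v * B x e' := by
      funext v
      rw [hZ]; rfl
    rw [h1]
    refine (pr_add_le hw.1 _ _).trans ?_
    have h2 := pr_bidual hw (B x)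
    have h3 : pr w (fun v => η * s v * B x e') ≤ η * ‖B x‖ * W := by
      rw [pr_eq, hWdef, Finset.mul_sum]
      refine Finset.sum_le_sum fun v _ => ?_
      rw [abs_mul, abs_mul, hs1, abs_of_pos hη, mul_one, mul_comm (w v)]
      refine mul_le_mul_of_nonneg_right (mul_le_mul_of_nonneg_left ?_ hη.le) (hw.1 v)
      have h4 := (B x).le_opNorm e'
      rw [he', mul_one] at h4
      exact h4
    have h4 : ‖B x‖ ≤ (1 - ε)⁻¹ :=
      (hBn x).trans (mul_le_of_le_one_right (inv_nonneg.2 hκ0.le) hx)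
    calc pr w (fun v => B x v) + pr w (fun v => η * s v * B x e')
        ≤ ‖B x‖ + η * ‖B x‖ * W := add_le_add h2 h3
      _ = ‖B x‖ * (1 + η * W) := by ring
      _ ≤ (1 - ε)⁻¹ * (1 + η * W) := mul_le_mul_of_nonneg_right h4 hηW.le
  -- the lower bound
  have hpt : ∀ v ∈ w.support, |g v| + |v p| - η * (1 + K') ≤
      |g (Z v) + (yy K x0 x1).fn (Z v)| := by
    intro v hv
    have hZ0 : Z v x0 = v p + η * s v * e' p := by rw [hZ, hB0, hB0]
    have hZ1 : Z v x1 = η * s v := by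
      rw [hZ, hB1, hB1, hq0 v hv, heq', mul_one, zero_add]
    have hep : |e' p| ≤ 1 := by
      have h1 := e'.le_opNorm p
      rw [he', one_mul, Real.norm_eq_abs] at h1
      exact h1.trans hp
    have hηep : |η * s v * e' p| ≤ η := by
      rw [abs_mul, abs_mul, hs1, abs_of_pos hη, mul_one]
      exact mul_le_of_le_one_right hη.le hep
    have hZ0le : |Z v x0| ≤ K * η := by
      refine le_trans ?_ (hKη v hv)
      rw [hZ0]
      refine (abs_add_le _ _).trans (add_le_add ?_ hηep)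
      have h1 := v.le_opNorm p
      rw [Real.norm_eq_abs] at h1
      exact h1.trans (mul_le_of_le_one_right (norm_nonneg _) hp)
    have hyZ : (yy K x0 x1).fn (Z v) = s v * |Z v x0| := by
      rw [yy_fn, hZ1]
      show max (min (K * (η * (if 0 ≤ g v then (1 : ℝ) else -1))) |Z v x0|) (-|Z v x0|) =
        (if 0 ≤ g v then (1 : ℝ) else -1) * |Z v x0|
      split_ifs with h
      · rw [mul_one, one_mul]
        exact clamp_eq hZ0le
      · rw [mul_neg, mul_one, mul_neg, neg_one_mul]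
        exact clamp_eq_neg hZ0le
    have hgZ : |g (Z v) - g v| ≤ η * K' := by
      refine (hlip _ _).trans ?_
      rw [hK'def, mul_left_comm]
      refine mul_le_mul_of_nonneg_left ?_ hKg
      rw [Finset.mul_sum]
      refine Finset.sum_le_sum fun x hx => ?_
      rw [hZ, hBF x (hSF x hx), hBF x (hSF x hx), add_sub_cancel_left, abs_mul, abs_mul, hs1,
        abs_of_pos hη, mul_one]
      refine mul_le_mul_of_nonneg_left ?_ hη.le
      have h1 := e'.le_opNorm x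
      rwa [he', one_mul, Real.norm_eq_abs] at h1
    have hZp : |v p| - η ≤ |Z v x0| := by
      have h1 : v p = Z v x0 - η * s v * e' p := by rw [hZ0]; ring
      have h2 := abs_sub (Z v x0) (η * s v * e' p)
      rw [← h1] at h2
      linarith
    have h1 : |g v| + |Z v x0| = |(g v + s v * |Z v x0|)| := (hsum v _ (abs_nonneg _)).symm
    have h2 : g v + s v * |Z v x0| =
        (g (Z v) + (yy K x0 x1).fn (Z v)) - (g (Z v) - g v) := by rw [hyZ]; ring
    have h3 := abs_sub (g (Z v) + (yy K x0 x1).fn (Z v)) (g (Z v) - g v)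
    rw [← h2, ← h1] at h3
    linarith
  have hlow : 2 - 6 * ε ≤ pr w (fun v => (g + (yy K x0 x1).fn) (Z v)) := by
    have h1 : pr w g + pr w (fun v => v p) - η * (1 + K') * W ≤
        pr w (fun v => (g + (yy K x0 x1).fn) (Z v)) := by
      rw [pr_eq, pr_eq, pr_eq, hWdef, Finset.mul_sum, ← Finset.sum_add_distrib,
        ← Finset.sum_sub_distrib]
      refine Finset.sum_le_sum fun v hv => ?_
      have h2 := mul_le_mul_of_nonneg_left (hpt v hv) (hw.1 v)
      rw [Pi.add_apply]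
      linarith
    linarith
  have hfin' : D⁻¹ * (2 - 6 * ε) - ε ≤ ‖f + yy K x0 x1‖ := by
    refine le_trans ?_ (FLat.pr_le (f + yy K x0 x1) (w := D⁻¹ • Finsupp.mapDomain Z w) hw')
    have h1 := pr_add_le hw'.1 (f + yy K x0 x1).fn (g - f.fn)
    have h2 : (f + yy K x0 x1).fn + (g - f.fn) = g + (yy K x0 x1).fn := by
      have h3 : (f + yy K x0 x1).fn = f.fn + (yy K x0 x1).fn := rfl
      rw [h3]; abel
    rw [h2, habs] at h1
    have h3 := hgf' _ hw'
    have h4 : pr (D⁻¹ • Finsupp.mapDomain Z w) (g + (yy K x0 x1).fn) =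
        D⁻¹ * pr w (fun v => (g + (yy K x0 x1).fn) (Z v)) := by
      rw [pr_smul_weight, pr_mapDomain]
    rw [h4] at h1
    have h5 := mul_le_mul_of_nonneg_left hlow (inv_nonneg.2 hD.le)
    linarith
  have hDinv : 1 - 2 * ε ≤ D⁻¹ := by
    rw [le_inv_comm₀ (by linarith) hD, hDdef, inv_mul_le_iff₀ hκ0, ← div_eq_mul_inv,
      le_div_iff₀ (by linarith)]
    nlinarith [mul_pos hε hε, mul_nonneg hη.le hW]
  have h6 : (1 - 2 * ε) * (2 - 6 * ε) ≤ D⁻¹ * (2 - 6 * ε) :=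
    mul_le_mul_of_nonneg_right hDinv (by linarith)
  nlinarith [mul_pos hε hε]

/-- the free Banach lattice over a Daugavet `L_1`-predual is octahedral -/
theorem octTuple_FBL {Ω : Type v} [MeasurableSpace Ω] {μ : Measure Ω} [Nontrivial E]
    (e : StrongDual ℝ E ≃ₗᵢ[ℝ] Lp ℝ 1 μ) (hD : Octahedral E) : OctTuple (FBL E).Space := by
  classical
  intro T hT ε' hε'
  have hfin := hD.not_finiteDimensional
  set ε := min (ε' / 11) (1 / 10) with hεdef
  have hε : 0 < ε := lt_min (by positivity) (by norm_num)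
  have hε1 : ε ≤ 1 / 10 := min_le_right _ _
  have hε2 : 11 * ε ≤ ε' := by
    have : ε ≤ ε' / 11 := min_le_left _ _
    linarith
  have key : ∀ f : T, ∃ (S : Finset E) (R : ℝ), 0 ≤ R ∧ ∀ K : ℝ, R ≤ K →
      ∀ (F : Submodule ℝ E) (x0 x1 : E), (∀ x ∈ S, x ∈ F) →
      (∀ u ∈ F, ∀ s t : ℝ, (1 - ε) * (‖u‖ + |s| + |t|) ≤ ‖u + s • x0 + t • x1‖) →
      2 - 11 * ε ≤ ‖(f : (FBL E).Space) + yy K x0 x1‖ := fun f =>
    local_step hfin e f (hT f f.2) hε hε1
  choose S R hR hmain using key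
  let S' : Finset E := T.attach.biUnion S
  let F : Submodule ℝ E := Submodule.span ℝ (S' : Set E)
  have hFfin : FiniteDimensional ℝ F := FiniteDimensional.span_finset ℝ S'
  obtain ⟨x0, hx0, h0⟩ := hD F (ε / 2) (by positivity)
  let F1 : Submodule ℝ E := F ⊔ Submodule.span ℝ {x0}
  have hF1fin : FiniteDimensional ℝ F1 := by
    have : FiniteDimensional ℝ (Submodule.span ℝ {x0}) :=
      FiniteDimensional.span_singleton ℝ x0
    exact Submodule.finiteDimensional_sup F (Submodule.span ℝ {x0})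
  obtain ⟨x1, hx1, h1⟩ := hD F1 (ε / 2) (by positivity)
  have hboth : ∀ u ∈ F, ∀ s t : ℝ, (1 - ε) * (‖u‖ + |s| + |t|) ≤ ‖u + s • x0 + t • x1‖ := by
    intro u hu s t
    have h2 := h1 (u + s • x0) (Submodule.add_mem_sup hu
      (Submodule.smul_mem _ _ (Submodule.mem_span_singleton_self _))) t
    have h3 := h0 u hu s
    refine le_trans ?_ h2
    have h4 : 0 ≤ 1 - ε / 2 := by linarith
    have h5 : (1 - ε / 2) * ((1 - ε / 2) * (‖u‖ + |s|) + |t|) ≤
        (1 - ε / 2) * (‖u + s • x0‖ + |t|) :=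
      mul_le_mul_of_nonneg_left (by linarith) h4
    refine le_trans ?_ h5
    have h6 : 0 ≤ ‖u‖ + |s| := by positivity
    have h7 : 0 ≤ |t| := abs_nonneg t
    nlinarith [mul_nonneg (mul_nonneg hε.le hε.le) h6, mul_nonneg hε.le h7]
  refine ⟨yy (∑ f ∈ T.attach, R f) x0 x1, (norm_yy _ _ _).trans hx0.le, fun f hf => ?_⟩
  have h2 := hmain ⟨f, hf⟩ (∑ f ∈ T.attach, R f)
    (Finset.single_le_sum (f := R) (fun f _ => hR f) (Finset.mem_attach T ⟨f, hf⟩)) F x0 x1
    (fun x hx => Submodule.subset_span (Finset.mem_coe.2 (Finset.mem_biUnion.2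
      ⟨⟨f, hf⟩, Finset.mem_attach T _, hx⟩))) hboth
  have h3 : 2 - 11 * ε ≤ ‖f + yy (∑ f ∈ T.attach, R f) x0 x1‖ := h2
  linarith

instance [Nontrivial E] : Nontrivial (FBL E).Space := by
  obtain ⟨x, hx⟩ := exists_ne (0 : E)
  obtain ⟨φ, -, hφ⟩ := exists_dual_vector ℝ x (norm_ne_zero_iff.2 hx)
  refine ⟨⟨dl x, 0, fun h => ?_⟩⟩
  have h1 : (dl x).fn φ = 0 := by rw [h]; rfl
  have h2 : φ x = 0 := h1
  rw [hφ] at h2
  apply hx
  have h3 : ‖x‖ = 0 := by simpa using h2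
  exact norm_eq_zero.1 h3

end Pool.Agent.R280.Oct
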