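import Pool.Agent.R280.BLat

/-!
Banach lattices of functions on a set `I`: the norm is the supremum of weighted `ℓ_1`-norms over a
set of finitely supported weights.
-/

set_option autoImplicit false
set_option linter.unusedSectionVars false

open Set Topology Filter

universe u

namespace Pool.Agent.R280.BLat

/-- the weighted norm `∑ w_i |x_i|` -/
noncomputable def pr {I : Type u} (w : I →₀ ℝ) (x : I → ℝ) : ℝ := w.sum fun i c => c * |x i|

/-- The data of a Banach lattice of functions on `I`: a space `S` of functions which contains `|x|`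
with `x`, and a set `W` of finitely supported nonnegative weights `w`; the norm of `x ∈ S` is the
supremum of the sums `∑ w_i |x_i|`, `w ∈ W`. -/
structure FLat (I : Type u) where
  /-- the functions -/
  S : Submodule ℝ (I → ℝ)
  /-- the weights -/
  W : Set (I →₀ ℝ)
  abs_mem : ∀ x ∈ S, |x| ∈ S
  W_nonneg : ∀ w ∈ W, ∀ i, 0 ≤ w i
  W_sep : ∀ i, ∃ w ∈ W, 0 < w i
  bdd : ∀ x ∈ S, ∃ C : ℝ, ∀ w ∈ W, pr w x ≤ C
  closed : ∀ x : I → ℝ, (∀ ε : ℝ, 0 < ε → ∃ y ∈ S, ∀ w ∈ W, pr w (x - y) ≤ ε) → x ∈ S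

variable {I : Type u}

lemma pr_eq (w : I →₀ ℝ) (x : I → ℝ) : pr w x = ∑ i ∈ w.support, w i * |x i| := rfl

lemma pr_nonneg {w : I →₀ ℝ} (hw : ∀ i, 0 ≤ w i) (x : I → ℝ) : 0 ≤ pr w x :=
  Finset.sum_nonneg fun i _ => mul_nonneg (hw i) (abs_nonneg _)

lemma pr_add_le {w : I →₀ ℝ} (hw : ∀ i, 0 ≤ w i) (x y : I → ℝ) :
    pr w (x + y) ≤ pr w x + pr w y := by
  rw [pr_eq, pr_eq, pr_eq, ← Finset.sum_add_distrib]
  refine Finset.sum_le_sum fun i _ => ?_
  rw [← mul_add]
  exact mul_le_mul_of_nonneg_left (abs_add_le _ _) (hw i)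

lemma pr_smul (w : I →₀ ℝ) (c : ℝ) (x : I → ℝ) : pr w (c • x) = |c| * pr w x := by
  rw [pr_eq, pr_eq, Finset.mul_sum]
  refine Finset.sum_congr rfl fun i _ => ?_
  rw [Pi.smul_apply, smul_eq_mul, abs_mul]
  ring

lemma pr_mono {w : I →₀ ℝ} (hw : ∀ i, 0 ≤ w i) {x y : I → ℝ} (h : ∀ i, |x i| ≤ |y i|) :
    pr w x ≤ pr w y :=
  Finset.sum_le_sum fun i _ => mul_le_mul_of_nonneg_left (h i) (hw i)

lemma le_pr {w : I →₀ ℝ} (hw : ∀ i, 0 ≤ w i) (x : I → ℝ) (i : I) : w i * |x i| ≤ pr w x := by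
  by_cases hi : i ∈ w.support
  · exact Finset.single_le_sum (f := fun i => w i * |x i|)
      (fun j _ => mul_nonneg (hw j) (abs_nonneg _)) hi
  · rw [Finsupp.notMem_support_iff.1 hi, zero_mul]
    exact pr_nonneg hw x

namespace FLat

variable (L : FLat I)

/-- the space of the function lattice -/
def Space : Type u := ↥L.S

variable {L}

/-- the function -/
def Space.fn (x : L.Space) : I → ℝ := x.1

lemma Space.ext {x y : L.Space} (h : ∀ i, x.fn i = y.fn i) : x = y := Subtype.ext (funext h)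

/-- constructor -/
def of (x : I → ℝ) (hx : x ∈ L.S) : L.Space := ⟨x, hx⟩

lemma of_fn (x : I → ℝ) (hx : x ∈ L.S) (i : I) : (of x hx : L.Space).fn i = x i := rfl

noncomputable instance : AddCommGroup L.Space := inferInstanceAs (AddCommGroup ↥L.S)

noncomputable instance : Module ℝ L.Space := inferInstanceAs (Module ℝ ↥L.S)

noncomputable instance : Norm L.Space := ⟨fun x => ⨆ w : L.W, pr (w : I →₀ ℝ) x.fn⟩

@[simp] lemma add_fn (x y : L.Space) (i : I) : (x + y).fn i = x.fn i + y.fn i := rfl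
@[simp] lemma sub_fn (x y : L.Space) (i : I) : (x - y).fn i = x.fn i - y.fn i := rfl
@[simp] lemma neg_fn (x : L.Space) (i : I) : (-x).fn i = -x.fn i := rfl
@[simp] lemma zero_fn (i : I) : (0 : L.Space).fn i = 0 := rfl
@[simp] lemma smul_fn (c : ℝ) (x : L.Space) (i : I) : (c • x).fn i = c * x.fn i := rfl

lemma norm_def' (x : L.Space) : ‖x‖ = ⨆ w : L.W, pr (w : I →₀ ℝ) x.fn := rfl

lemma bddAbove (x : L.Space) : BddAbove (Set.range fun w : L.W => pr (w : I →₀ ℝ) x.fn) := by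
  obtain ⟨C, hC⟩ := L.bdd x.fn x.2
  refine ⟨C, ?_⟩
  rintro _ ⟨w, rfl⟩
  exact hC w w.2

lemma pr_le_norm (x : L.Space) {w : I →₀ ℝ} (hw : w ∈ L.W) : pr w x.fn ≤ ‖x‖ :=
  le_ciSup (bddAbove x) (⟨w, hw⟩ : L.W)

lemma norm_nonneg' (x : L.Space) : 0 ≤ ‖x‖ := by
  rw [norm_def']
  exact Real.iSup_nonneg fun w => pr_nonneg (L.W_nonneg w w.2) _

lemma norm_le_of' (x : L.Space) {C : ℝ} (hC : 0 ≤ C) (h : ∀ w ∈ L.W, pr w x.fn ≤ C) : ‖x‖ ≤ C := by
  rw [norm_def']
  exact Real.iSup_le (fun w => h w w.2) hC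

lemma core : NormedSpace.Core ℝ L.Space where
  norm_nonneg := norm_nonneg'
  norm_smul c x := by
    apply le_antisymm
    · refine norm_le_of' _ (mul_nonneg (norm_nonneg _) (norm_nonneg' x)) fun w hw => ?_
      have h1 : pr w (c • x).fn = |c| * pr w x.fn := pr_smul w c x.fn
      rw [h1]
      exact mul_le_mul_of_nonneg_left (pr_le_norm x hw) (abs_nonneg c)
    · rcases eq_or_ne c 0 with rfl | hc
      · rw [norm_zero, zero_mul]; exact norm_nonneg' _
      · have hc' : 0 < ‖c‖ := norm_pos_iff.2 hc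
        rw [← le_div_iff₀' hc']
        refine norm_le_of' _ (div_nonneg (norm_nonneg' _) hc'.le) fun w hw => ?_
        rw [le_div_iff₀' hc']
        have h1 : pr w (c • x).fn = |c| * pr w x.fn := pr_smul w c x.fn
        have h2 := pr_le_norm (c • x) hw
        rw [h1] at h2
        exact h2
  norm_triangle x y := by
    refine norm_le_of' _ (add_nonneg (norm_nonneg' x) (norm_nonneg' y)) fun w hw => ?_
    have h1 : pr w (x + y).fn ≤ pr w x.fn + pr w y.fn := pr_add_le (L.W_nonneg w hw) _ _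
    exact h1.trans (add_le_add (pr_le_norm x hw) (pr_le_norm y hw))
  norm_eq_zero_iff x := by
    constructor
    · intro h
      refine Space.ext fun i => ?_
      obtain ⟨w, hw, hwi⟩ := L.W_sep i
      have h1 := (le_pr (L.W_nonneg w hw) x.fn i).trans (pr_le_norm x hw)
      rw [h] at h1
      have h2 : |x.fn i| ≤ 0 := by
        by_contra hc
        push Not at hc
        exact absurd h1 (not_le.2 (mul_pos hwi hc))
      rw [zero_fn]
      exact abs_eq_zero.1 (le_antisymm h2 (abs_nonneg _))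
    · rintro rfl
      refine le_antisymm (norm_le_of' _ le_rfl fun w hw => ?_) (norm_nonneg' _)
      rw [pr_eq]
      refine (Finset.sum_eq_zero fun i _ => ?_).le
      rw [zero_fn, abs_zero, mul_zero]

noncomputable instance : NormedAddCommGroup L.Space := NormedAddCommGroup.ofCore core

noncomputable instance : NormedSpace ℝ L.Space := NormedSpace.ofCore core

lemma norm_le_of (x : L.Space) {C : ℝ} (hC : 0 ≤ C) (h : ∀ w ∈ L.W, pr w x.fn ≤ C) : ‖x‖ ≤ C :=
  norm_le_of' x hC h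

lemma pr_le (x : L.Space) {w : I →₀ ℝ} (hw : w ∈ L.W) : pr w x.fn ≤ ‖x‖ := pr_le_norm x hw

lemma sup_mem (x y : L.Space) : (fun i => x.fn i ⊔ y.fn i) ∈ L.S := by
  have h1 : (fun i => x.fn i ⊔ y.fn i) = (1 / 2 : ℝ) • (x.fn + y.fn + |y.fn - x.fn|) := by
    funext i
    simp only [Pi.smul_apply, Pi.add_apply, Pi.abs_apply, Pi.sub_apply, smul_eq_mul]
    rcases le_total (x.fn i) (y.fn i) with h | h
    · rw [sup_eq_right.2 h, abs_of_nonneg (sub_nonneg.2 h)]; ring
    · rw [sup_eq_left.2 h, abs_of_nonpos (sub_nonpos.2 h)]; ring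
  rw [h1]
  exact L.S.smul_mem _ (L.S.add_mem (L.S.add_mem x.2 y.2) (L.abs_mem _ (L.S.sub_mem y.2 x.2)))

lemma inf_mem (x y : L.Space) : (fun i => x.fn i ⊓ y.fn i) ∈ L.S := by
  have h1 : (fun i => x.fn i ⊓ y.fn i) = (1 / 2 : ℝ) • (x.fn + y.fn - |y.fn - x.fn|) := by
    funext i
    simp only [Pi.smul_apply, Pi.add_apply, Pi.abs_apply, Pi.sub_apply, smul_eq_mul]
    rcases le_total (x.fn i) (y.fn i) with h | h
    · rw [inf_eq_left.2 h, abs_of_nonneg (sub_nonneg.2 h)]; ring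
    · rw [inf_eq_right.2 h, abs_of_nonpos (sub_nonpos.2 h)]; ring
  rw [h1]
  exact L.S.smul_mem _ (L.S.sub_mem (L.S.add_mem x.2 y.2) (L.abs_mem _ (L.S.sub_mem y.2 x.2)))

noncomputable instance : Lattice L.Space where
  le x y := ∀ i, x.fn i ≤ y.fn i
  le_refl x i := le_rfl
  le_trans x y z h1 h2 i := (h1 i).trans (h2 i)
  le_antisymm x y h1 h2 := Space.ext fun i => le_antisymm (h1 i) (h2 i)
  sup x y := ⟨fun i => x.fn i ⊔ y.fn i, sup_mem x y⟩
  inf x y := ⟨fun i => x.fn i ⊓ y.fn i, inf_mem x y⟩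
  le_sup_left x y i := le_sup_left
  le_sup_right x y i := le_sup_right
  sup_le x y z h1 h2 i := sup_le (h1 i) (h2 i)
  inf_le_left x y i := inf_le_left
  inf_le_right x y i := inf_le_right
  le_inf x y z h1 h2 i := le_inf (h1 i) (h2 i)

lemma le_iff {x y : L.Space} : x ≤ y ↔ ∀ i, x.fn i ≤ y.fn i := Iff.rfl
@[simp] lemma sup_fn (x y : L.Space) (i : I) : (x ⊔ y).fn i = x.fn i ⊔ y.fn i := rfl
@[simp] lemma inf_fn (x y : L.Space) (i : I) : (x ⊓ y).fn i = x.fn i ⊓ y.fn i := rfl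
@[simp] lemma abs_fn (x : L.Space) (i : I) : |x|.fn i = |x.fn i| := rfl

instance : IsOrderedAddMonoid L.Space where
  add_le_add_left x y h z i := by
    have := h i
    simp only [add_fn]
    linarith

instance : HasSolidNorm L.Space where
  solid x y h := by
    refine norm_le_of x (norm_nonneg' y) fun w hw => ?_
    exact (pr_mono (L.W_nonneg w hw) fun i => h i).trans (pr_le y hw)

instance : PosSMulMono ℝ L.Space where
  smul_le_smul_of_nonneg_left _ hc _ _ h i := mul_le_mul_of_nonneg_left (h i) hc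

/-- evaluation at a point is continuous -/
lemma exists_eval_bound (i : I) : ∃ C : ℝ, 0 < C ∧ ∀ x : L.Space, |x.fn i| ≤ C * ‖x‖ := by
  obtain ⟨w, hw, hwi⟩ := L.W_sep i
  refine ⟨(w i)⁻¹, inv_pos.2 hwi, fun x => ?_⟩
  have h1 := (le_pr (L.W_nonneg w hw) x.fn i).trans (pr_le x hw)
  rw [inv_mul_eq_div, le_div_iff₀ hwi, mul_comm]
  exact h1

/-- evaluation -/
noncomputable def eval (i : I) : L.Space →L[ℝ] ℝ :=
  LinearMap.mkContinuousOfExistsBound
    { toFun := fun x => x.fn i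
      map_add' := fun _ _ => rfl
      map_smul' := fun _ _ => rfl }
    (by
      obtain ⟨C, -, hC⟩ := exists_eval_bound (L := L) i
      exact ⟨C, hC⟩)

lemma eval_apply (i : I) (x : L.Space) : eval i x = x.fn i := rfl

instance : CompleteSpace L.Space := by
  refine Metric.complete_of_cauchySeq_tendsto fun u hu => ?_
  have h1 : ∀ i, ∃ c : ℝ, Tendsto (fun n => (u n).fn i) atTop (𝓝 c) := fun i =>
    cauchySeq_tendsto_of_complete (hu.map (eval i).uniformContinuous)
  choose x hx using h1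
  have key : ∀ ε : ℝ, 0 < ε → ∃ N, ∀ n, N ≤ n → ∀ w ∈ L.W, pr w (x - (u n).fn) ≤ ε := by
    intro ε hε
    rw [Metric.cauchySeq_iff] at hu
    obtain ⟨N, hN⟩ := hu ε hε
    refine ⟨N, fun n hn w hw => ?_⟩
    have h2 : Tendsto (fun m => pr w ((u m).fn - (u n).fn)) atTop (𝓝 (pr w (x - (u n).fn))) := by
      simp only [pr_eq]
      refine tendsto_finsetSum _ fun i _ => ?_
      exact (((hx i).sub_const ((u n).fn i)).abs).const_mul (w i)
    refine le_of_tendsto h2 ?_
    filter_upwards [eventually_ge_atTop N] with m hm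
    have h3 := hN m hm n hn
    rw [dist_eq_norm] at h3
    exact (pr_le (u m - u n) hw).trans h3.le
  have hxS : x ∈ L.S := by
    refine L.closed x fun ε hε => ?_
    obtain ⟨N, hN⟩ := key ε hε
    exact ⟨(u N).fn, (u N).2, hN N le_rfl⟩
  refine ⟨of x hxS, ?_⟩
  rw [Metric.tendsto_atTop]
  intro ε hε
  obtain ⟨N, hN⟩ := key (ε / 2) (half_pos hε)
  refine ⟨N, fun n hn => ?_⟩
  rw [dist_comm, dist_eq_norm]
  have h2 : ‖of x hxS - u n‖ ≤ ε / 2 := norm_le_of _ (half_pos hε).le fun w hw => hN n hn w hw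
  linarith

instance : BanachLattice L.Space where

/-- coordinatewise statement of disjointness -/
lemma inf_eq_zero_iff (x y : L.Space) : x ⊓ y = 0 ↔ ∀ i, x.fn i ⊓ y.fn i = 0 := by
  constructor
  · intro h i
    have := congrArg (fun z : L.Space => z.fn i) h
    simpa using this
  · intro h
    exact Space.ext fun i => by simpa using h i

end FLat

end Pool.Agent.R280.BLat
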