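import Pool.Agent.R280.FreePos
import Pool.Agent.R280.Center
import Pool.Agent.R280.EllOne

/-!
The free Banach lattice on an uncountable set of positive generators has no topological order unit
and is not a free Banach lattice.
-/

set_option autoImplicit false
set_option linter.unusedSectionVars false

open Set Topology Filter

universe u v w

namespace Pool.Agent.R280.BLat

section unit

variable {A : Type u}

open Classical in
/-- the indicator of a point, as a point of `[0,1]^A` -/
noncomputable def posInd (a : A) : A → unitInterval := fun b => if b = a then 1 else 0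

lemma posInd_same (a : A) : posInd a a = 1 := by simp [posInd]

lemma posInd_ne {a b : A} (h : b ≠ a) : posInd a b = 0 := by simp [posInd, h]

lemma gen_finite {g : (A → unitInterval) → ℝ} (hg : IsGenBy (posGen A) g) :
    {a | g (posInd a) ≠ 0}.Finite := by
  induction hg with
  | gen b =>
    refine (Set.finite_singleton b).subset fun a ha => ?_
    by_contra hne
    apply ha
    show ((posInd a b : unitInterval) : ℝ) = 0
    rw [posInd_ne (fun h => hne h.symm)]
    rfl
  | zero => simp
  | add f g _ _ h1 h2 =>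
    refine (h1.union h2).subset fun a ha => ?_
    by_contra hne
    simp only [mem_union, mem_ofPred_eq, not_or, not_not] at hne
    exact ha (by rw [Pi.add_apply, hne.1, hne.2, add_zero])
  | smul c f _ h1 =>
    refine h1.subset fun a ha => ?_
    intro h
    exact ha (by rw [Pi.smul_apply, h, smul_zero])
  | sup f g _ _ h1 h2 =>
    refine (h1.union h2).subset fun a ha => ?_
    by_contra hne
    simp only [mem_union, mem_ofPred_eq, not_or, not_not] at hne
    exact ha (by rw [Pi.sup_apply, hne.1, hne.2, sup_idem])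

lemma posInd_le_norm (f : (FBLpos A).Space) (a : A) : |f.fn (posInd a)| ≤ ‖f‖ := by
  have hw : Finsupp.single (posInd a) 1 ∈ (FBLpos A).W := by
    classical
    refine ⟨fun φ => ?_, fun b => ?_⟩
    · rw [Finsupp.single_apply]
      split_ifs <;> norm_num
    · rw [pr_single, one_mul]
      show |((posInd a b : unitInterval) : ℝ)| ≤ 1
      rw [abs_of_nonneg (posInd a b).2.1]
      exact (posInd a b).2.2
  have h1 := FLat.pr_le f hw
  rwa [pr_single, one_mul] at h1

lemma pos_approx (f : (FBLpos A).Space) {ε : ℝ} (hε : 0 < ε) :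
    ∃ (g : (A → unitInterval) → ℝ) (_ : IsGenBy (posGen A) g) (hg' : g ∈ (FBLpos A).S),
      ‖f - FLat.of g hg'‖ < ε := by
  obtain ⟨g, hg, h⟩ := genLat_approx f hε
  exact ⟨g, hg, mem_genLat hg, h⟩

lemma countable_ne (f : (FBLpos A).Space) : {a : A | f.fn (posInd a) ≠ 0}.Countable := by
  choose g hg hg' hn using fun n : ℕ => pos_approx f (ε := 1 / ((n : ℝ) + 1)) (by positivity)
  refine (countable_iUnion fun n => (gen_finite (hg n)).countable).mono fun a ha => ?_
  by_contra hcon
  simp only [mem_iUnion, mem_ofPred_eq, not_exists, not_not] at hcon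
  apply ha
  have h2 : ∀ n : ℕ, |f.fn (posInd a)| ≤ 1 / ((n : ℝ) + 1) := by
    intro n
    have h3 := posInd_le_norm (f - FLat.of (g n) (hg' n)) a
    rw [FLat.sub_fn, FLat.of_fn, hcon n, sub_zero] at h3
    exact h3.trans (hn n).le
  have h4 : |f.fn (posInd a)| ≤ 0 :=
    ge_of_tendsto' tendsto_one_div_add_atTop_nhds_zero_nat h2
  exact abs_eq_zero.1 (le_antisymm h4 (abs_nonneg _))

/-- no topological order unit -/
theorem pos_no_unit (hA : ¬ Countable A) (e : (FBLpos A).Space) : ¬ Dense (gIdeal e) := by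
  intro hd
  obtain ⟨a, ha⟩ : ∃ a, e.fn (posInd a) = 0 := by
    by_contra hcon
    push Not at hcon
    apply hA
    have h1 := countable_ne e
    have h2 : {a : A | e.fn (posInd a) ≠ 0} = univ := eq_univ_of_forall hcon
    rw [h2] at h1
    exact Set.countable_univ_iff.1 h1
  obtain ⟨b, ⟨m, hm, hb⟩, hlt⟩ := hd.exists_dist_lt (posEl a) one_pos
  have h1 : b.fn (posInd a) = 0 := by
    have h2 : |b|.fn (posInd a) ≤ (m • e).fn (posInd a) := hb (posInd a)
    rw [FLat.abs_fn, FLat.smul_fn, ha, mul_zero] at h2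
    exact abs_eq_zero.1 (le_antisymm h2 (abs_nonneg _))
  have h3 := posInd_le_norm (posEl a - b) a
  rw [FLat.sub_fn, h1, posEl_fn, posInd_same, sub_zero] at h3
  rw [dist_eq_norm] at hlt
  have h4 : |((1 : unitInterval) : ℝ)| = 1 := by simp
  rw [h4] at h3
  linarith

end unit

section real

/-- the weights of the two-dimensional space `ℓ_1` -/
def W2 : Set (Bool →₀ ℝ) := {w | ∀ i, w i = 0 ∨ w i = 1}

/-- the two-dimensional space `ℓ_1²`: the pairs of reals with the norm `|x_1| + |x_2|` -/
def ell1two : FLat Bool := fullLat W2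
  (fun w hw i => by rcases hw i with h | h <;> rw [h]; exact zero_le_one)
  (fun i => ⟨Finsupp.single i 1, fun j => by
    by_cases h : i = j
    · subst h; right; simp
    · left; rw [Finsupp.single_apply, if_neg h], by simp⟩)

lemma pr_two_le {w : Bool →₀ ℝ} (hw : w ∈ W2) (x : Bool → ℝ) : pr w x ≤ |x true| + |x false| := by
  rw [pr_eq]
  have h1 : ∑ i ∈ w.support, w i * |x i| ≤ ∑ i ∈ w.support, |x i| := by
    refine Finset.sum_le_sum fun i _ => ?_
    rcases hw i with h | h
    · rw [h, zero_mul]; exact abs_nonneg _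
    · rw [h, one_mul]
  refine h1.trans ?_
  have h2 : ∑ i ∈ w.support, |x i| ≤ ∑ i : Bool, |x i| :=
    Finset.sum_le_sum_of_subset_of_nonneg (Finset.subset_univ _) fun i _ _ => abs_nonneg _
  refine h2.trans (le_of_eq ?_)
  rw [Fintype.sum_bool]

/-- the element `(s, t)` of `ℓ_1²` -/
def mk2 (s t : ℝ) : ell1two.Space := FLat.of (fun i => if i then s else t)
  ⟨|s| + |t|, fun _ hw => (pr_two_le hw _).trans (by simp)⟩

lemma mk2_true (s t : ℝ) : (mk2 s t).fn true = s := rfl
lemma mk2_false (s t : ℝ) : (mk2 s t).fn false = t := rfl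

lemma norm_two (x : ell1two.Space) : ‖x‖ = |x.fn true| + |x.fn false| := by
  refine le_antisymm (FLat.norm_le_of _ (by positivity) fun w hw => pr_two_le hw _) ?_
  have hw : (Finsupp.single true (1 : ℝ) + Finsupp.single false 1) ∈ ell1two.W := by
    intro i
    right
    cases i <;> simp
  have h1 := FLat.pr_le x hw
  rwa [pr_add_weight, pr_single, pr_single, one_mul, one_mul] at h1

end real

section free

/-- `P` with the map `δ : B → P` is the free Banach lattice `FBL(B)`: `‖δ_b‖ = 1` for all `b`, and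
for every Banach lattice `X` and every bounded map `f : B → X` there is a lattice homomorphism
`T : P → X` with `T ∘ δ = f` and `‖T‖ = sup_b ‖f(b)‖`, and `T` is the only lattice homomorphism with
`T ∘ δ = f`. -/
def IsFreeOn (P : Type u) [NormedAddCommGroup P] [NormedSpace ℝ P] [Lattice P] (B : Type w)
    (δ : B → P) : Prop :=
  (∀ b, ‖δ b‖ = 1) ∧ ∀ (X : Type) [NormedAddCommGroup X] [NormedSpace ℝ X] [Lattice X]
    [BanachLattice X] (f : B → X), BddAbove (Set.range fun b => ‖f b‖) →
    ∃ T : P →L[ℝ] X, IsLatHom T ∧ (∀ b, T (δ b) = f b) ∧ ‖T‖ = ⨆ b, ‖f b‖ ∧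
      ∀ T' : P →L[ℝ] X, IsLatHom T' → (∀ b, T' (δ b) = f b) → T' = T

variable {A : Type u}

/-- evaluation at the indicator of a point -/
noncomputable def posEv (a : A) : (FBLpos A).Space →L[ℝ] ℝ := FLat.eval (posInd a)

lemma posEv_apply (a : A) (f : (FBLpos A).Space) : posEv a f = f.fn (posInd a) := rfl

lemma posEv_latHom (a : A) : IsLatHom (posEv a) := fun _ _ => ⟨rfl, rfl⟩

/-- the key property of lattice homomorphisms `φ` with `‖(φ, χ)‖ = ‖φ‖ + ‖χ‖` for all `χ` -/
lemma pos_value {φ : (FBLpos A).Space →L[ℝ] ℝ} (hφ : IsLatHom φ) (hφ1 : ‖φ‖ ≤ 1)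
    (hχ : ∀ a : A, ∀ c : ℝ, (∀ f, |φ f| + |posEv a f| ≤ c * ‖f‖) → 2 ≤ c) (a : A) :
    φ (posEl a) = 1 := by
  have hφn : ∀ b, φ (posEl b) ≤ 1 := fun b => by
    have h1 := (φ.le_opNorm (posEl b)).trans (mul_le_mul hφ1 (posEl_norm b) (norm_nonneg _)
      zero_le_one)
    rw [one_mul] at h1
    exact (le_abs_self _).trans h1
  have hφ0 : ∀ b, 0 ≤ φ (posEl b) := fun b => hφ.map_pos (posEl_nonneg b)
  refine le_antisymm (hφn a) ?_
  -- the pair
  obtain ⟨T, hT, hTn, hTg⟩ := pos_univ (A := A) (Y := ell1two.Space) (c := 1 + φ (posEl a))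
    (by linarith [hφ0 a]) (x := fun b => mk2 (φ (posEl b)) (posEv a (posEl b)))
    (fun b i => by
      cases i
      · exact (posEv_latHom a).map_pos (posEl_nonneg b)
      · exact hφ0 b)
    (fun b => by
      rw [norm_two, mk2_true, mk2_false, abs_of_nonneg (hφ0 b), posEv_apply, posEl_fn]
      by_cases hb : b = a
      · subst hb
        rw [posInd_same]
        simp [add_comm]
      · rw [posInd_ne hb]
        have := hφn b
        have h2 := hφ0 a
        simp
        linarith)
  have hcomp1 : (FLat.eval true).comp T = φ := pos_ext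
    (fun f g => ⟨by
      show (T (f ⊔ g)).fn true = (T f).fn true ⊔ (T g).fn true
      rw [(hT f g).1]; rfl, by
      show (T (f ⊓ g)).fn true = (T f).fn true ⊓ (T g).fn true
      rw [(hT f g).2]; rfl⟩) hφ (fun b => by
      show (T (posEl b)).fn true = _
      rw [hTg]; rfl)
  have hcomp2 : (FLat.eval false).comp T = posEv a := pos_ext
    (fun f g => ⟨by
      show (T (f ⊔ g)).fn false = (T f).fn false ⊔ (T g).fn false
      rw [(hT f g).1]; rfl, by
      show (T (f ⊓ g)).fn false = (T f).fn false ⊓ (T g).fn false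
      rw [(hT f g).2]; rfl⟩) (posEv_latHom a) (fun b => by
      show (T (posEl b)).fn false = _
      rw [hTg]; rfl)
  have h1 := hχ a (1 + φ (posEl a)) (fun f => by
    have h2 : (T f).fn true = φ f := congrArg (fun S : (FBLpos A).Space →L[ℝ] ℝ => S f) hcomp1
    have h3 : (T f).fn false = posEv a f :=
      congrArg (fun S : (FBLpos A).Space →L[ℝ] ℝ => S f) hcomp2
    have h4 := (T.le_opNorm f).trans (mul_le_mul_of_nonneg_right hTn (norm_nonneg f))
    rwa [norm_two, h2, h3] at h4)
  linarith

/-- The free Banach lattice on a nonempty set of positive generators is not free. -/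
theorem pos_not_free [Nonempty A] (B : Type w) (δ : B → (FBLpos A).Space) :
    ¬ IsFreeOn (FBLpos A).Space B δ := by
  rintro ⟨hδ, hfree⟩
  obtain ⟨a0⟩ := (inferInstance : Nonempty A)
  -- `B` is nonempty
  have hB : Nonempty B := by
    by_contra hB
    rw [not_nonempty_iff] at hB
    obtain ⟨T, -, -, -, hT⟩ := hfree ℝ (fun b : B => (hB.false b).elim) (by
      refine ⟨0, ?_⟩
      rintro _ ⟨b, -⟩
      exact (hB.false b).elim)
    have h1 := hT 0 (fun a b => by simp) (fun b => (hB.false b).elim)
    have h2 := hT (posEv a0) (posEv_latHom a0) (fun b => (hB.false b).elim)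
    have h3 : (0 : (FBLpos A).Space →L[ℝ] ℝ) (posEl a0) = posEv a0 (posEl a0) := by
      rw [h1, ← h2]
    rw [posEv_apply, posEl_fn, posInd_same] at h3
    simp at h3
  -- a sign `s` gives a functional with value one at the generators
  have key : ∀ s : ℝ, |s| = 1 → ∃ φ : (FBLpos A).Space →L[ℝ] ℝ, IsLatHom φ ∧
      (∀ b, φ (δ b) = s) ∧ ∀ a, φ (posEl a) = 1 := by
    intro s hs
    obtain ⟨φ, hφ, hφδ, hφn, hφu⟩ := hfree ℝ (fun _ : B => s) (by
      refine ⟨1, ?_⟩
      rintro _ ⟨b, rfl⟩
      show |s| ≤ 1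
      rw [hs])
    have hn1 : ‖φ‖ ≤ 1 := by
      rw [hφn]
      refine ciSup_le fun b => ?_
      show |s| ≤ 1
      rw [hs]
    refine ⟨φ, hφ, hφδ, pos_value hφ hn1 fun a c hc => ?_⟩
    -- the norm of the evaluation
    have hbd : ∀ b, |posEv a (δ b)| ≤ 1 := by
      intro b
      have := posInd_le_norm (δ b) a
      rwa [hδ b] at this
    obtain ⟨χ, -, hχδ, hχn, hχu⟩ := hfree ℝ (fun b => posEv a (δ b)) (by
      refine ⟨1, ?_⟩
      rintro _ ⟨b, rfl⟩
      exact hbd b)
    have hχe : posEv a = χ := hχu _ (posEv_latHom a) (fun b => rfl)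
    have hone : 1 ≤ ⨆ b, ‖posEv a (δ b)‖ := by
      rw [← hχn, ← hχe]
      have h1 := (posEv a).le_opNorm (posEl a)
      have h2 : ‖posEv a (posEl a)‖ = 1 := by
        rw [posEv_apply, posEl_fn, posInd_same]
        simp
      rw [h2] at h1
      exact h1.trans (mul_le_of_le_one_right (norm_nonneg _) (posEl_norm a))
    -- the pair `(φ, ev)`
    obtain ⟨T, hT, hTδ, hTn, hTu⟩ := hfree ell1two.Space (fun b => mk2 s (posEv a (δ b))) (by
      refine ⟨2, ?_⟩
      rintro _ ⟨b, rfl⟩
      show ‖mk2 s (posEv a (δ b))‖ ≤ 2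
      rw [norm_two, mk2_true, mk2_false, hs]
      have := hbd b
      linarith)
    have hT2 : 2 ≤ ‖T‖ := by
      rw [hTn]
      have h1 : (⨆ b, ‖posEv a (δ b)‖) ≤ (⨆ b, ‖mk2 s (posEv a (δ b))‖) - 1 := by
        refine ciSup_le fun b => ?_
        have h2 : ‖mk2 s (posEv a (δ b))‖ = 1 + ‖posEv a (δ b)‖ := by
          rw [norm_two, mk2_true, mk2_false, hs]
          rfl
        have h3 : ‖mk2 s (posEv a (δ b))‖ ≤ ⨆ b, ‖mk2 s (posEv a (δ b))‖ := by
          refine le_ciSup (f := fun b => ‖mk2 s (posEv a (δ b))‖) ⟨2, ?_⟩ b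
          rintro _ ⟨b, rfl⟩
          show ‖mk2 s (posEv a (δ b))‖ ≤ 2
          rw [norm_two, mk2_true, mk2_false, hs]
          have := hbd b
          linarith
        linarith
      linarith
    have hcomp1 : (FLat.eval true).comp T = φ := hφu _
      (fun f g => ⟨by
        show (T (f ⊔ g)).fn true = (T f).fn true ⊔ (T g).fn true
        rw [(hT f g).1]; rfl, by
        show (T (f ⊓ g)).fn true = (T f).fn true ⊓ (T g).fn true
        rw [(hT f g).2]; rfl⟩) (fun b => by
        show (T (δ b)).fn true = _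
        rw [hTδ]; rfl)
    have hcomp2 : (FLat.eval false).comp T = posEv a := by
      rw [hχe]
      refine hχu _ (fun f g => ⟨by
        show (T (f ⊔ g)).fn false = (T f).fn false ⊔ (T g).fn false
        rw [(hT f g).1]; rfl, by
        show (T (f ⊓ g)).fn false = (T f).fn false ⊓ (T g).fn false
        rw [(hT f g).2]; rfl⟩) (fun b => by
        show (T (δ b)).fn false = _
        rw [hTδ]; rfl)
    have hTle : ‖T‖ ≤ max c 0 := by
      refine T.opNorm_le_bound (le_max_right _ _) fun f => ?_
      have h2 : (T f).fn true = φ f := congrArg (fun S : (FBLpos A).Space →L[ℝ] ℝ => S f) hcomp1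
      have h3 : (T f).fn false = posEv a f :=
        congrArg (fun S : (FBLpos A).Space →L[ℝ] ℝ => S f) hcomp2
      rw [norm_two, h2, h3]
      exact (hc f).trans (mul_le_mul_of_nonneg_right (le_max_left _ _) (norm_nonneg _))
    rcases le_max_iff.1 (hT2.trans hTle) with h | h
    · exact h
    · norm_num at h
  obtain ⟨φ, hφ, hφδ, hφp⟩ := key 1 (by norm_num)
  obtain ⟨φ', hφ', hφδ', hφp'⟩ := key (-1) (by norm_num)
  have heq : φ = φ' := pos_ext hφ hφ' fun a => by rw [hφp, hφp']
  obtain ⟨b⟩ := hB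
  have h1 := hφδ b
  rw [heq, hφδ'] at h1
  norm_num at h1

end free

end Pool.Agent.R280.BLat
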