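import Pool.Agent.R280.Cube

/-!
Positive bilinear maps on `C(K) × C(L)`.
-/

set_option autoImplicit false
set_option linter.unusedSectionVars false

open Set Topology Filter TensorProduct

universe u v w

namespace Pool.Agent.R280.BLat

section pu

variable {K : Type u} [TopologicalSpace K] [CompactSpace K] [T2Space K]

theorem exists_pu {M : Type v} [PseudoMetricSpace M] (F : C(K, M)) {δ : ℝ} (hδ : 0 < δ) :
    ∃ (n : ℕ) (p : Fin n → C(K, ℝ)) (κ : Fin n → K), (∀ j k, 0 ≤ p j k) ∧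
      (∀ k, ∑ j, p j k = 1) ∧ ∀ j k, p j k ≠ 0 → dist (F k) (F (κ j)) < δ := by
  classical
  let U : K → Set K := fun k => {k' | dist (F k') (F k) < δ}
  have hU : ∀ k, IsOpen (U k) := fun k =>
    isOpen_lt (by fun_prop) continuous_const
  obtain ⟨t, ht⟩ := isCompact_univ.elim_finite_subcover U hU (fun k _ => by
    refine mem_iUnion.2 ⟨k, ?_⟩
    show dist (F k) (F k) < δ
    rwa [dist_self])
  let κ : Fin t.card → K := fun j => (t.equivFin.symm j : K)
  obtain ⟨f, hf1, hf2, hf3, -⟩ := exists_continuous_sum_one_of_isOpen_isCompact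
    (s := fun j : Fin t.card => U (κ j)) (t := univ) (fun j => hU _) isCompact_univ (by
      intro k hk
      obtain ⟨k', hk', hk2⟩ := mem_iUnion₂.1 (ht hk)
      refine mem_iUnion.2 ⟨t.equivFin ⟨k', hk'⟩, ?_⟩
      show k ∈ U (t.equivFin.symm (t.equivFin ⟨k', hk'⟩) : K)
      rw [Equiv.symm_apply_apply]
      exact hk2)
  refine ⟨t.card, f, κ, fun j k => (hf3 j k).1, fun k => ?_, fun j k hjk => ?_⟩
  · have := hf2 (mem_univ k)
    simpa using this
  · exact hf1 j (subset_tsupport _ hjk)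

theorem exists_pu' {M : Type v} [NormedAddCommGroup M] [NormedSpace ℝ M] (F : C(K, M)) {δ : ℝ}
    (hδ : 0 < δ) : ∃ (n : ℕ) (p : Fin n → C(K, ℝ)) (κ : Fin n → K), (∀ j k, 0 ≤ p j k) ∧
      (∀ k, ∑ j, p j k = 1) ∧ ∀ k, ‖F k - ∑ j, p j k • F (κ j)‖ ≤ δ := by
  obtain ⟨n, p, κ, h1, h2, h3⟩ := exists_pu F hδ
  refine ⟨n, p, κ, h1, h2, fun k => ?_⟩
  have h4 : F k - ∑ j, p j k • F (κ j) = ∑ j, p j k • (F k - F (κ j)) := by
    simp only [smul_sub]
    rw [Finset.sum_sub_distrib, ← Finset.sum_smul, h2, one_smul]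
  rw [h4]
  refine (norm_sum_le _ _).trans ?_
  have h5 : ∀ j ∈ Finset.univ, ‖p j k • (F k - F (κ j))‖ ≤ p j k * δ := by
    intro j _
    rw [norm_smul, Real.norm_of_nonneg (h1 j k)]
    by_cases hz : p j k = 0
    · rw [hz, zero_mul, zero_mul]
    · have := h3 j k hz
      rw [dist_eq_norm] at this
      exact mul_le_mul_of_nonneg_left this.le (h1 j k)
  refine (Finset.sum_le_sum h5).trans ?_
  rw [← Finset.sum_mul, h2, one_mul]

end pu

section ext

variable {P : Type u} [NormedAddCommGroup P] [NormedSpace ℝ P]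
variable {Y : Type v} [NormedAddCommGroup Y] [NormedSpace ℝ Y] [CompleteSpace Y]

/-- A bounded linear relation with dense domain extends to a bounded operator. -/
theorem exists_clm_of_rel (R : P → Y → Prop) (h0 : R 0 0)
    (hadd : ∀ f g y z, R f y → R g z → R (f + g) (y + z))
    (hsmul : ∀ (c : ℝ) f y, R f y → R (c • f) (c • y)) {C : ℝ} (hC : 0 ≤ C)
    (hbd : ∀ f y, R f y → ‖y‖ ≤ C * ‖f‖) (hdense : ∀ f : P, ∀ ε > 0, ∃ g y, R g y ∧ ‖f - g‖ < ε) :
    ∃ T : P →L[ℝ] Y, ∀ f y, R f y → T f = y := by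
  classical
  let R' : Submodule ℝ (P × Y) :=
    { carrier := {q | R q.1 q.2}
      add_mem' := fun {a b} ha hb => hadd _ _ _ _ ha hb
      zero_mem' := h0
      smul_mem' := fun c q hq => hsmul c _ _ hq }
  let S : Submodule ℝ (P × Y) := R'.topologicalClosure
  have hSmem : ∀ q, q ∈ S ↔ q ∈ closure {q : P × Y | R q.1 q.2} := fun q => Iff.rfl
  have hSbd : ∀ q ∈ S, ‖q.2‖ ≤ C * ‖q.1‖ := by
    intro q hq
    rw [hSmem] at hq
    have hcl : IsClosed {q : P × Y | ‖q.2‖ ≤ C * ‖q.1‖} :=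
      isClosed_le (by fun_prop) (by fun_prop)
    exact closure_minimal (fun q hq => hbd _ _ hq) hcl hq
  have hex : ∀ f : P, ∃ y, (f, y) ∈ S := by
    intro f
    choose g y hg hfg using fun n : ℕ => hdense f ((1 / 2 : ℝ) ^ n) (by positivity)
    have hlim : Tendsto g atTop (𝓝 f) := by
      rw [tendsto_iff_norm_sub_tendsto_zero]
      refine squeeze_zero (fun n => norm_nonneg _) (fun n => ?_)
        (tendsto_pow_atTop_nhds_zero_of_lt_one (r := (1 / 2 : ℝ)) (by norm_num) (by norm_num))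
      rw [norm_sub_rev]
      exact (hfg n).le
    have hcau : CauchySeq y := by
      have hg' := hlim.cauchySeq
      rw [Metric.cauchySeq_iff] at hg' ⊢
      intro ε hε
      obtain ⟨N, hN⟩ := hg' (ε / (C + 1)) (by positivity)
      refine ⟨N, fun m hm n hn => ?_⟩
      have h1 := hN m hm n hn
      have h2 : R (g m - g n) (y m - y n) := by
        have := hadd _ _ _ _ (hg m) (hsmul (-1) _ _ (hg n))
        rwa [neg_one_smul, neg_one_smul, ← sub_eq_add_neg, ← sub_eq_add_neg] at this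
      have h3 := hbd _ _ h2
      rw [dist_eq_norm] at h1 ⊢
      have h4 : C * ‖g m - g n‖ ≤ (C + 1) * ‖g m - g n‖ :=
        mul_le_mul_of_nonneg_right (by linarith) (norm_nonneg _)
      have h5 : (C + 1) * ‖g m - g n‖ < (C + 1) * (ε / (C + 1)) :=
        mul_lt_mul_of_pos_left h1 (by positivity)
      have h6 : (C + 1) * (ε / (C + 1)) = ε := by field_simp
      linarith
    obtain ⟨z, hz⟩ := cauchySeq_tendsto_of_complete hcau
    refine ⟨z, ?_⟩
    rw [hSmem]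
    exact mem_closure_of_tendsto (hlim.prodMk_nhds hz) (Eventually.of_forall fun n => hg n)
  have huniq : ∀ f y z, (f, y) ∈ S → (f, z) ∈ S → y = z := by
    intro f y z h1 h2
    have h3 := hSbd _ (S.sub_mem h1 h2)
    simp only [Prod.mk_sub_mk, sub_self, norm_zero, mul_zero] at h3
    exact sub_eq_zero.1 (norm_le_zero_iff.1 h3)
  choose t ht using hex
  let T0 : P →ₗ[ℝ] Y :=
    { toFun := t
      map_add' := fun f g => huniq _ _ _ (ht _) (S.add_mem (ht f) (ht g))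
      map_smul' := fun c f => huniq _ _ _ (ht _) (S.smul_mem c (ht f)) }
  let T : P →L[ℝ] Y := T0.mkContinuous C fun f => hSbd _ (ht f)
  exact ⟨T, fun f y hfy => huniq _ _ _ (ht f) (subset_closure hfy)⟩

end ext

section tensor

variable {K : Type u} [TopologicalSpace K] [CompactSpace K] [T2Space K]
variable {L : Type v} [TopologicalSpace L] [CompactSpace L] [T2Space L]
variable {Z : Type w} [NormedAddCommGroup Z] [NormedSpace ℝ Z] [Lattice Z] [BanachLattice Z]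

/-- the function `(k, l) ↦ x k * y l` -/
def tens (x : C(K, ℝ)) (y : C(L, ℝ)) : C(K × L, ℝ) where
  toFun q := x q.1 * y q.2
  continuous_toFun := by fun_prop

omit [CompactSpace K] [T2Space K] [CompactSpace L] [T2Space L] in
lemma tens_apply (x : C(K, ℝ)) (y : C(L, ℝ)) (q : K × L) : tens x y q = x q.1 * y q.2 := rfl

variable (K L) in
/-- the bilinear map `(x, y) ↦ x ⊗ y` -/
def tensL : C(K, ℝ) →ₗ[ℝ] C(L, ℝ) →ₗ[ℝ] C(K × L, ℝ) :=
  LinearMap.mk₂ ℝ tens
    (fun x x' y => by ext q; simp [tens_apply, add_mul])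
    (fun c x y => by ext q; simp [tens_apply, mul_assoc])
    (fun x y y' => by ext q; simp [tens_apply, mul_add])
    (fun c x y => by ext q; simp [tens_apply, mul_left_comm])

lemma tensL_apply (x : C(K, ℝ)) (y : C(L, ℝ)) : tensL K L x y = tens x y := rfl

lemma bilin_abs_le (φ : C(K, ℝ) →ₗ[ℝ] C(L, ℝ) →ₗ[ℝ] Z) (hφ : ∀ x y, 0 ≤ x → 0 ≤ y → 0 ≤ φ x y)
    (x : C(K, ℝ)) (y : C(L, ℝ)) : 0 ≤ φ x y + φ |x| |y| := by
  have h1 : 0 ≤ φ (|x| + x) (|y| + y) :=
    hφ _ _ (by rw [← sub_neg_eq_add]; exact sub_nonneg.2 (neg_le_abs x))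
      (by rw [← sub_neg_eq_add]; exact sub_nonneg.2 (neg_le_abs y))
  have h2 : 0 ≤ φ (|x| - x) (|y| - y) :=
    hφ _ _ (sub_nonneg.2 (le_abs_self x)) (sub_nonneg.2 (le_abs_self y))
  have h3 : (2 : ℝ) • (φ x y + φ |x| |y|) = φ (|x| + x) (|y| + y) + φ (|x| - x) (|y| - y) := by
    simp only [map_add, map_sub, LinearMap.add_apply, LinearMap.sub_apply, smul_add, two_smul]
    abel
  have h4 := add_nonneg h1 h2
  rw [← h3] at h4
  have h5 := smul_nonneg (inv_nonneg.2 (zero_le_two (α := ℝ))) h4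
  rwa [smul_smul, inv_mul_cancel₀ two_ne_zero, one_smul] at h5

lemma mono_left {φ : C(K, ℝ) →ₗ[ℝ] C(L, ℝ) →ₗ[ℝ] Z} (hφ : ∀ x y, 0 ≤ x → 0 ≤ y → 0 ≤ φ x y)
    {x x' : C(K, ℝ)} (h : x ≤ x') {y : C(L, ℝ)} (hy : 0 ≤ y) : φ x y ≤ φ x' y := by
  have := hφ (x' - x) y (sub_nonneg.2 h) hy
  rwa [map_sub, LinearMap.sub_apply, sub_nonneg] at this

/-- the key positivity -/
theorem lift_nonneg (φ : C(K, ℝ) →ₗ[ℝ] C(L, ℝ) →ₗ[ℝ] Z) (hφ : ∀ x y, 0 ≤ x → 0 ≤ y → 0 ≤ φ x y)
    (t : C(K, ℝ) ⊗[ℝ] C(L, ℝ)) (ht : 0 ≤ TensorProduct.lift (tensL K L) t) :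
    0 ≤ TensorProduct.lift φ t := by
  classical
  obtain ⟨S, rfl⟩ := TensorProduct.exists_finset t
  simp only [map_sum, TensorProduct.lift.tmul] at ht ⊢
  set W : Z := ∑ i ∈ S, φ 1 |i.2| with hW
  have key : ∀ δ : ℝ, 0 < δ → -(δ • W) ≤ ∑ i ∈ S, φ i.1 i.2 := by
    intro δ hδ
    let F : C(K, S → ℝ) := ⟨fun k i => (i : C(K, ℝ) × C(L, ℝ)).1 k, by fun_prop⟩
    obtain ⟨n, p, κ, hp0, hp1, hp2⟩ := exists_pu' F hδ
    let r : C(K, ℝ) → C(K, ℝ) := fun x => x - ∑ j, x (κ j) • p j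
    have hr : ∀ i ∈ S, |r i.1| ≤ δ • (1 : C(K, ℝ)) := by
      intro i hi k
      show |r i.1| k ≤ (δ • (1 : C(K, ℝ))) k
      rw [cabs_apply]
      have h1 := (norm_le_pi_norm _ (⟨i, hi⟩ : S)).trans (hp2 k)
      have h2 : (F k - ∑ j, p j k • F (κ j)) ⟨i, hi⟩ = r i.1 k := by
        simp [F, r, Finset.sum_apply, mul_comm]
      rw [h2] at h1
      simpa using h1
    have h1 : ∑ i ∈ S, φ i.1 i.2 = ∑ j, φ (p j) (∑ i ∈ S, i.1 (κ j) • i.2) +
        ∑ i ∈ S, φ (r i.1) i.2 := by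
      have h2 : ∀ i ∈ S, φ i.1 i.2 = ∑ j, i.1 (κ j) • φ (p j) i.2 + φ (r i.1) i.2 := by
        intro i _
        have h3 : φ i.1 = φ (∑ j, i.1 (κ j) • p j) + φ (r i.1) := by
          rw [← map_add]
          congr 1
          show i.1 = _ + (i.1 - _)
          abel
        rw [h3, LinearMap.add_apply, map_sum, LinearMap.sum_apply]
        simp only [map_smul, LinearMap.smul_apply]
      rw [Finset.sum_congr rfl h2, Finset.sum_add_distrib, Finset.sum_comm]
      simp only [map_sum, map_smul]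
    have h2 : 0 ≤ ∑ j, φ (p j) (∑ i ∈ S, i.1 (κ j) • i.2) := by
      refine Finset.sum_nonneg fun j _ => hφ _ _ (fun k => hp0 j k) fun l => ?_
      have h3 : (∑ i ∈ S, tensL K L i.1 i.2) (κ j, l) = (∑ i ∈ S, i.1 (κ j) • i.2) l := by
        simp [tensL_apply, tens_apply, ContinuousMap.sum_apply]
      show 0 ≤ (∑ i ∈ S, i.1 (κ j) • i.2) l
      rw [← h3]
      exact ht (κ j, l)
    have h3 : -(δ • W) ≤ ∑ i ∈ S, φ (r i.1) i.2 := by
      rw [hW, Finset.smul_sum, ← Finset.sum_neg_distrib]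
      refine Finset.sum_le_sum fun i hi => ?_
      rw [neg_le_iff_add_nonneg]
      have h4 : φ |r i.1| |i.2| ≤ δ • φ 1 |i.2| := by
        have := mono_left hφ (hr i hi) (abs_nonneg i.2)
        rwa [map_smul, LinearMap.smul_apply] at this
      exact (bilin_abs_le φ hφ (r i.1) i.2).trans (add_le_add_right h4 _)
    rw [h1]
    exact h3.trans (le_add_of_nonneg_left h2)
  have hlim : Tendsto (fun n : ℕ => -(((1 : ℝ) / (n + 1)) • W)) atTop (𝓝 0) := by
    have h1 : Tendsto (fun n : ℕ => -(((1 : ℝ) / (n + 1)) • W)) atTop (𝓝 (-((0 : ℝ) • W))) :=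
      ((tendsto_one_div_add_atTop_nhds_zero_nat).smul_const W).neg
    rwa [zero_smul, neg_zero] at h1
  exact le_of_tendsto' hlim fun n => key _ (by positivity)

variable (K L) in
lemma tens_one : tens (1 : C(K, ℝ)) (1 : C(L, ℝ)) = 1 := by
  ext q; simp [tens_apply]

/-- elementary tensors span a dense subspace -/
lemma tens_dense (f : C(K × L, ℝ)) {ε : ℝ} (hε : 0 < ε) :
    ∃ t : C(K, ℝ) ⊗[ℝ] C(L, ℝ), ‖f - TensorProduct.lift (tensL K L) t‖ < ε := by
  obtain ⟨n, p, κ, hp0, hp1, hp2⟩ := exists_pu' (ContinuousMap.curry f) (half_pos hε)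
  refine ⟨∑ j, p j ⊗ₜ[ℝ] (ContinuousMap.curry f (κ j)), ?_⟩
  refine lt_of_le_of_lt ?_ (half_lt_self hε)
  rw [ContinuousMap.norm_le _ (half_pos hε).le]
  rintro ⟨k, l⟩
  have h1 := (ContinuousMap.norm_coe_le_norm (ContinuousMap.curry f k -
    ∑ j, p j k • ContinuousMap.curry f (κ j)) l).trans (hp2 k)
  have h2 : (ContinuousMap.curry f k - ∑ j, p j k • ContinuousMap.curry f (κ j)) l =
      (f - TensorProduct.lift (tensL K L) (∑ j, p j ⊗ₜ[ℝ] (ContinuousMap.curry f (κ j)))) (k, l) := by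
    simp [tensL_apply, tens_apply, ContinuousMap.sum_apply, map_sum]
  rwa [h2] at h1

/-- extension of positive bilinear maps -/
theorem exists_pos_ext (φ : C(K, ℝ) →ₗ[ℝ] C(L, ℝ) →ₗ[ℝ] Z)
    (hφ : ∀ x y, 0 ≤ x → 0 ≤ y → 0 ≤ φ x y) :
    ∃ T : C(K × L, ℝ) →L[ℝ] Z, (∀ u, 0 ≤ u → 0 ≤ T u) ∧ ∀ x y, T (tens x y) = φ x y := by
  have hcs : CompleteSpace Z := BanachLattice.toCompleteSpace
  have hbd : ∀ t : C(K, ℝ) ⊗[ℝ] C(L, ℝ), |TensorProduct.lift φ t| ≤
      ‖TensorProduct.lift (tensL K L) t‖ • φ 1 1 := by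
    intro t
    have h1 : ∀ s : ℝ, 0 ≤ TensorProduct.lift (tensL K L)
        (‖TensorProduct.lift (tensL K L) t‖ • ((1 : C(K, ℝ)) ⊗ₜ[ℝ] (1 : C(L, ℝ))) + s • t) ↔
        0 ≤ ‖TensorProduct.lift (tensL K L) t‖ • (1 : C(K × L, ℝ)) +
          s • TensorProduct.lift (tensL K L) t := by
      intro s
      rw [map_add, map_smul, map_smul, TensorProduct.lift.tmul, tensL_apply, tens_one]
    have h2 := lift_nonneg φ hφ _ ((h1 1).2 (by
      rw [one_smul, ← sub_neg_eq_add, sub_nonneg]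
      exact (neg_le_abs _).trans (cabs_le _)))
    have h3 := lift_nonneg φ hφ _ ((h1 (-1)).2 (by
      rw [neg_one_smul, ← sub_eq_add_neg, sub_nonneg]
      exact (le_abs_self _).trans (cabs_le _)))
    rw [map_add, map_smul, map_smul, TensorProduct.lift.tmul] at h2 h3
    rw [one_smul] at h2
    rw [neg_one_smul, ← sub_eq_add_neg, sub_nonneg] at h3
    rw [abs_le']
    exact ⟨h3, neg_le_iff_add_nonneg.2 (by rwa [add_comm] at h2 ⊢)⟩
  obtain ⟨T, hT⟩ := exists_clm_of_rel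
    (fun (f : C(K × L, ℝ)) (z : Z) => ∃ t, TensorProduct.lift (tensL K L) t = f ∧
      TensorProduct.lift φ t = z) ⟨0, map_zero _, map_zero _⟩
    (by
      rintro _ _ _ _ ⟨s, rfl, rfl⟩ ⟨t, rfl, rfl⟩
      exact ⟨s + t, map_add _ _ _, map_add _ _ _⟩)
    (by
      rintro c _ _ ⟨s, rfl, rfl⟩
      exact ⟨c • s, map_smul _ _ _, map_smul _ _ _⟩) (C := ‖φ 1 1‖) (norm_nonneg _)
    (by
      rintro _ _ ⟨t, rfl, rfl⟩
      have h1 := norm_le_norm_of_abs_le_abs ((hbd t).trans (le_abs_self _))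
      rwa [norm_smul, norm_norm, mul_comm] at h1)
    (by
      intro f ε hε
      obtain ⟨t, ht⟩ := tens_dense f hε
      exact ⟨_, _, ⟨t, rfl, rfl⟩, ht⟩)
  have hTt : ∀ t : C(K, ℝ) ⊗[ℝ] C(L, ℝ), T (TensorProduct.lift (tensL K L) t) =
      TensorProduct.lift φ t := fun t => hT _ _ ⟨t, rfl, rfl⟩
  have hT2 : ∀ x y, T (tens x y) = φ x y := by
    intro x y
    have := hTt (x ⊗ₜ[ℝ] y)
    rwa [TensorProduct.lift.tmul, TensorProduct.lift.tmul, tensL_apply] at this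
  refine ⟨T, fun u hu => ?_, hT2⟩
  choose t ht using fun n : ℕ => tens_dense u (ε := 1 / ((n : ℝ) + 1)) (by positivity)
  have hpos : ∀ n : ℕ, 0 ≤ T (TensorProduct.lift (tensL K L) (t n) + (1 / ((n : ℝ) + 1)) • 1) := by
    intro n
    have h1 : TensorProduct.lift (tensL K L) (t n) + (1 / ((n : ℝ) + 1)) • (1 : C(K × L, ℝ)) =
        TensorProduct.lift (tensL K L)
          (t n + (1 / ((n : ℝ) + 1)) • ((1 : C(K, ℝ)) ⊗ₜ[ℝ] (1 : C(L, ℝ)))) := by
      rw [map_add, map_smul, TensorProduct.lift.tmul, tensL_apply, tens_one]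
    rw [h1, hTt]
    refine lift_nonneg φ hφ _ ?_
    rw [← h1]
    intro q
    have h2 := (ContinuousMap.norm_coe_le_norm _ q).trans (ht n).le
    have h3 : 0 ≤ u q := hu q
    rw [ContinuousMap.sub_apply, Real.norm_eq_abs, abs_le] at h2
    show 0 ≤ (TensorProduct.lift (tensL K L) (t n)) q + (1 / ((n : ℝ) + 1)) * 1
    linarith [h2.2]
  have hlim1 : Tendsto (fun n : ℕ => TensorProduct.lift (tensL K L) (t n)) atTop (𝓝 u) := by
    rw [tendsto_iff_norm_sub_tendsto_zero]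
    refine squeeze_zero (fun n => norm_nonneg _) (fun n => ?_)
      tendsto_one_div_add_atTop_nhds_zero_nat
    rw [norm_sub_rev]
    exact (ht n).le
  have hlim2 : Tendsto (fun n : ℕ => T (TensorProduct.lift (tensL K L) (t n) +
      (1 / ((n : ℝ) + 1)) • 1)) atTop (𝓝 (T (u + (0 : ℝ) • 1))) :=
    (T.continuous.tendsto _).comp
      (hlim1.add ((tendsto_one_div_add_atTop_nhds_zero_nat).smul_const _))
  rw [zero_smul, add_zero] at hlim2
  exact ge_of_tendsto' hlim2 hpos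

/-- positive bounded operators agreeing on elementary tensors are equal -/
theorem ext_tens {S T : C(K × L, ℝ) →L[ℝ] Z} (h : ∀ x y, S (tens x y) = T (tens x y)) : S = T := by
  have h1 : ∀ t : C(K, ℝ) ⊗[ℝ] C(L, ℝ), S (TensorProduct.lift (tensL K L) t) =
      T (TensorProduct.lift (tensL K L) t) := by
    intro t
    obtain ⟨F, rfl⟩ := TensorProduct.exists_finset t
    simp only [map_sum, TensorProduct.lift.tmul, tensL_apply, h]
  have hcl : IsClosed {u | S u = T u} := isClosed_eq S.continuous T.continuous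
  ext u
  have : u ∈ closure {u | S u = T u} := by
    rw [Metric.mem_closure_iff]
    intro ε hε
    obtain ⟨t, ht⟩ := tens_dense u hε
    exact ⟨_, h1 t, by rwa [dist_eq_norm]⟩
  rwa [hcl.closure_eq] at this

end tensor

end Pool.Agent.R280.BLat
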