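import Pool.Agent.R280.Gauge
import Pool.Agent.R280.PosTensor
import Pool.Agent.R280.QuotLat

/-!
The Fremlin tensor product; a family of projective Banach lattices with order unit, and the Fremlin
tensor products of its members.
-/

set_option autoImplicit false
set_option linter.unusedSectionVars false

open Set Topology Filter

universe u v w

namespace Pool.Agent.R280.BLat

/-- `e` is a topological order unit of the Banach lattice `X`: `e ≥ 0` and the only closed ideal
containing `e` is `X`. -/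
def IsTopUnit {X : Type u} [NormedAddCommGroup X] [NormedSpace ℝ X] [Lattice X] (e : X) : Prop :=
  0 ≤ e ∧ ∀ J : Submodule ℝ X, IsClosed (J : Set X) → (∀ a ∈ J, ∀ b, |b| ≤ |a| → b ∈ J) →
    e ∈ J → J = ⊤

/-- `F`, with the bilinear map `τ : X × Y → F`, is the Fremlin tensor product of the Banach lattices
`X` and `Y`: `τ` is a bounded positive bilinear map and for every Banach lattice `Z` and every
bounded positive bilinear map `φ : X × Y → Z` there is a unique bounded positive linear map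
`T : F → Z` with `T (τ x y) = φ x y`, and `‖T‖ = ‖φ‖` (where
`‖φ‖ = sup {‖φ x y‖ : ‖x‖ ≤ 1, ‖y‖ ≤ 1}`). -/
structure IsFremlin {X Y F : Type u} [NormedAddCommGroup X] [NormedSpace ℝ X] [Lattice X]
    [NormedAddCommGroup Y] [NormedSpace ℝ Y] [Lattice Y]
    [NormedAddCommGroup F] [NormedSpace ℝ F] [Lattice F] (τ : X →L[ℝ] Y →L[ℝ] F) : Prop where
  pos : ∀ x y, 0 ≤ x → 0 ≤ y → 0 ≤ τ x y
  univ : ∀ (Z : Type u) [NormedAddCommGroup Z] [NormedSpace ℝ Z] [Lattice Z] [BanachLattice Z]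
    (φ : X →L[ℝ] Y →L[ℝ] Z), (∀ x y, 0 ≤ x → 0 ≤ y → 0 ≤ φ x y) →
    ∃ T : F →L[ℝ] Z, ((∀ u, 0 ≤ u → 0 ≤ T u) ∧ ∀ x y, T (τ x y) = φ x y) ∧ ‖T‖ = ‖φ‖ ∧
      ∀ T' : F →L[ℝ] Z, ((∀ u, 0 ≤ u → 0 ≤ T' u) ∧ ∀ x y, T' (τ x y) = φ x y) → T' = T

section transfer

variable {X Y F F' : Type u} [NormedAddCommGroup X] [NormedSpace ℝ X] [Lattice X]
    [NormedAddCommGroup Y] [NormedSpace ℝ Y] [Lattice Y]
    [NormedAddCommGroup F] [NormedSpace ℝ F] [Lattice F] [BanachLattice F]
    [NormedAddCommGroup F'] [NormedSpace ℝ F'] [Lattice F'] [BanachLattice F']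
    {τ : X →L[ℝ] Y →L[ℝ] F} {τ' : X →L[ℝ] Y →L[ℝ] F'}

lemma IsFremlin.norm_le_one (h : IsFremlin τ) : ‖τ‖ ≤ 1 := by
  obtain ⟨T, hT, hn, hu⟩ := h.univ F τ h.pos
  have h1 := hu (ContinuousLinearMap.id ℝ F) ⟨fun u hu => hu, fun x y => rfl⟩
  rw [← hn, ← h1]
  exact ContinuousLinearMap.norm_id_le

lemma latHom_of_pos_inverse {T : F →L[ℝ] F'} {S : F' →L[ℝ] F} (hT : ∀ u, 0 ≤ u → 0 ≤ T u)
    (hS : ∀ u, 0 ≤ u → 0 ≤ S u) (h1 : ∀ u, S (T u) = u) (h2 : ∀ u, T (S u) = u) : IsLatHom T := by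
  have hTm : ∀ a b, a ≤ b → T a ≤ T b := fun a b hab => by
    have := hT (b - a) (sub_nonneg.2 hab)
    rwa [map_sub, sub_nonneg] at this
  have hSm : ∀ a b, a ≤ b → S a ≤ S b := fun a b hab => by
    have := hS (b - a) (sub_nonneg.2 hab)
    rwa [map_sub, sub_nonneg] at this
  intro a b
  constructor
  · refine le_antisymm ?_ (sup_le (hTm _ _ le_sup_left) (hTm _ _ le_sup_right))
    rw [← h2 (T a ⊔ T b)]
    refine hTm _ _ (sup_le ?_ ?_)
    · have := hSm _ _ (le_sup_left : T a ≤ T a ⊔ T b)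
      rwa [h1] at this
    · have := hSm _ _ (le_sup_right : T b ≤ T a ⊔ T b)
      rwa [h1] at this
  · refine le_antisymm (le_inf (hTm _ _ inf_le_left) (hTm _ _ inf_le_right)) ?_
    rw [← h2 (T a ⊓ T b)]
    refine hTm _ _ (le_inf ?_ ?_)
    · have := hSm _ _ (inf_le_left : T a ⊓ T b ≤ T a)
      rwa [h1] at this
    · have := hSm _ _ (inf_le_right : T a ⊓ T b ≤ T b)
      rwa [h1] at this

/-- projectivity passes to isometrically isomorphic Banach lattices -/
lemma IsProjective.transfer (hF : IsProjective.{u, v} F') {T : F →L[ℝ] F'} {S : F' →L[ℝ] F}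
    (hT : IsLatHom T) (hS : IsLatHom S) (hST : ∀ u, S (T u) = u) (hTn : ‖T‖ ≤ 1) (hSn : ‖S‖ ≤ 1) :
    IsProjective.{u, v} F := by
  intro A B _ _ _ _ _ _ _ _ Q hQ U hU ε hε
  have hUS : IsLatHom (U.comp S) := by
    intro a b
    constructor
    · show U (S (a ⊔ b)) = U (S a) ⊔ U (S b)
      rw [(hS a b).1, (hU _ _).1]
    · show U (S (a ⊓ b)) = U (S a) ⊓ U (S b)
      rw [(hS a b).2, (hU _ _).2]
  obtain ⟨V, hV, hVQ, hVn⟩ := hF A B Q hQ (U.comp S) hUS ε hε
  refine ⟨V.comp T, ?_, fun p => ?_, ?_⟩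
  · intro a b
    constructor
    · show V (T (a ⊔ b)) = V (T a) ⊔ V (T b)
      rw [(hT a b).1, (hV _ _).1]
    · show V (T (a ⊓ b)) = V (T a) ⊓ V (T b)
      rw [(hT a b).2, (hV _ _).2]
  · show Q (V (T p)) = U p
    rw [hVQ]
    show U (S (T p)) = U p
    rw [hST]
  · have h1 := ContinuousLinearMap.opNorm_comp_le V T
    have h2 := ContinuousLinearMap.opNorm_comp_le U S
    have h3 : ‖V.comp T‖ ≤ ‖V‖ := h1.trans (mul_le_of_le_one_right (norm_nonneg _) hTn)
    have h4 : ‖U.comp S‖ ≤ ‖U‖ := h2.trans (mul_le_of_le_one_right (norm_nonneg _) hSn)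
    exact h3.trans (hVn.trans (mul_le_mul_of_nonneg_left h4 (by positivity)))

/-- the Fremlin tensor product is unique up to an isometric lattice isomorphism; in particular
projectivity does not depend on the choice -/
theorem IsFremlin.isProjective (h : IsFremlin τ) (h' : IsFremlin τ')
    (hF : IsProjective.{u, v} F') : IsProjective.{u, v} F := by
  obtain ⟨T, ⟨hT, hTτ⟩, hTn, -⟩ := h.univ F' τ' h'.pos
  obtain ⟨S, ⟨hS, hSτ⟩, hSn, -⟩ := h'.univ F τ h.pos
  obtain ⟨T1, -, -, hu1⟩ := h.univ F τ h.pos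
  obtain ⟨S1, -, -, hu2⟩ := h'.univ F' τ' h'.pos
  have h1 : S.comp T = ContinuousLinearMap.id ℝ F := by
    rw [hu1 (S.comp T) ⟨fun u hu => hS _ (hT _ hu), fun x y => by
      show S (T (τ x y)) = _
      rw [hTτ, hSτ]⟩, hu1 (ContinuousLinearMap.id ℝ F) ⟨fun u hu => hu, fun x y => rfl⟩]
  have h2 : T.comp S = ContinuousLinearMap.id ℝ F' := by
    rw [hu2 (T.comp S) ⟨fun u hu => hT _ (hS _ hu), fun x y => by
      show T (S (τ' x y)) = _
      rw [hSτ, hTτ]⟩, hu2 (ContinuousLinearMap.id ℝ F') ⟨fun u hu => hu, fun x y => rfl⟩]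
  have h1' : ∀ u, S (T u) = u := fun u => congrArg (fun R : F →L[ℝ] F => R u) h1
  have h2' : ∀ u, T (S u) = u := fun u => congrArg (fun R : F' →L[ℝ] F' => R u) h2
  exact hF.transfer (latHom_of_pos_inverse hT hS h1' h2') (latHom_of_pos_inverse hS hT h2' h1') h1'
    (hTn.le.trans h'.norm_le_one) (hSn.le.trans h.norm_le_one)

end transfer

section PA

variable {A : Type u}

/-- the generators -/
noncomputable def pw : Option A → C(Cube A, ℝ)
  | none => 1
  | some a => 1 + cubeGen (some a)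

lemma pw_none : (pw none : C(Cube A, ℝ)) = 1 := rfl

lemma pw_some_apply (a : A) (k : Cube A) : pw (some a) k = 1 + (k a : ℝ) := rfl

lemma pw_nonneg (i : Option A) : (0 : C(Cube A, ℝ)) ≤ pw i := by
  intro k
  show 0 ≤ pw i k
  cases i with
  | none => exact zero_le_one
  | some a =>
    rw [pw_some_apply]
    have := (k a).2.1
    linarith

lemma pw_norm_le (i : Option A) : ‖(pw i : C(Cube A, ℝ))‖ ≤ 2 := by
  rw [ContinuousMap.norm_le _ zero_le_two]
  intro k
  have h0 : 0 ≤ pw i k := pw_nonneg i k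
  rw [Real.norm_of_nonneg h0]
  cases i with
  | none => exact one_le_two
  | some a =>
    rw [pw_some_apply]
    have := (k a).2.2
    linarith

variable (A) in
/-- the norm -/
noncomputable def pGauge : Gauge C(Cube A, ℝ) :=
  domGauge pw none (fun x => cabs_le x) 2 two_pos pw_norm_le

variable (A) in
/-- the projective Banach lattice -/
abbrev PA : Type u := Ren (pGauge A)

lemma pGauge_map {Z : Type v} [NormedAddCommGroup Z] [NormedSpace ℝ Z] [Lattice Z]
    [BanachLattice Z] (T : C(Cube A, ℝ) →ₗ[ℝ] Z) (hpos : ∀ x, 0 ≤ x → 0 ≤ T x) {M : ℝ} (hM : 0 ≤ M)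
    (hT : ∀ i, ‖T (pw i)‖ ≤ M) (x : C(Cube A, ℝ)) : ‖T x‖ ≤ M * (pGauge A).N x :=
  domGauge_map T hpos hM hT x

lemma pGauge_gen (i : Option A) : (pGauge A).N (pw i) ≤ 1 := domGauge_gen pw_nonneg i

theorem PA_isProjective : IsProjective.{u, v} (PA A) := by
  intro X Y _ _ _ _ _ _ _ _ Q hQ T hT ε hε
  let U : C(Cube A, ℝ) →L[ℝ] Y := T.comp (toRen (pGauge A))
  have hU : IsLatHom U := fun a b => ⟨(hT _ _).1, (hT _ _).2⟩
  have hUn : ∀ i, ‖U (pw i)‖ ≤ ‖T‖ := by
    intro i
    refine (T.le_opNorm _).trans (mul_le_of_le_one_right (norm_nonneg _) ?_)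
    exact pGauge_gen i
  have hUpos : ∀ i, 0 ≤ U (pw i) := fun i => hU.map_pos (pw_nonneg i)
  choose z hz0 hzQ hzn using fun i => hQ.exists_pos_lift' (hUpos i) (hUn i) hε
  let x : A → X := fun a => z (some a) ⊓ ((2 : ℝ) • z none)
  have hx0 : ∀ a, 0 ≤ x a := fun a => le_inf (hz0 _) (smul_nonneg zero_le_two (hz0 _))
  have hxQ : ∀ a, Q (x a) = U (pw (some a)) := by
    intro a
    show Q (z (some a) ⊓ ((2 : ℝ) • z none)) = _
    rw [(hQ.1 _ _).2, map_smul, hzQ, hzQ, ← map_smul]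
    refine inf_eq_left.2 (hU.mono ?_)
    intro k
    show pw (some a) k ≤ 2 * 1
    rw [pw_some_apply]
    have := (k a).2.2
    linarith
  have hy : ∀ a, |x a - z none| ≤ z none := by
    intro a
    rw [abs_le']
    constructor
    · rw [sub_le_iff_le_add, ← two_smul ℝ]
      exact inf_le_right
    · rw [neg_sub, sub_le_self_iff]
      exact hx0 a
  obtain ⟨S, hS, hSn, hS1, hSg⟩ := cube_univ (hz0 none) hy
  have hSw : ∀ i, ‖S (pw i)‖ ≤ (1 + ε) * ‖T‖ := by
    intro i
    cases i with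
    | none =>
      rw [pw_none, hS1]
      exact hzn none
    | some a =>
      have h1 : S (pw (some a)) = x a := by
        show S (1 + cubeGen (some a)) = _
        rw [map_add, hS1, hSg]
        abel
      rw [h1]
      exact (norm_le_of_nonneg (hx0 a) inf_le_left).trans (hzn (some a))
  have hM : 0 ≤ (1 + ε) * ‖T‖ := by positivity
  have hSb : ∀ f, ‖S f‖ ≤ (1 + ε) * ‖T‖ * (pGauge A).N f :=
    pGauge_map S.toLinearMap (fun f hf => hS.map_pos hf) hM hSw
  have hQS : IsLatHom (Q.comp S) := by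
    intro a b
    constructor
    · show Q (S (a ⊔ b)) = Q (S a) ⊔ Q (S b)
      rw [(hS a b).1, (hQ.1 _ _).1]
    · show Q (S (a ⊓ b)) = Q (S a) ⊓ Q (S b)
      rw [(hS a b).2, (hQ.1 _ _).2]
  have heq : Q.comp S = U := cube_ext hQS hU (by
    show Q (S 1) = U 1
    rw [hS1, hzQ, pw_none]) (fun a => by
    show Q (S (cubeGen (some a))) = U (cubeGen (some a))
    rw [hSg, map_sub, hxQ, hzQ, ← map_sub, pw_none]
    congr 1
    show 1 + cubeGen (some a) - 1 = _
    abel)
  let S' : PA A →ₗ[ℝ] X := S.toLinearMap.comp (ofRenL (pGauge A))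
  refine ⟨S'.mkContinuous _ (fun f => hSb (ofRenL (pGauge A) f)), fun a b => hS _ _, fun p => ?_,
    LinearMap.mkContinuous_norm_le _ hM _⟩
  exact congrArg (fun R : C(Cube A, ℝ) →L[ℝ] Y => R (ofRen _ p)) heq

theorem PA_isTopUnit : IsTopUnit (toRen (pGauge A) 1) := by
  refine ⟨fun k => zero_le_one, fun J _ hJ h1 => ?_⟩
  refine Submodule.eq_top_iff'.2 fun x => ?_
  have h2 := J.smul_mem ‖ofRen (pGauge A) x‖ h1
  refine hJ _ h2 x ?_
  refine le_trans ?_ (le_abs_self _)
  exact cabs_le (ofRen (pGauge A) x)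

end PA

section tensor

variable {A B : Type u}

/-- the generators of the tensor product -/
noncomputable def tw (q : Option A × Option B) : C(Cube A × Cube B, ℝ) := tens (pw q.1) (pw q.2)

lemma tens_nonneg {K L : Type u} [TopologicalSpace K] [TopologicalSpace L] {x : C(K, ℝ)}
    {y : C(L, ℝ)} (hx : 0 ≤ x) (hy : 0 ≤ y) : 0 ≤ tens x y := fun q => mul_nonneg (hx q.1) (hy q.2)

lemma tw_nonneg (q : Option A × Option B) : 0 ≤ tw q := tens_nonneg (pw_nonneg _) (pw_nonneg _)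

lemma tw_norm_le (q : Option A × Option B) : ‖tw q‖ ≤ 4 := by
  rw [ContinuousMap.norm_le _ (by norm_num)]
  intro k
  rw [tw, tens_apply, norm_mul]
  have h1 := ((pw q.1).norm_coe_le_norm k.1).trans (pw_norm_le q.1)
  have h2 := ((pw q.2).norm_coe_le_norm k.2).trans (pw_norm_le q.2)
  have h3 := mul_le_mul h1 h2 (norm_nonneg _) zero_le_two
  linarith

lemma tw_none : tw ((none, none) : Option A × Option B) = 1 := tens_one _ _

variable (A B) in
/-- the norm of the tensor product -/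
noncomputable def fGauge : Gauge C(Cube A × Cube B, ℝ) :=
  domGauge tw (none, none) (fun x => by rw [tw_none]; exact cabs_le x) 4 (by norm_num) tw_norm_le

variable (A B) in
/-- the Fremlin tensor product of `PA A` and `PA B` -/
abbrev FAB : Type u := Ren (fGauge A B)

lemma fGauge_map {Z : Type v} [NormedAddCommGroup Z] [NormedSpace ℝ Z] [Lattice Z]
    [BanachLattice Z] (T : C(Cube A × Cube B, ℝ) →ₗ[ℝ] Z) (hpos : ∀ x, 0 ≤ x → 0 ≤ T x) {M : ℝ}
    (hM : 0 ≤ M) (hT : ∀ i, ‖T (tw i)‖ ≤ M) (x : C(Cube A × Cube B, ℝ)) :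
    ‖T x‖ ≤ M * (fGauge A B).N x :=
  domGauge_map T hpos hM hT x

lemma fGauge_gen (i : Option A × Option B) : (fGauge A B).N (tw i) ≤ 1 := domGauge_gen tw_nonneg i

lemma dom_tens_right (i : Option A) {y : C(Cube B, ℝ)} {s : ℝ} (hy : Dom pw y s) :
    Dom (tw (A := A)) (tens (pw i) y) s := by
  induction hy with
  | zero =>
    have : tens (pw i) (0 : C(Cube B, ℝ)) = 0 := by ext q; simp [tens_apply]
    rw [this]; exact Dom.zero
  | gen j => exact Dom.gen (i, j)
  | add x y r s _ _ h1 h2 =>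
    have : tens (pw i) (x + y) = tens (pw i) x + tens (pw i) y := by
      ext q; simp [tens_apply, mul_add]
    rw [this]
    exact Dom.add _ _ _ _ h1 h2
  | smul t x r ht _ h1 =>
    have : tens (pw i) (t • x) = t • tens (pw i) x := by
      ext q; simp [tens_apply, mul_left_comm]
    rw [this]
    exact Dom.smul _ _ _ ht h1

lemma dom_tens {x : C(Cube A, ℝ)} {y : C(Cube B, ℝ)} {r s : ℝ} (hx : Dom pw x r) (hy : Dom pw y s) :
    Dom tw (tens x y) (r * s) := by
  induction hx with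
  | zero =>
    have : tens (0 : C(Cube A, ℝ)) y = 0 := by ext q; simp [tens_apply]
    rw [this, zero_mul]; exact Dom.zero
  | gen j => rw [one_mul]; exact dom_tens_right j hy
  | add x x' r r' _ _ h1 h2 =>
    have : tens (x + x') y = tens x y + tens x' y := by
      ext q; simp [tens_apply, add_mul]
    rw [this, add_mul]
    exact Dom.add _ _ _ _ h1 h2
  | smul t x r ht _ h1 =>
    have : tens (t • x) y = t • tens x y := by
      ext q; simp [tens_apply, mul_assoc]
    rw [this, mul_assoc]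
    exact Dom.smul _ _ _ ht h1

lemma N_tens_le (x : C(Cube A, ℝ)) (y : C(Cube B, ℝ)) :
    (fGauge A B).N (tens x y) ≤ (pGauge A).N x * (pGauge B).N y := by
  have key : ∀ r s, (pGauge A).P x r → (pGauge B).P y s → (fGauge A B).N (tens x y) ≤ r * s := by
    rintro r s ⟨x', hx', hxx⟩ ⟨y', hy', hyy⟩
    refine Gauge.N_le ⟨tens x' y', dom_tens hx' hy', fun q => ?_⟩
    show |tens x y| q ≤ tens x' y' q
    rw [cabs_apply, tens_apply, tens_apply, abs_mul]
    have h1 : |x| q.1 ≤ x' q.1 := hxx q.1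
    have h2 : |y| q.2 ≤ y' q.2 := hyy q.2
    rw [cabs_apply] at h1 h2
    exact mul_le_mul h1 h2 (abs_nonneg _) ((abs_nonneg _).trans h1)
  have hx0 := Gauge.N_nonneg (G := pGauge A) x
  have hy0 := Gauge.N_nonneg (G := pGauge B) y
  refine le_of_forall_pos_le_add fun ε hε => ?_
  obtain ⟨δ, hδ, hδ2⟩ : ∃ δ : ℝ, 0 < δ ∧ ((pGauge A).N x + δ) * ((pGauge B).N y + δ) <
      (pGauge A).N x * (pGauge B).N y + ε := by
    have hc : Continuous fun δ : ℝ => ((pGauge A).N x + δ) * ((pGauge B).N y + δ) := by fun_prop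
    have h1 := hc.tendsto 0
    simp only [add_zero] at h1
    have h2 : ∀ᶠ δ in 𝓝 (0 : ℝ), ((pGauge A).N x + δ) * ((pGauge B).N y + δ) <
      (pGauge A).N x * (pGauge B).N y + ε := h1.eventually_lt_const (by linarith)
    have h3 : ∀ᶠ δ in 𝓝[>] (0 : ℝ), ((pGauge A).N x + δ) * ((pGauge B).N y + δ) <
      (pGauge A).N x * (pGauge B).N y + ε := h2.filter_mono nhdsWithin_le_nhds
    obtain ⟨δ, hδ1, hδ2⟩ := (h3.and self_mem_nhdsWithin).exists
    exact ⟨δ, hδ2, hδ1⟩
  obtain ⟨r, hr, hr2⟩ := Gauge.exists_lt (G := pGauge A) (x := x) (s := (pGauge A).N x + δ) (by linarith)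
  obtain ⟨s, hs, hs2⟩ := Gauge.exists_lt (G := pGauge B) (x := y) (s := (pGauge B).N y + δ) (by linarith)
  refine (key r s hr2 hs2).trans (le_trans ?_ hδ2.le)
  exact mul_le_mul hr.le hs.le (Gauge.nonneg hs2) (by linarith)

/-- the bilinear map -/
noncomputable def fTau (A B : Type u) : PA A →L[ℝ] PA B →L[ℝ] FAB A B :=
  LinearMap.mkContinuous₂
    ((((tensL (Cube A) (Cube B)).comp (ofRenL (pGauge A))).compl₂ (ofRenL (pGauge B))).compr₂
      (toRenL (fGauge A B))) 1 (fun x y => by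
      rw [one_mul]
      exact N_tens_le (ofRenL (pGauge A) x) (ofRenL (pGauge B) y))

lemma fTau_apply (x : PA A) (y : PA B) :
    fTau A B x y = toRen (fGauge A B) (tens (ofRen (pGauge A) x) (ofRen (pGauge B) y)) := rfl

lemma fTau_norm_le : ‖fTau A B‖ ≤ 1 :=
  LinearMap.mkContinuous₂_norm_le _ zero_le_one _

theorem fTau_isFremlin (A B : Type u) : IsFremlin (fTau A B) where
  pos := fun x y hx hy => tens_nonneg (x := ofRen (pGauge A) x) (y := ofRen (pGauge B) y) hx hy
  univ := by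
    intro Z _ _ _ _ φ hφ
    let φ' : C(Cube A, ℝ) →ₗ[ℝ] C(Cube B, ℝ) →ₗ[ℝ] Z :=
      LinearMap.mk₂ ℝ (fun x y => φ (toRen (pGauge A) x) (toRen (pGauge B) y))
        (fun x x' y => by rw [map_add, map_add, _root_.add_apply])
        (fun c x y => by rw [map_smul, map_smul, _root_.smul_apply])
        (fun x y y' => by rw [map_add, map_add])
        (fun c x y => by rw [map_smul, map_smul])
    obtain ⟨T, hT, hTφ⟩ := exists_pos_ext φ' (fun x y hx hy => hφ _ _ hx hy)
    have hTw : ∀ i, ‖T (tw i)‖ ≤ ‖φ‖ := by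
      intro i
      rw [tw, hTφ]
      show ‖φ (toRen (pGauge A) (pw i.1)) (toRen (pGauge B) (pw i.2))‖ ≤ _
      refine (φ.le_opNorm₂ _ _).trans ?_
      rw [norm_toRen, norm_toRen, mul_assoc]
      refine mul_le_of_le_one_right (norm_nonneg φ) ?_
      exact mul_le_one₀ (pGauge_gen _) (Gauge.N_nonneg _) (pGauge_gen _)
    have hTb := fGauge_map T.toLinearMap hT (norm_nonneg φ) hTw
    let T' : FAB A B →ₗ[ℝ] Z := T.toLinearMap.comp (ofRenL (fGauge A B))
    have hT'n := T'.mkContinuous_norm_le (norm_nonneg φ) (fun f => hTb (ofRenL (fGauge A B) f))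
    have hT'τ : ∀ x y, (T'.mkContinuous _ (fun f => hTb (ofRenL (fGauge A B) f))) (fTau A B x y) =
        φ x y := fun x y => hTφ (ofRen (pGauge A) x) (ofRen (pGauge B) y)
    refine ⟨T'.mkContinuous _ (fun f => hTb (ofRenL (fGauge A B) f)), ⟨fun u hu => hT _ hu, hT'τ⟩,
      le_antisymm hT'n ?_, ?_⟩
    · refine φ.opNorm_le_bound₂ (norm_nonneg _) fun x y => ?_
      rw [← hT'τ x y]
      refine (ContinuousLinearMap.le_opNorm _ _).trans ?_
      rw [mul_assoc]
      refine mul_le_mul_of_nonneg_left ?_ (norm_nonneg _)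
      have h1 := (fTau A B).le_opNorm₂ x y
      refine h1.trans ?_
      rw [mul_assoc]
      exact mul_le_of_le_one_left (by positivity) fTau_norm_le
    · rintro R ⟨-, hR⟩
      have h1 : R.comp (toRen (fGauge A B)) = T := by
        refine ext_tens fun x y => ?_
        rw [hTφ]
        exact hR (toRen (pGauge A) x) (toRen (pGauge B) y)
      ext u
      exact congrArg (fun S : C(Cube A × Cube B, ℝ) →L[ℝ] Z => S (ofRen (fGauge A B) u)) h1

end tensor

end Pool.Agent.R280.BLat
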