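import Pool.Agent.R280.Fremlin

/-!
The Fremlin tensor product of `PA (ℕ → ℕ)` and `PA ℕ` is not projective.
-/

set_option autoImplicit false
set_option linter.unusedSectionVars false

open Set Topology Filter

universe u v w

namespace Pool.Agent.R280.BLat

namespace FT

open scoped Classical in
/-- a two-valued function, the values being taken on a clopen set and its complement -/
lemma ite_cont {X : Type u} [TopologicalSpace X] {s : Set X} (hs : IsClopen s) {Y : Type v}
    [TopologicalSpace Y] (y y' : Y) : Continuous fun x => if x ∈ s then y else y' :=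
  Continuous.if (p := fun x => x ∈ s) (fun a ha => by
    have h1 : frontier {x | x ∈ s} = ∅ := hs.frontier_eq
    rw [h1] at ha
    exact absurd ha (notMem_empty a)) continuous_const continuous_const

section disc

variable {D : Type u} [TopologicalSpace D] [DiscreteTopology D]

lemma clopen_finite (F : Set D) (hF : F.Finite) :
    IsClopen ((fun d : D => (d : OnePoint D)) '' F) := by
  constructor
  · exact (hF.image _).isClosed
  · exact OnePoint.isOpenEmbedding_coe.isOpenMap F (isOpen_discrete F)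

open scoped Classical in
/-- the point of the cube attached to a point of the one-point compactification of `D` -/
noncomputable def kp (D : Type u) [TopologicalSpace D] [DiscreteTopology D] :
    C(OnePoint D, Cube D) where
  toFun x := fun d => if x ∈ ((fun d : D => (d : OnePoint D)) '' {d}) then ⟨1, by norm_num⟩
    else ⟨-1, by norm_num⟩
  continuous_toFun := continuous_pi fun d => ite_cont (clopen_finite {d} (finite_singleton d)) _ _

open scoped Classical in
lemma pw_kp (d : D) (x : OnePoint D) : pw (some d) (kp D x) = if x = (d : OnePoint D) then 2 else 0 := by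
  rw [pw_some_apply]
  show 1 + (((if x ∈ ((fun d : D => (d : OnePoint D)) '' {d}) then ⟨1, by norm_num⟩
    else ⟨-1, by norm_num⟩ : Set.Icc (-1 : ℝ) 1)) : ℝ) = _
  rw [image_singleton, mem_singleton_iff]
  split_ifs <;> norm_num

lemma pw_kp_nonneg (i : Option D) (x : OnePoint D) : 0 ≤ pw i (kp D x) := pw_nonneg i (kp D x)

lemma pw_kp_le (i : Option D) (x : OnePoint D) : pw i (kp D x) ≤ 2 := by
  have h := ((pw i).norm_coe_le_norm (kp D x)).trans (pw_norm_le i)
  exact (le_abs_self _).trans h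

end disc

/-- `ℕ → ℕ` with the discrete topology -/
def DD : Type := ℕ → ℕ

instance : TopologicalSpace DD := ⊥

instance : DiscreteTopology DD := ⟨rfl⟩

/-- the compact space -/
abbrev Om : Type := (OnePoint DD × OnePoint ℕ) × OnePoint ℕ

/-- the point `(a, b, n)` -/
def pt (a : DD) (b n : ℕ) : Om := (((a : OnePoint DD), (b : OnePoint ℕ)), (n : OnePoint ℕ))

/-- the point `(a, b, ∞)` -/
def pinf (a : DD) (b : ℕ) : Om := (((a : OnePoint DD), (b : OnePoint ℕ)), OnePoint.infty)

/-- the norm -/
noncomputable def zG : Gauge C(Om, ℝ) where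
  P z r := (∀ q, |z q| ≤ 4 * r) ∧ ∀ (a : DD) (b : ℕ), |z (pt a b (a b))| + |z (pinf a b)| ≤ 4 * r
  add := by
    rintro x y r s ⟨h1, h2⟩ ⟨h3, h4⟩
    refine ⟨fun q => ?_, fun a b => ?_⟩
    · rw [ContinuousMap.add_apply]
      have := abs_add_le (x q) (y q)
      have := h1 q
      have := h3 q
      linarith
    · rw [ContinuousMap.add_apply, ContinuousMap.add_apply]
      have := abs_add_le (x (pt a b (a b))) (y (pt a b (a b)))
      have := abs_add_le (x (pinf a b)) (y (pinf a b))
      have := h2 a b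
      have := h4 a b
      linarith
  smul := by
    rintro t x r ht ⟨h1, h2⟩
    refine ⟨fun q => ?_, fun a b => ?_⟩
    · rw [ContinuousMap.smul_apply, smul_eq_mul, abs_mul, abs_of_pos ht]
      have := mul_le_mul_of_nonneg_left (h1 q) ht.le
      linarith
    · rw [ContinuousMap.smul_apply, ContinuousMap.smul_apply, smul_eq_mul, smul_eq_mul, abs_mul,
        abs_mul, abs_of_pos ht]
      have := mul_le_mul_of_nonneg_left (h2 a b) ht.le
      linarith
  mono := by
    rintro x y r h ⟨h1, h2⟩
    have h3 : ∀ q, |x q| ≤ |y q| := fun q => by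
      have : |x| q ≤ |y| q := h q
      rwa [cabs_apply, cabs_apply] at this
    refine ⟨fun q => (h3 q).trans (h1 q), fun a b => (add_le_add (h3 _) (h3 _)).trans (h2 a b)⟩
  C := 1
  bound := fun x => ⟨fun q => by
      have h1 := x.norm_coe_le_norm q
      rw [Real.norm_eq_abs] at h1
      have := norm_nonneg x
      linarith, fun a b => by
      have h1 := x.norm_coe_le_norm (pt a b (a b))
      have h2 := x.norm_coe_le_norm (pinf a b)
      rw [Real.norm_eq_abs] at h1 h2
      have := norm_nonneg x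
      linarith⟩
  c := 1 / 4
  c_pos := by norm_num
  lower := by
    rintro x r ⟨h1, -⟩
    have h0 : 0 ≤ r := by
      have h2 := (abs_nonneg _).trans (h1 ((OnePoint.infty, OnePoint.infty), OnePoint.infty))
      linarith
    have h2 : ‖x‖ ≤ 4 * r := by
      rw [ContinuousMap.norm_le _ (by linarith)]
      exact h1
    linarith

/-- the Banach lattice -/
abbrev ZZ : Type := Ren zG

/-- the closed ideal -/
noncomputable def zI : ClosedIdeal ZZ where
  J :=
    { carrier := {z | ∀ q : OnePoint DD × OnePoint ℕ, (ofRen zG z) (q, OnePoint.infty) = 0}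
      add_mem' := fun {a b} ha hb q => by
        rw [map_add, ContinuousMap.add_apply, ha q, hb q, add_zero]
      zero_mem' := fun q => by rw [map_zero]; rfl
      smul_mem' := fun c a ha q => by
        rw [map_smul, ContinuousMap.smul_apply, ha q, smul_zero] }
  closed := by
    have h1 : {z : ZZ | ∀ q : OnePoint DD × OnePoint ℕ, (ofRen zG z) (q, OnePoint.infty) = 0} =
        ⋂ q : OnePoint DD × OnePoint ℕ, {z : ZZ | (ofRen zG z) (q, OnePoint.infty) = 0} := by
      ext z; simp
    show IsClosed {z : ZZ | ∀ q : OnePoint DD × OnePoint ℕ, (ofRen zG z) (q, OnePoint.infty) = 0}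
    rw [h1]
    refine isClosed_iInter fun q => ?_
    exact isClosed_eq ((continuous_eval_const (F := C(Om, ℝ)) _).comp (ofRen zG).continuous)
      continuous_const
  solid := by
    intro a ha b hab q
    have h1 : |ofRen zG b| (q, OnePoint.infty) ≤ |ofRen zG a| (q, OnePoint.infty) :=
      hab (q, OnePoint.infty)
    rw [cabs_apply, cabs_apply, ha q, abs_zero] at h1
    exact abs_eq_zero.1 (le_antisymm h1 (abs_nonneg _))

/-- the map of the compact spaces -/
noncomputable def kap : C(Om, Cube DD × Cube ℕ) where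
  toFun q := (kp DD q.1.1, kp ℕ q.1.2)
  continuous_toFun := by fun_prop

/-- composition with `kap` -/
noncomputable def cK : C(Cube DD × Cube ℕ, ℝ) →ₗ[ℝ] C(Om, ℝ) where
  toFun u := u.comp kap
  map_add' _ _ := rfl
  map_smul' _ _ := rfl

/-- the map to the quotient -/
noncomputable def TT0 : C(Cube DD × Cube ℕ, ℝ) →ₗ[ℝ] IQ zI :=
  (iqMap zI).toLinearMap.comp ((toRenL zG).comp cK)

lemma TT0_apply (u : C(Cube DD × Cube ℕ, ℝ)) : TT0 u = iqMap zI (toRen zG (cK u)) := rfl

lemma TT0_pos (u : C(Cube DD × Cube ℕ, ℝ)) (hu : 0 ≤ u) : 0 ≤ TT0 u :=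
  (iqMap_latHom zI).map_pos (x := toRen zG (cK u)) (fun q => hu (kap q))

lemma norm_le_of_lift (u : C(Cube DD × Cube ℕ, ℝ)) (z : C(Om, ℝ)) (hz : zG.P z 1)
    (h : ∀ q : OnePoint DD × OnePoint ℕ, z (q, OnePoint.infty) = cK u (q, OnePoint.infty)) :
    ‖TT0 u‖ ≤ 1 := by
  have h1 : TT0 u = iqMap zI (toRen zG z) := by
    rw [TT0_apply, ← sub_eq_zero, ← map_sub, iqMap_eq_zero]
    intro q
    show (cK u - z) (q, OnePoint.infty) = 0
    rw [ContinuousMap.sub_apply, h q, sub_self]
  rw [h1]
  exact ((iqMap_quotient zI).norm_le _).trans (Gauge.N_le hz)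

lemma cK_tw (i : Option DD) (j : Option ℕ) (q : Om) :
    cK (tw (i, j)) q = pw i (kp DD q.1.1) * pw j (kp ℕ q.1.2) := rfl

open scoped Classical in
lemma TT0_gen (i : Option DD × Option ℕ) : ‖TT0 (tw i)‖ ≤ 1 := by
  obtain ⟨i, j⟩ := i
  by_cases hij : ∃ a b, i = some a ∧ j = some b
  · obtain ⟨a, b, rfl, rfl⟩ := hij
    let c : C(OnePoint ℕ, ℝ) := ⟨fun x => if x ∈ ((fun d : ℕ => (d : OnePoint ℕ)) '' {a b}) then 0
      else 1, ite_cont (clopen_finite {a b} (finite_singleton _)) _ _⟩
    have hc : ∀ x, c x = if x ∈ ((fun d : ℕ => (d : OnePoint ℕ)) '' {a b}) then 0 else 1 :=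
      fun x => rfl
    have hc1 : c (a b : OnePoint ℕ) = 0 := by rw [hc, image_singleton, if_pos (mem_singleton _)]
    have hc2 : c OnePoint.infty = 1 := by
      rw [hc, image_singleton, if_neg]
      rw [mem_singleton_iff]
      exact OnePoint.infty_ne_coe (a b)
    have hc3 : ∀ x, 0 ≤ c x ∧ c x ≤ 1 := by
      intro x
      rw [hc]
      split_ifs
      · exact ⟨le_rfl, zero_le_one⟩
      · exact ⟨zero_le_one, le_rfl⟩
    let z : C(Om, ℝ) := ⟨fun q => pw (some a) (kp DD q.1.1) * pw (some b) (kp ℕ q.1.2) * c q.2,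
      by fun_prop⟩
    have hz : ∀ q, z q = pw (some a) (kp DD q.1.1) * pw (some b) (kp ℕ q.1.2) * c q.2 :=
      fun q => rfl
    have hz4 : ∀ q, |z q| ≤ 4 := by
      intro q
      rw [hz, abs_of_nonneg (mul_nonneg (mul_nonneg (pw_kp_nonneg _ _) (pw_kp_nonneg _ _))
        (hc3 _).1)]
      have h1 : pw (some a) (kp DD q.1.1) * pw (some b) (kp ℕ q.1.2) ≤ 2 * 2 :=
        mul_le_mul (pw_kp_le _ _) (pw_kp_le _ _) (pw_kp_nonneg _ _) zero_le_two
      have h2 := mul_le_mul h1 (hc3 q.2).2 (hc3 q.2).1 (by norm_num)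
      linarith
    refine norm_le_of_lift _ z ⟨fun q => by rw [mul_one]; exact hz4 q, fun a' b' => ?_⟩ fun q => ?_
    · rw [mul_one]
      by_cases h : a' = a ∧ b' = b
      · obtain ⟨rfl, rfl⟩ := h
        have h1 : z (pt a' b' (a' b')) = 0 := by
          rw [hz]
          show _ * c (a' b' : OnePoint ℕ) = 0
          rw [hc1, mul_zero]
        rw [h1, abs_zero, zero_add]
        exact hz4 _
      · have h1 : ∀ x : OnePoint ℕ, z (((a' : OnePoint DD), (b' : OnePoint ℕ)), x) = 0 := by
          intro x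
          rw [hz]
          show pw (some a) (kp DD (a' : OnePoint DD)) * pw (some b) (kp ℕ (b' : OnePoint ℕ)) * _ = 0
          rw [pw_kp, pw_kp]
          by_cases h2 : a' = a
          · have h3 : b' ≠ b := fun h3 => h ⟨h2, h3⟩
            rw [if_neg (c := (b' : OnePoint ℕ) = (b : OnePoint ℕ))]
            · rw [mul_zero, zero_mul]
            · intro h4; exact h3 (OnePoint.coe_injective h4)
          · rw [if_neg (c := (a' : OnePoint DD) = (a : OnePoint DD))]
            · rw [zero_mul, zero_mul]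
            · intro h4; exact h2 (OnePoint.coe_injective h4)
        have h2 : z (pt a' b' (a' b')) = 0 := h1 _
        have h3 : z (pinf a' b') = 0 := h1 _
        rw [h2, h3, abs_zero, add_zero]
        norm_num
    · rw [hz, cK_tw]
      show _ * c OnePoint.infty = _
      rw [hc2, mul_one]
  · have h2 : ∀ q, |cK (tw (i, j)) q| ≤ 2 := by
      intro q
      rw [cK_tw, abs_of_nonneg (mul_nonneg (pw_kp_nonneg _ _) (pw_kp_nonneg _ _))]
      cases i with
      | none =>
        rw [pw_none]
        show 1 * _ ≤ (2 : ℝ)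
        rw [one_mul]
        exact pw_kp_le _ _
      | some a =>
        cases j with
        | none =>
          rw [pw_none]
          show _ * 1 ≤ (2 : ℝ)
          rw [mul_one]
          exact pw_kp_le _ _
        | some b => exact absurd ⟨a, b, rfl, rfl⟩ hij
    refine norm_le_of_lift _ (cK (tw (i, j))) ⟨fun q => ?_, fun a b => ?_⟩ fun q => rfl
    · exact (h2 q).trans (by norm_num)
    · have h3 := h2 (pt a b (a b))
      have h4 := h2 (pinf a b)
      linarith

/-- the lattice homomorphism to the quotient -/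
noncomputable def TT : FAB DD ℕ →L[ℝ] IQ zI :=
  (TT0.comp (ofRenL (fGauge DD ℕ))).mkContinuous 1 fun x =>
    fGauge_map TT0 TT0_pos zero_le_one TT0_gen (ofRenL (fGauge DD ℕ) x)

lemma TT_norm : ‖TT‖ ≤ 1 := LinearMap.mkContinuous_norm_le _ zero_le_one _

lemma TT_apply (u : C(Cube DD × Cube ℕ, ℝ)) : TT (toRen (fGauge DD ℕ) u) =
    iqMap zI (toRen zG (cK u)) := rfl

lemma TT_latHom : IsLatHom TT := fun a b =>
  iqMap_latHom zI (toRen zG (cK (ofRen (fGauge DD ℕ) a))) (toRen zG (cK (ofRen (fGauge DD ℕ) b)))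

/-- uniform convergence at infinity -/
lemma unif {X : Type u} [TopologicalSpace X] [CompactSpace X] (f : C(X × OnePoint ℕ, ℝ)) {δ : ℝ}
    (hδ : 0 < δ) : ∃ N : ℕ, ∀ n : ℕ, N ≤ n → ∀ x, |f (x, (n : OnePoint ℕ)) - f (x, OnePoint.infty)| ≤ δ := by
  let F : C(OnePoint ℕ, C(X, ℝ)) := ContinuousMap.curry (f.comp ContinuousMap.prodSwap)
  have h1 : Tendsto (fun n : ℕ => F (n : OnePoint ℕ)) atTop (𝓝 (F OnePoint.infty)) := by
    have h2 : Tendsto (fun n : ℕ => (n : OnePoint ℕ)) atTop (𝓝 OnePoint.infty) := by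
      have := OnePoint.tendsto_coe_infty (X := ℕ)
      rwa [coclosedCompact_eq_cocompact, cocompact_eq_cofinite, Nat.cofinite_eq_atTop] at this
    exact (F.continuous.tendsto _).comp h2
  obtain ⟨N, hN⟩ := (Metric.tendsto_atTop.1 h1) δ hδ
  refine ⟨N, fun n hn x => ?_⟩
  have h3 := (hN n hn).le
  rw [dist_eq_norm] at h3
  exact ((F (n : OnePoint ℕ) - F OnePoint.infty).norm_coe_le_norm x).trans h3

/-- lattice homomorphisms `C(K) → ℝ` are multiples of multiplicative functionals -/
lemma mult {K : Type u} [TopologicalSpace K] [CompactSpace K] (φ : C(K, ℝ) →ₗ[ℝ] ℝ)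
    (hφ : ∀ f, φ |f| = |φ f|) (f g : C(K, ℝ)) : φ (f * g) * φ 1 = φ f * φ g := by
  have hpos : ∀ f : C(K, ℝ), 0 ≤ f → 0 ≤ φ f := fun f hf => by
    have := hφ f
    rw [abs_of_nonneg hf] at this
    rw [this]
    exact abs_nonneg _
  have hmono : ∀ f g : C(K, ℝ), f ≤ g → φ f ≤ φ g := fun f g h => by
    have := hpos (g - f) (sub_nonneg.2 h)
    rw [map_sub] at this
    linarith
  rcases eq_or_ne (φ 1) 0 with h0 | h0
  · have h1 : ∀ f, φ f = 0 := by
      intro f
      have h2 := hmono _ _ (cabs_le f)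
      rw [map_smul, h0, smul_zero, hφ] at h2
      exact abs_eq_zero.1 (le_antisymm h2 (abs_nonneg _))
    rw [h1 f, h0, mul_zero, zero_mul]
  · set c := φ f / φ 1 with hc
    have hc1 : c * φ 1 = φ f := div_mul_cancel₀ _ h0
    have h1 : φ |f - c • 1| = 0 := by
      rw [hφ, map_sub, map_smul, smul_eq_mul, hc1, sub_self, abs_zero]
    have h2 : |f * g - c • g| ≤ ‖g‖ • |f - c • 1| := by
      intro k
      show |f * g - c • g| k ≤ (‖g‖ • |f - c • 1|) k
      rw [cabs_apply, ContinuousMap.smul_apply, cabs_apply]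
      simp only [ContinuousMap.sub_apply, ContinuousMap.mul_apply, ContinuousMap.smul_apply,
        smul_eq_mul, ContinuousMap.one_apply, mul_one]
      have h3 : f k * g k - c * g k = g k * (f k - c) := by ring
      rw [h3, abs_mul]
      exact mul_le_mul_of_nonneg_right (g.norm_coe_le_norm k) (abs_nonneg _)
    have h3 := hmono _ _ h2
    rw [hφ, map_smul, h1, smul_zero, map_sub, map_smul, smul_eq_mul] at h3
    have h4 : φ (f * g) - c * φ g = 0 := abs_eq_zero.1 (le_antisymm h3 (abs_nonneg _))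
    have h5 : φ (f * g) = c * φ g := by linarith
    rw [h5, ← hc1]
    ring

theorem FAB_not_projective : ¬ IsProjective.{0, 0} (FAB DD ℕ) := by
  intro hP
  obtain ⟨S, hS, hSQ, hSn⟩ := hP ZZ (IQ zI) (iqMap zI) (iqMap_quotient zI) TT TT_latHom (1 / 2)
    (by norm_num)
  have hSn' : ‖S‖ ≤ 3 / 2 := by
    have := TT_norm
    linarith
  let V : C(Cube DD × Cube ℕ, ℝ) →ₗ[ℝ] C(Om, ℝ) :=
    (ofRenL zG).comp (S.toLinearMap.comp (toRenL (fGauge DD ℕ)))
  have hV : ∀ u, V u = ofRen zG (S (toRen (fGauge DD ℕ) u)) := fun u => rfl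
  have hVinf : ∀ u (q : OnePoint DD × OnePoint ℕ), V u (q, OnePoint.infty) =
      u (kp DD q.1, kp ℕ q.2) := by
    intro u q
    have h1 := hSQ (toRen (fGauge DD ℕ) u)
    rw [TT_apply, ← sub_eq_zero, ← map_sub, iqMap_eq_zero] at h1
    have h2 := h1 q
    rw [map_sub, ContinuousMap.sub_apply, sub_eq_zero] at h2
    exact h2
  have hVabs : ∀ u, V |u| = |V u| := fun u => hS.map_abs (toRen (fGauge DD ℕ) u)
  have hVm : ∀ (q : Om) (f g : C(Cube DD × Cube ℕ, ℝ)), V (f * g) q * V 1 q = V f q * V g q := by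
    intro q f g
    let φ : C(Cube DD × Cube ℕ, ℝ) →ₗ[ℝ] ℝ :=
      { toFun := fun u => V u q
        map_add' := fun a b => by rw [map_add]; rfl
        map_smul' := fun c a => by rw [map_smul]; rfl }
    exact mult φ (fun f => by
      show V |f| q = |V f q|
      rw [hVabs, cabs_apply]) f g
  have hVn : ∀ i (a : DD) (b : ℕ), |V (tw i) (pt a b (a b))| + |V (tw i) (pinf a b)| ≤ 32 / 5 := by
    intro i a b
    have h1 : ‖S (toRen (fGauge DD ℕ) (tw i))‖ ≤ 3 / 2 := by
      refine (S.le_opNorm _).trans ?_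
      have h2 : ‖toRen (fGauge DD ℕ) (tw i)‖ ≤ 1 := fGauge_gen i
      have h3 := norm_nonneg (toRen (fGauge DD ℕ) (tw i))
      have h4 := norm_nonneg S
      nlinarith
    have h2 : zG.N (V (tw i)) < 8 / 5 := lt_of_le_of_lt h1 (by norm_num)
    obtain ⟨r, hr, hr2⟩ := Gauge.exists_lt h2
    have := hr2.2 a b
    linarith
  choose N hN using fun u : C(Cube DD × Cube ℕ, ℝ) => unif (V u) (δ := 1 / 10) (by norm_num)
  let g : DD → ℕ := fun a => N (tw (some a, none))
  let h : ℕ → ℕ := fun b => N (tw (none, some b))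
  let a : DD := fun n => h n + n + N 1
  let b : ℕ := g a
  have hab : a b = h b + b + N 1 := rfl
  have e1 : |V (tw (some a, none)) (pt a b (a b)) - V (tw (some a, none)) (pinf a b)| ≤ 1 / 10 :=
    hN _ (a b) (by
      have h0 : N (tw (some a, none)) = b := rfl
      rw [h0, hab]
      omega) _
  have e2 : |V (tw (none, some b)) (pt a b (a b)) - V (tw (none, some b)) (pinf a b)| ≤ 1 / 10 :=
    hN _ (a b) (by
      have h0 : N (tw (none, some b)) = h b := rfl
      rw [h0, hab]
      omega) _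
  have e3 : |V 1 (pt a b (a b)) - V 1 (pinf a b)| ≤ 1 / 10 :=
    hN _ (a b) (by
      rw [hab]
      omega) _
  have v1 : V (tw (some a, none)) (pinf a b) = 2 := by
    show V (tw (some a, none)) (((a : OnePoint DD), (b : OnePoint ℕ)), OnePoint.infty) = 2
    rw [hVinf, tw, tens_apply]
    show pw (some a) (kp DD (a : OnePoint DD)) * pw none (kp ℕ (b : OnePoint ℕ)) = 2
    rw [pw_kp, pw_none, if_pos rfl]
    show 2 * (1 : ℝ) = 2
    norm_num
  have v2 : V (tw (none, some b)) (pinf a b) = 2 := by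
    show V (tw (none, some b)) (((a : OnePoint DD), (b : OnePoint ℕ)), OnePoint.infty) = 2
    rw [hVinf, tw, tens_apply]
    show pw none (kp DD (a : OnePoint DD)) * pw (some b) (kp ℕ (b : OnePoint ℕ)) = 2
    rw [pw_kp, pw_none, if_pos rfl]
    show (1 : ℝ) * 2 = 2
    norm_num
  have v3 : V 1 (pinf a b) = 1 := by
    show V 1 (((a : OnePoint DD), (b : OnePoint ℕ)), OnePoint.infty) = 1
    rw [hVinf]
    rfl
  have v4 : V (tw (some a, some b)) (pinf a b) = 4 := by
    show V (tw (some a, some b)) (((a : OnePoint DD), (b : OnePoint ℕ)), OnePoint.infty) = 4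
    rw [hVinf, tw, tens_apply]
    show pw (some a) (kp DD (a : OnePoint DD)) * pw (some b) (kp ℕ (b : OnePoint ℕ)) = 4
    rw [pw_kp, pw_kp, if_pos rfl, if_pos rfl]
    norm_num
  have hprod : (tw (some a, some b) : C(Cube DD × Cube ℕ, ℝ)) =
      tw (some a, none) * tw (none, some b) := by
    ext q
    rw [ContinuousMap.mul_apply, tw, tw, tw, tens_apply, tens_apply, tens_apply]
    show _ = (_ * pw none _) * (pw none _ * _)
    rw [pw_none, pw_none, ContinuousMap.one_apply, ContinuousMap.one_apply, mul_one, one_mul]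
  have e4 := hVm (pt a b (a b)) (tw (some a, none)) (tw (none, some b))
  rw [← hprod] at e4
  have e5 := hVn (some a, some b) a b
  rw [v4] at e5
  rw [v1, abs_le] at e1
  rw [v2, abs_le] at e2
  rw [v3, abs_le] at e3
  have e6 := le_abs_self (V (tw (some a, some b)) (pt a b (a b)))
  rw [abs_of_nonneg (by norm_num : (0 : ℝ) ≤ 4)] at e5
  set x := V (tw (some a, some b)) (pt a b (a b))
  set y1 := V (tw (some a, none)) (pt a b (a b))
  set y2 := V (tw (none, some b)) (pt a b (a b))
  set y0 := V 1 (pt a b (a b))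
  have f1 : x ≤ 12 / 5 := by linarith
  have f2 : 19 / 10 ≤ y1 := by linarith [e1.1]
  have f3 : 19 / 10 ≤ y2 := by linarith [e2.1]
  have f4 : y0 ≤ 11 / 10 := by linarith [e3.2]
  have f5 : 9 / 10 ≤ y0 := by linarith [e3.1]
  have f6 : (19 / 10) * (19 / 10) ≤ y1 * y2 := mul_le_mul f2 f3 (by norm_num) (by linarith)
  have f7 : x * y0 ≤ 12 / 5 * y0 := mul_le_mul_of_nonneg_right f1 (by linarith)
  nlinarith

end FT

end Pool.Agent.R280.BLat
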