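import Pool.Agent.R280.BLat

/-!
Equivalent lattice norms on Banach lattices.
-/

set_option autoImplicit false
set_option linter.unusedSectionVars false

open Set Topology Filter

universe u v w

namespace Pool.Agent.R280.BLat

/-- data defining an equivalent lattice norm -/
structure Gauge (E : Type u) [NormedAddCommGroup E] [NormedSpace ℝ E] [Lattice E] where
  P : E → ℝ → Prop
  add : ∀ x y r s, P x r → P y s → P (x + y) (r + s)
  smul : ∀ (t : ℝ) x r, 0 < t → P x r → P (t • x) (t * r)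
  mono : ∀ x y r, |x| ≤ |y| → P y r → P x r
  C : ℝ
  bound : ∀ x, P x (C * ‖x‖)
  c : ℝ
  c_pos : 0 < c
  lower : ∀ x r, P x r → c * ‖x‖ ≤ r

variable {E : Type u} [NormedAddCommGroup E] [NormedSpace ℝ E] [Lattice E] [BanachLattice E]

namespace Gauge

variable (G : Gauge E)

/-- the norm -/
noncomputable def N (x : E) : ℝ := sInf {r | G.P x r}

variable {G}

lemma nonneg {x : E} {r : ℝ} (h : G.P x r) : 0 ≤ r :=
  le_trans (mul_nonneg G.c_pos.le (norm_nonneg x)) (G.lower x r h)

lemma N_le {x : E} {r : ℝ} (h : G.P x r) : G.N x ≤ r :=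
  csInf_le ⟨0, fun _ hs => nonneg hs⟩ h

lemma le_N {x : E} {a : ℝ} (h : ∀ r, G.P x r → a ≤ r) : a ≤ G.N x :=
  le_csInf ⟨_, G.bound x⟩ h

lemma exists_lt {x : E} {s : ℝ} (h : G.N x < s) : ∃ r < s, G.P x r := by
  obtain ⟨r, hr, hrs⟩ := exists_lt_of_csInf_lt ⟨_, G.bound x⟩ h
  exact ⟨r, hrs, hr⟩

lemma N_nonneg (x : E) : 0 ≤ G.N x := le_N fun _ hr => nonneg hr

lemma N_lower (x : E) : G.c * ‖x‖ ≤ G.N x := le_N fun r hr => G.lower x r hr

lemma N_bound (x : E) : G.N x ≤ G.C * ‖x‖ := N_le (G.bound x)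

lemma N_zero : G.N 0 = 0 := by
  refine le_antisymm ?_ (N_nonneg _)
  have := N_bound (G := G) 0
  rwa [norm_zero, mul_zero] at this

lemma N_add (x y : E) : G.N (x + y) ≤ G.N x + G.N y := by
  refine le_of_forall_pos_le_add fun ε hε => ?_
  obtain ⟨r, hr, hr2⟩ := exists_lt (G := G) (x := x) (s := G.N x + ε / 2) (by linarith)
  obtain ⟨s, hs, hs2⟩ := exists_lt (G := G) (x := y) (s := G.N y + ε / 2) (by linarith)
  have := N_le (G.add _ _ _ _ hr2 hs2)
  linarith

lemma N_mono {x y : E} (h : |x| ≤ |y|) : G.N x ≤ G.N y := le_N fun r hr => N_le (G.mono _ _ r h hr)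

lemma N_neg (x : E) : G.N (-x) = G.N x := by
  refine le_antisymm (N_mono ?_) (N_mono ?_)
  · rw [abs_neg]
  · rw [abs_neg]

lemma N_eq_zero {x : E} (h : G.N x = 0) : x = 0 := by
  have := N_lower (G := G) x
  rw [h] at this
  have h2 := G.c_pos
  have h3 : ‖x‖ ≤ 0 := by
    by_contra hcon
    push Not at hcon
    have := mul_pos h2 hcon
    linarith
  exact norm_le_zero_iff.1 h3

lemma N_smul_pos {t : ℝ} (ht : 0 < t) (x : E) : G.N (t • x) ≤ t * G.N x := by
  have h1 : t⁻¹ * G.N (t • x) ≤ G.N x := by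
    refine le_N fun r hr => ?_
    have := N_le (G.smul t x r ht hr)
    rw [inv_mul_le_iff₀ ht]
    exact this
  rwa [inv_mul_le_iff₀ ht] at h1

lemma N_smul_le (t : ℝ) (x : E) : G.N (t • x) ≤ |t| * G.N x := by
  rcases lt_trichotomy t 0 with h | h | h
  · rw [abs_of_neg h]
    have h1 := N_smul_pos (G := G) (neg_pos.2 h) x
    rwa [neg_smul, N_neg] at h1
  · subst h
    rw [zero_smul, N_zero, abs_zero, zero_mul]
  · rw [abs_of_pos h]
    exact N_smul_pos h x

end Gauge

/-- the renormed Banach lattice -/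
def Ren (_G : Gauge E) : Type u := E

variable {G : Gauge E}

instance : AddCommGroup (Ren G) := inferInstanceAs (AddCommGroup E)

noncomputable instance : NormedAddCommGroup (Ren G) :=
  AddGroupNorm.toNormedAddCommGroup (E := Ren G)
    { toFun := G.N
      map_zero' := Gauge.N_zero (G := G)
      add_le' := Gauge.N_add (G := G)
      neg' := Gauge.N_neg (G := G)
      eq_zero_of_map_eq_zero' := fun _ h => Gauge.N_eq_zero (G := G) h }

instance : Module ℝ (Ren G) := inferInstanceAs (Module ℝ E)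

noncomputable instance : NormedSpace ℝ (Ren G) where
  norm_smul_le t x := Gauge.N_smul_le (G := G) t x

instance : Lattice (Ren G) := inferInstanceAs (Lattice E)

/-- the identity map, linear -/
def toRenL (G : Gauge E) : E →ₗ[ℝ] Ren G where
  toFun x := x
  map_add' _ _ := rfl
  map_smul' _ _ := rfl

/-- the identity map, linear -/
def ofRenL (G : Gauge E) : Ren G →ₗ[ℝ] E where
  toFun x := x
  map_add' _ _ := rfl
  map_smul' _ _ := rfl

lemma ren_norm (x : Ren G) : ‖x‖ = G.N (ofRenL G x) := rfl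

/-- the identity map -/
noncomputable def toRen (G : Gauge E) : E →L[ℝ] Ren G :=
  (toRenL G).mkContinuous G.C fun x => Gauge.N_bound x

/-- the identity map -/
noncomputable def ofRen (G : Gauge E) : Ren G →L[ℝ] E :=
  (ofRenL G).mkContinuous G.c⁻¹ fun x => by
    have h := Gauge.N_lower (G := G) (ofRenL G x)
    rw [← ren_norm] at h
    rw [mul_comm, ← div_eq_mul_inv, le_div_iff₀ G.c_pos, mul_comm]
    exact h

lemma toRen_ofRen (x : Ren G) : toRen G (ofRen G x) = x := rfl

lemma ofRen_toRen (x : E) : ofRen G (toRen G x) = x := rfl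

lemma norm_toRen (x : E) : ‖toRen G x‖ = G.N x := rfl

lemma norm_ren (x : Ren G) : ‖x‖ = G.N (ofRen G x) := rfl

instance : IsOrderedAddMonoid (Ren G) := inferInstanceAs (IsOrderedAddMonoid E)

instance : HasSolidNorm (Ren G) where
  solid := fun _ _ h => Gauge.N_mono (G := G) h

instance : PosSMulMono ℝ (Ren G) := inferInstanceAs (PosSMulMono ℝ E)

/-- the identity map is an isomorphism -/
noncomputable def renEquiv (G : Gauge E) : Ren G ≃L[ℝ] E :=
  ContinuousLinearEquiv.equivOfInverse (ofRen G) (toRen G) (fun x => toRen_ofRen x)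
    (fun x => ofRen_toRen x)

instance : CompleteSpace (Ren G) := by
  have h := (renEquiv G).isUniformEmbedding
  exact (completeSpace_congr (e := (renEquiv G).toEquiv) h).2 BanachLattice.toCompleteSpace

instance : BanachLattice (Ren G) where

lemma toRen_latHom (G : Gauge E) : IsLatHom (toRen G) := fun _ _ => ⟨rfl, rfl⟩

lemma ofRen_latHom (G : Gauge E) : IsLatHom (ofRen G) := fun _ _ => ⟨rfl, rfl⟩

section dom

variable {ι : Type w}

/-- nonnegative combinations of the `w i`, with their sum of coefficients -/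
inductive Dom (w : ι → E) : E → ℝ → Prop
  | zero : Dom w 0 0
  | gen (i : ι) : Dom w (w i) 1
  | add (x y : E) (r s : ℝ) : Dom w x r → Dom w y s → Dom w (x + y) (r + s)
  | smul (t : ℝ) (x : E) (r : ℝ) : 0 ≤ t → Dom w x r → Dom w (t • x) (t * r)

lemma Dom.nonneg {w : ι → E} {x : E} {r : ℝ} (h : Dom w x r) : 0 ≤ r := by
  induction h with
  | zero => exact le_rfl
  | gen i => exact zero_le_one
  | add x y r s _ _ h1 h2 => exact add_nonneg h1 h2
  | smul t x r ht _ h1 => exact mul_nonneg ht h1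

lemma Dom.norm_le {w : ι → E} {x : E} {r C : ℝ} (h : Dom w x r) (hC : ∀ i, ‖w i‖ ≤ C) :
    ‖x‖ ≤ C * r := by
  induction h with
  | zero => simp
  | gen i => rw [mul_one]; exact hC i
  | add x y r s _ _ h1 h2 =>
    rw [mul_add]
    exact (norm_add_le _ _).trans (add_le_add h1 h2)
  | smul t x r ht _ h1 =>
    rw [norm_smul, Real.norm_of_nonneg ht]
    have := mul_le_mul_of_nonneg_left h1 ht
    linarith

lemma Dom.map {w : ι → E} {x : E} {r M : ℝ} {Z : Type v} [NormedAddCommGroup Z] [NormedSpace ℝ Z]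
    (h : Dom w x r) (T : E →ₗ[ℝ] Z) (hT : ∀ i, ‖T (w i)‖ ≤ M) : ‖T x‖ ≤ M * r := by
  induction h with
  | zero => simp
  | gen i => rw [mul_one]; exact hT i
  | add x y r s _ _ h1 h2 =>
    rw [mul_add, map_add]
    exact (norm_add_le _ _).trans (add_le_add h1 h2)
  | smul t x r ht _ h1 =>
    rw [map_smul, norm_smul, Real.norm_of_nonneg ht]
    have := mul_le_mul_of_nonneg_left h1 ht
    linarith

/-- the domination norm given by the `w i` -/
noncomputable def domGauge (w : ι → E) (i0 : ι) (h0 : ∀ x, |x| ≤ ‖x‖ • w i0) (C : ℝ) (hC0 : 0 < C)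
    (hC : ∀ i, ‖w i‖ ≤ C) : Gauge E where
  P x r := ∃ y, Dom w y r ∧ |x| ≤ y
  add := by
    rintro x y r s ⟨a, ha, ha2⟩ ⟨b, hb, hb2⟩
    exact ⟨a + b, Dom.add _ _ _ _ ha hb, (abs_add_le x y).trans (add_le_add ha2 hb2)⟩
  smul := by
    rintro t x r ht ⟨a, ha, ha2⟩
    refine ⟨t • a, Dom.smul _ _ _ ht.le ha, ?_⟩
    refine le_trans ?_ (smul_le_smul_of_nonneg_left ha2 ht.le)
    rw [abs_le']
    constructor
    · exact smul_le_smul_of_nonneg_left (le_abs_self x) ht.le
    · rw [← smul_neg]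
      exact smul_le_smul_of_nonneg_left (neg_le_abs x) ht.le
  mono := by
    rintro x y r hxy ⟨a, ha, ha2⟩
    exact ⟨a, ha, hxy.trans ha2⟩
  C := 1
  bound := fun x => ⟨‖x‖ • w i0, by
    have := Dom.smul (w := w) ‖x‖ _ _ (norm_nonneg x) (Dom.gen i0)
    rw [mul_one] at this
    rwa [one_mul], h0 x⟩
  c := C⁻¹
  c_pos := inv_pos.2 hC0
  lower := by
    rintro x r ⟨a, ha, ha2⟩
    rw [inv_mul_le_iff₀ hC0]
    refine le_trans ?_ (ha.norm_le hC)
    refine HasSolidNorm.solid ?_
    exact ha2.trans (le_abs_self a)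

variable {w : ι → E} {i0 : ι} {h0 : ∀ x, |x| ≤ ‖x‖ • w i0} {C : ℝ} {hC0 : 0 < C}
    {hC : ∀ i, ‖w i‖ ≤ C}

lemma domGauge_gen (hw : ∀ i, 0 ≤ w i) (i : ι) : (domGauge w i0 h0 C hC0 hC).N (w i) ≤ 1 :=
  Gauge.N_le ⟨w i, Dom.gen i, by rw [abs_of_nonneg (hw i)]⟩

/-- a positive linear map is bounded by its values at the `w i` -/
lemma domGauge_map {Z : Type v} [NormedAddCommGroup Z] [NormedSpace ℝ Z] [Lattice Z]
    [BanachLattice Z] (T : E →ₗ[ℝ] Z) (hpos : ∀ x, 0 ≤ x → 0 ≤ T x) {M : ℝ} (hM : 0 ≤ M)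
    (hT : ∀ i, ‖T (w i)‖ ≤ M) (x : E) : ‖T x‖ ≤ M * (domGauge w i0 h0 C hC0 hC).N x := by
  have key : ∀ r, (domGauge w i0 h0 C hC0 hC).P x r → ‖T x‖ ≤ M * r := by
    rintro r ⟨y, hy, hxy⟩
    refine le_trans ?_ (hy.map T hT)
    refine HasSolidNorm.solid ?_
    have h1 : |T x| ≤ T y := by
      rw [abs_le']
      constructor
      · have := hpos (y - x) (sub_nonneg.2 ((le_abs_self x).trans hxy))
        rwa [map_sub, sub_nonneg] at this
      · have := hpos (y + x) (by
          have := (neg_le_abs x).trans hxy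
          rw [← sub_neg_eq_add]
          exact sub_nonneg.2 this)
        rw [map_add] at this
        exact neg_le_iff_add_nonneg.2 this
    exact h1.trans (le_abs_self _)
  rcases eq_or_lt_of_le hM with h | h
  · subst h
    have := key _ ((domGauge w i0 h0 C hC0 hC).bound x)
    rw [zero_mul] at this ⊢
    exact this
  · have h1 : M⁻¹ * ‖T x‖ ≤ (domGauge w i0 h0 C hC0 hC).N x :=
      Gauge.le_N fun r hr => by
        rw [inv_mul_le_iff₀ h]
        exact key r hr
    rwa [inv_mul_le_iff₀ h] at h1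

end dom

end Pool.Agent.R280.BLat
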