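import Pool.Agent.R280.BLat

/-!
Positive functionals on a Banach lattice.
-/

set_option autoImplicit false

open Set Topology Filter Pool.Agent.R280.BLat

universe v

namespace Pool.Agent.R280.PosFun

variable {E : Type v} [NormedAddCommGroup E] [NormedSpace ℝ E] [Lattice E] [BanachLattice E]

lemma norm_mono {a b : E} (ha : 0 ≤ a) (h : a ≤ b) : ‖a‖ ≤ ‖b‖ := by
  refine HasSolidNorm.solid ?_
  rwa [abs_of_nonneg ha, abs_of_nonneg (ha.trans h)]

lemma exists_functional (w : E) (hw : 0 ≤ w) :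
    ∃ f : E →L[ℝ] ℝ, (∀ x, 0 ≤ x → 0 ≤ f x) ∧ f w = ‖w‖ ∧ ∀ x, |f x| ≤ ‖x‖ := by
  classical
  set N : E → ℝ := fun x => ‖x ⊔ 0‖ with hN
  have hsmul : ∀ c : ℝ, 0 < c → ∀ x, N (c • x) = c * N x := by
    intro c hc x
    have h1 : (c • x) ⊔ 0 = c • (x ⊔ 0) := by
      apply le_antisymm
      · refine sup_le (smul_le_smul_of_nonneg_left le_sup_left hc.le) (smul_nonneg hc.le le_sup_right)
      · have h2 : x ⊔ 0 ≤ c⁻¹ • ((c • x) ⊔ 0) := by
          refine sup_le ?_ (smul_nonneg (inv_nonneg.2 hc.le) le_sup_right)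
          calc x = c⁻¹ • (c • x) := by rw [smul_smul, inv_mul_cancel₀ hc.ne', one_smul]
            _ ≤ _ := smul_le_smul_of_nonneg_left le_sup_left (inv_nonneg.2 hc.le)
        calc c • (x ⊔ 0) ≤ c • (c⁻¹ • ((c • x) ⊔ 0)) := smul_le_smul_of_nonneg_left h2 hc.le
          _ = _ := by rw [smul_smul, mul_inv_cancel₀ hc.ne', one_smul]
    simp only [hN]
    rw [h1, norm_smul, Real.norm_of_nonneg hc.le]
  have hadd : ∀ x y, N (x + y) ≤ N x + N y := by
    intro x y
    refine le_trans (norm_mono le_sup_right ?_) (norm_add_le _ _)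
    refine sup_le (add_le_add le_sup_left le_sup_left) (add_nonneg le_sup_right le_sup_right)
  obtain ⟨g, hg1, hg2⟩ : ∃ g : E →ₗ[ℝ] ℝ, g w = ‖w‖ ∧ ∀ x, g x ≤ N x := by
    by_cases hw0 : w = 0
    · refine ⟨0, by simp [hw0], fun x => norm_nonneg _⟩
    · let f₀ : E →ₗ.[ℝ] ℝ := LinearPMap.mkSpanSingleton w ‖w‖ hw0
      obtain ⟨g, hg1, hg2⟩ := exists_extension_of_le_sublinear f₀ N hsmul hadd (by
        rintro ⟨x, hx⟩
        obtain ⟨t, rfl⟩ := Submodule.mem_span_singleton.1 hx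
        rw [LinearPMap.mkSpanSingleton'_apply]
        show t • ‖w‖ ≤ ‖(t • w) ⊔ 0‖
        rw [smul_eq_mul]
        rcases le_or_gt t 0 with ht | ht
        · exact (mul_nonpos_of_nonpos_of_nonneg ht (norm_nonneg _)).trans (norm_nonneg _)
        · rw [sup_eq_left.2 (smul_nonneg ht.le hw), norm_smul, Real.norm_of_nonneg ht.le])
      refine ⟨g, ?_, hg2⟩
      have h1 := hg1 ⟨w, Submodule.mem_span_singleton_self w⟩
      rw [h1]
      exact LinearPMap.mkSpanSingleton_apply ℝ ℝ hw0 ‖w‖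
  have hNle : ∀ x, N x ≤ ‖x‖ := by
    intro x
    refine HasSolidNorm.solid ?_
    rw [abs_of_nonneg (le_sup_right : (0 : E) ≤ x ⊔ 0)]
    exact sup_le (le_abs_self x) (abs_nonneg x)
  have habs : ∀ x, |g x| ≤ ‖x‖ := by
    intro x
    rw [abs_le]
    constructor
    · have h1 := (hg2 (-x)).trans (hNle (-x))
      rw [map_neg, norm_neg] at h1
      linarith
    · exact (hg2 x).trans (hNle x)
  refine ⟨g.mkContinuous 1 (fun x => by rw [one_mul]; exact habs x), ?_, hg1, habs⟩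
  intro x hx
  show 0 ≤ g x
  have h1 := hg2 (-x)
  simp only [hN] at h1
  rw [sup_eq_right.2 (neg_nonpos.2 hx), norm_zero, map_neg] at h1
  linarith

end Pool.Agent.R280.PosFun
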