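import Pool.Agent.R280.BLat
import Pool.Agent.R280.PosFun

/-!
Decomposition of positive functionals and the extension of maps to lattice homomorphisms.
-/

set_option autoImplicit false
set_option linter.unusedSectionVars false

open Set Topology Filter

universe u v w

namespace Pool.Agent.R280.BLat

section RK

variable {Y : Type v} [NormedAddCommGroup Y] [NormedSpace ℝ Y] [Lattice Y] [BanachLattice Y]

/-- a positive linear functional -/
def IsPosF (ψ : Y →ₗ[ℝ] ℝ) : Prop := ∀ y, 0 ≤ y → 0 ≤ ψ y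

lemma IsPosF.mono {ψ : Y →ₗ[ℝ] ℝ} (h : IsPosF ψ) {a b : Y} (hab : a ≤ b) : ψ a ≤ ψ b := by
  have := h (b - a) (sub_nonneg.2 hab)
  rw [map_sub] at this
  linarith

/-- splitting of a positive functional along `w` -/
lemma IsPosF.split {ψ : Y →ₗ[ℝ] ℝ} (h : IsPosF ψ) (w : Y) :
    ∃ ψ1 ψ2 : Y →ₗ[ℝ] ℝ, IsPosF ψ1 ∧ IsPosF ψ2 ∧ ψ1 + ψ2 = ψ ∧ ψ1 w = ψ (w ⊔ 0) := by
  by_cases hw : w = 0
  · refine ⟨ψ, 0, h, fun y _ => le_rfl, add_zero ψ, ?_⟩
    rw [hw, sup_idem]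
  let p : Y → ℝ := fun y => ψ (y ⊔ 0)
  have hphom : ∀ c : ℝ, 0 < c → ∀ y, p (c • y) = c * p y := by
    intro c hc y
    show ψ ((c • y) ⊔ 0) = c * ψ (y ⊔ 0)
    have h1 : (c • y) ⊔ 0 = c • (y ⊔ 0) := by
      refine le_antisymm (sup_le ?_ ?_) ?_
      · exact smul_le_smul_of_nonneg_left le_sup_left hc.le
      · exact smul_nonneg hc.le le_sup_right
      · have h2 : y ⊔ 0 ≤ c⁻¹ • ((c • y) ⊔ 0) := by
          refine sup_le ?_ (smul_nonneg (inv_nonneg.2 hc.le) le_sup_right)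
          have h3 := smul_le_smul_of_nonneg_left (le_sup_left (a := c • y) (b := 0))
            (inv_nonneg.2 hc.le)
          rwa [smul_smul, inv_mul_cancel₀ hc.ne', one_smul] at h3
        have h4 := smul_le_smul_of_nonneg_left h2 hc.le
        rwa [smul_smul, mul_inv_cancel₀ hc.ne', one_smul] at h4
    rw [h1, map_smul, smul_eq_mul]
  have hpadd : ∀ y z, p (y + z) ≤ p y + p z := by
    intro y z
    show ψ ((y + z) ⊔ 0) ≤ ψ (y ⊔ 0) + ψ (z ⊔ 0)
    rw [← map_add]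
    refine h.mono (sup_le (add_le_add le_sup_left le_sup_left) ?_)
    exact add_nonneg le_sup_right le_sup_right
  have hp0 : ∀ y, 0 ≤ p y := fun y => h _ le_sup_right
  obtain ⟨ψ1, h1, h2⟩ := exists_extension_of_le_sublinear
    (LinearPMap.mkSpanSingleton w (p w) hw) p hphom hpadd (by
      rintro ⟨y, hy⟩
      obtain ⟨c, rfl⟩ := Submodule.mem_span_singleton.1 hy
      rw [LinearPMap.mkSpanSingleton'_apply, RingHom.id_apply, smul_eq_mul]
      show c * p w ≤ p (c • w)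
      rcases lt_or_ge 0 c with hc | hc
      · rw [hphom c hc]
      · exact (mul_nonpos_of_nonpos_of_nonneg hc (hp0 w)).trans (hp0 _))
  have hw1 : ψ1 w = p w := by
    have h3 := h1 ⟨w, Submodule.mem_span_singleton_self w⟩
    rw [h3]
    exact LinearPMap.mkSpanSingleton_apply ℝ ℝ hw _
  refine ⟨ψ1, ψ - ψ1, ?_, ?_, add_sub_cancel ψ1 ψ, hw1⟩
  · intro y hy
    have h3 := h2 (-y)
    have h4 : p (-y) = 0 := by
      show ψ ((-y) ⊔ 0) = 0
      rw [sup_eq_right.2 (neg_nonpos.2 hy), map_zero]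
    rw [h4, map_neg] at h3
    linarith
  · intro y hy
    have h3 := h2 y
    have h4 : p y = ψ y := by
      show ψ (y ⊔ 0) = ψ y
      rw [sup_eq_left.2 hy]
    rw [h4] at h3
    show 0 ≤ ψ y - ψ1 y
    linarith

/-- splitting of a positive functional along a supremum -/
lemma IsPosF.split_sup {ψ : Y →ₗ[ℝ] ℝ} (h : IsPosF ψ) (a b : Y) :
    ∃ ψ1 ψ2 : Y →ₗ[ℝ] ℝ, IsPosF ψ1 ∧ IsPosF ψ2 ∧ ψ1 + ψ2 = ψ ∧ ψ (a ⊔ b) = ψ1 a + ψ2 b := by
  obtain ⟨ψ1, ψ2, h1, h2, h3, h4⟩ := h.split (a - b)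
  refine ⟨ψ1, ψ2, h1, h2, h3, ?_⟩
  have h5 : a ⊔ b = (a - b) ⊔ 0 + b := by
    rw [sup_add, sub_add_cancel, zero_add]
  rw [h5, map_add, ← h4, map_sub, ← h3]
  show ψ1 a - ψ1 b + (ψ1 b + ψ2 b) = _
  ring

/-- positive functionals determine the order -/
lemma le_of_posF {a b : Y} (h : ∀ ψ : Y →ₗ[ℝ] ℝ, IsPosF ψ → ψ a ≤ ψ b) : a ≤ b := by
  by_contra hcon
  have hne : (a - b) ⊔ 0 ≠ 0 := by
    intro h0
    apply hcon
    rw [← sub_nonpos]
    exact sup_eq_right.1 h0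
  obtain ⟨ψ, hψ, hψ2⟩ : ∃ ψ : Y →ₗ[ℝ] ℝ, IsPosF ψ ∧ 0 < ψ ((a - b) ⊔ 0) := by
    obtain ⟨g, hg1, hg2, -⟩ := PosFun.exists_functional ((a - b) ⊔ 0) le_sup_right
    refine ⟨g.toLinearMap, hg1, ?_⟩
    show 0 < g ((a - b) ⊔ 0)
    rw [hg2]
    exact norm_pos_iff.2 hne
  obtain ⟨ψ1, ψ2, h1, -, -, h4⟩ := hψ.split (a - b)
  rw [← h4, map_sub] at hψ2
  have := h ψ1 h1
  linarith

end RK

section rel

variable {P : Type u} [NormedAddCommGroup P] [NormedSpace ℝ P] [Lattice P] [BanachLattice P]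
variable {Y : Type v} [NormedAddCommGroup Y] [NormedSpace ℝ Y] [Lattice Y] [BanachLattice Y]
variable {ι : Type w}

/-- the pairs of finite suprema of (corresponding) linear combinations of the generators -/
inductive MaxRel (p : ι → P) (x : ι → Y) : P → Y → Prop
  | lin (v : ι →₀ ℝ) : MaxRel p x (Finsupp.linearCombination ℝ p v) (Finsupp.linearCombination ℝ x v)
  | sup (f g : P) (y z : Y) : MaxRel p x f y → MaxRel p x g z → MaxRel p x (f ⊔ g) (y ⊔ z)

variable {p : ι → P} {x : ι → Y}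

lemma MaxRel.add_lin {f : P} {y : Y} (h : MaxRel p x f y) (v : ι →₀ ℝ) :
    MaxRel p x (f + Finsupp.linearCombination ℝ p v) (y + Finsupp.linearCombination ℝ x v) := by
  induction h with
  | lin u =>
    rw [← map_add, ← map_add]
    exact MaxRel.lin _
  | sup f g y z _ _ h1 h2 =>
    rw [sup_add, sup_add]
    exact MaxRel.sup _ _ _ _ h1 h2

lemma MaxRel.add {f g : P} {y z : Y} (h : MaxRel p x f y) (h' : MaxRel p x g z) :
    MaxRel p x (f + g) (y + z) := by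
  induction h' with
  | lin v => exact h.add_lin v
  | sup g g' z z' _ _ h1 h2 =>
    rw [add_sup, add_sup]
    exact MaxRel.sup _ _ _ _ h1 h2

lemma smul_sup' {Y : Type v} [NormedAddCommGroup Y] [NormedSpace ℝ Y] [Lattice Y]
    [BanachLattice Y] {c : ℝ} (hc : 0 < c) (a b : Y) : c • (a ⊔ b) = c • a ⊔ c • b := by
  refine le_antisymm ?_ (sup_le (smul_le_smul_of_nonneg_left le_sup_left hc.le)
    (smul_le_smul_of_nonneg_left le_sup_right hc.le))
  have h2 : a ⊔ b ≤ c⁻¹ • (c • a ⊔ c • b) := by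
    refine sup_le ?_ ?_
    · have h3 := smul_le_smul_of_nonneg_left (le_sup_left (a := c • a) (b := c • b))
        (inv_nonneg.2 hc.le)
      rwa [smul_smul, inv_mul_cancel₀ hc.ne', one_smul] at h3
    · have h3 := smul_le_smul_of_nonneg_left (le_sup_right (a := c • a) (b := c • b))
        (inv_nonneg.2 hc.le)
      rwa [smul_smul, inv_mul_cancel₀ hc.ne', one_smul] at h3
  have h4 := smul_le_smul_of_nonneg_left h2 hc.le
  rwa [smul_smul, mul_inv_cancel₀ hc.ne', one_smul] at h4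

lemma MaxRel.smul {f : P} {y : Y} (h : MaxRel p x f y) {c : ℝ} (hc : 0 < c) :
    MaxRel p x (c • f) (c • y) := by
  induction h with
  | lin u =>
    rw [← map_smul, ← map_smul]
    exact MaxRel.lin _
  | sup f g y z _ _ h1 h2 =>
    rw [smul_sup' hc, smul_sup' hc]
    exact MaxRel.sup _ _ _ _ h1 h2

lemma MaxRel.zero : MaxRel p x 0 0 := by
  have := MaxRel.lin (p := p) (x := x) 0
  rwa [map_zero, map_zero] at this

/-- corresponding elements of the vector sublattices generated by `p` and `x` -/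
def Rel (p : ι → P) (x : ι → Y) (f : P) (y : Y) : Prop :=
  ∃ m m' n n', MaxRel p x m n ∧ MaxRel p x m' n' ∧ f = m - m' ∧ y = n - n'

lemma Rel.gen (i : ι) : Rel p x (p i) (x i) := by
  refine ⟨_, _, _, _, MaxRel.lin (Finsupp.single i 1), MaxRel.zero, ?_, ?_⟩
  · rw [Finsupp.linearCombination_single, one_smul, sub_zero]
  · rw [Finsupp.linearCombination_single, one_smul, sub_zero]

lemma Rel.add {f g : P} {y z : Y} (h : Rel p x f y) (h' : Rel p x g z) :
    Rel p x (f + g) (y + z) := by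
  obtain ⟨m, m', n, n', h1, h2, rfl, rfl⟩ := h
  obtain ⟨k, k', l, l', h3, h4, rfl, rfl⟩ := h'
  exact ⟨m + k, m' + k', n + l, n' + l', h1.add h3, h2.add h4, by abel, by abel⟩

lemma Rel.neg {f : P} {y : Y} (h : Rel p x f y) : Rel p x (-f) (-y) := by
  obtain ⟨m, m', n, n', h1, h2, rfl, rfl⟩ := h
  exact ⟨m', m, n', n, h2, h1, by abel, by abel⟩

lemma Rel.zero : Rel p x 0 0 := ⟨0, 0, 0, 0, MaxRel.zero, MaxRel.zero, by abel, by abel⟩

lemma Rel.smul {f : P} {y : Y} (h : Rel p x f y) (c : ℝ) : Rel p x (c • f) (c • y) := by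
  have hpos : ∀ c : ℝ, 0 < c → Rel p x (c • f) (c • y) := by
    intro c hc
    obtain ⟨m, m', n, n', h1, h2, rfl, rfl⟩ := h
    exact ⟨_, _, _, _, h1.smul hc, h2.smul hc, smul_sub _ _ _, smul_sub _ _ _⟩
  rcases lt_trichotomy c 0 with hc | hc | hc
  · have h1 := (hpos (-c) (by linarith)).neg
    rwa [neg_smul, neg_neg, neg_smul, neg_neg] at h1
  · subst hc
    rw [zero_smul, zero_smul]
    exact Rel.zero
  · exact hpos c hc

lemma Rel.sup {f g : P} {y z : Y} (h : Rel p x f y) (h' : Rel p x g z) :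
    Rel p x (f ⊔ g) (y ⊔ z) := by
  obtain ⟨m, m', n, n', h1, h2, rfl, rfl⟩ := h
  obtain ⟨k, k', l, l', h3, h4, rfl, rfl⟩ := h'
  refine ⟨(m + k') ⊔ (k + m'), m' + k', (n + l') ⊔ (l + n'), n' + l',
    MaxRel.sup _ _ _ _ (h1.add h4) (h3.add h2), h2.add h4, ?_, ?_⟩
  · rw [sup_sub]
    congr 1 <;> abel
  · rw [sup_sub]
    congr 1 <;> abel

/-- the positive functional `ψ` on `Y` is seen on `P` as the lattice homomorphism `ρ ψ` -/
structure IsPts (p : ι → P) (x : ι → Y) (ρ : (Y →ₗ[ℝ] ℝ) → P →ₗ[ℝ] ℝ) : Prop where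
  sup : ∀ ψ, IsPosF ψ → ∀ f g, ρ ψ (f ⊔ g) = ρ ψ f ⊔ ρ ψ g
  gen : ∀ ψ, IsPosF ψ → ∀ i, ρ ψ (p i) = ψ (x i)

variable {ρ : (Y →ₗ[ℝ] ℝ) → P →ₗ[ℝ] ℝ}

lemma IsPts.lin (hρ : IsPts p x ρ) {ψ : Y →ₗ[ℝ] ℝ} (hψ : IsPosF ψ) (v : ι →₀ ℝ) :
    ρ ψ (Finsupp.linearCombination ℝ p v) = ψ (Finsupp.linearCombination ℝ x v) := by
  rw [Finsupp.linearCombination_apply, Finsupp.linearCombination_apply, Finsupp.sum, Finsupp.sum,
    map_sum, map_sum]
  refine Finset.sum_congr rfl fun i _ => ?_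
  rw [map_smul, map_smul, hρ.gen ψ hψ]

lemma IsPts.mono (hρ : IsPts p x ρ) {ψ : Y →ₗ[ℝ] ℝ} (hψ : IsPosF ψ) {f g : P} (h : f ≤ g) :
    ρ ψ f ≤ ρ ψ g := by
  have := hρ.sup ψ hψ f g
  rw [sup_eq_right.2 h] at this
  rw [this]
  exact le_sup_left

lemma MaxRel.le (hρ : IsPts p x ρ) {f : P} {y : Y} (h : MaxRel p x f y) {ψ : Y →ₗ[ℝ] ℝ}
    (hψ : IsPosF ψ) : ρ ψ f ≤ ψ y := by
  induction h with
  | lin v => rw [hρ.lin hψ]
  | sup f g y z _ _ h1 h2 =>
    rw [hρ.sup ψ hψ]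
    exact sup_le (h1.trans (hψ.mono le_sup_left)) (h2.trans (hψ.mono le_sup_right))

lemma MaxRel.ge (hρ : IsPts p x ρ) {f : P} {y : Y} (h : MaxRel p x f y) :
    ∀ ψ : Y →ₗ[ℝ] ℝ, IsPosF ψ → ∃ l : List (Y →ₗ[ℝ] ℝ), (∀ φ ∈ l, IsPosF φ) ∧ l.sum = ψ ∧
      ψ y ≤ (l.map fun φ => ρ φ f).sum := by
  induction h with
  | lin v =>
    intro ψ hψ
    refine ⟨[ψ], ?_, ?_, ?_⟩
    · intro φ hφ
      rw [List.mem_singleton.1 hφ]
      exact hψ
    · simp
    · simp [hρ.lin hψ]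
  | sup f g y z _ _ h1 h2 =>
    intro ψ hψ
    obtain ⟨ψ1, ψ2, hψ1, hψ2, hψs, hψe⟩ := hψ.split_sup y z
    obtain ⟨l1, hl1, hs1, hi1⟩ := h1 ψ1 hψ1
    obtain ⟨l2, hl2, hs2, hi2⟩ := h2 ψ2 hψ2
    refine ⟨l1 ++ l2, ?_, ?_, ?_⟩
    · intro φ hφ
      rcases List.mem_append.1 hφ with h | h
      · exact hl1 φ h
      · exact hl2 φ h
    · rw [List.sum_append, hs1, hs2, hψs]
    · rw [List.map_append, List.sum_append, hψe]
      refine add_le_add (hi1.trans ?_) (hi2.trans ?_)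
      · exact List.sum_le_sum fun φ hφ => hρ.mono (hl1 φ hφ) le_sup_left
      · exact List.sum_le_sum fun φ hφ => hρ.mono (hl2 φ hφ) le_sup_right

lemma abs_sub_eq {Y : Type v} [NormedAddCommGroup Y] [NormedSpace ℝ Y] [Lattice Y]
    [BanachLattice Y] (a b : Y) : |a - b| = (2 : ℝ) • (a ⊔ b) - (a + b) := by
  have h := two_nsmul_sup_eq_add_add_abs_sub a b
  rw [abs_sub_comm, two_smul, ← two_nsmul, h]
  abel

/-- the main inequality -/
theorem Rel.main (hρ : IsPts p x ρ) {f : P} {y : Y} (h : Rel p x f y) {ψ : Y →ₗ[ℝ] ℝ}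
    (hψ : IsPosF ψ) : ∃ l : List (Y →ₗ[ℝ] ℝ), (∀ φ ∈ l, IsPosF φ) ∧ l.sum = ψ ∧
      ψ |y| ≤ (l.map fun φ => ρ φ |f|).sum := by
  obtain ⟨m, m', n, n', h1, h2, rfl, rfl⟩ := h
  have h3 : MaxRel p x ((2 : ℝ) • (m ⊔ m')) ((2 : ℝ) • (n ⊔ n')) :=
    (MaxRel.sup _ _ _ _ h1 h2).smul two_pos
  have h4 : MaxRel p x (m + m') (n + n') := h1.add h2
  obtain ⟨l, hl, hs, hi⟩ := h3.ge hρ ψ hψ
  refine ⟨l, hl, hs, ?_⟩
  rw [abs_sub_eq, abs_sub_eq, map_sub]
  have h5 : ∀ l : List (Y →ₗ[ℝ] ℝ), (∀ φ ∈ l, IsPosF φ) →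
      (l.map fun φ => ρ φ (m + m')).sum ≤ l.sum (n + n') := by
    intro l
    induction l with
    | nil => intro _; simp
    | cons φ l ih =>
      intro hl
      rw [List.map_cons, List.sum_cons, List.sum_cons]
      exact add_le_add (h4.le hρ (hl φ List.mem_cons_self))
        (ih fun φ' hφ' => hl φ' (List.mem_cons_of_mem _ hφ'))
  have h6 : (l.map fun φ => ρ φ ((2 : ℝ) • (m ⊔ m') - (m + m'))).sum =
      (l.map fun φ => ρ φ ((2 : ℝ) • (m ⊔ m'))).sum - (l.map fun φ => ρ φ (m + m')).sum := by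
    clear hs hi hl
    induction l with
    | nil => simp
    | cons φ l ih =>
      simp only [List.map_cons, List.sum_cons]
      rw [ih, map_sub]
      ring
  rw [h6]
  have h7 := h5 l hl
  rw [hs] at h7
  linarith

end rel

section extend

variable {P : Type u} [NormedAddCommGroup P] [NormedSpace ℝ P] [Lattice P] [BanachLattice P]
variable {Y : Type v} [NormedAddCommGroup Y] [NormedSpace ℝ Y] [Lattice Y] [BanachLattice Y]

/-- A bounded linear lattice relation with dense domain extends to a lattice homomorphism. -/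
theorem exists_latHom_of_rel (R : P → Y → Prop) (h0 : R 0 0)
    (hadd : ∀ f g y z, R f y → R g z → R (f + g) (y + z))
    (hsmul : ∀ (c : ℝ) f y, R f y → R (c • f) (c • y))
    (hsup : ∀ f g y z, R f y → R g z → R (f ⊔ g) (y ⊔ z)) {C : ℝ} (hC : 0 ≤ C)
    (hbd : ∀ f y, R f y → ‖y‖ ≤ C * ‖f‖) (hdense : ∀ f : P, ∀ ε > 0, ∃ g y, R g y ∧ ‖f - g‖ < ε) :
    ∃ T : P →L[ℝ] Y, IsLatHom T ∧ ‖T‖ ≤ C ∧ ∀ f y, R f y → T f = y := by
  classical
  have hcs : CompleteSpace Y := BanachLattice.toCompleteSpace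
  let R' : Submodule ℝ (P × Y) :=
    { carrier := {q | R q.1 q.2}
      add_mem' := fun {a b} ha hb => hadd _ _ _ _ ha hb
      zero_mem' := h0
      smul_mem' := fun c q hq => hsmul c _ _ hq }
  let S : Submodule ℝ (P × Y) := R'.topologicalClosure
  have hSmem : ∀ q, q ∈ S ↔ q ∈ closure {q : P × Y | R q.1 q.2} := fun q => Iff.rfl
  have hSbd : ∀ q ∈ S, ‖q.2‖ ≤ C * ‖q.1‖ := by
    intro q hq
    rw [hSmem] at hq
    have hcl : IsClosed {q : P × Y | ‖q.2‖ ≤ C * ‖q.1‖} :=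
      isClosed_le (by fun_prop) (by fun_prop)
    exact closure_minimal (fun q hq => hbd _ _ hq) hcl hq
  have hSsup : ∀ q ∈ S, ∀ r ∈ S, ((q.1 ⊔ r.1, q.2 ⊔ r.2) : P × Y) ∈ S := by
    intro q hq r hr
    rw [hSmem] at hq hr ⊢
    have hcont : Continuous fun a : (P × Y) × (P × Y) => ((a.1.1 ⊔ a.2.1, a.1.2 ⊔ a.2.2) : P × Y) :=
      ((continuous_fst.fst).sup (continuous_snd.fst)).prodMk
        ((continuous_fst.snd).sup (continuous_snd.snd))
    exact map_mem_closure₂ (f := fun (a b : P × Y) => ((a.1 ⊔ b.1, a.2 ⊔ b.2) : P × Y)) hcont hq hr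
      (fun a ha b hb => hsup _ _ _ _ ha hb)
  have hex : ∀ f : P, ∃ y, (f, y) ∈ S := by
    intro f
    choose g y hg hfg using fun n : ℕ => hdense f ((1 / 2 : ℝ) ^ n) (by positivity)
    have hlim : Tendsto g atTop (𝓝 f) := by
      rw [tendsto_iff_norm_sub_tendsto_zero]
      refine squeeze_zero (fun n => norm_nonneg _) (fun n => ?_)
        (tendsto_pow_atTop_nhds_zero_of_lt_one (r := (1 / 2 : ℝ)) (by norm_num) (by norm_num))
      rw [norm_sub_rev]
      exact (hfg n).le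
    have hcau : CauchySeq y := by
      have hg' := hlim.cauchySeq
      rw [Metric.cauchySeq_iff] at hg' ⊢
      intro ε hε
      obtain ⟨N, hN⟩ := hg' (ε / (C + 1)) (by positivity)
      refine ⟨N, fun m hm n hn => ?_⟩
      have h1 := hN m hm n hn
      have h2 : R (g m - g n) (y m - y n) := by
        have := hadd _ _ _ _ (hg m) (hsmul (-1) _ _ (hg n))
        rwa [neg_one_smul, neg_one_smul, ← sub_eq_add_neg, ← sub_eq_add_neg] at this
      have h3 := hbd _ _ h2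
      rw [dist_eq_norm] at h1 ⊢
      have h4 : C * ‖g m - g n‖ ≤ (C + 1) * ‖g m - g n‖ :=
        mul_le_mul_of_nonneg_right (by linarith) (norm_nonneg _)
      have h5 : (C + 1) * ‖g m - g n‖ < (C + 1) * (ε / (C + 1)) :=
        mul_lt_mul_of_pos_left h1 (by positivity)
      have h6 : (C + 1) * (ε / (C + 1)) = ε := by field_simp
      linarith
    obtain ⟨z, hz⟩ := cauchySeq_tendsto_of_complete hcau
    refine ⟨z, ?_⟩
    rw [hSmem]
    exact mem_closure_of_tendsto (hlim.prodMk_nhds hz) (Eventually.of_forall fun n => hg n)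
  have huniq : ∀ f y z, (f, y) ∈ S → (f, z) ∈ S → y = z := by
    intro f y z h1 h2
    have h3 := hSbd _ (S.sub_mem h1 h2)
    simp only [Prod.mk_sub_mk, sub_self, norm_zero, mul_zero] at h3
    exact sub_eq_zero.1 (norm_le_zero_iff.1 h3)
  choose t ht using hex
  let T0 : P →ₗ[ℝ] Y :=
    { toFun := t
      map_add' := fun f g => huniq _ _ _ (ht _) (S.add_mem (ht f) (ht g))
      map_smul' := fun c f => huniq _ _ _ (ht _) (S.smul_mem c (ht f)) }
  let T : P →L[ℝ] Y := T0.mkContinuous C fun f => hSbd _ (ht f)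
  have hTt : ∀ f, T f = t f := fun f => rfl
  have hTsup : ∀ a b : P, T (a ⊔ b) = T a ⊔ T b := fun a b =>
    huniq _ _ _ (ht _) (hSsup _ (ht a) _ (ht b))
  refine ⟨T, ?_, T0.mkContinuous_norm_le hC _, fun f y hfy => ?_⟩
  · intro a b
    refine ⟨hTsup a b, ?_⟩
    have h1 := hTsup (-a) (-b)
    rw [← neg_inf, map_neg, map_neg, map_neg, ← neg_inf, neg_inj] at h1
    exact h1
  · exact huniq _ _ _ (ht f) (subset_closure hfy)

end extend

end Pool.Agent.R280.BLat
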