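import Pool.Agent.R280.FLat
import Pool.Agent.R280.RK

/-!
Function lattices generated by a family of functions, and maps out of them.
-/

set_option autoImplicit false
set_option linter.unusedSectionVars false

open Set Topology Filter

universe u v w

namespace Pool.Agent.R280.BLat

section posf

variable {Y : Type v} [NormedAddCommGroup Y] [NormedSpace ℝ Y] [Lattice Y] [BanachLattice Y]

/-- positive functionals on Banach lattices are bounded -/
lemma IsPosF.bounded {ψ : Y →ₗ[ℝ] ℝ} (hψ : IsPosF ψ) : ∃ M : ℝ, 0 ≤ M ∧ ∀ y, |ψ y| ≤ M * ‖y‖ := by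
  by_contra hcon
  push Not at hcon
  have hcs : CompleteSpace Y := BanachLattice.toCompleteSpace
  have habs : ∀ y, |ψ y| ≤ ψ |y| := by
    intro y
    rw [abs_le]
    constructor
    · have := hψ.mono (neg_le.1 (neg_le_abs y))
      rwa [map_neg] at this
    · exact hψ.mono (le_abs_self y)
  have h1 : ∀ n : ℕ, ∃ y : Y, 0 ≤ y ∧ ‖y‖ ≤ (1 / 2 : ℝ) ^ n ∧ (n : ℝ) ≤ ψ y := by
    intro n
    obtain ⟨y, hy⟩ := hcon ((n : ℝ) * 2 ^ n) (by positivity)
    have hy0 : 0 < ‖y‖ := by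
      by_contra h0
      have h2 : ‖y‖ = 0 := le_antisymm (not_lt.1 h0) (norm_nonneg _)
      have h3 : y = 0 := norm_eq_zero.1 h2
      rw [h3] at hy
      simp at hy
    refine ⟨((1 / 2 : ℝ) ^ n * ‖y‖⁻¹) • |y|, smul_nonneg (by positivity) (abs_nonneg _), ?_, ?_⟩
    · rw [norm_smul, norm_abs_eq_norm, Real.norm_of_nonneg (by positivity), mul_assoc,
        inv_mul_cancel₀ hy0.ne', mul_one]
    · rw [map_smul, smul_eq_mul]
      have h4 : (n : ℝ) * 2 ^ n * ‖y‖ < ψ |y| := hy.trans_le (habs y)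
      have h5 : ((1 / 2 : ℝ) ^ n * ‖y‖⁻¹) * ((n : ℝ) * 2 ^ n * ‖y‖) = n := by
        have h6 : (1 / 2 : ℝ) ^ n * 2 ^ n = 1 := by rw [← mul_pow]; norm_num
        calc ((1 / 2 : ℝ) ^ n * ‖y‖⁻¹) * ((n : ℝ) * 2 ^ n * ‖y‖)
            = (n : ℝ) * ((1 / 2 : ℝ) ^ n * 2 ^ n) * (‖y‖⁻¹ * ‖y‖) := by ring
          _ = n := by rw [h6, inv_mul_cancel₀ hy0.ne']; ring
      calc (n : ℝ) = ((1 / 2 : ℝ) ^ n * ‖y‖⁻¹) * ((n : ℝ) * 2 ^ n * ‖y‖) := h5.symm
        _ ≤ _ := mul_le_mul_of_nonneg_left h4.le (by positivity)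
  choose y hy0 hyn hyψ using h1
  have hsum : Summable y := Summable.of_norm_bounded
    (summable_geometric_of_lt_one (by norm_num) (by norm_num)) hyn
  obtain ⟨n, hn⟩ := exists_nat_gt (ψ (∑' n, y n))
  have h2 : y n ≤ ∑' n, y n := hsum.le_tsum n fun j _ => hy0 j
  have h3 := hψ.mono h2
  have h4 := hyψ n
  linarith

end posf

section gen

variable {ι : Type w} {I : Type u}

/-- the vector lattice generated by the functions `γ i` -/
inductive IsGenBy (γ : ι → I → ℝ) : (I → ℝ) → Prop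
  | gen (i : ι) : IsGenBy γ (γ i)
  | zero : IsGenBy γ 0
  | add (f g : I → ℝ) : IsGenBy γ f → IsGenBy γ g → IsGenBy γ (f + g)
  | smul (c : ℝ) (f : I → ℝ) : IsGenBy γ f → IsGenBy γ (c • f)
  | sup (f g : I → ℝ) : IsGenBy γ f → IsGenBy γ g → IsGenBy γ (f ⊔ g)

variable {γ : ι → I → ℝ}

lemma IsGenBy.neg {f : I → ℝ} (hf : IsGenBy γ f) : IsGenBy γ (-f) := by
  have := IsGenBy.smul (-1) f hf
  rwa [neg_one_smul] at this

lemma IsGenBy.abs {f : I → ℝ} (hf : IsGenBy γ f) : IsGenBy γ |f| := IsGenBy.sup f (-f) hf hf.neg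

lemma pr_sup_le {w : I →₀ ℝ} (hw : ∀ i, 0 ≤ w i) (f g : I → ℝ) : pr w (f ⊔ g) ≤ pr w f + pr w g := by
  have h4 : ∀ f : I → ℝ, pr w |f| = pr w f := by
    intro f
    rw [pr_eq, pr_eq]
    simp only [Pi.abs_apply, abs_abs]
  have h3 : pr w (f ⊔ g) ≤ pr w (|f| + |g|) := by
    refine pr_mono hw fun i => ?_
    rw [Pi.sup_apply, Pi.add_apply, Pi.abs_apply, Pi.abs_apply,
      abs_of_nonneg (a := |f i| + |g i|) (by positivity)]
    rw [abs_le]
    constructor
    · have := neg_abs_le (f i)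
      have h4 := abs_nonneg (g i)
      have h5 : f i ≤ f i ⊔ g i := le_sup_left
      linarith
    · refine sup_le ?_ ?_
      · have := le_abs_self (f i)
        have h4 := abs_nonneg (g i)
        linarith
      · have := le_abs_self (g i)
        have h4 := abs_nonneg (f i)
        linarith
  refine h3.trans ((pr_add_le hw _ _).trans ?_)
  rw [h4, h4]

lemma IsGenBy.bdd {W : Set (I →₀ ℝ)} (hW : ∀ w ∈ W, ∀ i, 0 ≤ w i)
    (hγ : ∀ i, ∃ C : ℝ, ∀ w ∈ W, pr w (γ i) ≤ C) {f : I → ℝ} (hf : IsGenBy γ f) :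
    ∃ C : ℝ, ∀ w ∈ W, pr w f ≤ C := by
  induction hf with
  | gen i => exact hγ i
  | zero => exact ⟨0, fun w _ => by rw [pr_eq]; simp⟩
  | add f g _ _ h1 h2 =>
    obtain ⟨C1, h1⟩ := h1
    obtain ⟨C2, h2⟩ := h2
    exact ⟨C1 + C2, fun w hw => (pr_add_le (hW w hw) f g).trans (add_le_add (h1 w hw) (h2 w hw))⟩
  | smul c f _ h1 =>
    obtain ⟨C1, h1⟩ := h1
    refine ⟨|c| * C1, fun w hw => ?_⟩
    rw [pr_smul]
    exact mul_le_mul_of_nonneg_left (h1 w hw) (abs_nonneg c)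
  | sup f g _ _ h1 h2 =>
    obtain ⟨C1, h1⟩ := h1
    obtain ⟨C2, h2⟩ := h2
    exact ⟨C1 + C2, fun w hw => (pr_sup_le (hW w hw) f g).trans (add_le_add (h1 w hw) (h2 w hw))⟩

/-- The Banach lattice generated by the functions `γ i` on `I`: the limits of elements of the
vector lattice generated by the `γ i` for the norm `sup_{w ∈ W} ∑ w_i |f_i|`. -/
noncomputable def genLat (γ : ι → I → ℝ) (W : Set (I →₀ ℝ)) (hW : ∀ w ∈ W, ∀ i, 0 ≤ w i)
    (hsep : ∀ i, ∃ w ∈ W, 0 < w i) (hγ : ∀ i, ∃ C : ℝ, ∀ w ∈ W, pr w (γ i) ≤ C) : FLat.{u} I where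
  S :=
    { carrier := {f | ∀ ε : ℝ, 0 < ε → ∃ g, IsGenBy γ g ∧ ∀ w ∈ W, pr w (f - g) ≤ ε}
      zero_mem' := by
        intro ε hε
        refine ⟨0, IsGenBy.zero, fun w _ => ?_⟩
        rw [sub_self, pr_eq]
        simp [hε.le]
      add_mem' := by
        intro f f' hf hf' ε hε
        obtain ⟨g, hg, h⟩ := hf (ε / 2) (half_pos hε)
        obtain ⟨g', hg', h'⟩ := hf' (ε / 2) (half_pos hε)
        refine ⟨g + g', IsGenBy.add g g' hg hg', fun w hw => ?_⟩
        rw [add_sub_add_comm]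
        have := (pr_add_le (hW w hw) (f - g) (f' - g')).trans (add_le_add (h w hw) (h' w hw))
        linarith
      smul_mem' := by
        intro c f hf ε hε
        have hc : 0 < |c| + 1 := by positivity
        obtain ⟨g, hg, h⟩ := hf (ε / (|c| + 1)) (div_pos hε hc)
        refine ⟨c • g, IsGenBy.smul c g hg, fun w hw => ?_⟩
        rw [← smul_sub, pr_smul]
        calc |c| * pr w (f - g) ≤ |c| * (ε / (|c| + 1)) :=
              mul_le_mul_of_nonneg_left (h w hw) (abs_nonneg c)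
          _ ≤ (|c| + 1) * (ε / (|c| + 1)) :=
              mul_le_mul_of_nonneg_right (by linarith) (by positivity)
          _ = ε := by field_simp }
  W := W
  abs_mem := by
    intro f hf ε hε
    obtain ⟨g, hg, h⟩ := hf ε hε
    refine ⟨|g|, hg.abs, fun w hw => (pr_mono (hW w hw) fun i => ?_).trans (h w hw)⟩
    exact abs_abs_sub_abs_le (f i) (g i)
  W_nonneg := hW
  W_sep := hsep
  bdd := by
    intro f hf
    obtain ⟨g, hg, h⟩ := hf 1 one_pos
    obtain ⟨C, hC⟩ := hg.bdd hW hγ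
    refine ⟨1 + C, fun w hw => ?_⟩
    have h1 := pr_add_le (hW w hw) (f - g) g
    rw [sub_add_cancel] at h1
    exact h1.trans (add_le_add (h w hw) (hC w hw))
  closed := by
    intro f hf ε hε
    obtain ⟨y, hy, h⟩ := hf (ε / 2) (half_pos hε)
    obtain ⟨g, hg, h'⟩ := hy (ε / 2) (half_pos hε)
    refine ⟨g, hg, fun w hw => ?_⟩
    have h1 := pr_add_le (hW w hw) (f - y) (y - g)
    rw [sub_add_sub_cancel] at h1
    have := h1.trans (add_le_add (h w hw) (h' w hw))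
    linarith

section

variable {W : Set (I →₀ ℝ)} {hW : ∀ w ∈ W, ∀ i, 0 ≤ w i} {hsep : ∀ i, ∃ w ∈ W, 0 < w i}
  {hγ : ∀ i, ∃ C : ℝ, ∀ w ∈ W, pr w (γ i) ≤ C}

lemma mem_genLat {f : I → ℝ} (hf : IsGenBy γ f) : f ∈ (genLat γ W hW hsep hγ).S := by
  intro ε hε
  refine ⟨f, hf, fun w _ => ?_⟩
  rw [sub_self, pr_eq]
  simp [hε.le]

/-- the generators -/
noncomputable def genEl (γ : ι → I → ℝ) (W : Set (I →₀ ℝ)) (hW : ∀ w ∈ W, ∀ i, 0 ≤ w i)
    (hsep : ∀ i, ∃ w ∈ W, 0 < w i) (hγ : ∀ i, ∃ C : ℝ, ∀ w ∈ W, pr w (γ i) ≤ C) (i : ι) :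
    (genLat γ W hW hsep hγ).Space := FLat.of (γ i) (mem_genLat (IsGenBy.gen i))

variable {Y : Type v} [NormedAddCommGroup Y] [NormedSpace ℝ Y] [Lattice Y] [BanachLattice Y]

/-- elements of the generated vector lattice are related to elements of `Y` -/
lemma exists_rel (x : ι → Y) {g : I → ℝ} (hg : IsGenBy γ g) :
    ∃ y, Rel (genEl γ W hW hsep hγ) x (FLat.of g (mem_genLat hg)) y := by
  induction hg with
  | gen i => exact ⟨x i, Rel.gen i⟩
  | zero => exact ⟨0, Rel.zero⟩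
  | add f g _ _ h1 h2 =>
    obtain ⟨y, hy⟩ := h1
    obtain ⟨z, hz⟩ := h2
    exact ⟨_, hy.add hz⟩
  | smul c f _ h1 =>
    obtain ⟨y, hy⟩ := h1
    exact ⟨_, hy.smul c⟩
  | sup f g _ _ h1 h2 =>
    obtain ⟨y, hy⟩ := h1
    obtain ⟨z, hz⟩ := h2
    exact ⟨_, hy.sup hz⟩

lemma genLat_approx (f : (genLat γ W hW hsep hγ).Space) {ε : ℝ} (hε : 0 < ε) :
    ∃ (g : I → ℝ) (hg : IsGenBy γ g), ‖f - FLat.of g (mem_genLat hg)‖ < ε := by
  obtain ⟨g, hg, h⟩ := f.2 (ε / 2) (by linarith)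
  refine ⟨g, hg, lt_of_le_of_lt (FLat.norm_le_of _ (by linarith : (0 : ℝ) ≤ ε / 2) fun w hw => ?_)
    (by linarith : ε / 2 < ε)⟩
  exact h w hw

/-- lattice homomorphisms are determined by the images of the generators -/
lemma genLat_ext {S T : (genLat γ W hW hsep hγ).Space →L[ℝ] Y} (hS : IsLatHom S) (hT : IsLatHom T)
    (h : ∀ i, S (genEl γ W hW hsep hγ i) = T (genEl γ W hW hsep hγ i)) : S = T := by
  have h1 : ∀ (g : I → ℝ) (hg : IsGenBy γ g),
      S (FLat.of g (mem_genLat hg)) = T (FLat.of g (mem_genLat hg)) := by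
    intro g hg
    induction hg with
    | gen i => exact h i
    | zero =>
      have h2 : (FLat.of (0 : I → ℝ) (mem_genLat IsGenBy.zero) :
        (genLat γ W hW hsep hγ).Space) = 0 := rfl
      rw [h2, map_zero, map_zero]
    | add f g hf hg h1 h2 =>
      have h3 : (FLat.of (f + g) (mem_genLat (IsGenBy.add f g hf hg)) :
        (genLat γ W hW hsep hγ).Space) = FLat.of f (mem_genLat hf) + FLat.of g (mem_genLat hg) := rfl
      rw [h3, map_add, map_add, h1, h2]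
    | smul c f hf h1 =>
      have h3 : (FLat.of (c • f) (mem_genLat (IsGenBy.smul c f hf)) :
        (genLat γ W hW hsep hγ).Space) = c • FLat.of f (mem_genLat hf) := rfl
      rw [h3, map_smul, map_smul, h1]
    | sup f g hf hg h1 h2 =>
      have h3 : (FLat.of (f ⊔ g) (mem_genLat (IsGenBy.sup f g hf hg)) :
        (genLat γ W hW hsep hγ).Space) = FLat.of f (mem_genLat hf) ⊔ FLat.of g (mem_genLat hg) := rfl
      rw [h3, (hS _ _).1, (hT _ _).1, h1, h2]
  ext f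
  have hcl : IsClosed {f | S f = T f} := isClosed_eq S.continuous T.continuous
  have hf : f ∈ closure {f | S f = T f} := by
    refine Metric.mem_closure_iff.2 fun ε hε => ?_
    obtain ⟨g, hg, hlt⟩ := genLat_approx f hε
    exact ⟨_, h1 g hg, by rwa [dist_eq_norm]⟩
  rw [hcl.closure_eq] at hf
  exact hf

end

end gen

end Pool.Agent.R280.BLat
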