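import Pool.Agent.R280.BLat

/-!
Closed sublattices of Banach lattices.
-/

set_option autoImplicit false
set_option linter.unusedSectionVars false

open Set Topology Filter Pool.Agent.R280.BLat

universe u v

namespace Pool.Agent.R280.SubLat

variable {E : Type v} [NormedAddCommGroup E] [NormedSpace ℝ E] [Lattice E] [BanachLattice E]

/-- the lattice structure of a linear sublattice -/
@[reducible] def subLattice (M : Submodule ℝ E) (hs : ∀ a ∈ M, ∀ b ∈ M, a ⊔ b ∈ M)
    (hi : ∀ a ∈ M, ∀ b ∈ M, a ⊓ b ∈ M) : Lattice M :=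
  Subtype.lattice (P := fun a => a ∈ M) (fun _ _ ha hb => hs _ ha _ hb)
    (fun _ _ ha hb => hi _ ha _ hb)

theorem subBanachLattice (M : Submodule ℝ E) (hs : ∀ a ∈ M, ∀ b ∈ M, a ⊔ b ∈ M)
    (hi : ∀ a ∈ M, ∀ b ∈ M, a ⊓ b ∈ M) (hc : IsClosed (M : Set E)) :
    @BanachLattice M _ _ (subLattice M hs hi) := by
  let _ : Lattice M := subLattice M hs hi
  have hcs : CompleteSpace E := BanachLattice.toCompleteSpace
  have hcM : CompleteSpace M := hc.completeSpace_coe
  have habs : ∀ a : M, ((|a| : M) : E) = |(a : E)| := fun a => rfl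
  refine
    { add_le_add_left := ?_, solid := ?_, smul_le_smul_of_nonneg_left := ?_,
      complete := hcM.complete }
  · intro a b hab c
    have h1 : (a : E) ≤ b := hab
    show ((a + c : M) : E) ≤ ((b + c : M) : E)
    push_cast
    exact add_le_add_left h1 _
  · intro a b hab
    have h1 : ((|a| : M) : E) ≤ ((|b| : M) : E) := hab
    rw [habs, habs] at h1
    have h2 : ‖(a : E)‖ ≤ ‖(b : E)‖ := HasSolidNorm.solid h1
    exact h2
  · intro r hr a b hab
    have h1 : (a : E) ≤ b := hab
    show ((r • a : M) : E) ≤ ((r • b : M) : E)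
    push_cast
    exact smul_le_smul_of_nonneg_left h1 hr

end Pool.Agent.R280.SubLat
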