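import Pool.Agent.R280.SemiProj
import Pool.Agent.R280.SubLat

/-!
Separable reduction for projectivity of Banach lattices.
-/

set_option autoImplicit false
set_option linter.unusedSectionVars false

open Set Topology Filter TopologicalSpace

universe u v w

namespace Pool.Agent.R280.BLat

section step

variable {X : Type v} [NormedAddCommGroup X] [NormedSpace ℝ X] [Lattice X] [BanachLattice X]

/-- one step of the closing-off argument -/
def clStep (c : ℕ → X → X) (S : Set X) : Set X :=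
  S ∪ (image2 (· + ·) S S ∪ (image2 (· ⊔ ·) S S ∪ ((⋃ q : ℚ, (fun x => (q : ℝ) • x) '' S) ∪
    ⋃ m, c m '' S)))

lemma clStep_countable {c : ℕ → X → X} {S : Set X} (hS : S.Countable) : (clStep c S).Countable :=
  hS.union ((hS.image2 hS _).union ((hS.image2 hS _).union
    ((countable_iUnion fun _ => hS.image _).union (countable_iUnion fun _ => hS.image _))))

/-- the closed off set -/
def clSet (c : ℕ → X → X) (S : Set X) : Set X := ⋃ n : ℕ, (clStep c)^[n] S

lemma clIter_countable {c : ℕ → X → X} {S : Set X} (hS : S.Countable) (n : ℕ) :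
    ((clStep c)^[n] S).Countable := by
  induction n with
  | zero => exact hS
  | succ n ih =>
    rw [Function.iterate_succ_apply']
    exact clStep_countable ih

lemma clSet_countable {c : ℕ → X → X} {S : Set X} (hS : S.Countable) : (clSet c S).Countable :=
  countable_iUnion fun n => clIter_countable hS n

lemma clIter_mono (c : ℕ → X → X) (S : Set X) : Monotone fun n => (clStep c)^[n] S := by
  refine monotone_nat_of_le_succ fun n => ?_
  rw [Function.iterate_succ_apply']
  exact subset_union_left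

lemma subset_clSet (c : ℕ → X → X) (S : Set X) : S ⊆ clSet c S := fun _ hx =>
  mem_iUnion.2 ⟨0, hx⟩

lemma clSet_exists {c : ℕ → X → X} {S : Set X} {x y : X} (hx : x ∈ clSet c S) (hy : y ∈ clSet c S) :
    ∃ n, x ∈ (clStep c)^[n] S ∧ y ∈ (clStep c)^[n] S := by
  obtain ⟨n, hn⟩ := mem_iUnion.1 hx
  obtain ⟨m, hm⟩ := mem_iUnion.1 hy
  exact ⟨max n m, clIter_mono c S (le_max_left n m) hn, clIter_mono c S (le_max_right n m) hm⟩

lemma clSet_of_step {c : ℕ → X → X} {S : Set X} {x : X} {n : ℕ}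
    (hx : x ∈ clStep c ((clStep c)^[n] S)) : x ∈ clSet c S :=
  mem_iUnion.2 ⟨n + 1, by rwa [Function.iterate_succ_apply']⟩

lemma clSet_add {c : ℕ → X → X} {S : Set X} {x y : X} (hx : x ∈ clSet c S) (hy : y ∈ clSet c S) :
    x + y ∈ clSet c S := by
  obtain ⟨n, h1, h2⟩ := clSet_exists hx hy
  exact clSet_of_step (n := n) (Or.inr (Or.inl ⟨x, h1, y, h2, rfl⟩))

lemma clSet_sup {c : ℕ → X → X} {S : Set X} {x y : X} (hx : x ∈ clSet c S) (hy : y ∈ clSet c S) :
    x ⊔ y ∈ clSet c S := by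
  obtain ⟨n, h1, h2⟩ := clSet_exists hx hy
  exact clSet_of_step (n := n) (Or.inr (Or.inr (Or.inl ⟨x, h1, y, h2, rfl⟩)))

lemma clSet_smul {c : ℕ → X → X} {S : Set X} {x : X} (hx : x ∈ clSet c S) (q : ℚ) :
    (q : ℝ) • x ∈ clSet c S := by
  obtain ⟨n, hn⟩ := mem_iUnion.1 hx
  exact clSet_of_step (n := n) (Or.inr (Or.inr (Or.inr (Or.inl (mem_iUnion.2 ⟨q, x, hn, rfl⟩)))))

lemma clSet_c {c : ℕ → X → X} {S : Set X} {x : X} (hx : x ∈ clSet c S) (m : ℕ) :
    c m x ∈ clSet c S := by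
  obtain ⟨n, hn⟩ := mem_iUnion.1 hx
  exact clSet_of_step (n := n) (Or.inr (Or.inr (Or.inr (Or.inr (mem_iUnion.2 ⟨m, x, hn, rfl⟩)))))

end step

section reduction

variable {A : Type u} [NormedAddCommGroup A] [NormedSpace ℝ A] [Lattice A] [BanachLattice A]
variable {X Y : Type v} [NormedAddCommGroup X] [NormedSpace ℝ X] [Lattice X] [BanachLattice X]
  [NormedAddCommGroup Y] [NormedSpace ℝ Y] [Lattice Y] [BanachLattice Y]

/-- the closed linear sublattice generated by a countable set, closed off under `c` -/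
theorem exists_sublattice (c : ℕ → X → X) (S : Set X) (hS : S.Countable) (hne : S.Nonempty) :
    ∃ M : Submodule ℝ X, (M : Set X) = closure (clSet c S) ∧ (∀ a ∈ M, ∀ b ∈ M, a ⊔ b ∈ M) ∧
      (∀ a ∈ M, ∀ b ∈ M, a ⊓ b ∈ M) ∧ SeparableSpace M := by
  have hsmul : ∀ (r : ℝ) (x : X), x ∈ closure (clSet c S) → r • x ∈ closure (clSet c S) := by
    intro r x hx
    have hr : r ∈ closure (range ((↑) : ℚ → ℝ)) := Rat.denseRange_cast r
    refine map_mem_closure₂ (f := fun (r : ℝ) (x : X) => r • x) continuous_smul hr hx ?_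
    rintro _ ⟨q, rfl⟩ y hy
    exact clSet_smul hy q
  let M : Submodule ℝ X :=
    { carrier := closure (clSet c S)
      add_mem' := fun {a b} ha hb =>
        map_mem_closure₂ continuous_add ha hb fun a ha b hb => clSet_add ha hb
      zero_mem' := by
        obtain ⟨s, hs⟩ := hne
        have := hsmul 0 s (subset_closure (subset_clSet c S hs))
        rwa [zero_smul] at this
      smul_mem' := fun r x hx => hsmul r x hx }
  have hsup : ∀ a ∈ M, ∀ b ∈ M, a ⊔ b ∈ M := fun a ha b hb =>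
    map_mem_closure₂ continuous_sup ha hb fun a ha b hb => clSet_sup ha hb
  refine ⟨M, rfl, hsup, ?_, ?_⟩
  · intro a ha b hb
    have h1 := M.neg_mem (hsup _ (M.neg_mem ha) _ (M.neg_mem hb))
    rwa [← neg_inf, neg_neg] at h1
  · have h1 : IsSeparable (M : Set X) := (clSet_countable hS).isSeparable.closure
    exact h1.separableSpace

/-- lifting through arbitrary quotients from lifting through quotients of separable lattices -/
theorem exists_lift_of_separable [SeparableSpace A]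
    (hA : ∀ (B C : Type v) [NormedAddCommGroup B] [NormedSpace ℝ B] [Lattice B]
      [BanachLattice B] [NormedAddCommGroup C] [NormedSpace ℝ C] [Lattice C] [BanachLattice C]
      [SeparableSpace B] (Q : B →L[ℝ] C), IsQuotient Q → ∀ φ : A →L[ℝ] C, IsLatHom φ → ‖φ‖ ≤ 1 →
        IsLiftable Q φ) {Q : X →L[ℝ] Y} (hQ : IsQuotient Q) {T : A →L[ℝ] Y} (hT : IsLatHom T)
    (hT1 : ‖T‖ ≤ 1) : IsLiftable Q T := by
  classical
  have hcX : CompleteSpace X := BanachLattice.toCompleteSpace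
  have hcY : CompleteSpace Y := BanachLattice.toCompleteSpace
  choose c hcQ hcn using fun (m : ℕ) (x : X) =>
    hQ.exists_lift (Q x) (c := ‖Q x‖ + 1 / ((m : ℝ) + 1)) (lt_add_of_pos_right _ (by positivity))
  choose s hs using hQ.surj
  obtain ⟨a, ha⟩ := exists_dense_seq A
  obtain ⟨M, hMc, hMsup, hMinf, hMsep⟩ := exists_sublattice c (range fun n => s (T (a n)))
    (countable_range _) ⟨_, ⟨0, rfl⟩⟩
  have hMcl : IsClosed (M : Set X) := by rw [hMc]; exact isClosed_closure
  let _ : Lattice M := SubLat.subLattice M hMsup hMinf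
  have hBL : BanachLattice M := SubLat.subBanachLattice M hMsup hMinf hMcl
  -- the quotient property on `M`
  have hMq : ∀ x ∈ M, ∀ ε : ℝ, 0 < ε → ∃ x' ∈ M, Q x' = Q x ∧ ‖x'‖ < ‖Q x‖ + ε := by
    intro x hx ε hε
    have hx' : x ∈ closure (clSet c (range fun n => s (T (a n)))) := by
      rw [← hMc]; exact hx
    obtain ⟨z, hz, hxz⟩ := Metric.mem_closure_iff.1 hx' (ε / 4) (by linarith)
    obtain ⟨m, hm⟩ := exists_nat_one_div_lt (show (0 : ℝ) < ε / 4 by linarith)
    have hcM : c m z ∈ M := by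
      show c m z ∈ (M : Set X)
      rw [hMc]
      exact subset_closure (clSet_c hz m)
    have hzM : z ∈ M := by
      show z ∈ (M : Set X)
      rw [hMc]
      exact subset_closure hz
    refine ⟨c m z + (x - z), M.add_mem hcM (M.sub_mem hx hzM), ?_, ?_⟩
    · rw [map_add, hcQ, map_sub, add_sub_cancel]
    · rw [dist_eq_norm] at hxz
      have h1 : ‖c m z + (x - z)‖ ≤ ‖c m z‖ + ‖x - z‖ := norm_add_le _ _
      have h2 := hcn m z
      have h3 : ‖Q z‖ ≤ ‖Q x‖ + ‖x - z‖ := by
        have h4 : Q z = Q x - Q (x - z) := by rw [map_sub]; abel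
        rw [h4]
        refine (norm_sub_le _ _).trans ?_
        exact add_le_add le_rfl (hQ.norm_le _)
      linarith
  -- the restricted map
  let q : M →L[ℝ] Y := Q.comp M.subtypeL
  have hqapp : ∀ x : M, q x = Q x.1 := fun x => rfl
  have hq : IsLatHom q := fun x y => ⟨(hQ.1 x.1 y.1).1, (hQ.1 x.1 y.1).2⟩
  have hqn : ‖q‖ ≤ 1 := q.opNorm_le_bound zero_le_one fun x => by
    rw [one_mul]; exact hQ.norm_le x.1
  obtain ⟨π, hπ, hπn, hπq⟩ := (iqMap_quotient (kerIdeal hq)).factor q hq (fun x hx => by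
    rw [iqMap_eq_zero, mem_kerIdeal] at hx
    exact hx)
  have hπiso : ∀ z, ‖π z‖ = ‖z‖ := by
    intro z
    refine le_antisymm ((π.le_opNorm z).trans (mul_le_of_le_one_left (norm_nonneg _)
      (hπn.trans hqn))) ?_
    obtain ⟨x, rfl⟩ := (iqMap_quotient (kerIdeal hq)).surj z
    rw [hπq]
    refine le_of_forall_pos_le_add fun ε hε => ?_
    obtain ⟨x', hx'M, hx'Q, hx'n⟩ := hMq x.1 x.2 ε hε
    have h1 : iqMap (kerIdeal hq) x = iqMap (kerIdeal hq) ⟨x', hx'M⟩ := by
      rw [← sub_eq_zero, ← map_sub, iqMap_eq_zero, mem_kerIdeal, map_sub, hqapp, hqapp]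
      show Q x.1 - Q x' = 0
      rw [hx'Q, sub_self]
    rw [h1]
    exact (((iqMap_quotient (kerIdeal hq)).norm_le _).trans (le_of_eq rfl)).trans hx'n.le
  have hπisom : Isometry π := AddMonoidHomClass.isometry_of_norm π hπiso
  have hrange : IsClosed (range π) := hπisom.isClosedEmbedding.isClosed_range
  have hTr : ∀ x, T x ∈ range π := by
    intro x
    have h1 : x ∈ closure (range a) := ha x
    have h2 : T x ∈ closure (range π) := by
      refine map_mem_closure T.continuous h1 ?_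
      rintro _ ⟨n, rfl⟩
      have hsM : s (T (a n)) ∈ M := by
        show s (T (a n)) ∈ (M : Set X)
        rw [hMc]
        exact subset_closure (subset_clSet _ _ ⟨n, rfl⟩)
      exact ⟨iqMap (kerIdeal hq) ⟨_, hsM⟩, by rw [hπq, hqapp, hs]⟩
    rwa [hrange.closure_eq] at h2
  choose t ht using hTr
  have hinj : ∀ z z', π z = π z' → z = z' := fun z z' h => hπisom.injective h
  let T0 : A →ₗ[ℝ] IQ (kerIdeal hq) :=
    { toFun := t
      map_add' := fun x y => hinj _ _ (by rw [map_add, ht, ht, ht, map_add])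
      map_smul' := fun r x => hinj _ _ (by rw [RingHom.id_apply, map_smul, ht, ht, map_smul]) }
  let T' : A →L[ℝ] IQ (kerIdeal hq) := T0.mkContinuous 1 fun x => by
    rw [one_mul]
    show ‖t x‖ ≤ ‖x‖
    rw [← hπiso, ht]
    exact (T.le_opNorm x).trans (mul_le_of_le_one_left (norm_nonneg _) hT1)
  have hT'app : ∀ x, π (T' x) = T x := ht
  have hT' : IsLatHom T' := fun x y =>
    ⟨hinj _ _ (by rw [hT'app, (hT x y).1, (hπ _ _).1, hT'app, hT'app]),
      hinj _ _ (by rw [hT'app, (hT x y).2, (hπ _ _).2, hT'app, hT'app])⟩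
  have hT'n : ‖T'‖ ≤ 1 := T0.mkContinuous_norm_le zero_le_one _
  intro ε hε
  obtain ⟨ψ, hψ, hψq, hψn⟩ := hA M (IQ (kerIdeal hq)) (iqMap (kerIdeal hq))
    (iqMap_quotient (kerIdeal hq)) T' hT' hT'n ε hε
  refine ⟨M.subtypeL.comp ψ, fun x y => ⟨?_, ?_⟩, fun x => ?_, ?_⟩
  · show ((ψ (x ⊔ y) : M) : X) = (ψ x : X) ⊔ (ψ y : X)
    rw [(hψ x y).1]
    rfl
  · show ((ψ (x ⊓ y) : M) : X) = (ψ x : X) ⊓ (ψ y : X)
    rw [(hψ x y).2]
    rfl
  · show Q (ψ x).1 = T x
    rw [← hqapp, ← hπq, hψq, hT'app]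
  · refine ContinuousLinearMap.opNorm_le_bound _ (by linarith) fun x => ?_
    show ‖((ψ x : M) : X)‖ ≤ _
    have h1 : ‖((ψ x : M) : X)‖ = ‖ψ x‖ := rfl
    rw [h1]
    exact (ψ.le_opNorm x).trans (mul_le_mul_of_nonneg_right hψn (norm_nonneg _))

/-- separable semiprojective Banach lattices are projective -/
theorem IsSemiprojective.isProjective [SeparableSpace A] (hA : IsSemiprojective.{u, v} A) :
    IsProjective.{u, v} A := by
  intro X Y _ _ _ _ _ _ _ _ Q hQ T hT ε hε
  rcases eq_or_ne ‖T‖ 0 with h0 | h0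
  · have hT0 : T = 0 := norm_eq_zero.1 h0
    refine ⟨0, fun a b => by simp, fun p => by rw [hT0]; simp, ?_⟩
    rw [norm_zero]; positivity
  · have hpos : 0 < ‖T‖ := lt_of_le_of_ne (norm_nonneg _) (Ne.symm h0)
    have hT' : IsLatHom (‖T‖⁻¹ • T) := hT.smul (inv_nonneg.2 hpos.le)
    have hT'n : ‖‖T‖⁻¹ • T‖ ≤ 1 := by
      rw [norm_smul, norm_inv, norm_norm, inv_mul_cancel₀ h0]
    have hl : IsLiftable Q (‖T‖⁻¹ • T) := exists_lift_of_separable
      (fun B C _ _ _ _ _ _ _ _ _ Q hQ φ hφ hφ1 => hA.liftable hQ hφ hφ1) hQ hT' hT'n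
    obtain ⟨ψ, hψ, hψQ, hψn⟩ := hl ε hε
    refine ⟨‖T‖ • ψ, hψ.smul hpos.le, fun p => ?_, ?_⟩
    · show Q (‖T‖ • ψ p) = T p
      rw [map_smul, hψQ]
      show ‖T‖ • (‖T‖⁻¹ • T p) = T p
      rw [smul_smul, mul_inv_cancel₀ h0, one_smul]
    · rw [norm_smul, norm_norm, mul_comm]
      exact mul_le_mul_of_nonneg_right hψn hpos.le

end reduction

end Pool.Agent.R280.BLat
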