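import Pool.Agent.R280.FreePos2
import Pool.Agent.R280.SepRed

/-!
Separable Banach lattices as inductive limits of projective Banach lattices.
-/

set_option autoImplicit false
set_option linter.unusedSectionVars false

open Set Topology Filter TopologicalSpace

universe u v w

namespace Pool.Agent.R280.BLat

section mult

variable {B : Type u} [NormedAddCommGroup B] [NormedSpace ℝ B] [Lattice B] [BanachLattice B]

/-- Multiplication by `κ(j / e)`, for continuous `κ : ℝ → ℝ` with `0 ≤ κ ≤ 1`, where `0 ≤ j ≤ e` and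
the ideal generated by `e` is dense. -/
theorem exists_multiplier {e j : B} (hj : 0 ≤ j) (hje : j ≤ e) (hdense : Dense (gIdeal e)) :
    ∃ M : {κ : C(ℝ, ℝ) // ∀ t, 0 ≤ κ t ∧ κ t ≤ 1} → (B →L[ℝ] B),
      (∀ κ, IsLatHom (M κ) ∧ ‖M κ‖ ≤ 1) ∧
      (∀ κ μ ρ, (∀ t, κ.1 t * μ.1 t = ρ.1 t) → ∀ b, M κ (M μ b) = M ρ b) ∧
      (∀ κ, (∃ C : ℝ, 0 ≤ C ∧ ∀ t, 0 ≤ t → |κ.1 t - 1| ≤ C * t) →
        ∀ b, M κ b - b ∈ closure (gIdeal j)) ∧
      ∀ κ (c : ℝ), (∀ t, 0 ≤ t → κ.1 t * t ≤ c) → M κ j ≤ c • e := by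
  have he : 0 ≤ e := hj.trans hje
  let A : Type u := {b : B // |b| ≤ e}
  obtain ⟨Φ, hΦ, -, hΦ1, hΦg⟩ := cube_univ (A := A) he (y := fun a => a.1) (fun a => a.2)
  let ja : A := ⟨j, by rw [abs_of_nonneg hj]; exact hje⟩
  let πj : C(Cube A, ℝ) := cubeGen (some ja) ⊔ 0
  have hπj : Φ πj = j := by
    show Φ (cubeGen (some ja) ⊔ 0) = j
    rw [(hΦ _ _).1, hΦg, map_zero]
    exact sup_eq_left.2 hj
  have hπ0 : ∀ k, 0 ≤ πj k := fun k => le_sup_right
  -- representation of the elements of the ideal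
  have hrep : ∀ b : B, ∀ m : ℝ, |b| ≤ m • e → ∃ f, Φ f = b := by
    intro b m hb
    have hm : |b| ≤ (|m| + 1) • e :=
      hb.trans (smul_le_smul_of_nonneg_right (by linarith [le_abs_self m]) he)
    have hpos : (0 : ℝ) < |m| + 1 := by positivity
    have h1 : |(|m| + 1)⁻¹ • b| ≤ e := by
      have h2 : |(|m| + 1)⁻¹ • b| = (|m| + 1)⁻¹ • |b| := by
        show ((|m| + 1)⁻¹ • b) ⊔ -((|m| + 1)⁻¹ • b) = (|m| + 1)⁻¹ • (b ⊔ -b)
        rw [smul_sup' (inv_pos.2 hpos), smul_neg]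
      rw [h2]
      have h3 := smul_le_smul_of_nonneg_left hm (inv_nonneg.2 hpos.le)
      rwa [smul_smul, inv_mul_cancel₀ hpos.ne', one_smul] at h3
    refine ⟨(|m| + 1) • cubeGen (some ⟨_, h1⟩), ?_⟩
    rw [map_smul, hΦg, smul_smul, mul_inv_cancel₀ hpos.ne', one_smul]
  have hrdense : ∀ b : B, ∀ ε > 0, ∃ f, ‖b - Φ f‖ < ε := by
    intro b ε hε
    obtain ⟨b', ⟨m, hm, hb'⟩, hlt⟩ := hdense.exists_dist_lt b hε
    obtain ⟨f, hf⟩ := hrep b' m hb'
    exact ⟨f, by rwa [hf, ← dist_eq_norm]⟩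
  have key : ∀ κ : {κ : C(ℝ, ℝ) // ∀ t, 0 ≤ κ t ∧ κ t ≤ 1}, ∃ θ : B →L[ℝ] B,
      IsLatHom θ ∧ ‖θ‖ ≤ 1 ∧ ∀ f, θ (Φ f) = Φ (κ.1.comp πj * f) := by
    intro κ
    set g : C(Cube A, ℝ) := κ.1.comp πj with hg
    have hg0 : ∀ k, 0 ≤ g k := fun k => (κ.2 _).1
    have hg1 : ∀ k, g k ≤ 1 := fun k => (κ.2 _).2
    have hgabs : ∀ f : C(Cube A, ℝ), |g * f| ≤ |f| := by
      intro f k
      show |g * f| k ≤ |f| k
      rw [cabs_apply, cabs_apply]
      show |g k * f k| ≤ |f k|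
      rw [abs_mul, abs_of_nonneg (hg0 k)]
      exact mul_le_of_le_one_left (abs_nonneg _) (hg1 k)
    obtain ⟨θ, hθ, hθn, hθR⟩ := exists_latHom_of_rel (P := B) (Y := B)
      (fun b b' => ∃ f, Φ f = b ∧ Φ (g * f) = b') ⟨0, map_zero _, by rw [mul_zero, map_zero]⟩
      (by
        rintro _ _ _ _ ⟨f, rfl, rfl⟩ ⟨f', rfl, rfl⟩
        exact ⟨f + f', map_add _ _ _, by rw [mul_add, map_add]⟩)
      (by
        rintro r _ _ ⟨f, rfl, rfl⟩
        exact ⟨r • f, map_smul _ _ _, by rw [mul_smul_comm, map_smul]⟩)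
      (by
        rintro _ _ _ _ ⟨f, rfl, rfl⟩ ⟨f', rfl, rfl⟩
        refine ⟨f ⊔ f', (hΦ _ _).1, ?_⟩
        rw [← (hΦ _ _).1]
        congr 1
        ext k
        show g k * (f k ⊔ f' k) = (g k * f k) ⊔ (g k * f' k)
        exact mul_max_of_nonneg _ _ (hg0 k)) zero_le_one
      (by
        rintro _ _ ⟨f, rfl, rfl⟩
        rw [one_mul]
        refine HasSolidNorm.solid ?_
        rw [← hΦ.map_abs, ← hΦ.map_abs]
        exact hΦ.mono (hgabs f))
      (by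
        intro b ε hε
        obtain ⟨f, hf⟩ := hrdense b ε hε
        exact ⟨Φ f, _, ⟨f, rfl, rfl⟩, hf⟩)
    exact ⟨θ, hθ, hθn, fun f => hθR _ _ ⟨f, rfl, rfl⟩⟩
  choose M hM1 hM2 hM3 using key
  have hrange : DenseRange Φ := by
    intro b
    refine Metric.mem_closure_iff.2 fun ε hε => ?_
    obtain ⟨f, hf⟩ := hrdense b ε hε
    exact ⟨Φ f, ⟨f, rfl⟩, by rwa [dist_eq_norm]⟩
  refine ⟨M, fun κ => ⟨hM1 κ, hM2 κ⟩, ?_, ?_, ?_⟩
  · intro κ μ ρ h b
    have hcl : IsClosed {b | M κ (M μ b) = M ρ b} :=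
      isClosed_eq ((M κ).continuous.comp (M μ).continuous) (M ρ).continuous
    have h1 : range Φ ⊆ {b | M κ (M μ b) = M ρ b} := by
      rintro _ ⟨f, rfl⟩
      show M κ (M μ (Φ f)) = M ρ (Φ f)
      rw [hM3, hM3, hM3, ← mul_assoc]
      congr 2
      ext k
      exact h _
    exact closure_minimal h1 hcl (hrange b)
  · rintro κ ⟨C, hC0, hC⟩ b
    have hcont : Continuous fun b => M κ b - b := (M κ).continuous.sub continuous_id
    refine map_mem_closure (f := fun b => M κ b - b) hcont (hrange b) ?_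
    rintro _ ⟨f, rfl⟩
    refine ⟨C * ‖f‖, by positivity, ?_⟩
    show |M κ (Φ f) - Φ f| ≤ _
    rw [hM3, ← map_sub, ← hΦ.map_abs]
    have h1 : |κ.1.comp πj * f - f| ≤ (C * ‖f‖) • πj := by
      intro k
      show |κ.1.comp πj * f - f| k ≤ (C * ‖f‖) * πj k
      rw [cabs_apply]
      show |κ.1 (πj k) * f k - f k| ≤ _
      have h2 : κ.1 (πj k) * f k - f k = (κ.1 (πj k) - 1) * f k := by ring
      rw [h2, abs_mul]
      calc |κ.1 (πj k) - 1| * |f k| ≤ (C * πj k) * ‖f‖ :=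
            mul_le_mul (hC _ (hπ0 k)) (f.norm_coe_le_norm k) (abs_nonneg _)
              (mul_nonneg hC0 (hπ0 k))
        _ = _ := by ring
    refine (hΦ.mono h1).trans (le_of_eq ?_)
    rw [map_smul, hπj]
  · intro κ c hc
    have h1 : κ.1.comp πj * πj ≤ c • (1 : C(Cube A, ℝ)) := by
      intro k
      show κ.1 (πj k) * πj k ≤ c * 1
      rw [mul_one]
      exact hc _ (hπ0 k)
    have h2 := hΦ.mono h1
    rw [← hM3, hπj, map_smul, hΦ1] at h2
    exact h2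

end mult

section indlim

/-- the composites `A_n → A_m` -/
def chainMap {A : ℕ → Type v} [∀ n, NormedAddCommGroup (A n)] [∀ n, NormedSpace ℝ (A n)]
    (φ : ∀ n, A n →L[ℝ] A (n + 1)) (n : ℕ) : ∀ k, A n →L[ℝ] A (n + k)
  | 0 => ContinuousLinearMap.id ℝ (A n)
  | k + 1 => (φ (n + k)).comp (chainMap φ n k)

/-- `E` is (isometrically lattice isomorphic to) the inductive limit of the sequence `A_n` with
connecting maps `φ_n : A_n → A_{n+1}`: there are lattice homomorphisms `ι_n : A_n → E` with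
`ι_{n+1} ∘ φ_n = ι_n`, `‖ι_n x‖ = lim_m ‖φ_{m,n} x‖` and with the union of the ranges dense. -/
def IsIndLimit (A : ℕ → Type v) [∀ n, NormedAddCommGroup (A n)] [∀ n, NormedSpace ℝ (A n)]
    [∀ n, Lattice (A n)] (φ : ∀ n, A n →L[ℝ] A (n + 1)) (E : Type u) [NormedAddCommGroup E]
    [NormedSpace ℝ E] [Lattice E] : Prop :=
  ∃ ι : ∀ n, A n →L[ℝ] E, (∀ n, IsLatHom (ι n)) ∧ (∀ n x, ι (n + 1) (φ n x) = ι n x) ∧
    (∀ n x, Tendsto (fun k => ‖chainMap φ n k x‖) atTop (𝓝 ‖ι n x‖)) ∧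
    Dense (⋃ n, Set.range (ι n))

end indlim

end Pool.Agent.R280.BLat
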