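import Pool.Agent.R280.IndLim

/-!
Every separable Banach lattice is a quotient of the free Banach lattice on countably many positive
generators, and an inductive limit of copies of it.
-/

set_option autoImplicit false
set_option linter.unusedSectionVars false

open Set Topology Filter TopologicalSpace

universe u v w

namespace Pool.Agent.R280.BLat

section sep

/-- the free Banach lattice on countably many positive generators is separable -/
theorem pos_separable (A : Type u) [Countable A] : SeparableSpace (FBLpos A).Space := by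
  obtain ⟨M, hMc, hsup, hinf, hsep⟩ := exists_sublattice (X := (FBLpos A).Space)
    (fun _ x => x) (insert 0 (range (posEl : A → (FBLpos A).Space)))
    ((countable_range _).insert _) (insert_nonempty _ _)
  have hcl : IsClosed (M : Set (FBLpos A).Space) := by rw [hMc]; exact isClosed_closure
  have hgen : ∀ a, posEl a ∈ M := by
    intro a
    show posEl a ∈ (M : Set (FBLpos A).Space)
    rw [hMc]
    exact subset_closure (subset_clSet _ _ (Or.inr ⟨a, rfl⟩))
  have h1 : ∀ (g : (A → unitInterval) → ℝ) (_ : IsGenBy (posGen A) g)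
      (hg' : g ∈ (FBLpos A).S), FLat.of g hg' ∈ M := by
    intro g hg
    induction hg with
    | gen a => intro _; exact hgen a
    | zero => intro _; exact M.zero_mem
    | add f g hf hg h1 h2 =>
      intro _
      exact M.add_mem (h1 (mem_genLat hf)) (h2 (mem_genLat hg))
    | smul c f hf h1 =>
      intro _
      exact M.smul_mem c (h1 (mem_genLat hf))
    | sup f g hf hg h1 h2 =>
      intro _
      exact hsup _ (h1 (mem_genLat hf)) _ (h2 (mem_genLat hg))
  have htop : ∀ f : (FBLpos A).Space, f ∈ M := by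
    intro f
    show f ∈ (M : Set (FBLpos A).Space)
    rw [← hcl.closure_eq]
    refine Metric.mem_closure_iff.2 fun ε hε => ?_
    obtain ⟨g, hg, hg', hlt⟩ := pos_approx f hε
    exact ⟨_, h1 g hg hg', by rwa [dist_eq_norm]⟩
  have hsurj : Function.Surjective (fun x : M => (x : (FBLpos A).Space)) := fun f => ⟨⟨f, htop f⟩, rfl⟩
  exact hsurj.denseRange.separableSpace continuous_subtype_val

end sep

section quot

variable {E : Type u} [NormedAddCommGroup E] [NormedSpace ℝ E] [Lattice E] [BanachLattice E]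

/-- every separable Banach lattice is a quotient of `FBLpos ℕ` -/
theorem exists_quotient_map [SeparableSpace E] :
    ∃ q : (FBLpos ℕ).Space →L[ℝ] E, IsQuotient q := by
  classical
  have hcs : CompleteSpace E := BanachLattice.toCompleteSpace
  have hsc : SecondCountableTopology E := UniformSpace.secondCountable_of_separable E
  let P : Type u := {r : E // 0 ≤ r ∧ ‖r‖ ≤ 1}
  have hP : Nonempty P := ⟨⟨0, le_rfl, by simp⟩⟩
  obtain ⟨s, hs⟩ := exists_dense_seq P
  let x : ℕ → E := fun n => (s n).1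
  have hx0 : ∀ n, 0 ≤ x n := fun n => (s n).2.1
  have hx1 : ∀ n, ‖x n‖ ≤ 1 := fun n => (s n).2.2
  have hxd : ∀ r : E, 0 ≤ r → ∀ δ : ℝ, 0 < δ → ∃ n, ‖r - ‖r‖ • x n‖ < δ := by
    intro r hr δ hδ
    rcases eq_or_ne r 0 with rfl | hne
    · exact ⟨0, by simpa using hδ⟩
    · have hr0 : 0 < ‖r‖ := norm_pos_iff.2 hne
      have hmem : 0 ≤ ‖r‖⁻¹ • r ∧ ‖‖r‖⁻¹ • r‖ ≤ 1 :=
        ⟨smul_nonneg (by positivity) hr, by
          rw [norm_smul, norm_inv, norm_norm, inv_mul_cancel₀ hr0.ne']⟩
      obtain ⟨n, hn⟩ := hs.exists_dist_lt ⟨‖r‖⁻¹ • r, hmem⟩ (ε := δ / ‖r‖) (by positivity)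
      refine ⟨n, ?_⟩
      have h1 : ‖‖r‖⁻¹ • r - x n‖ < δ / ‖r‖ := by
        rw [← dist_eq_norm]
        exact hn
      have h2 : r - ‖r‖ • x n = ‖r‖ • (‖r‖⁻¹ • r - x n) := by
        rw [smul_sub, smul_smul, mul_inv_cancel₀ hr0.ne', one_smul]
      rw [h2, norm_smul, norm_norm]
      rwa [lt_div_iff₀' hr0] at h1
  obtain ⟨q, hq, hqn, hqx⟩ := pos_univ (c := 1) one_pos hx0 hx1
  have hqle : ∀ z, ‖q z‖ ≤ ‖z‖ := fun z =>
    (q.le_opNorm z).trans (mul_le_of_le_one_left (norm_nonneg _) hqn)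
  -- domination
  have hdom : ∀ y : E, ∀ δ : ℝ, 0 < δ → ∃ z, 0 ≤ z ∧ |y| ≤ q z ∧ ‖z‖ ≤ ‖y‖ + δ := by
    intro y δ hδ
    have hpick : ∀ (r : E) (η : ℝ), ∃ n, 0 ≤ r → 0 < η → ‖r - ‖r‖ • x n‖ < η := by
      intro r η
      by_cases h : 0 ≤ r ∧ 0 < η
      · obtain ⟨n, hn⟩ := hxd r h.1 η h.2
        exact ⟨n, fun _ _ => hn⟩
      · exact ⟨0, fun h1 h2 => (h ⟨h1, h2⟩).elim⟩
    choose pick hpick using hpick
    let R : ℕ → E := fun k => Nat.rec |y|
      (fun k r => (r - ‖r‖ • x (pick r (δ * (1 / 2) ^ (k + 2)))) ⊔ 0) k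
    let n : ℕ → ℕ := fun k => pick (R k) (δ * (1 / 2) ^ (k + 2))
    have hRs : ∀ k, R (k + 1) = (R k - ‖R k‖ • x (n k)) ⊔ 0 := fun k => rfl
    have hR0 : ∀ k, 0 ≤ R k := by
      intro k
      cases k with
      | zero => exact abs_nonneg y
      | succ k => rw [hRs]; exact le_sup_right
    have hRn : ∀ k, ‖R (k + 1)‖ ≤ δ * (1 / 2) ^ (k + 2) := by
      intro k
      rw [hRs]
      exact (norm_posPart_le _).trans (hpick (R k) _ (hR0 k) (by positivity)).le
    have hRle : ∀ k, ‖R k‖ ≤ (if k = 0 then ‖y‖ else 0) + δ * (1 / 2) ^ (k + 1) := by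
      intro k
      cases k with
      | zero =>
        rw [if_pos rfl]
        have : ‖R 0‖ = ‖y‖ := norm_abs_eq_norm y
        rw [this]
        have : 0 < δ * (1 / 2) ^ (0 + 1) := by positivity
        linarith
      | succ k =>
        rw [if_neg (Nat.succ_ne_zero k), zero_add]
        exact hRn k
    have hsum1 : Summable fun k : ℕ => (if k = 0 then ‖y‖ else 0) + δ * (1 / 2 : ℝ) ^ (k + 1) := by
      refine Summable.add ?_ ?_
      · exact (hasSum_ite_eq 0 ‖y‖).summable
      · have := (summable_geometric_of_lt_one (r := (1 / 2 : ℝ)) (by norm_num) (by norm_num)).mul_left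
          (δ * (1 / 2))
        refine this.congr fun k => ?_
        rw [pow_succ]; ring
    have htsum : ∑' k : ℕ, ((if k = 0 then ‖y‖ else 0) + δ * (1 / 2 : ℝ) ^ (k + 1)) = ‖y‖ + δ := by
      have h1 : HasSum (fun k : ℕ => (if k = 0 then ‖y‖ else 0)) ‖y‖ := hasSum_ite_eq 0 ‖y‖
      have h2 : HasSum (fun k : ℕ => δ * (1 / 2 : ℝ) ^ (k + 1)) δ := by
        have h3 := (hasSum_geometric_of_lt_one (r := (1 / 2 : ℝ)) (by norm_num)
          (by norm_num)).mul_left (δ * (1 / 2))
        have h4 : δ * (1 / 2) * (1 - 1 / 2)⁻¹ = δ := by norm_num; ring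
        rw [h4] at h3
        have h5 : (fun k : ℕ => δ * (1 / 2 : ℝ) ^ (k + 1)) =
            fun i : ℕ => δ * (1 / 2) * (1 / 2 : ℝ) ^ i := by
          funext k
          rw [pow_succ]; ring
        rw [h5]
        exact h3
      exact (h1.add h2).tsum_eq
    let t : ℕ → (FBLpos ℕ).Space := fun k => ‖R k‖ • posEl (n k)
    have ht0 : ∀ k, 0 ≤ t k := fun k => smul_nonneg (norm_nonneg _) (posEl_nonneg _)
    have htn : ∀ k, ‖t k‖ ≤ (if k = 0 then ‖y‖ else 0) + δ * (1 / 2 : ℝ) ^ (k + 1) := by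
      intro k
      show ‖‖R k‖ • posEl (n k)‖ ≤ _
      rw [norm_smul, norm_norm]
      exact (mul_le_of_le_one_right (norm_nonneg _) (posEl_norm _)).trans (hRle k)
    have hts : Summable t := Summable.of_norm_bounded hsum1 htn
    refine ⟨∑' k, t k, tsum_nonneg ht0, ?_, ?_⟩
    · have hpart : ∀ K, |y| ≤ (∑ k ∈ Finset.range K, ‖R k‖ • x (n k)) + R K := by
        intro K
        induction K with
        | zero =>
          rw [Finset.sum_range_zero, zero_add]
          exact le_rfl
        | succ K ih =>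
          refine ih.trans ?_
          rw [Finset.sum_range_succ, add_assoc]
          refine add_le_add le_rfl ?_
          rw [hRs, ← sub_le_iff_le_add']
          exact le_sup_left
      have hqt : ∀ k, q (t k) = ‖R k‖ • x (n k) := fun k => by
        show q (‖R k‖ • posEl (n k)) = _
        rw [map_smul, hqx]
      have hlim1 : Tendsto (fun K => (∑ k ∈ Finset.range K, ‖R k‖ • x (n k)) + R K) atTop
          (𝓝 (q (∑' k, t k) + 0)) := by
        refine Tendsto.add ?_ ?_
        · have h1 := (hts.hasSum.mapL q).tendsto_sum_nat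
          simpa only [hqt] using h1
        · refine squeeze_zero_norm (a := fun K : ℕ =>
            (if K = 0 then ‖y‖ else 0) + δ * (1 / 2 : ℝ) ^ (K + 1)) hRle ?_
          exact hsum1.tendsto_atTop_zero
      rw [add_zero] at hlim1
      exact ge_of_tendsto' hlim1 hpart
    · have h1 := norm_tsum_le_tsum_norm (f := t)
        (Summable.of_nonneg_of_le (fun k => norm_nonneg _) htn hsum1)
      have h2 := (Summable.of_nonneg_of_le (fun k => norm_nonneg _) htn hsum1).tsum_le_tsum htn hsum1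
      rw [htsum] at h2
      exact h1.trans h2
  -- density of the range
  have hdr : ∀ y : E, y ∈ closure (range q) := by
    have hsub : ∀ r : E, 0 ≤ r → r ∈ closure (range q) := by
      intro r hr
      refine Metric.mem_closure_iff.2 fun ε hε => ?_
      obtain ⟨n, hn⟩ := hxd r hr ε hε
      refine ⟨_, ⟨‖r‖ • posEl n, rfl⟩, ?_⟩
      rw [dist_eq_norm, map_smul, hqx]
      exact hn
    intro y
    have h1 : y = y ⊔ 0 - (-y) ⊔ 0 := by
      have := posPart_sub_negPart y
      rw [posPart_def, negPart_def] at this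
      exact this.symm
    rw [h1]
    refine map_mem_closure₂ (f := fun a b : E => a - b) continuous_sub (hsub _ le_sup_right)
      (hsub _ le_sup_right) ?_
    rintro _ ⟨a, rfl⟩ _ ⟨b, rfl⟩
    exact ⟨a - b, map_sub _ _ _⟩
  -- surjectivity with control
  have hsurj : ∀ y : E, ∀ δ : ℝ, 0 < δ → ∃ z, q z = y ∧ ‖z‖ ≤ (1 + δ) * ‖y‖ := by
    intro y δ hδ
    let f : NormedAddGroupHom (FBLpos ℕ).Space E :=
      AddMonoidHom.mkNormedAddGroupHom (q.toLinearMap.toAddMonoidHom) 1 (fun z => by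
        rw [one_mul]; exact hqle z)
    let K : AddSubgroup E := (q.toLinearMap.toAddMonoidHom).range
    have hK : f.SurjectiveOnWith K (1 + δ / 2) := by
      rintro _ ⟨w, rfl⟩
      have hfw : q.toLinearMap.toAddMonoidHom w = q w := rfl
      rcases eq_or_ne (q w) 0 with h0 | h0
      · refine ⟨0, ?_, ?_⟩
        · rw [hfw, h0]; exact map_zero f
        · rw [norm_zero]; positivity
      · have hpos : 0 < ‖q w‖ := norm_pos_iff.2 h0
        obtain ⟨z, hz0, hz1, hz2⟩ := hdom (q w) (δ / 2 * ‖q w‖) (by positivity)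
        refine ⟨(w ⊓ z) ⊔ (-z), ?_, ?_⟩
        · show q ((w ⊓ z) ⊔ (-z)) = q w
          rw [(hq _ _).1, (hq _ _).2, map_neg, inf_eq_left.2 ((le_abs_self _).trans hz1),
            sup_eq_left]
          exact neg_le.1 ((neg_le_abs _).trans hz1)
        · have h1 : ‖(w ⊓ z) ⊔ (-z)‖ ≤ ‖z‖ := by
            refine HasSolidNorm.solid ?_
            rw [abs_of_nonneg hz0]
            exact trunc_abs_le hz0
          rw [hfw]
          linarith
    have h1 := controlled_closure_of_complete (f := f) (K := K) (C := 1 + δ / 2) (ε := δ / 2)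
      (by positivity) (by positivity) hK
    obtain ⟨z, hz, hzn⟩ := h1 y (by
      show y ∈ closure (K : Set E)
      exact hdr y)
    refine ⟨z, hz, hzn.trans (le_of_eq (by ring))⟩
  refine ⟨q, hq, fun y => ⟨?_, fun c hc => ?_⟩⟩
  · rintro r ⟨z, rfl, rfl⟩
    exact hqle z
  · refine le_of_forall_pos_le_add fun ε hε => ?_
    obtain ⟨z, hz, hzn⟩ := hsurj y (ε / (‖y‖ + 1)) (by positivity)
    refine (hc ⟨z, hz, rfl⟩).trans (hzn.trans ?_)
    have h1 : ε / (‖y‖ + 1) * ‖y‖ ≤ ε := by
      rw [div_mul_eq_mul_div, div_le_iff₀ (by positivity)]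
      nlinarith [norm_nonneg y]
    linarith

end quot

section main

/-- the cut-off functions: `κ_n = 1` on `(-∞, 1/(n+2)]` and `κ_n = 0` on `[1/(n+1), ∞)` -/
noncomputable def kap (n : ℕ) : {κ : C(ℝ, ℝ) // ∀ t, 0 ≤ κ t ∧ κ t ≤ 1} :=
  ⟨⟨fun t => max 0 (min 1 (((n : ℝ) + 2) - ((n : ℝ) + 1) * ((n : ℝ) + 2) * t)), by fun_prop⟩,
    fun _ => ⟨le_max_left _ _, max_le zero_le_one (min_le_left _ _)⟩⟩

lemma kap_apply (n : ℕ) (t : ℝ) :
    (kap n).1 t = max 0 (min 1 (((n : ℝ) + 2) - ((n : ℝ) + 1) * ((n : ℝ) + 2) * t)) := rfl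

lemma kap_one {n : ℕ} {t : ℝ} (h : ((n : ℝ) + 2) * t ≤ 1) : (kap n).1 t = 1 := by
  rw [kap_apply, min_eq_left, max_eq_right zero_le_one]
  have h1 : ((n : ℝ) + 1) * (((n : ℝ) + 2) * t) ≤ ((n : ℝ) + 1) * 1 :=
    mul_le_mul_of_nonneg_left h (by positivity)
  nlinarith

lemma kap_zero {n : ℕ} {t : ℝ} (h : 1 ≤ ((n : ℝ) + 1) * t) : (kap n).1 t = 0 := by
  rw [kap_apply]
  refine max_eq_left ((min_le_right _ _).trans ?_)
  have h1 : ((n : ℝ) + 2) * 1 ≤ ((n : ℝ) + 2) * (((n : ℝ) + 1) * t) :=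
    mul_le_mul_of_nonneg_left h (by positivity)
  nlinarith

lemma kap_mul {m n : ℕ} (h : n < m) (t : ℝ) : (kap m).1 t * (kap n).1 t = (kap m).1 t := by
  rcases le_or_gt 1 (((m : ℝ) + 1) * t) with h1 | h1
  · rw [kap_zero h1, zero_mul]
  · have h2 : ((n : ℝ) + 2) * t ≤ 1 := by
      rcases le_or_gt t 0 with ht | ht
      · have : ((n : ℝ) + 2) * t ≤ 0 := mul_nonpos_of_nonneg_of_nonpos (by positivity) ht
        linarith
      · have h3 : (n : ℝ) + 1 ≤ m := by exact_mod_cast h
        nlinarith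
    rw [kap_one h2, mul_one]

lemma kap_sub_one (n : ℕ) (t : ℝ) (ht : 0 ≤ t) : |(kap n).1 t - 1| ≤ ((n : ℝ) + 2) * t := by
  rcases le_or_gt (((n : ℝ) + 2) * t) 1 with h | h
  · rw [kap_one h, sub_self, abs_zero]
    positivity
  · have h1 := ((kap n).2 t).1
    have h2 := ((kap n).2 t).2
    rw [abs_of_nonpos (by linarith)]
    linarith

lemma kap_mul_le (n : ℕ) (t : ℝ) (ht : 0 ≤ t) : (kap n).1 t * t ≤ 1 / ((n : ℝ) + 1) := by
  rcases le_or_gt 1 (((n : ℝ) + 1) * t) with h1 | h1
  · rw [kap_zero h1, zero_mul]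
    positivity
  · have h2 := ((kap n).2 t).2
    rw [le_div_iff₀ (by positivity)]
    have h3 : (kap n).1 t * t ≤ 1 * t := mul_le_mul_of_nonneg_right h2 ht
    have h4 : (kap n).1 t * t * ((n : ℝ) + 1) ≤ 1 * t * ((n : ℝ) + 1) :=
      mul_le_mul_of_nonneg_right h3 (by positivity)
    nlinarith

/-- Every separable Banach lattice is the inductive limit of a sequence of copies of the free Banach
lattice on countably many positive generators. -/
theorem exists_indLimit (E : Type u) [NormedAddCommGroup E] [NormedSpace ℝ E] [Lattice E]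
    [BanachLattice E] [SeparableSpace E] :
    ∃ φ : ℕ → ((FBLpos ℕ).Space →L[ℝ] (FBLpos ℕ).Space), (∀ n, IsLatHom (φ n) ∧ ‖φ n‖ ≤ 1) ∧
      IsIndLimit (fun _ => (FBLpos ℕ).Space) φ E := by
  classical
  obtain ⟨q, hq⟩ := exists_quotient_map (E := E)
  have hsepZ : SeparableSpace (FBLpos ℕ).Space := pos_separable ℕ
  let Z : Type := (FBLpos ℕ).Space
  -- kernel as an ideal
  let I : ClosedIdeal (FBLpos ℕ).Space :=
    { J := LinearMap.ker q.toLinearMap
      closed := isClosed_eq q.continuous continuous_const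
      solid := by
        intro a ha b hb
        have ha' : q a = 0 := ha
        show q b = 0
        have h1 : |q b| ≤ 0 := by
          rw [← hq.1.map_abs]
          refine (hq.1.mono hb).trans (le_of_eq ?_)
          rw [hq.1.map_abs, ha', abs_zero]
        have h2 : |q b| = 0 := le_antisymm h1 (abs_nonneg _)
        have h3 := norm_abs_eq_norm (q b)
        rw [h2, norm_zero] at h3
        exact norm_eq_zero.1 h3.symm }
  have hI : ∀ b, b ∈ I.J ↔ q b = 0 := fun b => Iff.rfl
  obtain ⟨j, hj0, hjI, hjgen⟩ := exists_generator I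
  rw [hI] at hjI
  let top : ClosedIdeal (FBLpos ℕ).Space := ⟨⊤, isClosed_univ, fun _ _ _ _ => trivial⟩
  obtain ⟨e0, he0, -, hegen⟩ := exists_generator top
  let e := e0 + j
  have hje : j ≤ e := le_add_of_nonneg_left he0
  have hedense : Dense (gIdeal e) := fun b =>
    closure_mono (gIdeal_mono (le_add_of_nonneg_right hj0)) (hegen b trivial)
  obtain ⟨M, hM1, hMmul, hMsub, hMj⟩ := exists_multiplier hj0 hje hedense
  have hclq : ∀ b, b ∈ closure (gIdeal j) → q b = 0 := by
    intro b hb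
    refine closure_minimal ?_ (isClosed_eq q.continuous continuous_const) hb
    rintro b' ⟨m, hm, hb'⟩
    refine (hI b').1 (I.solid (m • j) ?_ b' ?_)
    · exact (hI _).2 (by rw [map_smul, hjI, smul_zero])
    · rw [abs_of_nonneg (smul_nonneg hm hj0)]
      exact hb'
  have hqM : ∀ n z, q (M (kap n) z) = q z := by
    intro n z
    have h1 := hclq _ (hMsub (kap n) ⟨(n : ℝ) + 2, by positivity, kap_sub_one n⟩ z)
    rw [map_sub, sub_eq_zero] at h1
    exact h1
  -- the norms of `M (kap m) i`, `i` in the kernel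
  have hMi : ∀ i, q i = 0 → Tendsto (fun m => ‖M (kap m) i‖) atTop (𝓝 0) := by
    intro i hi
    rw [Metric.tendsto_atTop]
    intro ε hε
    obtain ⟨i', ⟨K, hK, hi'⟩, hlt⟩ := Metric.mem_closure_iff.1 (hjgen i ((hI i).2 hi)) (ε / 2)
      (by linarith)
    obtain ⟨N, hN⟩ := exists_nat_gt (K * ‖e‖ / (ε / 2))
    refine ⟨N, fun m hm => ?_⟩
    rw [dist_zero_right, norm_norm]
    have h1 : M (kap m) i = M (kap m) (i - i') + M (kap m) i' := by rw [map_sub, sub_add_cancel]
    have h2 : ‖M (kap m) (i - i')‖ ≤ ‖i - i'‖ :=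
      ((M (kap m)).le_opNorm _).trans (mul_le_of_le_one_left (norm_nonneg _) (hM1 _).2)
    have h3 : ‖M (kap m) i'‖ ≤ K * (1 / ((m : ℝ) + 1) * ‖e‖) := by
      have h4 : |M (kap m) i'| ≤ K • ((1 / ((m : ℝ) + 1)) • e) := by
        rw [← (hM1 _).1.map_abs]
        refine ((hM1 _).1.mono hi').trans ?_
        rw [map_smul]
        exact smul_le_smul_of_nonneg_left (hMj (kap m) _ (kap_mul_le m)) hK
      have h5 := norm_le_norm_of_abs_le_abs (h4.trans (le_abs_self _))
      rwa [norm_smul, norm_smul, Real.norm_of_nonneg hK,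
        Real.norm_of_nonneg (by positivity : (0 : ℝ) ≤ 1 / ((m : ℝ) + 1))] at h5
    rw [dist_eq_norm] at hlt
    have hm' : (N : ℝ) ≤ m := Nat.cast_le.2 hm
    have h6 : K * (1 / ((m : ℝ) + 1) * ‖e‖) < ε / 2 := by
      rw [div_lt_iff₀ (by linarith)] at hN
      have h7 : K * (1 / ((m : ℝ) + 1) * ‖e‖) = K * ‖e‖ / ((m : ℝ) + 1) := by ring
      rw [h7, div_lt_iff₀ (by positivity)]
      nlinarith
    rw [h1]
    refine (norm_add_le _ _).trans_lt ?_
    linarith
  -- the norm limit
  have hlim : ∀ z, Tendsto (fun m => ‖M (kap m) z‖) atTop (𝓝 ‖q z‖) := by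
    intro z
    rw [Metric.tendsto_atTop]
    intro ε hε
    obtain ⟨w, hw, hwn⟩ := hq.exists_lift (q z) (c := ‖q z‖ + ε / 2) (by linarith)
    have hi : q (z - w) = 0 := by rw [map_sub, hw, sub_self]
    obtain ⟨N, hN⟩ := (Metric.tendsto_atTop.1 (hMi _ hi)) (ε / 2) (by linarith)
    refine ⟨N, fun m hm => ?_⟩
    have h1 := hN m hm
    rw [dist_zero_right, norm_norm] at h1
    have h2 : ‖q z‖ ≤ ‖M (kap m) z‖ := by
      rw [← hqM m z]
      exact hq.norm_le _
    have h3 : ‖M (kap m) z‖ ≤ ‖w‖ + ‖M (kap m) (z - w)‖ := by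
      have h4 : M (kap m) z = M (kap m) w + M (kap m) (z - w) := by rw [← map_add]; congr 1; abel
      rw [h4]
      refine (norm_add_le _ _).trans (add_le_add ?_ le_rfl)
      exact ((M (kap m)).le_opNorm _).trans (mul_le_of_le_one_left (norm_nonneg _) (hM1 _).2)
    rw [Real.dist_eq, abs_of_nonneg (by linarith)]
    linarith
  -- composites
  have hchain : ∀ n k z, chainMap (A := fun _ => (FBLpos ℕ).Space) (fun n => M (kap n)) n (k + 1) z =
      M (kap (n + k)) z := by
    intro n k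
    induction k with
    | zero => intro z; rfl
    | succ k ih =>
      intro z
      show M (kap (n + (k + 1))) (chainMap (A := fun _ => (FBLpos ℕ).Space)
        (fun n => M (kap n)) n (k + 1) z) = _
      rw [ih z]
      exact hMmul _ _ _ (kap_mul (by omega)) z
  refine ⟨fun n => M (kap n), fun n => hM1 _, fun _ => q, fun _ => hq.1, hqM, fun n z => ?_, ?_⟩
  · rw [← tendsto_add_atTop_iff_nat 1]
    have h1 : Tendsto (fun k => ‖M (kap (n + k)) z‖) atTop (𝓝 ‖q z‖) := by
      have := (tendsto_add_atTop_iff_nat (f := fun m => ‖M (kap m) z‖) n).2 (hlim z)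
      exact this.congr fun k => by rw [add_comm]
    exact h1.congr fun k => by rw [hchain]
  · have : (⋃ _ : ℕ, range q) = univ := by
      refine eq_univ_of_forall fun y => mem_iUnion.2 ⟨0, ?_⟩
      obtain ⟨z, hz, -⟩ := hq.exists_lift y (lt_add_one _)
      exact ⟨z, hz⟩
    rw [this]
    exact dense_univ

end main

end Pool.Agent.R280.BLat
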