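import Pool.Agent.R280.KKOp

/-!
Stable phase retrieval for `C(KK n)`.
-/

set_option autoImplicit false
set_option linter.unusedSectionVars false

open Set Topology Filter

universe u v w

namespace Pool.Agent.R280.Spr

/-- the embedding -/
theorem exists_T (m : ℕ) (hm : 2 ≤ m) : ∃ T : C(KK (m + 1), ℝ) →ₗ[ℝ] C(KK (m + 1), ℝ),
    (∀ u, ‖T u‖ = ‖u‖) ∧
    ∀ p q : C(KK (m + 1), ℝ), ∃ x, min ‖p‖ ‖q‖ ≤ 30 * min |T p x| |T q x| := by
  obtain ⟨l, hl1, hl2⟩ : ∃ l, (l + 1) + (l + 1) ≤ m ∧ m + 1 ≤ 4 * (l + 1) :=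
    ⟨m / 2 - 1, by omega, by omega⟩
  obtain ⟨σ, hσ⟩ := exists_surj m (l + 1) (l + 1) hl1
  have hS := fun i : ℕ => exists_S l (i * (l + 1)) (m + 1)
  choose S hS1 hS2 hS3 hS4 using hS
  let P : C(KK (m + 1), ℝ) →ₗ[ℝ] C(KK (l + 1), ℝ) :=
    { toFun := fun u => ContinuousMap.const _ (u (top (m + 1)))
      map_add' := fun u v => rfl
      map_smul' := fun c u => rfl }
  let R : ℕ → C(KK (m + 1), ℝ) →ₗ[ℝ] C(KK (l + 1), ℝ) := fun i => if i < 4 then S i else P
  have hR : ∀ i u, ‖R i u‖ ≤ ‖u‖ := by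
    intro i u
    show ‖(if i < 4 then S i else P) u‖ ≤ ‖u‖
    split_ifs
    · exact hS1 i u
    · rw [ContinuousMap.norm_le _ (norm_nonneg _)]
      exact fun y => u.norm_coe_le_norm _
  have hnorming : ∀ (u : C(KK (m + 1), ℝ)) (x : KK (m + 1)), ∃ i, i < 5 ∧ ∃ y,
      |u x| ≤ 10 * |R i u y| := by
    intro u x
    by_contra hcon
    push Not at hcon
    obtain ⟨y0, h0⟩ := hS4 0 x
    obtain ⟨y1, h1⟩ := hS4 1 x
    obtain ⟨y2, h2⟩ := hS4 2 x
    obtain ⟨y3, h3⟩ := hS4 3 x
    have g0 : 10 * |S 0 u y0| < |u x| := hcon 0 (by omega) y0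
    have g1 : 10 * |S 1 u y1| < |u x| := hcon 1 (by omega) y1
    have g2 : 10 * |S 2 u y2| < |u x| := hcon 2 (by omega) y2
    have g3 : 10 * |S 3 u y3| < |u x| := hcon 3 (by omega) y3
    have g4 : 10 * |u (top (m + 1))| < |u x| := hcon 4 (by omega) (top (l + 1))
    rw [h0 u, zero_mul, zero_add, trunc_zero] at g0
    rw [h1 u, one_mul] at g1
    rw [h2 u, show 2 * (l + 1) + (l + 1) = 3 * (l + 1) by ring,
      show 2 * (l + 1) = (l + 1) + (l + 1) by ring] at g2
    rw [h3 u, show 3 * (l + 1) + (l + 1) = 4 * (l + 1) by ring,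
      trunc_of_le _ (4 * (l + 1)) (by omega)] at g3
    have e1 := abs_le.1 (le_refl |(u (trunc (m + 1) (l + 1) x) - u (top (m + 1))) / 2|)
    have e2 := abs_le.1 (le_refl |(u (trunc (m + 1) ((l + 1) + (l + 1)) x) -
      u (trunc (m + 1) (l + 1) x)) / 2|)
    have e3 := abs_le.1 (le_refl |(u (trunc (m + 1) (3 * (l + 1)) x) -
      u (trunc (m + 1) ((l + 1) + (l + 1)) x)) / 2|)
    have e4 := abs_le.1 (le_refl |(u x - u (trunc (m + 1) (3 * (l + 1)) x)) / 2|)
    have e5 := abs_le.1 (le_refl |u (top (m + 1))|)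
    rcases abs_cases (u x) with ⟨h, h'⟩ | ⟨h, h'⟩ <;> rw [h] at g0 g1 g2 g3 g4 <;> linarith
  let F : C(KK (m + 1), ℝ) → ℕ → KK m → ℝ := fun u k y =>
    if k < 25 then (R (k / 5) u (σ y).1 + R (k % 5) u (σ y).2) / 2 else u (pt (k - 25) y)
  have hF1 : ∀ u k, Continuous (F u k) := by
    intro u k
    show Continuous fun y : KK m =>
      if k < 25 then (R (k / 5) u (σ y).1 + R (k % 5) u (σ y).2) / 2 else u (pt (k - 25) y)
    split_ifs
    · exact (((R (k / 5) u).continuous.comp (continuous_fst.comp σ.continuous)).add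
        ((R (k % 5) u).continuous.comp (continuous_snd.comp σ.continuous))).div_const 2
    · exact u.continuous.comp (continuous_pt _)
  have hF2 : ∀ u k y, F u (k + 25) y = u (pt k y) := by
    intro u k y
    show (if k + 25 < 25 then (R ((k + 25) / 5) u (σ y).1 + R ((k + 25) % 5) u (σ y).2) / 2
      else u (pt (k + 25 - 25) y)) = _
    rw [if_neg (by omega), Nat.add_sub_cancel]
  have hF3 : ∀ u k y, k < 25 → F u k y = (R (k / 5) u (σ y).1 + R (k % 5) u (σ y).2) / 2 := by
    intro u k y hk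
    show (if k < 25 then (R (k / 5) u (σ y).1 + R (k % 5) u (σ y).2) / 2
      else u (pt (k - 25) y)) = _
    rw [if_pos hk]
  have hcont : ∀ u, Continuous (lft (u (top (m + 1))) (F u) : KK (m + 1) → ℝ) := by
    intro u
    refine lft_continuous (hF1 u) fun U hU => ?_
    obtain ⟨ε, hε, hεU⟩ := Metric.mem_nhds_iff.1 hU
    obtain ⟨N, hN⟩ := tail_small u hε
    refine ⟨N + 25, fun k hk y => hεU ?_⟩
    obtain ⟨j, rfl⟩ : ∃ j, k = j + 25 := ⟨k - 25, by omega⟩
    rw [hF2, Metric.mem_ball, Real.dist_eq]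
    exact hN j (by omega) y
  let T : C(KK (m + 1), ℝ) →ₗ[ℝ] C(KK (m + 1), ℝ) :=
    { toFun := fun u => ⟨lft (u (top (m + 1))) (F u), hcont u⟩
      map_add' := fun u v => by
        ext y
        rcases cases_pt y with rfl | ⟨k, y, rfl⟩
        · rfl
        · show F (u + v) k y = F u k y + F v k y
          by_cases hk : k < 25
          · rw [hF3 _ _ _ hk, hF3 _ _ _ hk, hF3 _ _ _ hk, map_add, map_add,
              ContinuousMap.add_apply, ContinuousMap.add_apply]
            ring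
          · obtain ⟨j, rfl⟩ : ∃ j, k = j + 25 := ⟨k - 25, by omega⟩
            rw [hF2, hF2, hF2, ContinuousMap.add_apply]
      map_smul' := fun c u => by
        ext y
        rcases cases_pt y with rfl | ⟨k, y, rfl⟩
        · rfl
        · show F (c • u) k y = c * F u k y
          by_cases hk : k < 25
          · rw [hF3 _ _ _ hk, hF3 _ _ _ hk, map_smul, map_smul,
              ContinuousMap.smul_apply, ContinuousMap.smul_apply, smul_eq_mul, smul_eq_mul]
            ring
          · obtain ⟨j, rfl⟩ : ∃ j, k = j + 25 := ⟨k - 25, by omega⟩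
            rw [hF2, hF2, ContinuousMap.smul_apply, smul_eq_mul] }
  have hTpt : ∀ u k y, T u (pt k y) = F u k y := fun _ _ _ => rfl
  have hTtop : ∀ u, T u (top (m + 1)) = u (top (m + 1)) := fun _ => rfl
  have hpair : ∀ i < 5, ∀ i' < 5, ∀ y z, ∃ x, ∀ u, T u x = (R i u y + R i' u z) / 2 := by
    intro i hi i' hi' y z
    obtain ⟨w, hw⟩ := hσ (y, z)
    refine ⟨pt (5 * i + i') w, fun u => ?_⟩
    rw [hTpt, hF3 _ _ _ (by omega), hw, show (5 * i + i') / 5 = i by omega,
      show (5 * i + i') % 5 = i' by omega]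
  have hmax : ∀ u : C(KK (m + 1), ℝ), ∃ s, ‖u‖ ≤ |u s| := by
    intro u
    have : Nonempty (KK (m + 1)) := ⟨top _⟩
    by_contra hcon
    push Not at hcon
    exact lt_irrefl _ ((ContinuousMap.norm_lt_iff_of_nonempty u).2 hcon)
  refine ⟨T, fun u => le_antisymm ?_ ?_, fun p q => ?_⟩
  · rw [ContinuousMap.norm_le _ (norm_nonneg _)]
    intro x
    rcases cases_pt x with rfl | ⟨k, y, rfl⟩
    · rw [hTtop]
      exact u.norm_coe_le_norm _
    · rw [hTpt]
      by_cases hk : k < 25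
      · rw [hF3 _ _ _ hk, Real.norm_eq_abs, abs_div, abs_two, div_le_iff₀ two_pos]
        have h1 := ((R (k / 5) u).norm_coe_le_norm (σ y).1).trans (hR _ u)
        have h2 := ((R (k % 5) u).norm_coe_le_norm (σ y).2).trans (hR _ u)
        rw [Real.norm_eq_abs] at h1 h2
        have h3 := abs_add_le (R (k / 5) u (σ y).1) (R (k % 5) u (σ y).2)
        linarith
      · obtain ⟨j, rfl⟩ : ∃ j, k = j + 25 := ⟨k - 25, by omega⟩
        rw [hF2]
        exact u.norm_coe_le_norm _
  · rw [ContinuousMap.norm_le _ (norm_nonneg _)]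
    intro x
    rcases cases_pt x with rfl | ⟨k, y, rfl⟩
    · rw [← hTtop]
      exact (T u).norm_coe_le_norm _
    · rw [← hF2, ← hTpt]
      exact (T u).norm_coe_le_norm _
  · obtain ⟨s, hs⟩ := hmax p
    obtain ⟨t, ht⟩ := hmax q
    obtain ⟨i, hi, y, hy⟩ := hnorming p s
    obtain ⟨i', hi', z, hz⟩ := hnorming q t
    set M := min ‖p‖ ‖q‖ with hM
    have hM1 : M ≤ 10 * |R i p y| := (min_le_left _ _).trans (hs.trans hy)
    have hM2 : M ≤ 10 * |R i' q z| := (min_le_right _ _).trans (ht.trans hz)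
    by_cases c1 : M ≤ 30 * |R i q y|
    · obtain ⟨x, hx⟩ := hpair i hi i hi y y
      refine ⟨x, ?_⟩
      have h1 : ∀ u, T u x = R i u y := fun u => by rw [hx]; ring
      rw [h1, h1]
      rcases min_cases |R i p y| |R i q y| with ⟨h, -⟩ | ⟨h, -⟩ <;> rw [h]
      · have := abs_nonneg (R i p y)
        linarith
      · exact c1
    by_cases c2 : M ≤ 30 * |R i' p z|
    · obtain ⟨x, hx⟩ := hpair i' hi' i' hi' z z
      refine ⟨x, ?_⟩
      have h1 : ∀ u, T u x = R i' u z := fun u => by rw [hx]; ring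
      rw [h1, h1]
      rcases min_cases |R i' p z| |R i' q z| with ⟨h, -⟩ | ⟨h, -⟩ <;> rw [h]
      · exact c2
      · have := abs_nonneg (R i' q z)
        linarith
    push Not at c1 c2
    obtain ⟨x, hx⟩ := hpair i hi i' hi' y z
    refine ⟨x, ?_⟩
    rw [hx, hx]
    have h1 : M ≤ 30 * |(R i p y + R i' p z) / 2| := by
      rw [abs_div, abs_two]
      have h2 := abs_sub_abs_le_abs_sub (R i p y) (-(R i' p z))
      rw [abs_neg, sub_neg_eq_add] at h2
      linarith
    have h2 : M ≤ 30 * |(R i q y + R i' q z) / 2| := by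
      rw [abs_div, abs_two]
      have h2 := abs_sub_abs_le_abs_sub (R i' q z) (-(R i q y))
      rw [abs_neg, sub_neg_eq_add, add_comm (R i' q z) (R i q y)] at h2
      linarith
    rcases min_cases |(R i p y + R i' p z) / 2| |(R i q y + R i' q z) / 2| with ⟨h, -⟩ | ⟨h, -⟩ <;>
      rw [h]
    · exact h1
    · exact h2

lemma min_abs_le (a b : ℝ) : min |a - b| |a + b| ≤ |(|a| - |b|)| := by
  rcases le_total 0 a with ha | ha <;> rcases le_total 0 b with hb | hb
  · rw [abs_of_nonneg ha, abs_of_nonneg hb]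
    exact min_le_left _ _
  · rw [abs_of_nonneg ha, abs_of_nonpos hb, sub_neg_eq_add]
    exact min_le_right _ _
  · rw [abs_of_nonpos ha, abs_of_nonneg hb]
    refine (min_le_right _ _).trans (le_of_eq ?_)
    rw [← abs_neg (a + b)]
    congr 1; ring
  · rw [abs_of_nonpos ha, abs_of_nonpos hb]
    refine (min_le_left _ _).trans (le_of_eq ?_)
    rw [← abs_neg (a - b)]
    congr 1; ring

/-- stable phase retrieval on spaces homeomorphic to `KK (m+1)` -/
theorem exists_spr {X : Type u} [TopologicalSpace X] [CompactSpace X] (m : ℕ) (hm : 2 ≤ m)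
    (e : X ≃ₜ KK (m + 1)) : ∃ T : C(X, ℝ) →ₗᵢ[ℝ] C(X, ℝ),
    ∀ f ∈ range T, ∀ g ∈ range T, min ‖f - g‖ ‖f + g‖ ≤ 30 * ‖|f| - |g|‖ := by
  obtain ⟨T, hT1, hT2⟩ := exists_T m hm
  let a : C(X, KK (m + 1)) := ⟨e, e.continuous⟩
  let b : C(KK (m + 1), X) := ⟨e.symm, e.symm.continuous⟩
  have ha : ∀ u : C(KK (m + 1), ℝ), ‖u.comp a‖ = ‖u‖ := by
    intro u
    apply le_antisymm
    · rw [ContinuousMap.norm_le _ (norm_nonneg _)]
      exact fun x => u.norm_coe_le_norm _
    · rw [ContinuousMap.norm_le _ (norm_nonneg _)]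
      intro x
      have h1 := (u.comp a).norm_coe_le_norm (e.symm x)
      have h2 : (u.comp a) (e.symm x) = u x := by
        show u (e (e.symm x)) = u x
        rw [e.apply_symm_apply]
      rwa [h2] at h1
  have hb : ∀ u : C(X, ℝ), ‖u.comp b‖ = ‖u‖ := by
    intro u
    apply le_antisymm
    · rw [ContinuousMap.norm_le _ (norm_nonneg _)]
      exact fun x => u.norm_coe_le_norm _
    · rw [ContinuousMap.norm_le _ (norm_nonneg _)]
      intro x
      have h1 := (u.comp b).norm_coe_le_norm (e x)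
      have h2 : (u.comp b) (e x) = u x := by
        show u (e.symm (e x)) = u x
        rw [e.symm_apply_apply]
      rwa [h2] at h1
  let T' : C(X, ℝ) →ₗᵢ[ℝ] C(X, ℝ) :=
    { toFun := fun u => (T (u.comp b)).comp a
      map_add' := fun u v => by
        have h1 : (u + v).comp b = u.comp b + v.comp b := rfl
        rw [h1, map_add]; rfl
      map_smul' := fun c u => by
        have h1 : (c • u).comp b = c • u.comp b := rfl
        rw [h1, map_smul]; rfl
      norm_map' := fun u => by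
        show ‖(T (u.comp b)).comp a‖ = ‖u‖
        rw [ha, hT1, hb] }
  refine ⟨T', ?_⟩
  rintro _ ⟨u, rfl⟩ _ ⟨v, rfl⟩
  rw [← map_sub, ← map_add, T'.norm_map, T'.norm_map, ← hb (u - v), ← hb (u + v)]
  obtain ⟨x, hx⟩ := hT2 ((u - v).comp b) ((u + v).comp b)
  refine hx.trans (mul_le_mul_of_nonneg_left ?_ (by norm_num))
  have h1 : T ((u - v).comp b) x = T (u.comp b) x - T (v.comp b) x := by
    have h2 : (u - v).comp b = u.comp b - v.comp b := rfl
    rw [h2, map_sub]; rfl
  have h2 : T ((u + v).comp b) x = T (u.comp b) x + T (v.comp b) x := by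
    have h2 : (u + v).comp b = u.comp b + v.comp b := rfl
    rw [h2, map_add]; rfl
  rw [h1, h2]
  refine (min_abs_le _ _).trans ?_
  have h3 := (|T' u| - |T' v|).norm_coe_le_norm (e.symm x)
  have h4 : ∀ u : C(X, ℝ), T' u (e.symm x) = T (u.comp b) x := by
    intro u
    show T (u.comp b) (e (e.symm x)) = _
    rw [e.apply_symm_apply]
  rw [ContinuousMap.sub_apply, ContinuousMap.abs_apply, ContinuousMap.abs_apply, h4, h4,
    Real.norm_eq_abs] at h3
  exact h3

end Pool.Agent.R280.Spr
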