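import Pool.Agent.R280.KKSpace

/-!
The operators from `C(KK n)` to `C(KK l)` used for stable phase retrieval.
-/

set_option autoImplicit false
set_option linter.unusedSectionVars false

open Set Topology Filter

universe u v w

namespace Pool.Agent.R280.Spr

/-- the difference operators -/
theorem exists_S (l : ℕ) (a : ℕ) : ∀ n : ℕ, ∃ S : C(KK n, ℝ) →ₗ[ℝ] C(KK (l + 1), ℝ),
    (∀ u, ‖S u‖ ≤ ‖u‖) ∧ (∀ c : ℝ, S (ContinuousMap.const _ c) = 0) ∧
    (∀ u, S u (top (l + 1)) = 0) ∧
    ∀ x : KK n, ∃ y, ∀ u, S u y = (u (trunc n (a + (l + 1)) x) - u (trunc n a x)) / 2 := by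
  induction a with
  | zero =>
    intro n
    obtain ⟨j, hj, hjx⟩ := exists_j (l + 1) n
    refine ⟨{ toFun := fun u => (1 / 2 : ℝ) • (u.comp j - ContinuousMap.const _ (u (top n)))
              map_add' := fun u v => by
                ext y
                simp only [ContinuousMap.smul_apply, ContinuousMap.sub_apply,
                  ContinuousMap.comp_apply, ContinuousMap.add_apply, ContinuousMap.const_apply,
                  smul_eq_mul]
                ring
              map_smul' := fun c u => by
                ext y
                simp only [ContinuousMap.smul_apply, ContinuousMap.sub_apply,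
                  ContinuousMap.comp_apply, ContinuousMap.const_apply,
                  smul_eq_mul, RingHom.id_apply]
                ring }, fun u => ?_, fun c => ?_, fun u => ?_, fun x => ?_⟩
    · rw [ContinuousMap.norm_le _ (norm_nonneg _)]
      intro y
      show ‖(1 / 2 : ℝ) * (u (j y) - u (top n))‖ ≤ ‖u‖
      have h1 := u.norm_coe_le_norm (j y)
      have h2 := u.norm_coe_le_norm (top n)
      have h3 := norm_sub_le (u (j y)) (u (top n))
      rw [norm_mul, Real.norm_of_nonneg (by norm_num : (0 : ℝ) ≤ 1 / 2)]
      linarith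
    · ext y
      show (1 / 2 : ℝ) * (c - c) = 0
      rw [sub_self, mul_zero]
    · show (1 / 2 : ℝ) * (u (j (top (l + 1))) - u (top n)) = 0
      rw [hj, sub_self, mul_zero]
    · obtain ⟨y, hy⟩ := hjx x
      refine ⟨y, fun u => ?_⟩
      show (1 / 2 : ℝ) * (u (j y) - u (top n)) = _
      rw [hy, trunc_zero, zero_add]; ring
  | succ a ih =>
    intro n
    cases n with
    | zero =>
      refine ⟨0, fun u => ?_, fun c => rfl, fun u => rfl, fun x => ⟨top _, fun u => ?_⟩⟩
      · rw [LinearMap.zero_apply, norm_zero]; exact norm_nonneg _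
      · rw [LinearMap.zero_apply, Subsingleton.elim (trunc 0 (a + 1 + (l + 1)) x)
          (trunc 0 (a + 1) x), sub_self, zero_div]
        rfl
    | succ n =>
      obtain ⟨S, hS1, hS2, hS3, hS4⟩ := ih n
      let r : C(KK (n + 1), ℝ) → ℕ → C(KK n, ℝ) := fun u k => u.comp ⟨pt k, continuous_pt k⟩
      let f : C(KK (n + 1), ℝ) → ℕ → KK l → ℝ := fun u k z =>
        S (r u (Nat.unpair k).1) (pt (Nat.unpair k).2 z)
      have hr : ∀ (u : C(KK (n + 1), ℝ)) (k : ℕ) (ε : ℝ), 0 ≤ ε →
          (∀ y, |u (pt k y) - u (top (n + 1))| ≤ ε) → ‖S (r u k)‖ ≤ ε := by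
        intro u k ε hε h
        have h1 : S (r u k) = S (r u k - ContinuousMap.const _ (u (top (n + 1)))) := by
          rw [map_sub, hS2, sub_zero]
        rw [h1]
        refine (hS1 _).trans ?_
        rw [ContinuousMap.norm_le _ hε]
        exact h
      have hcont : ∀ u, Continuous (lft 0 (f u) : KK (l + 1) → ℝ) := by
        intro u
        refine lft_continuous (fun k => (S _).continuous.comp (continuous_pt _)) fun U hU => ?_
        obtain ⟨ε, hε, hεU⟩ := Metric.mem_nhds_iff.1 hU
        obtain ⟨N1, hN1⟩ := tail_small u (half_pos hε)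
        have h1 : ∀ i : ℕ, ∃ M, ∀ k, M ≤ k → ∀ z : KK l, |S (r u i) (pt k z)| < ε := by
          intro i
          obtain ⟨M, hM⟩ := tail_small (S (r u i)) hε
          refine ⟨M, fun k hk z => ?_⟩
          have := hM k hk z
          rwa [hS3, sub_zero] at this
        choose M hM using h1
        let M' := (Finset.range N1).sup M
        refine ⟨(Finset.range N1 ×ˢ Finset.range M').sup (fun p => Nat.pair p.1 p.2) + 1,
          fun k hk y => hεU ?_⟩
        rw [Metric.mem_ball, dist_zero_right, Real.norm_eq_abs]
        by_cases hk1 : (Nat.unpair k).1 < N1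
        · by_cases hk2 : (Nat.unpair k).2 < M'
          · exfalso
            have h2 : Nat.pair (Nat.unpair k).1 (Nat.unpair k).2 ≤
                (Finset.range N1 ×ˢ Finset.range M').sup (fun p => Nat.pair p.1 p.2) :=
              Finset.le_sup (f := fun p : ℕ × ℕ => Nat.pair p.1 p.2) (b := Nat.unpair k)
                (Finset.mem_product.2 ⟨Finset.mem_range.2 hk1, Finset.mem_range.2 hk2⟩)
            rw [Nat.pair_unpair] at h2
            omega
          · refine hM _ _ (le_trans ?_ (not_lt.1 hk2)) _
            exact Finset.le_sup (f := M) (Finset.mem_range.2 hk1)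
        · have h2 := hr u (Nat.unpair k).1 (ε / 2) (half_pos hε).le
            fun y => (hN1 _ (not_lt.1 hk1) y).le
          have h3 := (S (r u (Nat.unpair k).1)).norm_coe_le_norm (pt (Nat.unpair k).2 y)
          rw [Real.norm_eq_abs] at h3
          exact lt_of_le_of_lt (h3.trans h2) (half_lt_self hε)
      refine ⟨{ toFun := fun u => ⟨lft 0 (f u), hcont u⟩
                map_add' := fun u v => ?_
                map_smul' := fun c u => ?_ }, fun u => ?_, fun c => ?_, fun u => rfl, fun x => ?_⟩
      · ext y
        rcases cases_pt y with rfl | ⟨k, y, rfl⟩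
        · show (0 : ℝ) = 0 + 0
          rw [add_zero]
        · show S (r (u + v) (Nat.unpair k).1) (pt (Nat.unpair k).2 y) =
            S (r u (Nat.unpair k).1) (pt (Nat.unpair k).2 y) +
              S (r v (Nat.unpair k).1) (pt (Nat.unpair k).2 y)
          have h1 : r (u + v) (Nat.unpair k).1 =
            r u (Nat.unpair k).1 + r v (Nat.unpair k).1 := rfl
          rw [h1, map_add]; rfl
      · ext y
        rcases cases_pt y with rfl | ⟨k, y, rfl⟩
        · show (0 : ℝ) = c * 0
          rw [mul_zero]
        · show S (r (c • u) (Nat.unpair k).1) (pt (Nat.unpair k).2 y) =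
            c * S (r u (Nat.unpair k).1) (pt (Nat.unpair k).2 y)
          have h1 : r (c • u) (Nat.unpair k).1 = c • r u (Nat.unpair k).1 := rfl
          rw [h1, map_smul]; rfl
      · rw [ContinuousMap.norm_le _ (norm_nonneg _)]
        intro y
        rcases cases_pt y with rfl | ⟨k, y, rfl⟩
        · show ‖(0 : ℝ)‖ ≤ ‖u‖
          rw [norm_zero]; exact norm_nonneg _
        · show ‖S (r u (Nat.unpair k).1) (pt (Nat.unpair k).2 y)‖ ≤ ‖u‖
          refine ((S _).norm_coe_le_norm _).trans ((hS1 _).trans ?_)
          rw [ContinuousMap.norm_le _ (norm_nonneg _)]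
          exact fun z => u.norm_coe_le_norm _
      · ext y
        rcases cases_pt y with rfl | ⟨k, y, rfl⟩
        · rfl
        · show S (r (ContinuousMap.const _ c) (Nat.unpair k).1) (pt (Nat.unpair k).2 y) = 0
          have h1 : r (ContinuousMap.const _ c) (Nat.unpair k).1 = ContinuousMap.const _ c := rfl
          rw [h1, hS2]; rfl
      · rcases cases_pt x with rfl | ⟨i, x, rfl⟩
        · refine ⟨top (l + 1), fun u => ?_⟩
          rw [trunc_top, trunc_top, sub_self, zero_div]
          rfl
        · obtain ⟨y, hy⟩ := hS4 x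
          have hx1 : trunc (n + 1) (a + 1 + (l + 1)) (pt i x) = pt i (trunc n (a + (l + 1)) x) := by
            rw [show a + 1 + (l + 1) = (a + (l + 1)) + 1 by omega, trunc_pt]
          rcases cases_pt y with rfl | ⟨k, y, rfl⟩
          · refine ⟨top (l + 1), fun u => ?_⟩
            rw [hx1, trunc_pt]
            have h1 := hy (r u i)
            rw [hS3] at h1
            exact h1
          · refine ⟨pt (Nat.pair i k) y, fun u => ?_⟩
            rw [hx1, trunc_pt]
            have h1 := hy (r u i)
            show S (r u (Nat.unpair (Nat.pair i k)).1) (pt (Nat.unpair (Nat.pair i k)).2 y) = _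
            rw [Nat.unpair_pair]
            exact h1

end Pool.Agent.R280.Spr
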