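import Pool.Agent.R280.KKSpace

/-!
The ordinal interval `[1, ω^n]` is homeomorphic to `KK n`.
-/

set_option autoImplicit false
set_option linter.unusedSectionVars false

open Set Topology Filter Ordinal

namespace Pool.Agent.R280.Spr

/-- the ordinal interval `[1, ω^n]` -/
abbrev OrdInt (n : ℕ) : Type 1 := Set.Icc (1 : Ordinal.{0}) (ω ^ n)

lemma one_le_pow (n : ℕ) : (1 : Ordinal.{0}) ≤ ω ^ n := by
  have h : (0 : Ordinal.{0}) < ω ^ n := pow_pos omega0_pos n
  exact Order.one_le_iff_pos.2 h

lemma lt_top_aux (n k : ℕ) {γ : Ordinal.{0}} (hγ : γ ≤ ω ^ n) :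
    ω ^ n * (k : Ordinal.{0}) + γ < ω ^ (n + 1) := by
  calc ω ^ n * (k : Ordinal.{0}) + γ ≤ ω ^ n * (k : Ordinal.{0}) + ω ^ n :=
        add_le_add_right hγ _
    _ = ω ^ n * ((k + 1 : ℕ) : Ordinal.{0}) := by
        push_cast
        rw [mul_add, mul_one]
    _ < ω ^ n * ω := by
        exact mul_lt_mul_of_pos_left (natCast_lt_omega0 _) (pow_pos omega0_pos n)
    _ = ω ^ (n + 1) := (pow_succ _ _).symm

theorem exists_homeo (n : ℕ) : Nonempty (KK n ≃ₜ OrdInt n) := by
  induction n with
  | zero =>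
    have h1 : ∀ x : OrdInt 0, x = ⟨1, le_rfl, one_le_pow 0⟩ := by
      rintro ⟨x, hx1, hx2⟩
      refine Subtype.ext ?_
      rw [pow_zero] at hx2
      exact le_antisymm hx2 hx1
    have : Unique (OrdInt 0) := ⟨⟨⟨1, le_rfl, one_le_pow 0⟩⟩, h1⟩
    have : Unique (KK 0) := ⟨⟨top 0⟩, fun x => Subsingleton.elim _ _⟩
    exact ⟨Homeomorph.homeomorphOfUnique _ _⟩
  | succ n ih =>
    obtain ⟨h⟩ := ih
    let tp : OrdInt (n + 1) := ⟨ω ^ (n + 1), one_le_pow _, le_rfl⟩
    let f : ℕ → KK n → OrdInt (n + 1) := fun k y =>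
      ⟨ω ^ n * (k : Ordinal.{0}) + (h y : Ordinal.{0}),
        le_add_left (h y).2.1, (lt_top_aux n k (h y).2.2).le⟩
    have hf1 : ∀ k, Continuous (f k) := by
      intro k
      refine Continuous.subtype_mk ?_ _
      exact ((isNormal_add_right (ω ^ n * (k : Ordinal.{0}))).continuous).comp
        (continuous_subtype_val.comp h.continuous)
    have hcont : Continuous (lft tp f) := by
      refine lft_continuous hf1 fun U hU => ?_
      rw [mem_nhds_subtype] at hU
      obtain ⟨V, hV, hVU⟩ := hU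
      obtain ⟨b, hb, hbV⟩ := exists_Ioc_subset_of_mem_nhds hV
        ⟨0, pow_pos omega0_pos (n + 1)⟩
      have hb' : b < ω ^ n * ω := by
        rw [← pow_succ]; exact hb
      obtain ⟨q, hq, r, hr, rfl⟩ := lt_mul_iff.1 hb'
      obtain ⟨N, rfl⟩ := lt_omega0.1 hq
      refine ⟨N + 1, fun k hk y => hVU (hbV ⟨?_, ?_⟩)⟩
      · show ω ^ n * (N : Ordinal.{0}) + r < ω ^ n * (k : Ordinal.{0}) + (h y : Ordinal.{0})
        calc ω ^ n * (N : Ordinal.{0}) + r < ω ^ n * (N : Ordinal.{0}) + ω ^ n :=
              add_lt_add_right hr _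
          _ = ω ^ n * ((N + 1 : ℕ) : Ordinal.{0}) := by
              push_cast
              rw [mul_add, mul_one]
          _ ≤ ω ^ n * (k : Ordinal.{0}) :=
              mul_le_mul_right (Nat.cast_le.2 hk) _
          _ ≤ _ := le_add_right le_rfl
      · exact (lt_top_aux n k (h y).2.2).le
    have hinj : Function.Injective (lft tp f) := by
      have hlt : ∀ (k k' : ℕ) (y y' : KK n), k < k' → (f k y : Ordinal.{0}) < f k' y' := by
        intro k k' y y' hk
        show ω ^ n * (k : Ordinal.{0}) + (h y : Ordinal.{0}) <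
          ω ^ n * (k' : Ordinal.{0}) + (h y' : Ordinal.{0})
        calc ω ^ n * (k : Ordinal.{0}) + (h y : Ordinal.{0}) ≤ ω ^ n * (k : Ordinal.{0}) + ω ^ n :=
              add_le_add_right (h y).2.2 _
          _ = ω ^ n * ((k + 1 : ℕ) : Ordinal.{0}) := by
              push_cast
              rw [mul_add, mul_one]
          _ ≤ ω ^ n * (k' : Ordinal.{0}) :=
              mul_le_mul_right (Nat.cast_le.2 hk) _
          _ < _ := lt_add_of_pos_right _ (Order.one_le_iff_pos.1 (h y').2.1)
      have htop : ∀ (k : ℕ) (y : KK n), f k y ≠ tp := by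
        intro k y hk
        exact absurd (congrArg Subtype.val hk) (lt_top_aux n k (h y).2.2).ne
      intro x x' hxx
      rcases cases_pt x with rfl | ⟨k, y, rfl⟩ <;> rcases cases_pt x' with rfl | ⟨k', y', rfl⟩
      · rfl
      · exact absurd hxx.symm (htop _ _)
      · exact absurd hxx (htop _ _)
      · have hxx' : f k y = f k' y' := hxx
        have hk : k = k' := by
          rcases lt_trichotomy k k' with hk | hk | hk
          · exact absurd (congrArg Subtype.val hxx') (hlt _ _ _ _ hk).ne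
          · exact hk
          · exact absurd (congrArg Subtype.val hxx') (hlt _ _ _ _ hk).ne'
        subst hk
        have h1 : ω ^ n * (k : Ordinal.{0}) + (h y : Ordinal.{0}) =
            ω ^ n * (k : Ordinal.{0}) + (h y' : Ordinal.{0}) := congrArg Subtype.val hxx'
        have h2 : (h y : Ordinal.{0}) = h y' := (add_right_inj _).1 h1
        rw [h.injective (Subtype.ext h2)]
    have hsurj : Function.Surjective (lft tp f) := by
      rintro ⟨δ, hδ1, hδ2⟩
      rcases eq_or_lt_of_le hδ2 with h1 | h1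
      · exact ⟨top (n + 1), Subtype.ext h1.symm⟩
      · have h1' : δ < ω ^ n * ω := by
          rw [← pow_succ]; exact h1
        obtain ⟨q, hq, r, hr, rfl⟩ := lt_mul_iff.1 h1'
        obtain ⟨N, rfl⟩ := lt_omega0.1 hq
        rcases eq_or_ne r 0 with rfl | hr0
        · have hN : N ≠ 0 := by
            rintro rfl
            simp at hδ1
          obtain ⟨k, rfl⟩ : ∃ k, N = k + 1 := ⟨N - 1, by omega⟩
          refine ⟨pt k (h.symm ⟨ω ^ n, one_le_pow n, le_rfl⟩), Subtype.ext ?_⟩
          show ω ^ n * (k : Ordinal.{0}) +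
            (h (h.symm ⟨ω ^ n, one_le_pow n, le_rfl⟩) : Ordinal.{0}) = _
          rw [h.apply_symm_apply]
          push_cast
          rw [mul_add, mul_one, add_zero]
        · refine ⟨pt N (h.symm ⟨r, Order.one_le_iff_pos.2 (pos_iff_ne_zero.2 hr0), hr.le⟩),
            Subtype.ext ?_⟩
          show ω ^ n * (N : Ordinal.{0}) +
            (h (h.symm ⟨r, Order.one_le_iff_pos.2 (pos_iff_ne_zero.2 hr0), hr.le⟩) :
              Ordinal.{0}) = _
          rw [h.apply_symm_apply]
    exact ⟨Continuous.homeoOfEquivCompactToT2 (f := Equiv.ofBijective _ ⟨hinj, hsurj⟩) hcont⟩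

end Pool.Agent.R280.Spr
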