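import Mathlib

/-!
The compact spaces `KK n` (homeomorphic to the ordinal intervals `[1, ω^n]`): `KK 0` is a point and
`KK (n+1)` is the one-point compactification of `ℕ × KK n`.
-/

set_option autoImplicit false
set_option linter.unusedSectionVars false

open Set Topology Filter

universe u v w

namespace Pool.Agent.R280.Spr

/-- the spaces -/
def KK : ℕ → Type
  | 0 => Unit
  | (n + 1) => OnePoint (ℕ × KK n)

instance instTopKK : (n : ℕ) → TopologicalSpace (KK n)
  | 0 => inferInstanceAs (TopologicalSpace Unit)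
  | (n + 1) =>
    letI := instTopKK n
    inferInstanceAs (TopologicalSpace (OnePoint (ℕ × KK n)))

instance instCompactKK : (n : ℕ) → CompactSpace (KK n)
  | 0 => inferInstanceAs (CompactSpace Unit)
  | (n + 1) => inferInstanceAs (CompactSpace (OnePoint (ℕ × KK n)))

instance : Subsingleton (KK 0) := inferInstanceAs (Subsingleton Unit)

/-- the last point -/
def top : (n : ℕ) → KK n
  | 0 => ()
  | (n + 1) => (OnePoint.infty : OnePoint (ℕ × KK n))

/-- the points in the `k`-th copy -/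
def pt {n : ℕ} (k : ℕ) (x : KK n) : KK (n + 1) := ((k, x) : OnePoint (ℕ × KK n))

/-- functions on `KK (n+1)` -/
def lft {n : ℕ} {Z : Type u} (z : Z) (f : ℕ → KK n → Z) : KK (n + 1) → Z :=
  fun x => OnePoint.rec (C := fun _ => Z) z (fun p => f p.1 p.2) x

lemma lft_top {n : ℕ} {Z : Type u} (z : Z) (f : ℕ → KK n → Z) : lft z f (top (n + 1)) = z := rfl

lemma lft_pt {n : ℕ} {Z : Type u} (z : Z) (f : ℕ → KK n → Z) (k : ℕ) (x : KK n) :
    lft z f (pt k x) = f k x := rfl

lemma cases_pt {n : ℕ} (x : KK (n + 1)) : x = top (n + 1) ∨ ∃ k y, x = pt k y :=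
  OnePoint.rec (C := fun x : OnePoint (ℕ × KK n) =>
    (x : KK (n + 1)) = top (n + 1) ∨ ∃ k y, (x : KK (n + 1)) = pt k y) (Or.inl rfl)
    (fun p => Or.inr ⟨p.1, p.2, rfl⟩) x

lemma continuous_pt {n : ℕ} (k : ℕ) : Continuous (pt k : KK n → KK (n + 1)) := by
  show Continuous fun x : KK n => ((k, x) : OnePoint (ℕ × KK n))
  exact OnePoint.continuous_coe.comp (continuous_const.prodMk continuous_id)

/-- the continuity criterion -/
lemma lft_continuous {n : ℕ} {Z : Type u} [TopologicalSpace Z] {z : Z} {f : ℕ → KK n → Z}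
    (h1 : ∀ k, Continuous (f k)) (h2 : ∀ U ∈ 𝓝 z, ∃ N, ∀ k, N ≤ k → ∀ y, f k y ∈ U) :
    Continuous (lft z f) := by
  have key : Continuous (fun x : OnePoint (ℕ × KK n) => (lft z f x : Z)) := by
    rw [OnePoint.continuous_iff]
    refine ⟨?_, ?_⟩
    · show Tendsto (fun x : ℕ × KK n => f x.1 x.2) (coclosedCompact (ℕ × KK n)) (𝓝 z)
      rw [tendsto_def]
      intro U hU
      obtain ⟨N, hN⟩ := h2 U hU
      have hc : IsCompact ((Set.Iio N) ×ˢ (univ : Set (KK n))) :=
        (Set.finite_Iio N).isCompact.prod isCompact_univ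
      have hcl : IsClosed ((Set.Iio N) ×ˢ (univ : Set (KK n))) :=
        (isClosed_discrete _).prod isClosed_univ
      refine mem_of_superset (hc.compl_mem_coclosedCompact_of_isClosed hcl) ?_
      rintro ⟨k, y⟩ hk
      refine hN k ?_ y
      by_contra hlt
      push Not at hlt
      exact hk ⟨hlt, mem_univ _⟩
    · show Continuous fun x : ℕ × KK n => f x.1 x.2
      exact continuous_prod_of_discrete_left.2 h1
  exact key

/-- neighbourhoods of the last point -/
lemma nhds_top {n : ℕ} {V : Set (KK (n + 1))} (hV : V ∈ 𝓝 (top (n + 1))) :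
    ∃ N, ∀ k, N ≤ k → ∀ y : KK n, pt k y ∈ V := by
  have h1 : Tendsto (fun x : ℕ × KK n => (x : OnePoint (ℕ × KK n))) (coclosedCompact (ℕ × KK n))
      (𝓝 (OnePoint.infty : OnePoint (ℕ × KK n))) := by
    have := (OnePoint.continuous_iff (fun x : OnePoint (ℕ × KK n) => x)).1 continuous_id
    exact this.1
  have h2 : (fun x : ℕ × KK n => (x : OnePoint (ℕ × KK n))) ⁻¹' V ∈
      coclosedCompact (ℕ × KK n) := h1 hV
  rw [mem_coclosedCompact_iff] at h2
  have h3 : (Prod.fst '' closure ((fun x : ℕ × KK n => (x : OnePoint (ℕ × KK n))) ⁻¹' V)ᶜ).Finite :=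
    (h2.image continuous_fst).finite_of_discrete
  obtain ⟨N, hN⟩ := h3.bddAbove
  refine ⟨N + 1, fun k hk y => ?_⟩
  by_contra hy
  have h4 : k ∈ Prod.fst '' closure
      ((fun x : ℕ × KK n => (x : OnePoint (ℕ × KK n))) ⁻¹' V)ᶜ :=
    ⟨(k, y), subset_closure hy, rfl⟩
  have := hN h4
  omega

lemma tail_small {n : ℕ} (u : C(KK (n + 1), ℝ)) {ε : ℝ} (hε : 0 < ε) :
    ∃ N, ∀ k, N ≤ k → ∀ y : KK n, |u (pt k y) - u (top (n + 1))| < ε := by
  have h1 : {x | |u x - u (top (n + 1))| < ε} ∈ 𝓝 (top (n + 1)) := by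
    have h2 := u.continuous.continuousAt (x := top (n + 1))
    have h3 := h2 (Metric.ball_mem_nhds (u (top (n + 1))) hε)
    exact h3
  exact nhds_top h1

/-- the shift -/
def shift {n : ℕ} (N : ℕ) : KK (n + 1) → KK (n + 1) := lft (top (n + 1)) fun k y => pt (k + N) y

lemma shift_continuous {n : ℕ} (N : ℕ) : Continuous (shift N : KK (n + 1) → KK (n + 1)) := by
  refine lft_continuous (fun k => continuous_pt _) fun U hU => ?_
  obtain ⟨M, hM⟩ := nhds_top hU
  exact ⟨M, fun k hk y => hM _ (by omega) y⟩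

/-- truncation -/
def trunc : (n : ℕ) → ℕ → KK n → KK n
  | 0, _, x => x
  | (n + 1), 0, _ => top (n + 1)
  | (n + 1), (a + 1), x => lft (top (n + 1)) (fun k y => pt k (trunc n a y)) x

lemma trunc_zero (n : ℕ) (x : KK n) : trunc n 0 x = top n := by
  cases n with
  | zero => exact Subsingleton.elim _ _
  | succ n => rfl

lemma trunc_top (n a : ℕ) : trunc n a (top n) = top n := by
  cases n with
  | zero => rfl
  | succ n =>
    cases a with
    | zero => rfl
    | succ a => rfl

lemma trunc_pt (n a k : ℕ) (x : KK n) : trunc (n + 1) (a + 1) (pt k x) = pt k (trunc n a x) := rfl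

lemma trunc_of_le (n : ℕ) : ∀ (a : ℕ), n ≤ a → ∀ x : KK n, trunc n a x = x := by
  induction n with
  | zero => intro a _ x; rfl
  | succ n ih =>
    intro a ha x
    obtain ⟨b, rfl⟩ : ∃ b, a = b + 1 := ⟨a - 1, by omega⟩
    rcases cases_pt x with rfl | ⟨k, y, rfl⟩
    · exact trunc_top _ _
    · rw [trunc_pt, ih b (by omega) y]

/-- the map from `KK m` onto the truncated points of `KK n` -/
lemma exists_j (m : ℕ) : ∀ n : ℕ, ∃ j : C(KK m, KK n), j (top m) = top n ∧
    ∀ x : KK n, ∃ y, j y = trunc n m x := by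
  induction m with
  | zero =>
    intro n
    refine ⟨ContinuousMap.const _ (top n), rfl, fun x => ⟨top 0, ?_⟩⟩
    rw [trunc_zero]; rfl
  | succ m ih =>
    intro n
    cases n with
    | zero => exact ⟨ContinuousMap.const _ (top 0), rfl, fun x => ⟨top _, Subsingleton.elim _ _⟩⟩
    | succ n =>
      obtain ⟨j, hj, hjx⟩ := ih n
      refine ⟨⟨lft (top (n + 1)) fun k y => pt k (j y), lft_continuous
        (fun k => (continuous_pt k).comp j.continuous) fun U hU => ?_⟩, rfl, fun x => ?_⟩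
      · obtain ⟨N, hN⟩ := nhds_top hU
        exact ⟨N, fun k hk y => hN k hk _⟩
      · rcases cases_pt x with rfl | ⟨k, y, rfl⟩
        · exact ⟨top (m + 1), by rw [trunc_top]; rfl⟩
        · obtain ⟨z, hz⟩ := hjx y
          refine ⟨pt k z, ?_⟩
          rw [trunc_pt, ← hz]; rfl

/-- product of two of the spaces -/
theorem exists_surj (m : ℕ) : ∀ l l' : ℕ, l + l' ≤ m →
    ∃ σ : C(KK m, KK l × KK l'), Function.Surjective σ := by
  induction m with
  | zero =>
    intro l l' h
    obtain ⟨rfl, rfl⟩ : l = 0 ∧ l' = 0 := by omega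
    exact ⟨ContinuousMap.const _ (top 0, top 0), fun x => ⟨top 0, Subsingleton.elim _ _⟩⟩
  | succ m ih =>
    intro l l' h
    rcases Nat.eq_zero_or_pos l with rfl | hl
    · obtain ⟨j, -, hj⟩ := exists_j (m + 1) l'
      refine ⟨⟨fun x => (top 0, j x), by fun_prop⟩, fun x => ?_⟩
      obtain ⟨y, hy⟩ := hj x.2
      rw [trunc_of_le _ _ (by omega)] at hy
      exact ⟨y, Prod.ext (Subsingleton.elim _ _) hy⟩
    rcases Nat.eq_zero_or_pos l' with rfl | hl'
    · obtain ⟨j, -, hj⟩ := exists_j (m + 1) l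
      refine ⟨⟨fun x => (j x, top 0), by fun_prop⟩, fun x => ?_⟩
      obtain ⟨y, hy⟩ := hj x.1
      rw [trunc_of_le _ _ (by omega)] at hy
      exact ⟨y, Prod.ext hy (Subsingleton.elim _ _)⟩
    obtain ⟨a, rfl⟩ : ∃ a, l = a + 1 := ⟨l - 1, by omega⟩
    obtain ⟨b, rfl⟩ : ∃ b, l' = b + 1 := ⟨l' - 1, by omega⟩
    obtain ⟨σ1, h1⟩ := ih a (b + 1) (by omega)
    obtain ⟨σ2, h2⟩ := ih (a + 1) b (by omega)
    let f : ℕ → KK m → KK (a + 1) × KK (b + 1) := fun k x =>
      if k % 2 = 0 then (pt (k / 2) (σ1 x).1, shift (k / 2) (σ1 x).2)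
      else (shift (k / 2) (σ2 x).1, pt (k / 2) (σ2 x).2)
    have hf1 : ∀ k, Continuous (f k) := by
      intro k
      show Continuous fun x : KK m => if k % 2 = 0 then (pt (k / 2) (σ1 x).1, shift (k / 2) (σ1 x).2)
        else (shift (k / 2) (σ2 x).1, pt (k / 2) (σ2 x).2)
      split_ifs
      · exact ((continuous_pt _).comp (continuous_fst.comp σ1.continuous)).prodMk
          ((shift_continuous _).comp (continuous_snd.comp σ1.continuous))
      · exact ((shift_continuous _).comp (continuous_fst.comp σ2.continuous)).prodMk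
          ((continuous_pt _).comp (continuous_snd.comp σ2.continuous))
    have hshift : ∀ (n : ℕ) (V : Set (KK (n + 1))), V ∈ 𝓝 (top (n + 1)) → ∃ N, ∀ k, N ≤ k →
        (∀ y, pt k y ∈ V) ∧ ∀ y, shift k y ∈ V := by
      intro n V hV
      obtain ⟨N, hN⟩ := nhds_top hV
      refine ⟨N, fun k hk => ⟨hN k hk, fun y => ?_⟩⟩
      rcases cases_pt y with rfl | ⟨i, y, rfl⟩
      · exact mem_of_mem_nhds hV
      · exact hN (i + k) (by omega) y
    refine ⟨⟨lft (top (a + 1), top (b + 1)) f, lft_continuous hf1 fun U hU => ?_⟩, ?_⟩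
    · rw [nhds_prod_eq, mem_prod_iff] at hU
      obtain ⟨V, hV, W, hW, hVW⟩ := hU
      obtain ⟨N1, hN1⟩ := hshift a V hV
      obtain ⟨N2, hN2⟩ := hshift b W hW
      refine ⟨2 * (N1 + N2), fun k hk y => hVW ?_⟩
      have hk1 : N1 ≤ k / 2 := by omega
      have hk2 : N2 ≤ k / 2 := by omega
      show (if k % 2 = 0 then (pt (k / 2) (σ1 y).1, shift (k / 2) (σ1 y).2)
        else (shift (k / 2) (σ2 y).1, pt (k / 2) (σ2 y).2)) ∈ V ×ˢ W
      split_ifs
      · exact ⟨(hN1 _ hk1).1 _, (hN2 _ hk2).2 _⟩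
      · exact ⟨(hN1 _ hk1).2 _, (hN2 _ hk2).1 _⟩
    · have hone : ∀ (N : ℕ) (y : KK a) (z : KK (b + 1)), ∃ x,
          lft (top (a + 1), top (b + 1)) f x = (pt N y, shift N z) := by
        intro N y z
        obtain ⟨x, hx⟩ := h1 (y, z)
        refine ⟨pt (2 * N) x, ?_⟩
        rw [lft_pt]
        show (if (2 * N) % 2 = 0 then (pt (2 * N / 2) (σ1 x).1, shift (2 * N / 2) (σ1 x).2)
          else (shift (2 * N / 2) (σ2 x).1, pt (2 * N / 2) (σ2 x).2)) = _
        rw [if_pos (by omega), hx, show 2 * N / 2 = N by omega]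
      have htwo : ∀ (N : ℕ) (y : KK (a + 1)) (z : KK b), ∃ x,
          lft (top (a + 1), top (b + 1)) f x = (shift N y, pt N z) := by
        intro N y z
        obtain ⟨x, hx⟩ := h2 (y, z)
        refine ⟨pt (2 * N + 1) x, ?_⟩
        rw [lft_pt]
        show (if (2 * N + 1) % 2 = 0 then
          (pt ((2 * N + 1) / 2) (σ1 x).1, shift ((2 * N + 1) / 2) (σ1 x).2)
          else (shift ((2 * N + 1) / 2) (σ2 x).1, pt ((2 * N + 1) / 2) (σ2 x).2)) = _
        rw [if_neg (by omega), hx, show (2 * N + 1) / 2 = N by omega]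
      rintro ⟨y, z⟩
      show ∃ x, lft (top (a + 1), top (b + 1)) f x = (y, z)
      rcases cases_pt y with rfl | ⟨i, y, rfl⟩
      · rcases cases_pt z with rfl | ⟨k, z, rfl⟩
        · exact ⟨top (m + 1), rfl⟩
        · exact htwo k (top (a + 1)) z
      · rcases cases_pt z with rfl | ⟨k, z, rfl⟩
        · exact hone i y (top (b + 1))
        · rcases le_total i k with hik | hik
          · obtain ⟨x, hx⟩ := hone i y (pt (k - i) z)
            refine ⟨x, hx.trans ?_⟩
            show (pt i y, pt (k - i + i) z) = (pt i y, pt k z)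
            rw [Nat.sub_add_cancel hik]
          · obtain ⟨x, hx⟩ := htwo k (pt (i - k) y) z
            refine ⟨x, hx.trans ?_⟩
            show (pt (i - k + k) y, pt k z) = (pt i y, pt k z)
            rw [Nat.sub_add_cancel hik]

end Pool.Agent.R280.Spr
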