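import Mathlib

/-!
The ring `L^0(F, 𝕂)` of the classes of random variables, partitions and concatenations in
`L^0`-modules.
-/

set_option autoImplicit false
set_option linter.unusedSectionVars false

open Set Topology Filter MeasureTheory
open scoped ENNReal

namespace Pool.Agent.R280.L0

universe u v

variable {𝕂 : Type} [RCLike 𝕂]
variable {Ω : Type u} [MeasurableSpace Ω] {P : Measure Ω}

/-- `L^0(F, 𝕂)`, the set of the a.s. classes of measurable functions, is a commutative ring with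
Mathlib's (pointwise) addition and multiplication. -/
noncomputable instance instCommRing : CommRing (Ω →ₘ[P] 𝕂) :=
  { (inferInstance : AddCommGroup (Ω →ₘ[P] 𝕂)), (inferInstance : CommMonoid (Ω →ₘ[P] 𝕂)) with
    left_distrib := by
      intro a b c
      apply AEEqFun.ext
      filter_upwards [AEEqFun.coeFn_mul a (b + c), AEEqFun.coeFn_add b c,
        AEEqFun.coeFn_add (a * b) (a * c), AEEqFun.coeFn_mul a b, AEEqFun.coeFn_mul a c]
        with ω h1 h2 h3 h4 h5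
      rw [h1, h3, Pi.mul_apply, Pi.add_apply, h2, h4, h5, Pi.mul_apply, Pi.mul_apply,
        Pi.add_apply, mul_add]
    right_distrib := by
      intro a b c
      apply AEEqFun.ext
      filter_upwards [AEEqFun.coeFn_mul (a + b) c, AEEqFun.coeFn_add a b,
        AEEqFun.coeFn_add (a * c) (b * c), AEEqFun.coeFn_mul a c, AEEqFun.coeFn_mul b c]
        with ω h1 h2 h3 h4 h5
      rw [h1, h3, Pi.mul_apply, Pi.add_apply, h2, h4, h5, Pi.mul_apply, Pi.mul_apply,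
        Pi.add_apply, add_mul]
    zero_mul := by
      intro a
      apply AEEqFun.ext
      filter_upwards [AEEqFun.coeFn_mul (0 : Ω →ₘ[P] 𝕂) a,
        AEEqFun.coeFn_zero (α := Ω) (β := 𝕂) (μ := P)] with ω h1 h2
      rw [h1, Pi.mul_apply, h2, Pi.zero_apply, zero_mul]
    mul_zero := by
      intro a
      apply AEEqFun.ext
      filter_upwards [AEEqFun.coeFn_mul a (0 : Ω →ₘ[P] 𝕂),
        AEEqFun.coeFn_zero (α := Ω) (β := 𝕂) (μ := P)] with ω h1 h2
      rw [h1, Pi.mul_apply, h2, Pi.zero_apply, mul_zero] }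

/-- The modulus `|ξ|` of `ξ ∈ L^0(F, 𝕂)`. -/
noncomputable def modulus (ξ : Ω →ₘ[P] 𝕂) : Ω →ₘ[P] ℝ := AEEqFun.comp norm continuous_norm ξ

/-- A countable measurable partition `(a_k)` of `Ω`. -/
structure MPart (Ω : Type u) [MeasurableSpace Ω] where
  /-- the parts -/
  a : ℕ → Set Ω
  meas : ∀ k, MeasurableSet (a k)
  disj : ∀ k l, k ≠ l → a k ∩ a l = ∅
  cover : ∀ ω, ∃ k, ω ∈ a k

variable (𝕂 P) in
/-- The class `I_a ∈ L^0(F, 𝕂)` of the indicator function of `a`. -/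
noncomputable def ind (a : Set Ω) (ha : MeasurableSet a) : Ω →ₘ[P] 𝕂 :=
  AEEqFun.mk (a.indicator fun _ => (1 : 𝕂))
    ((stronglyMeasurable_const.indicator ha).aestronglyMeasurable)

section module

variable {E : Type v} [AddCommGroup E] [Module (Ω →ₘ[P] 𝕂) E]

variable (𝕂 P) in
/-- `y = ∑_k I_{a_k} x_k`, that is, `I_{a_k} y = I_{a_k} x_k` for all `k`. -/
def IsConcat (p : MPart Ω) (x : ℕ → E) (y : E) : Prop :=
  ∀ k, ind 𝕂 P (p.a k) (p.meas k) • y = ind 𝕂 P (p.a k) (p.meas k) • x k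

variable (𝕂) in
/-- `N` is an `L^0`-seminorm on `E`. -/
def IsL0Seminorm (N : E → (Ω →ₘ[P] ℝ)) : Prop :=
  (∀ x, 0 ≤ N x) ∧ (∀ (ξ : Ω →ₘ[P] 𝕂) (x : E), N (ξ • x) = modulus ξ * N x) ∧
    ∀ x y, N (x + y) ≤ N x + N y

end module

/-- The partition of `Ω` into the sets `(κ = l)`. -/
def partOf (κ : Ω → ℕ) (hκ : Measurable κ) : MPart Ω where
  a := fun l => {ω | κ ω = l}
  meas := fun l => hκ (measurableSet_singleton l)
  disj := by
    intro k l hkl
    ext ω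
    simp only [mem_inter_iff, mem_ofPred_eq, mem_empty_iff_false, iff_false, not_and]
    intro h1 h2
    exact hkl (h1.symm.trans h2)
  cover := fun ω => ⟨κ ω, rfl⟩

section lemmas

variable {E : Type v} [AddCommGroup E] [Module (Ω →ₘ[P] 𝕂) E]

lemma ind_ae (a : Set Ω) (ha : MeasurableSet a) :
    ∀ᵐ ω ∂P, ind 𝕂 P a ha ω = a.indicator (fun _ => (1 : 𝕂)) ω := AEEqFun.coeFn_mk _ _

/-- locality of seminorms -/
lemma seminorm_loc {N : E → (Ω →ₘ[P] ℝ)} (hN : IsL0Seminorm 𝕂 N) {a : Set Ω}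
    (ha : MeasurableSet a) {x y : E} (h : ind 𝕂 P a ha • x = ind 𝕂 P a ha • y) :
    ∀ᵐ ω ∂P, ω ∈ a → N x ω = N y ω := by
  have h1 : modulus (ind 𝕂 P a ha) * N x = modulus (ind 𝕂 P a ha) * N y := by
    rw [← hN.2.1, ← hN.2.1, h]
  have h2 : ∀ᵐ ω ∂P, (modulus (ind 𝕂 P a ha) * N x) ω = (modulus (ind 𝕂 P a ha) * N y) ω := by
    rw [h1]
    exact Eventually.of_forall fun _ => rfl
  filter_upwards [h2, AEEqFun.coeFn_mul (modulus (ind 𝕂 P a ha)) (N x),
    AEEqFun.coeFn_mul (modulus (ind 𝕂 P a ha)) (N y),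
    AEEqFun.coeFn_comp norm continuous_norm (ind 𝕂 P a ha), ind_ae (𝕂 := 𝕂) (P := P) a ha]
    with ω h2 h3 h4 h5 h6 hω
  rw [h3, h4, Pi.mul_apply, Pi.mul_apply] at h2
  have h7 : modulus (ind 𝕂 P a ha) ω = 1 := by
    have h8 : modulus (ind 𝕂 P a ha) ω = ‖ind 𝕂 P a ha ω‖ := h5
    rw [h8, h6, Set.indicator_of_mem hω, norm_one]
  rw [h7, one_mul, one_mul] at h2
  exact h2

lemma seminorm_concat {N : E → (Ω →ₘ[P] ℝ)} (hN : IsL0Seminorm 𝕂 N) {p : MPart Ω} {x : ℕ → E}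
    {y : E} (h : IsConcat 𝕂 P p x y) (z : E) (k : ℕ) :
    ∀ᵐ ω ∂P, ω ∈ p.a k → N (y - z) ω = N (x k - z) ω := by
  refine seminorm_loc hN (p.meas k) ?_
  rw [smul_sub, smul_sub, h k]

lemma seminorm_zero {N : E → (Ω →ₘ[P] ℝ)} (hN : IsL0Seminorm 𝕂 N) : N 0 = 0 := by
  have h1 := hN.2.1 (0 : Ω →ₘ[P] 𝕂) 0
  rw [smul_zero] at h1
  apply AEEqFun.ext
  have h2 : ∀ᵐ ω ∂P, N 0 ω = (modulus (0 : Ω →ₘ[P] 𝕂) * N 0) ω := by
    rw [← h1]
    exact Eventually.of_forall fun _ => rfl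
  filter_upwards [h2, AEEqFun.coeFn_mul (modulus (0 : Ω →ₘ[P] 𝕂)) (N 0),
    AEEqFun.coeFn_comp norm continuous_norm (0 : Ω →ₘ[P] 𝕂),
    AEEqFun.coeFn_zero (α := Ω) (β := 𝕂) (μ := P),
    AEEqFun.coeFn_zero (α := Ω) (β := ℝ) (μ := P)] with ω h2 h3 h4 h5 h6
  rw [h2, h3, h6, Pi.mul_apply]
  have h8 : modulus (0 : Ω →ₘ[P] 𝕂) ω = ‖(0 : Ω →ₘ[P] 𝕂) ω‖ := h4
  rw [h8, h5, Pi.zero_apply, norm_zero, zero_mul, Pi.zero_apply]

/-- gluing two elements -/
noncomputable def part2 (A : Set Ω) (hA : MeasurableSet A) : MPart Ω where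
  a := fun k => match k with
    | 0 => A
    | 1 => Aᶜ
    | _ => ∅
  meas := fun k => match k with
    | 0 => hA
    | 1 => hA.compl
    | _ + 2 => MeasurableSet.empty
  disj := by
    intro k l hkl
    match k, l with
    | 0, 0 => exact absurd rfl hkl
    | 0, 1 => exact inter_compl_self A
    | 1, 0 => exact compl_inter_self A
    | 1, 1 => exact absurd rfl hkl
    | 0, _ + 2 => exact inter_empty _
    | 1, _ + 2 => exact inter_empty _
    | _ + 2, _ => exact empty_inter _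
  cover := by
    intro ω
    by_cases h : ω ∈ A
    · exact ⟨0, h⟩
    · exact ⟨1, h⟩

end lemmas

end Pool.Agent.R280.L0
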