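import Pool.Agent.R280.LipCut

/-!
Two-sided cut-off functions and bumps for Lipschitz maps.
-/

set_option autoImplicit false
set_option linter.unusedSectionVars false

open Set Topology Filter

universe u v w

namespace Pool.Agent.R280.Lip

section bump

variable {M : Type u} [MetricSpace M] {X : Type v} [NormedAddCommGroup X] [NormedSpace ℝ X]

/-- two-sided cut-off function around `c`, equal to one on `δ r ≤ d(x,c) ≤ 2r/δ` -/
noncomputable def chi (c : M) (r δ : ℝ) (x : M) : ℝ :=
  cut c (2 * r / δ * Real.exp δ⁻¹) δ x - cut c (δ * r) δ x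

/-- tent function -/
noncomputable def tent (u : M) (r δ : ℝ) (x : M) : ℝ := max 0 ((1 - δ) * r - dist x u)

/-- the perturbation -/
noncomputable def bfun (c u : M) (r δ : ℝ) (v : X) (f : M → X) (x : M) : X :=
  chi c r δ x • (f c - f x) + tent u r δ x • v

/-- the annulus -/
def ann (L : ℝ) (c u : M) : Set M := {x | dist u c / L < dist x c ∧ dist x c < L * dist u c}

variable {c u : M} {r δ : ℝ}

lemma outer_pos (hr : 0 < r) (hδ : 0 < δ) : 0 < 2 * r / δ * Real.exp δ⁻¹ := by
  have := Real.exp_pos δ⁻¹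
  positivity

lemma outer_eq : 2 * r / δ * Real.exp δ⁻¹ * Real.exp (-δ⁻¹) = 2 * r / δ := by
  rw [mul_assoc, ← Real.exp_add, add_neg_cancel, Real.exp_zero, mul_one]

lemma inner_le (hr : 0 < r) (hδ : 0 < δ) (hδ1 : δ ≤ 1) : δ * r ≤ 2 * r / δ := by
  rw [le_div_iff₀ hδ]
  have h1 : δ * r * δ ≤ 1 * r * 1 := by
    apply mul_le_mul _ hδ1 hδ.le (by positivity)
    exact mul_le_mul_of_nonneg_right hδ1 hr.le
  linarith

lemma chi_mem (hr : 0 < r) (hδ : 0 < δ) (hδ1 : δ ≤ 1) (x : M) :
    0 ≤ chi c r δ x ∧ chi c r δ x ≤ 1 := by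
  have h1 := cut_mem (p := c) (mul_pos hδ hr) hδ x
  have h2 := cut_mem (p := c) (outer_pos hr hδ) hδ x
  unfold chi
  rcases le_total (dist x c) (2 * r / δ) with h | h
  · rw [cut_inner (outer_pos hr hδ) hδ (by rw [outer_eq]; exact h)]
    constructor <;> linarith [h1.1, h1.2]
  · rw [cut_outer (mul_pos hδ hr) hδ ((inner_le hr hδ hδ1).trans h), sub_zero]
    exact h2

lemma chi_one (hr : 0 < r) (hδ : 0 < δ) {x : M} (h1 : δ * r ≤ dist x c)
    (h2 : dist x c ≤ 2 * r / δ) : chi c r δ x = 1 := by
  unfold chi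
  rw [cut_inner (outer_pos hr hδ) hδ (by rw [outer_eq]; exact h2),
    cut_outer (mul_pos hδ hr) hδ h1, sub_zero]

lemma chi_ne (hr : 0 < r) (hδ : 0 < δ) (hδ1 : δ ≤ 1) {x : M} (h : chi c r δ x ≠ 0) :
    r / (2 / δ * Real.exp δ⁻¹) < dist x c ∧ dist x c < 2 / δ * Real.exp δ⁻¹ * r := by
  constructor
  · by_contra hcon
    push Not at hcon
    apply h
    have he := Real.exp_pos δ⁻¹
    have h1 : dist x c ≤ δ * r * Real.exp (-δ⁻¹) := by
      refine hcon.trans ?_
      rw [Real.exp_neg, div_le_iff₀ (by positivity)]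
      have : δ * r * (Real.exp δ⁻¹)⁻¹ * (2 / δ * Real.exp δ⁻¹) = 2 * r := by field_simp
      rw [this]; linarith
    have h2 : dist x c ≤ 2 * r / δ := by
      refine h1.trans (le_trans ?_ (inner_le hr hδ hδ1))
      refine mul_le_of_le_one_right (by positivity) ?_
      rw [Real.exp_le_one_iff]
      exact neg_nonpos.2 (inv_nonneg.2 hδ.le)
    unfold chi
    rw [cut_inner (outer_pos hr hδ) hδ (by rw [outer_eq]; exact h2),
      cut_inner (mul_pos hδ hr) hδ h1, sub_self]
  · by_contra hcon
    push Not at hcon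
    apply h
    have he : 1 ≤ Real.exp δ⁻¹ := Real.one_le_exp (inv_nonneg.2 hδ.le)
    have h1 : 2 * r / δ * Real.exp δ⁻¹ ≤ dist x c := by
      refine le_trans (le_of_eq ?_) hcon
      field_simp
    have h2 : δ * r ≤ dist x c := by
      refine (inner_le hr hδ hδ1).trans (le_trans ?_ h1)
      exact le_mul_of_one_le_right (by positivity) he
    unfold chi
    rw [cut_outer (outer_pos hr hδ) hδ h1, cut_outer (mul_pos hδ hr) hδ h2, sub_self]

lemma chi_sub (hr : 0 < r) (hδ : 0 < δ) {x y : M} (hxy : dist y c ≤ dist x c) :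
    |chi c r δ x - chi c r δ y| * dist y c ≤ 2 * δ * dist x y := by
  have h1 := cut_sub (p := c) (outer_pos hr hδ) hδ hxy
  have h2 := cut_sub (p := c) (mul_pos hδ hr) hδ hxy
  have h3 : chi c r δ x - chi c r δ y =
      (cut c (2 * r / δ * Real.exp δ⁻¹) δ x - cut c (2 * r / δ * Real.exp δ⁻¹) δ y) -
        (cut c (δ * r) δ x - cut c (δ * r) δ y) := by
    unfold chi; ring
  have h4 := abs_sub (cut c (2 * r / δ * Real.exp δ⁻¹) δ x - cut c (2 * r / δ * Real.exp δ⁻¹) δ y)
    (cut c (δ * r) δ x - cut c (δ * r) δ y)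
  rw [← h3] at h4
  have h5 := mul_le_mul_of_nonneg_right h4 (dist_nonneg (x := y) (y := c))
  rw [add_mul] at h5
  linarith

lemma tent_nonneg (x : M) : 0 ≤ tent u r δ x := le_max_left _ _

lemma tent_sub (x y : M) : |tent u r δ x - tent u r δ y| ≤ dist x y := by
  unfold tent
  refine (abs_max_sub_max_le_max _ _ _ _).trans ?_
  rw [sub_self, abs_zero]
  refine max_le dist_nonneg ?_
  have h1 : (1 - δ) * r - dist x u - ((1 - δ) * r - dist y u) = dist y u - dist x u := by ring
  rw [h1, dist_comm x y]
  exact abs_dist_sub_le y x u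

lemma tent_ne {x : M} (h : tent u r δ x ≠ 0) : dist x u < (1 - δ) * r := by
  by_contra hcon
  push Not at hcon
  exact h (max_eq_left (by linarith))

lemma tent_le (hr : 0 < r) (hδ : 0 < δ) (x : M) : tent u r δ x ≤ r := by
  refine max_le hr.le ?_
  have h1 := dist_nonneg (x := x) (y := u)
  nlinarith

lemma tent_range (hr : r = dist u c) (hδ : 0 < δ) (hr0 : 0 < r) {x : M}
    (h : tent u r δ x ≠ 0) : δ * r < dist x c ∧ dist x c < 2 * r := by
  have h1 := tent_ne h
  have h2 := dist_triangle_left u c x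
  have h3 := dist_triangle x u c
  rw [← hr] at h2 h3
  constructor
  · nlinarith
  · nlinarith

/-- the estimate for the perturbed map -/
lemma bfun_lip (hr : r = dist u c) (hr0 : 0 < r) (hδ : 0 < δ) (hδ1 : δ ≤ 1 / 3) {v : X}
    (hv : ‖v‖ ≤ 1) {f : M → X} (hf : ∀ x y, ‖f x - f y‖ ≤ dist x y) (x y : M) :
    ‖(f x + bfun c u r δ v f x) - (f y + bfun c u r δ v f y)‖ ≤ (1 + 3 * δ) * dist x y := by
  have key : ∀ x y : M, dist y c ≤ dist x c →
      ‖(f x + bfun c u r δ v f x) - (f y + bfun c u r δ v f y)‖ ≤ (1 + 3 * δ) * dist x y := by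
    intro x y hxy
    have h1 : (f x + bfun c u r δ v f x) - (f y + bfun c u r δ v f y) =
        (1 - chi c r δ x) • (f x - f y) + (chi c r δ x - chi c r δ y) • (f c - f y) +
          (tent u r δ x - tent u r δ y) • v := by
      unfold bfun
      simp only [sub_smul, smul_sub, one_smul]
      abel
    have hc := chi_mem (c := c) hr0 hδ (by linarith) x
    have h2 : ‖(1 - chi c r δ x) • (f x - f y)‖ ≤ (1 - chi c r δ x) * dist x y := by
      rw [norm_smul, Real.norm_of_nonneg (by linarith [hc.2])]
      exact mul_le_mul_of_nonneg_left (hf x y) (by linarith [hc.2])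
    have h3 : ‖(chi c r δ x - chi c r δ y) • (f c - f y)‖ ≤ 2 * δ * dist x y := by
      rw [norm_smul, Real.norm_eq_abs]
      refine le_trans (mul_le_mul_of_nonneg_left (hf c y) (abs_nonneg _)) ?_
      rw [dist_comm c y]
      exact chi_sub hr0 hδ hxy
    have h4 : ‖(tent u r δ x - tent u r δ y) • v‖ ≤ |tent u r δ x - tent u r δ y| := by
      rw [norm_smul, Real.norm_eq_abs]
      exact mul_le_of_le_one_right (abs_nonneg _) hv
    have h5 := norm_add₃_le (a := (1 - chi c r δ x) • (f x - f y))
      (b := (chi c r δ x - chi c r δ y) • (f c - f y)) (c := (tent u r δ x - tent u r δ y) • v)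
    rw [h1]
    have hd := dist_nonneg (x := x) (y := y)
    have hts := tent_sub (u := u) (r := r) (δ := δ) x y
    have hcd : (1 - chi c r δ x) * dist x y ≤ 1 * dist x y :=
      mul_le_mul_of_nonneg_right (by linarith [hc.1]) hd
    have hδd : 0 ≤ δ * dist x y := mul_nonneg hδ.le hd
    by_cases hx : chi c r δ x = 1
    · have e1 : (1 - chi c r δ x) * dist x y = 0 := by rw [hx]; ring
      linarith
    · have htx : tent u r δ x = 0 := by
        by_contra hne
        obtain ⟨h6, h7⟩ := tent_range hr hδ hr0 hne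
        apply hx
        refine chi_one hr0 hδ h6.le (h7.le.trans ?_)
        rw [le_div_iff₀ hδ]
        nlinarith
      by_cases hty : tent u r δ y = 0
      · have e1 : |tent u r δ x - tent u r δ y| = 0 := by rw [htx, hty]; simp
        linarith
      · obtain ⟨h6, h7⟩ := tent_range hr hδ hr0 hty
        have h8 : 2 * r / δ < dist x c := by
          by_contra hcon
          push Not at hcon
          exact hx (chi_one hr0 hδ (h6.le.trans hxy) hcon)
        have h9 : r ≤ δ * dist x y := by
          have h10 := dist_triangle x y c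
          rw [div_lt_iff₀ hδ] at h8
          nlinarith
        have h10 : |tent u r δ x - tent u r δ y| ≤ δ * dist x y := by
          rw [htx, zero_sub, abs_neg, abs_of_nonneg (tent_nonneg y)]
          exact (tent_le hr0 hδ y).trans h9
        linarith
  rcases le_total (dist y c) (dist x c) with h | h
  · exact key x y h
  · have := key y x h
    rwa [norm_sub_rev, dist_comm] at this

lemma bfun_lip' (hr : r = dist u c) (hr0 : 0 < r) (hδ : 0 < δ) (hδ1 : δ ≤ 1 / 3) {v : X}
    (hv : ‖v‖ ≤ 1) {f : M → X} (hf : ∀ x y, ‖f x - f y‖ ≤ dist x y) (x y : M) :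
    ‖bfun c u r δ v f x - bfun c u r δ v f y‖ ≤ 3 * dist x y := by
  have h1 := bfun_lip hr hr0 hδ hδ1 hv hf x y
  have h2 : bfun c u r δ v f x - bfun c u r δ v f y =
      ((f x + bfun c u r δ v f x) - (f y + bfun c u r δ v f y)) - (f x - f y) := by abel
  have h3 := norm_sub_le ((f x + bfun c u r δ v f x) - (f y + bfun c u r δ v f y)) (f x - f y)
  rw [← h2] at h3
  have h4 := hf x y
  have h5 := dist_nonneg (x := x) (y := y)
  nlinarith

lemma bfun_ne (hr : r = dist u c) (hr0 : 0 < r) (hδ : 0 < δ) (hδ1 : δ ≤ 1 / 3) {v : X}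
    {f : M → X} {x : M} (h : bfun c u r δ v f x ≠ 0) :
    x ∈ ann (2 / δ * Real.exp δ⁻¹) c u := by
  have h1 : chi c r δ x ≠ 0 := by
    intro h0
    apply h
    have h2 : tent u r δ x = 0 := by
      by_contra hne
      obtain ⟨h6, h7⟩ := tent_range hr hδ hr0 hne
      have h8 := chi_one (c := c) hr0 hδ h6.le (h7.le.trans (by
        rw [le_div_iff₀ hδ]
        nlinarith))
      rw [h0] at h8
      exact zero_ne_one h8
    unfold bfun
    rw [h0, h2, zero_smul, zero_smul, add_zero]
  have h2 := chi_ne hr0 hδ (by linarith) h1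
  rw [hr] at h2
  exact h2

end bump

section good

variable {M : Type u} [MetricSpace M]

/-- there are arbitrarily many disjoint annuli -/
def Good (M : Type u) [MetricSpace M] : Prop :=
  ∀ (N : ℕ) (L : ℝ), 1 < L → ∃ c u : Fin N → M, (∀ k, u k ≠ c k) ∧
    ∀ j k, j ≠ k → Disjoint (ann L (c j) (u j)) (ann L (c k) (u k))

lemma good_of_center (h : ∀ (N : ℕ) (L : ℝ), 1 < L → ∃ (c : M) (u : Fin N → M), (∀ k, u k ≠ c) ∧
    ∀ j k, j ≠ k → L ^ 2 * dist (u k) c ≤ dist (u j) c ∨ L ^ 2 * dist (u j) c ≤ dist (u k) c) :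
    Good M := by
  intro N L hL
  obtain ⟨c, u, h1, h2⟩ := h N L hL
  refine ⟨fun _ => c, u, h1, fun j k hjk => Set.disjoint_left.2 ?_⟩
  rintro x ⟨hj1, hj2⟩ ⟨hk1, hk2⟩
  have hL0 : 0 < L := by linarith
  rw [div_lt_iff₀ hL0] at hj1 hk1
  rcases h2 j k hjk with h | h
  · have h3 : L * dist x c < L * (L * dist (u k) c) := mul_lt_mul_of_pos_left hk2 hL0
    nlinarith
  · have h3 : L * dist x c < L * (L * dist (u j) c) := mul_lt_mul_of_pos_left hj2 hL0
    nlinarith

lemma good_of_unbounded (o : M) (h : ¬ Bornology.IsBounded (univ : Set M)) : Good M := by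
  refine good_of_center fun N L hL => ?_
  have h1 : ∀ t : ℝ, ∃ x : M, t < dist x o := by
    intro t
    by_contra hcon
    push Not at hcon
    exact h ((Metric.isBounded_iff_subset_closedBall o).2 ⟨t, fun x _ => hcon x⟩)
  choose F hF using h1
  let s : ℕ → M := fun n => Nat.rec (F 0) (fun _ x => F (L ^ 2 * dist x o)) n
  have hs : ∀ n, L ^ 2 * dist (s n) o < dist (s (n + 1)) o := fun n => hF _
  have hL2 : 1 ≤ L ^ 2 := by nlinarith
  have hs0 : ∀ n, 0 < dist (s n) o := by
    intro n
    induction n with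
    | zero => exact hF 0
    | succ n ih => exact lt_of_le_of_lt (by positivity) (hs n)
  have hmono : ∀ n m, n ≤ m → dist (s n) o ≤ dist (s m) o := by
    intro n m hnm
    induction m, hnm using Nat.le_induction with
    | base => exact le_rfl
    | succ m _ ih =>
      refine ih.trans (le_trans ?_ (hs m).le)
      exact le_mul_of_one_le_left dist_nonneg hL2
  have hlt : ∀ j k, j < k → L ^ 2 * dist (s j) o ≤ dist (s k) o := fun j k hjk =>
    (hs j).le.trans (hmono _ _ hjk)
  refine ⟨o, fun k => s k, fun k => dist_pos.1 (hs0 _), fun j k hjk => ?_⟩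
  rcases lt_or_gt_of_ne (fun h => hjk (Fin.ext h)) with h | h
  · exact Or.inr (hlt _ _ h)
  · exact Or.inl (hlt _ _ h)

lemma good_of_accumulation (z : UniformSpace.Completion M)
    (h : ∀ t : ℝ, 0 < t → ∃ x : M, 0 < dist (x : UniformSpace.Completion M) z ∧
      dist (x : UniformSpace.Completion M) z < t) : Good M := by
  refine good_of_center fun N L hL => ?_
  have hL2 : 1 ≤ L ^ 2 := by nlinarith
  have h1 : ∀ x : M, ∃ y : M, 0 < dist (x : UniformSpace.Completion M) z →
      0 < dist (y : UniformSpace.Completion M) z ∧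
      4 * L ^ 2 * dist (y : UniformSpace.Completion M) z <
        dist (x : UniformSpace.Completion M) z := by
    intro x
    by_cases hx : 0 < dist (x : UniformSpace.Completion M) z
    · obtain ⟨y, hy1, hy2⟩ := h (dist (x : UniformSpace.Completion M) z / (4 * L ^ 2))
        (by positivity)
      refine ⟨y, fun _ => ⟨hy1, ?_⟩⟩
      rwa [lt_div_iff₀ (by positivity), mul_comm] at hy2
    · exact ⟨x, fun h => absurd h hx⟩
  choose F hF using h1
  obtain ⟨x0, hx0, -⟩ := h 1 one_pos
  let s : ℕ → M := fun n => Nat.rec x0 (fun _ x => F x) n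
  let ι : M → UniformSpace.Completion M := fun x => x
  let D : ℕ → ℝ := fun n => dist (ι (s n)) z
  have hs0 : ∀ n, 0 < D n := by
    intro n
    induction n with
    | zero => exact hx0
    | succ n ih => exact (hF (s n) ih).1
  have hs : ∀ n, 4 * L ^ 2 * D (n + 1) < D n := fun n => (hF (s n) (hs0 n)).2
  have hmono : ∀ n m, n ≤ m → D m ≤ D n := by
    intro n m hnm
    induction m, hnm using Nat.le_induction with
    | base => exact le_rfl
    | succ m _ ih =>
      refine le_trans ?_ ih
      refine le_trans ?_ (hs m).le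
      exact le_mul_of_one_le_left (hs0 (m + 1)).le (by linarith)
  have hlt : ∀ j k, j < k → 4 * L ^ 2 * D k ≤ D j := by
    intro j k hjk
    refine le_trans (mul_le_mul_of_nonneg_left (hmono _ _ hjk) (by positivity)) (hs j).le
  have hdist : ∀ j < N, 3 / 4 * D j ≤ dist (s j) (s N) ∧ dist (s j) (s N) ≤ 5 / 4 * D j := by
    intro j hj
    have h2 := hlt j N hj
    have h3 : D N ≤ D j / 4 := by nlinarith [hs0 N]
    have h4 := dist_triangle (ι (s j)) (ι (s N)) z
    have h5 := dist_triangle_right (ι (s j)) (ι (s N)) z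
    have h8 : dist (ι (s j)) (ι (s N)) = dist (s j) (s N) := UniformSpace.Completion.dist_eq _ _
    rw [h8] at h4 h5
    have h6 : D j ≤ dist (s j) (s N) + D N := h4
    have h7 : dist (s j) (s N) ≤ D j + D N := h5
    constructor <;> linarith
  refine ⟨s N, fun k => s k, fun k => ?_, fun j k hjk => ?_⟩
  · have h2 := (hdist k k.2).1
    have h3 := hs0 k
    exact dist_pos.1 (by linarith)
  · have hmain : ∀ j k : Fin N, (j : ℕ) < k →
        L ^ 2 * dist (s k) (s N) ≤ dist (s j) (s N) := by
      intro j k hjk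
      have h2 := (hdist j j.2).1
      have h3 := mul_le_mul_of_nonneg_left (hdist k k.2).2 (by positivity : 0 ≤ L ^ 2)
      have h4 := hlt j k hjk
      have h5 := hs0 j
      nlinarith
    rcases lt_or_gt_of_ne (fun h => hjk (Fin.ext h)) with h | h
    · exact Or.inl (hmain _ _ h)
    · exact Or.inr (hmain _ _ h)

lemma good_of_not_discrete (h : ∀ ε : ℝ, 0 < ε → ∃ x y : M, x ≠ y ∧ dist x y < ε) : Good M := by
  have h0 : ∀ n : ℕ, ∃ x y : M, x ≠ y ∧ dist x y < 1 / ((n : ℝ) + 1) := fun n =>
    h _ (by positivity)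
  choose c u hcu hd using h0
  by_cases htb : TotallyBounded (range c)
  · -- accumulation point in the completion
    have h1 : TotallyBounded ((fun x : M => (x : UniformSpace.Completion M)) '' range c) :=
      htb.image (UniformSpace.Completion.uniformContinuous_coe M)
    have h2 : IsCompact (closure ((fun x : M => (x : UniformSpace.Completion M)) '' range c)) :=
      h1.closure.isCompact_of_isClosed isClosed_closure
    obtain ⟨z, -, φ, hφ, hz⟩ := h2.tendsto_subseq (x := fun n => (c n : UniformSpace.Completion M))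
      (fun n => subset_closure ⟨c n, ⟨n, rfl⟩, rfl⟩)
    refine good_of_accumulation z fun t ht => ?_
    rw [Metric.tendsto_atTop] at hz
    obtain ⟨N, hN⟩ := hz (t / 2) (half_pos ht)
    obtain ⟨m, hm⟩ := exists_nat_one_div_lt (half_pos ht)
    have h3 := hN (max N m) (le_max_left _ _)
    set i := φ (max N m) with hi
    have h4 : m ≤ i := (le_max_right N m).trans (hφ.id_le _)
    have h5 : dist (c i) (u i) < t / 2 := by
      refine (hd i).trans (lt_of_le_of_lt ?_ hm)
      apply one_div_le_one_div_of_le (by positivity)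
      have : (m : ℝ) ≤ i := Nat.cast_le.2 h4
      linarith
    have h3' : dist (c i : UniformSpace.Completion M) z < t / 2 := h3
    by_cases hci : (c i : UniformSpace.Completion M) = z
    · refine ⟨u i, ?_, ?_⟩
      · rw [← hci, UniformSpace.Completion.dist_eq]
        exact dist_pos.2 (hcu i).symm
      · rw [← hci, UniformSpace.Completion.dist_eq, dist_comm]
        linarith
    · exact ⟨c i, dist_pos.2 hci, by linarith⟩
  · rw [Metric.totallyBounded_iff] at htb
    push Not at htb
    obtain ⟨ε, hε, htb⟩ := htb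
    have h1 : ∀ (t : Set M), t.Finite → ∀ m : ℕ, ∃ n, m ≤ n ∧ ∀ y ∈ t, ε ≤ dist (c n) y := by
      intro t ht m
      have h2 := htb (t ∪ c '' (Set.Iio m)) (ht.union ((Set.finite_Iio m).image c))
      rw [Set.not_subset] at h2
      obtain ⟨_, ⟨n, rfl⟩, hn⟩ := h2
      simp only [mem_iUnion, not_exists] at hn
      refine ⟨n, ?_, fun y hy => ?_⟩
      · by_contra hlt
        push Not at hlt
        refine hn (c n) (Or.inr ⟨n, hlt, rfl⟩) ?_
        exact Metric.mem_ball_self hε
      · have := hn y (Or.inl hy)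
        rw [Metric.mem_ball] at this
        push Not at this
        exact this
    intro N L hL
    obtain ⟨m, hm⟩ := exists_nat_one_div_lt (show 0 < ε / (2 * L) by positivity)
    have key : ∀ N : ℕ, ∃ idx : Fin N → ℕ, (∀ k, m ≤ idx k) ∧
        ∀ j k, j ≠ k → ε ≤ dist (c (idx j)) (c (idx k)) := by
      intro N
      induction N with
      | zero => exact ⟨fun i => i.elim0, fun i => i.elim0, fun i => i.elim0⟩
      | succ N ih =>
        obtain ⟨idx, hi1, hi2⟩ := ih
        obtain ⟨n, hn1, hn2⟩ := h1 (range fun k => c (idx k)) (Set.finite_range _) m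
        have hn2' : ∀ k, ε ≤ dist (c n) (c (idx k)) := fun k => hn2 _ ⟨k, rfl⟩
        refine ⟨Fin.cons n idx, ?_, ?_⟩
        · intro k
          refine Fin.cases ?_ (fun k => ?_) k
          · exact hn1
          · exact hi1 k
        · intro j k
          refine Fin.cases ?_ (fun j => ?_) j
          · refine Fin.cases ?_ (fun k => ?_) k
            · intro h; exact absurd rfl h
            · intro _
              exact hn2' k
          · refine Fin.cases ?_ (fun k => ?_) k
            · intro _
              show ε ≤ dist (c (idx j)) (c n)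
              rw [dist_comm]
              exact hn2' j
            · intro h
              exact hi2 j k (fun h9 => h (by rw [h9]))
    obtain ⟨idx, hi1, hi2⟩ := key N
    have hsmall : ∀ k, L * dist (u (idx k)) (c (idx k)) < ε / 2 := by
      intro k
      have h3 : dist (u (idx k)) (c (idx k)) < ε / (2 * L) := by
        rw [dist_comm]
        refine (hd _).trans (lt_of_le_of_lt ?_ hm)
        apply one_div_le_one_div_of_le (by positivity)
        have : (m : ℝ) ≤ idx k := Nat.cast_le.2 (hi1 k)
        linarith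
      rw [lt_div_iff₀ (by positivity)] at h3
      linarith
    refine ⟨fun k => c (idx k), fun k => u (idx k), fun k => (hcu _).symm, fun j k hjk =>
      Set.disjoint_left.2 ?_⟩
    rintro x ⟨-, hj2⟩ ⟨-, hk2⟩
    have h3 := hi2 j k hjk
    have h4 := dist_triangle_left (c (idx j)) (c (idx k)) x
    have h5 := hsmall j
    have h6 := hsmall k
    linarith

end good

end Pool.Agent.R280.Lip
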