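import Pool.Agent.R280.LipStep

/-!
Logarithmic cut-off functions, flattening, and spread out almost norming pairs.
-/

set_option autoImplicit false
set_option linter.unusedSectionVars false

open Set Topology Filter

universe u v w

namespace Pool.Agent.R280.Lip

section cut

variable {M : Type u} [MetricSpace M] {X : Type v} [NormedAddCommGroup X] [NormedSpace ℝ X]

/-- the logarithmic cut-off function around `p` -/
noncomputable def cut (p : M) (R δ : ℝ) (x : M) : ℝ :=
  δ * (Real.log R - Real.log (max (R * Real.exp (-δ⁻¹)) (min R (dist x p))))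

variable {p : M} {R δ : ℝ}

lemma inner_lt (hR : 0 < R) (hδ : 0 < δ) : R * Real.exp (-δ⁻¹) < R := by
  have h1 : Real.exp (-δ⁻¹) < 1 := by
    rw [Real.exp_lt_one_iff]
    exact neg_lt_zero.2 (inv_pos.2 hδ)
  nlinarith

lemma inner_pos (hR : 0 < R) : 0 < R * Real.exp (-δ⁻¹) := mul_pos hR (Real.exp_pos _)

lemma log_inner (hR : 0 < R) : Real.log (R * Real.exp (-δ⁻¹)) = Real.log R - δ⁻¹ := by
  rw [Real.log_mul hR.ne' (Real.exp_pos _).ne', Real.log_exp]
  ring

lemma cut_mem (hR : 0 < R) (hδ : 0 < δ) (x : M) : 0 ≤ cut p R δ x ∧ cut p R δ x ≤ 1 := by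
  set m := max (R * Real.exp (-δ⁻¹)) (min R (dist x p)) with hm
  have h1 : R * Real.exp (-δ⁻¹) ≤ m := le_max_left _ _
  have h2 : m ≤ R := max_le (inner_lt hR hδ).le (min_le_left _ _)
  have h3 : 0 < m := (inner_pos hR).trans_le h1
  have h4 : Real.log m ≤ Real.log R := Real.log_le_log h3 h2
  have h5 : Real.log R - δ⁻¹ ≤ Real.log m := by
    rw [← log_inner hR]
    exact Real.log_le_log (inner_pos hR) h1
  unfold cut
  rw [← hm]
  constructor
  · exact mul_nonneg hδ.le (by linarith)
  · have h6 : δ * (Real.log R - Real.log m) ≤ δ * δ⁻¹ := mul_le_mul_of_nonneg_left (by linarith) hδ.le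
    rwa [mul_inv_cancel₀ hδ.ne'] at h6

lemma cut_inner (hR : 0 < R) (hδ : 0 < δ) {x : M} (hx : dist x p ≤ R * Real.exp (-δ⁻¹)) :
    cut p R δ x = 1 := by
  unfold cut
  rw [max_eq_left ((min_le_right _ _).trans hx), log_inner hR]
  have : Real.log R - (Real.log R - δ⁻¹) = δ⁻¹ := by ring
  rw [this, mul_inv_cancel₀ hδ.ne']

lemma cut_outer (hR : 0 < R) (hδ : 0 < δ) {x : M} (hx : R ≤ dist x p) : cut p R δ x = 0 := by
  unfold cut
  rw [min_eq_left hx, max_eq_right (inner_lt hR hδ).le, sub_self, mul_zero]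

lemma log_sub_le {a b : ℝ} (hb : 0 < b) (hab : b ≤ a) : Real.log a - Real.log b ≤ (a - b) / b := by
  have ha : 0 < a := hb.trans_le hab
  rw [← Real.log_div ha.ne' hb.ne']
  have h1 := Real.log_le_sub_one_of_pos (div_pos ha hb)
  have h2 : a / b - 1 = (a - b) / b := by field_simp
  linarith

/-- the key estimate -/
lemma cut_sub (hR : 0 < R) (hδ : 0 < δ) {x y : M} (hxy : dist y p ≤ dist x p) :
    |cut p R δ x - cut p R δ y| * dist y p ≤ δ * dist x y := by
  rcases le_or_gt (dist y p) R with hy | hy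
  · set m := max (R * Real.exp (-δ⁻¹)) (min R (dist x p)) with hm
    set n := max (R * Real.exp (-δ⁻¹)) (min R (dist y p)) with hn
    have hn0 : 0 < n := (inner_pos hR).trans_le (le_max_left _ _)
    have hnm : n ≤ m := max_le_max_left _ (min_le_min_left _ hxy)
    have hyn : dist y p ≤ n := by
      rw [hn, min_eq_right hy]
      exact le_max_right _ _
    have hmn : m - n ≤ dist x y := by
      have h1 : |m - n| ≤ |dist x p - dist y p| := by
        rw [hm, hn]
        refine (abs_max_sub_max_le_max _ _ _ _).trans ?_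
        rw [sub_self, abs_zero]
        refine max_le (abs_nonneg _) ?_
        refine (abs_min_sub_min_le_max _ _ _ _).trans ?_
        rw [sub_self, abs_zero]
        exact max_le (abs_nonneg _) le_rfl
      exact (le_abs_self _).trans (h1.trans (abs_dist_sub_le x y p))
    have h1 : cut p R δ x - cut p R δ y = -(δ * (Real.log m - Real.log n)) := by
      unfold cut
      rw [← hm, ← hn]
      ring
    have h2 : 0 ≤ Real.log m - Real.log n := sub_nonneg.2 (Real.log_le_log hn0 hnm)
    rw [h1, abs_neg, abs_of_nonneg (mul_nonneg hδ.le h2)]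
    have h3 := log_sub_le hn0 hnm
    rw [le_div_iff₀ hn0] at h3
    have h4 : (Real.log m - Real.log n) * dist y p ≤ (Real.log m - Real.log n) * n :=
      mul_le_mul_of_nonneg_left hyn h2
    calc δ * (Real.log m - Real.log n) * dist y p = δ * ((Real.log m - Real.log n) * dist y p) := by
          ring
      _ ≤ δ * dist x y := mul_le_mul_of_nonneg_left (by linarith) hδ.le
  · rw [cut_outer hR hδ hy.le, cut_outer hR hδ (hy.le.trans hxy), sub_self, abs_zero, zero_mul]
    positivity

/-- the modification of `F` by `G` near `p` -/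
noncomputable def glue (p : M) (R δ : ℝ) (F G : M → X) (x : M) : X :=
  (1 - cut p R δ x) • F x + cut p R δ x • G x

/-- estimate for the modification -/
lemma glue_sub (hR : 0 < R) (hδ : 0 < δ) {F G : M → X} {K : ℝ} (hK : 0 ≤ K)
    (hFG : ∀ x, ‖G x - F x‖ ≤ K * dist x p) (x y : M) :
    ∃ θ : ℝ, (θ = cut p R δ x ∨ θ = cut p R δ y) ∧
      ‖glue p R δ F G x - glue p R δ F G y‖ ≤
        (1 - θ) * ‖F x - F y‖ + θ * ‖G x - G y‖ + K * δ * dist x y := by
  have key : ∀ x y : M, dist y p ≤ dist x p → ‖glue p R δ F G x - glue p R δ F G y‖ ≤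
      (1 - cut p R δ x) * ‖F x - F y‖ + cut p R δ x * ‖G x - G y‖ + K * δ * dist x y := by
    intro x y hxy
    have h1 : glue p R δ F G x - glue p R δ F G y = (1 - cut p R δ x) • (F x - F y) +
        cut p R δ x • (G x - G y) + (cut p R δ x - cut p R δ y) • (G y - F y) := by
      unfold glue
      simp only [sub_smul, smul_sub, one_smul]
      abel
    rw [h1]
    obtain ⟨hc0, hc1⟩ := cut_mem (p := p) hR hδ x
    refine (norm_add₃_le).trans ?_
    rw [norm_smul, norm_smul, norm_smul, Real.norm_of_nonneg (by linarith : 0 ≤ 1 - cut p R δ x),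
      Real.norm_of_nonneg hc0, Real.norm_eq_abs]
    have h2 : |cut p R δ x - cut p R δ y| * ‖G y - F y‖ ≤ K * δ * dist x y := by
      have h3 := mul_le_mul_of_nonneg_left (hFG y) (abs_nonneg (cut p R δ x - cut p R δ y))
      have h4 := mul_le_mul_of_nonneg_left (cut_sub (p := p) hR hδ hxy) hK
      nlinarith
    linarith
  rcases le_total (dist y p) (dist x p) with h | h
  · exact ⟨_, Or.inl rfl, key x y h⟩
  · refine ⟨_, Or.inr rfl, ?_⟩
    have := key y x h
    rwa [norm_sub_rev, norm_sub_rev (F x), norm_sub_rev (G x), dist_comm x y]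

/-- Flattening at finitely many points. -/
theorem exists_flat {g : M → X} (hg : ∀ x y, ‖g x - g y‖ ≤ dist x y) {c R : ℝ} (hc0 : 0 < c)
    (hc1 : c ≤ 1) (hR : 0 < R) {n : ℕ} (hn : 0 < n) (l : List M) (hl : l.length ≤ n) :
    ∃ g' : M → X, (∀ x y, ‖g' x - g' y‖ ≤ ‖g x - g y‖ + l.length * (c / n) * dist x y) ∧
      (∀ x, ‖g' x - g x‖ ≤ l.length * (2 * R)) ∧
      ∀ p ∈ l, ∀ x y, dist x p ≤ R * Real.exp (-(c / (2 * n))⁻¹) →
        dist y p ≤ R * Real.exp (-(c / (2 * n))⁻¹) →
        ‖g' x - g' y‖ ≤ l.length * (c / n) * dist x y := by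
  have hn' : (0 : ℝ) < n := Nat.cast_pos.2 hn
  set δ : ℝ := c / (2 * n) with hδdef
  have hδ : 0 < δ := by positivity
  have h2δ : 2 * δ = c / n := by rw [hδdef]; field_simp
  induction l with
  | nil => exact ⟨g, fun x y => by simp, fun x => by simp, fun p hp => by simp at hp⟩
  | cons p l ih =>
    simp only [List.length_cons] at hl ⊢
    obtain ⟨g1, h1, h2, h3⟩ := ih (by omega)
    have hlc : (l.length : ℝ) * (c / n) ≤ 1 := by
      have h4 : (l.length : ℝ) ≤ n := Nat.cast_le.2 (by omega)
      have h5 : (l.length : ℝ) * (c / n) ≤ n * (c / n) := mul_le_mul_of_nonneg_right h4 (by positivity)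
      have h6 : (n : ℝ) * (c / n) = c := by field_simp
      linarith
    have hg1 : ∀ x y, ‖g1 x - g1 y‖ ≤ 2 * dist x y := by
      intro x y
      have h4 := h1 x y
      have h5 := hg x y
      have h6 := mul_le_mul_of_nonneg_right hlc (dist_nonneg (x := x) (y := y))
      linarith
    let G : M → X := fun _ => g1 p
    have hest : ∀ x y, ∃ θ : ℝ, (θ = cut p R δ x ∨ θ = cut p R δ y) ∧
        ‖glue p R δ g1 G x - glue p R δ g1 G y‖ ≤ (1 - θ) * ‖g1 x - g1 y‖ + (c / n) * dist x y := by
      intro x y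
      obtain ⟨θ, hθ, hle⟩ := glue_sub (F := g1) (G := G) (p := p) hR hδ zero_le_two
        (fun x => by
          show ‖g1 p - g1 x‖ ≤ _
          rw [norm_sub_rev]
          exact hg1 x p) x y
      refine ⟨θ, hθ, ?_⟩
      have h4 : ‖G x - G y‖ = 0 := by
        show ‖g1 p - g1 p‖ = 0
        rw [sub_self, norm_zero]
      rw [h4, mul_zero, add_zero, h2δ] at hle
      exact hle
    have hest' : ∀ x y, ‖glue p R δ g1 G x - glue p R δ g1 G y‖ ≤
        ‖g1 x - g1 y‖ + (c / n) * dist x y := by
      intro x y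
      obtain ⟨θ, hθ, hle⟩ := hest x y
      have hθ0 : 0 ≤ θ := by
        rcases hθ with h | h <;> rw [h] <;> exact (cut_mem hR hδ _).1
      have h4 := mul_nonneg hθ0 (norm_nonneg (g1 x - g1 y))
      linarith
    refine ⟨glue p R δ g1 G, fun x y => ?_, fun x => ?_, ?_⟩
    · have h4 := hest' x y
      have h5 := h1 x y
      push_cast
      linarith
    · have h4 : glue p R δ g1 G x - g x = cut p R δ x • (g1 p - g1 x) + (g1 x - g x) := by
        show (1 - cut p R δ x) • g1 x + cut p R δ x • g1 p - g x = _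
        simp only [sub_smul, smul_sub, one_smul]
        abel
      have h5 : ‖cut p R δ x • (g1 p - g1 x)‖ ≤ 2 * R := by
        rw [norm_smul, Real.norm_of_nonneg (cut_mem hR hδ x).1]
        rcases le_or_gt R (dist x p) with h | h
        · rw [cut_outer hR hδ h, zero_mul]
          positivity
        · refine (mul_le_of_le_one_left (norm_nonneg _) (cut_mem hR hδ x).2).trans ?_
          have h6 := hg1 p x
          rw [dist_comm] at h6
          linarith
      rw [h4]
      refine (norm_add_le _ _).trans ?_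
      have h6 := h2 x
      push_cast
      linarith
    · intro q hq x y hx hy
      have hnn : 0 ≤ c / (n : ℝ) * dist x y := mul_nonneg (by positivity) dist_nonneg
      rcases List.mem_cons.1 hq with rfl | hq
      · have h4 : ‖glue q R δ g1 G x - glue q R δ g1 G y‖ ≤ 0 := by
          have e1 := cut_inner (p := q) hR hδ hx
          have e2 := cut_inner (p := q) hR hδ hy
          have : glue q R δ g1 G x - glue q R δ g1 G y = 0 := by
            show ((1 - cut q R δ x) • g1 x + cut q R δ x • g1 q) -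
              ((1 - cut q R δ y) • g1 y + cut q R δ y • g1 q) = 0
            rw [e1, e2]
            simp
          rw [this, norm_zero]
        refine h4.trans ?_
        have : (0 : ℝ) ≤ ((l.length + 1 : ℕ) : ℝ) := Nat.cast_nonneg _
        rw [mul_assoc]
        exact mul_nonneg this hnn
      · have h4 := hest' x y
        have h5 := h3 q hq x y hx hy
        push_cast
        linarith

/-- Spread out almost norming pairs. -/
theorem exists_pairs {o : M} (hD : Daugavet (LipZ M o ℝ)) {g : M → X}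
    (hg : ∀ x y, ‖g x - g y‖ ≤ dist x y) {ε : ℝ} (hε : 0 < ε) (hε1 : ε ≤ 1 / 100)
    {x0 y0 : M} (hne : x0 ≠ y0) (hxy : (1 - ε) * dist x0 y0 ≤ ‖g x0 - g y0‖) (n : ℕ) :
    ∃ ρ : ℝ, 0 < ρ ∧ ∀ η : ℝ, 0 < η → ∃ (u v : Fin n → M), (∀ k, u k ≠ v k) ∧
      (∀ k, dist (u k) (v k) < η) ∧
      (∀ k, (1 - 5 * ε) * dist (u k) (v k) ≤ ‖g (u k) - g (v k)‖) ∧
      ∀ j k, j ≠ k → 2 * ρ ≤ dist (u j) (u k) := by
  set d0 := dist x0 y0 with hd0def
  have hd0 : 0 < d0 := dist_pos.2 hne
  set N : ℕ := n + 1 with hN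
  have hN0 : 0 < N := by omega
  have hN0' : (0 : ℝ) < N := Nat.cast_pos.2 hN0
  set R : ℝ := ε * d0 / (4 * N) with hR
  have hR0 : 0 < R := by positivity
  have hRN : 4 * (N * R) = ε * d0 := by rw [hR]; field_simp
  set r : ℝ := R * Real.exp (-(ε / (2 * N))⁻¹) with hr
  have hr0 : 0 < r := inner_pos hR0
  refine ⟨r / 4, by positivity, fun η hη => ?_⟩
  -- selection of a new pair
  have hnew : ∀ l : List M, l.length ≤ N → ∃ u v : M, u ≠ v ∧ dist u v < η ∧
      (1 - 5 * ε) * dist u v ≤ ‖g u - g v‖ ∧ ∀ p ∈ l, r / 2 ≤ dist u p := by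
    intro l hl
    obtain ⟨g', h1, h2, h3⟩ := exists_flat hg hε (by linarith) hR0 hN0 l hl
    have hlε : (l.length : ℝ) * (ε / N) ≤ ε := by
      have h4 : (l.length : ℝ) ≤ N := Nat.cast_le.2 hl
      have h5 : (l.length : ℝ) * (ε / N) ≤ N * (ε / N) := mul_le_mul_of_nonneg_right h4 (by positivity)
      have h6 : (N : ℝ) * (ε / N) = ε := by field_simp
      linarith
    have hg' : ∀ x y, ‖g' x - g' y‖ ≤ (1 + ε) * dist x y := by
      intro x y
      have h4 := h1 x y
      have h5 := hg x y
      have h6 := mul_le_mul_of_nonneg_right hlε (dist_nonneg (x := x) (y := y))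
      linarith
    let gh : M → X := fun x => (1 + ε)⁻¹ • g' x
    have hε1' : 0 < 1 + ε := by linarith
    have hghs : ∀ x y, ‖gh x - gh y‖ = (1 + ε)⁻¹ * ‖g' x - g' y‖ := by
      intro x y
      show ‖(1 + ε)⁻¹ • g' x - (1 + ε)⁻¹ • g' y‖ = _
      rw [← smul_sub, norm_smul, norm_inv, Real.norm_of_nonneg hε1'.le]
    have hgh : ∀ x y, ‖gh x - gh y‖ ≤ dist x y := by
      intro x y
      rw [hghs, inv_mul_le_iff₀ hε1']
      exact hg' x y
    have hsl : (1 - 3 * ε) * d0 ≤ ‖gh x0 - gh y0‖ := by
      rw [hghs, ← div_eq_inv_mul, le_div_iff₀ hε1']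
      have h4 : ‖g x0 - g y0‖ ≤ ‖g' x0 - g' y0‖ + ‖g' x0 - g x0‖ + ‖g' y0 - g y0‖ := by
        have h5 : g x0 - g y0 = (g' x0 - g' y0) - (g' x0 - g x0) + (g' y0 - g y0) := by abel
        rw [h5]
        exact (norm_add_le _ _).trans (add_le_add (norm_sub_le _ _) le_rfl)
      have h5 := h2 x0
      have h6 := h2 y0
      have h7 : (l.length : ℝ) * (2 * R) ≤ N * (2 * R) :=
        mul_le_mul_of_nonneg_right (Nat.cast_le.2 hl) (by positivity)
      have h8 : 0 ≤ ε * ε * d0 := by positivity
      nlinarith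
    obtain ⟨u, v, huv, hlt, hsl2⟩ := exists_near hD hgh (β := 3 * ε) (ε := ε) (η := min η (r / 2))
      (by positivity) hε (lt_min hη (by positivity)) (by linarith) hne hsl
    have hduv : 0 < dist u v := dist_pos.2 huv
    have hsl3 : (1 - 4 * ε) * dist u v ≤ ‖g' u - g' v‖ := by
      rw [hghs, ← div_eq_inv_mul, le_div_iff₀ hε1'] at hsl2
      have h4 : (1 - 4 * ε) * dist u v ≤ (1 - 3 * ε - ε) * dist u v * (1 + ε) := by
        have : 0 ≤ (1 - 4 * ε) * dist u v * ε := by
          have : 0 ≤ 1 - 4 * ε := by linarith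
          positivity
        nlinarith
      linarith
    refine ⟨u, v, huv, hlt.trans_le (min_le_left _ _), ?_, ?_⟩
    · have h4 := h1 u v
      have h5 := mul_le_mul_of_nonneg_right hlε hduv.le
      linarith
    · intro p hp
      by_contra hcon
      push Not at hcon
      have hlt2 : dist u v < r / 2 := hlt.trans_le (min_le_right _ _)
      have h4 := h3 p hp u v (by linarith) (by
        have h5 := dist_triangle_left v p u
        linarith)
      have h5 := mul_le_mul_of_nonneg_right hlε hduv.le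
      have h6 : (1 - 4 * ε) * dist u v ≤ ε * dist u v := by linarith
      have h7 : 1 - 4 * ε ≤ ε := le_of_mul_le_mul_right h6 hduv
      linarith
  -- induction
  have key : ∀ m : ℕ, m ≤ n → ∃ (u v : Fin m → M), (∀ k, u k ≠ v k) ∧
      (∀ k, dist (u k) (v k) < η) ∧
      (∀ k, (1 - 5 * ε) * dist (u k) (v k) ≤ ‖g (u k) - g (v k)‖) ∧
      ∀ j k, j ≠ k → r / 2 ≤ dist (u j) (u k) := by
    intro m
    induction m with
    | zero =>
      intro _
      exact ⟨fun i => i.elim0, fun i => i.elim0, fun i => i.elim0, fun i => i.elim0,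
        fun i => i.elim0, fun i => i.elim0⟩
    | succ m ih =>
      intro hm
      obtain ⟨u, v, h1, h2, h3, h4⟩ := ih (by omega)
      obtain ⟨u', v', h5, h6, h7, h8⟩ := hnew (List.ofFn u) (by
        rw [List.length_ofFn]; omega)
      have h8' : ∀ k, r / 2 ≤ dist u' (u k) := fun k => h8 _ (List.mem_ofFn.2 ⟨k, rfl⟩)
      refine ⟨Fin.cons u' u, Fin.cons v' v, ?_, ?_, ?_, ?_⟩
      · intro k
        refine Fin.cases ?_ (fun k => ?_) k
        · exact h5
        · exact h1 k
      · intro k
        refine Fin.cases ?_ (fun k => ?_) k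
        · exact h6
        · exact h2 k
      · intro k
        refine Fin.cases ?_ (fun k => ?_) k
        · exact h7
        · exact h3 k
      · intro j k
        refine Fin.cases ?_ (fun j => ?_) j
        · refine Fin.cases ?_ (fun k => ?_) k
          · intro h; exact absurd rfl h
          · intro _
            exact h8' k
        · refine Fin.cases ?_ (fun k => ?_) k
          · intro _
            show r / 2 ≤ dist (u j) u'
            rw [dist_comm]
            exact h8' j
          · intro h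
            exact h4 j k (fun h9 => h (by rw [h9]))
  obtain ⟨u, v, h1, h2, h3, h4⟩ := key n le_rfl
  refine ⟨u, v, h1, h2, h3, fun j k hjk => ?_⟩
  have := h4 j k hjk
  linarith

end cut

end Pool.Agent.R280.Lip
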