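import Pool.Agent.R280.LipMain
import Pool.Agent.R280.PosTensor

/-!
The Lipschitz-free space, projective tensor products and the Daugavet property.
-/

set_option autoImplicit false
set_option linter.unusedSectionVars false

open Set Topology Filter TensorProduct

universe u v w

namespace Pool.Agent.R280.Lip

section dual

variable {Y : Type w} [NormedAddCommGroup Y] [NormedSpace ℝ Y]

/-- the Daugavet property passes from the dual to the space -/
theorem daugavet_of_dual (h : Daugavet (StrongDual ℝ Y)) : Daugavet Y := by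
  intro φ g hφ hg
  refine le_antisymm ?_ ?_
  · exact (norm_add_le _ _).trans (add_le_add ContinuousLinearMap.norm_id_le le_rfl)
  · let gh : StrongDual ℝ Y →L[ℝ] ℝ := NormedSpace.inclusionInDoubleDual ℝ Y g
    have hgn : ‖gh‖ = ‖g‖ := by
      have := (NormedSpace.inclusionInDoubleDualLi ℝ (E := Y)).norm_map g
      exact this
    have hgh : gh ≠ 0 := fun h0 => by
      have h1 : ‖gh‖ = 0 := by
        rw [h0]
        exact ContinuousLinearMap.opNorm_zero
      exact hg (norm_eq_zero.1 (hgn.symm.trans h1))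
    have h1 := h gh φ hgh hφ
    rw [ContinuousLinearMap.norm_smulRight_apply, hgn] at h1
    rw [ContinuousLinearMap.norm_smulRight_apply, mul_comm, ← h1]
    refine ContinuousLinearMap.opNorm_le_bound _ (norm_nonneg _) fun ψ => ?_
    have h2 : (ContinuousLinearMap.id ℝ (StrongDual ℝ Y) + gh.smulRight φ) ψ =
        ψ.comp (ContinuousLinearMap.id ℝ Y + φ.smulRight g) := by
      ext y
      show ψ y + ψ g * φ y = ψ (y + φ y • g)
      rw [map_add, map_smul, smul_eq_mul, mul_comm]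
    rw [h2]
    refine (ContinuousLinearMap.opNorm_comp_le _ _).trans ?_
    rw [mul_comm]

/-- the Daugavet property is invariant under isometric isomorphisms -/
theorem Daugavet.transfer {Z : Type v} [NormedAddCommGroup Z] [NormedSpace ℝ Z]
    (h : Daugavet Z) (e : Y ≃ₗᵢ[ℝ] Z) : Daugavet Y := by
  intro φ g hφ hg
  refine le_antisymm ?_ ?_
  · exact (norm_add_le _ _).trans (add_le_add ContinuousLinearMap.norm_id_le le_rfl)
  · let φ' : Z →L[ℝ] ℝ := φ.comp (e.symm.toContinuousLinearEquiv : Z →L[ℝ] Y)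
    have hφ'a : ∀ z, φ' z = φ (e.symm z) := fun z => rfl
    have hφ'n : ‖φ‖ ≤ ‖φ'‖ := by
      refine ContinuousLinearMap.opNorm_le_bound _ (norm_nonneg _) fun y => ?_
      have h1 := φ'.le_opNorm (e y)
      rwa [hφ'a, e.symm_apply_apply, e.norm_map] at h1
    have hφ' : φ' ≠ 0 := fun h0 => by
      rw [h0, norm_zero] at hφ'n
      exact hφ (norm_le_zero_iff.1 hφ'n)
    have hg' : e g ≠ 0 := fun h0 => hg (by
      have := e.symm_apply_apply g
      rw [h0, map_zero] at this
      exact this.symm)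
    have h1 := h φ' (e g) hφ' hg'
    rw [ContinuousLinearMap.norm_smulRight_apply, e.norm_map] at h1
    rw [ContinuousLinearMap.norm_smulRight_apply]
    have h2 : ‖ContinuousLinearMap.id ℝ Z + φ'.smulRight (e g)‖ ≤
        ‖ContinuousLinearMap.id ℝ Y + φ.smulRight g‖ := by
      refine ContinuousLinearMap.opNorm_le_bound _ (norm_nonneg _) fun z => ?_
      have h3 : (ContinuousLinearMap.id ℝ Z + φ'.smulRight (e g)) z =
          e ((ContinuousLinearMap.id ℝ Y + φ.smulRight g) (e.symm z)) := by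
        show z + φ (e.symm z) • e g = e (e.symm z + φ (e.symm z) • g)
        rw [map_add, map_smul, e.apply_symm_apply]
      rw [h3, e.norm_map]
      have h4 := (ContinuousLinearMap.id ℝ Y + φ.smulRight g).le_opNorm (e.symm z)
      rwa [e.symm.norm_map] at h4
    rw [h1] at h2
    have h3 := mul_le_mul_of_nonneg_right hφ'n (norm_nonneg g)
    linarith

end dual

section free

variable {M : Type u} [MetricSpace M] {o : M}

/-- the evaluation functional `δ_x` on `Lip_0(M)` -/
noncomputable def dlt (o x : M) : StrongDual ℝ (LipZ M o ℝ) :=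
  LinearMap.mkContinuous
    { toFun := fun f => f.fn x
      map_add' := fun _ _ => rfl
      map_smul' := fun _ _ => rfl } (dist x o) (fun f => by
        have h1 := f.sub_le x o
        rw [LipZ.fn_base, sub_zero] at h1
        rw [mul_comm]
        exact h1)

lemma dlt_apply (x : M) (f : LipZ M o ℝ) : dlt o x f = f.fn x := rfl

variable (M o) in
/-- the Lipschitz-free space `F(M)`: the closed linear span of the evaluation functionals in the
dual of `Lip_0(M)` -/
noncomputable def freeSub : Submodule ℝ (StrongDual ℝ (LipZ M o ℝ)) :=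
  (Submodule.span ℝ (Set.range (dlt o))).topologicalClosure

variable (M o) in
/-- the Lipschitz-free space `F(M)` -/
def FreeZ : Type u := ↥(freeSub M o)

noncomputable instance : NormedAddCommGroup (FreeZ M o) :=
  Submodule.normedAddCommGroup (freeSub M o)

noncomputable instance : NormedSpace ℝ (FreeZ M o) := Submodule.normedSpace (freeSub M o)

/-- constructor -/
def mkF (μ : StrongDual ℝ (LipZ M o ℝ)) (hμ : μ ∈ freeSub M o) : FreeZ M o := ⟨μ, hμ⟩

/-- the evaluation functionals, as elements of the free space -/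
noncomputable def dltF (o x : M) : FreeZ M o :=
  ⟨dlt o x, Submodule.le_topologicalClosure _ (Submodule.subset_span ⟨x, rfl⟩)⟩

lemma norm_dltF_sub_le (x y : M) : ‖dltF o x - dltF o y‖ ≤ dist x y := by
  show ‖dlt o x - dlt o y‖ ≤ dist x y
  refine ContinuousLinearMap.opNorm_le_bound _ dist_nonneg fun f => ?_
  rw [mul_comm]
  exact f.sub_le x y

lemma dltF_base : dltF o o = 0 := by
  refine Subtype.ext ?_
  ext f
  show f.fn o = 0
  exact f.fn_base

/-- functionals on the free space are determined by their values at the evaluations -/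
lemma free_ext {Z : Type w} [NormedAddCommGroup Z] [NormedSpace ℝ Z] {S T : FreeZ M o →L[ℝ] Z}
    (h : ∀ x, S (dltF o x) = T (dltF o x)) : S = T := by
  have hcl : IsClosed {ν : FreeZ M o | S ν = T ν} := isClosed_eq S.continuous T.continuous
  have hspan : ∀ ν ∈ Submodule.span ℝ (Set.range (dlt o)), ∀ hν : ν ∈ freeSub M o,
      S (mkF ν hν) = T (mkF ν hν) := by
    intro ν hν
    induction hν using Submodule.span_induction with
    | mem x hx =>
      obtain ⟨m, rfl⟩ := hx
      intro _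
      exact h m
    | zero =>
      intro hν
      have h0 : (mkF 0 hν : FreeZ M o) = 0 := rfl
      rw [h0, map_zero, map_zero]
    | add x y hx hy h1 h2 =>
      intro hν
      have hx' : x ∈ freeSub M o := Submodule.le_topologicalClosure _ hx
      have hy' : y ∈ freeSub M o := Submodule.le_topologicalClosure _ hy
      have h0 : (mkF (x + y) hν : FreeZ M o) = mkF x hx' + mkF y hy' := rfl
      rw [h0, map_add, map_add, h1 hx', h2 hy']
    | smul c x hx h1 =>
      intro hν
      have hx' : x ∈ freeSub M o := Submodule.le_topologicalClosure _ hx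
      have h0 : (mkF (c • x) hν : FreeZ M o) = c • mkF x hx' := rfl
      rw [h0, map_smul, map_smul, h1 hx']
  have key : ∀ (μ : StrongDual ℝ (LipZ M o ℝ)) (hμ : μ ∈ freeSub M o),
      mkF μ hμ ∈ closure {ν : FreeZ M o | S ν = T ν} := by
    intro μ hμ
    rw [Metric.mem_closure_iff]
    intro ε hε
    have h1 : μ ∈ closure (Submodule.span ℝ (Set.range (dlt o)) : Set (StrongDual ℝ (LipZ M o ℝ))) :=
      hμ
    obtain ⟨ν, hν, hlt⟩ := Metric.mem_closure_iff.1 h1 ε hε
    have hν' : ν ∈ freeSub M o := Submodule.le_topologicalClosure _ hν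
    exact ⟨mkF ν hν', hspan ν hν hν', hlt⟩
  ext μ
  have hmem := key μ.1 μ.2
  rw [hcl.closure_eq] at hmem
  exact hmem

end free

section tensor

/-- `(Y, τ)` is the projective tensor product of `E` and `X`: `Y` is complete, the elementary
tensors `τ e x` span a dense subspace, and the norm on the span is the projective norm
`‖Σ e_i ⊗ x_i‖ = inf {Σ ‖a_j‖ ‖b_j‖ : Σ a_j ⊗ b_j = Σ e_i ⊗ x_i}`. -/
structure IsProjTensor {E : Type u} {X : Type v} {Y : Type w} [NormedAddCommGroup E]
    [NormedSpace ℝ E] [NormedAddCommGroup X] [NormedSpace ℝ X] [NormedAddCommGroup Y]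
    [NormedSpace ℝ Y] (τ : E →ₗ[ℝ] X →ₗ[ℝ] Y) : Prop where
  complete : CompleteSpace Y
  dense : DenseRange (TensorProduct.lift τ)
  norm_eq : ∀ t : E ⊗[ℝ] X, IsGLB {r : ℝ | ∃ (n : ℕ) (a : Fin n → E) (b : Fin n → X),
    t = ∑ i, a i ⊗ₜ[ℝ] b i ∧ r = ∑ i, ‖a i‖ * ‖b i‖} ‖TensorProduct.lift τ t‖

variable {E : Type u} {X : Type v} {Y : Type w} [NormedAddCommGroup E]
    [NormedSpace ℝ E] [NormedAddCommGroup X] [NormedSpace ℝ X] [NormedAddCommGroup Y]
    [NormedSpace ℝ Y] {τ : E →ₗ[ℝ] X →ₗ[ℝ] Y}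

lemma IsProjTensor.norm_le (h : IsProjTensor τ) (e : E) (x : X) : ‖τ e x‖ ≤ ‖e‖ * ‖x‖ := by
  have h1 := (h.norm_eq (e ⊗ₜ[ℝ] x)).1 (show ‖e‖ * ‖x‖ ∈ _ from
    ⟨1, fun _ => e, fun _ => x, by simp, by simp⟩)
  rwa [TensorProduct.lift.tmul] at h1

/-- bounded bilinear forms give functionals -/
lemma IsProjTensor.exists_functional (h : IsProjTensor τ) (B : E →ₗ[ℝ] X →ₗ[ℝ] ℝ) {C : ℝ}
    (hC : 0 ≤ C) (hB : ∀ e x, |B e x| ≤ C * (‖e‖ * ‖x‖)) :
    ∃ ψ : Y →L[ℝ] ℝ, (∀ e x, ψ (τ e x) = B e x) ∧ ‖ψ‖ ≤ C := by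
  have key : ∀ t : E ⊗[ℝ] X, |TensorProduct.lift B t| ≤ C * ‖TensorProduct.lift τ t‖ := by
    intro t
    have h1 : ∀ r, (∃ (n : ℕ) (a : Fin n → E) (b : Fin n → X),
        t = ∑ i, a i ⊗ₜ[ℝ] b i ∧ r = ∑ i, ‖a i‖ * ‖b i‖) → |TensorProduct.lift B t| ≤ C * r := by
      rintro r ⟨n, a, b, rfl, rfl⟩
      rw [map_sum, Finset.mul_sum]
      refine (Finset.abs_sum_le_sum_abs _ _).trans (Finset.sum_le_sum fun i _ => ?_)
      rw [TensorProduct.lift.tmul]
      exact hB _ _
    rcases eq_or_lt_of_le hC with h0 | h0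
    · obtain ⟨n, a, b, hab⟩ : ∃ (n : ℕ) (a : Fin n → E) (b : Fin n → X),
          t = ∑ i, a i ⊗ₜ[ℝ] b i := by
        obtain ⟨S, rfl⟩ := TensorProduct.exists_finset t
        refine ⟨S.card, fun i => (S.equivFin.symm i).1.1, fun i => (S.equivFin.symm i).1.2, ?_⟩
        rw [← Finset.sum_coe_sort S (fun i => i.1 ⊗ₜ[ℝ] i.2)]
        exact (Equiv.sum_comp S.equivFin.symm (fun i : S => (i : E × X).1 ⊗ₜ[ℝ] (i : E × X).2)).symm
      have h2 := h1 _ ⟨n, a, b, hab, rfl⟩
      rw [← h0, zero_mul] at h2 ⊢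
      exact h2
    · have h2 : |TensorProduct.lift B t| / C ≤ ‖TensorProduct.lift τ t‖ :=
        (h.norm_eq t).2 fun r hr => by
          rw [div_le_iff₀' h0]
          exact h1 r hr
      rwa [div_le_iff₀' h0] at h2
  obtain ⟨T, hT⟩ := BLat.exists_clm_of_rel (P := Y) (Y := ℝ)
    (fun y r => ∃ t, TensorProduct.lift τ t = y ∧ TensorProduct.lift B t = r)
    ⟨0, map_zero _, map_zero _⟩
    (by
      rintro _ _ _ _ ⟨s, rfl, rfl⟩ ⟨t, rfl, rfl⟩
      exact ⟨s + t, map_add _ _ _, map_add _ _ _⟩)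
    (by
      rintro c _ _ ⟨s, rfl, rfl⟩
      exact ⟨c • s, map_smul _ _ _, map_smul _ _ _⟩) hC
    (by
      rintro _ _ ⟨t, rfl, rfl⟩
      exact key t)
    (by
      intro f ε hε
      obtain ⟨t, ht⟩ := h.dense.exists_dist_lt f hε
      exact ⟨_, _, ⟨t, rfl, rfl⟩, by rwa [dist_eq_norm] at ht⟩)
  have hTt : ∀ t, T (TensorProduct.lift τ t) = TensorProduct.lift B t := fun t => hT _ _ ⟨t, rfl, rfl⟩
  refine ⟨T, fun e x => ?_, ?_⟩
  · have := hTt (e ⊗ₜ[ℝ] x)
    rwa [TensorProduct.lift.tmul, TensorProduct.lift.tmul] at this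
  · refine ContinuousLinearMap.opNorm_le_bound _ hC fun y => ?_
    have hcl : IsClosed {y : Y | ‖T y‖ ≤ C * ‖y‖} := isClosed_le (by fun_prop) (by fun_prop)
    have hmem : y ∈ closure {y : Y | ‖T y‖ ≤ C * ‖y‖} := by
      refine closure_mono ?_ (h.dense y)
      rintro _ ⟨t, rfl⟩
      show ‖T (TensorProduct.lift τ t)‖ ≤ C * ‖TensorProduct.lift τ t‖
      rw [hTt]
      exact key t
    rwa [hcl.closure_eq] at hmem

lemma IsProjTensor.ext (h : IsProjTensor τ) {S T : Y →L[ℝ] ℝ} (hST : ∀ e x, S (τ e x) = T (τ e x)) :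
    S = T := by
  have hcl : IsClosed {y | S y = T y} := isClosed_eq S.continuous T.continuous
  ext y
  have hmem : y ∈ closure {y | S y = T y} := by
    refine closure_mono ?_ (h.dense y)
    rintro _ ⟨t, rfl⟩
    show S (TensorProduct.lift τ t) = T (TensorProduct.lift τ t)
    obtain ⟨F, rfl⟩ := TensorProduct.exists_finset t
    simp only [map_sum, TensorProduct.lift.tmul, hST]
  rwa [hcl.closure_eq] at hmem

end tensor

section main

variable {M : Type u} [MetricSpace M] {o : M} {X : Type v} [NormedAddCommGroup X] [NormedSpace ℝ X]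
variable {Y : Type w} [NormedAddCommGroup Y] [NormedSpace ℝ Y]
  {τ : FreeZ M o →ₗ[ℝ] X →ₗ[ℝ] Y}

/-- the Lipschitz function `m ↦ h(m)(x)` -/
noncomputable def slice (h : LipZ M o (StrongDual ℝ X)) (x : X) : LipZ M o ℝ :=
  LipZ.mk' (fun m => h.fn m x) (by rw [LipZ.fn_base]; rfl) (‖h‖ * ‖x‖) (by positivity)
    (fun m m' => by
      have h1 : h.fn m x - h.fn m' x = (h.fn m - h.fn m') x := rfl
      rw [h1]
      refine ((h.fn m - h.fn m').le_opNorm x).trans ?_
      have h2 := mul_le_mul_of_nonneg_right (h.sub_le m m') (norm_nonneg x)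
      linarith)

lemma slice_norm (h : LipZ M o (StrongDual ℝ X)) (x : X) : ‖slice h x‖ ≤ ‖h‖ * ‖x‖ :=
  LipZ.norm_le_of _ (by positivity) (fun m m' => by
      have h1 : (slice h x).fn m - (slice h x).fn m' = (h.fn m - h.fn m') x := rfl
      rw [h1]
      refine ((h.fn m - h.fn m').le_opNorm x).trans ?_
      have h2 := mul_le_mul_of_nonneg_right (h.sub_le m m') (norm_nonneg x)
      linarith)

/-- the bilinear form on `F(M) × X` given by a Lipschitz map `M → X*` -/
noncomputable def bil (h : LipZ M o (StrongDual ℝ X)) : FreeZ M o →ₗ[ℝ] X →ₗ[ℝ] ℝ :=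
  LinearMap.mk₂ ℝ (fun μ x => μ.1 (slice h x))
    (fun _ _ _ => rfl) (fun _ _ _ => rfl)
    (fun μ x y => by
      rw [← map_add]
      congr 1
      refine LipZ.ext fun m => ?_
      show h.fn m (x + y) = h.fn m x + h.fn m y
      rw [map_add])
    (fun c μ x => by
      rw [← map_smul]
      congr 1
      refine LipZ.ext fun m => ?_
      show h.fn m (c • x) = c • h.fn m x
      rw [map_smul])

lemma bil_dlt (h : LipZ M o (StrongDual ℝ X)) (m : M) (x : X) : bil h (dltF o m) x = h.fn m x := rfl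

lemma bil_le (h : LipZ M o (StrongDual ℝ X)) (μ : FreeZ M o) (x : X) :
    |bil h μ x| ≤ ‖h‖ * (‖μ‖ * ‖x‖) := by
  show |μ.1 (slice h x)| ≤ _
  rw [← Real.norm_eq_abs]
  refine (μ.1.le_opNorm _).trans ?_
  have h1 := mul_le_mul_of_nonneg_left (slice_norm h x) (norm_nonneg μ.1)
  have h2 : ‖μ.1‖ = ‖μ‖ := rfl
  rw [h2] at h1 ⊢
  linarith

/-- restriction of a functional to the tensors `δ_m ⊗ x` -/
noncomputable def toLip (hτ : IsProjTensor τ) : StrongDual ℝ Y →ₗ[ℝ] LipZ M o (StrongDual ℝ X) where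
  toFun ψ := LipZ.mk' (fun m => LinearMap.mkContinuous (ψ.toLinearMap.comp (τ (dltF o m)))
      (‖ψ‖ * ‖dltF o m‖) (fun x => by
        show ‖ψ (τ (dltF o m) x)‖ ≤ _
        refine (ψ.le_opNorm _).trans ?_
        rw [mul_assoc]
        exact mul_le_mul_of_nonneg_left (hτ.norm_le _ _) (norm_nonneg _)))
    (by
      ext x
      show ψ (τ (dltF o o) x) = 0
      rw [dltF_base, map_zero, LinearMap.zero_apply, map_zero])
    ‖ψ‖ (norm_nonneg _) (fun m m' => by
      refine ContinuousLinearMap.opNorm_le_bound _ (by positivity) fun x => ?_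
      show ‖ψ (τ (dltF o m) x) - ψ (τ (dltF o m') x)‖ ≤ _
      rw [← map_sub, ← LinearMap.sub_apply, ← map_sub]
      refine (ψ.le_opNorm _).trans ?_
      rw [mul_assoc]
      refine mul_le_mul_of_nonneg_left ?_ (norm_nonneg _)
      refine (hτ.norm_le _ _).trans ?_
      exact mul_le_mul_of_nonneg_right (norm_dltF_sub_le m m') (norm_nonneg _))
  map_add' ψ ψ' := LipZ.ext fun m => by ext x; rfl
  map_smul' c ψ := LipZ.ext fun m => by ext x; rfl

lemma toLip_apply (hτ : IsProjTensor τ) (ψ : StrongDual ℝ Y) (m : M) (x : X) :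
    (toLip hτ ψ).fn m x = ψ (τ (dltF o m) x) := rfl

lemma toLip_norm_le (hτ : IsProjTensor τ) (ψ : StrongDual ℝ Y) : ‖toLip hτ ψ‖ ≤ ‖ψ‖ :=
  LipZ.norm_le_of _ (norm_nonneg _) (fun m m' => by
      refine ContinuousLinearMap.opNorm_le_bound _ (by positivity) fun x => ?_
      show ‖ψ (τ (dltF o m) x) - ψ (τ (dltF o m') x)‖ ≤ _
      rw [← map_sub, ← LinearMap.sub_apply, ← map_sub]
      refine (ψ.le_opNorm _).trans ?_
      rw [mul_assoc]
      refine mul_le_mul_of_nonneg_left ?_ (norm_nonneg _)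
      refine (hτ.norm_le _ _).trans ?_
      exact mul_le_mul_of_nonneg_right (norm_dltF_sub_le m m') (norm_nonneg _))

lemma toLip_eq (hτ : IsProjTensor τ) {h : LipZ M o (StrongDual ℝ X)} {ψ : StrongDual ℝ Y}
    (hψ : ∀ μ x, ψ (τ μ x) = bil h μ x) : toLip hτ ψ = h := by
  refine LipZ.ext fun m => ?_
  ext x
  rw [toLip_apply, hψ, bil_dlt]

/-- a functional on `F(M) ⊗ X` is determined by its values at `δ_m ⊗ x` -/
lemma eq_of_toLip (hτ : IsProjTensor τ) (ψ : StrongDual ℝ Y) (μ : FreeZ M o) (x : X) :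
    ψ (τ μ x) = bil (toLip hτ ψ) μ x := by
  let S : FreeZ M o →L[ℝ] ℝ := LinearMap.mkContinuous
    (ψ.toLinearMap.comp (τ.flip x)) (‖ψ‖ * ‖x‖) (fun μ => by
      show ‖ψ (τ μ x)‖ ≤ _
      refine (ψ.le_opNorm _).trans ?_
      have := mul_le_mul_of_nonneg_left (hτ.norm_le μ x) (norm_nonneg ψ)
      linarith)
  let T : FreeZ M o →L[ℝ] ℝ := LinearMap.mkContinuous
    ((bil (toLip hτ ψ)).flip x) (‖toLip hτ ψ‖ * ‖x‖) (fun μ => by
      rw [Real.norm_eq_abs]
      refine (bil_le (toLip hτ ψ) μ x).trans ?_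
      linarith)
  have hST : S = T := free_ext fun m => by
    show ψ (τ (dltF o m) x) = bil (toLip hτ ψ) (dltF o m) x
    rw [bil_dlt, toLip_apply]
  exact congrArg (fun R : FreeZ M o →L[ℝ] ℝ => R μ) hST

lemma toLip_norm (hτ : IsProjTensor τ) (ψ : StrongDual ℝ Y) : ‖toLip hτ ψ‖ = ‖ψ‖ := by
  refine le_antisymm (toLip_norm_le hτ ψ) ?_
  obtain ⟨ψ', hψ', hn⟩ := hτ.exists_functional (bil (toLip hτ ψ)) (norm_nonneg _)
    (fun μ x => bil_le _ μ x)
  have h1 : ψ' = ψ := hτ.ext fun μ x => by rw [hψ', eq_of_toLip hτ ψ]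
  rwa [h1] at hn

/-- the dual of `F(M) ⊗ X` is `Lip_0(M, X*)` -/
noncomputable def dualEquiv (hτ : IsProjTensor τ) :
    StrongDual ℝ Y ≃ₗᵢ[ℝ] LipZ M o (StrongDual ℝ X) :=
  LinearIsometryEquiv.ofSurjective
    { toLinearMap := toLip hτ
      norm_map' := toLip_norm hτ } (by
      intro h
      obtain ⟨ψ, hψ, -⟩ := hτ.exists_functional (bil h) (norm_nonneg h) (fun μ x => bil_le _ μ x)
      exact ⟨ψ, toLip_eq hτ hψ⟩)

/-- Q2 -/
theorem tensor_daugavet (hD : Daugavet (LipZ M o ℝ)) (hτ : IsProjTensor τ) : Daugavet Y :=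
  daugavet_of_dual ((lip_daugavet (X := StrongDual ℝ X) hD).transfer (dualEquiv hτ))

end main

end Pool.Agent.R280.Lip
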