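import Pool.Agent.R280.LipCut

/-!
The Daugavet property passes from `Lip_0(M)` to `Lip_0(M, X)`.
-/

set_option autoImplicit false
set_option linter.unusedSectionVars false

open Set Topology Filter

universe u v w

namespace Pool.Agent.R280.Lip

variable {M : Type u} [MetricSpace M] {o : M} {X : Type v} [NormedAddCommGroup X] [NormedSpace ℝ X]

/-- a functional of norm one is almost one somewhere on the ball -/
lemma exists_almost {Y : Type w} [NormedAddCommGroup Y] [NormedSpace ℝ Y] {φ : Y →L[ℝ] ℝ}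
    (hφ : ‖φ‖ = 1) {e : ℝ} (he : 0 < e) : ∃ f : Y, ‖f‖ ≤ 1 ∧ 1 - e < φ f := by
  obtain ⟨f, hf1, hf2⟩ := φ.exists_lt_apply_of_lt_opNorm (show 1 - e < ‖φ‖ by rw [hφ]; linarith)
  rw [Real.norm_eq_abs] at hf2
  rcases lt_abs.1 hf2 with h | h
  · exact ⟨f, hf1.le, h⟩
  · exact ⟨-f, by rw [norm_neg]; exact hf1.le, by rwa [map_neg]⟩

/-- The Daugavet property passes from `Lip_0(M)` to `Lip_0(M, X)`. -/
theorem lip_daugavet (hD : Daugavet (LipZ M o ℝ)) : Daugavet (LipZ M o X) := by
  classical
  refine daugavet_of fun φ g hφ hg ε hε => ?_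
  set e := min (ε / 10) (1 / 100) with he
  have he0 : 0 < e := lt_min (by positivity) (by norm_num)
  have he1 : e ≤ 1 / 100 := min_le_right _ _
  have heε : e ≤ ε / 10 := min_le_left _ _
  have hg1 : ∀ x y, ‖g.fn x - g.fn y‖ ≤ dist x y := fun x y => by
    have := g.sub_le x y
    rwa [hg, one_mul] at this
  obtain ⟨x0, y0, hne, hxy⟩ := g.exists_pair (c := 1 - e) (by linarith) (by rw [hg]; linarith)
  obtain ⟨f, hf, hφf⟩ := exists_almost hφ he0
  have hf1 : ∀ x y, ‖f.fn x - f.fn y‖ ≤ dist x y := fun x y =>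
    (f.sub_le x y).trans (mul_le_of_le_one_left dist_nonneg hf)
  obtain ⟨n', hn'⟩ := exists_nat_gt (6 / e)
  set n : ℕ := n' + 1 with hn
  have hn0 : (0 : ℝ) < n := by positivity
  have hne6 : 6 / (n : ℝ) ≤ e := by
    rw [div_le_iff₀ hn0]
    rw [div_lt_iff₀ he0] at hn'
    push_cast [hn]
    nlinarith
  obtain ⟨ρ, hρ, hpairs⟩ := exists_pairs hD hg1 he0 he1 hne hxy.le n
  set δ : ℝ := e / 2 with hδ
  have hδ0 : 0 < δ := by positivity
  obtain ⟨u, v, huv, hlt, hsl, hsep⟩ := hpairs (ρ * Real.exp (-δ⁻¹)) (inner_pos hρ)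
  let wv : Fin n → X := fun k => g.fn (u k) - g.fn (v k)
  have hd : ∀ k, 0 < dist (u k) (v k) := fun k => dist_pos.2 (huv k)
  have hwv : ∀ k, 0 < ‖wv k‖ := fun k => by
    have h1 := hsl k
    have h2 : 0 < (1 - 5 * e) * dist (u k) (v k) := mul_pos (by linarith) (hd k)
    exact h2.trans_le h1
  let ev : Fin n → X := fun k => ‖wv k‖⁻¹ • wv k
  have hev : ∀ k, ‖ev k‖ = 1 := fun k => by
    show ‖‖wv k‖⁻¹ • wv k‖ = 1
    rw [norm_smul, norm_inv, norm_norm, inv_mul_cancel₀ (hwv k).ne']
  let G : Fin n → M → X := fun k x => f.fn (u k) - dist x (u k) • ev k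
  have hG : ∀ k x y, ‖G k x - G k y‖ ≤ dist x y := by
    intro k x y
    have h1 : G k x - G k y = (dist y (u k) - dist x (u k)) • ev k := by
      show f.fn (u k) - dist x (u k) • ev k - (f.fn (u k) - dist y (u k) • ev k) = _
      rw [sub_smul]; abel
    rw [h1, norm_smul, hev, mul_one, Real.norm_eq_abs, dist_comm x y]
    exact abs_dist_sub_le y x (u k)
  have hGf : ∀ k x, ‖G k x - f.fn x‖ ≤ 2 * dist x (u k) := by
    intro k x
    have h1 : G k x - f.fn x = (f.fn (u k) - f.fn x) - dist x (u k) • ev k := by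
      show f.fn (u k) - dist x (u k) • ev k - f.fn x = _
      abel
    rw [h1]
    refine (norm_sub_le _ _).trans ?_
    rw [norm_smul, hev, mul_one, Real.norm_of_nonneg dist_nonneg]
    have h2 := hf1 (u k) x
    rw [dist_comm] at h2
    linarith
  let h : Fin n → M → X := fun k => glue (u k) ρ δ f.fn (G k)
  have hh : ∀ k x y, ‖h k x - h k y‖ ≤ (1 + e) * dist x y := by
    intro k x y
    obtain ⟨θ, hθ, hle⟩ := glue_sub (p := u k) hρ hδ0 (F := f.fn) (G := G k) zero_le_two (hGf k) x y
    have hθ0 : 0 ≤ θ ∧ θ ≤ 1 := by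
      rcases hθ with h | h <;> rw [h] <;> exact cut_mem hρ hδ0 _
    refine hle.trans ?_
    have h1 := mul_le_mul_of_nonneg_left (hf1 x y) (show 0 ≤ 1 - θ by linarith [hθ0.2])
    have h2 := mul_le_mul_of_nonneg_left (hG k x y) hθ0.1
    have h3 : 2 * δ * dist x y = e * dist x y := by rw [hδ]; ring
    linarith
  let H : Fin n → LipZ M o X := fun k => LipZ.mk' (fun x => h k x - h k o) (sub_self _) (1 + e)
    (by linarith) (fun x y => by
      have h1 : h k x - h k o - (h k y - h k o) = h k x - h k y := by abel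
      rw [h1]
      exact hh k x y)
  have hHfn : ∀ k x, (H k).fn x = h k x - h k o := fun k x => rfl
  have hHn : ∀ k, ‖H k‖ ≤ 1 + e := fun k => LipZ.norm_le_of _ (by linarith) (fun x y => by
    rw [hHfn, hHfn]
    have h1 : h k x - h k o - (h k y - h k o) = h k x - h k y := by abel
    rw [h1]
    exact hh k x y)
  -- the norm of `H k + g`
  have hHg : ∀ k, 2 - 5 * e ≤ ‖H k + g‖ := by
    intro k
    have e1 : cut (u k) ρ δ (u k) = 1 := cut_inner hρ hδ0 (by rw [dist_self]; exact (inner_pos hρ).le)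
    have e2 : cut (u k) ρ δ (v k) = 1 := cut_inner hρ hδ0 (by rw [dist_comm]; exact (hlt k).le)
    have h1 : (H k + g).fn (u k) - (H k + g).fn (v k) =
        (dist (u k) (v k) + ‖wv k‖) • ev k := by
      rw [LipZ.fn_add, LipZ.fn_add, hHfn, hHfn]
      have h2 : h k (u k) = f.fn (u k) := by
        show (1 - cut (u k) ρ δ (u k)) • f.fn (u k) + cut (u k) ρ δ (u k) •
          (f.fn (u k) - dist (u k) (u k) • ev k) = _
        rw [e1, dist_self]
        simp
      have h3 : h k (v k) = f.fn (u k) - dist (u k) (v k) • ev k := by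
        show (1 - cut (u k) ρ δ (v k)) • f.fn (v k) + cut (u k) ρ δ (v k) •
          (f.fn (u k) - dist (v k) (u k) • ev k) = _
        rw [e2, dist_comm (v k)]
        simp
      have h4 : ‖wv k‖ • ev k = g.fn (u k) - g.fn (v k) := by
        show ‖wv k‖ • (‖wv k‖⁻¹ • wv k) = _
        rw [smul_smul, mul_inv_cancel₀ (hwv k).ne', one_smul]
      rw [h2, h3, add_smul, h4]
      abel
    have h2 := (H k + g).sub_le (u k) (v k)
    rw [h1, norm_smul, hev, mul_one, Real.norm_of_nonneg (by positivity)] at h2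
    have h3 := hsl k
    have h4 : (2 - 5 * e) * dist (u k) (v k) ≤ ‖H k + g‖ * dist (u k) (v k) := by
      have h5 : ‖wv k‖ = ‖g.fn (u k) - g.fn (v k)‖ := rfl
      linarith
    exact le_of_mul_le_mul_right h4 (hd k)
  -- the average
  let A : LipZ M o X := (n : ℝ)⁻¹ • ∑ k, H k
  have hfnsum : ∀ (s : Finset (Fin n)) x, (∑ k ∈ s, H k).fn x = ∑ k ∈ s, (H k).fn x := by
    intro s x
    induction s using Finset.induction_on with
    | empty => simp
    | insert a s ha ih => rw [Finset.sum_insert ha, Finset.sum_insert ha, LipZ.fn_add, ih]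
  let p : Fin n → M → X := fun k x => h k x - f.fn x
  have hpsupp : ∀ k x, p k x ≠ 0 → dist x (u k) < ρ := by
    intro k x hx
    by_contra hcon
    push Not at hcon
    apply hx
    show (1 - cut (u k) ρ δ x) • f.fn x + cut (u k) ρ δ x • G k x - f.fn x = 0
    rw [cut_outer hρ hδ0 hcon]
    simp
  have hcard : ∀ x, (Finset.univ.filter fun k => p k x ≠ 0).card ≤ 1 := by
    intro x
    rw [Finset.card_le_one]
    intro a ha b hb
    by_contra hab
    have h1 := hpsupp a x (Finset.mem_filter.1 ha).2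
    have h2 := hpsupp b x (Finset.mem_filter.1 hb).2
    have h3 := hsep a b hab
    have h4 := dist_triangle_left (u a) (u b) x
    linarith
  have hAf : ‖A - f‖ ≤ e := by
    refine LipZ.norm_le_of _ he0.le fun x y => ?_
    have h1 : (A - f).fn x - (A - f).fn y = (n : ℝ)⁻¹ • ∑ k, (p k x - p k y) := by
      rw [LipZ.fn_sub, LipZ.fn_sub]
      show ((n : ℝ)⁻¹ • ∑ k, H k).fn x - f.fn x - (((n : ℝ)⁻¹ • ∑ k, H k).fn y - f.fn y) = _
      rw [LipZ.fn_smul, LipZ.fn_smul, hfnsum, hfnsum]
      have h2 : ∀ k, p k x - p k y = ((H k).fn x - (H k).fn y) - (f.fn x - f.fn y) := by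
        intro k
        rw [hHfn, hHfn]
        show h k x - f.fn x - (h k y - f.fn y) = _
        abel
      simp only [h2]
      rw [Finset.sum_sub_distrib, Finset.sum_sub_distrib, Finset.sum_const, Finset.card_univ,
        Fintype.card_fin, smul_sub, smul_sub, ← Nat.cast_smul_eq_nsmul ℝ, smul_smul,
        inv_mul_cancel₀ hn0.ne', one_smul]
      abel
    have h2 : ∀ k, ‖p k x - p k y‖ ≤ (if p k x ≠ 0 then 3 * dist x y else 0) +
        (if p k y ≠ 0 then 3 * dist x y else 0) := by
      intro k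
      have h3 : ‖p k x - p k y‖ ≤ 3 * dist x y := by
        have h4 : p k x - p k y = (h k x - h k y) - (f.fn x - f.fn y) := by
          show h k x - f.fn x - (h k y - f.fn y) = _
          abel
        rw [h4]
        refine (norm_sub_le _ _).trans ?_
        have h5 := hh k x y
        have h6 := hf1 x y
        have h7 : e * dist x y ≤ 1 * dist x y :=
          mul_le_mul_of_nonneg_right (by linarith) dist_nonneg
        linarith
      have h4 : (0 : ℝ) ≤ 3 * dist x y := by positivity
      by_cases hx : p k x = 0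
      · by_cases hy : p k y = 0
        · simp [hx, hy]
        · simp only [hx, hy, ne_eq, not_true_eq_false, not_false_eq_true, if_true, if_false,
            zero_add]
          rw [← hx]
          exact h3
      · rw [if_pos hx]
        refine h3.trans (le_add_of_nonneg_right ?_)
        split_ifs <;> linarith
    have h3 : ∀ z, ∑ k, (if p k z ≠ 0 then 3 * dist x y else 0) ≤ 3 * dist x y := by
      intro z
      rw [← Finset.sum_filter, Finset.sum_const, nsmul_eq_mul]
      have h4 : ((Finset.univ.filter fun k => p k z ≠ 0).card : ℝ) ≤ 1 := by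
        exact_mod_cast hcard z
      exact mul_le_of_le_one_left (by positivity) h4
    rw [h1, norm_smul, norm_inv, Real.norm_of_nonneg hn0.le]
    have h4 : ‖∑ k, (p k x - p k y)‖ ≤ 6 * dist x y := by
      refine (norm_sum_le _ _).trans ((Finset.sum_le_sum fun k _ => h2 k).trans ?_)
      rw [Finset.sum_add_distrib]
      have h5 := h3 x
      have h6 := h3 y
      linarith
    have h5 := mul_le_mul_of_nonneg_left h4 (inv_nonneg.2 hn0.le)
    have h6 : (n : ℝ)⁻¹ * (6 * dist x y) = 6 / n * dist x y := by ring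
    have h7 := mul_le_mul_of_nonneg_right hne6 (dist_nonneg (x := x) (y := y))
    linarith
  have hφA : 1 - 2 * e < φ A := by
    have h1 : φ A = φ f + φ (A - f) := by rw [map_sub]; ring
    have h2 := (neg_abs_le (φ (A - f)))
    have h3 : |φ (A - f)| ≤ e := by
      rw [← Real.norm_eq_abs]
      refine (φ.le_opNorm _).trans ?_
      rw [hφ, one_mul]
      exact hAf
    linarith
  obtain ⟨k, hk⟩ : ∃ k, 1 - 2 * e ≤ φ (H k) := by
    by_contra hcon
    push Not at hcon
    have h1 : φ A = (n : ℝ)⁻¹ * ∑ k, φ (H k) := by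
      show φ ((n : ℝ)⁻¹ • ∑ k, H k) = _
      rw [map_smul, map_sum, smul_eq_mul]
    have h2 : ∑ k, φ (H k) ≤ ∑ _k : Fin n, (1 - 2 * e) := Finset.sum_le_sum fun k _ => (hcon k).le
    rw [Finset.sum_const, Finset.card_univ, Fintype.card_fin, nsmul_eq_mul] at h2
    have h3 := mul_le_mul_of_nonneg_left h2 (inv_nonneg.2 hn0.le)
    rw [← mul_assoc, inv_mul_cancel₀ hn0.ne', one_mul, ← h1] at h3
    linarith
  refine ⟨H k, (hHn k).trans (by linarith), ?_, ?_⟩
  · have h1 : φ (H k) ≤ 1 + e := by
      refine (le_abs_self _).trans ?_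
      rw [← Real.norm_eq_abs]
      refine (φ.le_opNorm _).trans ?_
      rw [hφ, one_mul]
      exact hHn k
    rw [abs_le]
    constructor <;> linarith
  · have := hHg k
    linarith

end Pool.Agent.R280.Lip
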