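import Pool.Agent.R280.LipBump

/-!
The strong diameter two property of `Lip_0(M, X)`.
-/

set_option autoImplicit false
set_option linter.unusedSectionVars false

open Set Topology Filter

universe u v w

namespace Pool.Agent.R280.Lip

/-- the slice `{z ∈ B_Z : f(z) > 1 - α}` -/
def slice {Z : Type w} [NormedAddCommGroup Z] [NormedSpace ℝ Z] (f : Z →L[ℝ] ℝ) (α : ℝ) : Set Z :=
  {z | ‖z‖ ≤ 1 ∧ 1 - α < f z}

/-- the convex combination `∑ λ_i S_i` -/
def convComb {Z : Type w} [NormedAddCommGroup Z] [NormedSpace ℝ Z] {n : ℕ} (lam : Fin n → ℝ)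
    (S : Fin n → Set Z) : Set Z := {z | ∃ x : Fin n → Z, (∀ i, x i ∈ S i) ∧ z = ∑ i, lam i • x i}

/-- The strong diameter two property: every convex combination of slices of the unit ball has
diameter two. -/
def SD2P (Z : Type w) [NormedAddCommGroup Z] [NormedSpace ℝ Z] : Prop :=
  ∀ (n : ℕ) (lam : Fin n → ℝ) (f : Fin n → (Z →L[ℝ] ℝ)) (α : Fin n → ℝ),
    (∀ i, 0 < lam i) → ∑ i, lam i = 1 → (∀ i, ‖f i‖ = 1) → (∀ i, 0 < α i) →
    Metric.diam (convComb lam fun i => slice (f i) (α i)) = 2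

variable {M : Type u} [MetricSpace M] {o : M} {X : Type v} [NormedAddCommGroup X] [NormedSpace ℝ X]

/-- sums of maps with disjoint supports -/
lemma sum_disjoint {N : ℕ} {b : Fin N → M → X} {A : Fin N → Set M}
    (hA : ∀ j k, j ≠ k → Disjoint (A j) (A k)) (hb : ∀ k x, b k x ≠ 0 → x ∈ A k)
    (hlip : ∀ k x y, ‖b k x - b k y‖ ≤ 3 * dist x y) (x y : M) :
    ‖∑ k, (b k x - b k y)‖ ≤ 6 * dist x y := by
  classical
  have hcard : ∀ x : M, (∑ k : Fin N, if x ∈ A k then (1 : ℝ) else 0) ≤ 1 := by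
    intro x
    rw [Finset.sum_ite, Finset.sum_const_zero, add_zero, Finset.sum_const, nsmul_eq_mul, mul_one]
    have h1 : (Finset.univ.filter fun k => x ∈ A k).card ≤ 1 := by
      rw [Finset.card_le_one]
      intro j hj k hk
      by_contra hjk
      exact Set.disjoint_left.1 (hA j k hjk) (Finset.mem_filter.1 hj).2 (Finset.mem_filter.1 hk).2
    exact_mod_cast h1
  refine (norm_sum_le _ _).trans ?_
  have h1 : ∀ k, ‖b k x - b k y‖ ≤ 3 * dist x y * (if x ∈ A k then (1 : ℝ) else 0) +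
      3 * dist x y * (if y ∈ A k then (1 : ℝ) else 0) := by
    intro k
    have hd : 0 ≤ 3 * dist x y := by positivity
    by_cases hx : x ∈ A k
    · rw [if_pos hx, mul_one]
      have : 0 ≤ 3 * dist x y * (if y ∈ A k then (1 : ℝ) else 0) := by
        split_ifs <;> simp [hd]
      linarith [hlip k x y]
    · by_cases hy : y ∈ A k
      · rw [if_pos hy, if_neg hx, mul_one, mul_zero, zero_add]
        exact hlip k x y
      · have h2 : b k x = 0 := by
          by_contra h; exact hx (hb k x h)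
        have h3 : b k y = 0 := by
          by_contra h; exact hy (hb k y h)
        rw [h2, h3, sub_zero, norm_zero, if_neg hx, if_neg hy]
        simp
  refine (Finset.sum_le_sum fun k _ => h1 k).trans ?_
  rw [Finset.sum_add_distrib, ← Finset.mul_sum, ← Finset.mul_sum]
  have hd : 0 ≤ 3 * dist x y := by positivity
  have h2 := mul_le_mul_of_nonneg_left (hcard x) hd
  have h3 := mul_le_mul_of_nonneg_left (hcard y) hd
  linarith

/-- The strong diameter two property. -/
theorem sd2p_of_good (hM : Good M) : SD2P (LipZ M o X) := by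
  intro n lam f α hlam hsum hf hα
  have hn : 0 < n := by
    rcases Nat.eq_zero_or_pos n with rfl | h
    · simp at hsum
    · exact h
  have hn' : (0 : ℝ) < n := Nat.cast_pos.2 hn
  -- the space X is nontrivial
  obtain ⟨v, hv⟩ : ∃ v : X, ‖v‖ = 1 := by
    have h1 : f ⟨0, hn⟩ ≠ 0 := by
      intro h
      have := hf ⟨0, hn⟩
      rw [h, norm_zero] at this
      exact zero_ne_one this
    obtain ⟨g, hg⟩ : ∃ g, f ⟨0, hn⟩ g ≠ 0 := by
      by_contra hcon
      push Not at hcon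
      exact h1 (ContinuousLinearMap.ext hcon)
    have h2 : g ≠ 0 := by
      rintro rfl
      exact hg (map_zero _)
    obtain ⟨x, hx⟩ : ∃ x, g.fn x ≠ 0 := by
      by_contra hcon
      push Not at hcon
      exact h2 (LipZ.ext fun x => hcon x)
    refine ⟨‖g.fn x‖⁻¹ • g.fn x, ?_⟩
    rw [norm_smul, norm_inv, norm_norm, inv_mul_cancel₀ (norm_ne_zero_iff.2 hx)]
  have hbdd : ∀ z ∈ convComb lam fun i => slice (f i) (α i), ‖z‖ ≤ 1 := by
    rintro z ⟨x, hx, rfl⟩
    refine (norm_sum_le _ _).trans ?_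
    rw [← hsum]
    refine Finset.sum_le_sum fun i _ => ?_
    rw [norm_smul, Real.norm_of_nonneg (hlam i).le]
    exact mul_le_of_le_one_right (hlam i).le (hx i).1
  have hB : Bornology.IsBounded (convComb lam fun i => slice (f i) (α i)) :=
    (Metric.isBounded_closedBall (x := (0 : LipZ M o X)) (r := 1)).subset fun z hz => by
      rw [mem_closedBall_zero_iff]
      exact hbdd z hz
  apply le_antisymm
  · refine Metric.diam_le_of_forall_dist_le zero_le_two fun z hz z' hz' => ?_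
    rw [dist_eq_norm]
    exact (norm_sub_le _ _).trans (by linarith [hbdd z hz, hbdd z' hz'])
  refine le_of_forall_pos_le_add fun ε hε => ?_
  -- parameters
  obtain ⟨α0, hα0, hα0'⟩ : ∃ α0 : ℝ, 0 < α0 ∧ ∀ i, α0 ≤ α i := by
    have : Nonempty (Fin n) := ⟨⟨0, hn⟩⟩
    obtain ⟨i, -, hi⟩ := Finset.exists_min_image Finset.univ α Finset.univ_nonempty
    exact ⟨α i, hα i, fun j => hi j (Finset.mem_univ j)⟩
  set η : ℝ := α0 / 2 with hηdef
  have hη : 0 < η := half_pos hα0
  set δ : ℝ := min (min (1 / 3) (ε / 8)) (η / (24 * n)) with hδdef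
  have hδ : 0 < δ := lt_min (lt_min (by norm_num) (by positivity)) (by positivity)
  have hδ1 : δ ≤ 1 / 3 := (min_le_left _ _).trans (min_le_left _ _)
  have hδ2 : 8 * δ ≤ ε := by
    have : δ ≤ ε / 8 := (min_le_left _ _).trans (min_le_right _ _)
    linarith
  have hδ3 : n * (6 * δ) ≤ η / 4 := by
    have h1 : δ ≤ η / (24 * n) := min_le_right _ _
    rw [le_div_iff₀ (by positivity)] at h1
    linarith
  set τ : ℝ := η / (8 * n) with hτdef
  have hτ : 0 < τ := by positivity
  have hτ2 : n * (2 * τ) = η / 4 := by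
    rw [hτdef]; field_simp; norm_num
  obtain ⟨N, hN⟩ := exists_nat_gt (48 * n / η)
  have hN0 : (0 : ℝ) < N := lt_trans (by positivity) hN
  have hNpos : 0 < N := Nat.cast_pos.1 hN0
  have hN2 : n * (12 / N) ≤ η / 4 := by
    rw [div_lt_iff₀ hη] at hN
    rw [mul_div_assoc', div_le_iff₀ hN0]
    linarith
  -- almost norming elements
  have hg : ∀ i, ∃ g : LipZ M o X, ‖g‖ ≤ 1 ∧ 1 - τ < f i g := by
    intro i
    obtain ⟨z, hz1, hz2⟩ := (f i).exists_lt_apply_of_lt_opNorm (show 1 - τ < ‖f i‖ by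
      rw [hf]; linarith)
    rw [Real.norm_eq_abs] at hz2
    rcases lt_abs.1 hz2 with h | h
    · exact ⟨z, hz1.le, h⟩
    · exact ⟨-z, by rw [norm_neg]; exact hz1.le, by rwa [map_neg]⟩
  choose g hg1 hg2 using hg
  have hglip : ∀ i x y, ‖(g i).fn x - (g i).fn y‖ ≤ dist x y := fun i x y =>
    ((g i).sub_le x y).trans (mul_le_of_le_one_left dist_nonneg (hg1 i))
  have hL : 1 < 2 / δ * Real.exp δ⁻¹ := by
    have h1 : 1 ≤ Real.exp δ⁻¹ := Real.one_le_exp (inv_nonneg.2 hδ.le)
    have h2 : 6 ≤ 2 / δ := by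
      rw [le_div_iff₀ hδ]; linarith
    nlinarith
  obtain ⟨c, u, huc, hdis⟩ := hM N _ hL
  set r : Fin N → ℝ := fun k => dist (u k) (c k) with hr
  have hr0 : ∀ k, 0 < r k := fun k => dist_pos.2 (huc k)
  -- the perturbed maps
  let b : ℝ → Fin n → Fin N → M → X := fun s i k =>
    bfun (c k) (u k) (r k) δ (s • v) (g i).fn
  have hsv : ∀ s : ℝ, |s| = 1 → ‖s • v‖ ≤ 1 := by
    intro s hs
    rw [norm_smul, hv, mul_one, Real.norm_eq_abs, hs]
  have hb1 : ∀ s : ℝ, |s| = 1 → ∀ i k x y,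
      ‖((g i).fn x + b s i k x) - ((g i).fn y + b s i k y)‖ ≤ (1 + 3 * δ) * dist x y :=
    fun s hs i k x y => bfun_lip rfl (hr0 k) hδ hδ1 (hsv s hs) (hglip i) x y
  have hb2 : ∀ s : ℝ, |s| = 1 → ∀ i k x y, ‖b s i k x - b s i k y‖ ≤ 3 * dist x y :=
    fun s hs i k x y => bfun_lip' rfl (hr0 k) hδ hδ1 (hsv s hs) (hglip i) x y
  have hb3 : ∀ s i k x, b s i k x ≠ 0 → x ∈ ann (2 / δ * Real.exp δ⁻¹) (c k) (u k) :=
    fun s i k x h => bfun_ne rfl (hr0 k) hδ hδ1 h
  -- as elements of the space; for |s| ≠ 1 we take zero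
  have hex : ∀ (s : ℝ) (hs : |s| = 1) (i : Fin n) (k : Fin N), ∃ H : LipZ M o X,
      (∀ x, H.fn x = b s i k x - b s i k o) ∧ ‖g i + H‖ ≤ 1 + 3 * δ := by
    intro s hs i k
    refine ⟨LipZ.mk' (fun x => b s i k x - b s i k o) (sub_self _) 3 (by norm_num) (fun x y => by
      rw [sub_sub_sub_cancel_right]
      exact hb2 s hs i k x y), fun x => rfl, ?_⟩
    refine LipZ.norm_le_of _ (by positivity) fun x y => ?_
    rw [LipZ.fn_add, LipZ.fn_add, LipZ.fn_mk, LipZ.fn_mk]
    refine le_trans (le_of_eq ?_) (hb1 s hs i k x y)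
    congr 1; abel
  have h1s : |(1 : ℝ)| = 1 := abs_one
  have h2s : |(-1 : ℝ)| = 1 := by rw [abs_neg, abs_one]
  choose P hP1 hP2 using hex 1 h1s
  choose Q hQ1 hQ2 using hex (-1) h2s
  have hsumP : ∀ i, ‖∑ k, P i k‖ ≤ 6 := by
    intro i
    refine LipZ.norm_le_of _ (by norm_num) fun x y => ?_
    have h1 := LipZ.evd_apply x y (∑ k, P i k)
    rw [← h1, map_sum]
    have h2 : ∀ k, LipZ.evd x y (P i k) = b 1 i k x - b 1 i k y := by
      intro k
      rw [LipZ.evd_apply, hP1, hP1, sub_sub_sub_cancel_right]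
    simp only [h2]
    exact sum_disjoint hdis (fun k x h => hb3 1 i k x h) (fun k x y => hb2 1 h1s i k x y) x y
  have hsumQ : ∀ i, ‖∑ k, Q i k‖ ≤ 6 := by
    intro i
    refine LipZ.norm_le_of _ (by norm_num) fun x y => ?_
    have h1 := LipZ.evd_apply x y (∑ k, Q i k)
    rw [← h1, map_sum]
    have h2 : ∀ k, LipZ.evd x y (Q i k) = b (-1) i k x - b (-1) i k y := by
      intro k
      rw [LipZ.evd_apply, hQ1, hQ1, sub_sub_sub_cancel_right]
    simp only [h2]
    exact sum_disjoint hdis (fun k x h => hb3 (-1) i k x h) (fun k x y => hb2 (-1) h2s i k x y) x y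
  -- the deficits
  have hfle : ∀ i (z : LipZ M o X), f i z ≤ ‖z‖ := by
    intro i z
    have h1 := (f i).le_opNorm z
    rw [hf, one_mul, Real.norm_eq_abs] at h1
    exact (le_abs_self _).trans h1
  have hfge : ∀ i (z : LipZ M o X), -‖z‖ ≤ f i z := by
    intro i z
    have h1 := (f i).le_opNorm z
    rw [hf, one_mul, Real.norm_eq_abs] at h1
    exact (abs_le.1 h1).1
  let D : Fin n → Fin N → ℝ := fun i k =>
    (1 + 3 * δ - f i (g i + P i k)) + (1 + 3 * δ - f i (g i + Q i k))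
  have hDnn : ∀ i k, 0 ≤ 1 + 3 * δ - f i (g i + P i k) ∧ 0 ≤ 1 + 3 * δ - f i (g i + Q i k) :=
    fun i k => ⟨by linarith [hfle i (g i + P i k), hP2 i k],
      by linarith [hfle i (g i + Q i k), hQ2 i k]⟩
  have hDsum : ∀ i, ∑ k, D i k ≤ N * (6 * δ + 2 * τ) + 12 := by
    intro i
    have h1 : ∑ k, D i k = N * (2 + 6 * δ) - 2 * (N * f i (g i)) - f i (∑ k, P i k) -
        f i (∑ k, Q i k) := by
      have h2 : ∀ k, D i k = (2 + 6 * δ) - 2 * f i (g i) - f i (P i k) - f i (Q i k) := by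
        intro k
        show (1 + 3 * δ - f i (g i + P i k)) + (1 + 3 * δ - f i (g i + Q i k)) = _
        rw [map_add, map_add]; ring
      simp only [h2]
      rw [Finset.sum_sub_distrib, Finset.sum_sub_distrib, Finset.sum_sub_distrib,
        Finset.sum_const, Finset.sum_const, Finset.card_univ, Fintype.card_fin, map_sum, map_sum,
        nsmul_eq_mul, nsmul_eq_mul]
      ring
    have h2 := hfge i (∑ k, P i k)
    have h3 := hfge i (∑ k, Q i k)
    have h4 := hsumP i
    have h5 := hsumQ i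
    have h6 := mul_le_mul_of_nonneg_left (hg2 i).le hN0.le
    rw [h1]
    linarith
  obtain ⟨k, hk⟩ : ∃ k, ∑ i, D i k ≤ 3 / 4 * η := by
    have hne : Nonempty (Fin N) := ⟨⟨0, hNpos⟩⟩
    have h1 : ∑ k, ∑ i, D i k ≤ ∑ _k : Fin N, 3 / 4 * η := by
      rw [Finset.sum_comm, Finset.sum_const, Finset.card_univ, Fintype.card_fin, nsmul_eq_mul]
      refine (Finset.sum_le_sum fun i _ => hDsum i).trans ?_
      rw [Finset.sum_const, Finset.card_univ, Fintype.card_fin, nsmul_eq_mul]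
      have h2 : (n : ℝ) * (N * (6 * δ + 2 * τ) + 12) =
          N * (n * (6 * δ) + n * (2 * τ) + n * (12 / N)) := by
        field_simp
      rw [h2]
      refine mul_le_mul_of_nonneg_left ?_ hN0.le
      linarith
    obtain ⟨k, -, hk⟩ := Finset.exists_le_of_sum_le Finset.univ_nonempty h1
    exact ⟨k, hk⟩
  have hDi : ∀ i, D i k ≤ 3 / 4 * η := fun i =>
    (Finset.single_le_sum (f := fun i => D i k) (fun i _ => add_nonneg (hDnn i k).1 (hDnn i k).2)
      (Finset.mem_univ i)).trans hk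
  have h3δ : 0 < 1 + 3 * δ := by positivity
  have hsl : ∀ (i : Fin n) (z : LipZ M o X), ‖z‖ ≤ 1 + 3 * δ → 1 + 3 * δ - f i z ≤ 3 / 4 * η →
      (1 + 3 * δ)⁻¹ • z ∈ slice (f i) (α i) := by
    intro i z hz1 hz2
    refine ⟨?_, ?_⟩
    · rw [norm_smul, norm_inv, Real.norm_of_nonneg h3δ.le, inv_mul_le_iff₀ h3δ, mul_one]
      exact hz1
    · rw [map_smul, smul_eq_mul, ← div_eq_inv_mul, lt_div_iff₀ h3δ]
      have h4 := hα0' i
      have h5 : 0 ≤ α0 * δ := by positivity
      have h6 : (1 - α i) * (1 + 3 * δ) ≤ (1 - α0) * (1 + 3 * δ) :=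
        mul_le_mul_of_nonneg_right (by linarith) h3δ.le
      have h7 : η = α0 / 2 := hηdef
      linarith
  have hPmem : (∑ i, lam i • ((1 + 3 * δ)⁻¹ • (g i + P i k))) ∈
      convComb lam fun i => slice (f i) (α i) :=
    ⟨fun i => (1 + 3 * δ)⁻¹ • (g i + P i k), fun i => hsl i _ (hP2 i k)
      (by linarith [(hDnn i k).2, hDi i, show D i k = (1 + 3 * δ - f i (g i + P i k)) +
        (1 + 3 * δ - f i (g i + Q i k)) from rfl]), rfl⟩
  have hQmem : (∑ i, lam i • ((1 + 3 * δ)⁻¹ • (g i + Q i k))) ∈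
      convComb lam fun i => slice (f i) (α i) :=
    ⟨fun i => (1 + 3 * δ)⁻¹ • (g i + Q i k), fun i => hsl i _ (hQ2 i k)
      (by linarith [(hDnn i k).1, hDi i, show D i k = (1 + 3 * δ - f i (g i + P i k)) +
        (1 + 3 * δ - f i (g i + Q i k)) from rfl]), rfl⟩
  have hdiam := Metric.dist_le_diam_of_mem hB hPmem hQmem
  have hdist : 2 - 8 * δ ≤ dist (∑ i, lam i • ((1 + 3 * δ)⁻¹ • (g i + P i k)))
      (∑ i, lam i • ((1 + 3 * δ)⁻¹ • (g i + Q i k))) := by
    rw [dist_eq_norm, ← Finset.sum_sub_distrib]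
    have h1 := (∑ i, (lam i • ((1 + 3 * δ)⁻¹ • (g i + P i k)) -
      lam i • ((1 + 3 * δ)⁻¹ • (g i + Q i k)))).sub_le (u k) (c k)
    rw [← LipZ.evd_apply, map_sum] at h1
    have h2 : ∀ i, LipZ.evd (u k) (c k) (lam i • ((1 + 3 * δ)⁻¹ • (g i + P i k)) -
        lam i • ((1 + 3 * δ)⁻¹ • (g i + Q i k))) =
        (lam i * ((1 + 3 * δ)⁻¹ * (2 * ((1 - δ) * r k)))) • v := by
      intro i
      have ht1 : tent (u k) (r k) δ (u k) = (1 - δ) * r k := by
        unfold tent
        rw [dist_self, sub_zero, max_eq_right]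
        exact mul_nonneg (by linarith) (hr0 k).le
      have ht2 : tent (u k) (r k) δ (c k) = 0 := by
        unfold tent
        rw [dist_comm, max_eq_left]
        have h4 : dist (u k) (c k) = r k := rfl
        have h5 := mul_pos hδ (hr0 k)
        rw [h4]; linarith
      have h3 : LipZ.evd (u k) (c k) (P i k) - LipZ.evd (u k) (c k) (Q i k) =
          (2 * ((1 - δ) * r k)) • v := by
        rw [LipZ.evd_apply, LipZ.evd_apply, hP1, hP1, hQ1, hQ1]
        show (chi (c k) (r k) δ (u k) • ((g i).fn (c k) - (g i).fn (u k)) +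
            tent (u k) (r k) δ (u k) • ((1 : ℝ) • v) - b 1 i k o -
          (chi (c k) (r k) δ (c k) • ((g i).fn (c k) - (g i).fn (c k)) +
            tent (u k) (r k) δ (c k) • ((1 : ℝ) • v) - b 1 i k o)) -
          (chi (c k) (r k) δ (u k) • ((g i).fn (c k) - (g i).fn (u k)) +
            tent (u k) (r k) δ (u k) • ((-1 : ℝ) • v) - b (-1) i k o -
          (chi (c k) (r k) δ (c k) • ((g i).fn (c k) - (g i).fn (c k)) +
            tent (u k) (r k) δ (c k) • ((-1 : ℝ) • v) - b (-1) i k o)) = _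
        rw [ht1, ht2, two_mul, add_smul]
        simp only [zero_smul, sub_self, smul_zero, one_smul, neg_smul, smul_neg]
        abel
      rw [map_sub, map_smul, map_smul, map_smul, map_smul, map_add, map_add, ← smul_sub, ← smul_sub,
        add_sub_add_left_eq_sub, h3, smul_smul, smul_smul, mul_assoc]
    simp only [h2] at h1
    rw [← Finset.sum_smul, ← Finset.sum_mul, hsum, one_mul, norm_smul, hv, mul_one,
      Real.norm_of_nonneg (by
        have h4 := hr0 k
        have h5 : 0 ≤ 1 - δ := by linarith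
        positivity)] at h1
    have h4 : (1 + 3 * δ)⁻¹ * (2 * ((1 - δ) * r k)) = (1 + 3 * δ)⁻¹ * (2 * (1 - δ)) * r k := by
      ring
    rw [h4] at h1
    have h5 := le_of_mul_le_mul_right h1 (hr0 k)
    refine le_trans ?_ h5
    rw [← div_eq_inv_mul, le_div_iff₀ h3δ]
    nlinarith [mul_pos hδ hδ]
  linarith

end Pool.Agent.R280.Lip
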