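import Pool.Agent.R280.LipZ

/-!
Localisation of almost norming pairs when `Lip_0(M)` has the Daugavet property.
-/

set_option autoImplicit false
set_option linter.unusedSectionVars false

open Set Topology Filter

universe u v w

namespace Pool.Agent.R280.Lip

section step

variable {M : Type u} [MetricSpace M] {o : M} {X : Type v} [NormedAddCommGroup X] [NormedSpace ℝ X]

/-- the test function -/
noncomputable def bump (u v : M) (x : M) : ℝ :=
  max (dist u v / 2 - dist u x) 0 - max (dist u v / 2 - dist v x) 0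

lemma bump_sub_le (u v s t : M) : bump u v s - bump u v t ≤ dist s t := by
  have h1 := dist_triangle u s t
  have h2 := dist_triangle v s t
  have h1' := dist_triangle u t s
  have h2' := dist_triangle v t s
  have h3 := dist_comm s t
  have h4 : dist u v ≤ dist u s + dist s t + dist v t := by
    have h5 := dist_triangle u s v
    have h6 := dist_triangle s t v
    rw [dist_comm t v] at h6
    linarith
  have h0 : 0 ≤ dist s t := dist_nonneg
  unfold bump
  rcases max_cases (dist u v / 2 - dist u s) 0 with ⟨e1, c1⟩ | ⟨e1, c1⟩ <;>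
  rcases max_cases (dist u v / 2 - dist v s) 0 with ⟨e2, c2⟩ | ⟨e2, c2⟩ <;>
  rcases max_cases (dist u v / 2 - dist u t) 0 with ⟨e3, c3⟩ | ⟨e3, c3⟩ <;>
  rcases max_cases (dist u v / 2 - dist v t) 0 with ⟨e4, c4⟩ | ⟨e4, c4⟩ <;>
  rw [e1, e2, e3, e4] <;> linarith

lemma bump_self (u v : M) : bump u v u - bump u v v = dist u v := by
  have h0 : 0 ≤ dist u v := dist_nonneg
  unfold bump
  rw [dist_self, dist_self, dist_comm v u, sub_zero]
  rw [max_eq_left (by linarith), max_eq_right (by linarith)]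
  ring

lemma abs_bump_sub_le (u v s t : M) : |bump u v s - bump u v t| ≤ dist s t := by
  rw [abs_le]
  have h1 := bump_sub_le u v t s
  rw [dist_comm] at h1
  exact ⟨by linarith, bump_sub_le u v s t⟩

/-- One step of the localisation. -/
theorem exists_closer (hD : Daugavet (LipZ M o ℝ)) {g : M → X}
    (hg : ∀ x y, ‖g x - g y‖ ≤ dist x y) {β κ : ℝ} (hβ0 : 0 ≤ β) (hβ : β ≤ 1 / 8) (hκ : 0 < κ)
    (hκ1 : κ ≤ 1 / 32)
    {u v : M} (huv : u ≠ v) (hgu : (1 - β) * dist u v ≤ ‖g u - g v‖) :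
    ∃ u' v' : M, u' ≠ v' ∧ dist u' v' ≤ 7 / 8 * dist u v ∧
      (1 - β - κ) * dist u' v' ≤ ‖g u' - g v'‖ := by
  set d := dist u v with hd
  have hd0 : 0 < d := dist_pos.2 huv
  obtain ⟨xs, hxs1, hxs2⟩ := exists_dual_vector'' ℝ (g u - g v)
  have hxs2' : xs (g u - g v) = ‖g u - g v‖ := by
    rw [hxs2]; rfl
  let f : M → ℝ := fun x => xs (g x)
  have hf : ∀ x y, |f x - f y| ≤ dist x y := by
    intro x y
    show |xs (g x) - xs (g y)| ≤ _
    rw [← map_sub, ← Real.norm_eq_abs]
    refine (xs.le_opNorm _).trans ?_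
    exact (mul_le_of_le_one_left (norm_nonneg _) hxs1).trans (hg x y)
  let G0 : M → ℝ := fun x => (f x + bump u v x) / 2 - (f o + bump u v o) / 2
  have hG0 : ∀ x y, ‖G0 x - G0 y‖ ≤ 1 * dist x y := by
    intro x y
    have h1 : G0 x - G0 y = ((f x - f y) + (bump u v x - bump u v y)) / 2 := by
      show ((f x + bump u v x) / 2 - (f o + bump u v o) / 2) -
        ((f y + bump u v y) / 2 - (f o + bump u v o) / 2) = _
      ring
    rw [h1, Real.norm_eq_abs, abs_div, abs_two, one_mul]
    have h2 := abs_add_le (f x - f y) (bump u v x - bump u v y)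
    have h3 := hf x y
    have h4 := abs_bump_sub_le u v x y
    rw [div_le_iff₀ two_pos]
    linarith
  let G : LipZ M o ℝ := LipZ.mk' G0 (sub_self _) 1 zero_le_one hG0
  have hGn : ‖G‖ ≤ 1 := LipZ.norm_le_of _ zero_le_one hG0
  have hGf : ∀ x y, G.fn x - G.fn y = ((f x - f y) + (bump u v x - bump u v y)) / 2 := by
    intro x y
    show ((f x + bump u v x) / 2 - (f o + bump u v o) / 2) -
        ((f y + bump u v y) / 2 - (f o + bump u v o) / 2) = _
    ring
  have hGl : 1 - β / 2 ≤ ‖G‖ := by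
    have h1 := G.sub_le u v
    have h2 : (1 - β / 2) * d ≤ G.fn u - G.fn v := by
      rw [hGf, bump_self]
      have h3 : f u - f v = ‖g u - g v‖ := by
        show xs (g u) - xs (g v) = _
        rw [← map_sub, hxs2']
      rw [h3]
      linarith
    have h3 := (le_abs_self (G.fn u - G.fn v))
    rw [Real.norm_eq_abs] at h1
    have h4 : (1 - β / 2) * d ≤ ‖G‖ * d := by linarith
    exact le_of_mul_le_mul_right h4 hd0
  have hG0' : 0 < ‖G‖ := by linarith
  -- the functional
  let φ : LipZ M o ℝ →L[ℝ] ℝ := d⁻¹ • LipZ.evd v u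
  have hφ : ‖φ‖ = 1 := by
    refine le_antisymm ?_ ?_
    · refine ContinuousLinearMap.opNorm_le_bound _ zero_le_one fun h => ?_
      show ‖d⁻¹ * (h.fn v - h.fn u)‖ ≤ _
      rw [norm_mul, norm_inv, Real.norm_of_nonneg hd0.le, inv_mul_le_iff₀ hd0, one_mul]
      have := h.sub_le v u
      rw [dist_comm] at this
      linarith
    · let h0 : LipZ M o ℝ := LipZ.mk' (fun x => dist x u - dist o u) (sub_self _) 1 zero_le_one
        (fun x y => by
          have h1 : dist x u - dist o u - (dist y u - dist o u) = dist x u - dist y u := by ring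
          rw [h1, one_mul, Real.norm_eq_abs]
          exact abs_dist_sub_le x y u)
      have h1 : ‖h0‖ ≤ 1 := LipZ.norm_le_of _ zero_le_one (fun x y => by
          show ‖dist x u - dist o u - (dist y u - dist o u)‖ ≤ _
          have h1 : dist x u - dist o u - (dist y u - dist o u) = dist x u - dist y u := by ring
          rw [h1, one_mul, Real.norm_eq_abs]
          exact abs_dist_sub_le x y u)
      have h2 : φ h0 = 1 := by
        show d⁻¹ * ((dist v u - dist o u) - (dist u u - dist o u)) = 1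
        rw [dist_self, dist_comm v u]
        have h3 : dist u v - dist o u - (0 - dist o u) = d := by ring
        rw [h3, inv_mul_cancel₀ hd0.ne']
      have h3 := φ.le_opNorm h0
      rw [h2, norm_one] at h3
      have h4 := mul_le_of_le_one_right (norm_nonneg φ) h1
      linarith
  have hG1 : ‖‖G‖⁻¹ • G‖ = 1 := by
    rw [norm_smul, norm_inv, norm_norm, inv_mul_cancel₀ hG0'.ne']
  obtain ⟨H, hH1, hH2, hH3⟩ := hD.exists_vec hφ hG1 (κ := κ / 4) (by positivity)
  have hHuv : (1 - κ / 4) * d ≤ H.fn v - H.fn u := by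
    have h1 : (1 - κ / 4) ≤ d⁻¹ * (H.fn v - H.fn u) := hH2
    rw [inv_mul_eq_div, le_div_iff₀ hd0] at h1
    exact h1
  obtain ⟨u0, v0, hne0, hlt0⟩ := (H + ‖G‖⁻¹ • G).exists_pair (c := 2 - κ / 2) (by linarith)
    (by linarith)
  -- choose the order
  obtain ⟨u', v', hne, hlt⟩ : ∃ u' v' : M, u' ≠ v' ∧ (2 - κ / 2) * dist u' v' <
      (H + ‖G‖⁻¹ • G).fn u' - (H + ‖G‖⁻¹ • G).fn v' := by
    rw [Real.norm_eq_abs] at hlt0
    rcases lt_abs.1 hlt0 with h | h
    · exact ⟨u0, v0, hne0, h⟩
    · refine ⟨v0, u0, hne0.symm, ?_⟩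
      rw [dist_comm]
      linarith
  set d' := dist u' v' with hd'
  have hd'0 : 0 < d' := dist_pos.2 hne
  have hlt' : (2 - κ / 2) * d' < (H.fn u' - H.fn v') + ‖G‖⁻¹ * (G.fn u' - G.fn v') := by
    have h1 : (H + ‖G‖⁻¹ • G).fn u' - (H + ‖G‖⁻¹ • G).fn v' =
        (H.fn u' - H.fn v') + ‖G‖⁻¹ * (G.fn u' - G.fn v') := by
      rw [LipZ.fn_add, LipZ.fn_add, LipZ.fn_smul, LipZ.fn_smul, smul_eq_mul, smul_eq_mul]
      ring
    rwa [h1] at hlt
  have hHle : H.fn u' - H.fn v' ≤ d' := by
    have h1 := H.sub_le u' v'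
    rw [Real.norm_eq_abs] at h1
    have h2 := le_abs_self (H.fn u' - H.fn v')
    have h3 := mul_le_of_le_one_left hd'0.le hH1
    linarith
  have hGle : ‖G‖⁻¹ * (G.fn u' - G.fn v') ≤ d' := by
    rw [inv_mul_le_iff₀ hG0']
    have h1 := G.sub_le u' v'
    rw [Real.norm_eq_abs] at h1
    exact (le_abs_self _).trans h1
  have hH' : (1 - κ / 2) * d' < H.fn u' - H.fn v' := by linarith
  have hG' : (1 - κ / 2) * d' < ‖G‖⁻¹ * (G.fn u' - G.fn v') := by linarith
  have hG'' : (1 - β / 2 - κ / 2) * d' < G.fn u' - G.fn v' := by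
    rw [lt_inv_mul_iff₀ hG0'] at hG'
    refine lt_of_le_of_lt ?_ hG'
    have h1 : (1 - β / 2) * ((1 - κ / 2) * d') ≤ ‖G‖ * ((1 - κ / 2) * d') :=
      mul_le_mul_of_nonneg_right hGl (by
        have : 0 ≤ 1 - κ / 2 := by linarith
        positivity)
    have h2 : (1 - β / 2 - κ / 2) * d' ≤ (1 - β / 2) * ((1 - κ / 2) * d') := by
      have h3 : 0 ≤ β * κ * d' := by positivity
      have h4 : (1 - β / 2) * ((1 - κ / 2) * d') = (1 - β / 2 - κ / 2) * d' + β * κ * d' / 4 := by
        ring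
      linarith
    exact h2.trans h1
  rw [hGf] at hG''
  have hfle : f u' - f v' ≤ d' := (le_abs_self _).trans (hf u' v')
  have hble : bump u v u' - bump u v v' ≤ d' := bump_sub_le u v u' v'
  have hfl : (1 - β - κ) * d' < f u' - f v' := by linarith
  have hbl : (1 - β - κ) * d' < bump u v u' - bump u v v' := by linarith
  refine ⟨u', v', hne, ?_, ?_⟩
  · by_contra hcon
    push Not at hcon
    have h1 := H.sub_le u' u
    have h2 := H.sub_le v v'
    rw [Real.norm_eq_abs] at h1 h2
    have h3 := le_abs_self (H.fn u' - H.fn u)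
    have h4 := le_abs_self (H.fn v - H.fn v')
    have h5 := mul_le_of_le_one_left (dist_nonneg (x := u') (y := u)) hH1
    have h6 := mul_le_of_le_one_left (dist_nonneg (x := v) (y := v')) hH1
    rw [dist_comm u' u] at h1 h5
    have hS : (1 - κ / 4) * d + (1 - κ / 2) * d' < dist u u' + dist v v' := by linarith
    have hκd : κ * d ≤ 1 / 32 * d := mul_le_mul_of_nonneg_right hκ1 hd0.le
    have hκd' : κ * d' ≤ 1 / 32 * d' := mul_le_mul_of_nonneg_right hκ1 hd'0.le
    have hβd' : β * d' ≤ 1 / 8 * d' := mul_le_mul_of_nonneg_right hβ hd'0.le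
    have hb : bump u v u' - bump u v v' ≤
        max (dist u v / 2 - dist u u') 0 + max (dist u v / 2 - dist v v') 0 := by
      unfold bump
      have e1 := le_max_right (dist u v / 2 - dist v u') 0
      have e2 := le_max_right (dist u v / 2 - dist u v') 0
      linarith
    rw [← hd] at hb
    have e1 : 0 ≤ dist u u' := dist_nonneg
    have e2 : 0 ≤ dist v v' := dist_nonneg
    rcases max_cases (d / 2 - dist u u') 0 with ⟨c1, c1'⟩ | ⟨c1, c1'⟩ <;>
    rcases max_cases (d / 2 - dist v v') 0 with ⟨c2, c2'⟩ | ⟨c2, c2'⟩ <;>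
    rw [c1, c2] at hb <;> linarith
  · refine hfl.le.trans ?_
    have h1 : f u' - f v' = xs (g u' - g v') := by
      show xs (g u') - xs (g v') = _
      rw [map_sub]
    rw [h1]
    refine (le_abs_self _).trans ?_
    rw [← Real.norm_eq_abs]
    exact (xs.le_opNorm _).trans (mul_le_of_le_one_left (norm_nonneg _) hxs1)

/-- Localisation. -/
theorem exists_near (hD : Daugavet (LipZ M o ℝ)) {g : M → X}
    (hg : ∀ x y, ‖g x - g y‖ ≤ dist x y) {β ε η : ℝ} (hβ0 : 0 ≤ β) (hε : 0 < ε) (hη : 0 < η)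
    (hβ : β + ε ≤ 1 / 8) {u v : M} (huv : u ≠ v) (hgu : (1 - β) * dist u v ≤ ‖g u - g v‖) :
    ∃ u' v' : M, u' ≠ v' ∧ dist u' v' < η ∧ (1 - β - ε) * dist u' v' ≤ ‖g u' - g v'‖ := by
  have hd0 : 0 < dist u v := dist_pos.2 huv
  have key : ∀ (κ : ℝ) (N : ℕ), 0 < κ → κ ≤ 1 / 32 → β + N * κ ≤ 1 / 8 →
      ∃ u' v' : M, u' ≠ v' ∧ dist u' v' ≤ (7 / 8) ^ N * dist u v ∧
        (1 - β - N * κ) * dist u' v' ≤ ‖g u' - g v'‖ := by
    intro κ N hκ hκ1
    induction N with
    | zero =>
      intro _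
      exact ⟨u, v, huv, by simp, by simpa using hgu⟩
    | succ N ih =>
      intro h
      push_cast at h
      obtain ⟨u1, v1, h1, h2, h3⟩ := ih (by linarith)
      obtain ⟨u2, v2, h4, h5, h6⟩ := exists_closer hD hg (β := β + N * κ)
        (by positivity) (by linarith) hκ hκ1 h1 (by
          have : (1 - (β + N * κ)) = 1 - β - N * κ := by ring
          rw [this]
          exact h3)
      refine ⟨u2, v2, h4, ?_, ?_⟩
      · rw [pow_succ]
        have := mul_le_mul_of_nonneg_left h2 (show (0 : ℝ) ≤ 7 / 8 by norm_num)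
        linarith
      · push_cast
        have : 1 - β - (N + 1) * κ = 1 - (β + N * κ) - κ := by ring
        rw [this]
        exact h6
  obtain ⟨N, hN⟩ := exists_pow_lt_of_lt_one (show 0 < η / dist u v by positivity)
    (show (7 / 8 : ℝ) < 1 by norm_num)
  set κ := min (ε / (N + 1)) (1 / 32) with hκ
  have hκ0 : 0 < κ := lt_min (by positivity) (by norm_num)
  have hNκ : N * κ ≤ ε := by
    have h1 : κ ≤ ε / (N + 1) := min_le_left _ _
    have h2 : (N : ℝ) * κ ≤ (N + 1) * (ε / (N + 1)) :=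
      mul_le_mul (by linarith) h1 hκ0.le (by positivity)
    have h3 : ((N : ℝ) + 1) * (ε / (N + 1)) = ε := by field_simp
    linarith
  obtain ⟨u', v', h1, h2, h3⟩ := key κ N hκ0 (min_le_right _ _) (by linarith)
  refine ⟨u', v', h1, ?_, ?_⟩
  · rw [lt_div_iff₀ hd0] at hN
    linarith
  · refine le_trans ?_ h3
    exact mul_le_mul_of_nonneg_right (by linarith) dist_nonneg

end step

end Pool.Agent.R280.Lip
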