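import Mathlib

/-!
The spaces `Lip_0(M, X)` and the Daugavet property.
-/

set_option autoImplicit false
set_option linter.unusedSectionVars false

open Set Topology Filter

universe u v w

namespace Pool.Agent.R280.Lip

/-- The vector space of Lipschitz maps `M → X` vanishing at the base point `o`. -/
def lipSub (M : Type u) [MetricSpace M] (o : M) (X : Type v) [NormedAddCommGroup X]
    [NormedSpace ℝ X] : Submodule ℝ (M → X) where
  carrier := {f | f o = 0 ∧ ∃ K : ℝ, 0 ≤ K ∧ ∀ x y, ‖f x - f y‖ ≤ K * dist x y}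
  zero_mem' := ⟨rfl, 0, le_rfl, fun x y => by simp⟩
  add_mem' := by
    rintro f g ⟨hf, K, hK, hfK⟩ ⟨hg, L, hL, hgL⟩
    refine ⟨by simp [hf, hg], K + L, by positivity, fun x y => ?_⟩
    have h1 := hfK x y
    have h2 := hgL x y
    have h3 : (f + g) x - (f + g) y = (f x - f y) + (g x - g y) := by
      simp only [Pi.add_apply]; abel
    rw [h3]
    calc _ ≤ ‖f x - f y‖ + ‖g x - g y‖ := norm_add_le _ _
      _ ≤ _ := by rw [add_mul]; exact add_le_add h1 h2
  smul_mem' := by
    rintro c f ⟨hf, K, hK, hfK⟩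
    refine ⟨by simp [hf], |c| * K, by positivity, fun x y => ?_⟩
    have h1 := hfK x y
    have h3 : (c • f) x - (c • f) y = c • (f x - f y) := by
      simp only [Pi.smul_apply, smul_sub]
    rw [h3, norm_smul, mul_assoc]
    exact mul_le_mul_of_nonneg_left h1 (abs_nonneg _)

/-- `LipZ M o X`: the space `Lip_0(M, X)` of Lipschitz maps `M → X` vanishing at `o`, to be normed
by the least Lipschitz constant. -/
def LipZ (M : Type u) [MetricSpace M] (o : M) (X : Type v) [NormedAddCommGroup X]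
    [NormedSpace ℝ X] : Type (max u v) := ↥(lipSub M o X)

variable {M : Type u} [MetricSpace M] {o : M} {X : Type v} [NormedAddCommGroup X] [NormedSpace ℝ X]

namespace LipZ

/-- The underlying function. -/
def fn (f : LipZ M o X) : M → X := f.1

section raw

/-- pointwise addition -/
local instance lipACG : AddCommGroup (LipZ M o X) := Submodule.addCommGroup (lipSub M o X)
/-- pointwise scalar multiplication -/
local instance lipMod : Module ℝ (LipZ M o X) := Submodule.module (lipSub M o X)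

/-- The norm: the least Lipschitz constant. -/
noncomputable instance : Norm (LipZ M o X) :=
  ⟨fun f => sInf {K : ℝ | 0 ≤ K ∧ ∀ x y, ‖f.fn x - f.fn y‖ ≤ K * dist x y}⟩

theorem ext {f g : LipZ M o X} (h : ∀ x, f.fn x = g.fn x) : f = g :=
  Subtype.ext (funext h)

theorem fn_add' (f g : LipZ M o X) (x : M) : (f + g).fn x = f.fn x + g.fn x := rfl
theorem fn_smul' (c : ℝ) (f : LipZ M o X) (x : M) : (c • f).fn x = c • f.fn x := rfl
theorem fn_zero' (x : M) : (0 : LipZ M o X).fn x = 0 := rfl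
@[simp] theorem fn_base (f : LipZ M o X) : f.fn o = 0 := f.2.1

/-- Constructor. -/
def mk' (f : M → X) (h0 : f o = 0) (K : ℝ) (hK : 0 ≤ K)
    (h : ∀ x y, ‖f x - f y‖ ≤ K * dist x y) : LipZ M o X := ⟨f, h0, K, hK, h⟩

@[simp] theorem fn_mk (f : M → X) (h0 : f o = 0) (K : ℝ) (hK : 0 ≤ K)
    (h : ∀ x y, ‖f x - f y‖ ≤ K * dist x y) (x : M) :
    (mk' f h0 K hK h : LipZ M o X).fn x = f x := rfl

theorem set_nonempty (f : LipZ M o X) :
    {K : ℝ | 0 ≤ K ∧ ∀ x y, ‖f.fn x - f.fn y‖ ≤ K * dist x y}.Nonempty := by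
  obtain ⟨K, hK, h⟩ := f.2.2
  exact ⟨K, hK, h⟩

theorem norm_le_of' (f : LipZ M o X) {K : ℝ} (hK : 0 ≤ K)
    (h : ∀ x y, ‖f.fn x - f.fn y‖ ≤ K * dist x y) : ‖f‖ ≤ K :=
  csInf_le ⟨0, fun _ h => h.1⟩ ⟨hK, h⟩

theorem norm_nonneg' (f : LipZ M o X) : 0 ≤ ‖f‖ :=
  le_csInf f.set_nonempty fun _ h => h.1

theorem sub_le' (f : LipZ M o X) (x y : M) : ‖f.fn x - f.fn y‖ ≤ ‖f‖ * dist x y := by
  rcases eq_or_ne x y with rfl | hxy
  · simp
  · have hd : 0 < dist x y := dist_pos.2 hxy
    rw [← div_le_iff₀ hd]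
    refine le_csInf f.set_nonempty ?_
    rintro K ⟨_, hK⟩
    rw [div_le_iff₀ hd]
    exact hK x y

theorem core : NormedSpace.Core ℝ (LipZ M o X) where
  norm_nonneg f := f.norm_nonneg'
  norm_smul c f := by
    apply le_antisymm
    · refine norm_le_of' _ (mul_nonneg (norm_nonneg _) f.norm_nonneg') fun x y => ?_
      have h1 := f.sub_le' x y
      have h3 : (c • f).fn x - (c • f).fn y = c • (f.fn x - f.fn y) := by
        simp only [fn_smul', smul_sub]
      rw [h3, norm_smul, mul_assoc]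
      exact mul_le_mul_of_nonneg_left h1 (abs_nonneg _)
    · rcases eq_or_ne c 0 with rfl | hc
      · simp only [norm_zero, zero_mul]; exact norm_nonneg' _
      · have hc' : 0 < ‖c‖ := norm_pos_iff.2 hc
        rw [← le_div_iff₀' hc']
        refine norm_le_of' _ (div_nonneg (norm_nonneg' _) hc'.le) fun x y => ?_
        have h1 := (c • f).sub_le' x y
        have h3 : (c • f).fn x - (c • f).fn y = c • (f.fn x - f.fn y) := by
          simp only [fn_smul', smul_sub]
        rw [h3, norm_smul] at h1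
        rw [div_mul_eq_mul_div, le_div_iff₀ hc', mul_comm]
        exact h1
  norm_triangle f g := by
    refine norm_le_of' _ (add_nonneg f.norm_nonneg' g.norm_nonneg') fun x y => ?_
    have h1 := f.sub_le' x y
    have h2 := g.sub_le' x y
    have h3 : (f + g).fn x - (f + g).fn y = (f.fn x - f.fn y) + (g.fn x - g.fn y) := by
      simp only [fn_add']; abel
    rw [h3]
    calc _ ≤ ‖f.fn x - f.fn y‖ + ‖g.fn x - g.fn y‖ := norm_add_le _ _
      _ ≤ _ := by rw [add_mul]; exact add_le_add h1 h2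
  norm_eq_zero_iff f := by
    constructor
    · intro h
      apply ext
      intro x
      have h1 := f.sub_le' x o
      rw [h, zero_mul, fn_base, sub_zero] at h1
      exact norm_le_zero_iff.1 h1
    · rintro rfl
      apply le_antisymm _ (norm_nonneg' _)
      refine norm_le_of' _ le_rfl fun x y => by simp [fn_zero']

noncomputable instance : NormedAddCommGroup (LipZ M o X) :=
  NormedAddCommGroup.ofCore (core (M := M) (o := o) (X := X))
noncomputable instance : NormedSpace ℝ (LipZ M o X) :=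
  NormedSpace.ofCore (core (M := M) (o := o) (X := X))

end raw

@[simp] theorem fn_add (f g : LipZ M o X) (x : M) : (f + g).fn x = f.fn x + g.fn x := rfl
@[simp] theorem fn_sub (f g : LipZ M o X) (x : M) : (f - g).fn x = f.fn x - g.fn x := rfl
@[simp] theorem fn_neg (f : LipZ M o X) (x : M) : (-f).fn x = - f.fn x := rfl
@[simp] theorem fn_smul (c : ℝ) (f : LipZ M o X) (x : M) : (c • f).fn x = c • f.fn x := rfl
@[simp] theorem fn_zero (x : M) : (0 : LipZ M o X).fn x = 0 := rfl

theorem norm_le_of (f : LipZ M o X) {K : ℝ} (hK : 0 ≤ K)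
    (h : ∀ x y, ‖f.fn x - f.fn y‖ ≤ K * dist x y) : ‖f‖ ≤ K := norm_le_of' f hK h

theorem sub_le (f : LipZ M o X) (x y : M) : ‖f.fn x - f.fn y‖ ≤ ‖f‖ * dist x y := sub_le' f x y

/-- evaluation of a difference -/
noncomputable def evd (x y : M) : LipZ M o X →L[ℝ] X :=
  LinearMap.mkContinuous
    { toFun := fun f => f.fn x - f.fn y
      map_add' := fun f g => by rw [fn_add, fn_add]; abel
      map_smul' := fun c f => by rw [fn_smul, fn_smul, RingHom.id_apply, smul_sub] }
    (dist x y) (fun f => by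
      rw [mul_comm]
      exact f.sub_le x y)

lemma evd_apply (x y : M) (f : LipZ M o X) : evd x y f = f.fn x - f.fn y := rfl

/-- large norms are seen by pairs of points -/
theorem exists_pair (f : LipZ M o X) {c : ℝ} (hc0 : 0 ≤ c) (hc : c < ‖f‖) :
    ∃ x y : M, x ≠ y ∧ c * dist x y < ‖f.fn x - f.fn y‖ := by
  by_contra hcon
  push Not at hcon
  refine absurd hc (not_lt.2 (norm_le_of f hc0 fun x y => ?_))
  rcases eq_or_ne x y with rfl | h
  · simp
  · exact hcon x y h

end LipZ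

/-- The Daugavet property: `‖I + T‖ = 1 + ‖T‖` for all operators `T = φ(·) g` of rank one. -/
def Daugavet (Y : Type w) [NormedAddCommGroup Y] [NormedSpace ℝ Y] : Prop :=
  ∀ (φ : Y →L[ℝ] ℝ) (g : Y), φ ≠ 0 → g ≠ 0 →
    ‖ContinuousLinearMap.id ℝ Y + φ.smulRight g‖ = 1 + ‖φ.smulRight g‖

section daug

variable {Y : Type w} [NormedAddCommGroup Y] [NormedSpace ℝ Y]

/-- the useful consequence of the Daugavet property -/
lemma Daugavet.exists_vec (hY : Daugavet Y) {φ : Y →L[ℝ] ℝ} {g : Y} (hφ : ‖φ‖ = 1) (hg : ‖g‖ = 1)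
    {κ : ℝ} (hκ : 0 < κ) : ∃ h : Y, ‖h‖ ≤ 1 ∧ 1 - κ ≤ φ h ∧ 2 - κ ≤ ‖h + g‖ := by
  have h1 := hY φ g (fun h => by rw [h, norm_zero] at hφ; norm_num at hφ)
    (fun h => by rw [h, norm_zero] at hg; norm_num at hg)
  rw [ContinuousLinearMap.norm_smulRight_apply, hφ, hg] at h1
  have h2 : 2 - κ / 2 < ‖ContinuousLinearMap.id ℝ Y + φ.smulRight g‖ := by
    rw [h1]; linarith
  obtain ⟨h, hh1, hh2⟩ : ∃ h : Y, ‖h‖ ≤ 1 ∧
      2 - κ / 2 < ‖(ContinuousLinearMap.id ℝ Y + φ.smulRight g) h‖ := by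
    by_contra hcon
    push Not at hcon
    refine absurd h2 (not_lt.2 ?_)
    rcases le_or_gt 0 (2 - κ / 2) with h0 | h0
    · exact ContinuousLinearMap.opNorm_le_of_unit_norm h0 (fun z hz => hcon z hz.le)
    · have := hcon 0 (by simp)
      rw [map_zero, norm_zero] at this
      linarith
  have key : ∀ h : Y, ‖h‖ ≤ 1 → 2 - κ / 2 < ‖h + φ h • g‖ → 0 ≤ φ h →
      1 - κ ≤ φ h ∧ 2 - κ ≤ ‖h + g‖ := by
    intro h hh1 hh2 hpos
    have h3 : ‖h + φ h • g‖ ≤ ‖h‖ + ‖φ h • g‖ := norm_add_le _ _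
    rw [norm_smul, hg, mul_one, Real.norm_of_nonneg hpos] at h3
    have h4 : 1 - κ / 2 < φ h := by linarith
    have h5 : φ h ≤ 1 := by
      have := (le_abs_self _).trans (φ.le_opNorm h)
      rw [hφ, one_mul] at this
      linarith
    refine ⟨by linarith, ?_⟩
    have h6 : h + φ h • g = (h + g) - (1 - φ h) • g := by
      rw [sub_smul, one_smul]; abel
    rw [h6] at hh2
    have h7 := norm_sub_le (h + g) ((1 - φ h) • g)
    rw [norm_smul, hg, mul_one, Real.norm_of_nonneg (by linarith)] at h7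
    linarith
  have hh2' : 2 - κ / 2 < ‖h + φ h • g‖ := hh2
  rcases le_total 0 (φ h) with hp | hp
  · exact ⟨h, hh1, key h hh1 hh2' hp⟩
  · refine ⟨-h, by rwa [norm_neg], key (-h) (by rwa [norm_neg]) ?_ (by rw [map_neg]; linarith)⟩
    rw [map_neg, neg_smul, ← neg_add, norm_neg]
    exact hh2'

/-- a sufficient condition for the Daugavet property -/
lemma daugavet_of (h : ∀ (φ : Y →L[ℝ] ℝ) (g : Y), ‖φ‖ = 1 → ‖g‖ = 1 → ∀ ε : ℝ, 0 < ε →
    ∃ v : Y, ‖v‖ ≤ 1 + ε ∧ |φ v - 1| ≤ ε ∧ 2 - ε ≤ ‖v + g‖) : Daugavet Y := by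
  intro φ g hφ hg
  have hφ0 : 0 < ‖φ‖ := norm_pos_iff.2 hφ
  have hg0 : 0 < ‖g‖ := norm_pos_iff.2 hg
  rw [ContinuousLinearMap.norm_smulRight_apply]
  refine le_antisymm ?_ ?_
  · refine (norm_add_le _ _).trans (add_le_add ContinuousLinearMap.norm_id_le ?_)
    rw [ContinuousLinearMap.norm_smulRight_apply]
  · set t := ‖φ‖ * ‖g‖ with ht
    have ht0 : 0 < t := by positivity
    -- normalise
    have key : ∀ ε : ℝ, 0 < ε → 1 + t ≤
        ‖ContinuousLinearMap.id ℝ Y + φ.smulRight g‖ * (1 + ε) + ε * (2 * (1 + t)) + t * ε := by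
      intro ε hε
      obtain ⟨v, hv1, hv2, hv3⟩ := h (‖φ‖⁻¹ • φ) (‖g‖⁻¹ • g)
        (by rw [norm_smul, norm_inv, norm_norm, inv_mul_cancel₀ hφ0.ne'])
        (by rw [norm_smul, norm_inv, norm_norm, inv_mul_cancel₀ hg0.ne']) ε hε
      set g1 := ‖g‖⁻¹ • g with hg1
      have hg1n : ‖g1‖ = 1 := by rw [hg1, norm_smul, norm_inv, norm_norm, inv_mul_cancel₀ hg0.ne']
      set s := (‖φ‖⁻¹ • φ) v with hs
      have h1 : (ContinuousLinearMap.id ℝ Y + φ.smulRight g) v = v + (t * s) • g1 := by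
        show v + φ v • g = _
        congr 1
        rw [hg1, smul_smul]
        congr 1
        rw [hs, ht]
        show φ v = ‖φ‖ * ‖g‖ * (‖φ‖⁻¹ * φ v) * ‖g‖⁻¹
        field_simp
      have h2 := (ContinuousLinearMap.id ℝ Y + φ.smulRight g).le_opNorm v
      rw [h1] at h2
      have h3 : ‖ContinuousLinearMap.id ℝ Y + φ.smulRight g‖ * ‖v‖ ≤
          ‖ContinuousLinearMap.id ℝ Y + φ.smulRight g‖ * (1 + ε) :=
        mul_le_mul_of_nonneg_left hv1 (norm_nonneg _)
      -- `‖v + t g1‖ ≥ 1 + t - O(ε)`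
      have h4 : 1 + t - ε * (2 * (1 + t)) ≤ ‖v + t • g1‖ := by
        rcases le_total t 1 with ht1 | ht1
        · have h5 : v + g1 = (v + t • g1) + (1 - t) • g1 := by
            rw [sub_smul, one_smul]; abel
          rw [h5] at hv3
          have h6 := norm_add_le (v + t • g1) ((1 - t) • g1)
          rw [norm_smul, hg1n, mul_one, Real.norm_of_nonneg (by linarith)] at h6
          nlinarith
        · have h5 : t • (v + g1) = (v + t • g1) + (t - 1) • v := by
            rw [smul_add, sub_smul, one_smul]; abel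
          have h6 := norm_add_le (v + t • g1) ((t - 1) • v)
          rw [← h5, norm_smul, norm_smul, Real.norm_of_nonneg ht0.le,
            Real.norm_of_nonneg (by linarith)] at h6
          have h7 := mul_le_mul_of_nonneg_left hv3 ht0.le
          have h8 := mul_le_mul_of_nonneg_left hv1 (show 0 ≤ t - 1 by linarith)
          nlinarith
      have h5 : v + t • g1 = (v + (t * s) • g1) - (t * (s - 1)) • g1 := by
        rw [mul_sub, mul_one, sub_smul]; abel
      have h6 := norm_sub_le (v + (t * s) • g1) ((t * (s - 1)) • g1)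
      rw [← h5, norm_smul, hg1n, mul_one, norm_mul, Real.norm_of_nonneg ht0.le,
        Real.norm_eq_abs] at h6
      have h7 := mul_le_mul_of_nonneg_left hv2 ht0.le
      linarith
    have hlim : Tendsto (fun n : ℕ => ‖ContinuousLinearMap.id ℝ Y + φ.smulRight g‖ *
        (1 + 1 / ((n : ℝ) + 1)) + 1 / ((n : ℝ) + 1) * (2 * (1 + t)) + t * (1 / ((n : ℝ) + 1))) atTop
        (𝓝 (‖ContinuousLinearMap.id ℝ Y + φ.smulRight g‖ * (1 + 0) + 0 * (2 * (1 + t)) + t * 0)) := by
      have h0 := tendsto_one_div_add_atTop_nhds_zero_nat (𝕜 := ℝ)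
      exact ((tendsto_const_nhds.mul (tendsto_const_nhds.add h0)).add
        (h0.mul tendsto_const_nhds)).add (tendsto_const_nhds.mul h0)
    have h1 := ge_of_tendsto' hlim fun n => key _ (by positivity)
    linarith

end daug

end Pool.Agent.R280.Lip
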