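import Mathlib

/-!
Ordered Banach spaces given by a closed cone: sequences, suprema, property (S), normality.
-/

set_option autoImplicit false

open Set Topology Filter
open scoped BoundedContinuousFunction

namespace Pool.Agent.R280.OrdBanach

section defs

variable {X : Type*} [NormedAddCommGroup X] [NormedSpace ℝ X]

/-- `K` is a closed cone: it is norm closed, closed under addition and under multiplication by
nonnegative reals, and `K ∩ (-K) = {0}`. -/
structure IsClosedCone (K : Set X) : Prop where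
  closed : IsClosed K
  add : ∀ x ∈ K, ∀ y ∈ K, x + y ∈ K
  smul : ∀ c : ℝ, 0 ≤ c → ∀ x ∈ K, c • x ∈ K
  pointed : K ∩ {x | -x ∈ K} = {0}

/-- The order given by the cone `K`: `x ≤ y` if and only if `y - x ∈ K`. -/
def Le (K : Set X) (x y : X) : Prop := y - x ∈ K

/-- The sequence `u` is increasing. -/
def IsIncreasing (K : Set X) (u : ℕ → X) : Prop := ∀ n, Le K (u n) (u (n + 1))

/-- The sequence `u` is order bounded. -/
def IsOrderBounded (K : Set X) (u : ℕ → X) : Prop := ∃ a b, ∀ n, Le K a (u n) ∧ Le K (u n) b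

/-- `s` is a supremum (least upper bound) of the sequence `u`. -/
def IsSupremum (K : Set X) (u : ℕ → X) (s : X) : Prop :=
  (∀ n, Le K (u n) s) ∧ ∀ v, (∀ n, Le K (u n) v) → Le K s v

/-- Property (S): every increasing order bounded sequence has a supremum. -/
def PropertyS (K : Set X) : Prop :=
  ∀ u : ℕ → X, IsIncreasing K u → IsOrderBounded K u → ∃ s, IsSupremum K u s

/-- The cone `K` is normal. -/
def IsNormalCone (K : Set X) : Prop :=
  ∃ c : ℝ, 0 < c ∧ ∀ x y, Le K 0 x → Le K x y → ‖x‖ ≤ c * ‖y‖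

end defs

variable {X : Type*} [NormedAddCommGroup X] [NormedSpace ℝ X] {K : Set X}

lemma IsClosedCone.zero (hK : IsClosedCone K) : (0 : X) ∈ K := by
  have : (0 : X) ∈ K ∩ {x | -x ∈ K} := by rw [hK.pointed]; rfl
  exact this.1

lemma IsClosedCone.eq_zero (hK : IsClosedCone K) {x : X} (h1 : x ∈ K) (h2 : -x ∈ K) : x = 0 := by
  have : x ∈ K ∩ {x | -x ∈ K} := ⟨h1, h2⟩
  rw [hK.pointed] at this
  exact this

lemma le_trans' (hK : IsClosedCone K) {x y z : X} (h1 : Le K x y) (h2 : Le K y z) : Le K x z := by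
  have := hK.add _ h1 _ h2
  unfold Le
  convert this using 1
  abel

lemma le_antisymm' (hK : IsClosedCone K) {x y : X} (h1 : Le K x y) (h2 : Le K y x) : x = y := by
  have : y - x = 0 := hK.eq_zero h1 (by rw [neg_sub]; exact h2)
  rw [sub_eq_zero] at this
  exact this.symm

lemma add_le_add' (hK : IsClosedCone K) {x y z w : X} (h1 : Le K x y) (h2 : Le K z w) :
    Le K (x + z) (y + w) := by
  have := hK.add _ h1 _ h2
  unfold Le
  convert this using 1
  abel

lemma smul_le (hK : IsClosedCone K) {x y : X} {c : ℝ} (hc : 0 ≤ c) (h1 : Le K x y) :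
    Le K (c • x) (c • y) := by
  have := hK.smul c hc _ h1
  unfold Le
  rwa [smul_sub] at this

lemma IsSupremum.unique (hK : IsClosedCone K) {u : ℕ → X} {s t : X} (hs : IsSupremum K u s)
    (ht : IsSupremum K u t) : s = t :=
  le_antisymm' hK (hs.2 t ht.1) (ht.2 s hs.1)

lemma IsIncreasing.mono (hK : IsClosedCone K) {u : ℕ → X} (hu : IsIncreasing K u) {m n : ℕ}
    (h : m ≤ n) : Le K (u m) (u n) := by
  induction n, h using Nat.le_induction with
  | base => unfold Le; rw [sub_self]; exact hK.zero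
  | succ n _ ih => exact le_trans' hK ih (hu n)

/-- partial sums -/
noncomputable def psum (d : ℕ → X) (t : ℕ → ℝ) (n : ℕ) : X := ∑ k ∈ Finset.range n, t k • d k

lemma psum_incr (hK : IsClosedCone K) {d : ℕ → X} (hd : ∀ k, d k ∈ K) {t : ℕ → ℝ}
    (ht : ∀ k, 0 ≤ t k) : IsIncreasing K (psum d t) := by
  intro n
  unfold Le psum
  rw [Finset.sum_range_succ, add_sub_cancel_left]
  exact hK.smul _ (ht n) _ (hd n)

lemma psum_nonneg (hK : IsClosedCone K) {d : ℕ → X} (hd : ∀ k, d k ∈ K) {t : ℕ → ℝ}
    (ht : ∀ k, 0 ≤ t k) (n : ℕ) : psum d t n ∈ K := by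
  have := (psum_incr hK hd ht).mono hK (Nat.zero_le n)
  unfold Le at this
  simpa [psum] using this

lemma psum_add (d : ℕ → X) (s t : ℕ → ℝ) (n : ℕ) :
    psum d (fun k => s k + t k) n = psum d s n + psum d t n := by
  simp [psum, add_smul, Finset.sum_add_distrib]

lemma psum_smul (d : ℕ → X) (c : ℝ) (t : ℕ → ℝ) (n : ℕ) :
    psum d (fun k => c * t k) n = c • psum d t n := by
  simp [psum, mul_smul, Finset.smul_sum]

lemma psum_sup (hK : IsClosedCone K) (hS : PropertyS K) {d : ℕ → X} (hd : ∀ k, d k ∈ K) {y : X}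
    (hy : ∀ n, Le K (psum d (fun _ => 1) n) y) {t : ℕ → ℝ} (ht : ∀ k, 0 ≤ t k) {C : ℝ}
    (hC : ∀ k, t k ≤ C) : ∃ s, IsSupremum K (psum d t) s := by
  have hC0 : 0 ≤ C := (ht 0).trans (hC 0)
  refine hS _ (psum_incr hK hd ht) ⟨0, C • y, fun n => ⟨?_, ?_⟩⟩
  · unfold Le; rw [sub_zero]; exact psum_nonneg hK hd ht n
  · have h1 : Le K (psum d t n) (C • psum d (fun _ => 1) n) := by
      have h2 : C • psum d (fun _ => 1) n - psum d t n = psum d (fun k => C - t k) n := by
        simp [psum, Finset.smul_sum, sub_smul, Finset.sum_sub_distrib]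
      unfold Le
      rw [h2]
      exact psum_nonneg hK hd (fun k => sub_nonneg.2 (hC k)) n
    exact le_trans' hK h1 (smul_le hK hC0 (hy n))

lemma sup_add (hK : IsClosedCone K) {d : ℕ → X} (hd : ∀ k, d k ∈ K) {s t : ℕ → ℝ}
    (hs : ∀ k, 0 ≤ s k) (ht : ∀ k, 0 ≤ t k) {a b : X} (ha : IsSupremum K (psum d s) a)
    (hb : IsSupremum K (psum d t) b) : IsSupremum K (psum d (fun k => s k + t k)) (a + b) := by
  constructor
  · intro n
    rw [psum_add]
    exact add_le_add' hK (ha.1 n) (hb.1 n)
  · intro v hv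
    have h1 : ∀ m, Le K (psum d t m) (v - a) := by
      intro m
      have h2 : ∀ n, Le K (psum d s n) (v - psum d t m) := by
        intro n
        have h3 := hv (max n m)
        rw [psum_add] at h3
        have h4 := (psum_incr hK hd hs).mono hK (le_max_left n m)
        have h5 := (psum_incr hK hd ht).mono hK (le_max_right n m)
        have h6 := le_trans' hK (add_le_add' hK h4 h5) h3
        unfold Le at h6 ⊢
        convert h6 using 1
        abel
      have h3 := ha.2 _ h2
      unfold Le at h3 ⊢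
      convert h3 using 1
      abel
    have h2 := hb.2 _ h1
    unfold Le at h2 ⊢
    convert h2 using 1
    abel

lemma sup_smul (hK : IsClosedCone K) {d : ℕ → X} {t : ℕ → ℝ} {a : X}
    (ha : IsSupremum K (psum d t) a) {c : ℝ} (hc : 0 ≤ c) :
    IsSupremum K (psum d (fun k => c * t k)) (c • a) := by
  constructor
  · intro n
    rw [psum_smul]
    exact smul_le hK hc (ha.1 n)
  · intro v hv
    rcases hc.eq_or_lt with rfl | hc
    · have := hv 0
      rw [psum_smul] at this
      simpa using this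
    · have h1 : ∀ n, Le K (psum d t n) (c⁻¹ • v) := by
        intro n
        have := smul_le hK (inv_nonneg.2 hc.le) (hv n)
        rw [psum_smul, smul_smul, inv_mul_cancel₀ hc.ne', one_smul] at this
        exact this
      have h2 := smul_le hK hc.le (ha.2 _ h1)
      rw [smul_smul, mul_inv_cancel₀ hc.ne', one_smul] at h2
      exact h2

/-- an increasing bounded series of positive elements gives an operator on `ℓ_∞` -/
theorem exists_operator [CompleteSpace X] (hK : IsClosedCone K) (hS : PropertyS K) {d : ℕ → X}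
    (hd : ∀ k, d k ∈ K) {y : X} (hy : ∀ n, Le K (∑ k ∈ Finset.range n, d k) y) :
    ∃ T : (ℕ →ᵇ ℝ) →L[ℝ] X, ∀ (k : ℕ) (f : ℕ →ᵇ ℝ), f k = 1 → (∀ j, j ≠ k → f j = 0) →
      T f = d k := by
  classical
  have hy' : ∀ n, Le K (psum d (fun _ => 1) n) y := by
    intro n; simpa [psum] using hy n
  have hex : ∀ (f : ℕ →ᵇ ℝ) (c : ℝ), (∀ k, 0 ≤ f k + c) →
      ∃ s, IsSupremum K (psum d (fun k => f k + c)) s := by
    intro f c hf
    refine psum_sup hK hS hd hy' hf (C := ‖f‖ + c) fun k => ?_
    have := (le_abs_self (f k)).trans (f.norm_coe_le_norm k)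
    linarith
  have hexc : ∀ c : ℝ, 0 ≤ c → ∃ s, IsSupremum K (psum d (fun _ => c)) s := by
    intro c hc
    exact psum_sup hK hS hd hy' (fun _ => hc) (C := c) fun k => le_rfl
  obtain ⟨e, he⟩ := hexc 1 zero_le_one
  have hec : ∀ c : ℝ, 0 ≤ c → IsSupremum K (psum d (fun _ => c)) (c • e) := by
    intro c hc
    have := sup_smul hK he hc
    simpa using this
  have hnn : ∀ (f : ℕ →ᵇ ℝ) (k : ℕ), 0 ≤ f k + ‖f‖ := by
    intro f k
    have := (neg_abs_le (f k))
    have h2 : |f k| ≤ ‖f‖ := f.norm_coe_le_norm k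
    linarith
  choose S hSS using fun f : ℕ →ᵇ ℝ => hex f ‖f‖ (hnn f)
  set T : (ℕ →ᵇ ℝ) → X := fun f => S f - ‖f‖ • e with hT
  -- the main property
  have hmain : ∀ (f : ℕ →ᵇ ℝ) (c : ℝ), (∀ k, 0 ≤ f k + c) →
      IsSupremum K (psum d (fun k => f k + c)) (T f + c • e) := by
    intro f c hf
    obtain ⟨w, hw⟩ := hex f c hf
    set M := max c ‖f‖ with hM
    have h1 : IsSupremum K (psum d (fun k => f k + M)) (w + (M - c) • e) := by
      have := sup_add hK hd hf (fun _ => sub_nonneg.2 (le_max_left c ‖f‖)) hw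
        (hec (M - c) (sub_nonneg.2 (le_max_left c ‖f‖)))
      convert this using 3
      rw [hM]; ring
    have h2 : IsSupremum K (psum d (fun k => f k + M)) (S f + (M - ‖f‖) • e) := by
      have := sup_add hK hd (hnn f) (fun _ => sub_nonneg.2 (le_max_right c ‖f‖)) (hSS f)
        (hec (M - ‖f‖) (sub_nonneg.2 (le_max_right c ‖f‖)))
      convert this using 3
      rw [hM]; ring
    have h3 := h1.unique hK h2
    have h4 : w = T f + c • e := by
      have h5 : w = S f + (M - ‖f‖) • e - (M - c) • e := by rw [← h3]; abel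
      have h6 : T f = S f - ‖f‖ • e := rfl
      rw [h5, h6]
      module
    rw [← h4]
    exact hw
  have hadd : ∀ f g, T (f + g) = T f + T g := by
    intro f g
    have h1 := sup_add hK hd (hnn f) (hnn g) (hmain f _ (hnn f)) (hmain g _ (hnn g))
    have h2 := hmain (f + g) (‖f‖ + ‖g‖) (fun k => by
      have := hnn f k; have := hnn g k
      rw [BoundedContinuousFunction.coe_add, Pi.add_apply]; linarith)
    have h3 : (fun k => f k + ‖f‖ + (g k + ‖g‖)) = fun k => (f + g) k + (‖f‖ + ‖g‖) := by
      funext k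
      rw [BoundedContinuousFunction.coe_add, Pi.add_apply]; ring
    rw [h3] at h1
    have h4 := h2.unique hK h1
    rw [add_smul] at h4
    have h5 : T (f + g) = T f + ‖f‖ • e + (T g + ‖g‖ • e) - (‖f‖ • e + ‖g‖ • e) := by
      rw [← h4]; abel
    rw [h5]; abel
  have hsmul0 : ∀ (c : ℝ), 0 ≤ c → ∀ f, T (c • f) = c • T f := by
    intro c hc f
    have h1 := sup_smul hK (hmain f _ (hnn f)) hc
    have h2 := hmain (c • f) (c * ‖f‖) (fun k => by
      have := mul_nonneg hc (hnn f k)
      rw [BoundedContinuousFunction.coe_smul]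
      simp only [Pi.smul_apply, smul_eq_mul]; linarith)
    have h3 : (fun k => c * (f k + ‖f‖)) = fun k => (c • f) k + c * ‖f‖ := by
      funext k
      rw [BoundedContinuousFunction.coe_smul]
      simp only [Pi.smul_apply, smul_eq_mul]; ring
    rw [h3] at h1
    have h4 := h2.unique hK h1
    rw [smul_add, smul_smul] at h4
    exact add_right_cancel h4
  have hzero : T 0 = 0 := by
    have := hsmul0 0 le_rfl 0
    simpa using this
  have hneg : ∀ f, T (-f) = -T f := by
    intro f
    have := hadd f (-f)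
    rw [add_neg_cancel, hzero] at this
    exact (neg_eq_of_add_eq_zero_right this.symm).symm
  have hsmul : ∀ (c : ℝ) (f), T (c • f) = c • T f := by
    intro c f
    rcases le_total 0 c with hc | hc
    · exact hsmul0 c hc f
    · have h1 := hsmul0 (-c) (neg_nonneg.2 hc) f
      have h2 : c • f = -((-c) • f) := by ext k; simp
      rw [h2, hneg, h1, neg_smul, neg_neg]
  have hpos : ∀ f : ℕ →ᵇ ℝ, (∀ k, 0 ≤ f k) → T f ∈ K := by
    intro f hf
    have h1 := hmain f 0 (fun k => by simpa using hf k)
    have h2 := h1.1 0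
    unfold Le at h2
    simpa [psum] using h2
  let T' : (ℕ →ᵇ ℝ) →ₗ[ℝ] X := { toFun := T, map_add' := hadd, map_smul' := hsmul }
  have hcont : Continuous T' := by
    refine LinearMap.continuous_of_seq_closed_graph T' ?_
    intro u x z hu hz
    have hv : Tendsto (fun n => ‖u n - x‖) atTop (𝓝 0) := by
      have := (hu.sub_const x).norm
      simpa using this
    have hw : Tendsto (fun n => T (u n - x)) atTop (𝓝 (z - T x)) := by
      have h1 : (fun n => T (u n - x)) = fun n => T (u n) - T x := by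
        funext n
        rw [sub_eq_add_neg, hadd, hneg]
        abel
      rw [h1]
      exact hz.sub_const _
    have h1 : ∀ n, ‖u n - x‖ • e + T (u n - x) ∈ K := by
      intro n
      have h2 : IsSupremum K (psum d (fun k => (u n - x) k + ‖u n - x‖))
        (T (u n - x) + ‖u n - x‖ • e) := hmain _ _ (hnn _)
      have h3 := h2.1 0
      unfold Le at h3
      rw [add_comm]
      simpa [psum] using h3
    have h1' : ∀ n, ‖u n - x‖ • e - T (u n - x) ∈ K := by
      intro n
      have h2 : IsSupremum K (psum d (fun k => (-(u n - x)) k + ‖-(u n - x)‖))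
        (T (-(u n - x)) + ‖-(u n - x)‖ • e) := hmain _ _ (hnn _)
      have h3 := h2.1 0
      unfold Le at h3
      rw [hneg, norm_neg] at h3
      have h4 : ‖u n - x‖ • e - T (u n - x) = -T (u n - x) + ‖u n - x‖ • e := by abel
      rw [h4]
      simpa [psum] using h3
    have h2 : Tendsto (fun n => ‖u n - x‖ • e + T (u n - x)) atTop (𝓝 ((0 : ℝ) • e + (z - T x))) :=
      (hv.smul_const e).add hw
    have h2' : Tendsto (fun n => ‖u n - x‖ • e - T (u n - x)) atTop
        (𝓝 ((0 : ℝ) • e - (z - T x))) := (hv.smul_const e).sub hw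
    have h3 := hK.closed.mem_of_tendsto h2 (Eventually.of_forall h1)
    have h3' := hK.closed.mem_of_tendsto h2' (Eventually.of_forall h1')
    rw [zero_smul, zero_add] at h3
    rw [zero_smul, zero_sub] at h3'
    have h4 := hK.eq_zero h3 h3'
    rw [sub_eq_zero] at h4
    exact h4
  refine ⟨⟨T', hcont⟩, ?_⟩
  intro k f hfk hf0
  have hf : ∀ j, 0 ≤ f j := by
    intro j
    by_cases h : j = k
    · subst h; rw [hfk]; exact zero_le_one
    · rw [hf0 j h]
  have h1 := hmain f 0 (fun j => by simpa using hf j)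
  have h2 : IsSupremum K (psum d (fun j => f j + 0)) (d k) := by
    have hval : ∀ n, psum d (fun j => f j + 0) n = if k < n then d k else 0 := by
      intro n
      unfold psum
      simp only [add_zero]
      by_cases hn : k < n
      · rw [if_pos hn, Finset.sum_eq_single k]
        · rw [hfk, one_smul]
        · intro j _ hj; rw [hf0 j hj, zero_smul]
        · intro h; exact absurd (Finset.mem_range.2 hn) h
      · rw [if_neg hn]
        refine Finset.sum_eq_zero fun j hj => ?_
        rw [hf0 j (by rintro rfl; exact hn (Finset.mem_range.1 hj)), zero_smul]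
    constructor
    · intro n
      rw [hval]
      unfold Le
      split_ifs
      · rw [sub_self]; exact hK.zero
      · rw [sub_zero]; exact hd k
    · intro v hv
      have := hv (k + 1)
      rw [hval, if_pos (Nat.lt_succ_self k)] at this
      exact this
  have h3 := h1.unique hK h2
  rw [zero_smul, add_zero] at h3
  exact h3

/-- unit vectors of `ℓ_∞` -/
noncomputable def unitVec (k : ℕ) : ℕ →ᵇ ℝ :=
  BoundedContinuousFunction.ofNormedAddCommGroupDiscrete (fun j => if j = k then 1 else 0) 1
    (fun j => by split_ifs <;> simp)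

lemma unitVec_self (k : ℕ) : unitVec k k = 1 := by
  show (if k = k then (1 : ℝ) else 0) = 1
  simp

lemma unitVec_ne (k j : ℕ) (h : j ≠ k) : unitVec k j = 0 := by
  show (if j = k then (1 : ℝ) else 0) = 0
  simp [h]

lemma norm_unitVec (k : ℕ) : ‖unitVec k‖ ≤ 1 := by
  rw [BoundedContinuousFunction.norm_le zero_le_one]
  intro j
  show ‖(if j = k then (1 : ℝ) else 0)‖ ≤ 1
  split_ifs <;> simp

/-- property (S) implies that the cone is normal -/
theorem normal_of_propertyS [CompleteSpace X] (hK : IsClosedCone K) (hS : PropertyS K) :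
    IsNormalCone K := by
  by_contra hcon
  have h1 : ∀ n : ℕ, ∃ x y, x ∈ K ∧ Le K x y ∧ ‖y‖ ≤ (1 / 2 : ℝ) ^ n ∧ (2 : ℝ) ^ n < ‖x‖ := by
    intro n
    have h2 : ∃ x y, Le K 0 x ∧ Le K x y ∧ (4 : ℝ) ^ n * ‖y‖ < ‖x‖ := by
      by_contra h3
      push Not at h3
      exact hcon ⟨4 ^ n, by positivity, h3⟩
    obtain ⟨x, y, hx, hxy, h3⟩ := h2
    have hx' : x ∈ K := by unfold Le at hx; rwa [sub_zero] at hx
    have hy0 : y ≠ 0 := by
      rintro rfl
      have : x = 0 := hK.eq_zero hx' (by unfold Le at hxy; rwa [zero_sub] at hxy)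
      rw [this] at h3
      simp at h3
    have hyn : 0 < ‖y‖ := norm_pos_iff.2 hy0
    set r : ℝ := (2 ^ n * ‖y‖)⁻¹ with hr
    have hr0 : 0 < r := by positivity
    refine ⟨r • x, r • y, hK.smul r hr0.le x hx', smul_le hK hr0.le hxy, ?_, ?_⟩
    · rw [norm_smul, Real.norm_of_nonneg hr0.le, hr, mul_inv, mul_assoc,
        inv_mul_cancel₀ hyn.ne', mul_one, one_div, inv_pow]
    · rw [norm_smul, Real.norm_of_nonneg hr0.le]
      have h4 : r * (4 ^ n * ‖y‖) < r * ‖x‖ := mul_lt_mul_of_pos_left h3 hr0
      have h5 : r * (4 ^ n * ‖y‖) = 2 ^ n := by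
        rw [hr]
        have : (4 : ℝ) ^ n = 2 ^ n * 2 ^ n := by rw [← mul_pow]; norm_num
        rw [this]
        field_simp
      rw [← h5]
      exact h4
  choose x y hx hxy hy hxn using h1
  have hsum : Summable y := by
    refine Summable.of_norm_bounded (g := fun n => (1 / 2 : ℝ) ^ n)
      (summable_geometric_of_lt_one (by norm_num) (by norm_num)) hy
  have hyK : ∀ n, y n ∈ K := by
    intro n
    have := hK.add _ (hxy n) _ (hx n)
    simpa using this
  have hb : ∀ n, Le K (∑ k ∈ Finset.range n, x k) (∑' k, y k) := by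
    intro n
    have h2 : ∀ m, n ≤ m → Le K (∑ k ∈ Finset.range n, x k) (∑ k ∈ Finset.range m, y k) := by
      intro m hm
      induction m, hm using Nat.le_induction with
      | base =>
        unfold Le
        rw [← Finset.sum_sub_distrib]
        refine Finset.sum_induction _ (fun z => z ∈ K) (fun a b ha hb => hK.add a ha b hb)
          hK.zero (fun k _ => hxy k)
      | succ m _ ih =>
        rw [Finset.sum_range_succ]
        have := hK.add _ ih _ (hyK m)
        unfold Le
        convert this using 1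
        abel
    have h3 : Tendsto (fun m => (∑ k ∈ Finset.range m, y k) - ∑ k ∈ Finset.range n, x k) atTop
        (𝓝 ((∑' k, y k) - ∑ k ∈ Finset.range n, x k)) := hsum.hasSum.tendsto_sum_nat.sub_const _
    exact hK.closed.mem_of_tendsto h3 (eventually_atTop.2 ⟨n, h2⟩)
  obtain ⟨T, hT⟩ := exists_operator hK hS hx hb
  have h2 : ∀ k, (2 : ℝ) ^ k < ‖T‖ := by
    intro k
    have h3 := hT k (unitVec k) (unitVec_self k) (fun j hj => unitVec_ne k j hj)
    have h4 := T.le_opNorm (unitVec k)
    rw [h3] at h4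
    calc (2 : ℝ) ^ k < ‖x k‖ := hxn k
      _ ≤ ‖T‖ * ‖unitVec k‖ := h4
      _ ≤ ‖T‖ * 1 := mul_le_mul_of_nonneg_left (norm_unitVec k) (norm_nonneg T)
      _ = ‖T‖ := mul_one _
  obtain ⟨k, hk⟩ := pow_unbounded_of_one_lt ‖T‖ (by norm_num : (1 : ℝ) < 2)
  exact absurd (h2 k) (not_lt.2 hk.le)

end Pool.Agent.R280.OrdBanach
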