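import Pool.Agent.R280.OrdBanach

/-!
An ordered Banach space with normal cone in which an increasing sequence has several minimal upper
bounds and in which every increasing net with a supremum converges in norm.
-/

set_option autoImplicit false

open Set Topology Filter

namespace Pool.Agent.R280.OrdBanach

section defs

variable {X : Type*} [NormedAddCommGroup X] [NormedSpace ℝ X]

/-- The family `x` over the preordered set `J` is increasing. -/
def IsIncreasingNet (K : Set X) {J : Type*} [Preorder J] (x : J → X) : Prop :=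
  ∀ i j, i ≤ j → Le K (x i) (x j)

/-- `u` is an upper bound of the family `x`. -/
def IsUpperBound (K : Set X) {J : Type*} (x : J → X) (u : X) : Prop := ∀ j, Le K (x j) u

/-- `u` is a minimal upper bound of the family `x`: an upper bound such that no upper bound
`v ≠ u` satisfies `v ≤ u`. -/
def IsMinimalUpperBound (K : Set X) {J : Type*} (x : J → X) (u : X) : Prop :=
  IsUpperBound K x u ∧ ∀ v, IsUpperBound K x v → Le K v u → v = u

/-- `u` is the supremum (smallest upper bound) of the family `x`. -/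
def IsSmallestUpperBound (K : Set X) {J : Type*} (x : J → X) (u : X) : Prop :=
  IsUpperBound K x u ∧ ∀ v, IsUpperBound K x v → Le K u v

end defs

/-- the Banach space `c ⊕ ℝ` -/
abbrev XX : Type := C(OnePoint ℕ, ℝ) × ℝ

/-- the cone `{(f, a) : f ≥ 0, 0 ≤ a ≤ f(∞)}` -/
def KK : Set XX := {p | (∀ k, 0 ≤ p.1 k) ∧ 0 ≤ p.2 ∧ p.2 ≤ p.1 OnePoint.infty}

lemma le_iff {p q : XX} : Le KK p q ↔ (∀ k, p.1 k ≤ q.1 k) ∧ p.2 ≤ q.2 ∧
    q.2 - p.2 ≤ q.1 OnePoint.infty - p.1 OnePoint.infty := by
  show ((∀ k, 0 ≤ q.1 k - p.1 k) ∧ 0 ≤ q.2 - p.2 ∧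
    q.2 - p.2 ≤ q.1 OnePoint.infty - p.1 OnePoint.infty) ↔ _
  simp only [sub_nonneg]

lemma isClosedCone_KK : IsClosedCone KK := by
  refine ⟨?_, ?_, ?_, ?_⟩
  · have h1 : KK = (⋂ k, {p : XX | 0 ≤ p.1 k}) ∩ ({p : XX | 0 ≤ p.2} ∩
        {p : XX | p.2 ≤ p.1 OnePoint.infty}) := by
      ext p
      simp [KK]
    have hev : ∀ k, Continuous fun p : XX => p.1 k := fun k =>
      (continuous_eval_const k).comp continuous_fst
    rw [h1]
    refine (isClosed_iInter fun k => ?_).inter (IsClosed.inter ?_ ?_)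
    · exact isClosed_le continuous_const (hev k)
    · exact isClosed_le continuous_const continuous_snd
    · exact isClosed_le continuous_snd (hev _)
  · rintro p ⟨hp, hp2, hp3⟩ q ⟨hq, hq2, hq3⟩
    exact ⟨fun k => add_nonneg (hp k) (hq k), add_nonneg hp2 hq2, add_le_add hp3 hq3⟩
  · rintro c hc p ⟨hp, hp2, hp3⟩
    exact ⟨fun k => mul_nonneg hc (hp k), mul_nonneg hc hp2, mul_le_mul_of_nonneg_left hp3 hc⟩
  · ext p
    constructor
    · rintro ⟨⟨hp, hp2, hp3⟩, ⟨hq, hq2, hq3⟩⟩
      simp only [Prod.fst_neg, Prod.snd_neg, ContinuousMap.neg_apply] at hq hq2 hq3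
      have h1 : p.1 = 0 := by
        ext k
        have := hp k
        have := hq k
        simp only [ContinuousMap.zero_apply]
        linarith
      have h2 : p.2 = 0 := by linarith
      exact Prod.ext h1 h2
    · rintro rfl
      exact ⟨⟨fun k => le_rfl, le_rfl, le_rfl⟩, ⟨fun k => by simp, by simp, by simp⟩⟩

lemma isNormalCone_KK : IsNormalCone KK := by
  refine ⟨1, one_pos, fun p q hp hpq => ?_⟩
  rw [le_iff] at hp hpq
  simp only [Prod.fst_zero, Prod.snd_zero, ContinuousMap.zero_apply, sub_zero] at hp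
  rw [one_mul, Prod.norm_def, Prod.norm_def]
  refine max_le_max ?_ ?_
  · rw [ContinuousMap.norm_le _ (norm_nonneg _)]
    intro k
    rw [Real.norm_of_nonneg (hp.1 k)]
    refine (hpq.1 k).trans ((le_abs_self _).trans ?_)
    exact ContinuousMap.norm_coe_le_norm q.1 k
  · rw [Real.norm_of_nonneg hp.2.1]
    exact hpq.2.1.trans (le_abs_self _)

/-- continuous functions on `OnePoint ℕ` which are eventually constant -/
noncomputable def evc (f : ℕ → ℝ) (c : ℝ) (h : Tendsto f atTop (𝓝 c)) : C(OnePoint ℕ, ℝ) :=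
  OnePoint.continuousMapMkNat f c h

lemma evc_coe (f : ℕ → ℝ) (c : ℝ) (h : Tendsto f atTop (𝓝 c)) (n : ℕ) : evc f c h n = f n := rfl

lemma evc_infty (f : ℕ → ℝ) (c : ℝ) (h : Tendsto f atTop (𝓝 c)) :
    evc f c h OnePoint.infty = c := rfl

lemma tendsto_init (n : ℕ) : Tendsto (fun k : ℕ => if k ≤ n then (1 : ℝ) else 0) atTop (𝓝 0) := by
  refine tendsto_const_nhds.congr' ?_
  filter_upwards [eventually_gt_atTop n] with k hk
  rw [if_neg (not_le.2 hk)]

lemma tendsto_single (n : ℕ) (c : ℝ) :
    Tendsto (fun k : ℕ => if k = n then c else 0) atTop (𝓝 0) := by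
  refine tendsto_const_nhds.congr' ?_
  filter_upwards [eventually_gt_atTop n] with k hk
  rw [if_neg hk.ne']

/-- the sequence -/
noncomputable def seq (n : ℕ) : XX := (evc _ 0 (tendsto_init n), 0)

lemma seq_incr : IsIncreasingNet KK seq := by
  intro m n hmn
  rw [le_iff]
  refine ⟨fun k => ?_, le_rfl, by simp [seq, evc_infty]⟩
  induction k using OnePoint.rec with
  | infty => simp [seq, evc_infty]
  | coe k =>
    simp only [seq, evc_coe]
    by_cases h : k ≤ m
    · rw [if_pos h, if_pos (h.trans hmn)]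
    · rw [if_neg h]; split_ifs <;> norm_num

lemma seq_ub_iff (u : XX) : IsUpperBound KK seq u ↔ (∀ k : ℕ, 1 ≤ u.1 k) ∧ 0 ≤ u.2 ∧
    u.2 ≤ u.1 OnePoint.infty ∧ 0 ≤ u.1 OnePoint.infty := by
  constructor
  · intro h
    refine ⟨fun k => ?_, ?_, ?_, ?_⟩
    · have := (le_iff.1 (h k)).1 k
      simpa [seq, evc_coe] using this
    · have := (le_iff.1 (h 0)).2.1
      simpa [seq] using this
    · have := (le_iff.1 (h 0)).2.2
      simpa [seq, evc_infty] using this
    · have := (le_iff.1 (h 0)).1 OnePoint.infty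
      simpa [seq, evc_infty] using this
  · rintro ⟨h1, h2, h3, h4⟩ n
    rw [le_iff]
    refine ⟨fun k => ?_, by simpa [seq] using h2, by simpa [seq, evc_infty] using h3⟩
    induction k using OnePoint.rec with
    | infty => simpa [seq, evc_infty] using h4
    | coe k =>
      simp only [seq, evc_coe]
      split_ifs
      · exact h1 k
      · exact zero_le_one.trans (h1 k)

/-- an upper bound of the sequence is at least 1 at infinity -/
lemma one_le_infty {f : C(OnePoint ℕ, ℝ)} (h : ∀ k : ℕ, 1 ≤ f k) : 1 ≤ f OnePoint.infty := by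
  have h1 : Tendsto (fun n : ℕ => f n) atTop (𝓝 (f OnePoint.infty)) := by
    have h2 : Tendsto (fun n : ℕ => (n : OnePoint ℕ)) atTop (𝓝 OnePoint.infty) := by
      have := OnePoint.tendsto_coe_infty (X := ℕ)
      simpa [Nat.cofinite_eq_atTop] using this
    exact (f.continuous.tendsto _).comp h2
  exact ge_of_tendsto' h1 h

/-- the minimal upper bounds -/
noncomputable def mub (a : ℝ) : XX := (1, a)

lemma mub_isMin (a : ℝ) (h0 : 0 ≤ a) (h1 : a ≤ 1) : IsMinimalUpperBound KK seq (mub a) := by
  refine ⟨(seq_ub_iff _).2 ⟨fun k => by simp [mub], h0, by simpa [mub] using h1, by simp [mub]⟩, ?_⟩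
  intro v hv hva
  rw [seq_ub_iff] at hv
  rw [le_iff] at hva
  simp only [mub, ContinuousMap.one_apply] at hva
  have h2 := one_le_infty hv.1
  have h3 : v.1 = 1 := by
    ext k
    refine le_antisymm (by simpa using hva.1 k) ?_
    induction k using OnePoint.rec with
    | infty => simpa using h2
    | coe k => simpa using hv.1 k
  refine Prod.ext h3 ?_
  have h4 := hva.2.2
  rw [h3] at h4
  simp only [ContinuousMap.one_apply, sub_self] at h4
  have h5 := hva.2.1
  show v.2 = a
  linarith

lemma seq_no_sup : ¬ ∃ s, IsSmallestUpperBound KK seq s := by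
  rintro ⟨s, hs, hs2⟩
  have h0 := mub_isMin 0 le_rfl zero_le_one
  have h1 := mub_isMin 1 zero_le_one le_rfl
  have e0 := h0.2 s hs (hs2 _ h0.1)
  have e1 := h1.2 s hs (hs2 _ h1.1)
  rw [e0] at e1
  have := congrArg Prod.snd e1
  simp [mub] at this

lemma seq_not_tendsto : ¬ ∃ s, Tendsto seq atTop (𝓝 s) := by
  rintro ⟨s, hs⟩
  have h1 := hs.cauchySeq
  rw [Metric.cauchySeq_iff'] at h1
  obtain ⟨N, hN⟩ := h1 1 one_pos
  have h2 := hN (N + 1) (Nat.le_succ N)
  rw [dist_eq_norm] at h2
  have h3 : ‖(seq (N + 1) - seq N).1 ((N + 1 : ℕ) : OnePoint ℕ)‖ ≤ ‖seq (N + 1) - seq N‖ :=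
    (ContinuousMap.norm_coe_le_norm _ _).trans (le_max_left _ _)
  have h4 : (seq (N + 1) - seq N).1 ((N + 1 : ℕ) : OnePoint ℕ) = 1 := by
    rw [Prod.fst_sub, ContinuousMap.sub_apply]
    simp only [seq, evc_coe]
    simp
  rw [h4, norm_one] at h3
  linarith

universe u

/-- nets with a supremum converge -/
lemma net_tendsto {J : Type u} [Preorder J] (x : J → XX) (s : XX) (hx : IsIncreasingNet KK x)
    (hs : IsSmallestUpperBound KK x s) : Tendsto x atTop (𝓝 s) := by
  have hub : ∀ j, (∀ k, (x j).1 k ≤ s.1 k) ∧ (x j).2 ≤ s.2 ∧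
      s.2 - (x j).2 ≤ s.1 OnePoint.infty - (x j).1 OnePoint.infty := fun j => le_iff.1 (hs.1 j)
  -- second coordinate
  have hsnd : Tendsto (fun j => (x j).2) atTop (𝓝 s.2) := by
    refine tendsto_atTop_isLUB (fun i j hij => (le_iff.1 (hx i j hij)).2.1) ⟨?_, ?_⟩
    · rintro _ ⟨j, rfl⟩; exact (hub j).2.1
    · intro c hc
      by_contra hcs
      push Not at hcs
      have h1 : IsUpperBound KK x (s.1, c) := by
        intro j
        rw [le_iff]
        have h2 : (x j).2 ≤ c := hc ⟨j, rfl⟩
        have h3 := hub j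
        refine ⟨h3.1, h2, ?_⟩
        show c - (x j).2 ≤ s.1 OnePoint.infty - (x j).1 OnePoint.infty
        linarith [h3.2.2]
      have h2 := (le_iff.1 (hs.2 _ h1)).2.1
      exact absurd h2 (not_le.2 hcs)
  have hdiff : Tendsto (fun j => (x j).1 OnePoint.infty - (x j).2) atTop
      (𝓝 (s.1 OnePoint.infty - s.2)) := by
    refine tendsto_atTop_isLUB (fun i j hij => ?_) ⟨?_, ?_⟩
    · have := (le_iff.1 (hx i j hij)).2.2
      show (x i).1 OnePoint.infty - (x i).2 ≤ (x j).1 OnePoint.infty - (x j).2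
      linarith
    · rintro _ ⟨j, rfl⟩
      have := (hub j).2.2
      show (x j).1 OnePoint.infty - (x j).2 ≤ s.1 OnePoint.infty - s.2
      linarith
    · intro c hc
      by_contra hcs
      push Not at hcs
      have h1 : IsUpperBound KK x (s.1, s.1 OnePoint.infty - c) := by
        intro j
        rw [le_iff]
        have h2 : (x j).1 OnePoint.infty - (x j).2 ≤ c := hc ⟨j, rfl⟩
        have h3 := hub j
        refine ⟨h3.1, ?_, ?_⟩
        · show (x j).2 ≤ s.1 OnePoint.infty - c
          linarith [h3.2.1]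
        · show s.1 OnePoint.infty - c - (x j).2 ≤ s.1 OnePoint.infty - (x j).1 OnePoint.infty
          linarith
      have h2 := (le_iff.1 (hs.2 _ h1)).2.2
      have h3 : s.1 OnePoint.infty - c - s.2 ≤ s.1 OnePoint.infty - s.1 OnePoint.infty := h2
      linarith
  have hinf : Tendsto (fun j => (x j).1 OnePoint.infty) atTop (𝓝 (s.1 OnePoint.infty)) := by
    have := hdiff.add hsnd
    simpa using this
  have hcoe : ∀ n : ℕ, Tendsto (fun j => (x j).1 (n : OnePoint ℕ)) atTop
      (𝓝 (s.1 (n : OnePoint ℕ))) := by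
    intro n
    refine tendsto_atTop_isLUB (fun i j hij => (le_iff.1 (hx i j hij)).1 n) ⟨?_, ?_⟩
    · rintro _ ⟨j, rfl⟩; exact (hub j).1 n
    · intro c hc
      by_contra hcs
      push Not at hcs
      set g := s.1 - evc _ 0 (tendsto_single n (s.1 n - c)) with hg
      have h1 : IsUpperBound KK x (g, s.2) := by
        intro j
        rw [le_iff]
        have h2 : (x j).1 (n : OnePoint ℕ) ≤ c := hc ⟨j, rfl⟩
        have h3 := hub j
        refine ⟨fun k => ?_, h3.2.1, ?_⟩
        · induction k using OnePoint.rec with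
          | infty =>
            simp only [hg, ContinuousMap.sub_apply, evc_infty, sub_zero]
            exact h3.1 _
          | coe k =>
            simp only [hg, ContinuousMap.sub_apply, evc_coe]
            split_ifs with hk
            · subst hk; linarith
            · rw [sub_zero]; exact h3.1 _
        · simp only [hg, ContinuousMap.sub_apply, evc_infty, sub_zero]
          exact h3.2.2
      have h2 := (le_iff.1 (hs.2 _ h1)).1 n
      simp only [hg, ContinuousMap.sub_apply, evc_coe, if_true] at h2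
      linarith
  have hfst : Tendsto (fun j => (x j).1) atTop (𝓝 s.1) := by
    refine ContinuousMap.tendsto_of_monotone_of_pointwise (F := fun j => (x j).1) ?_ ?_
    · intro i j hij k
      exact (le_iff.1 (hx i j hij)).1 k
    · intro k
      induction k using OnePoint.rec with
      | infty => exact hinf
      | coe n => exact hcoe n
  exact hfst.prodMk_nhds hsnd

end Pool.Agent.R280.OrdBanach
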