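import Pool.Agent.R280.OrdBanach

/-!
Operators on `ℓ_∞` that do not tend to `0` on the unit vectors have non-separable range
(Rosenthal), and the consequence for property (S).
-/

set_option autoImplicit false

open Set Topology Filter
open scoped BoundedContinuousFunction

namespace Pool.Agent.R280.OrdBanach

/-- the functional `g` is at most `δ` on the unit ball of `ℓ_∞(B)` -/
def Small (g : (ℕ →ᵇ ℝ) →L[ℝ] ℝ) (B : Set ℕ) (δ : ℝ) : Prop :=
  ∀ t : ℕ →ᵇ ℝ, ‖t‖ ≤ 1 → (∀ j, j ∉ B → t j = 0) → g t ≤ δ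

lemma Small.mono {g : (ℕ →ᵇ ℝ) →L[ℝ] ℝ} {A B : Set ℕ} {δ : ℝ} (h : Small g B δ) (hAB : A ⊆ B) :
    Small g A δ := fun t ht htA => h t ht (fun j hj => htA j (fun hj' => hj (hAB hj')))

lemma Small.sub {g : (ℕ →ᵇ ℝ) →L[ℝ] ℝ} {A B : Set ℕ} {δ ε : ℝ} (h : Small g (A ∪ B) δ)
    (hAB : Disjoint A B) (hA : ¬ Small g A ε) : Small g B (δ - ε) := by
  intro t ht htB
  unfold Small at hA
  push Not at hA
  obtain ⟨s, hs, hsA, hgs⟩ := hA
  have h1 : ‖s + t‖ ≤ 1 := by
    rw [BoundedContinuousFunction.norm_le zero_le_one]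
    intro j
    rw [BoundedContinuousFunction.coe_add, Pi.add_apply]
    by_cases hj : j ∈ A
    · have : j ∉ B := fun hj' => (Set.disjoint_left.1 hAB) hj hj'
      rw [htB j this, add_zero]
      exact (s.norm_coe_le_norm j).trans hs
    · rw [hsA j hj, zero_add]
      exact (t.norm_coe_le_norm j).trans ht
  have h2 := h (s + t) h1 (by
    intro j hj
    rw [BoundedContinuousFunction.coe_add, Pi.add_apply]
    rw [hsA j (fun h => hj (Or.inl h)), htB j (fun h => hj (Or.inr h)), add_zero])
  rw [map_add] at h2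
  linarith

/-- Rosenthal's lemma -/
lemma rosenthal_aux (g : ℕ → ((ℕ →ᵇ ℝ) →L[ℝ] ℝ)) (ε : ℝ) (hε : 0 < ε) (n : ℕ) :
    ∀ M : Set ℕ, M.Infinite → (∀ k ∈ M, Small (g k) (M \ {k}) (n * ε)) →
      ∃ M' : Set ℕ, M'.Infinite ∧ M' ⊆ M ∧ ∀ k ∈ M', Small (g k) (M' \ {k}) ε := by
  induction n with
  | zero =>
    intro M hM h
    refine ⟨M, hM, Subset.rfl, fun k hk t ht htB => ?_⟩
    have := h k hk t ht htB
    simp only [Nat.cast_zero, zero_mul] at this
    linarith
  | succ n ih =>
    intro M hM h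
    let e : ℕ ↪ M := hM.natEmbedding
    let N : ℕ → Set ℕ := fun p => Set.range fun q : ℕ => (e (Nat.pair p q) : ℕ)
    have hNsub : ∀ p, N p ⊆ M := by
      rintro p _ ⟨q, rfl⟩
      exact (e (Nat.pair p q)).2
    have hinj : ∀ {p q p' q' : ℕ}, (e (Nat.pair p q) : ℕ) = e (Nat.pair p' q') → p = p' ∧ q = q' := by
      intro p q p' q' h
      have h2 := e.injective (Subtype.ext h)
      exact Nat.pair_eq_pair.1 h2
    have hNinf : ∀ p, (N p).Infinite := by
      intro p
      refine Set.infinite_range_of_injective ?_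
      intro q q' hq
      exact (hinj hq).2
    have hNdisj : ∀ p p' k, k ∈ N p → k ∈ N p' → p = p' := by
      rintro p p' k ⟨q, rfl⟩ ⟨q', hq'⟩
      exact (hinj hq').1.symm
    by_cases hcase : ∃ p, ∀ k ∈ N p, Small (g k) (N p \ {k}) ε
    · obtain ⟨p, hp⟩ := hcase
      exact ⟨N p, hNinf p, hNsub p, hp⟩
    · push Not at hcase
      choose k hk hks using hcase
      have hkinj : Function.Injective k := by
        intro p p' hpp
        exact hNdisj p p' (k p) (hk p) (by rw [hpp]; exact hk p')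
      set M₁ : Set ℕ := Set.range k with hM₁
      have hM₁inf : M₁.Infinite := Set.infinite_range_of_injective hkinj
      have hM₁sub : M₁ ⊆ M := by
        rintro _ ⟨p, rfl⟩
        exact hNsub p (hk p)
      have hsm : ∀ j ∈ M₁, Small (g j) (M₁ \ {j}) (n * ε) := by
        rintro _ ⟨p, rfl⟩
        have h1 : Small (g (k p)) ((N p \ {k p}) ∪ (M₁ \ {k p})) ((n + 1 : ℕ) * ε) := by
          refine (h (k p) (hM₁sub ⟨p, rfl⟩)).mono ?_
          rintro j (⟨hj, hj'⟩ | ⟨hj, hj'⟩)
          · exact ⟨hNsub p hj, hj'⟩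
          · exact ⟨hM₁sub hj, hj'⟩
        have h2 : Disjoint (N p \ {k p}) (M₁ \ {k p}) := by
          rw [Set.disjoint_left]
          rintro j ⟨hj, hj'⟩ ⟨⟨p', rfl⟩, _⟩
          have := hNdisj p p' (k p') hj (hk p')
          subst this
          exact hj' rfl
        have h3 := h1.sub h2 (hks p)
        have h4 : ((n + 1 : ℕ) : ℝ) * ε - ε = n * ε := by push_cast; ring
        rwa [h4] at h3
      obtain ⟨M', hM', hsub, hM's⟩ := ih M₁ hM₁inf hsm
      exact ⟨M', hM', hsub.trans hM₁sub, hM's⟩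

lemma rosenthal (g : ℕ → ((ℕ →ᵇ ℝ) →L[ℝ] ℝ)) (C : ℝ) (hC : ∀ k, ‖g k‖ ≤ C) (ε : ℝ) (hε : 0 < ε) :
    ∃ M' : Set ℕ, M'.Infinite ∧ ∀ k ∈ M', Small (g k) (M' \ {k}) ε := by
  obtain ⟨n, hn⟩ := exists_nat_ge (C / ε)
  obtain ⟨M', h1, -, h2⟩ := rosenthal_aux g ε hε n Set.univ Set.infinite_univ (by
    intro k _ t ht _
    have h1 := (le_abs_self (g k t)).trans ((g k).le_opNorm t)
    have h2 : ‖g k‖ * ‖t‖ ≤ C * 1 :=
      mul_le_mul (hC k) ht (norm_nonneg t) ((norm_nonneg (g k)).trans (hC k))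
    have h3 : C ≤ n * ε := by rwa [div_le_iff₀ hε] at hn
    linarith)
  exact ⟨M', h1, h2⟩

/-- indicator functions -/
noncomputable def indVec (B : Set ℕ) : ℕ →ᵇ ℝ :=
  BoundedContinuousFunction.ofNormedAddCommGroupDiscrete (B.indicator 1) 1
    (fun j => by
      by_cases hj : j ∈ B
      · simp [hj]
      · simp [hj])

lemma indVec_apply (B : Set ℕ) (j : ℕ) : indVec B j = B.indicator 1 j := rfl

theorem not_separable {X : Type*} [NormedAddCommGroup X] [NormedSpace ℝ X]
    (T : (ℕ →ᵇ ℝ) →L[ℝ] X) {ε : ℝ} (hε : 0 < ε) (hT : ∀ k, ε ≤ ‖T (unitVec k)‖) :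
    ¬ TopologicalSpace.SeparableSpace X := by
  intro hsep
  have hdual : ∀ k, ∃ f : StrongDual ℝ X, ‖f‖ = 1 ∧ f (T (unitVec k)) = ‖T (unitVec k)‖ := by
    intro k
    obtain ⟨f, hf, hf2⟩ := exists_dual_vector ℝ (T (unitVec k))
      (ne_of_gt (hε.trans_le (hT k)))
    exact ⟨f, hf, by simpa using hf2⟩
  choose f hf hfk using hdual
  obtain ⟨M, hM, hMs⟩ := rosenthal (fun k => (f k).comp T) ‖T‖ (fun k => by
    refine (ContinuousLinearMap.opNorm_comp_le _ _).trans ?_
    rw [hf k, one_mul]) (ε / 2) (half_pos hε)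
  -- separated family
  have hsepd : ∀ A B : Set ℕ, A ⊆ M → B ⊆ M → ∀ k, k ∈ A → k ∉ B →
      ε / 2 ≤ ‖T (indVec A) - T (indVec B)‖ := by
    intro A B hA hB k hkA hkB
    set t : ℕ →ᵇ ℝ := indVec (A \ {k}) - indVec B with ht
    have h1 : indVec A - indVec B = unitVec k + t := by
      ext j
      rw [ht]
      simp only [BoundedContinuousFunction.coe_sub, BoundedContinuousFunction.coe_add,
        Pi.sub_apply, Pi.add_apply, indVec_apply]
      by_cases hjk : j = k
      · subst hjk
        rw [unitVec_self]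
        simp [hkA, hkB]
      · rw [unitVec_ne k j hjk]
        by_cases hjA : j ∈ A
        · simp [hjA, hjk]
        · simp [hjA]
    have h2 : f k (T (indVec A - indVec B)) = ‖T (unitVec k)‖ + f k (T t) := by
      rw [h1, map_add, map_add, hfk]
    have ht1 : ‖-t‖ ≤ 1 := by
      rw [norm_neg, BoundedContinuousFunction.norm_le zero_le_one]
      intro j
      rw [ht]
      simp only [BoundedContinuousFunction.coe_sub, Pi.sub_apply, indVec_apply]
      by_cases hjA : j ∈ A \ {k}
      · by_cases hjB : j ∈ B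
        · rw [Set.indicator_of_mem hjA, Set.indicator_of_mem hjB]; simp
        · rw [Set.indicator_of_mem hjA, Set.indicator_of_notMem hjB]; simp
      · by_cases hjB : j ∈ B
        · rw [Set.indicator_of_notMem hjA, Set.indicator_of_mem hjB]; simp
        · rw [Set.indicator_of_notMem hjA, Set.indicator_of_notMem hjB]; simp
    have ht2 : ∀ j, j ∉ M \ {k} → (-t) j = 0 := by
      intro j hj
      rw [ht]
      simp only [BoundedContinuousFunction.coe_sub, BoundedContinuousFunction.coe_neg,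
        Pi.neg_apply, Pi.sub_apply, indVec_apply]
      have hjA : j ∉ A \ {k} := fun h => hj ⟨hA h.1, h.2⟩
      have hjB : j ∉ B := by
        intro h
        refine hj ⟨hB h, ?_⟩
        rintro rfl
        exact hkB h
      rw [Set.indicator_of_notMem hjA, Set.indicator_of_notMem hjB]
      simp
    have h3 := hMs k (hA hkA) (-t) ht1 ht2
    simp only [ContinuousLinearMap.comp_apply, map_neg] at h3
    have h4 : ε / 2 ≤ f k (T (indVec A - indVec B)) := by
      rw [h2]
      have := hT k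
      linarith
    have h5 : f k (T (indVec A - indVec B)) ≤ ‖T (indVec A - indVec B)‖ := by
      have := (le_abs_self _).trans ((f k).le_opNorm (T (indVec A - indVec B)))
      rwa [hf k, one_mul] at this
    rw [← map_sub]
    linarith
  obtain ⟨D, hDc, hDd⟩ := TopologicalSpace.exists_countable_dense X
  have hnear : ∀ A : Set ℕ, ∃ x ∈ D, dist (T (indVec A)) x < ε / 4 := by
    intro A
    exact hDd.exists_dist_lt _ (by positivity)
  choose x hxD hx using hnear
  let e : ℕ ↪ M := hM.natEmbedding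
  have hinj : Function.Injective (fun S : Set ℕ => (⟨x ((fun n => (e n : ℕ)) '' S),
      hxD _⟩ : D)) := by
    intro S S' hSS
    by_contra hne
    have himg : Function.Injective (fun n => (e n : ℕ)) := by
      intro a b hab
      exact e.injective (Subtype.ext hab)
    have hsub : ∀ S : Set ℕ, (fun n => (e n : ℕ)) '' S ⊆ M := by
      rintro S _ ⟨n, _, rfl⟩
      exact (e n).2
    have hxx : x ((fun n => (e n : ℕ)) '' S) = x ((fun n => (e n : ℕ)) '' S') := by
      have := congrArg Subtype.val hSS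
      exact this
    have hd : dist (T (indVec ((fun n => (e n : ℕ)) '' S)))
        (T (indVec ((fun n => (e n : ℕ)) '' S'))) < ε / 2 := by
      have h1 := hx ((fun n => (e n : ℕ)) '' S)
      have h2 := hx ((fun n => (e n : ℕ)) '' S')
      rw [← hxx, dist_comm] at h2
      calc _ ≤ _ + _ := dist_triangle _ (x ((fun n => (e n : ℕ)) '' S)) _
        _ < ε / 4 + ε / 4 := add_lt_add h1 h2
        _ = ε / 2 := by ring
    obtain ⟨n, hn⟩ : ∃ n, ¬ (n ∈ S ↔ n ∈ S') := by
      by_contra h
      push Not at h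
      exact hne (Set.ext h)
    have hmem : ∀ S : Set ℕ, ((e n : ℕ) ∈ (fun n => (e n : ℕ)) '' S ↔ n ∈ S) := fun S =>
      himg.mem_set_image (s := S) (a := n)
    by_cases hnS : n ∈ S
    · have hnS' : n ∉ S' := fun h => hn ⟨fun _ => h, fun _ => hnS⟩
      have := hsepd _ _ (hsub S) (hsub S') (e n) ((hmem S).2 hnS) (fun h => hnS' ((hmem S').1 h))
      rw [← dist_eq_norm] at this
      linarith
    · have hnS' : n ∈ S' := by
        by_contra h
        exact hn ⟨fun h' => absurd h' hnS, fun h' => absurd h' h⟩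
      have := hsepd _ _ (hsub S') (hsub S) (e n) ((hmem S').2 hnS') (fun h => hnS ((hmem S).1 h))
      rw [← dist_eq_norm, dist_comm] at this
      linarith
  have : Countable D := hDc.to_subtype
  have hc : Countable (Set ℕ) := hinj.countable
  have h1 : Cardinal.mk (Set ℕ) ≤ Cardinal.aleph0 := Cardinal.mk_le_aleph0_iff.2 hc
  have h2 : Cardinal.mk (Set ℕ) = 2 ^ Cardinal.aleph0 := by
    rw [Cardinal.mk_set, Cardinal.mk_nat]
  rw [h2] at h1
  exact absurd h1 (not_le.2 (Cardinal.cantor _))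

/-- property (S) and separability imply norm convergence of increasing order bounded sequences -/
theorem tendsto_of_propertyS {X : Type*} [NormedAddCommGroup X] [NormedSpace ℝ X]
    [CompleteSpace X] [TopologicalSpace.SeparableSpace X] {K : Set X} (hK : IsClosedCone K)
    (hS : PropertyS K) (u : ℕ → X) (hu : IsIncreasing K u) (hb : IsOrderBounded K u) :
    ∃ s, Tendsto u atTop (𝓝 s) := by
  by_contra hcon
  have hnc : ¬ CauchySeq u := fun h => hcon (cauchySeq_tendsto_of_complete h)
  rw [Metric.cauchySeq_iff'] at hnc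
  push Not at hnc
  obtain ⟨ε, hε, hN⟩ := hnc
  choose n hn hnd using hN
  let N : ℕ → ℕ := fun k => n^[k] 0
  have hNs : ∀ k, N (k + 1) = n (N k) := fun k => Function.iterate_succ_apply' n k 0
  set d : ℕ → X := fun k => u (N (k + 1)) - u (N k) with hd
  have hdK : ∀ k, d k ∈ K := by
    intro k
    have h1 : N k ≤ N (k + 1) := by rw [hNs]; exact hn _
    exact hu.mono hK h1
  obtain ⟨a, b, hab⟩ := hb
  have hsum : ∀ m, ∑ k ∈ Finset.range m, d k = u (N m) - u (N 0) := by
    intro m
    rw [hd]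
    exact Finset.sum_range_sub (fun k => u (N k)) m
  have hy : ∀ m, Le K (∑ k ∈ Finset.range m, d k) (b - u (N 0)) := by
    intro m
    have := (hab (N m)).2
    rw [hsum]
    unfold Le at this ⊢
    convert this using 1
    abel
  obtain ⟨T, hT⟩ := exists_operator hK hS hdK hy
  refine not_separable T hε (fun k => ?_) inferInstance
  rw [hT k (unitVec k) (unitVec_self k) (fun j hj => unitVec_ne k j hj)]
  have := hnd (N k)
  rw [dist_eq_norm] at this
  show ε ≤ ‖u (N (k + 1)) - u (N k)‖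
  rw [hNs]
  exact this

end Pool.Agent.R280.OrdBanach
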