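import Mathlib

/-!
`p`-Banach spaces, Lipschitz maps and `p`-traces.
-/

set_option autoImplicit false

open Set Topology Filter
open scoped ENNReal

universe u v

namespace Pool.Agent.R280.PTrace

/-- `N` is a `p`-norm on the real vector space `Z` and `Z` is complete for the metric
`N (x - y) ^ p`: `(Z, N)` is a `p`-Banach space. -/
structure IsPBanach (p : ℝ) (Z : Type v) [AddCommGroup Z] [Module ℝ Z] (N : Z → ℝ) : Prop where
  nonneg : ∀ x, 0 ≤ N x
  pos : ∀ x, x ≠ 0 → 0 < N x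
  smul : ∀ (a : ℝ) (x : Z), N (a • x) = |a| * N x
  add : ∀ x y, N (x + y) ^ p ≤ N x ^ p + N y ^ p
  complete : ∀ x : ℕ → Z, (∀ ε : ℝ, 0 < ε → ∃ n₀, ∀ m n, n₀ ≤ m → n₀ ≤ n → N (x m - x n) ^ p < ε) →
    ∃ y, ∀ ε : ℝ, 0 < ε → ∃ n₀, ∀ n, n₀ ≤ n → N (x n - y) ^ p < ε

/-- The map `f`, restricted to `A`, is Lipschitz with constant `K` for the `p`-norm `N`. -/
def IsLipOn {M : Type u} [MetricSpace M] {Z : Type v} [AddCommGroup Z] (N : Z → ℝ) (K : ℝ)
    (A : Set M) (f : M → Z) : Prop :=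
  ∀ x ∈ A, ∀ y ∈ A, N (f x - f y) ≤ K * dist x y

/-- For every `p`-Banach space `Z`, every Lipschitz map `f : A → Z` (with Lipschitz constant `K`) has
an extension `M → Z` with Lipschitz constant `C * K`. -/
def HasExt (p : ℝ) {M : Type u} [MetricSpace M] (A : Set M) (C : ℝ) : Prop :=
  ∀ (Z : Type v) [AddCommGroup Z] [Module ℝ Z] (N : Z → ℝ), IsPBanach p Z N →
    ∀ (f : M → Z) (K : ℝ), 0 ≤ K → IsLipOn N K A f →
      ∃ F : M → Z, (∀ x ∈ A, F x = f x) ∧ IsLipOn N (C * K) univ F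

/-- The `p`-trace `t_p(A, M)`, an element of `[0, ∞]`. -/
noncomputable def trace (p : ℝ) {M : Type u} [MetricSpace M] (A : Set M) : ℝ≥0∞ :=
  sInf {c | ∃ C : ℝ, 0 < C ∧ HasExt.{u, v} p A C ∧ c = ENNReal.ofReal C}

/-- The absolute `p`-extendability constant `ae_p(A)` of a metric space `A`, the supremum of the
`p`-traces `t_p(A, M)` over all metric spaces `M` which contain `A` (isometrically). -/
noncomputable def ae (p : ℝ) (A : Type u) [MetricSpace A] : ℝ≥0∞ :=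
  sSup {c | ∃ (M : Type u) (_ : MetricSpace M) (ι : A → M), Isometry ι ∧
    c = trace.{u, v} p (Set.range ι)}

/-! ### The `p`-normed plane -/

section plane

/-- the function to be minimised -/
noncomputable def g (p : ℝ) (v : ℝ × ℝ) (t : ℝ) : ℝ := |t| ^ p + |v.1 - t| ^ p + |v.2 + t| ^ p

/-- the `p`-th power of the norm -/
noncomputable def G (p : ℝ) (v : ℝ × ℝ) : ℝ := ⨅ t : ℝ, g p v t

/-- the `p`-norm -/
noncomputable def nrm (p : ℝ) (v : ℝ × ℝ) : ℝ := G p v ^ (1 / p)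

variable {p : ℝ}

lemma rpow_abs_add_le (hp0 : 0 < p) (hp1 : p ≤ 1) (a b : ℝ) : |a + b| ^ p ≤ |a| ^ p + |b| ^ p := by
  refine (Real.rpow_le_rpow (abs_nonneg _) (abs_add_le a b) hp0.le).trans ?_
  exact Real.rpow_add_le_add_rpow (abs_nonneg _) (abs_nonneg _) hp0.le hp1

lemma g_nonneg (v : ℝ × ℝ) (t : ℝ) : 0 ≤ g p v t := by unfold g; positivity

lemma bddBelow (v : ℝ × ℝ) : BddBelow (Set.range (g p v)) := by
  refine ⟨0, ?_⟩
  rintro _ ⟨t, rfl⟩
  exact g_nonneg v t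

lemma G_le (v : ℝ × ℝ) (t : ℝ) : G p v ≤ g p v t := ciInf_le (bddBelow v) t

lemma le_G {v : ℝ × ℝ} {c : ℝ} (h : ∀ t, c ≤ g p v t) : c ≤ G p v := le_ciInf h

lemma G_nonneg (v : ℝ × ℝ) : 0 ≤ G p v := le_G (g_nonneg v)

lemma nrm_rpow (hp0 : 0 < p) (v : ℝ × ℝ) : nrm p v ^ p = G p v := by
  unfold nrm
  rw [← Real.rpow_mul (G_nonneg v), one_div, inv_mul_cancel₀ hp0.ne', Real.rpow_one]

lemma nrm_nonneg (v : ℝ × ℝ) : 0 ≤ nrm p v := Real.rpow_nonneg (G_nonneg v) _

lemma le_nrm (hp0 : 0 < p) {v : ℝ × ℝ} {c : ℝ} (hc : 0 ≤ c) (h : c ^ p ≤ G p v) : c ≤ nrm p v := by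
  rw [← nrm_rpow hp0] at h
  exact (Real.rpow_le_rpow_iff hc (nrm_nonneg v) hp0).1 h

lemma fst_le_G (hp0 : 0 < p) (hp1 : p ≤ 1) (v : ℝ × ℝ) : |v.1| ^ p ≤ G p v := by
  refine le_G fun t => ?_
  have h1 := rpow_abs_add_le hp0 hp1 t (v.1 - t)
  rw [add_sub_cancel] at h1
  have h2 : 0 ≤ |v.2 + t| ^ p := by positivity
  unfold g
  linarith

lemma snd_le_G (hp0 : 0 < p) (hp1 : p ≤ 1) (v : ℝ × ℝ) : |v.2| ^ p ≤ G p v := by
  refine le_G fun t => ?_
  have h1 := rpow_abs_add_le hp0 hp1 (-t) (v.2 + t)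
  rw [show -t + (v.2 + t) = v.2 by ring, abs_neg] at h1
  have h2 : 0 ≤ |v.1 - t| ^ p := by positivity
  unfold g
  linarith

lemma fst_le (hp0 : 0 < p) (hp1 : p ≤ 1) (v : ℝ × ℝ) : |v.1| ≤ nrm p v :=
  le_nrm hp0 (abs_nonneg _) (fst_le_G hp0 hp1 v)

lemma G_le_sum (hp0 : 0 < p) (v : ℝ × ℝ) : G p v ≤ |v.1| ^ p + |v.2| ^ p := by
  refine (G_le v 0).trans (le_of_eq ?_)
  unfold g
  rw [abs_zero, Real.zero_rpow hp0.ne', sub_zero, add_zero, zero_add]

lemma G_add_le (hp0 : 0 < p) (hp1 : p ≤ 1) (v w : ℝ × ℝ) : G p (v + w) ≤ G p v + G p w := by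
  have h1 : ∀ t s : ℝ, G p (v + w) ≤ g p v t + g p w s := by
    intro t s
    refine (G_le (v + w) (t + s)).trans ?_
    unfold g
    have e1 := rpow_abs_add_le hp0 hp1 t s
    have e2 := rpow_abs_add_le hp0 hp1 (v.1 - t) (w.1 - s)
    have e3 := rpow_abs_add_le hp0 hp1 (v.2 + t) (w.2 + s)
    rw [show v.1 - t + (w.1 - s) = (v + w).1 - (t + s) by rw [Prod.fst_add]; ring] at e2
    rw [show v.2 + t + (w.2 + s) = (v + w).2 + (t + s) by rw [Prod.snd_add]; ring] at e3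
    linarith
  have h2 : ∀ s : ℝ, G p (v + w) - g p w s ≤ G p v := fun s => le_G fun t => by
    have := h1 t s
    linarith
  have h3 : G p (v + w) - G p v ≤ G p w := le_G fun s => by
    have := h2 s
    linarith
  linarith

lemma G_smul (hp0 : 0 < p) (a : ℝ) (v : ℝ × ℝ) : G p (a • v) = |a| ^ p * G p v := by
  rcases eq_or_ne a 0 with rfl | ha
  · rw [zero_smul, abs_zero, Real.zero_rpow hp0.ne', zero_mul]
    refine le_antisymm ?_ (G_nonneg _)
    refine (G_le_sum hp0 _).trans ?_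
    simp [Real.zero_rpow hp0.ne']
  · have key : ∀ (a : ℝ) (v : ℝ × ℝ), a ≠ 0 → |a| ^ p * G p v ≤ G p (a • v) := by
      intro a v ha
      refine le_G fun t => ?_
      have h1 : g p (a • v) t = |a| ^ p * g p v (t / a) := by
        unfold g
        rw [mul_add, mul_add, ← Real.mul_rpow (abs_nonneg _) (abs_nonneg _),
          ← Real.mul_rpow (abs_nonneg _) (abs_nonneg _),
          ← Real.mul_rpow (abs_nonneg _) (abs_nonneg _), ← abs_mul, ← abs_mul, ← abs_mul,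
          mul_sub, mul_add, mul_div_cancel₀ _ ha, Prod.smul_fst, Prod.smul_snd, smul_eq_mul,
          smul_eq_mul]
      rw [h1]
      exact mul_le_mul_of_nonneg_left (G_le v _) (by positivity)
    refine le_antisymm ?_ (key a v ha)
    have h2 := key a⁻¹ (a • v) (inv_ne_zero ha)
    rw [smul_smul, inv_mul_cancel₀ ha, one_smul, abs_inv, Real.inv_rpow (abs_nonneg _)] at h2
    have h3 : 0 < |a| ^ p := by positivity
    rwa [inv_mul_le_iff₀ h3] at h2

lemma isPBanach (hp0 : 0 < p) (hp1 : p ≤ 1) : IsPBanach p (ℝ × ℝ) (nrm p) where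
  nonneg := nrm_nonneg
  pos := by
    intro v hv
    have h1 : 0 < G p v := by
      by_cases h : v.1 = 0
      · have h2 : v.2 ≠ 0 := fun h2 => hv (Prod.ext h h2)
        exact lt_of_lt_of_le (by positivity) (snd_le_G hp0 hp1 v)
      · exact lt_of_lt_of_le (by positivity) (fst_le_G hp0 hp1 v)
    exact Real.rpow_pos_of_pos h1 _
  smul := by
    intro a v
    unfold nrm
    rw [G_smul hp0, Real.mul_rpow (by positivity) (G_nonneg v), ← Real.rpow_mul (abs_nonneg _),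
      mul_one_div_cancel hp0.ne', Real.rpow_one]
  add := by
    intro v w
    rw [nrm_rpow hp0, nrm_rpow hp0, nrm_rpow hp0]
    exact G_add_le hp0 hp1 v w
  complete := by
    intro x hx
    simp only [nrm_rpow hp0] at hx ⊢
    have hcoord : ∀ c : ℝ × ℝ →+ ℝ, (∀ v, |c v| ^ p ≤ G p v) → CauchySeq fun n => c (x n) := by
      intro c hc
      rw [Metric.cauchySeq_iff]
      intro ε hε
      obtain ⟨n₀, hn₀⟩ := hx (ε ^ p) (by positivity)
      refine ⟨n₀, fun m hm n hn => ?_⟩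
      have h1 := (hc (x m - x n)).trans_lt (hn₀ m n hm hn)
      rw [map_sub] at h1
      rw [Real.dist_eq]
      exact (Real.rpow_lt_rpow_iff (abs_nonneg _) hε.le hp0).1 h1
    obtain ⟨a, ha⟩ := cauchySeq_tendsto_of_complete
      (hcoord (AddMonoidHom.fst ℝ ℝ) (fst_le_G hp0 hp1))
    obtain ⟨b, hb⟩ := cauchySeq_tendsto_of_complete
      (hcoord (AddMonoidHom.snd ℝ ℝ) (snd_le_G hp0 hp1))
    refine ⟨(a, b), fun ε hε => ?_⟩
    have h1 : Tendsto (fun n => |(x n).1 - a| ^ p + |(x n).2 - b| ^ p) atTop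
        (𝓝 (|a - a| ^ p + |b - b| ^ p)) := by
      refine Tendsto.add ?_ ?_
      · exact ((ha.sub_const a).abs).rpow_const (Or.inr hp0.le)
      · exact ((hb.sub_const b).abs).rpow_const (Or.inr hp0.le)
    rw [sub_self, sub_self, abs_zero, Real.zero_rpow hp0.ne', add_zero] at h1
    obtain ⟨n₀, hn₀⟩ := eventually_atTop.1 (h1.eventually_lt_const hε)
    exact ⟨n₀, fun n hn => (G_le_sum hp0 _).trans_lt (hn₀ n hn)⟩

/-- the main lower bound: if none of the three coordinates is small, then the norm is large -/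
lemma min_le (hp0 : 0 < p) {v : ℝ × ℝ} {s : ℝ} (hs : 0 ≤ s) (h1 : s ≤ |v.1|) (h2 : s ≤ |v.2|)
    (h3 : s ≤ |v.1 + v.2|) : 2 ^ (1 / p) * (s / 2) ≤ nrm p v := by
  refine le_nrm hp0 (by positivity) ?_
  rw [Real.mul_rpow (by positivity) (by positivity), ← Real.rpow_mul (by norm_num),
    one_div, inv_mul_cancel₀ hp0.ne', Real.rpow_one]
  refine le_G fun t => ?_
  unfold g
  have hmono : ∀ a : ℝ, s / 2 ≤ |a| → (s / 2) ^ p ≤ |a| ^ p := fun a ha =>
    Real.rpow_le_rpow (by positivity) ha hp0.le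
  have hn : ∀ a : ℝ, 0 ≤ |a| ^ p := fun a => by positivity
  by_cases c1 : s / 2 ≤ |t|
  · by_cases c2 : s / 2 ≤ |v.1 - t|
    · have := hmono _ c1
      have := hmono _ c2
      have := hn (v.2 + t)
      linarith
    · push Not at c2
      have c3 : s / 2 ≤ |v.2 + t| := by
        by_contra c3
        push Not at c3
        have h4 := abs_add_le (v.1 - t) (v.2 + t)
        rw [show v.1 - t + (v.2 + t) = v.1 + v.2 by ring] at h4
        linarith
      have := hmono _ c1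
      have := hmono _ c3
      have := hn (v.1 - t)
      linarith
  · push Not at c1
    have c2 : s / 2 ≤ |v.1 - t| := by
      by_contra c2
      push Not at c2
      have h4 := abs_add_le t (v.1 - t)
      rw [add_sub_cancel] at h4
      linarith
    have c3 : s / 2 ≤ |v.2 + t| := by
      by_contra c3
      push Not at c3
      have h4 := abs_add_le (-t) (v.2 + t)
      rw [show -t + (v.2 + t) = v.2 by ring, abs_neg] at h4
      linarith
    have := hmono _ c2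
    have := hmono _ c3
    have := hn t
    linarith

end plane

/-! ### The lower bound -/

section lower

/-- the points `i / (m + 1)`, `i ≤ m + 1`, and `3` -/
def pts (m : ℕ) : Set ℝ := {x | (∃ i : ℕ, i ≤ m + 1 ∧ x = i / ((m : ℝ) + 1)) ∨ x = 3}

/-- the points `0`, `1`, `3` -/
def A3 (m : ℕ) : Set (pts m) := {x | (x : ℝ) = 0 ∨ (x : ℝ) = 1 ∨ (x : ℝ) = 3}

/-- a point of the path -/
noncomputable def z (m i : ℕ) : pts m :=
  ⟨((min i (m + 1) : ℕ) : ℝ) / ((m : ℝ) + 1), Or.inl ⟨min i (m + 1), min_le_right _ _, rfl⟩⟩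

lemma z_val {m i : ℕ} (h : i ≤ m + 1) : (z m i : ℝ) = i / ((m : ℝ) + 1) := by
  show ((min i (m + 1) : ℕ) : ℝ) / ((m : ℝ) + 1) = _
  rw [min_eq_left h]

/-- the far point -/
def far (m : ℕ) : pts m := ⟨3, Or.inr rfl⟩

variable {p : ℝ}

lemma nrm_le_one {v : ℝ × ℝ} (hp0 : 0 < p) (t : ℝ) (h : g p v t ≤ 1) : nrm p v ≤ 1 :=
  Real.rpow_le_one (G_nonneg v) ((G_le v t).trans h) (by positivity)

lemma nrm_zero (hp0 : 0 < p) : nrm p 0 = 0 := by
  have h1 : G p 0 = 0 := le_antisymm ((G_le_sum hp0 0).trans (by simp [Real.zero_rpow hp0.ne']))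
    (G_nonneg _)
  unfold nrm
  rw [h1, Real.zero_rpow (by positivity)]

open Classical in
/-- the map to the vertices of the triangle -/
noncomputable def vert (m : ℕ) (x : pts m) : ℝ × ℝ :=
  if (x : ℝ) = 0 then (1, 0) else if (x : ℝ) = 1 then (0, 1) else (0, 0)

lemma vert_lip (hp0 : 0 < p) (m : ℕ) : IsLipOn (nrm p) 1 (A3 m) (vert m) := by
  have z1 : (0 : ℝ) ^ p = 0 := Real.zero_rpow hp0.ne'
  rintro ⟨x, hx'⟩ hx ⟨y, hy'⟩ hy
  rw [one_mul, Subtype.dist_eq, Real.dist_eq]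
  have hd1 : (1 : ℝ) ≠ 0 := one_ne_zero
  have hd2 : (3 : ℝ) ≠ 0 := by norm_num
  have hd3 : (3 : ℝ) ≠ 1 := by norm_num
  rcases hx with hx | hx | hx <;> rcases hy with hy | hy | hy <;>
    simp only at hx hy <;> subst hx <;> subst hy <;> unfold vert <;>
    simp only [if_true, if_false, hd1, hd2, hd3, sub_self, Prod.mk_sub_mk, sub_zero, zero_sub]
  · exact (nrm_zero hp0).le.trans (abs_nonneg _)
  · refine (nrm_le_one hp0 1 ?_).trans (by norm_num)
    unfold g; simp [z1]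
  · refine (nrm_le_one hp0 0 ?_).trans (by norm_num)
    unfold g; simp [z1]
  · refine (nrm_le_one hp0 (-1) ?_).trans (by norm_num)
    unfold g; simp [z1]
  · exact (nrm_zero hp0).le.trans (abs_nonneg _)
  · refine (nrm_le_one hp0 0 ?_).trans (by norm_num)
    unfold g; simp [z1]
  · refine (nrm_le_one hp0 0 ?_).trans (by norm_num)
    unfold g; simp [z1]
  · refine (nrm_le_one hp0 0 ?_).trans (by norm_num)
    unfold g; simp [z1]
  · exact (nrm_zero hp0).le.trans (abs_nonneg _)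

lemma near (hp0 : 0 < p) {v : ℝ × ℝ} {B : ℝ} (h : nrm p v ≤ B) :
    |v.1| ≤ 2 * B / 2 ^ (1 / p) ∨ |v.2| ≤ 2 * B / 2 ^ (1 / p) ∨
      |v.1 + v.2| ≤ 2 * B / 2 ^ (1 / p) := by
  by_contra hcon
  push Not at hcon
  obtain ⟨h1, h2, h3⟩ := hcon
  have h2p : (0 : ℝ) < 2 ^ (1 / p) := by positivity
  have hB : 0 ≤ B := (nrm_nonneg v).trans h
  set s := min |v.1| (min |v.2| |v.1 + v.2|) with hs
  have h4 : 2 * B / 2 ^ (1 / p) < s := lt_min h1 (lt_min h2 h3)
  have h5 : 0 ≤ s := le_min (abs_nonneg _) (le_min (abs_nonneg _) (abs_nonneg _))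
  have h6 := min_le hp0 h5 (_root_.min_le_left _ _)
    ((_root_.min_le_right _ _).trans (_root_.min_le_left _ _))
    ((_root_.min_le_right _ _).trans (_root_.min_le_right _ _))
  rw [div_lt_iff₀ h2p] at h4
  linarith

/-- the lower bound for the trace -/
theorem le_of_hasExt (hp0 : 0 < p) (hp1 : p ≤ 1) (m : ℕ) {C : ℝ} (hC0 : 0 < C)
    (hC : HasExt.{0, 0} p (A3 m) C) :
    ((m : ℝ) + 1) * (1 - 24 * ((m : ℝ) + 1) / 2 ^ (1 / p)) ≤ C := by
  have hm : (0 : ℝ) < (m : ℝ) + 1 := by positivity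
  have h2p : (0 : ℝ) < 2 ^ (1 / p) := by positivity
  set δ : ℝ := 6 * ((m : ℝ) + 1) / 2 ^ (1 / p) with hδ
  have hδ0 : 0 < δ := by positivity
  have hδ4 : 24 * ((m : ℝ) + 1) / 2 ^ (1 / p) = 4 * δ := by rw [hδ]; ring
  rw [hδ4]
  by_contra hcon
  push Not at hcon
  have hCm : C < (m : ℝ) + 1 := by nlinarith
  have hδ1 : δ < 1 / 4 := by
    by_contra h
    push Not at h
    nlinarith
  obtain ⟨F, hF, hFlip⟩ := hC (ℝ × ℝ) (nrm p) (isPBanach hp0 hp1) (vert m) 1 zero_le_one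
    (vert_lip hp0 m)
  rw [mul_one] at hFlip
  -- values at the vertices
  have hz0 : (z m 0 : ℝ) = 0 := by rw [z_val (Nat.zero_le _)]; simp
  have hz1 : (z m (m + 1) : ℝ) = 1 := by
    rw [z_val le_rfl]; push_cast; exact div_self hm.ne'
  have hF0 : F (z m 0) = (1, 0) := by
    rw [hF _ (Or.inl hz0)]
    unfold vert
    rw [if_pos hz0]
  have hF1 : F (z m (m + 1)) = (0, 1) := by
    rw [hF _ (Or.inr (Or.inl hz1))]
    unfold vert
    rw [if_neg (by rw [hz1]; norm_num), if_pos hz1]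
  have hF3 : F (far m) = (0, 0) := by
    rw [hF _ (Or.inr (Or.inr rfl))]
    unfold vert
    rw [if_neg (show ((far m : pts m) : ℝ) ≠ 0 by unfold far; norm_num),
      if_neg (show ((far m : pts m) : ℝ) ≠ 1 by unfold far; norm_num)]
  have hB : 2 * (3 * ((m : ℝ) + 1)) / 2 ^ (1 / p) = δ := by rw [hδ]; ring
  have hval : ∀ i, i ≤ m + 1 → 0 ≤ (z m i : ℝ) ∧ (z m i : ℝ) ≤ 1 := by
    intro i hi
    rw [z_val hi]
    refine ⟨by positivity, ?_⟩
    rw [div_le_one hm]
    exact_mod_cast hi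
  -- dichotomy
  have hdich : ∀ i, i ≤ m + 1 → 1 - 2 * δ ≤ (F (z m i)).1 ∨ (F (z m i)).1 ≤ 2 * δ := by
    intro i hi
    obtain ⟨hv0, hv1⟩ := hval i hi
    have hbd : ∀ w : pts m, dist (z m i) w ≤ 3 → nrm p (F (z m i) - F w) ≤ 3 * ((m : ℝ) + 1) := by
      intro w hw
      refine (hFlip _ (mem_univ _) _ (mem_univ _)).trans ?_
      have : 0 ≤ dist (z m i) w := dist_nonneg
      nlinarith
    have e3 := near hp0 (hbd (far m) (by
      rw [Subtype.dist_eq, Real.dist_eq]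
      unfold far
      rw [abs_le]
      constructor <;> simp only <;> linarith))
    have e1 := near hp0 (hbd (z m 0) (by
      rw [Subtype.dist_eq, Real.dist_eq, hz0, abs_le]
      constructor <;> linarith))
    have e2 := near hp0 (hbd (z m (m + 1)) (by
      rw [Subtype.dist_eq, Real.dist_eq, hz1, abs_le]
      constructor <;> linarith))
    rw [hB] at e1 e2 e3
    rw [hF0] at e1
    rw [hF1] at e2
    rw [hF3] at e3
    simp only [Prod.fst_sub, Prod.snd_sub, sub_zero] at e1 e2 e3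
    set x := (F (z m i)).1
    set y := (F (z m i)).2
    rcases e3 with e3 | e3 | e3 <;> rcases e1 with e1 | e1 | e1 <;> rcases e2 with e2 | e2 | e2 <;>
      rw [abs_le] at e1 e2 e3 <;>
      first
        | (exfalso; linarith [e1.1, e1.2, e2.1, e2.2, e3.1, e3.2])
        | (right; linarith [e1.1, e1.2, e2.1, e2.2, e3.1, e3.2])
        | (left; linarith [e1.1, e1.2, e2.1, e2.2, e3.1, e3.2])
  -- the jump
  obtain ⟨i, hi, hi1, hi2⟩ : ∃ i, i ≤ m ∧ 1 - 2 * δ ≤ (F (z m i)).1 ∧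
      (F (z m (i + 1))).1 ≤ 2 * δ := by
    by_contra hno
    push Not at hno
    have hall : ∀ i, i ≤ m + 1 → 1 - 2 * δ ≤ (F (z m i)).1 := by
      intro i
      induction i with
      | zero => intro _; rw [hF0]; simp only; linarith
      | succ i ih =>
        intro hi
        have h1 := ih (by omega)
        have h2 := hno i (by omega) h1
        rcases hdich (i + 1) hi with h3 | h3
        · exact h3
        · exact absurd h3 (not_le.2 h2)
    have := hall (m + 1) le_rfl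
    rw [hF1] at this
    simp only at this
    linarith
  have h1 := hFlip (z m i) (mem_univ _) (z m (i + 1)) (mem_univ _)
  have h2 := fst_le hp0 hp1 (F (z m i) - F (z m (i + 1)))
  have h3 : dist (z m i) (z m (i + 1)) = 1 / ((m : ℝ) + 1) := by
    rw [Subtype.dist_eq, Real.dist_eq, z_val (by omega), z_val (by omega), ← sub_div, abs_div,
      abs_of_pos hm]
    congr 1
    push_cast
    rw [abs_sub_comm, add_sub_cancel_left, abs_one]
  rw [h3] at h1
  rw [Prod.fst_sub] at h2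
  have h4 : 1 - 4 * δ ≤ C * (1 / ((m : ℝ) + 1)) := by
    have := le_abs_self ((F (z m i)).1 - (F (z m (i + 1))).1)
    linarith
  rw [mul_one_div, le_div_iff₀ hm] at h4
  linarith

/-- the lower bound for the trace -/
theorem le_trace (hp0 : 0 < p) (hp1 : p ≤ 1) (m : ℕ) :
    ENNReal.ofReal (((m : ℝ) + 1) * (1 - 24 * ((m : ℝ) + 1) / 2 ^ (1 / p))) ≤
      trace.{0, 0} p (A3 m) := by
  refine le_sInf ?_
  rintro _ ⟨C, hC0, hC, rfl⟩
  exact ENNReal.ofReal_le_ofReal (le_of_hasExt hp0 hp1 m hC0 hC)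

lemma tendsto_bound (m : ℕ) : Tendsto
    (fun p : ℝ => ENNReal.ofReal (((m : ℝ) + 1) * (1 - 24 * ((m : ℝ) + 1) / 2 ^ (1 / p))))
    (𝓝[>] 0) (𝓝 (ENNReal.ofReal ((m : ℝ) + 1))) := by
  refine (ENNReal.continuous_ofReal.tendsto _).comp ?_
  have h1 : Tendsto (fun p : ℝ => (2 : ℝ) ^ (1 / p)) (𝓝[>] 0) atTop := by
    have h2 : Tendsto (fun p : ℝ => 1 / p) (𝓝[>] 0) atTop := by
      simp only [one_div]
      exact tendsto_inv_nhdsGT_zero
    exact (tendsto_rpow_atTop_of_base_gt_one 2 (by norm_num)).comp h2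
  have h2 : Tendsto (fun p : ℝ => 24 * ((m : ℝ) + 1) / 2 ^ (1 / p)) (𝓝[>] 0) (𝓝 0) :=
    h1.const_div_atTop _
  have h3 := (h2.const_sub 1).const_mul ((m : ℝ) + 1)
  rw [sub_zero, mul_one] at h3
  exact h3

end lower

end Pool.Agent.R280.PTrace
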