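import Mathlib

/-!
Pettis' lemma for topological groups.
-/

set_option autoImplicit false

open Set Topology Filter

namespace Pool.Agent.R280.Pettis

/-- Pettis' lemma: if a Baire topological group is covered by countably many Borel sets `A n`, then
some `A n - A n` is a neighbourhood of `0`. -/
theorem pettis {G : Type*} [AddCommGroup G] [TopologicalSpace G] [IsTopologicalAddGroup G]
    [BaireSpace G] [MeasurableSpace G] [BorelSpace G] {A : ℕ → Set G}
    (hA : ∀ n, MeasurableSet (A n)) (hcov : ⋃ n, A n = univ) :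
    ∃ n, {x : G | ∃ a ∈ A n, ∃ b ∈ A n, x = a - b} ∈ 𝓝 (0 : G) := by
  choose U hUo hU using fun n => (hA n).residualEq_isOpen
  obtain ⟨n, hn⟩ : ∃ n, (U n).Nonempty := by
    by_contra hcon
    push Not at hcon
    have h1 : ∀ n, IsMeagre (A n) := by
      intro n
      have h2 := (hU n).mem_iff
      rw [hcon n] at h2
      filter_upwards [h2] with x hx
      exact fun hxA => (hx.1 hxA).elim
    have h3 : IsMeagre (univ : Set G) := by
      rw [← hcov]
      exact isMeagre_iUnion h1
    exact not_isMeagre_of_isOpen isOpen_univ ⟨0, trivial⟩ h3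
  refine ⟨n, ?_⟩
  have hopen : IsOpen {h : G | ∃ a ∈ U n, ∃ b ∈ U n, h = a - b} := by
    have : {h : G | ∃ a ∈ U n, ∃ b ∈ U n, h = a - b} = ⋃ b ∈ U n, (fun h => h + b) ⁻¹' (U n) := by
      ext h
      simp only [mem_iUnion, mem_preimage, exists_prop]
      constructor
      · rintro ⟨a, ha, b, hb, rfl⟩
        exact ⟨b, hb, by rwa [sub_add_cancel]⟩
      · rintro ⟨b, hb, h1⟩
        exact ⟨h + b, h1, b, hb, by rw [add_sub_cancel_right]⟩
    rw [this]
    exact isOpen_biUnion fun b _ => (hUo n).preimage (continuous_id.add continuous_const)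
  have h0 : (0 : G) ∈ {h : G | ∃ a ∈ U n, ∃ b ∈ U n, h = a - b} := by
    obtain ⟨a, ha⟩ := hn
    exact ⟨a, ha, a, ha, (sub_self a).symm⟩
  refine mem_of_superset (hopen.mem_nhds h0) ?_
  rintro h ⟨a, ha, b, hb, rfl⟩
  -- the set `A n ∩ (A n + h)` is nonempty
  set h := a - b with hh
  have h1 : (fun x : G => x - h) ⁻¹' (A n) =ᶠ[residual G] (fun x : G => x - h) ⁻¹' (U n) := by
    have ht : Tendsto (fun x : G => x - h) (residual G) (residual G) :=
      tendsto_residual_of_isOpenMap (continuous_id.sub continuous_const)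
        (Homeomorph.subRight h).isOpenMap
    exact (hU n).comp_tendsto ht
  have h2 : ¬ IsMeagre (U n ∩ (fun x : G => x - h) ⁻¹' (U n)) := by
    refine not_isMeagre_of_isOpen ((hUo n).inter ((hUo n).preimage
      (continuous_id.sub continuous_const))) ⟨a, ha, ?_⟩
    show a - h ∈ U n
    rw [hh, sub_sub_cancel]
    exact hb
  by_contra hcon
  apply h2
  filter_upwards [(hU n).mem_iff, h1.mem_iff] with x hx1 hx2
  rintro ⟨hx3, hx4⟩
  apply hcon
  refine ⟨x, hx1.2 hx3, x - h, hx2.2 hx4, ?_⟩
  rw [sub_sub_cancel]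

end Pool.Agent.R280.Pettis
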