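import Pool.Agent.R280.ProjRep

/-!
Lattice homomorphisms on projective Banach lattices separate points and are connected by paths.
-/

set_option autoImplicit false
set_option linter.unusedSectionVars false

open Set Topology Filter

universe u v w

namespace Pool.Agent.R280.BLat

section path

variable {X : Type u} [NormedAddCommGroup X] [NormedSpace ℝ X] [Lattice X] [BanachLattice X]

/-- a projective Banach lattice as a retract of a free one -/
structure IsRep (q : (FBLpos (PB X)).Space →L[ℝ] X) (i : X →L[ℝ] (FBLpos (PB X)).Space) : Prop where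
  q_lat : IsLatHom q
  q_el : ∀ a : PB X, q (posEl a) = a
  i_lat : IsLatHom i
  q_i : ∀ x, q (i x) = x

theorem exists_rep (hX : IsProjective.{u, u} X) : ∃ (q : (FBLpos (PB X)).Space →L[ℝ] X)
    (i : X →L[ℝ] (FBLpos (PB X)).Space), IsRep q i := by
  obtain ⟨q, hq, hqa⟩ := exists_quotient_PB (X := X)
  obtain ⟨i, hi, hqi, -⟩ := hX _ _ q hq (ContinuousLinearMap.id ℝ X) (fun a b => ⟨rfl, rfl⟩) 1
    one_pos
  exact ⟨q, i, hq.1, hqa, hi, hqi⟩

variable {q : (FBLpos (PB X)).Space →L[ℝ] X} {i : X →L[ℝ] (FBLpos (PB X)).Space}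

lemma IsLatHom.comp' {Y : Type v} {Z : Type w} [NormedAddCommGroup Y] [NormedSpace ℝ Y] [Lattice Y]
    [NormedAddCommGroup Z] [NormedSpace ℝ Z] [Lattice Z] {S : Y →L[ℝ] Z} {T : X →L[ℝ] Y}
    (hS : IsLatHom S) (hT : IsLatHom T) : IsLatHom (S.comp T) := by
  intro a b
  constructor
  · show S (T (a ⊔ b)) = S (T a) ⊔ S (T b)
    rw [(hT _ _).1, (hS _ _).1]
  · show S (T (a ⊓ b)) = S (T a) ⊓ S (T b)
    rw [(hT _ _).2, (hS _ _).2]

lemma latHom_smul {φ : X →L[ℝ] ℝ} (hφ : IsLatHom φ) {r : ℝ} (hr : 0 ≤ r) : IsLatHom (r • φ) := by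
  intro a b
  constructor
  · show r * φ (a ⊔ b) = r * φ a ⊔ r * φ b
    rw [(hφ _ _).1]
    exact mul_max_of_nonneg _ _ hr
  · show r * φ (a ⊓ b) = r * φ a ⊓ r * φ b
    rw [(hφ _ _).2]
    exact mul_min_of_nonneg _ _ hr

/-- lattice homomorphisms determine the order -/
lemma IsRep.sep (h : IsRep q i) {x y : X} (hxy : ∀ φ : X →L[ℝ] ℝ, IsLatHom φ → φ x ≤ φ y) :
    x ≤ y := by
  have h1 : i x ≤ i y := fun ξ => hxy ((ptEv ξ).comp i) ((ptEv_latHom ξ).comp' h.i_lat)
  have h2 : i (x ⊔ y) = i y := by rw [(h.i_lat _ _).1, sup_eq_right.2 h1]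
  have h3 : x ⊔ y = y := by rw [← h.q_i (x ⊔ y), h2, h.q_i]
  exact sup_eq_right.1 h3

lemma IsRep.exists_pos (h : IsRep q i) {y : X} (hy : 0 ≤ y) (hy0 : y ≠ 0) :
    ∃ φ : X →L[ℝ] ℝ, IsLatHom φ ∧ 0 < φ y := by
  by_contra hcon
  push Not at hcon
  apply hy0
  refine le_antisymm (h.sep fun φ hφ => ?_) hy
  rw [map_zero]
  exact hcon φ hφ

lemma posBd_of_latHom {φ : X →L[ℝ] ℝ} (hφ : IsLatHom φ) {R : ℝ} (hR : ‖φ‖ ≤ R) :
    PosBd R φ.toLinearMap where
  pos := fun x hx => hφ.map_pos hx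
  le := fun a => by
    refine (le_abs_self _).trans ((φ.le_opNorm a).trans ?_)
    exact (mul_le_of_le_one_right (norm_nonneg _) a.2.2).trans hR

/-- the segment -/
noncomputable def seg (φ0 φ1 : X →L[ℝ] ℝ) (s : ℝ) : X →L[ℝ] ℝ := (1 - s) • φ0 + s • φ1

lemma seg_apply (φ0 φ1 : X →L[ℝ] ℝ) (s : ℝ) (x : X) : seg φ0 φ1 s x = (1 - s) * φ0 x + s * φ1 x :=
  rfl

lemma seg_posBd {φ0 φ1 : X →L[ℝ] ℝ} {R : ℝ} (h0 : PosBd R φ0.toLinearMap)
    (h1 : PosBd R φ1.toLinearMap) {s : ℝ} (hs : s ∈ Icc (0 : ℝ) 1) :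
    PosBd R (seg φ0 φ1 s).toLinearMap where
  pos := fun x hx => by
    show 0 ≤ (1 - s) * φ0 x + s * φ1 x
    have e0 : 0 ≤ φ0 x := h0.pos x hx
    have e1 : 0 ≤ φ1 x := h1.pos x hx
    have := hs.1
    have := hs.2
    have e2 := mul_nonneg (sub_nonneg.2 hs.2) e0
    have e3 := mul_nonneg hs.1 e1
    linarith
  le := fun a => by
    show (1 - s) * φ0 a + s * φ1 a ≤ R
    have e0 : φ0 a ≤ R := h0.le a
    have e1 : φ1 a ≤ R := h1.le a
    have e2 := mul_le_mul_of_nonneg_left e0 (sub_nonneg.2 hs.2)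
    have e3 := mul_le_mul_of_nonneg_left e1 hs.1
    linarith

lemma seg_val_continuous (φ0 φ1 : X →L[ℝ] ℝ) (R : ℝ) (F : (FBLpos (PB X)).Space) :
    Continuous fun s : ℝ => val R (seg φ0 φ1 s).toLinearMap F := by
  have h1 : Continuous fun s : ℝ => ptR R (seg φ0 φ1 s).toLinearMap := by
    refine continuous_pi fun a => ?_
    have h2 : Continuous fun s : ℝ => (((1 - s) * φ0 a + s * φ1 a) / R) := by fun_prop
    exact continuous_projIcc.comp h2
  exact continuous_const.mul ((fn_continuous F).comp h1)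

/-- Lemma L. -/
theorem IsRep.exists_const_part (h : IsRep q i) {y e G : X} (hy : 0 ≤ y) (hy0 : y ≠ 0) (hye : y ≤ e)
    {N : Set ℝ} (hN : ∀ r : ℚ, (r : ℝ) ∉ N)
    (hφN : ∀ φ : X →L[ℝ] ℝ, IsLatHom φ → 0 < φ y → φ G / φ e ∈ N) :
    ∃ (z : X) (c : ℝ), 0 ≤ z ∧ z ≠ 0 ∧ z ≤ y ∧ |G - c • e| ⊓ z = 0 := by
  obtain ⟨φ0, hφ0, ht⟩ := h.exists_pos hy hy0
  set t := φ0 y with htdef
  obtain ⟨K, S, v, hK, hv0, hvn, hloc⟩ := exists_local (i y) (ε := t / (16 * (‖φ0‖ + 1)))
    (by positivity)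
  have hφ0v : φ0 v ≤ t / 16 := by
    have h1 := (le_abs_self _).trans (φ0.le_opNorm v)
    have h2 : ‖φ0‖ * ‖v‖ ≤ (‖φ0‖ + 1) * (t / (16 * (‖φ0‖ + 1))) :=
      mul_le_mul (by linarith) hvn (norm_nonneg _) (by positivity)
    have h3 : (‖φ0‖ + 1) * (t / (16 * (‖φ0‖ + 1))) = t / 16 := by
      have : (‖φ0‖ + 1) ≠ 0 := by positivity
      field_simp
    linarith
  set δ : ℝ := 1 / (4 * (K + 1)) with hδ
  have hδ0 : 0 < δ := by positivity
  have hδ1 : δ * (K + 1) = 1 / 4 := by rw [hδ]; field_simp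
  have hδ2 : δ ≤ 1 := by nlinarith
  let b : X := |v - (φ0 v / t) • y| + ∑ a ∈ S, |(a : X) - (φ0 a / t) • y|
  let z : X := (δ • y - b) ⊔ 0
  have hb0 : 0 ≤ b := add_nonneg (abs_nonneg _) (Finset.sum_nonneg fun _ _ => abs_nonneg _)
  have hφb : ∀ φ : X →L[ℝ] ℝ, IsLatHom φ → φ y = t →
      φ b = |φ v - φ0 v| + ∑ a ∈ S, |φ a - φ0 a| := by
    intro φ hφ hφy
    have h1 : ∀ x : X, φ |x - (φ0 x / t) • y| = |φ x - φ0 x| := by
      intro x
      rw [hφ.map_abs, map_sub, map_smul, smul_eq_mul, hφy, div_mul_cancel₀ _ ht.ne']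
    show φ (_ + _) = _
    rw [map_add, map_sum, h1]
    congr 1
    exact Finset.sum_congr rfl fun a _ => h1 a
  refine ⟨z, φ0 G / φ0 e, le_sup_right, ?_, ?_, ?_⟩
  · intro hz
    have h1 : φ0 z = δ * t := by
      show φ0 ((δ • y - b) ⊔ 0) = _
      rw [(hφ0 _ _).1, map_sub, map_smul, map_zero, hφb φ0 hφ0 rfl]
      simp only [sub_self, abs_zero, Finset.sum_const_zero, add_zero, sub_zero, smul_eq_mul]
      exact sup_eq_left.2 (by positivity)
    rw [hz, map_zero] at h1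
    have : 0 < δ * t := by positivity
    linarith
  · refine sup_le ?_ hy
    refine (sub_le_self _ hb0).trans ?_
    have := smul_le_smul_of_nonneg_right hδ2 hy
    rwa [one_smul] at this
  · refine le_antisymm (h.sep fun φ hφ => ?_) (le_inf (abs_nonneg _) le_sup_right)
    rw [(hφ _ _).2, map_zero]
    by_cases hz : φ z ≤ 0
    · exact inf_le_right.trans hz
    · push Not at hz
      have hz2 : 0 < δ * φ y - φ b := by
        have h1 : φ z = (δ * φ y - φ b) ⊔ 0 := by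
          show φ ((δ • y - b) ⊔ 0) = _
          rw [(hφ _ _).1, map_sub, map_smul, map_zero, smul_eq_mul]
        rw [h1] at hz
        rcases lt_sup_iff.1 hz with h2 | h2
        · exact h2
        · exact absurd h2 (lt_irrefl 0)
      have hφb0 : 0 ≤ φ b := hφ.map_pos hb0
      have hφy : 0 < φ y := by
        by_contra hc
        push Not at hc
        have := mul_nonpos_of_nonneg_of_nonpos hδ0.le hc
        linarith
      set r : ℝ := t / φ y with hr
      have hr0 : 0 < r := by positivity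
      have hrt : r * φ y = t := div_mul_cancel₀ _ hφy.ne'
      set φ1 : X →L[ℝ] ℝ := r • φ with hφ1def
      have hφ1 : IsLatHom φ1 := latHom_smul hφ hr0.le
      have hφ1a : ∀ x, φ1 x = r * φ x := fun x => rfl
      have hφ1y : φ1 y = t := hrt
      have hφ1b : φ1 b < δ * t := by
        rw [hφ1a]
        have h1 := mul_lt_mul_of_pos_left (show φ b < δ * φ y by linarith) hr0
        have h2 : r * (δ * φ y) = δ * t := by rw [← hrt]; ring
        linarith
      rw [hφb φ1 hφ1 hφ1y] at hφ1b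
      have hsum0 : 0 ≤ ∑ a ∈ S, |φ1 a - φ0 a| := Finset.sum_nonneg fun _ _ => abs_nonneg _
      have hav0 := abs_nonneg (φ1 v - φ0 v)
      set R : ℝ := ‖φ0‖ + ‖φ1‖ + 1 with hR
      have hR0 : 0 < R := by positivity
      have hB0 : PosBd R φ0.toLinearMap := posBd_of_latHom hφ0 (by
        have := norm_nonneg φ1
        linarith)
      have hB1 : PosBd R φ1.toLinearMap := posBd_of_latHom hφ1 (by
        have := norm_nonneg φ0
        linarith)
      -- the lattice homomorphisms on the path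
      let Φ : ℝ → X →L[ℝ] ℝ := fun s => R • (ptEv (ptR R (seg φ0 φ1 s).toLinearMap)).comp i
      have hΦ : ∀ s, IsLatHom (Φ s) := fun s =>
        latHom_smul ((ptEv_latHom _).comp' h.i_lat) hR0.le
      have hΦv : ∀ s x, Φ s x = val R (seg φ0 φ1 s).toLinearMap (i x) := fun s x => rfl
      have hseg0 : seg φ0 φ1 0 = φ0 := by
        ext x; rw [seg_apply]; ring
      have hseg1 : seg φ0 φ1 1 = φ1 := by
        ext x; rw [seg_apply]; ring
      have hΦ0 : ∀ x, Φ 0 x = φ0 x := by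
        intro x
        rw [hΦv, hseg0, val_latHom h.q_lat h.q_el hR0 hφ0 hB0, h.q_i]
      have hΦ1 : ∀ x, Φ 1 x = φ1 x := by
        intro x
        rw [hΦv, hseg1, val_latHom h.q_lat h.q_el hR0 hφ1 hB1, h.q_i]
      have hpos : ∀ s ∈ Icc (0 : ℝ) 1, 0 < Φ s y := by
        intro s hs
        have h1 := hloc R hR0 φ0 (seg φ0 φ1 s) hB0 (seg_posBd hB0 hB1 hs)
        rw [← hΦv] at h1
        have h2 : val R φ0.toLinearMap (i y) = t := by
          rw [val_latHom h.q_lat h.q_el hR0 hφ0 hB0, h.q_i]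
        rw [h2] at h1
        have h3 : seg φ0 φ1 s v ≤ φ0 v + |φ1 v - φ0 v| := by
          rw [seg_apply]
          have h4 := mul_le_mul_of_nonneg_left (le_abs_self (φ1 v - φ0 v)) hs.1
          have h5 := mul_le_mul_of_nonneg_right hs.2 hav0
          nlinarith
        have h4 : ∑ a ∈ S, |seg φ0 φ1 s a - φ0 a| ≤ ∑ a ∈ S, |φ1 a - φ0 a| := by
          refine Finset.sum_le_sum fun a _ => ?_
          rw [seg_apply]
          have h5 : (1 - s) * φ0 a + s * φ1 a - φ0 a = s * (φ1 a - φ0 a) := by ring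
          rw [h5, abs_mul, abs_of_nonneg hs.1]
          exact mul_le_of_le_one_left (abs_nonneg _) hs.2
        have h5 := mul_le_mul_of_nonneg_left h4 hK
        have h6 : K * ∑ a ∈ S, |φ1 a - φ0 a| + |φ1 v - φ0 v| ≤ (K + 1) * (δ * t) := by
          have e1 : ∑ a ∈ S, |φ1 a - φ0 a| ≤ δ * t := by linarith
          have e2 : |φ1 v - φ0 v| ≤ δ * t := by linarith
          have e3 := mul_le_mul_of_nonneg_left e1 hK
          linarith
        have h7 : (K + 1) * (δ * t) = t / 4 := by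
          have : (K + 1) * (δ * t) = (δ * (K + 1)) * t := by ring
          rw [this, hδ1]; ring
        rw [abs_le] at h1
        linarith [h1.1]
      have hNs : ∀ s ∈ Icc (0 : ℝ) 1, Φ s G / Φ s e ∈ N := fun s hs => hφN _ (hΦ s) (hpos s hs)
      have hepos : ∀ s ∈ Icc (0 : ℝ) 1, 0 < Φ s e := fun s hs =>
        (hpos s hs).trans_le ((hΦ s).mono hye)
      have hcont : ContinuousOn (fun s => Φ s G / Φ s e) (Icc 0 1) := by
        refine ContinuousOn.div (seg_val_continuous φ0 φ1 R (i G)).continuousOn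
          (seg_val_continuous φ0 φ1 R (i e)).continuousOn fun s hs => (hepos s hs).ne'
      have hconn : (fun s => Φ s G / Φ s e) '' Icc 0 1 |>.OrdConnected :=
        (isPreconnected_Icc.image _ hcont).ordConnected
      have hsub : (fun s => Φ s G / Φ s e) '' Icc 0 1 ⊆ N := by
        rintro _ ⟨s, hs, rfl⟩
        exact hNs s hs
      have h0mem : Φ 0 G / Φ 0 e ∈ (fun s => Φ s G / Φ s e) '' Icc 0 1 :=
        ⟨0, left_mem_Icc.2 zero_le_one, rfl⟩
      have h1mem : Φ 1 G / Φ 1 e ∈ (fun s => Φ s G / Φ s e) '' Icc 0 1 :=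
        ⟨1, right_mem_Icc.2 zero_le_one, rfl⟩
      have heq : Φ 0 G / Φ 0 e = Φ 1 G / Φ 1 e := by
        rcases lt_trichotomy (Φ 0 G / Φ 0 e) (Φ 1 G / Φ 1 e) with hlt | heq | hlt
        · obtain ⟨r', hr1, hr2⟩ := exists_rat_btwn hlt
          exact absurd (hsub (hconn.out h0mem h1mem ⟨hr1.le, hr2.le⟩)) (hN r')
        · exact heq
        · obtain ⟨r', hr1, hr2⟩ := exists_rat_btwn hlt
          exact absurd (hsub (hconn.out h1mem h0mem ⟨hr1.le, hr2.le⟩)) (hN r')
      rw [hΦ0, hΦ0, hΦ1, hΦ1, hφ1a, hφ1a, mul_div_mul_left _ _ hr0.ne'] at heq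
      have hφe : 0 < φ e := hφy.trans_le (hφ.mono hye)
      have hfin : φ |G - (φ0 G / φ0 e) • e| = 0 := by
        rw [hφ.map_abs, map_sub, map_smul, smul_eq_mul, heq, div_mul_cancel₀ _ hφe.ne', sub_self,
          abs_zero]
      exact inf_le_left.trans hfin.le

end path

end Pool.Agent.R280.BLat
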