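import Pool.Agent.R280.Dominate

/-!
Paths of lattice homomorphisms on projective Banach lattices.
-/

set_option autoImplicit false
set_option linter.unusedSectionVars false

open Set Topology Filter

universe u v w

namespace Pool.Agent.R280.BLat

section rep

variable {X : Type u} [NormedAddCommGroup X] [NormedSpace ℝ X] [Lattice X] [BanachLattice X]

variable (X) in
/-- the positive part of the unit ball -/
abbrev PB : Type u := {a : X // 0 ≤ a ∧ ‖a‖ ≤ 1}

/-- every Banach lattice is a quotient of the free Banach lattice on its positive unit ball -/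
theorem exists_quotient_PB : ∃ q : (FBLpos (PB X)).Space →L[ℝ] X, IsQuotient q ∧
    ∀ a : PB X, q (posEl a) = a := by
  obtain ⟨q, hq, hqn, hqx⟩ := pos_univ (A := PB X) (c := 1) one_pos (x := fun a => (a : X))
    (fun a => a.2.1) (fun a => a.2.2)
  have hqle : ∀ z, ‖q z‖ ≤ ‖z‖ := fun z =>
    (q.le_opNorm z).trans (mul_le_of_le_one_left (norm_nonneg _) hqn)
  refine ⟨q, ⟨hq, fun y => ⟨?_, fun c hc => ?_⟩⟩, hqx⟩
  · rintro r ⟨z, rfl, rfl⟩
    exact hqle z
  · -- an exact preimage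
    have hex : ∃ z, q z = y ∧ ‖z‖ ≤ ‖y‖ := by
      rcases eq_or_ne y 0 with rfl | hy
      · exact ⟨0, map_zero _, by simp⟩
      · have hy0 : 0 < ‖y‖ := norm_pos_iff.2 hy
        have hP : ∀ z : X, 0 ≤ z → ‖z‖ ≤ ‖y‖ → 0 ≤ ‖y‖⁻¹ • z ∧ ‖‖y‖⁻¹ • z‖ ≤ 1 := by
          intro z hz hzy
          refine ⟨smul_nonneg (by positivity) hz, ?_⟩
          rw [norm_smul, norm_inv, norm_norm, inv_mul_le_iff₀ hy0, mul_one]
          exact hzy
        have hlift : ∀ z : X, 0 ≤ z → ‖z‖ ≤ ‖y‖ →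
            ∃ w, q w = z ∧ 0 ≤ w ∧ ‖w‖ ≤ ‖y‖ := by
          intro z hz hzy
          refine ⟨‖y‖ • posEl (⟨‖y‖⁻¹ • z, hP z hz hzy⟩ : PB X), ?_,
            smul_nonneg hy0.le (posEl_nonneg _), ?_⟩
          · rw [map_smul, hqx, smul_smul, mul_inv_cancel₀ hy0.ne', one_smul]
          · rw [norm_smul, norm_norm]
            exact mul_le_of_le_one_right hy0.le (posEl_norm _)
        obtain ⟨w1, hw1, -, -⟩ := hlift (y ⊔ 0) le_sup_right (norm_posPart_le y)
        obtain ⟨w2, hw2, -, -⟩ := hlift (-y ⊔ 0) le_sup_right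
          ((norm_posPart_le (-y)).trans (norm_neg y).le)
        obtain ⟨w3, hw3, hw30, hw3n⟩ := hlift |y| (abs_nonneg y) (norm_abs_eq_norm y).le
        refine ⟨((w1 - w2) ⊓ w3) ⊔ (-w3), ?_, ?_⟩
        · rw [(hq _ _).1, (hq _ _).2, map_neg, map_sub, hw1, hw2, hw3]
          have h1 : y ⊔ 0 - (-y ⊔ 0) = y := by
            have := posPart_sub_negPart y
            rwa [posPart_def, negPart_def] at this
          rw [h1, inf_eq_left.2 (le_abs_self y), sup_eq_left]
          exact neg_le.1 (neg_le_abs y)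
        · refine le_trans (HasSolidNorm.solid ?_) hw3n
          rw [abs_of_nonneg hw30, abs_le']
          constructor
          · exact sup_le inf_le_right ((neg_nonpos.2 hw30).trans hw30)
          · rw [neg_le]
            exact le_sup_right
    obtain ⟨z, hz, hzn⟩ := hex
    exact (hc ⟨z, hz, rfl⟩).trans hzn

/-- the point of `[0,1]^(PB X)` given by a functional -/
noncomputable def ptR (R : ℝ) (ψ : X →ₗ[ℝ] ℝ) : PB X → unitInterval :=
  fun a => Set.projIcc 0 1 zero_le_one (ψ a / R)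

/-- `ψ` is positive, and at most `R` on the positive unit ball -/
structure PosBd (R : ℝ) (ψ : X →ₗ[ℝ] ℝ) : Prop where
  pos : ∀ x, 0 ≤ x → 0 ≤ ψ x
  le : ∀ a : PB X, ψ a ≤ R

lemma ptR_apply {R : ℝ} (hR : 0 < R) {ψ : X →ₗ[ℝ] ℝ} (hψ : PosBd R ψ) (a : PB X) :
    R * (ptR R ψ a : ℝ) = ψ a := by
  have h1 : ψ a / R ∈ Set.Icc (0 : ℝ) 1 :=
    ⟨div_nonneg (hψ.pos _ a.2.1) hR.le, (div_le_one hR).2 (hψ.le a)⟩
  have h2 : (ptR R ψ a : ℝ) = ψ a / R := by
    show ((Set.projIcc 0 1 _ (ψ a / R) : Set.Icc (0 : ℝ) 1) : ℝ) = _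
    rw [Set.projIcc_of_mem _ h1]
  rw [h2]
  field_simp

/-- `F` evaluated at `ψ`, by positive homogeneity -/
noncomputable def val (R : ℝ) (ψ : X →ₗ[ℝ] ℝ) (F : (FBLpos (PB X)).Space) : ℝ :=
  R * F.fn (ptR R ψ)

/-- the value at a lattice homomorphism is the value of the image in `X` -/
lemma val_latHom {q : (FBLpos (PB X)).Space →L[ℝ] X} (hq : IsLatHom q)
    (hqa : ∀ a : PB X, q (posEl a) = a) {R : ℝ} (hR : 0 < R) {φ : X →L[ℝ] ℝ} (hφ : IsLatHom φ)
    (hφR : PosBd R φ.toLinearMap) (F : (FBLpos (PB X)).Space) :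
    val R φ.toLinearMap F = φ (q F) := by
  have h1 : IsLatHom (φ.comp q) := by
    intro a b
    constructor
    · show φ (q (a ⊔ b)) = φ (q a) ⊔ φ (q b)
      rw [(hq _ _).1, (hφ _ _).1]
    · show φ (q (a ⊓ b)) = φ (q a) ⊓ φ (q b)
      rw [(hq _ _).2, (hφ _ _).2]
  have h2 : IsLatHom (R • ptEv (ptR R φ.toLinearMap)) := by
    intro a b
    constructor
    · show R * (a.fn _ ⊔ b.fn _) = R * a.fn _ ⊔ R * b.fn _
      exact mul_max_of_nonneg _ _ hR.le
    · show R * (a.fn _ ⊓ b.fn _) = R * a.fn _ ⊓ R * b.fn _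
      exact mul_min_of_nonneg _ _ hR.le
  have h3 : R • ptEv (ptR R φ.toLinearMap) = φ.comp q := pos_ext h2 h1 (fun a => by
    show R * (ptR R φ.toLinearMap a : ℝ) = φ (q (posEl a))
    rw [hqa, ptR_apply hR hφR]
    rfl)
  exact congrArg (fun T : (FBLpos (PB X)).Space →L[ℝ] ℝ => T F) h3

/-- Locality. -/
theorem exists_local (F : (FBLpos (PB X)).Space) {ε : ℝ} (hε : 0 < ε) :
    ∃ (K : ℝ) (S : Finset (PB X)) (v : X), 0 ≤ K ∧ 0 ≤ v ∧ ‖v‖ ≤ ε ∧
      ∀ (R : ℝ), 0 < R → ∀ ψ0 ψ1 : X →L[ℝ] ℝ, PosBd R ψ0.toLinearMap → PosBd R ψ1.toLinearMap →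
        |val R ψ1.toLinearMap F - val R ψ0.toLinearMap F| ≤
          ψ0 v + ψ1 v + K * ∑ a ∈ S, |ψ1 a - ψ0 a| := by
  have hcs : CompleteSpace X := BanachLattice.toCompleteSpace
  choose g hg hg' hn using fun n : ℕ => pos_approx F (ε := ε * (1 / 2) ^ (n + 3)) (by positivity)
  have hD : ∀ n, IsGenBy (posGen (PB X)) (g (n + 1) - g n) := fun n => by
    rw [sub_eq_add_neg]
    exact IsGenBy.add _ _ (hg _) (hg n).neg
  have hDn : ∀ n, ‖(FLat.of (g (n + 1)) (hg' (n + 1)) - FLat.of (g n) (hg' n) :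
      (FBLpos (PB X)).Space)‖ ≤ ε * (1 / 2) ^ (n + 2) := by
    intro n
    have h1 : (FLat.of (g (n + 1)) (hg' (n + 1)) - FLat.of (g n) (hg' n) :
      (FBLpos (PB X)).Space) = (F - FLat.of (g n) (hg' n)) - (F - FLat.of (g (n + 1)) (hg' (n + 1))) := by
      abel
    rw [h1]
    refine (norm_sub_le _ _).trans ?_
    have h2 := hn n
    have h3 := hn (n + 1)
    have h4 : ε * (1 / 2 : ℝ) ^ (n + 1 + 3) ≤ ε * (1 / 2) ^ (n + 3) := by
      refine mul_le_mul_of_nonneg_left ?_ hε.le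
      exact pow_le_pow_of_le_one (by norm_num) (by norm_num) (by omega)
    have h5 : ε * (1 / 2 : ℝ) ^ (n + 2) = ε * (1 / 2) ^ (n + 3) + ε * (1 / 2) ^ (n + 3) := by ring
    linarith
  choose S c hc0 hcM hcD using fun n => exists_dominate (hD n) (M := ε * (1 / 2) ^ (n + 2))
    (by positivity) (fun w hw => (FLat.pr_le (FLat.of (g (n + 1)) (hg' (n + 1)) -
      FLat.of (g n) (hg' n) : (FBLpos (PB X)).Space) hw).trans (hDn n))
  let vn : ℕ → X := fun n => ∑ a ∈ S n, c n a • (a : X)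
  have hvn0 : ∀ n, 0 ≤ vn n := fun n => Finset.sum_nonneg fun a _ => smul_nonneg (hc0 n a) a.2.1
  have hvnn : ∀ n, ‖vn n‖ ≤ ε * (1 / 2) ^ (n + 2) := by
    intro n
    refine (norm_sum_le _ _).trans (le_trans (Finset.sum_le_sum fun a _ => ?_) (hcM n))
    rw [norm_smul, Real.norm_of_nonneg (hc0 n a)]
    exact mul_le_of_le_one_right (hc0 n a) a.2.2
  have hgeo : HasSum (fun n : ℕ => ε * (1 / 2 : ℝ) ^ (n + 2)) (ε * (1 / 2)) := by
    have h1 := (hasSum_geometric_of_lt_one (r := (1 / 2 : ℝ)) (by norm_num) (by norm_num)).mul_left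
      (ε * (1 / 2) ^ 2)
    have h2 : (fun n : ℕ => ε * (1 / 2 : ℝ) ^ (n + 2)) = fun n : ℕ => ε * (1 / 2) ^ 2 * (1 / 2) ^ n := by
      funext n; ring
    rw [h2]
    have h3 : ε * (1 / 2 : ℝ) = ε * (1 / 2) ^ 2 * (1 - 1 / 2)⁻¹ := by ring
    rw [h3]
    exact h1
  have hsumv : Summable vn := Summable.of_norm_bounded hgeo.summable hvnn
  obtain ⟨K, T, hK, hlip⟩ := gen_lipschitz (hg 0)
  refine ⟨K, T, ∑' n, vn n, hK, tsum_nonneg hvn0, ?_, ?_⟩
  · refine (tsum_of_norm_bounded hgeo hvnn).trans ?_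
    linarith
  · intro R hR ψ0 ψ1 h0 h1
    have key : ∀ ψ : X →L[ℝ] ℝ, PosBd R ψ.toLinearMap →
        R * |F.fn (ptR R ψ.toLinearMap) - g 0 (ptR R ψ.toLinearMap)| ≤ ψ (∑' n, vn n) := by
      intro ψ hψ
      set ξ := ptR R ψ.toLinearMap with hξ
      have hDξ : ∀ n, R * |g (n + 1) ξ - g n ξ| ≤ ψ (vn n) := by
        intro n
        have h2 := mul_le_mul_of_nonneg_left (hcD n ξ) hR.le
        rw [Pi.sub_apply] at h2
        refine h2.trans (le_of_eq ?_)
        show _ = ψ (∑ a ∈ S n, c n a • (a : X))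
        rw [map_sum, Finset.mul_sum]
        refine Finset.sum_congr rfl fun a _ => ?_
        rw [map_smul, smul_eq_mul, mul_left_comm]
        congr 1
        exact ptR_apply hR hψ a
      have hpart : ∀ n, R * |g n ξ - g 0 ξ| ≤ ∑ k ∈ Finset.range n, ψ (vn k) := by
        intro n
        induction n with
        | zero => simp
        | succ n ih =>
          rw [Finset.sum_range_succ]
          have h2 : g (n + 1) ξ - g 0 ξ = (g n ξ - g 0 ξ) + (g (n + 1) ξ - g n ξ) := by ring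
          rw [h2]
          have h3 := mul_le_mul_of_nonneg_left (abs_add_le (g n ξ - g 0 ξ) (g (n + 1) ξ - g n ξ)) hR.le
          have h4 := hDξ n
          linarith
      have hpart2 : ∀ n, ∑ k ∈ Finset.range n, ψ (vn k) ≤ ψ (∑' n, vn n) := by
        intro n
        rw [← map_sum]
        have h2 := hψ.pos ((∑' n, vn n) - ∑ k ∈ Finset.range n, vn k)
          (sub_nonneg.2 (hsumv.sum_le_tsum _ fun j _ => hvn0 j))
        have h3 : ψ.toLinearMap ((∑' n, vn n) - ∑ k ∈ Finset.range n, vn k) =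
          ψ (∑' n, vn n) - ψ (∑ k ∈ Finset.range n, vn k) := map_sub _ _ _
        rw [h3] at h2
        linarith
      have hlim : Tendsto (fun n : ℕ => ψ (∑' n, vn n) + R * (ε * (1 / 2) ^ (n + 3))) atTop
          (𝓝 (ψ (∑' n, vn n) + R * (ε * 0))) := by
        refine tendsto_const_nhds.add (tendsto_const_nhds.mul (tendsto_const_nhds.mul ?_))
        exact (tendsto_pow_atTop_nhds_zero_of_lt_one (r := (1 / 2 : ℝ)) (by norm_num)
          (by norm_num)).comp (tendsto_add_atTop_nat 3)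
      rw [mul_zero, mul_zero, add_zero] at hlim
      refine ge_of_tendsto' hlim fun n => ?_
      have h2 : F.fn ξ - g 0 ξ = (g n ξ - g 0 ξ) + (F.fn ξ - g n ξ) := by ring
      rw [h2]
      have h3 := mul_le_mul_of_nonneg_left (abs_add_le (g n ξ - g 0 ξ) (F.fn ξ - g n ξ)) hR.le
      have h4 : |F.fn ξ - g n ξ| ≤ ε * (1 / 2) ^ (n + 3) :=
        (fn_le_norm (F - FLat.of (g n) (hg' n)) ξ).trans (hn n).le
      have h5 := mul_le_mul_of_nonneg_left h4 hR.le
      have h6 := hpart n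
      have h7 := hpart2 n
      linarith
    have h2 := key ψ0 h0
    have h3 := key ψ1 h1
    have h4 := mul_le_mul_of_nonneg_left (hlip (ptR R ψ1.toLinearMap) (ptR R ψ0.toLinearMap)) hR.le
    have h5 : R * (K * ∑ a ∈ T, |(ptR R ψ1.toLinearMap a : ℝ) - ptR R ψ0.toLinearMap a|) =
        K * ∑ a ∈ T, |ψ1 a - ψ0 a| := by
      rw [mul_left_comm, Finset.mul_sum]
      congr 1
      refine Finset.sum_congr rfl fun a _ => ?_
      have e1 : R * (ptR R ψ1.toLinearMap a : ℝ) = ψ1 a := ptR_apply hR h1 a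
      have e0 : R * (ptR R ψ0.toLinearMap a : ℝ) = ψ0 a := ptR_apply hR h0 a
      rw [← e1, ← e0, ← mul_sub, abs_mul, abs_of_pos hR]
    rw [h5] at h4
    set a1 := F.fn (ptR R ψ1.toLinearMap)
    set a0 := F.fn (ptR R ψ0.toLinearMap)
    set b1 := g 0 (ptR R ψ1.toLinearMap)
    set b0 := g 0 (ptR R ψ0.toLinearMap)
    have h6 : val R ψ1.toLinearMap F - val R ψ0.toLinearMap F = R * (a1 - a0) := by
      show R * a1 - R * a0 = _
      ring
    rw [h6, abs_mul, abs_of_pos hR]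
    have h7 : a1 - a0 = (a1 - b1) + (b1 - b0) - (a0 - b0) := by ring
    have h8 : |a1 - a0| ≤ |a1 - b1| + |b1 - b0| + |a0 - b0| := by
      rw [h7]
      exact (abs_sub _ _).trans (add_le_add (abs_add_le _ _) le_rfl)
    have h9 := mul_le_mul_of_nonneg_left h8 hR.le
    linarith

end rep

end Pool.Agent.R280.BLat
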