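import Mathlib

/-!
Borel maps which are linear modulo a subspace.
-/

set_option autoImplicit false

namespace Pool.Agent.R280.QuasiLin

/-- The data of the problem: `X` and `Y` are separable real Banach spaces; `j : M → Y` is an
injective linear map from the Banach space `M` with `‖j m‖ ≤ ‖m‖`, which identifies `M` with a linear
subspace of `Y` that has a complete norm `‖·‖_M ≥ ‖·‖_Y`; and `φ : X → Y` is a Borel map which is
linear modulo `M`. -/
structure IsQuasiLinear {X Y M : Type} [NormedAddCommGroup X] [NormedSpace ℝ X]
    [NormedAddCommGroup Y] [NormedSpace ℝ Y] [NormedAddCommGroup M] [NormedSpace ℝ M]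
    (j : M →L[ℝ] Y) (φ : X → Y) : Prop where
  completeX : CompleteSpace X
  separableX : TopologicalSpace.SeparableSpace X
  completeY : CompleteSpace Y
  separableY : TopologicalSpace.SeparableSpace Y
  completeM : CompleteSpace M
  injective : Function.Injective j
  norm_le : ∀ m, ‖j m‖ ≤ ‖m‖
  borel : @Measurable X Y (borel X) (borel Y) φ
  linear_mod : ∀ (a b : ℝ) (x y : X), ∃ m, φ (a • x + b • y) - (a • φ x + b • φ y) = j m

end Pool.Agent.R280.QuasiLin
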