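import Pool.Agent.R280.Center

/-!
Semiprojective Banach lattices and `ℓ`-open Banach lattices.
-/

set_option autoImplicit false
set_option linter.unusedSectionVars false

open Set Topology Filter TopologicalSpace

universe u v w

namespace Pool.Agent.R280.BLat

/-- `I ⊆ B` is a closed ideal: `B → B / I` is represented by quotient maps `Q : B → C` with
`ker Q = I`. The data of `B`, an increasing sequence of closed ideals `I_n = ker (Q_n)` and the
closed ideal `I = ker Q`, the closure of the union of the `I_n`. -/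
structure IndIdeal (B C : Type v) [NormedAddCommGroup B] [NormedSpace ℝ B] [Lattice B]
    [NormedAddCommGroup C] [NormedSpace ℝ C] [Lattice C] (Q : B →L[ℝ] C) (Cn : ℕ → Type v)
    [∀ n, NormedAddCommGroup (Cn n)] [∀ n, NormedSpace ℝ (Cn n)] [∀ n, Lattice (Cn n)]
    (Qn : ∀ n, B →L[ℝ] Cn n) : Prop where
  quot : IsQuotient Q
  quotn : ∀ n, IsQuotient (Qn n)
  mono : ∀ m n, m ≤ n → ∀ b, Qn m b = 0 → Qn n b = 0
  ker : ∀ b, Q b = 0 ↔ b ∈ closure (⋃ n, {b | Qn n b = 0})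

/-- `A` is semiprojective: for every separable Banach lattice `B`, all closed ideals
`I_1 ⊆ I_2 ⊆ …` of `B` with `I = closure (⋃ I_n)` and every lattice homomorphism `φ : A → B / I` with
`‖φ‖ ≤ 1` there is `n` such that for every `ε > 0` there is a lattice homomorphism
`ψ : A → B / I_n` with `‖ψ‖ ≤ 1 + ε` and `π_n ∘ ψ = φ`. Here `C = B / I`, `C_n = B / I_n`, and
`π_n (Q_n b) = Q b`. -/
def IsSemiprojective (A : Type u) [NormedAddCommGroup A] [NormedSpace ℝ A] [Lattice A] : Prop :=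
  ∀ (B C : Type v) [NormedAddCommGroup B] [NormedSpace ℝ B] [Lattice B] [BanachLattice B]
    [NormedAddCommGroup C] [NormedSpace ℝ C] [Lattice C] [BanachLattice C] [SeparableSpace B]
    (Q : B →L[ℝ] C) (Cn : ℕ → Type v) [∀ n, NormedAddCommGroup (Cn n)]
    [∀ n, NormedSpace ℝ (Cn n)] [∀ n, Lattice (Cn n)] [∀ n, BanachLattice (Cn n)]
    (Qn : ∀ n, B →L[ℝ] Cn n), IndIdeal B C Q Cn Qn →
    ∀ φ : A →L[ℝ] C, IsLatHom φ → ‖φ‖ ≤ 1 → ∃ n, ∀ ε : ℝ, 0 < ε →
      ∃ ψ : A →L[ℝ] Cn n, IsLatHom ψ ∧ ‖ψ‖ ≤ 1 + ε ∧ ∀ a b, Qn n b = ψ a → Q b = φ a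

/-- `φ : A → B / I = C` is `1⁺`-liftable. -/
def IsLiftable {A : Type u} [NormedAddCommGroup A] [NormedSpace ℝ A] [Lattice A] {B C : Type v}
    [NormedAddCommGroup B] [NormedSpace ℝ B] [Lattice B]
    [NormedAddCommGroup C] [NormedSpace ℝ C] [Lattice C] (Q : B →L[ℝ] C) (φ : A →L[ℝ] C) : Prop :=
  ∀ ε : ℝ, 0 < ε → ∃ ψ : A →L[ℝ] B, IsLatHom ψ ∧ (∀ a, Q (ψ a) = φ a) ∧ ‖ψ‖ ≤ 1 + ε

section qip

variable {B : Type u} [NormedAddCommGroup B] [NormedSpace ℝ B] [Lattice B] [BanachLattice B]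

lemma gIdeal_smul {d b : B} (h : b ∈ gIdeal d) (c : ℝ) : c • b ∈ gIdeal d := by
  obtain ⟨m, hm, hb⟩ := h
  refine ⟨|c| * m, by positivity, ?_⟩
  have h1 : |c • b| = |c| • |b| := by
    rcases lt_trichotomy c 0 with hc | hc | hc
    · have h2 : c • b = -((-c) • b) := by rw [neg_smul, neg_neg]
      rw [h2, abs_neg, abs_of_neg hc]
      show ((-c) • b) ⊔ -((-c) • b) = (-c) • (b ⊔ -b)
      rw [smul_sup' (neg_pos.2 hc), smul_neg]
    · subst hc; simp
    · rw [abs_of_pos hc]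
      show (c • b) ⊔ -(c • b) = c • (b ⊔ -b)
      rw [smul_sup' hc, smul_neg]
  rw [h1, mul_smul]
  exact smul_le_smul_of_nonneg_left hb (abs_nonneg c)

lemma abs_add_le' (a b : B) : |a + b| ≤ |a| + |b| := by
  rw [abs_le']
  constructor
  · exact add_le_add (le_abs_self a) (le_abs_self b)
  · rw [neg_add]
    exact add_le_add (neg_le_abs a) (neg_le_abs b)

lemma gIdeal_add {d b b' : B} (h : b ∈ gIdeal d) (h' : b' ∈ gIdeal d) : b + b' ∈ gIdeal d := by
  obtain ⟨m, hm, hb⟩ := h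
  obtain ⟨m', hm', hb'⟩ := h'
  refine ⟨m + m', add_nonneg hm hm', (abs_add_le' b b').trans ?_⟩
  rw [add_smul]
  exact add_le_add hb hb'

lemma zero_mem_gIdeal (d : B) : (0 : B) ∈ gIdeal d := ⟨0, le_rfl, by simp⟩

/-- the truncation of `b` by `a` -/
lemma trunc_abs_le {a b : B} (ha : 0 ≤ a) : |(b ⊓ a) ⊔ (-a)| ≤ a := by
  rw [abs_le']
  constructor
  · exact sup_le inf_le_right ((neg_nonpos.2 ha).trans ha)
  · rw [neg_le]
    exact le_sup_right

/-- the closed ideal generated by a positive element -/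
def cIdeal (d : B) : ClosedIdeal B where
  J :=
    ({ carrier := gIdeal d
       add_mem' := fun ha hb => gIdeal_add ha hb
       zero_mem' := zero_mem_gIdeal d
       smul_mem' := fun c _ h => gIdeal_smul h c } : Submodule ℝ B).topologicalClosure
  closed := Submodule.isClosed_topologicalClosure _
  solid := by
    intro a ha b hb
    have ha' : a ∈ closure (gIdeal d) := ha
    show b ∈ closure (gIdeal d)
    obtain ⟨z, hz, hlim⟩ := mem_closure_iff_seq_limit.1 ha'
    have hlim2 : Tendsto (fun n => (b ⊓ |z n|) ⊔ (-|z n|)) atTop (𝓝 ((b ⊓ |a|) ⊔ (-|a|))) := by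
      have h1 : Tendsto (fun n => |z n|) atTop (𝓝 |a|) := hlim.sup_nhds hlim.neg
      exact (tendsto_const_nhds.inf_nhds h1).sup_nhds h1.neg
    have h2 : (b ⊓ |a|) ⊔ (-|a|) = b := by
      rw [inf_eq_left.2 ((le_abs_self b).trans hb), sup_eq_left]
      exact neg_le.1 ((neg_le_abs b).trans hb)
    rw [h2] at hlim2
    refine mem_closure_of_tendsto hlim2 (Eventually.of_forall fun n => ?_)
    obtain ⟨m, hm, hzm⟩ := hz n
    exact ⟨m, hm, (trunc_abs_le (abs_nonneg _)).trans hzm⟩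

lemma mem_cIdeal {d : B} {b : B} : b ∈ (cIdeal d).J ↔ b ∈ closure (gIdeal d) :=
  Iff.rfl

/-- a separable closed ideal has an element which generates it -/
theorem exists_generator [SeparableSpace B] (I : ClosedIdeal B) :
    ∃ j : B, 0 ≤ j ∧ j ∈ I.J ∧ ∀ b ∈ I.J, b ∈ closure (gIdeal j) := by
  classical
  have hsc : SecondCountableTopology B := UniformSpace.secondCountable_of_separable B
  have hcs : CompleteSpace B := BanachLattice.toCompleteSpace
  have hne : Nonempty I.J := ⟨0⟩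
  obtain ⟨d, hd⟩ := exists_dense_seq I.J
  -- the weighted sum
  let t : ℕ → B := fun n => ((1 / 2 : ℝ) ^ n * (‖(d n : B)‖ + 1)⁻¹) • |(d n : B)|
  have ht0 : ∀ n, 0 ≤ t n := fun n => smul_nonneg (by positivity) (abs_nonneg _)
  have htn : ∀ n, ‖t n‖ ≤ (1 / 2 : ℝ) ^ n := by
    intro n
    show ‖((1 / 2 : ℝ) ^ n * (‖(d n : B)‖ + 1)⁻¹) • |(d n : B)|‖ ≤ _
    rw [norm_smul, norm_abs_eq_norm, Real.norm_of_nonneg (by positivity), mul_assoc]
    refine mul_le_of_le_one_right (by positivity) ?_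
    rw [inv_mul_le_iff₀ (by positivity)]
    linarith
  have htI : ∀ n, t n ∈ I.J := fun n =>
    I.J.smul_mem _ (I.solid _ (d n).2 _ (by rw [abs_abs]))
  have hsum : Summable t := Summable.of_norm_bounded
    (summable_geometric_of_lt_one (by norm_num) (by norm_num)) htn
  refine ⟨∑' n, t n, tsum_nonneg ht0, ?_, ?_⟩
  · have h1 := hsum.hasSum.tendsto_sum_nat
    exact I.closed.mem_of_tendsto h1 (Eventually.of_forall fun n => I.J.sum_mem fun i _ => htI i)
  · intro b hb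
    have h1 : (⟨b, hb⟩ : I.J) ∈ closure (range d) := hd _
    have h2 : b ∈ closure ((fun x : I.J => (x : B)) '' range d) :=
      map_mem_closure continuous_subtype_val h1 fun x hx => ⟨x, hx, rfl⟩
    refine closure_mono ?_ h2
    rintro _ ⟨_, ⟨n, rfl⟩, rfl⟩
    refine ⟨((1 / 2 : ℝ) ^ n * (‖(d n : B)‖ + 1)⁻¹)⁻¹, by positivity, ?_⟩
    have h3 : t n ≤ ∑' n, t n := hsum.le_tsum n fun j _ => ht0 j
    have h4 := smul_le_smul_of_nonneg_left h3
      (show (0 : ℝ) ≤ ((1 / 2 : ℝ) ^ n * (‖(d n : B)‖ + 1)⁻¹)⁻¹ by positivity)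
    refine le_trans (le_of_eq ?_) h4
    show |(d n : B)| = _ • (((1 / 2 : ℝ) ^ n * (‖(d n : B)‖ + 1)⁻¹) • |(d n : B)|)
    rw [smul_smul, inv_mul_cancel₀ (by positivity), one_smul]

end qip

section main

variable {B C : Type v} [NormedAddCommGroup B] [NormedSpace ℝ B] [Lattice B] [BanachLattice B]
  [NormedAddCommGroup C] [NormedSpace ℝ C] [Lattice C] [BanachLattice C]

/-- the kernel of a lattice homomorphism -/
def kerIdeal {Q : B →L[ℝ] C} (hQ : IsLatHom Q) : ClosedIdeal B where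
  J := LinearMap.ker Q.toLinearMap
  closed := isClosed_eq Q.continuous continuous_const
  solid := by
    intro a ha b hb
    have ha' : Q a = 0 := ha
    show Q b = 0
    have h1 : |Q b| ≤ 0 := by
      rw [← hQ.map_abs]
      refine (hQ.mono hb).trans (le_of_eq ?_)
      rw [hQ.map_abs, ha', abs_zero]
    have h2 : |Q b| = 0 := le_antisymm h1 (abs_nonneg _)
    have h3 := norm_abs_eq_norm (Q b)
    rw [h2, norm_zero] at h3
    exact norm_eq_zero.1 h3.symm

lemma mem_kerIdeal {Q : B →L[ℝ] C} (hQ : IsLatHom Q) {b : B} : b ∈ (kerIdeal hQ).J ↔ Q b = 0 :=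
  Iff.rfl

lemma gIdeal_mono {d d' : B} (h : d ≤ d') : gIdeal d ⊆ gIdeal d' := by
  rintro b ⟨m, hm, hb⟩
  exact ⟨m, hm, hb.trans (smul_le_smul_of_nonneg_left h hm)⟩

lemma IsLatHom.comp {X Y Z : Type*} [NormedAddCommGroup X] [NormedSpace ℝ X] [Lattice X]
    [NormedAddCommGroup Y] [NormedSpace ℝ Y] [Lattice Y] [NormedAddCommGroup Z] [NormedSpace ℝ Z]
    [Lattice Z] {S : Y →L[ℝ] Z} {T : X →L[ℝ] Y} (hS : IsLatHom S) (hT : IsLatHom T) :
    IsLatHom (S.comp T) := by
  intro a b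
  constructor
  · show S (T (a ⊔ b)) = S (T a) ⊔ S (T b)
    rw [(hT a b).1, (hS _ _).1]
  · show S (T (a ⊓ b)) = S (T a) ⊓ S (T b)
    rw [(hT a b).2, (hS _ _).2]

/-- Semiprojective Banach lattices: all contractive lattice homomorphisms into quotients of
separable Banach lattices are `1⁺`-liftable. -/
theorem IsSemiprojective.liftable {A : Type u} [NormedAddCommGroup A] [NormedSpace ℝ A]
    [Lattice A] (hA : IsSemiprojective.{u, v} A) [SeparableSpace B] {Q : B →L[ℝ] C}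
    (hQ : IsQuotient Q) {φ : A →L[ℝ] C} (hφ : IsLatHom φ) (hφ1 : ‖φ‖ ≤ 1) : IsLiftable Q φ := by
  classical
  -- generators of the kernel and of the whole space
  obtain ⟨j, hj0, hjQ, hjgen⟩ := exists_generator (kerIdeal hQ.1)
  rw [mem_kerIdeal] at hjQ
  let top : ClosedIdeal B := ⟨⊤, isClosed_univ, fun _ _ _ _ => trivial⟩
  obtain ⟨e, he0, -, hegen⟩ := exists_generator top
  have hedense : Dense (gIdeal e) := fun b => hegen b trivial
  -- the ideals
  let c : ℕ → ℝ := fun n => 1 / ((n : ℝ) + 1)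
  have hc : ∀ n, 0 < c n := fun n => by positivity
  let d : ℕ → B := fun n => (j - c n • e) ⊔ 0
  have hd0 : ∀ n, 0 ≤ d n := fun n => le_sup_right
  have hdj : ∀ n, d n ≤ j := fun n =>
    sup_le (sub_le_self _ (smul_nonneg (hc n).le he0)) hj0
  have hdmono : ∀ m n, m ≤ n → d m ≤ d n := by
    intro m n hmn
    refine sup_le_sup_right (sub_le_sub_left ?_ j) 0
    refine smul_le_smul_of_nonneg_right ?_ he0
    show 1 / ((n : ℝ) + 1) ≤ 1 / ((m : ℝ) + 1)
    have : (m : ℝ) ≤ n := Nat.cast_le.2 hmn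
    exact one_div_le_one_div_of_le (by positivity) (by linarith)
  have hdlim : Tendsto d atTop (𝓝 j) := by
    have h1 : Tendsto c atTop (𝓝 0) := tendsto_one_div_add_atTop_nhds_zero_nat
    have h2 : Tendsto (fun n => (j - c n • e) ⊔ 0) atTop (𝓝 ((j - (0 : ℝ) • e) ⊔ 0)) :=
      (tendsto_const_nhds.sub (h1.smul_const e)).sup_nhds tendsto_const_nhds
    rwa [zero_smul, sub_zero, sup_eq_left.2 hj0] at h2
  have hQd : ∀ n b, b ∈ closure (gIdeal (d n)) → Q b = 0 := by
    intro n b hb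
    have hcl : IsClosed {b | Q b = 0} := isClosed_eq Q.continuous continuous_const
    refine closure_minimal ?_ hcl hb
    rintro b' ⟨m, hm, hb'⟩
    refine (mem_kerIdeal hQ.1).1 ((kerIdeal hQ.1).solid (m • j) ?_ b' ?_)
    · exact (mem_kerIdeal hQ.1).2 (by rw [map_smul, hjQ, smul_zero])
    · rw [abs_of_nonneg (smul_nonneg hm hj0)]
      exact hb'.trans (smul_le_smul_of_nonneg_left (hdj n) hm)
  have hjker : ∀ b, b ∈ closure (gIdeal j) → Q b = 0 := by
    intro b hb
    have hcl : IsClosed {b | Q b = 0} := isClosed_eq Q.continuous continuous_const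
    refine closure_minimal ?_ hcl hb
    rintro b' ⟨m, hm, hb'⟩
    refine (mem_kerIdeal hQ.1).1 ((kerIdeal hQ.1).solid (m • j) ?_ b' ?_)
    · exact (mem_kerIdeal hQ.1).2 (by rw [map_smul, hjQ, smul_zero])
    · rw [abs_of_nonneg (smul_nonneg hm hj0)]
      exact hb'
  have hind : IndIdeal B C Q (fun n => IQ (cIdeal (d n))) (fun n => iqMap (cIdeal (d n))) := by
    refine ⟨hQ, fun n => iqMap_quotient _, ?_, fun b => ⟨fun hb => ?_, fun hb => ?_⟩⟩
    · intro m n hmn b hb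
      rw [iqMap_eq_zero, mem_cIdeal] at hb ⊢
      exact closure_mono (gIdeal_mono (hdmono m n hmn)) hb
    · have h1 : b ∈ closure (gIdeal j) := hjgen b hb
      refine closure_minimal ?_ isClosed_closure h1
      rintro b' ⟨m, hm, hb'⟩
      have hlim2 : Tendsto (fun n => (b' ⊓ m • d n) ⊔ (-(m • d n))) atTop
          (𝓝 ((b' ⊓ m • j) ⊔ (-(m • j)))) := by
        have h2 : Tendsto (fun n => m • d n) atTop (𝓝 (m • j)) := hdlim.const_smul m
        exact (tendsto_const_nhds.inf_nhds h2).sup_nhds h2.neg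
      have h2 : (b' ⊓ m • j) ⊔ (-(m • j)) = b' := by
        rw [inf_eq_left.2 ((le_abs_self b').trans hb'), sup_eq_left]
        exact neg_le.1 ((neg_le_abs b').trans hb')
      rw [h2] at hlim2
      refine mem_closure_of_tendsto hlim2 (Eventually.of_forall fun n => mem_iUnion.2 ⟨n, ?_⟩)
      show iqMap (cIdeal (d n)) _ = 0
      rw [iqMap_eq_zero, mem_cIdeal]
      exact subset_closure ⟨m, hm, trunc_abs_le (smul_nonneg hm (hd0 n))⟩
    · have hcl : IsClosed {b | Q b = 0} := isClosed_eq Q.continuous continuous_const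
      refine closure_minimal ?_ hcl hb
      intro b' hb'
      obtain ⟨n, hn⟩ := mem_iUnion.1 hb'
      have hn' : iqMap (cIdeal (d n)) b' = 0 := hn
      rw [iqMap_eq_zero, mem_cIdeal] at hn'
      exact hQd n b' hn'
  obtain ⟨n, hn⟩ := hA B C Q (fun n => IQ (cIdeal (d n))) (fun n => iqMap (cIdeal (d n))) hind φ
    hφ hφ1
  obtain ⟨θ, hθ, hθ1, hθk, hθj⟩ := exists_cutoff he0 hj0 hedense (hc n)
  obtain ⟨θ', hθ', hθ'1, hθ'Q⟩ := (iqMap_quotient (cIdeal (d n))).factor θ hθ (fun b hb => by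
    rw [iqMap_eq_zero, mem_cIdeal] at hb
    exact hθk b hb)
  intro ε hε
  obtain ⟨ψ, hψ, hψ1, hψQ⟩ := hn ε hε
  refine ⟨θ'.comp ψ, hθ'.comp hψ, fun a => ?_, ?_⟩
  · obtain ⟨b, hb⟩ := (iqMap_quotient (cIdeal (d n))).surj (ψ a)
    show Q (θ' (ψ a)) = φ a
    rw [← hψQ a b hb, ← hb, hθ'Q]
    have h3 := hjker _ (hθj b)
    rw [map_sub, sub_eq_zero] at h3
    exact h3
  · calc ‖θ'.comp ψ‖ ≤ ‖θ'‖ * ‖ψ‖ := ContinuousLinearMap.opNorm_comp_le _ _
      _ ≤ 1 * (1 + ε) := mul_le_mul (hθ'1.trans hθ1) hψ1 (norm_nonneg _) zero_le_one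
      _ = 1 + ε := one_mul _

/-- `Hom₁(A, C)`: the lattice homomorphisms `A → C` of norm at most one. -/
def Hom1 (A : Type u) [NormedAddCommGroup A] [NormedSpace ℝ A] [Lattice A] (C : Type v)
    [NormedAddCommGroup C] [NormedSpace ℝ C] [Lattice C] : Type (max u v) :=
  {φ : A →L[ℝ] C // IsLatHom φ ∧ ‖φ‖ ≤ 1}

/-- The point-norm topology of `Hom₁(A, C)`. -/
instance (A : Type u) [NormedAddCommGroup A] [NormedSpace ℝ A] [Lattice A] (C : Type v)
    [NormedAddCommGroup C] [NormedSpace ℝ C] [Lattice C] : TopologicalSpace (Hom1 A C) :=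
  induced (fun (φ : Hom1 A C) (a : A) => φ.1 a) Pi.topologicalSpace

/-- `A` is `ℓ`-open: for every separable Banach lattice `B` and every closed ideal `I` of `B`
(`C = B / I`) the `1⁺`-liftable elements form an open subset of `Hom₁(A, B / I)`. -/
def IsLOpen (A : Type u) [NormedAddCommGroup A] [NormedSpace ℝ A] [Lattice A] : Prop :=
  ∀ (B C : Type v) [NormedAddCommGroup B] [NormedSpace ℝ B] [Lattice B] [BanachLattice B]
    [NormedAddCommGroup C] [NormedSpace ℝ C] [Lattice C] [BanachLattice C] [SeparableSpace B]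
    (Q : B →L[ℝ] C), IsQuotient Q → IsOpen {φ : Hom1 A C | IsLiftable Q φ.1}

theorem IsSemiprojective.isLOpen {A : Type u} [NormedAddCommGroup A] [NormedSpace ℝ A]
    [Lattice A] (hA : IsSemiprojective.{u, v} A) : IsLOpen.{u, v} A := by
  intro B C _ _ _ _ _ _ _ _ _ Q hQ
  have : {φ : Hom1 A C | IsLiftable Q φ.1} = univ :=
    eq_univ_of_forall fun φ => hA.liftable hQ φ.2.1 φ.2.2
  rw [this]
  exact isOpen_univ

end main

section lopen

variable {A : Type u} [NormedAddCommGroup A] [NormedSpace ℝ A] [Lattice A] [BanachLattice A]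
variable {B C : Type v} [NormedAddCommGroup B] [NormedSpace ℝ B] [Lattice B] [BanachLattice B]
  [NormedAddCommGroup C] [NormedSpace ℝ C] [Lattice C] [BanachLattice C]

lemma IsLatHom.smul {T : A →L[ℝ] C} (hT : IsLatHom T) {t : ℝ} (ht : 0 ≤ t) :
    IsLatHom (t • T) := by
  rcases eq_or_lt_of_le ht with rfl | ht
  · intro a b
    constructor <;> simp
  · intro a b
    constructor
    · show t • T (a ⊔ b) = t • T a ⊔ t • T b
      rw [(hT a b).1, smul_sup' ht]
    · show t • T (a ⊓ b) = t • T a ⊓ t • T b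
      have h1 : ∀ c d : C, t • (c ⊓ d) = t • c ⊓ t • d := by
        intro c d
        have h2 : c ⊓ d = -(-c ⊔ -d) := by rw [← neg_inf, neg_neg]
        rw [h2, smul_neg, smul_sup' ht, smul_neg, smul_neg, ← neg_inf, neg_neg]
      rw [(hT a b).2, h1]

/-- the dilations of a lattice homomorphism -/
noncomputable def dil {φ : A →L[ℝ] C} (hφ : IsLatHom φ) (hφ1 : ‖φ‖ ≤ 1) (t : unitInterval) :
    Hom1 A C :=
  ⟨(t : ℝ) • φ, hφ.smul t.2.1, by
    rw [norm_smul, Real.norm_of_nonneg t.2.1]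
    exact mul_le_one₀ t.2.2 (norm_nonneg _) hφ1⟩

lemma continuous_dil {φ : A →L[ℝ] C} (hφ : IsLatHom φ) (hφ1 : ‖φ‖ ≤ 1) :
    Continuous (dil hφ hφ1) := by
  rw [continuous_induced_rng]
  refine continuous_pi fun a => ?_
  show Continuous fun t : unitInterval => (t : ℝ) • φ a
  fun_prop

theorem IsLOpen.liftable (hA : IsLOpen.{u, v} A) [SeparableSpace B] {Q : B →L[ℝ] C}
    (hQ : IsQuotient Q) {φ : A →L[ℝ] C} (hφ : IsLatHom φ) (hφ1 : ‖φ‖ ≤ 1) : IsLiftable Q φ := by
  let S : Set unitInterval := dil hφ hφ1 ⁻¹' {φ : Hom1 A C | IsLiftable Q φ.1}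
  have hSo : IsOpen S := (hA B C Q hQ).preimage (continuous_dil hφ hφ1)
  have hmem : ∀ t : unitInterval, t ∈ S ↔ IsLiftable Q ((t : ℝ) • φ) := fun t => Iff.rfl
  have h0 : (0 : unitInterval) ∈ S := by
    rw [hmem]
    intro ε hε
    refine ⟨0, fun a b => by simp, fun a => ?_, by rw [norm_zero]; linarith⟩
    simp
  have hSc : IsClosed S := by
    refine isClosed_of_closure_subset fun t ht => ?_
    rcases eq_or_lt_of_le t.2.1 with h | h
    · have : t = 0 := Subtype.ext h.symm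
      rw [this]; exact h0
    · rw [hmem]
      intro ε hε
      -- choose `s` close to `t`
      have hcont : ContinuousAt (fun s : ℝ => (t : ℝ) / s * (1 + ε / 2)) (t : ℝ) := by
        refine ContinuousAt.mul (ContinuousAt.div continuousAt_const continuousAt_id h.ne')
          continuousAt_const
      have hlt : (t : ℝ) / (t : ℝ) * (1 + ε / 2) < 1 + ε := by
        rw [div_self h.ne', one_mul]; linarith
      have hev : ∀ᶠ s : ℝ in 𝓝 (t : ℝ), (t : ℝ) / s * (1 + ε / 2) < 1 + ε ∧ 0 < s :=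
        (hcont.eventually_lt_const hlt).and (lt_mem_nhds h)
      have hev2 : ∀ᶠ s : unitInterval in 𝓝 t, (t : ℝ) / (s : ℝ) * (1 + ε / 2) < 1 + ε ∧ 0 < (s : ℝ) :=
        (continuous_subtype_val.tendsto t).eventually hev
      obtain ⟨s, ⟨hs1, hs2⟩, hsS⟩ := (mem_closure_iff_nhds.1 ht _ hev2)
      obtain ⟨ψ, hψ, hψQ, hψn⟩ := (hmem s).1 hsS (ε / 2) (by linarith)
      refine ⟨((t : ℝ) / (s : ℝ)) • ψ, hψ.smul (by positivity), fun a => ?_, ?_⟩
      · show Q (((t : ℝ) / (s : ℝ)) • ψ a) = (t : ℝ) • φ a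
        rw [map_smul, hψQ]
        show ((t : ℝ) / (s : ℝ)) • ((s : ℝ) • φ a) = (t : ℝ) • φ a
        rw [smul_smul, div_mul_cancel₀ _ hs2.ne']
      · rw [norm_smul, Real.norm_of_nonneg (by positivity)]
        exact (mul_le_mul_of_nonneg_left hψn (by positivity)).trans hs1.le
  have huniv : S = univ := IsClopen.eq_univ ⟨hSc, hSo⟩ ⟨0, h0⟩
  have h1 : (1 : unitInterval) ∈ S := by rw [huniv]; trivial
  rw [hmem] at h1
  simpa using h1

/-- if contractive lattice homomorphisms into quotients of separable Banach lattices are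
`1⁺`-liftable, `A` is semiprojective -/
theorem isSemiprojective_of_liftable {A : Type u} [NormedAddCommGroup A] [NormedSpace ℝ A]
    [Lattice A] (hA : ∀ (B C : Type v) [NormedAddCommGroup B] [NormedSpace ℝ B] [Lattice B]
      [BanachLattice B] [NormedAddCommGroup C] [NormedSpace ℝ C] [Lattice C] [BanachLattice C]
      [SeparableSpace B] (Q : B →L[ℝ] C), IsQuotient Q → ∀ φ : A →L[ℝ] C, IsLatHom φ → ‖φ‖ ≤ 1 →
        IsLiftable Q φ) : IsSemiprojective.{u, v} A := by
  intro B C _ _ _ _ _ _ _ _ _ Q Cn _ _ _ _ Qn hind φ hφ hφ1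
  obtain ⟨π, hπ, hπn, hπQ⟩ := (hind.quotn 0).factor Q hind.quot.1 (fun b hb => by
    rw [hind.ker]
    exact subset_closure (mem_iUnion.2 ⟨0, hb⟩))
  have hQn : ‖Q‖ ≤ 1 := Q.opNorm_le_bound zero_le_one fun b => by
    rw [one_mul]; exact hind.quot.norm_le b
  have hπq : IsQuotient π := by
    refine ⟨hπ, fun c => ⟨?_, fun r hr => ?_⟩⟩
    · rintro r ⟨x, rfl, rfl⟩
      refine (π.le_opNorm x).trans ?_
      exact mul_le_of_le_one_left (norm_nonneg _) (hπn.trans hQn)
    · refine le_of_forall_pos_le_add fun ε hε => ?_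
      obtain ⟨b, hb, hlt⟩ := hind.quot.exists_lift c (lt_add_of_pos_right _ hε)
      have h1 := hr ⟨Qn 0 b, by rw [hπQ, hb], rfl⟩
      exact h1.trans (((hind.quotn 0).norm_le b).trans hlt.le)
  have hsep : SeparableSpace (Cn 0) := by
    have hd : DenseRange (Qn 0) := (Function.Surjective.denseRange fun c => (hind.quotn 0).surj c)
    exact hd.separableSpace (Qn 0).continuous
  refine ⟨0, fun ε hε => ?_⟩
  obtain ⟨ψ, hψ, hψπ, hψn⟩ := hA (Cn 0) C π hπq φ hφ hφ1 ε hε
  refine ⟨ψ, hψ, hψn, fun a b hb => ?_⟩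
  rw [← hπQ, hb, hψπ]

theorem IsLOpen.isSemiprojective (hA : IsLOpen.{u, v} A) : IsSemiprojective.{u, v} A :=
  isSemiprojective_of_liftable fun _ _ _ _ _ _ _ _ _ _ _ _ hQ _ hφ hφ1 => hA.liftable hQ hφ hφ1

end lopen

end Pool.Agent.R280.BLat
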