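import Pool.Agent.R280.BLat

/-!
Sick compact spaces: the spaces `K` such that `C(K)` is, as a vector lattice, the principal ideal
generated by some positive element of a separable Banach lattice.
-/

set_option autoImplicit false
set_option linter.unusedSectionVars false

open Set Topology Filter Pool.Agent.R280.BLat

universe u v

namespace Pool.Agent.R280.Sick

/-- `T : C(K) → E` is a vector lattice isomorphism onto the principal ideal
`E_x = {y : ∃ r > 0, |y| ≤ r x}` of the vector lattice `E` generated by `x ≥ 0`. -/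
structure IsIdealRep {K : Type u} [TopologicalSpace K] {E : Type v} [NormedAddCommGroup E]
    [NormedSpace ℝ E] [Lattice E] (T : C(K, ℝ) →ₗ[ℝ] E) (x : E) : Prop where
  nonneg : 0 ≤ x
  inj : Function.Injective T
  map_sup : ∀ f g, T (f ⊔ g) = T f ⊔ T g
  map_inf : ∀ f g, T (f ⊓ g) = T f ⊓ T g
  range_iff : ∀ y : E, y ∈ Set.range T ↔ ∃ r : ℝ, 0 < r ∧ |y| ≤ r • x

/-- `K` is sick: there are a separable Banach lattice `E`, an element `x ≥ 0` of `E` and a vector
lattice isomorphism of `C(K)` onto the principal ideal `E_x`. -/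
def IsSick (K : Type u) [TopologicalSpace K] : Prop :=
  ∃ (E : Type v) (_ : NormedAddCommGroup E) (_ : NormedSpace ℝ E) (_ : Lattice E)
    (_ : BanachLattice E) (_ : TopologicalSpace.SeparableSpace E) (x : E)
    (T : C(K, ℝ) →ₗ[ℝ] E), IsIdealRep T x

section rep

variable {K : Type u} [TopologicalSpace K] [CompactSpace K]
variable {E : Type v} [NormedAddCommGroup E] [NormedSpace ℝ E] [Lattice E] [BanachLattice E]
variable {T : C(K, ℝ) →ₗ[ℝ] E} {x : E}

lemma IsIdealRep.map_abs (h : IsIdealRep T x) (f : C(K, ℝ)) : T |f| = |T f| := by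
  show T (f ⊔ -f) = T f ⊔ -T f
  rw [h.map_sup, map_neg]

lemma IsIdealRep.mono (h : IsIdealRep T x) {f g : C(K, ℝ)} (hfg : f ≤ g) : T f ≤ T g := by
  have h1 := h.map_sup f g
  rw [sup_eq_right.2 hfg] at h1
  rw [h1]
  exact le_sup_left

lemma IsIdealRep.le_of (h : IsIdealRep T x) {f g : C(K, ℝ)} (hfg : T f ≤ T g) : f ≤ g := by
  have h1 := h.map_sup f g
  rw [sup_eq_right.2 hfg] at h1
  exact sup_eq_right.1 (h.inj h1)

lemma IsIdealRep.pos (h : IsIdealRep T x) {f : C(K, ℝ)} (hf : 0 ≤ f) : 0 ≤ T f := by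
  have := h.mono hf
  rwa [map_zero] at this

lemma abs_le_norm_smul_one (f : C(K, ℝ)) : |f| ≤ ‖f‖ • (1 : C(K, ℝ)) := by
  intro k
  have h1 : |f| k = |f k| := by
    show (f ⊔ -f) k = _
    rw [ContinuousMap.sup_apply]
    rfl
  have := f.norm_coe_le_norm k
  show |f| k ≤ (‖f‖ • (1 : C(K, ℝ))) k
  rw [h1]
  simpa using this

/-- the range of `T` is the ideal generated by `T 1` -/
lemma IsIdealRep.mem_range (h : IsIdealRep T x) {y : E} {r : ℝ} (hy : |y| ≤ r • T 1) :
    ∃ f, T f = y := by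
  obtain ⟨s, hs, hx⟩ := (h.range_iff (T 1)).1 ⟨1, rfl⟩
  have hT1 : (0 : E) ≤ T 1 := h.pos (by intro k; simp)
  have h1 : |y| ≤ (|r| * s + 1) • x := by
    calc |y| ≤ r • T 1 := hy
      _ ≤ |r| • T 1 := smul_le_smul_of_nonneg_right (le_abs_self r) hT1
      _ ≤ |r| • (s • x) := smul_le_smul_of_nonneg_left ((le_abs_self _).trans hx) (abs_nonneg r)
      _ = (|r| * s) • x := smul_smul _ _ _
      _ ≤ (|r| * s + 1) • x := smul_le_smul_of_nonneg_right (by linarith) h.nonneg
  obtain ⟨f, hf⟩ := (h.range_iff y).2 ⟨_, by positivity, h1⟩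
  exact ⟨f, hf⟩

lemma IsIdealRep.norm_le (h : IsIdealRep T x) (f : C(K, ℝ)) : ‖T f‖ ≤ ‖T 1‖ * ‖f‖ := by
  have h1 : |T f| ≤ |‖f‖ • T 1| := by
    rw [← h.map_abs]
    refine (h.mono (abs_le_norm_smul_one f)).trans ?_
    rw [map_smul]
    exact le_abs_self _
  have h2 := norm_le_norm_of_abs_le_abs h1
  rwa [norm_smul, norm_norm, mul_comm] at h2

lemma IsIdealRep.norm_mono (h : IsIdealRep T x) {f g : C(K, ℝ)} (hfg : |f| ≤ |g|) :
    ‖T f‖ ≤ ‖T g‖ := by
  refine norm_le_norm_of_abs_le_abs ?_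
  rw [← h.map_abs, ← h.map_abs]
  exact h.mono hfg

/-- order intervals of `C(K)` are complete in the norm of `E` -/
lemma IsIdealRep.complete (h : IsIdealRep T x) {f : ℕ → C(K, ℝ)} {y : E}
    (hf : ∀ n, |f n| ≤ 1) (hy : Tendsto (fun n => T (f n)) atTop (𝓝 y)) :
    ∃ g, T g = y ∧ |g| ≤ 1 := by
  have h1 : |y| ≤ T 1 := by
    have h2 : Tendsto (fun n => |T (f n)|) atTop (𝓝 |y|) := hy.sup_nhds hy.neg
    refine le_of_tendsto h2 (Eventually.of_forall fun n => ?_)
    rw [← h.map_abs]
    exact h.mono (hf n)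
  obtain ⟨g, hg⟩ := h.mem_range (r := 1) (by rwa [one_smul])
  refine ⟨g, hg, h.le_of ?_⟩
  rw [h.map_abs, hg]
  exact h1

end rep

section small

variable {L : Type u} [TopologicalSpace L] [CompactSpace L] [T2Space L]

/-- If a lattice norm on `C(L)` is not bounded below by a multiple of the sup norm, there are
disjoint functions of sup norm one with summable norms. -/
theorem exists_disjoint_small (N : C(L, ℝ) → ℝ) (hN0 : ∀ f, 0 ≤ N f)
    (hmono : ∀ f g, 0 ≤ f → f ≤ g → N f ≤ N g) (habs : ∀ f, N |f| = N f)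
    (hsmul : ∀ (c : ℝ) f, 0 ≤ c → N (c • f) = c * N f) (hpos : ∀ f, N f = 0 → f = 0)
    (hno : ∀ c : ℝ, 0 < c → ∃ f, N f < c * ‖f‖) :
    ∃ (w : ℕ → C(L, ℝ)) (l : ℕ → L), (∀ i, 0 ≤ w i ∧ w i ≤ 1 ∧ w i (l i) = 1) ∧
      (∀ i j, i ≠ j → ∀ t, w i t = 0 ∨ w j t = 0) ∧ Summable (fun i => N (w i)) := by
  classical
  -- choose small functions of norm one
  have h1 : ∀ n : ℕ, ∃ (f : C(L, ℝ)) (t : L), 0 ≤ f ∧ f t = 1 ∧ N f ≤ (1 / 2 : ℝ) ^ n := by
    intro n
    obtain ⟨f, hf⟩ := hno ((1 / 2 : ℝ) ^ n) (by positivity)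
    have hfpos : 0 < ‖f‖ := by
      by_contra hcon
      have h0 : ‖f‖ = 0 := le_antisymm (not_lt.1 hcon) (norm_nonneg _)
      rw [h0, mul_zero] at hf
      exact absurd hf (not_lt.2 (hN0 _))
    have : Nonempty L := by
      by_contra hne
      rw [not_nonempty_iff] at hne
      have : f = 0 := by ext t; exact (hne.false t).elim
      rw [this, norm_zero] at hfpos
      exact lt_irrefl _ hfpos
    obtain ⟨t, ht⟩ : ∃ t, ‖f t‖ = ‖f‖ := by
      obtain ⟨t, -, ht⟩ := isCompact_univ.exists_isMaxOn (univ_nonempty (α := L))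
        (f := fun t => ‖f t‖) (by fun_prop)
      refine ⟨t, le_antisymm (f.norm_coe_le_norm t) ?_⟩
      rw [ContinuousMap.norm_le _ (norm_nonneg _)]
      intro s
      exact ht (mem_univ s)
    refine ⟨‖f‖⁻¹ • |f|, t, smul_nonneg (by positivity) (abs_nonneg f), ?_, ?_⟩
    · show ‖f‖⁻¹ * |f| t = 1
      have : |f| t = |f t| := by
        show (f ⊔ -f) t = _
        rw [ContinuousMap.sup_apply]
        rfl
      rw [this, ← Real.norm_eq_abs, ht]
      exact inv_mul_cancel₀ hfpos.ne'
    · rw [hsmul _ _ (by positivity), habs]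
      rw [inv_mul_le_iff₀ hfpos, mul_comm]
      exact hf.le
  choose w l hw0 hwl hwN using h1
  set U : ℕ → Set L := fun n => {t | 1 / 2 < w n t} with hU
  have hUo : ∀ n, IsOpen (U n) := fun n => isOpen_lt continuous_const (w n).continuous
  have hlU : ∀ n, l n ∈ U n := fun n => by
    show 1 / 2 < w n (l n)
    rw [hwl]; norm_num
  have hsm : ∀ n (f : C(L, ℝ)), 0 ≤ f → f ≤ 1 → (∀ t, t ∉ U n → f t = 0) →
      N f ≤ 2 * (1 / 2 : ℝ) ^ n := by
    intro n f hf0 hf1 hf
    have h2 : f ≤ (2 : ℝ) • w n := by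
      intro t
      show f t ≤ 2 * w n t
      by_cases ht : t ∈ U n
      · have h3 : 1 / 2 < w n t := ht
        have h4 : f t ≤ 1 := hf1 t
        linarith
      · rw [hf t ht]
        have h3 : 0 ≤ w n t := hw0 n t
        linarith
    calc N f ≤ N ((2 : ℝ) • w n) := hmono _ _ hf0 h2
      _ = 2 * N (w n) := hsmul _ _ (by norm_num)
      _ ≤ _ := by linarith [hwN n]
  -- a cluster point of the maximum points
  obtain ⟨z, -, hz⟩ : ∃ z ∈ (univ : Set L), MapClusterPt z atTop l := by
    have := isCompact_univ (X := L)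
    exact this (f := map l atTop) (by simp)
  have hclaim : ∀ V : Set L, IsOpen V → z ∈ V → ∃ᶠ n in atTop, ∃ t ∈ U n ∩ V, t ≠ z := by
    intro V hV hzV
    by_contra hcon
    rw [not_frequently] at hcon
    have hfr : ∃ᶠ n in atTop, l n ∈ V := hz.frequently (hV.mem_nhds hzV)
    have hfr2 : ∃ᶠ n in atTop, U n ∩ V = {z} := by
      refine (hfr.and_eventually hcon).mono ?_
      rintro n ⟨h2, h3⟩
      push Not at h3
      refine Subset.antisymm (fun t ht => h3 t ht) ?_
      have := h3 (l n) ⟨hlU n, h2⟩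
      rw [← this]
      exact singleton_subset_iff.2 ⟨hlU n, h2⟩
    obtain ⟨n0, hn0⟩ := hfr2.exists
    have hopen : IsOpen ({z} : Set L) := by
      rw [← hn0]
      exact (hUo n0).inter hV
    have hclopen : IsClopen ({z} : Set L) := ⟨isClosed_singleton, hopen⟩
    set g : C(L, ℝ) := ⟨({z} : Set L).indicator 1, by
      exact (IsClopen.continuous_indicator hclopen continuous_const)⟩ with hg
    have hgz : g z = 1 := by
      show ({z} : Set L).indicator 1 z = (1 : ℝ)
      simp
    have hg0 : 0 ≤ g := by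
      intro t
      show (0 : ℝ) ≤ ({z} : Set L).indicator 1 t
      exact indicator_nonneg (fun _ _ => zero_le_one) t
    have hg1 : g ≤ 1 := by
      intro t
      show ({z} : Set L).indicator 1 t ≤ (1 : ℝ)
      by_cases ht : t = z <;> simp [ht]
    have hNg : N g = 0 := by
      refine le_antisymm ?_ (hN0 g)
      have h3 : ∃ᶠ n : ℕ in atTop, N g ≤ 2 * (1 / 2 : ℝ) ^ n := by
        refine hfr2.mono fun n hn => ?_
        refine hsm n g hg0 hg1 fun t ht => ?_
        show ({z} : Set L).indicator 1 t = (0 : ℝ)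
        rw [indicator_of_notMem]
        intro h4
        rw [← hn] at h4
        exact ht h4.1
      have h4 : Tendsto (fun n : ℕ => 2 * (1 / 2 : ℝ) ^ n) atTop (𝓝 (2 * 0)) :=
        (tendsto_pow_atTop_nhds_zero_of_lt_one (by norm_num) (by norm_num)).const_mul 2
      rw [mul_zero] at h4
      exact ge_of_tendsto_of_frequently h4 h3
    have := hpos g hNg
    rw [this] at hgz
    simp at hgz
  -- inductive choice of disjoint open sets
  obtain ⟨F, hF1, hF2⟩ := exists_seq_of_forall_finset_exists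
    (fun p : ℕ × Set L => IsOpen p.2 ∧ p.2.Nonempty ∧ p.2 ⊆ U p.1 ∧ (p.2)ᶜ ∈ 𝓝 z)
    (fun p q => p.1 < q.1 ∧ Disjoint p.2 q.2) (by
      intro s hs
      set V : Set L := ⋂ p ∈ s, interior (p.2)ᶜ with hV
      have hVo : IsOpen V := isOpen_biInter_finset fun _ _ => isOpen_interior
      have hzV : z ∈ V := by
        simp only [hV, mem_iInter]
        intro p hp
        exact mem_interior_iff_mem_nhds.2 (hs p hp).2.2.2
      obtain ⟨n, hn, t, ⟨htU, htV⟩, htz⟩ := (frequently_atTop.1 (hclaim V hVo hzV))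
        (s.sup (fun p => p.1) + 1)
      obtain ⟨A, B, hA, hB, htA, hzB, hAB⟩ := t2_separation htz
      refine ⟨(n, A ∩ (U n ∩ V)), ⟨hA.inter ((hUo n).inter hVo), ⟨t, htA, htU, htV⟩,
        fun y hy => hy.2.1, ?_⟩, ?_⟩
      · refine mem_of_superset (hB.mem_nhds hzB) fun y hy hy2 => ?_
        exact disjoint_left.1 hAB hy2.1 hy
      · intro p hp
        refine ⟨?_, ?_⟩
        · have : p.1 ≤ s.sup (fun p => p.1) := Finset.le_sup (f := fun p : ℕ × Set L => p.1) hp
          show p.1 < n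
          omega
        · rw [disjoint_left]
          intro y hy hy2
          have h5 := hy2.2.2
          simp only [hV, mem_iInter] at h5
          exact interior_subset (h5 p hp) hy)
  have hFn : ∀ n, n ≤ (F n).1 := by
    intro n
    induction n with
    | zero => exact Nat.zero_le _
    | succ n ih => exact Nat.succ_le_of_lt (lt_of_le_of_lt ih (hF2 n (n + 1) (Nat.lt_succ_self n)).1)
  choose t ht using fun n => (hF1 n).2.1
  have hury : ∀ n, ∃ f : C(L, ℝ), 0 ≤ f ∧ f ≤ 1 ∧ f (t n) = 1 ∧ ∀ s, s ∉ (F n).2 → f s = 0 := by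
    intro n
    obtain ⟨f, hf0, hf1, hf2⟩ := exists_continuous_zero_one_of_isClosed
      (s := ((F n).2)ᶜ) (t := {t n}) (hF1 n).1.isClosed_compl isClosed_singleton (by
        rw [disjoint_singleton_right]
        exact fun h => h (ht n))
    exact ⟨f, fun s => (hf2 s).1, fun s => (hf2 s).2, hf1 rfl, fun s hs => hf0 hs⟩
  choose g hg0 hg1 hgt hgs using hury
  refine ⟨g, t, fun i => ⟨hg0 i, hg1 i, hgt i⟩, ?_, ?_⟩
  · intro i j hij s
    by_cases hsi : s ∈ (F i).2
    · right
      apply hgs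
      rcases lt_or_gt_of_ne hij with h6 | h6
      · exact disjoint_left.1 (hF2 i j h6).2 hsi
      · exact disjoint_right.1 (hF2 j i h6).2 hsi
    · exact Or.inl (hgs i s hsi)
  · refine Summable.of_nonneg_of_le (fun i => hN0 _) (f := fun n : ℕ => 2 * (1 / 2 : ℝ) ^ n) ?_ ?_
    · intro i
      refine (hsm (F i).1 (g i) (hg0 i) (hg1 i) fun s hs => hgs i s fun h => hs ((hF1 i).2.2.1 h)).trans ?_
      have := pow_le_pow_of_le_one (by norm_num : (0 : ℝ) ≤ 1 / 2) (by norm_num) (hFn i)
      linarith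
    · exact (summable_geometric_of_lt_one (by norm_num) (by norm_num)).mul_left 2

end small

section metr

/-- a compact Hausdorff space with `C(L)` separable is metrizable -/
theorem metrizable_of_separable (L : Type u) [TopologicalSpace L] [CompactSpace L] [T2Space L]
    [TopologicalSpace.SeparableSpace C(L, ℝ)] : TopologicalSpace.MetrizableSpace L := by
  classical
  obtain ⟨D, hDc, hDd⟩ := TopologicalSpace.exists_countable_dense C(L, ℝ)
  have hDct : Countable D := hDc.to_subtype
  let F : L → (D → ℝ) := fun t f => f.1 t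
  have hF : Continuous F := continuous_pi fun f => f.1.continuous
  have hinj : Function.Injective F := by
    intro a b hab
    by_contra hne
    obtain ⟨g, hg0, hg1, -⟩ := exists_continuous_zero_one_of_isClosed
      (s := ({a} : Set L)) (t := {b}) isClosed_singleton isClosed_singleton (by
        rw [disjoint_singleton]; exact hne)
    obtain ⟨f, hfD, hf⟩ := hDd.exists_dist_lt g (ε := 1 / 2) (by norm_num)
    have h1 : f a = f b := congrFun hab ⟨f, hfD⟩
    have h2 : dist (g a) (f a) < 1 / 2 := lt_of_le_of_lt (ContinuousMap.dist_apply_le_dist a) hf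
    have h3 : dist (g b) (f b) < 1 / 2 := lt_of_le_of_lt (ContinuousMap.dist_apply_le_dist b) hf
    have ga : g a = 0 := hg0 rfl
    have gb : g b = 1 := hg1 rfl
    rw [ga, Real.dist_eq, abs_lt] at h2
    rw [gb, Real.dist_eq, abs_lt] at h3
    linarith [h2.1, h3.2]
  have hemb : IsClosedEmbedding F := hF.isClosedEmbedding hinj
  exact hemb.isEmbedding.metrizableSpace

/-- if `C(L)` embeds linearly (with the sup norm) in a separable normed space, `L` is
metrizable -/
theorem metrizable_of_lower_bound {L : Type u} [TopologicalSpace L] [CompactSpace L] [T2Space L]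
    {E : Type v} [NormedAddCommGroup E] [NormedSpace ℝ E] [TopologicalSpace.SeparableSpace E]
    (Φ : C(L, ℝ) →ₗ[ℝ] E) {c C : ℝ} (hc : 0 < c) (h1 : ∀ f, c * ‖f‖ ≤ ‖Φ f‖)
    (h2 : ∀ f, ‖Φ f‖ ≤ C * ‖f‖) : TopologicalSpace.MetrizableSpace L := by
  have hcont : Continuous Φ := by
    have := (Φ.mkContinuous C h2).continuous
    exact this
  have hanti : AntilipschitzWith (Real.toNNReal c⁻¹) Φ := by
    refine AddMonoidHomClass.antilipschitz_of_bound Φ fun f => ?_
    rw [Real.coe_toNNReal _ (by positivity)]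
    rw [inv_mul_eq_div, le_div_iff₀ hc, mul_comm]
    exact h1 f
  have hind : IsInducing Φ := hanti.isInducing hcont
  have : SecondCountableTopology E := UniformSpace.secondCountable_of_separable E
  have : SecondCountableTopology C(L, ℝ) := hind.secondCountableTopology
  exact metrizable_of_separable L

end metr

end Pool.Agent.R280.Sick
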