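import Pool.Agent.R280.Sick

/-!
Clopen sets of sick compact spaces; the Stone space of the algebra of clopen sets.
-/

set_option autoImplicit false
set_option linter.unusedSectionVars false

open Set Topology Filter TopologicalSpace Pool.Agent.R280.BLat

universe u u' v

namespace Pool.Agent.R280.Sick

variable {K : Type u} [TopologicalSpace K]

/-- the indicator function of a clopen set -/
noncomputable def indc (A : Clopens K) : C(K, ℝ) :=
  ⟨(A : Set K).indicator 1, IsClopen.continuous_indicator A.isClopen continuous_const⟩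

lemma indc_mem {A : Clopens K} {k : K} (h : k ∈ A) : indc A k = 1 := by
  show (A : Set K).indicator 1 k = (1 : ℝ)
  exact indicator_of_mem (s := (A : Set K)) h 1

lemma indc_notMem {A : Clopens K} {k : K} (h : k ∉ A) : indc A k = 0 := by
  show (A : Set K).indicator 1 k = (0 : ℝ)
  exact indicator_of_notMem (s := (A : Set K)) h 1

lemma indc_nonneg (A : Clopens K) : 0 ≤ indc A := by
  intro k
  show 0 ≤ indc A k
  by_cases h : k ∈ A
  · rw [indc_mem h]; exact zero_le_one
  · rw [indc_notMem h]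

lemma indc_le_one (A : Clopens K) : indc A ≤ 1 := by
  intro k
  show indc A k ≤ 1
  by_cases h : k ∈ A
  · rw [indc_mem h]
  · rw [indc_notMem h]; exact zero_le_one

lemma indc_le_indc {A B : Clopens K} (h : A ≤ B) : indc A ≤ indc B := by
  intro k
  show indc A k ≤ indc B k
  by_cases hk : k ∈ A
  · rw [indc_mem hk, indc_mem (h hk)]
  · rw [indc_notMem hk]; exact indc_nonneg B k

lemma le_of_indc {A B : Clopens K} (h : indc A ≤ indc B) : A ≤ B := by
  intro k hk
  by_contra hk2
  have h1 : indc A k ≤ indc B k := h k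
  rw [indc_mem hk, indc_notMem hk2] at h1
  exact absurd h1 (by norm_num)

variable [CompactSpace K] [T2Space K]
variable {E : Type v} [NormedAddCommGroup E] [NormedSpace ℝ E] [Lattice E] [BanachLattice E]
variable {T : C(K, ℝ) →ₗ[ℝ] E} {x : E}

/-- monotone limits of clopen sets -/
lemma IsIdealRep.clopen_limit (hT : IsIdealRep T x) (A : ℕ → Clopens K) (hA : Monotone A)
    (hc : CauchySeq (fun n => T (indc (A n)))) :
    ∃ B : Clopens K, (∀ n, A n ≤ B) ∧ Tendsto (fun n => T (indc (A n))) atTop (𝓝 (T (indc B))) := by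
  have : CompleteSpace E := BanachLattice.toCompleteSpace
  obtain ⟨y, hy⟩ := cauchySeq_tendsto_of_complete hc
  obtain ⟨e, he, he1⟩ := hT.complete (f := fun n => indc (A n)) (fun n => by
    rw [abs_of_nonneg (indc_nonneg _)]
    exact indc_le_one _) hy
  rw [← he] at hy
  have hz : ∀ n, indc (A n) ⊓ (1 - indc (A n)) = 0 := by
    intro n
    ext k
    show indc (A n) k ⊓ (1 - indc (A n) k) = 0
    by_cases h : k ∈ A n
    · rw [indc_mem h]; simp
    · rw [indc_notMem h]; simp
  have h0 : e ⊓ (1 - e) = 0 := by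
    refine hT.inj ?_
    have h1 : Tendsto (fun n => T (indc (A n) ⊓ (1 - indc (A n)))) atTop
        (𝓝 (T (e ⊓ (1 - e)))) := by
      simp only [hT.map_inf, map_sub]
      exact hy.inf_nhds (tendsto_const_nhds.sub hy)
    simp only [hz] at h1
    exact tendsto_nhds_unique h1 (by simp)
  have hval : ∀ k, e k = 0 ∨ e k = 1 := by
    intro k
    have h2 : e k ⊓ (1 - e k) = 0 := congrArg (fun f : C(K, ℝ) => f k) h0
    rcases le_total (e k) (1 - e k) with h | h
    · rw [inf_eq_left.2 h] at h2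
      exact Or.inl h2
    · rw [inf_eq_right.2 h] at h2
      right
      linarith
  have hcl : IsClopen {k | e k = 1} := by
    refine ⟨isClosed_eq e.continuous continuous_const, ?_⟩
    have : {k | e k = 1} = {k | (1 / 2 : ℝ) < e k} := by
      ext k
      simp only [mem_ofPred_eq]
      rcases hval k with h | h <;> rw [h] <;> norm_num
    rw [this]
    exact isOpen_lt continuous_const e.continuous
  have heq : indc ⟨_, hcl⟩ = e := by
    ext k
    rcases hval k with h | h
    · rw [h]
      refine indc_notMem fun hk => ?_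
      have : e k = 1 := hk
      rw [h] at this
      exact absurd this (by norm_num)
    · rw [h]
      exact indc_mem h
  refine ⟨⟨_, hcl⟩, fun n => ?_, by rwa [heq]⟩
  refine le_of_indc ?_
  rw [heq]
  refine hT.le_of ?_
  refine ge_of_tendsto hy ?_
  filter_upwards [eventually_ge_atTop n] with m hm
  exact hT.mono (indc_le_indc (hA hm))

/-- `f` is a zero-dimensional function: level sets can be separated by clopen sets -/
def Zd (f : C(K, ℝ)) : Prop :=
  ∀ a b : ℝ, a < b → ∃ A : Clopens K, (∀ k, f k ≤ a → k ∈ A) ∧ ∀ k ∈ A, f k < b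

/-- `f` is zero-dimensional as soon as it is so off arbitrarily small clopen sets -/
lemma IsIdealRep.zd_of_off (hT : IsIdealRep T x) (D : ℕ → Clopens K) (hD : Antitone D)
    (hD0 : Tendsto (fun n => ‖T (indc (D n))‖) atTop (𝓝 0)) (f : C(K, ℝ))
    (hf : ∀ n (a b : ℝ), a < b → ∃ A : Clopens K, (∀ k, k ∉ D n → f k ≤ a → k ∈ A) ∧
      ∀ k ∈ A, k ∉ D n → f k < b) : Zd f := by
  classical
  intro a0 b0 hab0
  obtain ⟨a, ha0, hab'⟩ := exists_between hab0
  obtain ⟨b, hab, hb0⟩ := exists_between hab'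
  choose A hA1 hA2 using fun n => hf n a b hab
  -- the pieces
  let P : ℕ → Clopens K := fun n => Nat.rec ((D 0)ᶜ) (fun m _ => D m ⊓ (D (m + 1))ᶜ) n
  have hP0 : P 0 = (D 0)ᶜ := rfl
  have hPs : ∀ m, P (m + 1) = D m ⊓ (D (m + 1))ᶜ := fun m => rfl
  have hPD : ∀ n k, k ∈ P n → k ∉ D n := by
    intro n k hk
    cases n with
    | zero => exact hk
    | succ m => exact hk.2
  have hPm : ∀ m n k, m < n → k ∈ P n → k ∈ D m := by
    intro m n k hmn hk
    cases n with
    | zero => exact absurd hmn (Nat.not_lt_zero m)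
    | succ j => exact hD (Nat.lt_succ_iff.1 hmn) hk.1
  have hPex : ∀ n k, k ∉ D n → ∃ j ≤ n, k ∈ P j := by
    intro n k hk
    induction n with
    | zero => exact ⟨0, le_rfl, hk⟩
    | succ m ih =>
      by_cases hkm : k ∈ D m
      · exact ⟨m + 1, le_rfl, hkm, hk⟩
      · obtain ⟨j, hj, hkj⟩ := ih hkm
        exact ⟨j, hj.trans (Nat.le_succ m), hkj⟩
  let B : ℕ → Clopens K := fun n => (Finset.range (n + 1)).sup (fun j => A j ⊓ P j)
  have hBmem : ∀ n k, k ∈ B n ↔ ∃ j ≤ n, k ∈ A j ∧ k ∈ P j := by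
    intro n k
    have : ∀ s : Finset ℕ, k ∈ s.sup (fun j => A j ⊓ P j) ↔ ∃ j ∈ s, k ∈ A j ∧ k ∈ P j := by
      intro s
      induction s using Finset.induction_on with
      | empty =>
        simp only [Finset.sup_empty, Finset.notMem_empty, false_and, exists_false, iff_false]
        exact fun h => h
      | insert i s hi ih =>
        rw [Finset.sup_insert]
        constructor
        · rintro (h | h)
          · exact ⟨i, Finset.mem_insert_self i s, h⟩
          · obtain ⟨j, hj, hk⟩ := ih.1 h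
            exact ⟨j, Finset.mem_insert_of_mem hj, hk⟩
        · rintro ⟨j, hj, hk⟩
          rcases Finset.mem_insert.1 hj with rfl | hj
          · exact Or.inl hk
          · exact Or.inr (ih.2 ⟨j, hj, hk⟩)
    rw [this]
    simp only [Finset.mem_range, Nat.lt_succ_iff]
  have hBmono : Monotone B := by
    intro m n hmn k hk
    change k ∈ B m at hk
    show k ∈ B n
    rw [hBmem] at hk ⊢
    obtain ⟨j, hj, hk⟩ := hk
    exact ⟨j, hj.trans hmn, hk⟩
  have hBle : ∀ m n, B n ≤ B m ⊔ D m := by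
    intro m n k hk
    change k ∈ B n at hk
    show k ∈ B m ⊔ D m
    rw [hBmem] at hk
    obtain ⟨j, hj, hk1, hk2⟩ := hk
    rcases le_or_gt j m with h | h
    · exact Or.inl ((hBmem m k).2 ⟨j, h, hk1, hk2⟩)
    · exact Or.inr (hPm m j k h hk2)
  have hcau : CauchySeq (fun n => T (indc (B n))) := by
    refine cauchySeq_of_le_tendsto_0' (fun n => ‖T (indc (D n))‖) (fun m n hmn => ?_) hD0
    rw [dist_eq_norm, ← map_sub]
    refine hT.norm_mono ?_
    rw [abs_of_nonneg (indc_nonneg _), abs_sub_comm,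
      abs_of_nonneg (sub_nonneg.2 (indc_le_indc (hBmono hmn)))]
    intro k
    show indc (B n) k - indc (B m) k ≤ indc (D m) k
    by_cases h1 : k ∈ B n
    · rw [indc_mem h1]
      rcases hBle m n h1 with h | h
      · have h' : k ∈ B m := h
        rw [indc_mem h', sub_self]; exact indc_nonneg _ k
      · have h' : k ∈ D m := h
        rw [indc_mem h']
        have : 0 ≤ indc (B m) k := indc_nonneg _ k
        linarith
    · rw [indc_notMem h1]
      have h2 : 0 ≤ indc (B m) k := indc_nonneg _ k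
      have h3 : 0 ≤ indc (D m) k := indc_nonneg _ k
      linarith
  obtain ⟨C, hC, hCt⟩ := hT.clopen_limit B hBmono hcau
  have hCle : ∀ m, C ≤ B m ⊔ D m := by
    intro m
    refine le_of_indc (hT.le_of ?_)
    refine le_of_tendsto hCt (Eventually.of_forall fun n => ?_)
    exact hT.mono (indc_le_indc (hBle m n))
  -- a function supported by the intersection of the `D n` vanishes
  have hdens : ∀ O : Set K, IsOpen O → (∀ k ∈ O, ∀ n, k ∈ D n) → O = ∅ := by
    intro O hO hOD
    by_contra hne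
    obtain ⟨k, hk⟩ := nonempty_iff_ne_empty.2 hne
    obtain ⟨g, hg0, hg1, hg2⟩ := exists_continuous_zero_one_of_isClosed
      (s := Oᶜ) (t := {k}) hO.isClosed_compl isClosed_singleton (by
        rw [disjoint_singleton_right]
        exact fun h => h hk)
    have h1 : ‖T g‖ = 0 := by
      refine le_antisymm (ge_of_tendsto hD0 (Eventually.of_forall fun n => ?_)) (norm_nonneg _)
      refine hT.norm_mono ?_
      have hg0' : 0 ≤ g := fun s => (hg2 s).1
      rw [abs_of_nonneg hg0', abs_of_nonneg (indc_nonneg _)]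
      intro s
      show g s ≤ indc (D n) s
      by_cases hs : s ∈ O
      · rw [indc_mem (hOD s hs n)]
        exact (hg2 s).2
      · have h5 : g s = 0 := hg0 hs
        rw [h5]
        exact indc_nonneg _ s
    have h2 : g = 0 := hT.inj (by rw [norm_eq_zero.1 h1, map_zero])
    have h3 : g k = 1 := hg1 rfl
    rw [h2] at h3
    simp at h3
  refine ⟨C, fun k hk => ?_, fun k hk => ?_⟩
  · by_contra hkC
    have hempty := hdens ({s | f s < a} ∩ (C : Set K)ᶜ)
      ((isOpen_lt f.continuous continuous_const).inter C.isClopen.isClosed.isOpen_compl) (by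
        rintro s ⟨hs1, hs2⟩ n
        by_contra hsn
        obtain ⟨j, hj, hsj⟩ := hPex n s hsn
        have h6 : s ∈ A j := hA1 j s (hPD j s hsj) (le_of_lt hs1)
        exact hs2 (hC j ((hBmem j s).2 ⟨j, le_rfl, h6, hsj⟩)))
    have : k ∈ ({s | f s < a} ∩ (C : Set K)ᶜ) := ⟨lt_of_le_of_lt hk ha0, hkC⟩
    rw [hempty] at this
    exact this
  · by_contra hkb
    have hempty := hdens ({s | b < f s} ∩ (C : Set K))
      ((isOpen_lt continuous_const f.continuous).inter C.isClopen.isOpen) (by
        rintro s ⟨hs1, hs2⟩ n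
        by_contra hsn
        rcases hCle n hs2 with h | h
        · obtain ⟨j, hj, hsj, hsj2⟩ := (hBmem n s).1 h
          have h7 := hA2 j s hsj (hPD j s hsj2)
          have h8 : b < f s := hs1
          exact lt_asymm h7 h8
        · exact hsn h)
    have : k ∈ ({s | b < f s} ∩ (C : Set K)) := ⟨lt_of_lt_of_le hb0 (not_lt.1 hkb), hk⟩
    rw [hempty] at this
    exact this

lemma abs_apply' (f : C(K, ℝ)) (k : K) : |f| k = |f k| := by
  show (f ⊔ -f) k = _
  rw [ContinuousMap.sup_apply]
  rfl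

/-- limits of zero-dimensional functions: the case of fast convergence -/
lemma IsIdealRep.zd_limit_fast (hT : IsIdealRep T x) (f : ℕ → C(K, ℝ)) (g : C(K, ℝ))
    (h1 : ∀ n, |f n| ≤ 1) (hz : ∀ n, Zd (f n)) (hzd : ∀ n, Zd (-|f (n + 1) - f n|))
    (hfast : ∀ n, ‖T (f (n + 1) - f n)‖ ≤ (1 / 4 : ℝ) ^ n)
    (hlim : Tendsto (fun n => T (f n)) atTop (𝓝 (T g))) : Zd g := by
  classical
  have hB : ∀ n : ℕ, ∃ A : Clopens K, (∀ k, (1 / 2 : ℝ) ^ n ≤ |f (n + 1) k - f n k| → k ∈ A) ∧
      ∀ k ∈ A, (1 / 2 : ℝ) ^ (n + 1) < |f (n + 1) k - f n k| := by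
    intro n
    obtain ⟨A, hA1, hA2⟩ := hzd n (-(1 / 2 : ℝ) ^ n) (-(1 / 2 : ℝ) ^ (n + 1)) (by
      rw [neg_lt_neg_iff, pow_succ]
      have : (0 : ℝ) < (1 / 2) ^ n := by positivity
      linarith)
    have hev : ∀ k, (-|f (n + 1) - f n|) k = -|f (n + 1) k - f n k| := by
      intro k
      show -(|f (n + 1) - f n| k) = _
      rw [abs_apply']
      rfl
    refine ⟨A, fun k hk => hA1 k ?_, fun k hk => ?_⟩
    · rw [hev]; exact neg_le_neg hk
    · have := hA2 k hk
      rw [hev] at this
      exact neg_lt_neg_iff.1 this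
  choose B hB1 hB2 using hB
  have hBn : ∀ n, ‖T (indc (B n))‖ ≤ 2 * (1 / 2 : ℝ) ^ n := by
    intro n
    have h2 : ‖T (indc (B n))‖ ≤ ‖T ((2 : ℝ) ^ (n + 1) • (f (n + 1) - f n))‖ := by
      refine hT.norm_mono ?_
      rw [abs_of_nonneg (indc_nonneg _)]
      intro k
      show indc (B n) k ≤ |(2 : ℝ) ^ (n + 1) • (f (n + 1) - f n)| k
      rw [abs_apply']
      show indc (B n) k ≤ |(2 : ℝ) ^ (n + 1) * (f (n + 1) k - f n k)|
      rw [abs_mul, abs_of_pos (by positivity : (0 : ℝ) < 2 ^ (n + 1))]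
      by_cases hk : k ∈ B n
      · rw [indc_mem hk]
        have h3 := hB2 n k hk
        have h4 : (2 : ℝ) ^ (n + 1) * (1 / 2 : ℝ) ^ (n + 1) = 1 := by
          rw [← mul_pow]; norm_num
        have h5 : (0 : ℝ) < 2 ^ (n + 1) := by positivity
        nlinarith
      · rw [indc_notMem hk]
        positivity
    rw [map_smul, norm_smul, norm_pow, Real.norm_two] at h2
    refine h2.trans ?_
    have h6 := hfast n
    have h7 : (2 : ℝ) ^ (n + 1) * (1 / 4 : ℝ) ^ n = 2 * (1 / 2 : ℝ) ^ n := by
      rw [pow_succ, show (1 / 4 : ℝ) = (1 / 2) * (1 / 2) by norm_num, mul_pow]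
      have : (2 : ℝ) ^ n * (1 / 2 : ℝ) ^ n = 1 := by rw [← mul_pow]; norm_num
      calc (2 : ℝ) ^ n * 2 * ((1 / 2) ^ n * (1 / 2) ^ n)
          = 2 * ((2 : ℝ) ^ n * (1 / 2 : ℝ) ^ n) * (1 / 2) ^ n := by ring
        _ = _ := by rw [this]; ring
    rw [← h7]
    exact mul_le_mul_of_nonneg_left h6 (by positivity)
  set b : ℕ → ℝ := fun n => ‖T (indc (B n))‖ with hb
  have hbs : Summable b := Summable.of_nonneg_of_le (fun n => norm_nonneg _) hBn
    ((summable_geometric_of_lt_one (by norm_num) (by norm_num)).mul_left 2)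
  let U : ℕ → ℕ → Clopens K := fun m n => (Finset.Ico m n).sup B
  have hUmono : ∀ m, Monotone (U m) := fun m i j hij =>
    Finset.sup_mono (Finset.Ico_subset_Ico_right hij)
  have hUstep : ∀ m n, U m (n + 1) ≤ U m n ⊔ B n := by
    intro m n
    refine Finset.sup_le fun j hj => ?_
    rw [Finset.mem_Ico] at hj
    rcases Nat.lt_succ_iff_lt_or_eq.1 hj.2 with h | h
    · exact le_sup_of_le_left (Finset.le_sup (f := B) (Finset.mem_Ico.2 ⟨hj.1, h⟩))
    · rw [h]; exact le_sup_right
  have hUd : ∀ m n, dist (T (indc (U m n))) (T (indc (U m (n + 1)))) ≤ b n := by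
    intro m n
    rw [dist_comm, dist_eq_norm, ← map_sub]
    refine hT.norm_mono ?_
    rw [abs_of_nonneg (indc_nonneg _),
      abs_of_nonneg (sub_nonneg.2 (indc_le_indc (hUmono m (Nat.le_succ n))))]
    intro k
    show indc (U m (n + 1)) k - indc (U m n) k ≤ indc (B n) k
    by_cases h3 : k ∈ U m (n + 1)
    · rw [indc_mem h3]
      rcases hUstep m n h3 with h | h
      · have h' : k ∈ U m n := h
        rw [indc_mem h', sub_self]; exact indc_nonneg _ k
      · have h' : k ∈ B n := h
        rw [indc_mem h']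
        have : 0 ≤ indc (U m n) k := indc_nonneg _ k
        linarith
    · rw [indc_notMem h3]
      have h2 : 0 ≤ indc (U m n) k := indc_nonneg _ k
      have h3 : 0 ≤ indc (B n) k := indc_nonneg _ k
      linarith
  have hEx : ∀ m, ∃ C : Clopens K, (∀ n, U m n ≤ C) ∧ ‖T (indc C)‖ ≤ ∑' j, b (j + m) := by
    intro m
    have hcau : CauchySeq (fun n => T (indc (U m n))) :=
      cauchySeq_of_dist_le_of_summable b (hUd m) hbs
    obtain ⟨C, hC, hCt⟩ := hT.clopen_limit (U m) (hUmono m) hcau
    refine ⟨C, hC, ?_⟩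
    have h3 := dist_le_tsum_of_dist_le_of_tendsto b (hUd m) hbs hCt m
    have h4 : indc (U m m) = 0 := by
      ext k
      refine indc_notMem ?_
      have : U m m = ⊥ := by
        show (Finset.Ico m m).sup B = ⊥
        rw [Finset.Ico_self, Finset.sup_empty]
      rw [this]
      exact fun h => h
    rw [h4, map_zero, dist_zero_left] at h3
    refine h3.trans (le_of_eq ?_)
    exact tsum_congr fun j => by rw [add_comm]
  choose C hC1 hC2 using hEx
  let D : ℕ → Clopens K := fun m => (Finset.range (m + 1)).inf C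
  have hDanti : Antitone D := fun i j hij =>
    Finset.inf_mono (Finset.range_mono (Nat.succ_le_succ hij))
  have hDC : ∀ m, D m ≤ C m := fun m => Finset.inf_le (Finset.mem_range.2 (Nat.lt_succ_self m))
  have hBD : ∀ m n, m ≤ n → B n ≤ D m := by
    intro m n hmn
    refine Finset.le_inf fun j hj => ?_
    have hj' : j ≤ m := Nat.lt_succ_iff.1 (Finset.mem_range.1 hj)
    exact (Finset.le_sup (f := B) (Finset.mem_Ico.2 ⟨hj'.trans hmn, Nat.lt_succ_self n⟩)).trans
      (hC1 j (n + 1))
  have hD0 : Tendsto (fun n => ‖T (indc (D n))‖) atTop (𝓝 0) := by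
    refine squeeze_zero (fun n => norm_nonneg _) (fun n => ?_) (tendsto_sum_nat_add b)
    refine le_trans (hT.norm_mono ?_) (hC2 n)
    rw [abs_of_nonneg (indc_nonneg _), abs_of_nonneg (indc_nonneg _)]
    exact indc_le_indc (hDC n)
  -- uniform closeness off `D m`
  have hfval : ∀ n k, |f n k| ≤ 1 := by
    intro n k
    rw [← abs_apply']
    exact h1 n k
  have hoff : ∀ m n, m ≤ n → ∀ k, k ∉ D m → |g k - f n k| ≤ 2 * (1 / 2 : ℝ) ^ n := by
    intro m n hmn
    have hstep : ∀ i k, k ∉ D m →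
        |f (n + i) k - f n k| ≤ 2 * (1 / 2 : ℝ) ^ n - 2 * (1 / 2 : ℝ) ^ (n + i) := by
      intro i k hk
      induction i with
      | zero => simp
      | succ i ih =>
        have h5 : |f (n + i + 1) k - f (n + i) k| < (1 / 2 : ℝ) ^ (n + i) := by
          by_contra hcon
          exact hk (hBD m (n + i) (by omega) (hB1 (n + i) k (not_lt.1 hcon)))
        have h6 : |f (n + (i + 1)) k - f n k| ≤
            |f (n + i + 1) k - f (n + i) k| + |f (n + i) k - f n k| := by
          have := abs_sub_le (f (n + i + 1) k) (f (n + i) k) (f n k)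
          exact this
        have h7 : (1 / 2 : ℝ) ^ (n + (i + 1)) = (1 / 2 : ℝ) ^ (n + i) * (1 / 2) := by
          rw [← add_assoc, pow_succ]
        rw [h7]
        linarith
    have hle : ∀ i, |f (n + i) - f n| ≤
        (2 * (1 / 2 : ℝ) ^ n) • (1 : C(K, ℝ)) + (2 : ℝ) • indc (D m) := by
      intro i k
      show |f (n + i) - f n| k ≤
        ((2 * (1 / 2 : ℝ) ^ n) • (1 : C(K, ℝ)) + (2 : ℝ) • indc (D m)) k
      rw [abs_apply']
      show |f (n + i) k - f n k| ≤ (2 * (1 / 2 : ℝ) ^ n) * 1 + 2 * indc (D m) k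
      by_cases hk : k ∈ D m
      · rw [indc_mem hk]
        have h8 := abs_sub (f (n + i) k) (f n k)
        have h9 := hfval (n + i) k
        have h10 := hfval n k
        have h11 : (0 : ℝ) < (1 / 2 : ℝ) ^ n := by positivity
        linarith
      · rw [indc_notMem hk]
        have h8 := hstep i k hk
        have h11 : (0 : ℝ) < (1 / 2 : ℝ) ^ (n + i) := by positivity
        linarith
    have hlim2 : |g - f n| ≤ (2 * (1 / 2 : ℝ) ^ n) • (1 : C(K, ℝ)) + (2 : ℝ) • indc (D m) := by
      refine hT.le_of ?_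
      rw [hT.map_abs]
      have h9 : Tendsto (fun i => |T (f (n + i) - f n)|) atTop (𝓝 |T (g - f n)|) := by
        have h10 : Tendsto (fun i => T (f (n + i) - f n)) atTop (𝓝 (T (g - f n))) := by
          simp only [map_sub]
          refine Tendsto.sub ?_ tendsto_const_nhds
          have := (tendsto_add_atTop_iff_nat (f := fun n => T (f n)) n).2 hlim
          exact this.congr fun i => by rw [add_comm]
        exact h10.sup_nhds h10.neg
      refine le_of_tendsto h9 (Eventually.of_forall fun i => ?_)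
      rw [← hT.map_abs]
      exact hT.mono (hle i)
    intro k hk
    have h12 : |g - f n| k ≤
        ((2 * (1 / 2 : ℝ) ^ n) • (1 : C(K, ℝ)) + (2 : ℝ) • indc (D m)) k := hlim2 k
    rw [abs_apply'] at h12
    change |g k - f n k| ≤ (2 * (1 / 2 : ℝ) ^ n) * 1 + 2 * indc (D m) k at h12
    rw [indc_notMem hk] at h12
    linarith
  refine hT.zd_of_off D hDanti hD0 g fun m a c hac => ?_
  obtain ⟨n, hn⟩ : ∃ n : ℕ, (1 / 2 : ℝ) ^ n < (c - a) / 8 :=
    exists_pow_lt_of_lt_one (by linarith) (by norm_num)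
  set n' := max m n with hn'
  have hn2 : (1 / 2 : ℝ) ^ n' < (c - a) / 8 :=
    lt_of_le_of_lt (pow_le_pow_of_le_one (by norm_num) (by norm_num) (le_max_right m n)) hn
  obtain ⟨A, hA1, hA2⟩ := hz n' (a + 2 * (1 / 2 : ℝ) ^ n') (c - 2 * (1 / 2 : ℝ) ^ n') (by linarith)
  refine ⟨A, fun k hk hka => hA1 k ?_, fun k hk hkD => ?_⟩
  · have := abs_le.1 (hoff m n' (le_max_left _ _) k hk)
    linarith [this.1]
  · have := abs_le.1 (hoff m n' (le_max_left _ _) k hkD)
    have h13 := hA2 k hk
    linarith [this.2]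

/-- limits of zero-dimensional functions in order intervals are zero-dimensional -/
theorem IsIdealRep.zd_limit (hT : IsIdealRep T x) (f : ℕ → C(K, ℝ)) (g : C(K, ℝ))
    (h1 : ∀ n, |f n| ≤ 1) (hz : ∀ n, Zd (f n)) (hzd : ∀ m n, Zd (-|f n - f m|))
    (hlim : Tendsto (fun n => T (f n)) atTop (𝓝 (T g))) : Zd g := by
  obtain ⟨φ, hφ, hφ2⟩ := extraction_forall_of_eventually
    (P := fun n k => ‖T (f k) - T g‖ < (1 / 4 : ℝ) ^ n / 2) (fun n => by
      have := Metric.tendsto_nhds.1 hlim ((1 / 4 : ℝ) ^ n / 2) (by positivity)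
      simpa only [dist_eq_norm] using this)
  refine hT.zd_limit_fast (fun n => f (φ n)) g (fun n => h1 _) (fun n => hz _)
    (fun n => hzd _ _) (fun n => ?_) (hlim.comp hφ.tendsto_atTop)
  have h2 : T (f (φ (n + 1)) - f (φ n)) = (T (f (φ (n + 1))) - T g) - (T (f (φ n)) - T g) := by
    rw [map_sub]; abel
  show ‖T (f (φ (n + 1)) - f (φ n))‖ ≤ _
  rw [h2]
  refine (norm_sub_le _ _).trans ?_
  have h3 := hφ2 n
  have h4 := hφ2 (n + 1)
  rw [pow_succ] at h4
  have h5 : (0 : ℝ) < (1 / 4 : ℝ) ^ n := by positivity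
  linarith

end Pool.Agent.R280.Sick
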