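import Pool.Agent.R280.Sick

/-!
Products of two infinite compact spaces which are sick are metrizable.
-/

set_option autoImplicit false
set_option linter.unusedSectionVars false

open Set Topology Filter Pool.Agent.R280.BLat

universe u u' v

namespace Pool.Agent.R280.Sick

variable {K : Type u} [TopologicalSpace K] [CompactSpace K] [T2Space K]
variable {L : Type u'} [TopologicalSpace L] [CompactSpace L] [T2Space L]

/-- the function `(k, l) ↦ a k * w l` -/
def tens (a : C(K, ℝ)) (w : C(L, ℝ)) : C(K × L, ℝ) :=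
  (a.comp ContinuousMap.fst) * (w.comp ContinuousMap.snd)

lemma tens_apply (a : C(K, ℝ)) (w : C(L, ℝ)) (p : K × L) : tens a w p = a p.1 * w p.2 := rfl

/-- the linear map `w ↦ 1 ⊗ w` -/
def tensR (K : Type u) [TopologicalSpace K] (L : Type u') [TopologicalSpace L] :
    C(L, ℝ) →ₗ[ℝ] C(K × L, ℝ) where
  toFun w := w.comp ContinuousMap.snd
  map_add' _ _ := rfl
  map_smul' _ _ := rfl

lemma tensR_apply (w : C(L, ℝ)) (p : K × L) : tensR K L w p = w p.2 := rfl

/-- an infinite compact space carries functions `a i` with `a i (k i) = 1`,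
`a i (k j) = 0` for `i ≠ j` -/
lemma exists_separated [Infinite K] : ∃ (a : ℕ → C(K, ℝ)) (k : ℕ → K),
    (∀ i, 0 ≤ a i ∧ a i ≤ 1 ∧ a i (k i) = 1) ∧ ∀ i j, i ≠ j → a i (k j) = 0 := by
  obtain ⟨U, hU1, hU2, hU3⟩ := exists_seq_infinite_isOpen_pairwise_disjoint K
  choose k hk using fun n => (hU1 n).nonempty
  have hury : ∀ n, ∃ f : C(K, ℝ), 0 ≤ f ∧ f ≤ 1 ∧ f (k n) = 1 ∧ ∀ s, s ∉ U n → f s = 0 := by
    intro n
    obtain ⟨f, hf0, hf1, hf2⟩ := exists_continuous_zero_one_of_isClosed
      (s := (U n)ᶜ) (t := {k n}) (hU2 n).isClosed_compl isClosed_singleton (by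
        rw [disjoint_singleton_right]
        exact fun h => h (hk n))
    exact ⟨f, fun s => (hf2 s).1, fun s => (hf2 s).2, hf1 rfl, fun s hs => hf0 hs⟩
  choose a ha0 ha1 hak has using hury
  exact ⟨a, k, fun i => ⟨ha0 i, ha1 i, hak i⟩, fun i j hij =>
    has i (k j) fun h => disjoint_left.1 (hU3 hij) h (hk j)⟩

variable {E : Type v} [NormedAddCommGroup E] [NormedSpace ℝ E] [Lattice E] [BanachLattice E]

/-- the key step: no disjoint sequence of functions of sup norm one on the second factor can have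
summable norms -/
theorem not_summable [Infinite K] {T : C(K × L, ℝ) →ₗ[ℝ] E} {x : E} (hT : IsIdealRep T x)
    (w : ℕ → C(L, ℝ)) (l : ℕ → L) (hw : ∀ i, 0 ≤ w i ∧ w i ≤ 1 ∧ w i (l i) = 1)
    (hd : ∀ i j, i ≠ j → ∀ t, w i t = 0 ∨ w j t = 0)
    (hs : Summable (fun i => ‖T (tensR K L (w i))‖)) : False := by
  classical
  obtain ⟨a, k, ha, hak⟩ := exists_separated (K := K)
  have ha0 : ∀ i s, 0 ≤ a i s := fun i s => (ha i).1 s
  have ha1 : ∀ i s, a i s ≤ 1 := fun i s => (ha i).2.1 s
  have hw0 : ∀ i s, 0 ≤ w i s := fun i s => (hw i).1 s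
  have hw1 : ∀ i s, w i s ≤ 1 := fun i s => (hw i).2.1 s
  set H : ℕ → C(K × L, ℝ) := fun n => ∑ i ∈ Finset.range n, tens (a i) (w i) with hH
  have Hval : ∀ n p, H n p = ∑ i ∈ Finset.range n, a i p.1 * w i p.2 := by
    intro n p
    rw [hH]
    simp only [ContinuousMap.coe_sum, Finset.sum_apply, tens_apply]
  have hone : ∀ i n p, i < n → w i p.2 ≠ 0 → H n p = a i p.1 * w i p.2 := by
    intro i n p hin hne
    rw [Hval]
    refine Finset.sum_eq_single i (fun j _ hji => ?_) (fun h => (h (Finset.mem_range.2 hin)).elim)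
    rcases hd i j (Ne.symm hji) p.2 with h | h
    · exact (hne h).elim
    · rw [h, mul_zero]
  have hHabs : ∀ n, |H n| ≤ 1 := by
    intro n
    have key : ∀ p, 0 ≤ H n p ∧ H n p ≤ 1 := by
      intro p
      by_cases hp : ∃ i < n, w i p.2 ≠ 0
      · obtain ⟨i, hi, hne⟩ := hp
        rw [hone i n p hi hne]
        exact ⟨mul_nonneg (ha0 _ _) (hw0 _ _), mul_le_one₀ (ha1 _ _) (hw0 _ _) (hw1 _ _)⟩
      · push Not at hp
        have : H n p = 0 := by
          rw [Hval]
          refine Finset.sum_eq_zero fun i hi => ?_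
          rw [hp i (Finset.mem_range.1 hi), mul_zero]
        rw [this]
        exact ⟨le_rfl, zero_le_one⟩
    have h0 : 0 ≤ H n := fun p => (key p).1
    rw [abs_of_nonneg h0]
    exact fun p => (key p).2
  have hinf : ∀ i n, i < n → H n ⊓ tensR K L (w i) = tens (a i) (w i) := by
    intro i n hin
    ext p
    show H n p ⊓ tensR K L (w i) p = _
    rw [tens_apply, tensR_apply]
    by_cases hne : w i p.2 = 0
    · rw [hne, mul_zero]
      refine inf_eq_right.2 ?_
      rw [Hval]
      exact Finset.sum_nonneg fun j _ => mul_nonneg (ha0 _ _) (hw0 _ _)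
    · rw [hone i n p hin hne]
      exact inf_eq_left.2 (mul_le_of_le_one_left (hw0 _ _) (ha1 _ _))
  have hsum : Summable (fun i => T (tens (a i) (w i))) := by
    refine Summable.of_norm_bounded hs fun i => ?_
    refine hT.norm_mono ?_
    have h0 : 0 ≤ tens (a i) (w i) := fun p => mul_nonneg (ha0 _ _) (hw0 _ _)
    have h0' : 0 ≤ tensR K L (w i) := fun p => hw0 _ _
    rw [abs_of_nonneg h0, abs_of_nonneg h0']
    intro p
    exact mul_le_of_le_one_left (hw0 _ _) (ha1 _ _)
  have htend : Tendsto (fun n => T (H n)) atTop (𝓝 (∑' i, T (tens (a i) (w i)))) := by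
    have := hsum.hasSum.tendsto_sum_nat
    refine this.congr fun n => ?_
    rw [hH, map_sum]
  obtain ⟨h, hTh, hh⟩ := hT.complete hHabs htend
  have hh1 : ∀ p, h p ≤ 1 := by
    intro p
    have h3 : h ≤ 1 := (le_abs_self h).trans hh
    exact h3 p
  have heq : ∀ i, h ⊓ tensR K L (w i) = tens (a i) (w i) := by
    intro i
    refine hT.inj ?_
    have h4 : Tendsto (fun n => T (H n ⊓ tensR K L (w i))) atTop
        (𝓝 (T (h ⊓ tensR K L (w i)))) := by
      rw [hT.map_inf, hTh]
      simp only [hT.map_inf]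
      exact htend.inf_nhds tendsto_const_nhds
    refine tendsto_nhds_unique h4 ?_
    refine tendsto_const_nhds.congr' ?_
    filter_upwards [eventually_gt_atTop i] with n hn
    rw [hinf i n hn]
  have hval : ∀ i s, h (s, l i) = a i s := by
    intro i s
    have h5 := congrArg (fun f : C(K × L, ℝ) => f (s, l i)) (heq i)
    simp only [tens_apply] at h5
    change h (s, l i) ⊓ tensR K L (w i) (s, l i) = _ at h5
    rw [tensR_apply, (hw i).2.2, mul_one] at h5
    rwa [inf_eq_left.2 (hh1 _)] at h5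
  -- the curried function has compact range
  set G : C(L, C(K, ℝ)) := ContinuousMap.curry (h.comp ContinuousMap.prodSwap) with hG
  have hGv : ∀ t s, G t s = h (s, t) := fun t s => rfl
  have hcomp : IsCompact (range G) := isCompact_range G.continuous
  obtain ⟨g, -, φ, hφ, hφt⟩ := hcomp.tendsto_subseq (x := fun n => G (l n))
    (fun n => mem_range_self _)
  have hcau := hφt.cauchySeq
  rw [Metric.cauchySeq_iff'] at hcau
  obtain ⟨M, hM⟩ := hcau 1 one_pos
  have h6 := hM (M + 1) (Nat.le_succ M)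
  have h7 : dist (G (l (φ (M + 1))) (k (φ M))) (G (l (φ M)) (k (φ M))) < 1 :=
    lt_of_le_of_lt (ContinuousMap.dist_apply_le_dist _) h6
  rw [hGv, hGv, hval, hval, (ha _).2.2, hak _ _ (hφ (Nat.lt_succ_self M)).ne', Real.dist_eq] at h7
  norm_num at h7

/-- the second factor of a sick product with infinite first factor is metrizable -/
theorem right_metrizable [Infinite K] [TopologicalSpace.SeparableSpace E]
    {T : C(K × L, ℝ) →ₗ[ℝ] E} {x : E} (hT : IsIdealRep T x) :
    TopologicalSpace.MetrizableSpace L := by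
  have habs : ∀ f : C(L, ℝ), tensR K L |f| = |tensR K L f| := fun f => rfl
  by_cases hc : ∃ c : ℝ, 0 < c ∧ ∀ f, c * ‖f‖ ≤ ‖T (tensR K L f)‖
  · obtain ⟨c, hc, h1⟩ := hc
    refine metrizable_of_lower_bound (T ∘ₗ tensR K L) (C := ‖T 1‖) hc h1 fun f => ?_
    refine (hT.norm_le _).trans (mul_le_mul_of_nonneg_left ?_ (norm_nonneg _))
    rw [ContinuousMap.norm_le _ (norm_nonneg _)]
    intro p
    exact f.norm_coe_le_norm p.2
  · exfalso
    push Not at hc
    obtain ⟨w, l, hw, hd, hs⟩ := exists_disjoint_small (fun f => ‖T (tensR K L f)‖)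
      (fun f => norm_nonneg _) (fun f g hf hfg => by
        refine hT.norm_mono ?_
        have h1 : 0 ≤ tensR K L f := fun p => hf p.2
        have h2 : 0 ≤ tensR K L g := fun p => (hf.trans hfg) p.2
        rw [abs_of_nonneg h1, abs_of_nonneg h2]
        exact fun p => hfg p.2)
      (fun f => by
        show ‖T (tensR K L |f|)‖ = ‖T (tensR K L f)‖
        rw [habs, hT.map_abs]
        exact norm_abs_eq_norm _)
      (fun c f hc0 => by
        show ‖T (tensR K L (c • f))‖ = c * ‖T (tensR K L f)‖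
        rw [map_smul, map_smul, norm_smul, Real.norm_of_nonneg hc0])
      (fun f hf => by
        have h1 : T (tensR K L f) = 0 := norm_eq_zero.1 hf
        have h2 : tensR K L f = 0 := hT.inj (by rw [h1, map_zero])
        ext t
        obtain ⟨s⟩ : Nonempty K := inferInstance
        have := congrArg (fun g : C(K × L, ℝ) => g (s, t)) h2
        exact this) hc
    exact not_summable hT w l hw hd hs

/-- composition with a homeomorphism, as a linear map -/
def pullLin {K : Type u} [TopologicalSpace K] {K' : Type u'} [TopologicalSpace K'] (e : K ≃ₜ K') :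
    C(K', ℝ) →ₗ[ℝ] C(K, ℝ) where
  toFun f := f.comp (e : C(K, K'))
  map_add' _ _ := rfl
  map_smul' _ _ := rfl

lemma IsIdealRep.homeo {K' : Type u'} [TopologicalSpace K'] {T : C(K, ℝ) →ₗ[ℝ] E} {x : E}
    (hT : IsIdealRep T x) (e : K ≃ₜ K') : IsIdealRep (T ∘ₗ pullLin e) x := by
  refine ⟨hT.nonneg, ?_, ?_, ?_, ?_⟩
  · intro f g hfg
    have h1 : pullLin e f = pullLin e g := hT.inj hfg
    ext s
    have h2 := congrArg (fun q : C(K, ℝ) => q (e.symm s)) h1
    simpa [pullLin] using h2
  · intro f g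
    exact hT.map_sup (pullLin e f) (pullLin e g)
  · intro f g
    exact hT.map_inf (pullLin e f) (pullLin e g)
  · intro y
    rw [← hT.range_iff]
    constructor
    · rintro ⟨f, hf⟩
      exact ⟨_, hf⟩
    · rintro ⟨f, hf⟩
      refine ⟨f.comp (e.symm : C(K', K)), ?_⟩
      rw [← hf]
      show T _ = T f
      congr 1
      ext s
      simp [pullLin]

end Pool.Agent.R280.Sick
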