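import Pool.Agent.R280.SickClop
import Pool.Agent.R280.SubLat

/-!
The Stone space of the algebra of clopen sets of a sick compact space.
-/

set_option autoImplicit false
set_option linter.unusedSectionVars false

open Set Topology Filter TopologicalSpace Pool.Agent.R280.BLat

universe u u' v

namespace Pool.Agent.R280.Sick

/-- The ultrafilters of the Boolean algebra of clopen subsets of `K`. -/
@[ext] structure ClopUlt (K : Type u) [TopologicalSpace K] where
  sets : Set (Clopens K)
  top_mem : ⊤ ∈ sets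
  bot_notMem : ⊥ ∉ sets
  inf_mem : ∀ A ∈ sets, ∀ B ∈ sets, A ⊓ B ∈ sets
  up_mem : ∀ A ∈ sets, ∀ B, A ≤ B → B ∈ sets
  compl_mem : ∀ A, A ∈ sets ∨ Aᶜ ∈ sets

/-- The topology of the Stone space: generated by the sets `{F | A ∈ F}`, `A` clopen. -/
instance (K : Type u) [TopologicalSpace K] : TopologicalSpace (ClopUlt K) :=
  generateFrom {s | ∃ A : Clopens K, s = {F | A ∈ F.sets}}

section stone

variable {K : Type u} [TopologicalSpace K]

lemma ClopUlt.isOpen_basic (A : Clopens K) : IsOpen {F : ClopUlt K | A ∈ F.sets} :=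
  isOpen_generateFrom_of_mem ⟨A, rfl⟩

lemma ClopUlt.compl_iff (F : ClopUlt K) (A : Clopens K) : Aᶜ ∈ F.sets ↔ A ∉ F.sets := by
  constructor
  · intro h1 h2
    have := F.inf_mem _ h2 _ h1
    rw [inf_compl_self] at this
    exact F.bot_notMem this
  · intro h
    exact (F.compl_mem A).resolve_left h

lemma ClopUlt.isClopen_basic (A : Clopens K) : IsClopen {F : ClopUlt K | A ∈ F.sets} := by
  refine ⟨⟨?_⟩, isOpen_basic A⟩
  have : {F : ClopUlt K | A ∈ F.sets}ᶜ = {F : ClopUlt K | Aᶜ ∈ F.sets} := by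
    ext F
    exact (F.compl_iff A).symm
  rw [this]
  exact isOpen_basic _

lemma ClopUlt.exists_of_ne {F G : ClopUlt K} (h : F ≠ G) : ∃ A, A ∈ F.sets ∧ A ∉ G.sets := by
  by_contra hcon
  push Not at hcon
  apply h
  ext A
  constructor
  · exact hcon A
  · intro hA
    by_contra hA2
    exact (G.compl_iff A).1 (hcon _ ((F.compl_iff A).2 hA2)) hA

instance : TotallySeparatedSpace (ClopUlt K) := by
  refine ⟨fun F _ G _ hne => ?_⟩
  obtain ⟨A, hA1, hA2⟩ := ClopUlt.exists_of_ne hne
  refine ⟨{F | A ∈ F.sets}, {F | A ∈ F.sets}ᶜ, ClopUlt.isOpen_basic A,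
    (ClopUlt.isClopen_basic A).1.isOpen_compl, hA1, hA2, ?_, disjoint_compl_right⟩
  intro H _
  exact em _

instance : T2Space (ClopUlt K) := inferInstance

/-- the canonical map of `K` to the Stone space of its clopen algebra -/
def stoneMap (k : K) : ClopUlt K where
  sets := {A | k ∈ A}
  top_mem := trivial
  bot_notMem := fun h => h
  inf_mem := fun _ hA _ hB => ⟨hA, hB⟩
  up_mem := fun _ hA _ hAB => hAB hA
  compl_mem := fun A => em (k ∈ A)

lemma continuous_stoneMap : Continuous (stoneMap : K → ClopUlt K) := by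
  refine continuous_generateFrom_iff.2 ?_
  rintro s ⟨A, rfl⟩
  exact A.isClopen.isOpen

lemma surjective_stoneMap [CompactSpace K] : Function.Surjective (stoneMap : K → ClopUlt K) := by
  intro F
  have hne : (⋂ A : F.sets, (A.1 : Set K)).Nonempty := by
    have : Nonempty F.sets := ⟨⟨⊤, F.top_mem⟩⟩
    refine IsCompact.nonempty_iInter_of_directed_nonempty_isCompact_isClosed
      (fun A : F.sets => (A.1 : Set K)) ?_ ?_ ?_ ?_
    · intro A B
      exact ⟨⟨A.1 ⊓ B.1, F.inf_mem _ A.2 _ B.2⟩, fun _ h => h.1, fun _ h => h.2⟩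
    · intro A
      by_contra hcon
      rw [not_nonempty_iff_eq_empty] at hcon
      have : A.1 = ⊥ := by
        ext k
        rw [hcon]
        exact Iff.rfl
      exact F.bot_notMem (this ▸ A.2)
    · intro A
      exact A.1.isClopen.isClosed.isCompact
    · intro A
      exact A.1.isClopen.isClosed
  obtain ⟨k, hk⟩ := hne
  rw [mem_iInter] at hk
  refine ⟨k, ?_⟩
  ext A
  constructor
  · intro (hA : k ∈ A)
    by_contra hA2
    exact hk ⟨Aᶜ, (F.compl_iff A).2 hA2⟩ hA
  · intro hA
    exact hk ⟨A, hA⟩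

instance [CompactSpace K] : CompactSpace (ClopUlt K) := by
  refine ⟨?_⟩
  rw [← surjective_stoneMap.range_eq]
  exact isCompact_range continuous_stoneMap

variable [CompactSpace K]

/-- composition with the canonical map `K → St(Clop K)` -/
def stonePull (K : Type u) [TopologicalSpace K] [CompactSpace K] :
    C(ClopUlt K, ℝ) →ₗ[ℝ] C(K, ℝ) where
  toFun g := g.comp ⟨stoneMap, continuous_stoneMap⟩
  map_add' _ _ := rfl
  map_smul' _ _ := rfl

lemma stonePull_apply (g : C(ClopUlt K, ℝ)) (k : K) : stonePull K g k = g (stoneMap k) := rfl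

lemma stonePull_injective : Function.Injective (stonePull K) := by
  intro f g h
  ext F
  obtain ⟨k, rfl⟩ := surjective_stoneMap F
  exact congrArg (fun f : C(K, ℝ) => f k) h

/-- functions coming from the Stone space are zero-dimensional -/
lemma zd_stonePull (g : C(ClopUlt K, ℝ)) : Zd (stonePull K g) := by
  intro a b hab
  have hcomp : IsCompact {F | g F ≤ a} :=
    (isClosed_le g.continuous continuous_const).isCompact
  have hopen : IsOpen {F | g F < b} := isOpen_lt g.continuous continuous_const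
  have hV : ∀ F : ClopUlt K, ∃ V : Set (ClopUlt K), IsClopen V ∧ (g F < b → F ∈ V) ∧
      V ⊆ {F | g F < b} := by
    intro F
    by_cases hF : g F < b
    · obtain ⟨V, hV1, hV2, hV3⟩ := compact_exists_isClopen_in_isOpen hopen (x := F) hF
      exact ⟨V, hV1, fun _ => hV2, hV3⟩
    · exact ⟨∅, isClopen_empty, fun h => (hF h).elim, empty_subset _⟩
  choose V hV1 hV2 hV3 using hV
  obtain ⟨t, ht1, ht2⟩ := hcomp.elim_nhds_subcover V (fun F hF =>
    (hV1 F).isOpen.mem_nhds (hV2 F (lt_of_le_of_lt hF hab)))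
  have hW : IsClopen (⋃ F ∈ t, V F) := isClopen_biUnion_finset fun F _ => hV1 F
  refine ⟨⟨stoneMap ⁻¹' (⋃ F ∈ t, V F), hW.preimage continuous_stoneMap⟩, fun k hk => ?_,
    fun k hk => ?_⟩
  · exact ht2 hk
  · have hk' : stoneMap k ∈ ⋃ F ∈ t, V F := hk
    obtain ⟨F, hF⟩ := mem_iUnion.1 hk'
    obtain ⟨hFt, hkF⟩ := mem_iUnion.1 hF
    exact hV3 F hkF

/-- zero-dimensional functions come from the Stone space -/
lemma exists_of_zd [T2Space K] {f : C(K, ℝ)} (hf : Zd f) : ∃ g, stonePull K g = f := by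
  have hq : IsQuotientMap (stoneMap : K → ClopUlt K) :=
    IsQuotientMap.of_surjective_continuous surjective_stoneMap continuous_stoneMap
  have hle : ∀ k k' : K, stoneMap k = stoneMap k' → f k' ≤ f k := by
    intro k k' h
    by_contra hcon
    push Not at hcon
    obtain ⟨A, hA1, hA2⟩ := hf (f k) (f k') hcon
    have h1 : k ∈ A := hA1 k le_rfl
    have h2 : A ∈ (stoneMap k).sets := h1
    rw [h] at h2
    exact lt_irrefl _ (hA2 k' h2)
  have hfac : Function.FactorsThrough f (stoneMap : K → ClopUlt K) := fun k k' h =>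
    le_antisymm (hle k' k h.symm) (hle k k' h)
  obtain ⟨g, hg⟩ : ∃ g : ClopUlt K → ℝ, ∀ k, g (stoneMap k) = f k := by
    refine ⟨fun F => f (surjective_stoneMap F).choose, fun k => ?_⟩
    exact hfac (surjective_stoneMap (stoneMap k)).choose_spec
  have hgc : Continuous g := by
    rw [hq.continuous_iff]
    have : g ∘ stoneMap = f := funext hg
    rw [this]
    exact f.continuous
  exact ⟨⟨g, hgc⟩, ContinuousMap.ext hg⟩

end stone

/-- `K` is sick: there are a separable Banach lattice `E`, `u ≥ 0` in `E` and an injective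
vector lattice homomorphism `T : C(K) → E` with range the principal ideal `E_u` and `T 1 = u`. -/
def IsSickUnit (K : Type u) [TopologicalSpace K] : Prop :=
  ∃ (E : Type v) (_ : NormedAddCommGroup E) (_ : NormedSpace ℝ E) (_ : Lattice E)
    (_ : BanachLattice E) (_ : TopologicalSpace.SeparableSpace E) (x : E)
    (T : C(K, ℝ) →ₗ[ℝ] E), IsIdealRep T x ∧ T 1 = x

section final

variable {K : Type u} [TopologicalSpace K] [CompactSpace K] [T2Space K]
variable {E : Type v} [NormedAddCommGroup E] [NormedSpace ℝ E] [Lattice E] [BanachLattice E]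
variable {T : C(K, ℝ) →ₗ[ℝ] E} {x : E}

/-- the closure of the image of the zero-dimensional functions meets the ideal in the image -/
lemma IsIdealRep.mem_of_closure (hT : IsIdealRep T x) (hx : T 1 = x) {y : E}
    (hy : y ∈ closure (range fun g => T (stonePull K g))) {r : ℝ} (hr : 0 < r)
    (hyr : |y| ≤ r • x) : ∃ g, T (stonePull K g) = y := by
  obtain ⟨z, hz, hzt⟩ := mem_closure_iff_seq_limit.1 hy
  choose h hh using hz
  have hx0 : 0 ≤ x := hT.nonneg
  -- truncate
  let tr : C(ClopUlt K, ℝ) → C(ClopUlt K, ℝ) := fun g => (g ⊓ r • 1) ⊔ (-(r • 1))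
  have hTtr : ∀ g, T (stonePull K (tr g)) = (T (stonePull K g) ⊓ r • x) ⊔ (-(r • x)) := by
    intro g
    have h1 : stonePull K (tr g) = (stonePull K g ⊓ r • 1) ⊔ (-(r • 1)) := rfl
    rw [h1, hT.map_sup, hT.map_inf, map_neg, map_smul, hx]
  have htrabs : ∀ g, |stonePull K (tr g)| ≤ r • (1 : C(K, ℝ)) := by
    intro g
    rw [abs_le']
    constructor
    · intro k
      show (g (stoneMap k) ⊓ r * 1) ⊔ (-(r * 1)) ≤ r * 1
      refine sup_le inf_le_right (by linarith)
    · intro k
      show -((g (stoneMap k) ⊓ r * 1) ⊔ (-(r * 1))) ≤ r * 1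
      have : -(r * 1) ≤ (g (stoneMap k) ⊓ r * 1) ⊔ (-(r * 1)) := le_sup_right
      linarith
  have hlim : Tendsto (fun n => T (stonePull K (tr (h n)))) atTop (𝓝 y) := by
    have h2 : (y ⊓ r • x) ⊔ (-(r • x)) = y := by
      rw [inf_eq_left.2 ((le_abs_self y).trans hyr), sup_eq_left]
      exact neg_le.1 ((neg_le_abs y).trans hyr)
    have h3 : Tendsto (fun n => (z n ⊓ r • x) ⊔ (-(r • x))) atTop (𝓝 ((y ⊓ r • x) ⊔ (-(r • x)))) :=
      (hzt.inf_nhds tendsto_const_nhds).sup_nhds tendsto_const_nhds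
    rw [h2] at h3
    refine h3.congr fun n => ?_
    rw [hTtr]
    simp only at hh
    rw [hh]
  -- normalise
  let f : ℕ → C(K, ℝ) := fun n => stonePull K (r⁻¹ • tr (h n))
  have hf1 : ∀ n, |f n| ≤ 1 := by
    intro n k
    show |f n| k ≤ 1
    rw [abs_apply']
    show |r⁻¹ * (stonePull K (tr (h n)) k)| ≤ 1
    have h4 : |stonePull K (tr (h n))| k ≤ r * 1 := htrabs (h n) k
    rw [abs_apply'] at h4
    rw [abs_mul, abs_of_pos (inv_pos.2 hr), inv_mul_le_iff₀ hr]
    exact h4
  have hflim : Tendsto (fun n => T (f n)) atTop (𝓝 (r⁻¹ • y)) := by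
    have : ∀ n, T (f n) = r⁻¹ • T (stonePull K (tr (h n))) := by
      intro n
      show T (stonePull K (r⁻¹ • tr (h n))) = _
      rw [map_smul, map_smul]
    simp only [this]
    exact hlim.const_smul _
  obtain ⟨g, hg, -⟩ := hT.complete hf1 hflim
  rw [← hg] at hflim
  have hzd : Zd g := hT.zd_limit f g hf1 (fun n => zd_stonePull _) (fun m n => by
    have : -|f n - f m| = stonePull K (-|r⁻¹ • tr (h n) - r⁻¹ • tr (h m)|) := rfl
    rw [this]
    exact zd_stonePull _) hflim
  obtain ⟨g', hg'⟩ := exists_of_zd hzd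
  refine ⟨r • g', ?_⟩
  rw [map_smul, map_smul, hg', hg, smul_smul, mul_inv_cancel₀ hr.ne', one_smul]

/-- The Stone space of the clopen algebra of a sick compact space is sick. -/
theorem sick_stone (K : Type u) [TopologicalSpace K] [CompactSpace K] [T2Space K]
    (h : IsSickUnit.{u, v} K) : IsSickUnit.{u, v} (ClopUlt K) := by
  obtain ⟨E, _, _, _, _, _, x, T, hT, hx⟩ := h
  let S : C(ClopUlt K, ℝ) →ₗ[ℝ] E := T ∘ₗ stonePull K
  have hSrange : (LinearMap.range S : Set E) = range fun g => T (stonePull K g) := rfl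
  have hSsup : ∀ f g, S (f ⊔ g) = S f ⊔ S g := fun f g =>
    hT.map_sup (stonePull K f) (stonePull K g)
  have hSinf : ∀ f g, S (f ⊓ g) = S f ⊓ S g := fun f g =>
    hT.map_inf (stonePull K f) (stonePull K g)
  have hS1 : S 1 = x := hx
  let M : Submodule ℝ E := (LinearMap.range S).topologicalClosure
  have hMmem : ∀ y, y ∈ M ↔ y ∈ closure (range fun g => T (stonePull K g)) := fun y => Iff.rfl
  have hs : ∀ a ∈ M, ∀ b ∈ M, a ⊔ b ∈ M := by
    intro a ha b hb
    rw [hMmem] at ha hb ⊢
    refine map_mem_closure₂ continuous_sup ha hb ?_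
    rintro _ ⟨f, rfl⟩ _ ⟨g, rfl⟩
    exact ⟨f ⊔ g, hSsup f g⟩
  have hi : ∀ a ∈ M, ∀ b ∈ M, a ⊓ b ∈ M := by
    intro a ha b hb
    rw [hMmem] at ha hb ⊢
    refine map_mem_closure₂ continuous_inf ha hb ?_
    rintro _ ⟨f, rfl⟩ _ ⟨g, rfl⟩
    exact ⟨f ⊓ g, hSinf f g⟩
  have hc : IsClosed (M : Set E) := Submodule.isClosed_topologicalClosure _
  have hSM : ∀ g, S g ∈ M := fun g => Submodule.le_topologicalClosure _ (LinearMap.mem_range_self S g)
  let _ : Lattice M := SubLat.subLattice M hs hi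
  have hBL : BanachLattice M := SubLat.subBanachLattice M hs hi hc
  have hsc : SecondCountableTopology E := UniformSpace.secondCountable_of_separable E
  let S' : C(ClopUlt K, ℝ) →ₗ[ℝ] M := S.codRestrict M hSM
  have hS'1 : S' 1 = ⟨x, hS1 ▸ hSM 1⟩ := Subtype.ext hS1
  refine ⟨M, inferInstance, inferInstance, inferInstance, hBL, inferInstance, ⟨x, hS1 ▸ hSM 1⟩,
    S', ⟨?_, ?_, ?_, ?_, ?_⟩, hS'1⟩
  · exact hT.nonneg
  · intro f g hfg
    exact stonePull_injective (hT.inj (congrArg (fun y : M => (y : E)) hfg))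
  · intro f g
    exact Subtype.ext (hSsup f g)
  · intro f g
    exact Subtype.ext (hSinf f g)
  · intro y
    constructor
    · rintro ⟨g, rfl⟩
      obtain ⟨r, hr, hr2⟩ := (hT.range_iff (S g)).1 ⟨_, rfl⟩
      exact ⟨r, hr, hr2⟩
    · rintro ⟨r, hr, hr2⟩
      obtain ⟨g, hg⟩ := hT.mem_of_closure hx (y := (y : E)) y.2 hr hr2
      exact ⟨g, Subtype.ext hg⟩

end final

end Pool.Agent.R280.Sick
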