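import Pool.Agent.R280.EllOne

/-!
The lattices `c ⊕ c_0` with the norm `sup_n (|x(a_n)| + |x(b_n)|)`, and the lattice homomorphism
`ℝ ⊕ ℓ_1 → ℝ ⊕ c_0`.
-/

set_option autoImplicit false
set_option linter.unusedSectionVars false

open Set Topology Filter

universe u v

namespace Pool.Agent.R280.BLat

section prod

variable {X : Type u} [NormedAddCommGroup X] [NormedSpace ℝ X] [Lattice X] [BanachLattice X]
variable {Y : Type v} [NormedAddCommGroup Y] [NormedSpace ℝ Y] [Lattice Y] [BanachLattice Y]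

instance : HasSolidNorm (X × Y) where
  solid p q h := by
    rw [Prod.norm_def, Prod.norm_def]
    exact max_le_max (HasSolidNorm.solid h.1) (HasSolidNorm.solid h.2)

instance : BanachLattice (X × Y) where
  smul_le_smul_of_nonneg_left _ hc _ _ h :=
    ⟨smul_le_smul_of_nonneg_left h.1 hc, smul_le_smul_of_nonneg_left h.2 hc⟩

end prod

/-- two-point weights and one-point weights of `XL k` -/
def WX (k : ℕ) : Set (ℕ × Bool →₀ ℝ) :=
  {w | (∃ n, w = Finsupp.single (n, true) 1) ∨
    ∃ n, w = Finsupp.single (n, false) 1 + Finsupp.single (n + k, true) 1}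

lemma pr_single {I : Type u} (i : I) (x : I → ℝ) : pr (Finsupp.single i (1 : ℝ)) x = |x i| := by
  unfold pr
  rw [Finsupp.sum_single_index]
  · rw [one_mul]
  · rw [zero_mul]

lemma pr_add {I : Type u} (v w : I →₀ ℝ) (x : I → ℝ) : pr (v + w) x = pr v x + pr w x := by
  classical
  unfold pr
  rw [Finsupp.sum_add_index]
  · intro i _; rw [zero_mul]
  · intro i _ a b; rw [add_mul]

/-- The Banach lattice of all pairs of sequences `(x(·, false), x(·, true))`, where the first one
converges and the second one tends to `0`, with the norm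
`sup (sup_n |x(n, true)|) (sup_n (|x(n, false)| + |x(n + k, true)|))`. -/
def XL (k : ℕ) : FLat (ℕ × Bool) where
  S :=
    { carrier := {x | (∃ c : ℝ, Tendsto (fun n => x (n, false)) atTop (𝓝 c)) ∧
        Tendsto (fun n => x (n, true)) atTop (𝓝 0)}
      add_mem' := by
        rintro x y ⟨⟨c, hc⟩, h0⟩ ⟨⟨d, hd⟩, h1⟩
        exact ⟨⟨c + d, hc.add hd⟩, by simpa using h0.add h1⟩
      zero_mem' := ⟨⟨0, tendsto_const_nhds⟩, tendsto_const_nhds⟩
      smul_mem' := by
        rintro a x ⟨⟨c, hc⟩, h0⟩
        exact ⟨⟨a * c, hc.const_mul a⟩, by simpa using h0.const_mul a⟩ }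
  W := WX k
  abs_mem := by
    rintro x ⟨⟨c, hc⟩, h0⟩
    exact ⟨⟨|c|, hc.abs⟩, by simpa using h0.abs⟩
  W_nonneg := by
    classical
    rintro w (⟨n, rfl⟩ | ⟨n, rfl⟩) i
    · rw [Finsupp.single_apply]; split_ifs <;> norm_num
    · rw [Finsupp.add_apply, Finsupp.single_apply, Finsupp.single_apply]
      split_ifs <;> norm_num
  W_sep := by
    classical
    rintro ⟨n, b⟩
    cases b with
    | true => exact ⟨_, Or.inl ⟨n, rfl⟩, by simp⟩
    | false => exact ⟨_, Or.inr ⟨n, rfl⟩, by simp⟩
  bdd := by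
    rintro x ⟨⟨c, hc⟩, h0⟩
    obtain ⟨A, hA⟩ := hc.abs.bddAbove_range
    obtain ⟨B, hB⟩ := h0.abs.bddAbove_range
    have hA' : ∀ n, |x (n, false)| ≤ A := fun n => hA ⟨n, rfl⟩
    have hB' : ∀ n, |x (n, true)| ≤ B := fun n => hB ⟨n, rfl⟩
    refine ⟨A + B, ?_⟩
    rintro w (⟨n, rfl⟩ | ⟨n, rfl⟩)
    · rw [pr_single]
      have := (abs_nonneg _).trans (hA' 0)
      linarith [hB' n]
    · rw [pr_add, pr_single, pr_single]
      exact add_le_add (hA' n) (hB' _)
  closed := by
    intro x hx
    have hval : ∀ ε : ℝ, 0 < ε → ∃ y : ℕ × Bool → ℝ,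
        ((∃ c : ℝ, Tendsto (fun n => y (n, false)) atTop (𝓝 c)) ∧
        Tendsto (fun n => y (n, true)) atTop (𝓝 0)) ∧ ∀ i, |x i - y i| ≤ ε := by
      intro ε hε
      obtain ⟨y, hy, hxy⟩ := hx ε hε
      refine ⟨y, hy, ?_⟩
      rintro ⟨n, b⟩
      cases b with
      | true =>
        have := hxy _ (Or.inl ⟨n, rfl⟩)
        rw [pr_single] at this
        exact this
      | false =>
        have := hxy _ (Or.inr ⟨n, rfl⟩)
        rw [pr_add, pr_single, pr_single] at this
        have h2 := abs_nonneg ((x - y) (n + k, true))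
        have h3 : |(x - y) (n, false)| ≤ ε := by linarith
        exact h3
    constructor
    · refine cauchySeq_tendsto_of_complete ?_
      rw [Metric.cauchySeq_iff']
      intro ε hε
      obtain ⟨y, ⟨⟨c, hc⟩, -⟩, hxy⟩ := hval (ε / 4) (by positivity)
      have h1 := hc.cauchySeq
      rw [Metric.cauchySeq_iff'] at h1
      obtain ⟨N, hN⟩ := h1 (ε / 4) (by positivity)
      refine ⟨N, fun n hn => ?_⟩
      have h2 := hN n hn
      rw [Real.dist_eq] at h2 ⊢
      have h3 := hxy (n, false)
      have h4 := hxy (N, false)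
      rw [abs_lt] at h2 ⊢
      rw [abs_le] at h3 h4
      constructor <;> linarith [h2.1, h2.2, h3.1, h3.2, h4.1, h4.2]
    · rw [Metric.tendsto_atTop]
      intro ε hε
      obtain ⟨y, ⟨-, hy⟩, hxy⟩ := hval (ε / 4) (by positivity)
      rw [Metric.tendsto_atTop] at hy
      obtain ⟨N, hN⟩ := hy (ε / 4) (by positivity)
      refine ⟨N, fun n hn => ?_⟩
      have h2 := hN n hn
      rw [Real.dist_eq] at h2 ⊢
      have h3 := hxy (n, true)
      rw [abs_lt] at h2 ⊢
      rw [abs_le] at h3
      constructor <;> linarith [h2.1, h2.2, h3.1, h3.2]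

/-- The Banach lattice `ℝ ⊕ c_0` with the supremum norm. -/
def YL : FLat (Option ℕ) where
  S :=
    { carrier := {x | Tendsto (fun n => x (some n)) atTop (𝓝 0)}
      add_mem' := by
        intro x y h0 h1
        have := Tendsto.add h0 h1
        rw [add_zero] at this
        exact this
      zero_mem' := tendsto_const_nhds
      smul_mem' := by
        intro a x h0
        have := Tendsto.const_mul a h0
        rw [mul_zero] at this
        exact this }
  W := {w | ∃ i, w = Finsupp.single i 1}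
  abs_mem := by
    intro x h0
    have := Tendsto.abs h0
    rw [abs_zero] at this
    exact this
  W_nonneg := by
    classical
    rintro w ⟨n, rfl⟩ i
    rw [Finsupp.single_apply]; split_ifs <;> norm_num
  W_sep := fun i => ⟨_, ⟨i, rfl⟩, by simp⟩
  bdd := by
    intro x h0
    obtain ⟨B, hB⟩ := (Tendsto.abs h0).bddAbove_range
    have hB' : ∀ n, |x (some n)| ≤ B := fun n => hB ⟨n, rfl⟩
    refine ⟨|x none| + B, ?_⟩
    have hB0 := (abs_nonneg _).trans (hB' 0)
    rintro w ⟨i, rfl⟩
    rw [pr_single]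
    cases i with
    | none => linarith
    | some n => linarith [hB' n, abs_nonneg (x none)]
  closed := by
    intro x hx
    show Tendsto (fun n => x (some n)) atTop (𝓝 0)
    rw [Metric.tendsto_atTop]
    intro ε hε
    obtain ⟨y, hy, hxy⟩ := hx (ε / 4) (by positivity)
    have hy' : Tendsto (fun n => y (some n)) atTop (𝓝 0) := hy
    rw [Metric.tendsto_atTop] at hy'
    obtain ⟨N, hN⟩ := hy' (ε / 4) (by positivity)
    refine ⟨N, fun n hn => ?_⟩
    have h2 := hN n hn
    rw [Real.dist_eq] at h2 ⊢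
    have h3 := hxy _ ⟨some n, rfl⟩
    rw [pr_single, Pi.sub_apply] at h3
    rw [abs_lt] at h2 ⊢
    rw [abs_le] at h3
    constructor <;> linarith [h2.1, h2.2, h3.1, h3.2]

section XL
variable {k : ℕ}

lemma XL_lim (x : (XL k).Space) : ∃ c : ℝ, Tendsto (fun n => x.fn (n, false)) atTop (𝓝 c) := x.2.1

/-- the limit of the first sequence -/
noncomputable def lm (x : (XL k).Space) : ℝ := (XL_lim x).choose

lemma tendsto_lm (x : (XL k).Space) : Tendsto (fun n => x.fn (n, false)) atTop (𝓝 (lm x)) :=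
  (XL_lim x).choose_spec

lemma tendsto_true (x : (XL k).Space) : Tendsto (fun n => x.fn (n, true)) atTop (𝓝 0) := x.2.2

lemma lm_eq {x : (XL k).Space} {c : ℝ} (h : Tendsto (fun n => x.fn (n, false)) atTop (𝓝 c)) :
    lm x = c := tendsto_nhds_unique (tendsto_lm x) h

lemma abs_true_le (x : (XL k).Space) (n : ℕ) : |x.fn (n, true)| ≤ ‖x‖ := by
  have := FLat.pr_le x (w := Finsupp.single (n, true) 1) (Or.inl ⟨n, rfl⟩)
  rwa [pr_single] at this

lemma abs_add_le_norm (x : (XL k).Space) (n : ℕ) :
    |x.fn (n, false)| + |x.fn (n + k, true)| ≤ ‖x‖ := by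
  have := FLat.pr_le x (w := Finsupp.single (n, false) 1 + Finsupp.single (n + k, true) 1)
    (Or.inr ⟨n, rfl⟩)
  rwa [pr_add, pr_single, pr_single] at this

lemma XL_norm_le (x : (XL k).Space) {C : ℝ} (hC : 0 ≤ C) (h1 : ∀ n, |x.fn (n, true)| ≤ C)
    (h2 : ∀ n, |x.fn (n, false)| + |x.fn (n + k, true)| ≤ C) : ‖x‖ ≤ C := by
  refine FLat.norm_le_of x hC ?_
  rintro w (⟨n, rfl⟩ | ⟨n, rfl⟩)
  · rw [pr_single]; exact h1 n
  · rw [pr_add, pr_single, pr_single]; exact h2 n

lemma abs_lm_le (x : (XL k).Space) : |lm x| ≤ ‖x‖ := by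
  refine le_of_tendsto (tendsto_lm x).abs (Eventually.of_forall fun n => ?_)
  have := abs_add_le_norm x n
  linarith [abs_nonneg (x.fn (n + k, true))]

lemma YL_abs_le (y : YL.Space) (i : Option ℕ) : |y.fn i| ≤ ‖y‖ := by
  have := FLat.pr_le y (w := Finsupp.single i 1) ⟨i, rfl⟩
  rwa [pr_single] at this

lemma YL_norm_le (y : YL.Space) {C : ℝ} (hC : 0 ≤ C) (h : ∀ i, |y.fn i| ≤ C) : ‖y‖ ≤ C := by
  refine FLat.norm_le_of y hC ?_
  rintro w ⟨i, rfl⟩
  rw [pr_single]; exact h i

/-- the function of `Q x` -/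
noncomputable def Qfun (x : (XL k).Space) : Option ℕ → ℝ
  | none => lm x
  | some n => x.fn (n, true)

lemma Qfun_mem (x : (XL k).Space) : Qfun x ∈ YL.S := tendsto_true x

variable (k) in
/-- the quotient map `XL k → YL` -/
noncomputable def Qk : (XL k).Space →L[ℝ] YL.Space :=
  LinearMap.mkContinuous
    { toFun := fun x => FLat.of (Qfun x) (Qfun_mem x)
      map_add' := by
        intro x y
        refine FLat.Space.ext fun i => ?_
        rw [FLat.add_fn, FLat.of_fn, FLat.of_fn, FLat.of_fn]
        cases i with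
        | none => exact lm_eq ((tendsto_lm x).add (tendsto_lm y))
        | some n => rfl
      map_smul' := by
        intro c x
        refine FLat.Space.ext fun i => ?_
        rw [FLat.smul_fn, FLat.of_fn, FLat.of_fn]
        cases i with
        | none => exact lm_eq ((tendsto_lm x).const_mul c)
        | some n => rfl } 1 (by
      intro x
      rw [one_mul]
      refine YL_norm_le _ (norm_nonneg x) fun i => ?_
      cases i with
      | none => exact abs_lm_le x
      | some n => exact abs_true_le x n)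

lemma Qk_none (x : (XL k).Space) : (Qk k x).fn none = lm x := rfl
lemma Qk_some (x : (XL k).Space) (n : ℕ) : (Qk k x).fn (some n) = x.fn (n, true) := rfl

lemma isLatHom_Qk : IsLatHom (Qk k) := by
  refine isLatHom_of_abs fun x => FLat.Space.ext fun i => ?_
  rw [FLat.abs_fn]
  cases i with
  | none => rw [Qk_none, Qk_none]; exact lm_eq (tendsto_lm x).abs
  | some n => rfl

/-- approximate preimages -/
lemma exists_preimage (y : YL.Space) {ε : ℝ} (hε : 0 < ε) :
    ∃ x : (XL k).Space, Qk k x = y ∧ ‖x‖ ≤ ‖y‖ + ε := by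
  have hy : Tendsto (fun n => y.fn (some n)) atTop (𝓝 0) := y.2
  have hy2 := hy
  rw [Metric.tendsto_atTop] at hy2
  obtain ⟨N, hN⟩ := hy2 ε hε
  set f : ℕ × Bool → ℝ := fun p => if p.2 then y.fn (some p.1) else
    (if p.1 < N then 0 else y.fn none) with hf
  have hf1 : Tendsto (fun n => f (n, false)) atTop (𝓝 (y.fn none)) := by
    refine tendsto_const_nhds.congr' ?_
    filter_upwards [eventually_ge_atTop N] with n hn
    simp [hf, not_lt.2 hn]
  have hf2 : Tendsto (fun n => f (n, true)) atTop (𝓝 0) := hy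
  refine ⟨FLat.of f ⟨⟨_, hf1⟩, hf2⟩, ?_, ?_⟩
  · refine FLat.Space.ext fun i => ?_
    cases i with
    | none => rw [Qk_none]; exact lm_eq hf1
    | some n => rfl
  · refine XL_norm_le _ (by positivity) (fun n => ?_) (fun n => ?_)
    · have : |y.fn (some n)| ≤ ‖y‖ := YL_abs_le y _
      show |y.fn (some n)| ≤ ‖y‖ + ε
      linarith
    · show |f (n, false)| + |f (n + k, true)| ≤ ‖y‖ + ε
      have h1 : f (n + k, true) = y.fn (some (n + k)) := rfl
      rw [h1]
      by_cases hn : n < N
      · have h2 : f (n, false) = 0 := by simp [hf, hn]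
        rw [h2, abs_zero, zero_add]
        have := YL_abs_le y (some (n + k))
        linarith
      · have h2 : f (n, false) = y.fn none := by simp [hf, hn]
        rw [h2]
        have h3 := hN (n + k) (by omega)
        rw [Real.dist_eq, sub_zero] at h3
        have := YL_abs_le y none
        linarith

lemma isQuotient_Qk : IsQuotient (Qk k) := by
  refine ⟨isLatHom_Qk, fun y => ⟨?_, ?_⟩⟩
  · rintro r ⟨x, rfl, rfl⟩
    refine YL_norm_le _ (norm_nonneg x) fun i => ?_
    cases i with
    | none => exact abs_lm_le x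
    | some n => exact abs_true_le x n
  · intro c hc
    refine le_of_forall_pos_le_add fun ε hε => ?_
    obtain ⟨x, hx, hxn⟩ := exists_preimage (k := k) y hε
    exact (hc ⟨x, hx, rfl⟩).trans hxn

/-- the function of `T (a, β)` -/
noncomputable def Tfun (p : ℝ × ell1.Space) : Option ℕ → ℝ
  | none => p.1
  | some n => p.2.fn n

lemma ell1_abs_le (β : ell1.Space) (n : ℕ) : |β.fn n| ≤ ‖β‖ := by
  have := sum_le_norm_ell1 β {n}
  rwa [Finset.sum_singleton] at this

lemma ell1_tendsto (β : ell1.Space) : Tendsto (fun n => β.fn n) atTop (𝓝 0) := by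
  have h := (isL1Type_ell1.summable β).tendsto_atTop_zero
  rwa [tendsto_zero_iff_abs_tendsto_zero]

lemma Tfun_mem (p : ℝ × ell1.Space) : Tfun p ∈ YL.S := ell1_tendsto p.2

/-- the lattice homomorphism `ℝ ⊕ ℓ_1 → ℝ ⊕ c_0` -/
noncomputable def TT : (ℝ × ell1.Space) →L[ℝ] YL.Space :=
  LinearMap.mkContinuous
    { toFun := fun p => FLat.of (Tfun p) (Tfun_mem p)
      map_add' := by
        intro x y
        refine FLat.Space.ext fun i => ?_
        rw [FLat.add_fn, FLat.of_fn, FLat.of_fn, FLat.of_fn]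
        cases i with
        | none => rfl
        | some n => rfl
      map_smul' := by
        intro c x
        refine FLat.Space.ext fun i => ?_
        rw [FLat.smul_fn, FLat.of_fn, FLat.of_fn]
        cases i with
        | none => rfl
        | some n => rfl } 1 (by
      intro p
      rw [one_mul]
      refine YL_norm_le _ (norm_nonneg p) fun i => ?_
      cases i with
      | none => exact norm_fst_le p
      | some n => exact (ell1_abs_le p.2 n).trans (norm_snd_le p))

lemma TT_none (p : ℝ × ell1.Space) : (TT p).fn none = p.1 := rfl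
lemma TT_some (p : ℝ × ell1.Space) (n : ℕ) : (TT p).fn (some n) = p.2.fn n := rfl

lemma norm_TT_le : ‖TT‖ ≤ 1 := LinearMap.mkContinuous_norm_le _ zero_le_one _

lemma isLatHom_TT : IsLatHom TT := by
  intro a b
  constructor
  · refine FLat.Space.ext fun i => ?_
    cases i with
    | none => rfl
    | some n => rfl
  · refine FLat.Space.ext fun i => ?_
    cases i with
    | none => rfl
    | some n => rfl

/-- every lift of `TT` has norm at least `2` -/
lemma no_lift (T' : (ℝ × ell1.Space) →L[ℝ] (XL k).Space) (hT' : IsLatHom T')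
    (hQ : ∀ p, Qk k (T' p) = TT p) (hn : ‖T'‖ ≤ 3 / 2) : False := by
  have hL := isL1Type_ell1
  set f := T' (1, 0) with hf
  have hf0 : 0 ≤ f := hT'.map_pos (Prod.mk_le_mk.2 ⟨zero_le_one, le_rfl⟩)
  have hlim : Tendsto (fun n => f.fn (n, false)) atTop (𝓝 1) := by
    have h1 : lm f = 1 := by
      rw [← Qk_none, hf, hQ, TT_none]
    rw [← h1]
    exact tendsto_lm f
  have key : ∀ n : ℕ, f.fn (n, false) + 1 ≤ 3 / 2 := by
    intro n
    set g := T' (0, hL.e (n + k)) with hg
    have hg0 : 0 ≤ g := hT'.map_pos (Prod.mk_le_mk.2 ⟨le_rfl, hL.e_nonneg _⟩)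
    have hg1 : g.fn (n + k, true) = 1 := by
      rw [← Qk_some, hg, hQ, TT_some, hL.e_fn, if_pos rfl]
    have hsum : T' (1, hL.e (n + k)) = f + g := by
      rw [hf, hg, ← map_add]
      congr 1
      rw [Prod.mk_add_mk, add_zero, zero_add]
    have h1 : ‖T' (1, hL.e (n + k))‖ ≤ 3 / 2 := by
      have h2 := T'.le_opNorm (1, hL.e (n + k))
      have h3 : ‖((1 : ℝ), hL.e (n + k))‖ ≤ 1 := by
        rw [Prod.norm_def]
        exact max_le (by simp) (hL.norm_e_le _)
      calc _ ≤ ‖T'‖ * ‖((1 : ℝ), hL.e (n + k))‖ := h2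
        _ ≤ (3 / 2) * 1 := mul_le_mul hn h3 (norm_nonneg _) (by norm_num)
        _ = 3 / 2 := by norm_num
    rw [hsum] at h1
    have h2 := abs_add_le_norm (f + g) n
    rw [FLat.add_fn, FLat.add_fn, hg1] at h2
    have h3 : 0 ≤ f.fn (n + k, true) := hf0 _
    have h4 : 0 ≤ g.fn (n, false) := hg0 _
    have h5 : 0 ≤ f.fn (n, false) := hf0 _
    rw [abs_of_nonneg (by linarith), abs_of_nonneg (by linarith)] at h2
    linarith
  have h1 : (1 : ℝ) + 1 ≤ 3 / 2 := le_of_tendsto (hlim.add_const 1) (Eventually.of_forall key)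
  norm_num at h1

end XL

end Pool.Agent.R280.BLat
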