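import Pool.Agent.R280.XLat

/-!
Semiprojective Banach lattices, and the ideals of the lattice `XL 0`.
-/

set_option autoImplicit false
set_option linter.unusedSectionVars false

open Set Topology Filter

universe u v

namespace Pool.Agent.R280.BLat

/-- `J` is a closed ideal of the Banach lattice `E`. -/
def IsClosedIdeal {E : Type u} [NormedAddCommGroup E] [NormedSpace ℝ E] [Lattice E]
    (J : Submodule ℝ E) : Prop :=
  IsClosed (J : Set E) ∧ ∀ a ∈ J, ∀ b : E, |b| ≤ |a| → b ∈ J

/-- `A` is semiprojective: let `E` be a separable Banach lattice, `I 0 ⊆ I 1 ⊆ ...` closed ideals of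
`E`, let `q n : E → E n` be the quotient map with kernel `I n` (so `E n = E / I n`), let
`q' : E → E'` be the quotient map whose kernel is the closure of the union of the `I n`
(so `E' = E / I`), and let `π n : E n → E'` be the canonical maps, `π n ∘ q n = q'`. Then for every
contractive lattice homomorphism `φ : A → E'` there is an index `n` such that for every `ε > 0`
some lattice homomorphism `ψ : A → E n` satisfies `‖ψ‖ ≤ 1 + ε` and `π n ∘ ψ = φ`. -/
def IsSemiprojective (A : Type u) [NormedAddCommGroup A] [NormedSpace ℝ A] [Lattice A] : Prop :=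
  ∀ (E : Type v) [NormedAddCommGroup E] [NormedSpace ℝ E] [Lattice E] [BanachLattice E]
    [TopologicalSpace.SeparableSpace E] (I : ℕ → Submodule ℝ E) (F : ℕ → Type v)
    [∀ n, NormedAddCommGroup (F n)] [∀ n, NormedSpace ℝ (F n)] [∀ n, Lattice (F n)]
    [∀ n, BanachLattice (F n)]
    (E' : Type v) [NormedAddCommGroup E'] [NormedSpace ℝ E'] [Lattice E'] [BanachLattice E']
    (q : ∀ n, E →L[ℝ] F n) (q' : E →L[ℝ] E') (π : ∀ n, F n →L[ℝ] E'),
    Monotone I → (∀ n, IsClosedIdeal (I n)) →
    (∀ n, IsQuotient (q n) ∧ ∀ x, x ∈ I n ↔ q n x = 0) →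
    (IsQuotient q' ∧ ∀ x, x ∈ closure (⋃ n, (I n : Set E)) ↔ q' x = 0) →
    (∀ n x, π n (q n x) = q' x) →
    ∀ φ : A →L[ℝ] E', IsLatHom φ → ‖φ‖ ≤ 1 →
      ∃ n, ∀ ε : ℝ, 0 < ε → ∃ ψ : A →L[ℝ] F n, IsLatHom ψ ∧ ‖ψ‖ ≤ 1 + ε ∧ ∀ a, π n (ψ a) = φ a

/-- projective Banach lattices are semiprojective -/
lemma IsProjective.isSemiprojective {A : Type u} [NormedAddCommGroup A] [NormedSpace ℝ A]
    [Lattice A] (hA : IsProjective.{u, v} A) : IsSemiprojective.{u, v} A := by
  intro E _ _ _ _ _ I F _ _ _ _ E' _ _ _ _ q q' π _ _ hq hq' hπ φ hφ hφn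
  refine ⟨0, fun ε hε => ?_⟩
  have hsurj : ∀ z : F 0, ∃ x : E, q 0 x = z := by
    intro z
    obtain ⟨x, hx, -⟩ := (hq 0).1.exists_lift z (lt_add_one ‖z‖)
    exact ⟨x, hx⟩
  have hQ : IsQuotient (π 0) := by
    refine ⟨?_, fun y => ⟨?_, ?_⟩⟩
    · intro a b
      obtain ⟨x, rfl⟩ := hsurj a
      obtain ⟨y, rfl⟩ := hsurj b
      rw [← ((hq 0).1.1 x y).1, ← ((hq 0).1.1 x y).2, hπ, hπ, hπ, hπ]
      exact hq'.1.1 x y
    · rintro r ⟨z, hz, rfl⟩
      refine le_of_forall_pos_lt_add fun δ hδ => ?_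
      obtain ⟨x, hx, hxn⟩ := (hq 0).1.exists_lift z (lt_add_of_pos_right ‖z‖ hδ)
      refine lt_of_le_of_lt ?_ hxn
      rw [← hz, ← hx, hπ]
      exact hq'.1.norm_le x
    · intro c hc
      refine (hq'.1.2 y).2 ?_
      rintro r ⟨x, hx, rfl⟩
      refine (hc ⟨q 0 x, by rw [hπ]; exact hx, rfl⟩).trans ((hq 0).1.norm_le x)
  obtain ⟨ψ, hψ, hψQ, hψn⟩ := hA (F 0) E' (π 0) hQ φ hφ ε hε
  refine ⟨ψ, hψ, hψn.trans ?_, hψQ⟩
  calc (1 + ε) * ‖φ‖ ≤ (1 + ε) * 1 := mul_le_mul_of_nonneg_left hφn (by positivity)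
    _ = 1 + ε := mul_one _

/-! ### the maps `XL 0 → XL k` -/

/-- shift of the first sequence -/
def Sfun (k : ℕ) (x : ℕ × Bool → ℝ) : ℕ × Bool → ℝ := fun p =>
  if p.2 then x (p.1, true) else x (p.1 + k, false)

lemma Sfun_true (k : ℕ) (x : ℕ × Bool → ℝ) (n : ℕ) : Sfun k x (n, true) = x (n, true) := rfl

lemma Sfun_false (k : ℕ) (x : ℕ × Bool → ℝ) (n : ℕ) : Sfun k x (n, false) = x (n + k, false) := rfl

lemma Sfun_mem (k : ℕ) (x : (XL 0).Space) : Sfun k x.fn ∈ (XL k).S := by
  refine ⟨⟨lm x, ?_⟩, tendsto_true x⟩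
  exact (tendsto_add_atTop_iff_nat k).2 (tendsto_lm x)

/-- the quotient maps `XL 0 → XL k` -/
noncomputable def qk (k : ℕ) : (XL 0).Space →L[ℝ] (XL k).Space :=
  LinearMap.mkContinuous
    { toFun := fun x => FLat.of (Sfun k x.fn) (Sfun_mem k x)
      map_add' := by
        intro x y
        refine FLat.Space.ext fun i => ?_
        rw [FLat.add_fn, FLat.of_fn, FLat.of_fn, FLat.of_fn]
        obtain ⟨n, b⟩ := i
        cases b with
        | true => rfl
        | false => rfl
      map_smul' := by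
        intro c x
        refine FLat.Space.ext fun i => ?_
        rw [FLat.smul_fn, FLat.of_fn, FLat.of_fn]
        obtain ⟨n, b⟩ := i
        cases b with
        | true => rfl
        | false => rfl } 1 (by
      intro x
      rw [one_mul]
      refine XL_norm_le _ (norm_nonneg x) (fun n => ?_) (fun n => ?_)
      · exact abs_true_le x n
      · exact abs_add_le_norm x (n + k))

lemma qk_true (k : ℕ) (x : (XL 0).Space) (n : ℕ) : (qk k x).fn (n, true) = x.fn (n, true) := rfl

lemma qk_false (k : ℕ) (x : (XL 0).Space) (n : ℕ) :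
    (qk k x).fn (n, false) = x.fn (n + k, false) := rfl

lemma isQuotient_qk (k : ℕ) : IsQuotient (qk k) := by
  refine ⟨?_, fun z => ⟨?_, ?_⟩⟩
  · refine isLatHom_of_abs fun x => FLat.Space.ext fun i => ?_
    rw [FLat.abs_fn]
    obtain ⟨n, b⟩ := i
    cases b with
    | true => rfl
    | false => rfl
  · rintro r ⟨x, rfl, rfl⟩
    refine XL_norm_le _ (norm_nonneg x) (fun n => ?_) (fun n => ?_)
    · exact abs_true_le x n
    · exact abs_add_le_norm x (n + k)
  · intro c hc
    set f : ℕ × Bool → ℝ := fun p => if p.2 then z.fn (p.1, true) else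
      (if p.1 < k then 0 else z.fn (p.1 - k, false)) with hf
    have hf1 : Tendsto (fun n => f (n, false)) atTop (𝓝 (lm z)) := by
      rw [← tendsto_add_atTop_iff_nat k]
      have : (fun n => f (n + k, false)) = fun n => z.fn (n, false) := by
        funext n
        simp [hf]
      rw [this]
      exact tendsto_lm z
    have hf2 : Tendsto (fun n => f (n, true)) atTop (𝓝 0) := tendsto_true z
    have hfm : f ∈ (XL 0).S := ⟨⟨_, hf1⟩, hf2⟩
    refine (hc ⟨FLat.of f hfm, ?_, rfl⟩).trans ?_
    · refine FLat.Space.ext fun i => ?_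
      obtain ⟨n, b⟩ := i
      cases b with
      | true => rfl
      | false =>
        rw [qk_false, FLat.of_fn]
        simp [hf]
    · refine XL_norm_le _ (norm_nonneg z) (fun n => abs_true_le z n) (fun n => ?_)
      show |f (n, false)| + |f (n + 0, true)| ≤ ‖z‖
      have h1 : f (n + 0, true) = z.fn (n, true) := rfl
      rw [h1]
      by_cases hn : n < k
      · have h2 : f (n, false) = 0 := by simp [hf, hn]
        rw [h2, abs_zero, zero_add]
        exact abs_true_le z n
      · have h2 : f (n, false) = z.fn (n - k, false) := by simp [hf, hn]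
        rw [h2]
        have h3 := abs_add_le_norm z (n - k)
        rwa [Nat.sub_add_cancel (not_lt.1 hn)] at h3

/-- the ideals -/
noncomputable def Ik (k : ℕ) : Submodule ℝ (XL 0).Space := LinearMap.ker (qk k).toLinearMap

lemma mem_Ik {k : ℕ} {x : (XL 0).Space} : x ∈ Ik k ↔ qk k x = 0 := Iff.rfl

lemma mem_Ik' {k : ℕ} {x : (XL 0).Space} : x ∈ Ik k ↔
    (∀ n, x.fn (n, true) = 0) ∧ ∀ n, k ≤ n → x.fn (n, false) = 0 := by
  rw [mem_Ik]
  constructor
  · intro h
    refine ⟨fun n => ?_, fun n hn => ?_⟩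
    · rw [← qk_true k, h]; rfl
    · have h1 := qk_false k x (n - k)
      rw [h, Nat.sub_add_cancel hn] at h1
      exact h1.symm
  · rintro ⟨h1, h2⟩
    refine FLat.Space.ext fun i => ?_
    obtain ⟨n, b⟩ := i
    cases b with
    | true => exact h1 n
    | false => exact h2 (n + k) (Nat.le_add_left k n)

lemma monotone_Ik : Monotone Ik := by
  intro k l hkl x hx
  rw [mem_Ik'] at hx ⊢
  exact ⟨hx.1, fun n hn => hx.2 n (hkl.trans hn)⟩

lemma isClosedIdeal_Ik (k : ℕ) : IsClosedIdeal (Ik k) := by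
  constructor
  · have : (Ik k : Set (XL 0).Space) = (qk k) ⁻¹' {0} := rfl
    rw [this]
    exact isClosed_singleton.preimage (qk k).continuous
  · intro a ha b hb
    rw [mem_Ik'] at ha ⊢
    refine ⟨fun n => ?_, fun n hn => ?_⟩
    · have h1 : |b.fn (n, true)| ≤ |a.fn (n, true)| := hb (n, true)
      rw [ha.1 n, abs_zero] at h1
      exact abs_eq_zero.1 (le_antisymm h1 (abs_nonneg _))
    · have h1 : |b.fn (n, false)| ≤ |a.fn (n, false)| := hb (n, false)
      rw [ha.2 n hn, abs_zero] at h1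
      exact abs_eq_zero.1 (le_antisymm h1 (abs_nonneg _))

/-- truncations of the first sequence -/
def tr (x : ℕ × Bool → ℝ) (N : ℕ) : ℕ × Bool → ℝ := fun p =>
  if p.2 then 0 else (if p.1 < N then x (p.1, false) else 0)

lemma tr_mem (x : ℕ × Bool → ℝ) (N : ℕ) (k : ℕ) : tr x N ∈ (XL k).S := by
  refine ⟨⟨0, ?_⟩, tendsto_const_nhds⟩
  refine tendsto_const_nhds.congr' ?_
  filter_upwards [eventually_ge_atTop N] with n hn
  simp [tr, not_lt.2 hn]

lemma mem_closure_Ik (x : (XL 0).Space) :
    x ∈ closure (⋃ n, (Ik n : Set (XL 0).Space)) ↔ Qk 0 x = 0 := by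
  constructor
  · intro hx
    have h1 : IsClosed {x : (XL 0).Space | Qk 0 x = 0} :=
      isClosed_eq (Qk 0).continuous continuous_const
    refine closure_minimal ?_ h1 hx
    rw [iUnion_subset_iff]
    intro k y hy
    have hy' : y ∈ Ik k := hy
    rw [mem_Ik'] at hy'
    show Qk 0 y = 0
    refine FLat.Space.ext fun i => ?_
    cases i with
    | none =>
      rw [Qk_none]
      refine lm_eq ?_
      refine tendsto_const_nhds.congr' ?_
      filter_upwards [eventually_ge_atTop k] with n hn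
      rw [hy'.2 n hn]; rfl
    | some n => exact hy'.1 n
  · intro hx
    rw [Metric.mem_closure_iff]
    intro ε hε
    have h0 : lm x = 0 := by rw [← Qk_none, hx]; rfl
    have h1 : ∀ n, x.fn (n, true) = 0 := fun n => by rw [← Qk_some, hx]; rfl
    have h2 := tendsto_lm x
    rw [h0, Metric.tendsto_atTop] at h2
    obtain ⟨N, hN⟩ := h2 (ε / 2) (half_pos hε)
    refine ⟨FLat.of (tr x.fn N) (tr_mem _ _ _), ?_, ?_⟩
    · rw [mem_iUnion]
      refine ⟨N, ?_⟩
      show _ ∈ Ik N
      rw [mem_Ik']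
      refine ⟨fun n => rfl, fun n hn => ?_⟩
      rw [FLat.of_fn]
      simp [tr, not_lt.2 hn]
    · rw [dist_eq_norm]
      refine lt_of_le_of_lt ?_ (half_lt_self hε)
      refine XL_norm_le _ (half_pos hε).le (fun n => ?_) (fun n => ?_)
      · rw [FLat.sub_fn, h1 n, FLat.of_fn]
        simp [tr, (half_pos hε).le]
      · rw [FLat.sub_fn, FLat.sub_fn, h1 _, FLat.of_fn, FLat.of_fn]
        by_cases hn : n < N
        · simp [tr, hn, (half_pos hε).le]
        · have h3 := hN n (not_lt.1 hn)
          rw [Real.dist_eq, sub_zero] at h3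
          simp [tr, hn]
          exact h3.le

lemma separable_XL : TopologicalSpace.SeparableSpace (XL 0).Space := by
  classical
  rw [← TopologicalSpace.isSeparable_univ_iff]
  -- the generators
  have hu : ∀ i : ℕ × Bool, (Pi.single i 1 : ℕ × Bool → ℝ) ∈ (XL 0).S := by
    intro i
    have h1 : ∀ b : Bool, Tendsto (fun n => (Pi.single i 1 : ℕ × Bool → ℝ) (n, b)) atTop (𝓝 0) := by
      intro b
      refine tendsto_const_nhds.congr' ?_
      filter_upwards [eventually_gt_atTop i.1] with n hn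
      rw [Pi.single_apply, if_neg]
      rintro rfl
      exact lt_irrefl _ hn
    exact ⟨⟨0, h1 false⟩, h1 true⟩
  have hone : (fun p : ℕ × Bool => if p.2 then (0 : ℝ) else 1) ∈ (XL 0).S :=
    ⟨⟨1, tendsto_const_nhds⟩, tendsto_const_nhds⟩
  set G : Set (XL 0).Space :=
    insert (FLat.of _ hone) (Set.range fun i => FLat.of (Pi.single i 1) (hu i)) with hG
  have hGc : G.Countable := (countable_range _).insert _
  have hsep : TopologicalSpace.IsSeparable ((Submodule.span ℝ G : Submodule ℝ (XL 0).Space) :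
      Set (XL 0).Space) := hGc.isSeparable.span
  refine hsep.closure.mono fun x _ => ?_
  rw [Metric.mem_closure_iff]
  intro ε hε
  have h1 := tendsto_lm x
  have h2 := tendsto_true x
  rw [Metric.tendsto_atTop] at h1 h2
  obtain ⟨N, hN⟩ := h1 (ε / 4) (by positivity)
  obtain ⟨M, hM⟩ := h2 (ε / 4) (by positivity)
  set K := max N M with hK
  set y : (XL 0).Space := (lm x) • FLat.of _ hone +
    ∑ n ∈ Finset.range K, ((x.fn (n, false) - lm x) • FLat.of (Pi.single (n, false) 1) (hu _) +
      x.fn (n, true) • FLat.of (Pi.single (n, true) 1) (hu _)) with hy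
  have hymem : y ∈ Submodule.span ℝ G := by
    refine Submodule.add_mem _ (Submodule.smul_mem _ _ (Submodule.subset_span (Or.inl rfl))) ?_
    refine Submodule.sum_mem _ fun n _ => Submodule.add_mem _ ?_ ?_
    · exact Submodule.smul_mem _ _ (Submodule.subset_span (Or.inr ⟨_, rfl⟩))
    · exact Submodule.smul_mem _ _ (Submodule.subset_span (Or.inr ⟨_, rfl⟩))
  have hcoord : ∀ i, y.fn i = lm x * (if i.2 then (0 : ℝ) else 1) +
      ∑ n ∈ Finset.range K, ((x.fn (n, false) - lm x) * (Pi.single (n, false) 1 : ℕ × Bool → ℝ) i +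
      x.fn (n, true) * (Pi.single (n, true) 1 : ℕ × Bool → ℝ) i) := by
    intro i
    rw [← FLat.eval_apply, hy]
    simp only [map_add, map_smul, map_sum, smul_eq_mul]
    rfl
  have hyf : ∀ n, y.fn (n, false) = if n < K then x.fn (n, false) else lm x := by
    intro n
    rw [hcoord]
    by_cases hn : n < K
    · rw [if_pos hn, Finset.sum_eq_single n]
      · simp [Pi.single_apply]
      · intro m _ hm
        simp [Pi.single_apply, Ne.symm hm]
      · intro h; exact absurd (Finset.mem_range.2 hn) h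
    · rw [if_neg hn, Finset.sum_eq_zero]
      · simp
      · intro m hm
        have : n ≠ m := by
          rintro rfl; exact hn (Finset.mem_range.1 hm)
        simp [Pi.single_apply, this]
  have hyt : ∀ n, y.fn (n, true) = if n < K then x.fn (n, true) else 0 := by
    intro n
    rw [hcoord]
    by_cases hn : n < K
    · rw [if_pos hn, Finset.sum_eq_single n]
      · simp [Pi.single_apply]
      · intro m _ hm
        simp [Pi.single_apply, Ne.symm hm]
      · intro h; exact absurd (Finset.mem_range.2 hn) h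
    · rw [if_neg hn, Finset.sum_eq_zero]
      · simp
      · intro m hm
        have : n ≠ m := by
          rintro rfl; exact hn (Finset.mem_range.1 hm)
        simp [Pi.single_apply, this]
  refine ⟨y, hymem, ?_⟩
  rw [dist_eq_norm]
  refine lt_of_le_of_lt ?_ (half_lt_self hε)
  have hf : ∀ n, |(x - y).fn (n, false)| ≤ ε / 4 := by
    intro n
    rw [FLat.sub_fn, hyf]
    split_ifs with h
    · rw [sub_self, abs_zero]; positivity
    · have h3 := hN n (by omega)
      rw [Real.dist_eq] at h3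
      exact h3.le
  have ht : ∀ n, |(x - y).fn (n, true)| ≤ ε / 4 := by
    intro n
    rw [FLat.sub_fn, hyt]
    split_ifs with h
    · rw [sub_self, abs_zero]; positivity
    · have h3 := hM n (by omega)
      rw [Real.dist_eq] at h3
      exact h3.le
  refine XL_norm_le _ (half_pos hε).le (fun n => ?_) (fun n => ?_)
  · linarith [ht n]
  · linarith [hf n, ht (n + 0)]

lemma Qk_qk (k : ℕ) (x : (XL 0).Space) : Qk k (qk k x) = Qk 0 x := by
  refine FLat.Space.ext fun i => ?_
  cases i with
  | none =>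
    rw [Qk_none, Qk_none]
    refine lm_eq ?_
    exact (tendsto_add_atTop_iff_nat k).2 (tendsto_lm x)
  | some n => rfl

/-- `ℝ ⊕_∞ ℓ_1` is not semiprojective -/
lemma not_isSemiprojective : ¬ IsSemiprojective.{0, 0} (ℝ × ell1.Space) := by
  intro h
  have := separable_XL
  obtain ⟨n, hn⟩ := h (XL 0).Space Ik (fun k => (XL k).Space) YL.Space qk (Qk 0) Qk monotone_Ik
    isClosedIdeal_Ik (fun k => ⟨isQuotient_qk k, fun x => mem_Ik⟩)
    ⟨isQuotient_Qk, mem_closure_Ik⟩ Qk_qk TT isLatHom_TT norm_TT_le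
  obtain ⟨ψ, hψ, hψn, hψQ⟩ := hn (1 / 2) (by norm_num)
  exact no_lift ψ hψ hψQ (hψn.trans (by norm_num))

end Pool.Agent.R280.BLat
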