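import Pool.Agent.R280.Pettis

/-!
The map `x ↦ x log |x|` on `ℓ_1`.
-/

set_option autoImplicit false

open Set Topology Filter
open scoped ENNReal

namespace Pool.Agent.R280.XLogX

/-- `h(t) = t log |t|` -/
noncomputable def h (t : ℝ) : ℝ := t * Real.log t

lemma h_zero : h 0 = 0 := by simp [h]

lemma abs_h_le_one {u : ℝ} (hu : |u| ≤ 1) : |h u| ≤ 1 := by
  rcases eq_or_ne u 0 with rfl | hu0
  · simp [h]
  · have h1 : 0 < |u| := abs_pos.2 hu0
    have h2 : Real.log (1 / |u|) ≤ 1 / |u| - 1 := Real.log_le_sub_one_of_pos (by positivity)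
    rw [one_div, Real.log_inv] at h2
    have h3 : Real.log |u| ≤ 0 := Real.log_nonpos h1.le hu
    unfold h
    rw [abs_mul, ← Real.log_abs, abs_of_nonpos h3]
    calc |u| * -Real.log |u| ≤ |u| * (|u|⁻¹ - 1) := mul_le_mul_of_nonneg_left h2 h1.le
      _ = 1 - |u| := by field_simp
      _ ≤ 1 := by linarith

lemma h_scale {s : ℝ} (hs : 0 < s) (a : ℝ) : h a = a * Real.log s + s * h (a / s) := by
  rcases eq_or_ne a 0 with rfl | ha
  · simp [h]
  · unfold h
    rw [Real.log_div ha hs.ne']
    field_simp
    ring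

lemma h_add (a b : ℝ) : |h (a + b) - h a - h b| ≤ 3 * (|a| + |b|) := by
  set s := |a| + |b| with hs
  have hs0 : 0 ≤ s := by positivity
  rcases hs0.eq_or_lt with h0 | h0
  · have ha : a = 0 := by
      rw [← abs_eq_zero]; linarith [abs_nonneg a, abs_nonneg b]
    have hb : b = 0 := by
      rw [← abs_eq_zero]; linarith [abs_nonneg a, abs_nonneg b]
    rw [ha, hb]
    simp [h_zero, hs, ha, hb]
  · have h1 : h (a + b) - h a - h b = s * (h ((a + b) / s) - h (a / s) - h (b / s)) := by
      rw [h_scale h0 (a + b), h_scale h0 a, h_scale h0 b]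
      ring
    have hd : ∀ c : ℝ, |c| ≤ s → |c / s| ≤ 1 := by
      intro c hc
      rw [abs_div, abs_of_pos h0, div_le_one h0]
      exact hc
    have e1 := abs_h_le_one (hd (a + b) (abs_add_le a b))
    have e2 := abs_h_le_one (hd a (by rw [hs]; linarith [abs_nonneg b]))
    have e3 := abs_h_le_one (hd b (by rw [hs]; linarith [abs_nonneg a]))
    rw [h1, abs_mul, abs_of_pos h0]
    have e4 : |h ((a + b) / s) - h (a / s) - h (b / s)| ≤ 3 := by
      rw [abs_le] at *
      constructor <;> linarith [e1.1, e1.2, e2.1, e2.2, e3.1, e3.2]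
    calc s * |h ((a + b) / s) - h (a / s) - h (b / s)| ≤ s * 3 :=
          mul_le_mul_of_nonneg_left e4 h0.le
      _ = 3 * s := by ring

lemma h_smul (c a : ℝ) : h (c * a) = c * h a + h c * a := by
  rcases eq_or_ne c 0 with rfl | hc
  · simp [h]
  rcases eq_or_ne a 0 with rfl | ha
  · simp [h]
  unfold h
  rw [Real.log_mul hc ha]
  ring

lemma continuous_h : Continuous h := Real.continuous_mul_log

/-- bound on bounded sets -/
lemma abs_h_le (R : ℝ) (hR : 1 ≤ R) (t : ℝ) (ht : |t| ≤ R) : |h t| ≤ R * (Real.log R + 1) := by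
  have hR0 : 0 < R := by linarith
  rw [h_scale hR0 t]
  have h1 : |h (t / R)| ≤ 1 := by
    apply abs_h_le_one
    rw [abs_div, abs_of_pos hR0, div_le_one hR0]
    exact ht
  have h2 : 0 ≤ Real.log R := Real.log_nonneg hR
  calc |t * Real.log R + R * h (t / R)| ≤ |t * Real.log R| + |R * h (t / R)| := abs_add_le _ _
    _ = |t| * Real.log R + R * |h (t / R)| := by
        rw [abs_mul, abs_mul, abs_of_nonneg h2, abs_of_pos hR0]
    _ ≤ R * Real.log R + R * 1 := add_le_add (mul_le_mul_of_nonneg_right ht h2)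
        (mul_le_mul_of_nonneg_left h1 hR0.le)
    _ = R * (Real.log R + 1) := by ring

/-! ### the space `ℓ_1` -/

/-- `ℓ_1` -/
abbrev L1 : Type := lp (fun _ : ℕ => ℝ) 1

lemma memlp_one {f : ℕ → ℝ} : Memℓp f 1 ↔ Summable fun i => |f i| := by
  rw [memℓp_gen_iff (by simp)]
  simp

/-- constructor -/
noncomputable def mk (f : ℕ → ℝ) (hf : Summable fun i => |f i|) : L1 := ⟨f, memlp_one.2 hf⟩

lemma mk_apply (f : ℕ → ℝ) (hf : Summable fun i => |f i|) (i : ℕ) : mk f hf i = f i := rfl

lemma summable (x : L1) : Summable fun i => |x i| := memlp_one.1 x.2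

lemma norm_eq (x : L1) : ‖x‖ = ∑' i, |x i| := by
  rw [lp.norm_eq_tsum_rpow (by simp)]
  simp

lemma abs_le_norm (x : L1) (i : ℕ) : |x i| ≤ ‖x‖ := lp.norm_apply_le_norm (by simp) x i

/-- the coordinate functionals -/
noncomputable def coord (i : ℕ) : L1 →L[ℝ] ℝ :=
  LinearMap.mkContinuous
    { toFun := fun y => y i
      map_add' := fun _ _ => rfl
      map_smul' := fun _ _ => rfl } 1 (fun y => by
        rw [one_mul]
        exact abs_le_norm y i)

lemma coord_apply (i : ℕ) (x : L1) : coord i x = x i := rfl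

instance : TopologicalSpace.SeparableSpace L1 := by
  rw [← TopologicalSpace.isSeparable_univ_iff]
  have h1 : (Set.range (fun i : ℕ => lp.single (E := fun _ : ℕ => ℝ) 1 i (1 : ℝ))).Countable :=
    countable_range _
  have h2 : TopologicalSpace.IsSeparable ((Submodule.span ℝ
      (Set.range (fun i : ℕ => lp.single (E := fun _ : ℕ => ℝ) 1 i (1 : ℝ))) : Submodule ℝ L1) :
      Set L1) := h1.isSeparable.span
  refine h2.closure.mono fun v _ => ?_
  refine mem_closure_of_tendsto (lp.hasSum_single (by norm_num) v).tendsto_sum_nat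
    (Eventually.of_forall fun N => ?_)
  refine Submodule.sum_mem _ fun i _ => ?_
  have : lp.single (E := fun _ : ℕ => ℝ) 1 i (v i) =
      (v i) • lp.single (E := fun _ : ℕ => ℝ) 1 i (1 : ℝ) := by
    rw [← lp.single_smul, smul_eq_mul, mul_one]
  rw [this]
  exact Submodule.smul_mem _ _ (Submodule.subset_span ⟨i, rfl⟩)

/-- the weights -/
lemma summable_weights (C : ℝ) : Summable fun i : ℕ => (1 / 2 : ℝ) ^ i * C :=
  (summable_geometric_of_lt_one (by norm_num) (by norm_num)).mul_right C

lemma phi_summable (x : L1) : Summable fun i => |(1 / 2 : ℝ) ^ i * h (x i)| := by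
  set R := max 1 ‖x‖ with hR
  refine Summable.of_nonneg_of_le (fun i => abs_nonneg _) (fun i => ?_)
    (summable_weights (R * (Real.log R + 1)))
  rw [abs_mul, abs_of_nonneg (by positivity)]
  refine mul_le_mul_of_nonneg_left ?_ (by positivity)
  exact abs_h_le R (le_max_left _ _) _ ((abs_le_norm x i).trans (le_max_right _ _))

/-- the map `φ(x)_i = 2^{-i} x_i log |x_i|` -/
noncomputable def phi (x : L1) : L1 := mk (fun i => (1 / 2 : ℝ) ^ i * h (x i)) (phi_summable x)

lemma phi_apply (x : L1) (i : ℕ) : phi x i = (1 / 2 : ℝ) ^ i * h (x i) := rfl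

lemma measurable_phi : @Measurable L1 L1 (borel L1) (borel L1) phi := by
  borelize L1
  refine measurable_of_tendsto_metrizable (f := fun (N : ℕ) (x : L1) =>
    ∑ i ∈ Finset.range N, lp.single (E := fun _ : ℕ => ℝ) 1 i ((1 / 2 : ℝ) ^ i * h (x i)))
    (fun N => ?_) ?_
  · refine Continuous.measurable ?_
    refine continuous_finsetSum _ fun i _ => ?_
    have h1 : Continuous fun x : L1 => (1 / 2 : ℝ) ^ i * h (x i) :=
      continuous_const.mul (continuous_h.comp (coord i).continuous)
    have h2 : Continuous fun c : ℝ => lp.single (E := fun _ : ℕ => ℝ) 1 i c := by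
      have h3 : (fun c : ℝ => lp.single (E := fun _ : ℕ => ℝ) 1 i c) =
          fun c : ℝ => c • lp.single (E := fun _ : ℕ => ℝ) 1 i (1 : ℝ) := by
        funext c
        rw [← lp.single_smul, smul_eq_mul, mul_one]
      rw [h3]
      exact continuous_id.smul continuous_const
    exact h2.comp h1
  · rw [tendsto_pi_nhds]
    intro x
    exact (lp.hasSum_single (by norm_num) (phi x)).tendsto_sum_nat

/-- the scaled inclusion `M = ℓ_1 → Y = ℓ_1` -/
noncomputable def jmap : L1 →L[ℝ] L1 :=
  LinearMap.mkContinuous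
    { toFun := fun m => mk (fun i => (1 / 2 : ℝ) ^ i * m i) (by
        refine Summable.of_nonneg_of_le (fun i => abs_nonneg _) (fun i => ?_) (summable m)
        rw [abs_mul, abs_of_nonneg (by positivity)]
        exact mul_le_of_le_one_left (abs_nonneg _) (pow_le_one₀ (by norm_num) (by norm_num)))
      map_add' := by
        intro x y
        refine lp.ext (funext fun i => ?_)
        show (1 / 2 : ℝ) ^ i * (x i + y i) = (1 / 2 : ℝ) ^ i * x i + (1 / 2 : ℝ) ^ i * y i
        ring
      map_smul' := by
        intro c x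
        refine lp.ext (funext fun i => ?_)
        show (1 / 2 : ℝ) ^ i * (c * x i) = c * ((1 / 2 : ℝ) ^ i * x i)
        ring } 1 (by
      intro m
      rw [one_mul, norm_eq, norm_eq]
      refine Summable.tsum_le_tsum (fun i => ?_) ?_ (summable m)
      · show |(1 / 2 : ℝ) ^ i * m i| ≤ |m i|
        rw [abs_mul, abs_of_nonneg (by positivity)]
        exact mul_le_of_le_one_left (abs_nonneg _) (pow_le_one₀ (by norm_num) (by norm_num))
      · exact summable _)

lemma jmap_apply (m : L1) (i : ℕ) : jmap m i = (1 / 2 : ℝ) ^ i * m i := rfl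

lemma norm_jmap_le (m : L1) : ‖jmap m‖ ≤ ‖m‖ := by
  have h1 := jmap.le_opNorm m
  have h2 : ‖jmap‖ ≤ 1 := LinearMap.mkContinuous_norm_le _ zero_le_one _
  exact h1.trans (mul_le_of_le_one_left (norm_nonneg _) h2)

lemma jmap_injective : Function.Injective jmap := by
  intro x y hxy
  refine lp.ext (funext fun i => ?_)
  have h1 : jmap x i = jmap y i := by rw [hxy]
  rw [jmap_apply, jmap_apply] at h1
  exact mul_left_cancel₀ (by positivity) h1

/-- `φ x - φ' ∈ M` criterion -/
lemma exists_jmap {y : L1} {f : ℕ → ℝ} (hf : Summable fun i => |f i|)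
    (h1 : ∀ i, y i = (1 / 2 : ℝ) ^ i * f i) : ∃ m, y = jmap m := by
  refine ⟨mk f hf, lp.ext (funext fun i => ?_)⟩
  rw [jmap_apply, mk_apply]
  exact h1 i

/-- quasi-linearity modulo `M` -/
lemma phi_quasi (c d : ℝ) (x y : L1) :
    ∃ m, phi (c • x + d • y) - (c • phi x + d • phi y) = jmap m := by
  set f : ℕ → ℝ := fun i => h (c * x i + d * y i) - (c * h (x i) + d * h (y i)) with hf
  have hbound : ∀ i, |f i| ≤ 3 * (|c * x i| + |d * y i|) + |h c| * |x i| + |h d| * |y i| := by
    intro i
    have h1 := h_add (c * x i) (d * y i)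
    have h2 := h_smul c (x i)
    have h3 := h_smul d (y i)
    have h4 : f i = (h (c * x i + d * y i) - h (c * x i) - h (d * y i)) + h c * x i +
        h d * y i := by
      rw [hf]
      simp only
      rw [h2, h3]
      ring
    rw [h4, ← abs_mul, ← abs_mul]
    calc _ ≤ |(h (c * x i + d * y i) - h (c * x i) - h (d * y i)) + h c * x i| + |h d * y i| :=
          abs_add_le _ _
      _ ≤ |h (c * x i + d * y i) - h (c * x i) - h (d * y i)| + |h c * x i| + |h d * y i| := by
          gcongr
          exact abs_add_le _ _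
      _ ≤ _ := by gcongr
  have hs : Summable fun i => |f i| := by
    refine Summable.of_nonneg_of_le (fun i => abs_nonneg _) hbound ?_
    have e1 : Summable fun i => |c * x i| := by
      simp only [abs_mul]
      exact (summable x).mul_left _
    have e2 : Summable fun i => |d * y i| := by
      simp only [abs_mul]
      exact (summable y).mul_left _
    exact (((e1.add e2).mul_left 3).add ((summable x).mul_left _)).add ((summable y).mul_left _)
  refine exists_jmap hs fun i => ?_
  show (1 / 2 : ℝ) ^ i * h (c * x i + d * y i) - (c * ((1 / 2 : ℝ) ^ i * h (x i)) +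
    d * ((1 / 2 : ℝ) ^ i * h (y i))) = (1 / 2 : ℝ) ^ i * f i
  rw [hf]
  simp only
  ring

/-! ### a summable sequence for which `h` is not summable -/

/-- the sequence `1 / (k (1 + log k)^2)` -/
noncomputable def bad (k : ℕ) : ℝ := 1 / ((k : ℝ) * (1 + Real.log k) ^ 2)

lemma bad_nonneg (k : ℕ) : 0 ≤ bad k := by unfold bad; positivity

lemma summable_bad : Summable bad := by
  rw [← summable_condensed_iff_of_nonneg bad_nonneg]
  · have h1 : ∀ k : ℕ, 2 ^ k * bad (2 ^ k) ≤ 4 * (1 / ((k : ℝ) + 1) ^ 2) := by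
      intro k
      unfold bad
      push_cast
      rw [Real.log_pow]
      have h2 : (1 / 2 : ℝ) < Real.log 2 := by
        have := Real.log_two_gt_d9
        linarith
      have h3 : ((k : ℝ) + 1) / 2 ≤ 1 + k * Real.log 2 := by
        have : (0 : ℝ) ≤ k := Nat.cast_nonneg k
        nlinarith
      have h4 : (0 : ℝ) < (k : ℝ) + 1 := by positivity
      have h5 : (((k : ℝ) + 1) / 2) ^ 2 ≤ (1 + k * Real.log 2) ^ 2 :=
        pow_le_pow_left₀ (by positivity) h3 2
      have h6 : (0 : ℝ) < (((k : ℝ) + 1) / 2) ^ 2 := by positivity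
      have h7 : (2 : ℝ) ^ k * (1 / (2 ^ k * (1 + k * Real.log 2) ^ 2)) =
          1 / (1 + k * Real.log 2) ^ 2 := by
        field_simp
      rw [h7]
      calc 1 / (1 + k * Real.log 2) ^ 2 ≤ 1 / (((k : ℝ) + 1) / 2) ^ 2 :=
            one_div_le_one_div_of_le h6 h5
        _ = 4 * (1 / ((k : ℝ) + 1) ^ 2) := by field_simp; norm_num
    refine Summable.of_nonneg_of_le (fun k => mul_nonneg (by positivity) (bad_nonneg _)) h1 ?_
    refine Summable.mul_left _ ?_
    have := (summable_nat_add_iff 1).2 (Real.summable_one_div_nat_pow.2 (by norm_num : 1 < 2))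
    push_cast at this
    exact this
  · intro m n hm hmn
    unfold bad
    have h1 : (0 : ℝ) < m := by exact_mod_cast hm
    have h2 : (m : ℝ) ≤ n := by exact_mod_cast hmn
    have h3 : 0 ≤ Real.log m := Real.log_nonneg (by exact_mod_cast hm)
    have h4 : Real.log m ≤ Real.log n := Real.log_le_log h1 h2
    refine one_div_le_one_div_of_le (by positivity) ?_
    gcongr

lemma not_summable_h_bad : ¬ Summable fun k => |h (bad k)| := by
  intro hs
  -- lower bound
  have h1 : ∀ k : ℕ, 1 ≤ k →
      Real.log k / ((k : ℝ) * (1 + Real.log k) ^ 2) ≤ |h (bad k)| := by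
    intro k hk
    have hk0 : (0 : ℝ) < k := by exact_mod_cast hk
    have hl : 0 ≤ Real.log k := Real.log_nonneg (by exact_mod_cast hk)
    unfold h
    rw [abs_mul, abs_of_nonneg (bad_nonneg k)]
    have h2 : Real.log (bad k) = -(Real.log k + 2 * Real.log (1 + Real.log k)) := by
      unfold bad
      rw [one_div, Real.log_inv, Real.log_mul (by positivity) (by positivity), Real.log_pow]
      push_cast
      ring
    have h3 : 0 ≤ Real.log (1 + Real.log k) := Real.log_nonneg (by linarith)
    rw [h2, abs_neg, abs_of_nonneg (by positivity)]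
    unfold bad
    rw [div_eq_mul_one_div, mul_comm]
    exact mul_le_mul_of_nonneg_left (by linarith) (by positivity)
  -- compare with `1 / (k (1 + log k))`
  set g : ℕ → ℝ := fun k => 1 / ((k : ℝ) * (1 + Real.log k)) with hg
  have hg0 : ∀ k, 0 ≤ g k := by
    intro k
    rcases Nat.eq_zero_or_pos k with rfl | hk
    · simp [hg]
    · have hl : 0 ≤ Real.log k := Real.log_nonneg (by exact_mod_cast hk)
      rw [hg]; positivity
  have h2 : ∀ k : ℕ, 3 ≤ k → g k ≤ 2 * |h (bad k)| := by
    intro k hk
    have hk0 : (0 : ℝ) < k := by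
      have : 0 < k := by omega
      exact_mod_cast this
    have hl : 1 ≤ Real.log k := by
      have h3 : (3 : ℝ) ≤ k := by exact_mod_cast hk
      have h4 : Real.exp 1 ≤ k := by
        have := Real.exp_one_lt_d9
        linarith
      rw [← Real.log_exp 1]
      exact Real.log_le_log (Real.exp_pos 1) h4
    refine le_trans ?_ (mul_le_mul_of_nonneg_left (h1 k (by omega)) zero_le_two)
    rw [hg]
    simp only
    rw [← mul_div_assoc, div_le_div_iff₀ (by positivity) (by positivity)]
    have : (1 + Real.log k) ≤ 2 * Real.log k := by linarith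
    calc 1 * ((k : ℝ) * (1 + Real.log k) ^ 2) = (1 + Real.log k) * (k * (1 + Real.log k)) := by ring
      _ ≤ (2 * Real.log k) * (k * (1 + Real.log k)) := mul_le_mul_of_nonneg_right this (by positivity)
  have hgs : Summable g := by
    rw [← summable_nat_add_iff 3]
    refine Summable.of_nonneg_of_le (fun k => hg0 _) (fun k => h2 (k + 3) (by omega)) ?_
    exact ((summable_nat_add_iff 3).2 hs).mul_left 2
  rw [← summable_condensed_iff_of_nonneg hg0] at hgs
  · have h3 : ∀ k : ℕ, 1 / ((k : ℝ) + 1) ≤ 2 ^ k * g (2 ^ k) := by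
      intro k
      rw [hg]
      simp only
      push_cast
      rw [Real.log_pow]
      have hlog : Real.log 2 ≤ 1 := by
        have := Real.log_two_lt_d9
        linarith
      have hlog0 : 0 ≤ Real.log 2 := Real.log_nonneg (by norm_num)
      have h7 : (2 : ℝ) ^ k * (1 / (2 ^ k * (1 + k * Real.log 2))) =
          1 / (1 + k * Real.log 2) := by
        field_simp
      rw [h7]
      refine one_div_le_one_div_of_le (by positivity) ?_
      have : (k : ℝ) * Real.log 2 ≤ k * 1 := mul_le_mul_of_nonneg_left hlog (Nat.cast_nonneg k)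
      linarith
    have h4 : Summable fun k : ℕ => 1 / ((k : ℝ) + 1) :=
      Summable.of_nonneg_of_le (fun k => by positivity) h3 hgs
    have h5 := (summable_nat_add_iff (f := fun k : ℕ => 1 / (k : ℝ)) 1).1 (by
      push_cast; exact h4)
    exact Real.not_summable_one_div_natCast h5
  · intro m n hm hmn
    rw [hg]
    simp only
    have h1 : (0 : ℝ) < m := by exact_mod_cast hm
    have h2 : (m : ℝ) ≤ n := by exact_mod_cast hmn
    have h3 : 0 ≤ Real.log m := Real.log_nonneg (by exact_mod_cast hm)
    have h4 : Real.log m ≤ Real.log n := Real.log_le_log h1 h2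
    refine one_div_le_one_div_of_le (by positivity) ?_
    gcongr

end Pool.Agent.R280.XLogX
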