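import Pool.Agent.R280.XLogX

/-!
The embeddings `t ↦ ∑ t_k 2^{-k} e_{i_k}` of `ℓ_1`, and non-normability of the domain of
`x ↦ x log |x|`.
-/

set_option autoImplicit false

open Set Topology Filter
open scoped ENNReal

namespace Pool.Agent.R280.XLogX

section emb

variable (e : ℕ → ℕ)

/-- the function `i_k ↦ 2^{-k} t_k` -/
noncomputable def gg (t : L1) : ℕ → ℝ := Function.extend e (fun k => (1 / 2 : ℝ) ^ k * t k) 0

variable {e}

lemma gg_e (he : Function.Injective e) (t : L1) (k : ℕ) : gg e t (e k) = (1 / 2 : ℝ) ^ k * t k :=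
  he.extend_apply _ _ _

lemma gg_ne (t : L1) {i : ℕ} (hi : i ∉ Set.range e) : gg e t i = 0 := by
  unfold gg
  rw [Function.extend_apply']
  · rfl
  · rintro ⟨k, hk⟩; exact hi ⟨k, hk⟩

lemma gg_summable (he : Function.Injective e) (t : L1) : Summable fun i => |gg e t i| := by
  rw [← he.summable_iff]
  · have : ((fun i => |gg e t i|) ∘ e) = fun k => |(1 / 2 : ℝ) ^ k * t k| := by
      funext k; simp only [Function.comp_apply, gg_e he]
    rw [this]
    refine Summable.of_nonneg_of_le (fun i => abs_nonneg _) (fun i => ?_) (summable t)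
    rw [abs_mul, abs_of_nonneg (by positivity)]
    exact mul_le_of_le_one_left (abs_nonneg _) (pow_le_one₀ (by norm_num) (by norm_num))
  · intro i hi
    rw [gg_ne t hi, abs_zero]

lemma range_cases {P : ℕ → Prop} (h1 : ∀ k, P (e k)) (h2 : ∀ i, i ∉ Set.range e → P i) :
    ∀ i, P i := by
  intro i
  by_cases hi : i ∈ Set.range e
  · obtain ⟨k, rfl⟩ := hi; exact h1 k
  · exact h2 i hi

/-- the embedding -/
noncomputable def emb (he : Function.Injective e) : L1 →L[ℝ] L1 :=
  LinearMap.mkContinuous
    { toFun := fun t => mk (gg e t) (gg_summable he t)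
      map_add' := by
        intro s t
        refine lp.ext (funext ?_)
        refine range_cases (e := e) (fun k => ?_) (fun i hi => ?_)
        · show gg e (s + t) (e k) = gg e s (e k) + gg e t (e k)
          rw [gg_e he, gg_e he, gg_e he, lp.coeFn_add, Pi.add_apply, mul_add]
        · show gg e (s + t) i = gg e s i + gg e t i
          rw [gg_ne _ hi, gg_ne _ hi, gg_ne _ hi, add_zero]
      map_smul' := by
        intro c t
        refine lp.ext (funext ?_)
        refine range_cases (e := e) (fun k => ?_) (fun i hi => ?_)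
        · show gg e (c • t) (e k) = c * gg e t (e k)
          rw [gg_e he, gg_e he, lp.coeFn_smul, Pi.smul_apply, smul_eq_mul]
          ring
        · show gg e (c • t) i = c * gg e t i
          rw [gg_ne _ hi, gg_ne _ hi, mul_zero] } 1 (by
      intro t
      rw [one_mul, norm_eq, norm_eq]
      have h0 : ∀ i, i ∉ Set.range e → |gg e t i| = 0 := fun i hi => by
        rw [gg_ne t hi, abs_zero]
      have h1 : ∑' i, |gg e t i| = ∑' k, |gg e t (e k)| :=
        (he.tsum_eq (f := fun i => |gg e t i|) (fun i hi => by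
          by_contra hcon
          exact hi (h0 i hcon))).symm
      show ∑' i, |gg e t i| ≤ _
      rw [h1]
      refine Summable.tsum_le_tsum (fun k => ?_) ?_ (summable t)
      · rw [gg_e he, abs_mul, abs_of_nonneg (by positivity)]
        exact mul_le_of_le_one_left (abs_nonneg _) (pow_le_one₀ (by norm_num) (by norm_num))
      · exact (gg_summable he t).comp_injective he)

lemma emb_apply (he : Function.Injective e) (t : L1) (i : ℕ) : emb he t i = gg e t i := rfl

lemma emb_h (he : Function.Injective e) (t : L1) : Summable fun i => |h (emb he t i)| := by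
  rw [← he.summable_iff]
  · have : ((fun i => |h (emb he t i)|) ∘ e) = fun k => |h ((1 / 2 : ℝ) ^ k * t k)| := by
      funext k
      simp only [Function.comp_apply]
      rw [emb_apply, gg_e he]
    rw [this]
    have hb : ∀ k, |h ((1 / 2 : ℝ) ^ k * t k)| ≤ |(1 / 2 : ℝ) ^ k * h (t k)| + |t k| := by
      intro k
      rw [h_smul]
      refine (abs_add_le _ _).trans (add_le_add le_rfl ?_)
      rw [abs_mul]
      refine mul_le_of_le_one_left (abs_nonneg _) (abs_h_le_one ?_)
      rw [abs_of_nonneg (by positivity)]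
      exact pow_le_one₀ (by norm_num) (by norm_num)
    exact Summable.of_nonneg_of_le (fun i => abs_nonneg _) hb ((phi_summable t).add (summable t))
  · intro i hi
    rw [emb_apply, gg_ne t hi, h_zero, abs_zero]

end emb

lemma single_apply' (i k : ℕ) : (lp.single (E := fun _ : ℕ => ℝ) 1 i (1 : ℝ)) k =
    if k = i then 1 else 0 := by
  by_cases hk : k = i
  · subst hk; rw [lp.single_apply_self, if_pos rfl]
  · rw [lp.single_apply_ne _ _ _ hk, if_neg hk]

lemma emb_single {e : ℕ → ℕ} (he : Function.Injective e) (k : ℕ) :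
    emb he (lp.single (E := fun _ : ℕ => ℝ) 1 k (1 : ℝ)) =
      (1 / 2 : ℝ) ^ k • lp.single (E := fun _ : ℕ => ℝ) 1 (e k) (1 : ℝ) := by
  refine lp.ext (funext ?_)
  refine range_cases (e := e) (fun l => ?_) (fun i hi => ?_)
  · show gg e _ (e l) = (1 / 2 : ℝ) ^ k * _
    rw [gg_e he, single_apply', single_apply']
    by_cases hl : l = k
    · subst hl; rw [if_pos rfl, if_pos rfl]
    · rw [if_neg hl, if_neg (fun h => hl (he h)), mul_zero, mul_zero]
  · show gg e _ i = (1 / 2 : ℝ) ^ k * _
    rw [gg_ne _ hi, single_apply', if_neg (fun h => hi ⟨k, h.symm⟩), mul_zero]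

lemma h_neg (t : ℝ) : h (-t) = -h t := by
  unfold h
  rw [Real.log_neg_eq_log]
  ring

/-- The vector space `W` with a topology is normable: its neighbourhoods of `0` are those of some
norm `p`. -/
def IsNormable (W : Type) [AddCommGroup W] [Module ℝ W] (τ : TopologicalSpace W) : Prop :=
  ∃ p : Seminorm ℝ W, (∀ x, p x = 0 → x = 0) ∧
    ∀ U : Set W, U ∈ @nhds W τ 0 ↔ ∃ ε : ℝ, 0 < ε ∧ {x | p x < ε} ⊆ U

theorem not_normable (W : Type) [AddCommGroup W] [Module ℝ W] [τ : TopologicalSpace W]
    [IsTopologicalAddGroup W] [ContinuousSMul ℝ W] [PolishSpace W] (ι : W →ₗ[ℝ] L1)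
    (hinj : Function.Injective ι) (hrange : ∀ x : L1, (∃ w, ι w = x) ↔ Summable fun i => |h (x i)|)
    (hB : ∀ B : Set W, @MeasurableSet W (borel W) B ↔ @MeasurableSet L1 (borel L1) (ι '' B)) :
    ¬ IsNormable W τ := by
  classical
  rintro ⟨p, -, hp⟩
  borelize W L1
  have hball : ∀ ε : ℝ, 0 < ε → {x | p x < ε} ∈ 𝓝 (0 : W) := fun ε hε =>
    (hp _).2 ⟨ε, hε, Subset.rfl⟩
  have hopen : ∀ c : ℝ, IsOpen {w | p w < c} := by
    intro c
    rw [isOpen_iff_mem_nhds]
    intro w hw
    have h1 : Tendsto (fun x : W => x - w) (𝓝 w) (𝓝 0) := by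
      have h0 : Tendsto (fun x : W => x - w) (𝓝 w) (𝓝 (w - w)) :=
        (continuous_id.sub continuous_const).tendsto w
      rwa [sub_self] at h0
    have h2 := h1 (hball (c - p w) (sub_pos.2 hw))
    refine mem_of_superset h2 fun x hx => ?_
    have h3 : p (x - w) < c - p w := hx
    have h4 : p x ≤ p (x - w) + p w := by
      have := map_add_le_add p (x - w) w
      rwa [sub_add_cancel] at this
    show p x < c
    linarith
  -- unit vectors
  have hunit : ∀ i : ℕ, Summable fun k =>
      |h ((lp.single (E := fun _ : ℕ => ℝ) 1 i (1 : ℝ)) k)| := by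
    intro i
    refine summable_of_ne_finset_zero (s := {i}) fun k hk => ?_
    rw [Finset.mem_singleton] at hk
    rw [lp.single_apply_ne _ _ _ hk, h_zero, abs_zero]
  choose u hu using fun i => (hrange _).2 (hunit i)
  -- Step A: the unit vectors are bounded
  have hbdd : ∃ C : ℝ, ∀ i, p (u i) ≤ C := by
    by_contra hcon
    push Not at hcon
    have hfreq : ∀ k : ℕ, ∃ᶠ i in atTop, (4 : ℝ) ^ k < p (u i) := by
      intro k
      rw [frequently_atTop]
      intro N
      set C := (4 : ℝ) ^ k + ∑ i ∈ Finset.range N, p (u i) with hC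
      obtain ⟨i, hi⟩ := hcon C
      have h0 : 0 ≤ ∑ i ∈ Finset.range N, p (u i) :=
        Finset.sum_nonneg fun i _ => apply_nonneg p _
      refine ⟨i, ?_, by linarith⟩
      by_contra hlt
      have h1 : p (u i) ≤ ∑ i ∈ Finset.range N, p (u i) :=
        Finset.single_le_sum (f := fun i => p (u i)) (fun i _ => apply_nonneg p _)
          (Finset.mem_range.2 (not_le.1 hlt))
      have h2 : (0 : ℝ) < 4 ^ k := by positivity
      linarith
    obtain ⟨e, hemono, heb⟩ := Filter.extraction_forall_of_frequently hfreq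
    have he := hemono.injective
    choose S hS using fun t => (hrange (emb he t)).2 (emb_h he t)
    have hSsub : ∀ s t, S (s - t) = S s - S t := by
      intro s t
      apply hinj
      rw [map_sub, hS, hS, hS, map_sub]
    have hSsmul : ∀ (c : ℝ) t, S (c • t) = c • S t := by
      intro c t
      apply hinj
      rw [map_smul, hS, hS, map_smul]
    obtain ⟨n, hn⟩ := Pool.Agent.R280.Pettis.pettis (A := fun n : ℕ => {t : L1 | p (S t) < n})
      (fun n => by
        have h1 : {t : L1 | p (S t) < n} = emb he ⁻¹' (ι '' {w | p w < n}) := by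
          ext t
          constructor
          · intro ht
            exact ⟨S t, ht, hS t⟩
          · rintro ⟨w, hw, hwt⟩
            have : w = S t := hinj (by rw [hwt, hS])
            show p (S t) < n
            rw [← this]; exact hw
        rw [h1]
        have h2 : MeasurableSet (ι '' {w | p w < n}) := (hB _).1 (hopen n).measurableSet
        exact (emb he).continuous.measurable h2)
      (by
        rw [eq_univ_iff_forall]
        intro t
        obtain ⟨n, hn⟩ := exists_nat_gt (p (S t))
        exact mem_iUnion.2 ⟨n, hn⟩)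
    obtain ⟨δ, hδ, hδs⟩ := Metric.mem_nhds_iff.1 hn
    have hsmall : ∀ t : L1, ‖t‖ < δ → p (S t) < 2 * n := by
      intro t ht
      obtain ⟨a, ha, b, hb, hab⟩ := hδs (mem_ball_zero_iff.2 ht)
      rw [hab, hSsub]
      have h1 : p (S a - S b) ≤ p (S a) + p (S b) := map_sub_le_add p _ _
      have h2 : p (S a) < n := ha
      have h3 : p (S b) < n := hb
      linarith
    -- apply to multiples of unit vectors
    obtain ⟨k, hk⟩ := pow_unbounded_of_one_lt (2 * n / (δ / 2)) (by norm_num : (1 : ℝ) < 2)
    have h1 := hsmall ((δ / 2) • lp.single (E := fun _ : ℕ => ℝ) 1 k (1 : ℝ)) (by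
      rw [norm_smul, lp.norm_single (by norm_num), norm_one, mul_one,
        Real.norm_of_nonneg (by positivity)]
      linarith)
    have h2 : S (lp.single (E := fun _ : ℕ => ℝ) 1 k (1 : ℝ)) = (1 / 2 : ℝ) ^ k • u (e k) := by
      apply hinj
      rw [hS, map_smul, hu, emb_single]
    rw [hSsmul, h2, map_smul_eq_mul, map_smul_eq_mul, Real.norm_of_nonneg (by positivity),
      Real.norm_of_nonneg (by positivity)] at h1
    have h3 : (1 / 2 : ℝ) ^ k * 4 ^ k ≤ (1 / 2 : ℝ) ^ k * p (u (e k)) :=
      mul_le_mul_of_nonneg_left (heb k).le (by positivity)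
    rw [← mul_pow] at h3
    norm_num at h3
    rw [div_lt_iff₀ (by positivity)] at hk
    have h4 : δ / 2 * 2 ^ k ≤ δ / 2 * ((1 / 2 : ℝ) ^ k * p (u (e k))) := by
      refine mul_le_mul_of_nonneg_left ?_ (by positivity)
      norm_num
      exact h3
    linarith
  obtain ⟨C, hC⟩ := hbdd
  have hC0 : 0 ≤ C := (apply_nonneg p (u 0)).trans (hC 0)
  -- Step B: the norm dominates the modular
  set K : ℕ → Set L1 := fun n => {x | ∀ F : Finset ℕ, ∑ i ∈ F, (|x i| + |h (x i)|) ≤ n} with hK
  have hKclosed : ∀ n, IsClosed (K n) := by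
    intro n
    have h1 : K n = ⋂ F : Finset ℕ, {x : L1 | ∑ i ∈ F, (|x i| + |h (x i)|) ≤ n} := by
      ext x; simp [hK]
    rw [h1]
    refine isClosed_iInter fun F => isClosed_le ?_ continuous_const
    refine continuous_finsetSum _ fun i _ => ?_
    have h2 : Continuous fun x : L1 => x i := (coord i).continuous
    exact h2.abs.add ((continuous_h.comp h2).abs)
  have hKrange : ∀ n, K n ⊆ Set.range ι := by
    intro n x hx
    refine (hrange x).2 ?_
    refine summable_of_sum_le (c := n) (fun i => abs_nonneg _) fun F => ?_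
    refine le_trans (Finset.sum_le_sum fun i _ => ?_) (hx F)
    exact le_add_of_nonneg_left (abs_nonneg _)
  obtain ⟨n, hn⟩ := Pool.Agent.R280.Pettis.pettis (G := W) (A := fun n : ℕ => ι ⁻¹' (K n))
    (fun n => by
      have h1 : ι '' (ι ⁻¹' (K n)) = K n := Set.image_preimage_eq_of_subset (hKrange n)
      refine (hB _).2 ?_
      rw [h1]
      exact (hKclosed n).measurableSet)
    (by
      rw [eq_univ_iff_forall]
      intro w
      have h1 : Summable fun i => |(ι w) i| + |h ((ι w) i)| :=
        (summable (ι w)).add ((hrange (ι w)).1 ⟨w, rfl⟩)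
      obtain ⟨n, hn⟩ := exists_nat_ge (∑' i, (|(ι w) i| + |h ((ι w) i)|))
      refine mem_iUnion.2 ⟨n, fun F => ?_⟩
      exact (h1.sum_le_tsum F fun i _ => by positivity).trans hn)
  obtain ⟨ε, hε, hεs⟩ := (hp _).1 hn
  have hdom : ∀ w : W, p w < ε → ∀ F : Finset ℕ, ∑ i ∈ F, |h ((ι w) i)| ≤ 8 * n := by
    intro w hw F
    obtain ⟨a, ha, b, hb, hab⟩ := hεs hw
    have h1 : ∀ i, |h ((ι w) i)| ≤ 4 * (|(ι a) i| + |h ((ι a) i)|) +
        4 * (|(ι b) i| + |h ((ι b) i)|) := by
      intro i
      have h2 : (ι w) i = (ι a) i + -(ι b) i := by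
        rw [hab, map_sub, lp.coeFn_sub, Pi.sub_apply, sub_eq_add_neg]
      have h3 := h_add ((ι a) i) (-(ι b) i)
      rw [← h2, h_neg, abs_neg] at h3
      have h4 : |h ((ι w) i)| ≤ |h ((ι w) i) - h ((ι a) i) - -h ((ι b) i)| +
          |h ((ι a) i)| + |h ((ι b) i)| := by
        have e1 : h ((ι w) i) = (h ((ι w) i) - h ((ι a) i) - -h ((ι b) i)) + h ((ι a) i) +
          -h ((ι b) i) := by ring
        calc |h ((ι w) i)| = |(h ((ι w) i) - h ((ι a) i) - -h ((ι b) i)) + h ((ι a) i) +
              -h ((ι b) i)| := by rw [← e1]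
          _ ≤ |(h ((ι w) i) - h ((ι a) i) - -h ((ι b) i)) + h ((ι a) i)| + |-h ((ι b) i)| :=
              abs_add_le _ _
          _ ≤ _ := by
              rw [abs_neg]
              gcongr
              exact abs_add_le _ _
      have e2 := abs_nonneg ((ι a) i)
      have e3 := abs_nonneg ((ι b) i)
      have e4 := abs_nonneg (h ((ι a) i))
      have e5 := abs_nonneg (h ((ι b) i))
      linarith
    refine (Finset.sum_le_sum fun i _ => h1 i).trans ?_
    rw [Finset.sum_add_distrib, ← Finset.mul_sum, ← Finset.mul_sum]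
    have h2 : ∑ i ∈ F, (|(ι a) i| + |h ((ι a) i)|) ≤ n := ha F
    have h3 : ∑ i ∈ F, (|(ι b) i| + |h ((ι b) i)|) ≤ n := hb F
    linarith
  -- the averages of unit vectors
  set s := ε / (2 * (C + 1)) with hs
  have hs0 : 0 < s := by positivity
  have key : ∀ N : ℕ, 0 < N → s * |Real.log (s / N)| ≤ 8 * n := by
    intro N hN
    have hN0 : (0 : ℝ) < N := by exact_mod_cast hN
    set w := (s / N) • ∑ i ∈ Finset.range N, u i with hw
    have hpw : p w < ε := by
      rw [hw, map_smul_eq_mul, Real.norm_of_nonneg (by positivity)]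
      have h1 : p (∑ i ∈ Finset.range N, u i) ≤ N * C := by
        have h2 : ∀ N : ℕ, p (∑ i ∈ Finset.range N, u i) ≤ N * C := by
          intro N
          induction N with
          | zero => simp
          | succ N ih =>
            rw [Finset.sum_range_succ]
            refine (map_add_le_add p _ _).trans ?_
            push_cast
            have := hC N
            linarith
        exact h2 N
      calc s / N * p (∑ i ∈ Finset.range N, u i) ≤ s / N * (N * C) :=
            mul_le_mul_of_nonneg_left h1 (by positivity)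
        _ = s * C := by field_simp
        _ < ε := by
            rw [hs, div_mul_eq_mul_div, div_lt_iff₀ (by positivity)]
            nlinarith
    have h1 := hdom w hpw (Finset.range N)
    have h2 : ∀ i ∈ Finset.range N, |h ((ι w) i)| = |h (s / N)| := by
      intro i hi
      congr 2
      rw [hw, map_smul, map_sum, ← coord_apply, map_smul, map_sum]
      simp only [hu, coord_apply, single_apply']
      rw [Finset.sum_ite_eq, if_pos hi, smul_eq_mul, mul_one]
    rw [Finset.sum_congr rfl h2, Finset.sum_const, Finset.card_range, nsmul_eq_mul] at h1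
    unfold h at h1
    rw [abs_mul, abs_of_pos (by positivity : (0 : ℝ) < s / N), ← mul_assoc,
      mul_div_cancel₀ _ hN0.ne'] at h1
    exact h1
  -- contradiction
  have hlim : Tendsto (fun N : ℕ => s * |Real.log (s / N)|) atTop atTop := by
    refine Tendsto.const_mul_atTop hs0 ?_
    have h1 : Tendsto (fun N : ℕ => Real.log (s / N)) atTop atBot := by
      have h2 : Tendsto (fun N : ℕ => s / (N : ℝ)) atTop (𝓝[>] 0) := by
        rw [tendsto_nhdsWithin_iff]
        refine ⟨tendsto_const_nhds.div_atTop tendsto_natCast_atTop_atTop, ?_⟩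
        filter_upwards [eventually_gt_atTop 0] with N hN
        have : (0 : ℝ) < N := by exact_mod_cast hN
        exact div_pos hs0 this
      exact Real.tendsto_log_nhdsGT_zero.comp h2
    exact tendsto_abs_atBot_atTop.comp h1
  obtain ⟨N, hN⟩ := ((hlim.eventually_gt_atTop (8 * (n : ℝ))).and
    (eventually_gt_atTop 0)).exists
  exact absurd (key N hN.2) (not_le.2 hN.1)

end Pool.Agent.R280.XLogX
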